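import Mathlib

set_option maxHeartbeats 1000000

/-! The concordant pair `X^2+5Y^2`, `X^2+32Y^2`: both are squares only if `Y=0` or `X^2=4Y^2`. -/

namespace Q46.Conc

lemma pos_sq (m n z : ℤ) (hm : 0 < m) (hn : 0 < n) (hz : 0 < z) (hc : IsCoprime m n)
    (h : m * n = z ^ 2) : ∃ s t : ℤ, 0 < s ∧ 0 < t ∧ m = s ^ 2 ∧ n = t ^ 2 ∧ s * t = z := by
  have h1 := Int.sq_of_isCoprime hc h
  have h2 := Int.sq_of_isCoprime hc.symm (by rw [mul_comm]; exact h)
  obtain ⟨a, ha⟩ := h1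
  obtain ⟨b, hb⟩ := h2
  have ha' : m = a ^ 2 := by
    rcases ha with ha | ha
    · exact ha
    · nlinarith [sq_nonneg a]
  have hb' : n = b ^ 2 := by
    rcases hb with hb | hb
    · exact hb
    · nlinarith [sq_nonneg b]
  refine ⟨|a|, |b|, ?_, ?_, ?_, ?_, ?_⟩
  · apply abs_pos.mpr
    rintro rfl
    simp at ha'
    omega
  · apply abs_pos.mpr
    rintro rfl
    simp at hb'
    omega
  · rw [sq_abs]; exact ha'
  · rw [sq_abs]; exact hb'
  · rw [← abs_mul]
    have : (a * b) ^ 2 = z ^ 2 := by rw [← h, ha', hb']; ring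
    have h3 := (sq_eq_sq_iff_abs_eq_abs _ _).mp this
    rw [h3, abs_of_pos hz]

/-- four numbers -/
lemma four (s t p q : ℤ) (hs : 0 < s) (ht : 0 < t) (hp : 0 < p) (_hq : 0 < q)
    (h : s * t = p * q) (h1 : IsCoprime s t) :
    ∃ a b c d : ℤ, 0 < a ∧ 0 < b ∧ 0 < c ∧ 0 < d ∧ s = a * b ∧ t = c * d ∧ p = a * c ∧ q = b * d ∧
      IsCoprime a c ∧ IsCoprime a d ∧ IsCoprime b c ∧ IsCoprime b d := by
  have hg : 0 < Int.gcd s p := Int.gcd_pos_of_ne_zero_left _ hs.ne'
  obtain ⟨s', p', hcop, hs', hp'⟩ := Int.exists_gcd_one hg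
  set a : ℤ := (Int.gcd s p : ℤ) with ha
  have hapos : 0 < a := by rw [ha]; exact_mod_cast hg
  have hcop' : IsCoprime s' p' := Int.isCoprime_iff_gcd_eq_one.mpr hcop
  have hs'pos : 0 < s' := by
    by_contra hh
    push Not at hh
    nlinarith
  have hp'pos : 0 < p' := by
    by_contra hh
    push Not at hh
    nlinarith
  have e1 : s' * t = p' * q := by
    have : a * (s' * t) = a * (p' * q) := by
      calc a * (s' * t) = (s' * a) * t := by ring
        _ = s * t := by rw [← hs']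
        _ = p * q := h
        _ = (p' * a) * q := by rw [← hp']
        _ = a * (p' * q) := by ring
    exact mul_left_cancel₀ hapos.ne' this
  have hdvd : p' ∣ t := by
    have : p' ∣ s' * t := ⟨q, e1⟩
    exact hcop'.symm.dvd_of_dvd_mul_left this
  obtain ⟨d, hd⟩ := hdvd
  have hdpos : 0 < d := by
    by_contra hh
    push Not at hh
    nlinarith
  have e2 : q = s' * d := by
    have : p' * q = p' * (s' * d) := by rw [← e1, hd]; ring
    exact mul_left_cancel₀ hp'pos.ne' this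
  have hsab : s = a * s' := by rw [hs']; ring
  refine ⟨a, s', p', d, hapos, hs'pos, hp'pos, hdpos, hsab, hd, by rw [hp']; ring, e2, ?_, ?_, ?_, ?_⟩
  · rw [hsab, hd] at h1
    exact (IsCoprime.of_mul_left_left h1).of_mul_right_left
  · rw [hsab, hd] at h1
    exact (IsCoprime.of_mul_left_left h1).of_mul_right_right
  · rw [hsab, hd] at h1
    exact (IsCoprime.of_mul_left_right h1).of_mul_right_left
  · rw [hsab, hd] at h1
    exact (IsCoprime.of_mul_left_right h1).of_mul_right_right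


lemma cop_of_prime (a b : ℤ) (h : ∀ p : ℕ, p.Prime → (p : ℤ) ∣ a → (p : ℤ) ∣ b → False) :
    IsCoprime a b := by
  rw [Int.isCoprime_iff_gcd_eq_one]
  by_contra hne
  obtain ⟨p, hp, hd⟩ := Nat.exists_prime_and_dvd hne
  have h1 : (p : ℤ) ∣ a := (Int.natCast_dvd_natCast.mpr hd).trans (Int.gcd_dvd_left ..)
  have h2 : (p : ℤ) ∣ b := (Int.natCast_dvd_natCast.mpr hd).trans (Int.gcd_dvd_right ..)
  exact h p hp h1 h2

lemma cop_aux (X Y A c : ℤ) (hc : IsCoprime X Y)
    (hz : ∀ p : ℕ, p.Prime → (p : ℤ) ∣ X → (p : ℤ) ^ 2 ∣ c → False)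
    (h : X ^ 2 + c * Y ^ 2 = A ^ 2) : IsCoprime A X := by
  apply cop_of_prime
  intro p hp hA hX
  have h1 : (p : ℤ) ^ 2 ∣ c * Y ^ 2 := by
    have e : c * Y ^ 2 = A ^ 2 - X ^ 2 := by rw [← h]; ring
    rw [e]
    exact dvd_sub (pow_dvd_pow_of_dvd hA 2) (pow_dvd_pow_of_dvd hX 2)
  have h2 : IsCoprime ((p : ℤ) ^ 2) (Y ^ 2) := by
    apply IsCoprime.pow
    obtain ⟨k, hk⟩ := hX
    rw [hk] at hc
    exact hc.of_mul_left_left
  exact hz p hp hX (h2.dvd_of_dvd_mul_right h1)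

lemma cop_diff (A X : ℤ) (h : IsCoprime A X) (ho : (A - X) % 2 = 1) :
    IsCoprime (A - X) (A + X) := by
  have h1 : IsCoprime (A - X) A := by
    obtain ⟨a, b, hab⟩ := h
    exact ⟨-b, a + b, by linear_combination hab⟩
  have h2 : IsCoprime (A - X) 2 := by
    refine ⟨1, -((A - X) / 2), ?_⟩
    omega
  have h3 := (h2.mul_right h1).add_mul_left_right (-1)
  have e : 2 * A + (A - X) * (-1) = A + X := by ring
  rwa [e] at h3

lemma cop_half (u v : ℤ) (h : IsCoprime (u + v) (v - u)) : IsCoprime u v := by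
  obtain ⟨a, b, hab⟩ := h
  exact ⟨a - b, a + b, by linear_combination hab⟩

lemma sq8 (n : ℤ) : (n % 2 = 1 ∧ n ^ 2 % 8 = 1) ∨ (n % 4 = 2 ∧ n ^ 2 % 8 = 4) ∨
    (n % 4 = 0 ∧ n ^ 2 % 8 = 0) := by
  obtain ⟨k, hk⟩ : ∃ k, k = n / 4 := ⟨_, rfl⟩
  have h4 : n % 4 = 0 ∨ n % 4 = 1 ∨ n % 4 = 2 ∨ n % 4 = 3 := by omega
  rcases h4 with h | h | h | h
  · have e : n = 4 * k := by omega
    have e2 : n ^ 2 = 8 * (2 * k ^ 2) := by rw [e]; ring
    right; right; omega
  · have e : n = 4 * k + 1 := by omega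
    have e2 : n ^ 2 = 8 * (2 * k ^ 2 + k) + 1 := by rw [e]; ring
    left; omega
  · have e : n = 4 * k + 2 := by omega
    have e2 : n ^ 2 = 8 * (2 * k ^ 2 + 2 * k) + 4 := by rw [e]; ring
    right; left; omega
  · have e : n = 4 * k + 3 := by omega
    have e2 : n ^ 2 = 8 * (2 * k ^ 2 + 3 * k + 1) + 1 := by rw [e]; ring
    left; omega

lemma pos_of (X Y A c : ℤ) (hc : 0 < c) (hY : 0 < Y) (hA : 0 < A)
    (h : X ^ 2 + c * Y ^ 2 = A ^ 2) : 0 < A - X ∧ 0 < A + X := by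
  have h1 : X ^ 2 < A ^ 2 := by
    have : 0 < c * Y ^ 2 := by positivity
    linarith
  have h2 := abs_lt_of_sq_lt_sq h1 hA.le
  have h3 := abs_lt.mp h2
  constructor <;> linarith [h3.1, h3.2]

lemma no_sq5 (p : ℕ) (hp : p.Prime) (h : (p : ℤ) ^ 2 ∣ 5) : False := by
  have h' : p ^ 2 ∣ 5 := by exact_mod_cast h
  have hle := Nat.le_of_dvd (by norm_num) h'
  have h2 := hp.two_le
  have h3 : p ≤ 2 := by nlinarith
  have h4 : p = 2 := le_antisymm h3 h2
  subst h4
  norm_num at h'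

lemma sq32 (p : ℕ) (hp : p.Prime) (h : (p : ℤ) ^ 2 ∣ 32) : p = 2 := by
  have h' : p ^ 2 ∣ 2 ^ 5 := by exact_mod_cast h
  have h3 : p ∣ 2 ^ 5 := (dvd_pow_self p two_ne_zero).trans h'
  exact (Nat.prime_dvd_prime_iff_eq hp Nat.prime_two).mp (hp.dvd_of_dvd_pow h3)

lemma sq8' (p : ℕ) (hp : p.Prime) (h : (p : ℤ) ^ 2 ∣ 8) : p = 2 := by
  have h' : p ^ 2 ∣ 2 ^ 3 := by exact_mod_cast h
  have h3 : p ∣ 2 ^ 3 := (dvd_pow_self p two_ne_zero).trans h'
  exact (Nat.prime_dvd_prime_iff_eq hp Nat.prime_two).mp (hp.dvd_of_dvd_pow h3)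

/-- a four-square sum with equal products is never divisible by 3 -/
lemma mod3 (p q s t : ℤ) (h1 : IsCoprime p q) (h2 : IsCoprime s t) (e : ℤ)
    (he : (p * q) ^ 2 % 3 = (s * t) ^ 2 % 3) (h : p ^ 2 + q ^ 2 + s ^ 2 + t ^ 2 = 3 * e) : False := by
  have key : ∀ p q s t : ZMod 3, ¬ (p = 0 ∧ q = 0) → ¬ (s = 0 ∧ t = 0) →
      (p * q) ^ 2 = (s * t) ^ 2 → p ^ 2 + q ^ 2 + s ^ 2 + t ^ 2 ≠ 0 := by decide
  have z : ∀ a b : ℤ, IsCoprime a b → ¬ ((a : ZMod 3) = 0 ∧ (b : ZMod 3) = 0) := by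
    rintro a b hab ⟨ha, hb⟩
    have ha' := (ZMod.intCast_zmod_eq_zero_iff_dvd a 3).mp ha
    have hb' := (ZMod.intCast_zmod_eq_zero_iff_dvd b 3).mp hb
    have := hab.isUnit_of_dvd' ha' hb'
    rw [Int.isUnit_iff] at this
    norm_num at this
  refine key p q s t (z _ _ h1) (z _ _ h2) ?_ ?_
  · have := (ZMod.intCast_eq_intCast_iff' ((p * q) ^ 2) ((s * t) ^ 2) 3).mpr (by exact_mod_cast he)
    exact_mod_cast this
  · have : ((p ^ 2 + q ^ 2 + s ^ 2 + t ^ 2 : ℤ) : ZMod 3) = ((3 * e : ℤ) : ZMod 3) := by rw [h]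
    push_cast at this
    rw [this]
    have h3 : (3 : ZMod 3) = 0 := by decide
    rw [h3, zero_mul]


lemma sq_pos_eq (a n : ℤ) (ha : 0 < a) (hn : 0 < n) (h : a ^ 2 = n ^ 2) : a = n := by
  have := (sq_eq_sq_iff_abs_eq_abs a n).mp h
  rwa [abs_of_pos ha, abs_of_pos hn] at this

/-- finding `k` with `P = a^2 k`, `Q = d^2 k`. -/
lemma exists_k (a d b c P Q : ℤ) (ha : 0 < a) (hac : IsCoprime a d)
    (hbc : IsCoprime b c) (hP : 0 < P) (h : d ^ 2 * P = a ^ 2 * Q)
    (x1 y1 x2 y2 : ℤ) (e1 : x1 * P + y1 * Q = 27 * b ^ 2) (e2 : x2 * P + y2 * Q = 27 * c ^ 2) :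
    ∃ k : ℤ, P = a ^ 2 * k ∧ Q = d ^ 2 * k ∧ (k = 1 ∨ k = 3 ∨ k = 9 ∨ k = 27) := by
  have h1 : a ^ 2 ∣ d ^ 2 * P := ⟨Q, h⟩
  have h2 : a ^ 2 ∣ P := (hac.pow : IsCoprime (a ^ 2) (d ^ 2)).dvd_of_dvd_mul_left h1
  obtain ⟨k, hk⟩ := h2
  have hQ : Q = d ^ 2 * k := by
    have : a ^ 2 * Q = a ^ 2 * (d ^ 2 * k) := by rw [← h, hk]; ring
    exact mul_left_cancel₀ (pow_pos ha 2).ne' this
  refine ⟨k, hk, hQ, ?_⟩
  have kP : k ∣ P := ⟨a ^ 2, by rw [hk]; ring⟩
  have kQ : k ∣ Q := ⟨d ^ 2, by rw [hQ]; ring⟩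
  have k1 : k ∣ 27 * b ^ 2 := by
    rw [← e1]; exact dvd_add (kP.mul_left _) (kQ.mul_left _)
  have k2 : k ∣ 27 * c ^ 2 := by
    rw [← e2]; exact dvd_add (kP.mul_left _) (kQ.mul_left _)
  have k27 : k ∣ 27 := by
    obtain ⟨x, y, hxy⟩ := (hbc.pow : IsCoprime (b ^ 2) (c ^ 2))
    have e : (27 : ℤ) = x * (27 * b ^ 2) + y * (27 * c ^ 2) := by linear_combination (-27) * hxy
    rw [e]
    exact dvd_add (k1.mul_left _) (k2.mul_left _)
  have kpos : 0 < k := by
    by_contra hh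
    push Not at hh
    have : a ^ 2 * k ≤ 0 := mul_nonpos_of_nonneg_of_nonpos (sq_nonneg a) hh
    linarith
  have kle : k ≤ 27 := Int.le_of_dvd (by norm_num) k27
  interval_cases k <;> simp_all

lemma odd_of_mul (a b : ℤ) (h : (a * b) % 2 = 1) : a % 2 = 1 ∧ b % 2 = 1 := by
  have := Int.odd_mul.mp (Int.odd_iff.mpr h)
  exact ⟨Int.odd_iff.mp this.1, Int.odd_iff.mp this.2⟩

/-- type one: `Y` odd. -/
lemma core1 (X Y A B : ℤ) (hY : 0 < Y) (hA : 0 < A) (hB : 0 < B) (hc : IsCoprime X Y)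
    (ho : Y % 2 = 1) (h1 : X ^ 2 + 5 * Y ^ 2 = A ^ 2) (h2 : X ^ 2 + 32 * Y ^ 2 = B ^ 2)
    (h5 : (5 : ℤ) ∣ A - X)
    (IH : ∀ X' Y' A' B' : ℤ, 0 < Y' → Y' < Y → 0 < A' → 0 < B' → IsCoprime X' Y' → Y' % 2 = 1 →
      X' ^ 2 + 5 * Y' ^ 2 = A' ^ 2 → X' ^ 2 + 32 * Y' ^ 2 = B' ^ 2 → X' ^ 2 = 4 * Y' ^ 2) :
    X ^ 2 = 4 * Y ^ 2 := by
  have pX := sq8 X
  have pY := sq8 Y
  have pA := sq8 A
  have pB := sq8 B
  have hX4 : X % 4 = 2 := by omega
  have hA2 : A % 2 = 1 := by omega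
  have hB2 : B % 4 = 2 := by
    have hB2' : B % 2 = 0 := by omega
    obtain ⟨X1, hX1⟩ : ∃ X1, X = 2 * X1 := ⟨X / 2, by omega⟩
    obtain ⟨B1, hB1⟩ : ∃ B1, B = 2 * B1 := ⟨B / 2, by omega⟩
    have e : X1 ^ 2 + 8 * Y ^ 2 = B1 ^ 2 := by
      have : 4 * (X1 ^ 2 + 8 * Y ^ 2) = 4 * B1 ^ 2 := by
        rw [hX1, hB1] at h2; linear_combination h2
      linarith
    have p1 := sq8 X1
    have p2 := sq8 B1
    omega
  obtain ⟨hpA1, hpA2⟩ := pos_of X Y A 5 (by norm_num) hY hA h1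
  obtain ⟨hpB1, hpB2⟩ := pos_of X Y B 32 (by norm_num) hY hB h2
  have cAX : IsCoprime A X := cop_aux X Y A 5 hc (fun p hp _ hd => no_sq5 p hp hd) h1
  have cAX2 : IsCoprime (A - X) (A + X) := cop_diff A X cAX (by omega)
  obtain ⟨m, hm⟩ := h5
  have hmpos : 0 < m := by omega
  have cm : IsCoprime m (A + X) := by
    rw [hm] at cAX2
    exact cAX2.of_mul_left_right
  have em : m * (A + X) = Y ^ 2 := by
    have : 5 * (m * (A + X)) = 5 * Y ^ 2 := by
      calc 5 * (m * (A + X)) = (A - X) * (A + X) := by rw [hm]; ring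
        _ = 5 * Y ^ 2 := by linear_combination -h1
    linarith
  obtain ⟨s, t, hs, ht, hms, hAt, hst⟩ := pos_sq m (A + X) Y hmpos hpA2 hY cm em
  have cst : IsCoprime s t := by
    rw [hms, hAt] at cm
    exact IsCoprime.pow_iff (by norm_num) (by norm_num) |>.mp cm
  -- second factorisation
  obtain ⟨u, hu⟩ : ∃ u, B - X = 4 * u ∨ B - X = 4 * u := ⟨(B - X) / 4, by omega⟩
  obtain ⟨v, hv⟩ : ∃ v, B + X = 4 * v := ⟨(B + X) / 4, by omega⟩
  have hu : B - X = 4 * u := by tauto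
  have euv : u * v = 2 * Y ^ 2 := by
    have : 16 * (u * v) = 16 * (2 * Y ^ 2) := by
      calc 16 * (u * v) = (B - X) * (B + X) := by rw [hu, hv]; ring
        _ = 16 * (2 * Y ^ 2) := by linear_combination -h2
    linarith
  have hupos : 0 < u := by omega
  have hvpos : 0 < v := by omega
  have cuv : IsCoprime u v := by
    apply cop_half
    have eB : B = 2 * (u + v) := by linarith
    have eX : X = 2 * (v - u) := by linarith
    have e : (v - u) ^ 2 + 8 * Y ^ 2 = (u + v) ^ 2 := by linear_combination (-4) * euv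
    apply cop_aux (v - u) Y (u + v) 8 ?_ ?_ e
    · rw [eX] at hc
      exact hc.of_mul_left_right
    · intro p hp hpd hp2
      have := sq8' p hp hp2
      subst this
      have : (2 : ℤ) ∣ v - u := by exact_mod_cast hpd
      omega
  have huv : (∃ p q : ℤ, 0 < p ∧ 0 < q ∧ u = 2 * q ^ 2 ∧ v = p ^ 2 ∧ q * p = Y ∧ IsCoprime q p) ∨
      (∃ p q : ℤ, 0 < p ∧ 0 < q ∧ v = 2 * q ^ 2 ∧ u = p ^ 2 ∧ q * p = Y ∧ IsCoprime q p) := by
    have h2uv : (2 : ℤ) ∣ u * v := ⟨Y ^ 2, euv⟩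
    rcases Int.prime_two.dvd_or_dvd h2uv with hd | hd
    · left
      obtain ⟨u', hu'⟩ := hd
      have c' : IsCoprime u' v := by rw [hu'] at cuv; exact cuv.of_mul_left_right
      obtain ⟨q, p, hq, hp, e1, e2, e3⟩ := pos_sq u' v Y (by omega) hvpos hY c'
        (by
          have : 2 * (u' * v) = 2 * Y ^ 2 := by rw [← euv, hu']; ring
          linarith)
      refine ⟨p, q, hp, hq, by rw [hu', e1], e2, e3, ?_⟩
      rw [e1, e2] at c'
      exact IsCoprime.pow_iff (by norm_num) (by norm_num) |>.mp c'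
    · right
      obtain ⟨v', hv'⟩ := hd
      have c' : IsCoprime v' u := by rw [hv'] at cuv; exact cuv.of_mul_right_right.symm
      obtain ⟨q, p, hq, hp, e1, e2, e3⟩ := pos_sq v' u Y (by omega) hupos hY c'
        (by
          have : 2 * (v' * u) = 2 * Y ^ 2 := by rw [← euv, hv']; ring
          linarith)
      refine ⟨p, q, hp, hq, by rw [hv', e1], e2, e3, ?_⟩
      rw [e1, e2] at c'
      exact IsCoprime.pow_iff (by norm_num) (by norm_num) |>.mp c'
  have eX1 : 2 * X = t ^ 2 - 5 * s ^ 2 := by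
    rw [← hAt, ← hms]; linarith
  rcases huv with ⟨p, q, hp, hq, eu, ev, epq, cpq⟩ | ⟨p, q, hp, hq, eu, ev, epq, cpq⟩
  · -- good case
    have eX2 : X = 2 * p ^ 2 - 4 * q ^ 2 := by
      have : X = 2 * (v - u) := by linarith
      rw [this, eu, ev]; ring
    obtain ⟨a, b, c, d, ha, hb, hc', hd, es, et, ep, eq, cac, cad, cbc, cbd⟩ :=
      four s t p q hs ht hp hq (by rw [hst, ← epq]; ring) cst
    have main : d ^ 2 * (c ^ 2 + 8 * b ^ 2) = a ^ 2 * (4 * c ^ 2 + 5 * b ^ 2) := by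
      have : t ^ 2 - 5 * s ^ 2 = 4 * p ^ 2 - 8 * q ^ 2 := by rw [← eX1, eX2]; ring
      rw [es, et, ep, eq] at this
      linear_combination this
    obtain ⟨k, hk1, hk2, hk⟩ := exists_k a d b c _ _ ha cad cbc (by positivity) main
      4 (-1) (-5) 8 (by ring) (by ring)
    have ho' : (a * b * (c * d)) % 2 = 1 := by rw [← es, ← et, hst]; exact ho
    have oab := odd_of_mul _ _ ho'
    have oa := (odd_of_mul _ _ oab.1).1
    have ob := (odd_of_mul _ _ oab.1).2
    have oc := (odd_of_mul _ _ oab.2).1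
    have od := (odd_of_mul _ _ oab.2).2
    have qa := sq8 a
    have qb := sq8 b
    have qc := sq8 c
    have qd := sq8 d
    have hYabcd : Y = (a * b) * (c * d) := by rw [← es, ← et, hst]
    have cb : IsCoprime (2 * c) b := by
      have : IsCoprime (2 : ℤ) b := ⟨-((b - 1) / 2), 1, by omega⟩
      exact this.mul_left cbc.symm
    have fin : c ^ 2 = b ^ 2 → (k = 1 ∨ k = 9) → X ^ 2 = 4 * Y ^ 2 := by
      intro hcb hk19
      have hcb' : c = b := sq_pos_eq c b hc' hb hcb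
      have hb1 : b = 1 := by
        rw [hcb'] at cbc
        have := isCoprime_self.mp cbc
        rw [Int.isUnit_iff] at this
        omega
      have hc1 : c = 1 := by rw [hcb', hb1]
      rw [hc1, hb1] at hk1 hk2
      rcases hk19 with rfl | rfl
      · have ha3 : a = 3 := sq_pos_eq a 3 ha (by norm_num) (by linarith)
        have hd3 : d = 3 := sq_pos_eq d 3 hd (by norm_num) (by linarith)
        rw [ha3, hd3] at cad
        have := isCoprime_self.mp cad
        rw [Int.isUnit_iff] at this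
        omega
      · have ha1 : a = 1 := sq_pos_eq a 1 ha (by norm_num) (by linarith)
        have hd1 : d = 1 := sq_pos_eq d 1 hd (by norm_num) (by linarith)
        have hp1 : p = 1 := by rw [ep, ha1, hc1]; norm_num
        have hq1 : q = 1 := by rw [eq, hb1, hd1]; norm_num
        have hX : X = -2 := by rw [eX2, hp1, hq1]; norm_num
        have hYY : Y = 1 := by rw [← epq, hp1, hq1]; norm_num
        rw [hX, hYY]; norm_num
    have hbY : b < Y ∨ (a = 1 ∧ c = 1 ∧ d = 1) := by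
      by_cases hacd : a * c * d = 1
      · right
        have h1 : a = 1 := by
          have : a ∣ 1 := ⟨c * d, by rw [← hacd]; ring⟩
          have := Int.le_of_dvd one_pos this
          omega
        have h2 : c = 1 := by
          have : c ∣ 1 := ⟨a * d, by rw [← hacd]; ring⟩
          have := Int.le_of_dvd one_pos this
          omega
        have h3 : d = 1 := by
          have : d ∣ 1 := ⟨a * c, by rw [← hacd]; ring⟩
          have := Int.le_of_dvd one_pos this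
          omega
        exact ⟨h1, h2, h3⟩
      · left
        have : 0 < a * c * d := by positivity
        have h2 : 2 ≤ a * c * d := by omega
        have e : Y = b * (a * c * d) := by rw [hYabcd]; ring
        have := mul_le_mul_of_nonneg_left h2 hb.le
        linarith
    rcases hk with rfl | rfl | rfl | rfl
    · rcases hbY with hlt | ⟨ha1, hc1, hd1⟩
      · have := IH (2 * c) b d (2 * a) hb hlt hd (by positivity) cb ob
          (by linear_combination hk2) (by linear_combination 4 * hk1)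
        exact fin (by linarith) (Or.inl rfl)
      · rw [ha1, hc1] at hk1
        have : 0 < b ^ 2 := by positivity
        linarith
    · omega
    · rcases hbY with hlt | ⟨ha1, hc1, hd1⟩
      · have := IH (2 * c) b (3 * d) (6 * a) hb hlt (by positivity) (by positivity) cb ob
          (by linear_combination hk2) (by linear_combination 4 * hk1)
        exact fin (by linarith) (Or.inr rfl)
      · rw [ha1, hc1] at hk1
        refine fin ?_ (Or.inr rfl)
        rw [hc1]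
        linarith
    · omega
  · exfalso
    have eX2 : X = 4 * q ^ 2 - 2 * p ^ 2 := by
      have : X = 2 * (v - u) := by linarith
      rw [this, eu, ev]; ring
    have hh : q ^ 2 + p ^ 2 + s ^ 2 + t ^ 2 = 3 * (3 * q ^ 2 - p ^ 2 + 2 * s ^ 2) := by
      have : t ^ 2 - 5 * s ^ 2 = 8 * q ^ 2 - 4 * p ^ 2 := by rw [← eX1, eX2]; ring
      linear_combination this
    exact mod3 q p s t cpq cst _ (by rw [epq, hst]) hh


lemma one_le_mul (a b : ℤ) (ha : 0 < a) (hb : 0 < b) : a ≤ a * b := by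
  have := mul_le_mul_of_nonneg_left (show (1 : ℤ) ≤ b by omega) ha.le
  linarith

/-- type two: `X` odd. -/
lemma core2 (X Y A B : ℤ) (hY : 0 < Y) (hA : 0 < A) (hB : 0 < B) (hc : IsCoprime X Y)
    (ho : X % 2 = 1) (h1 : X ^ 2 + 5 * Y ^ 2 = A ^ 2) (h2 : X ^ 2 + 32 * Y ^ 2 = B ^ 2)
    (h5 : (5 : ℤ) ∣ A - X)
    (IH : ∀ X' Y' A' B' : ℤ, 0 < Y' → Y' < Y → 0 < A' → 0 < B' → IsCoprime X' Y' → X' % 2 = 1 →
      X' ^ 2 + 5 * Y' ^ 2 = A' ^ 2 → X' ^ 2 + 32 * Y' ^ 2 = B' ^ 2 → False) :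
    False := by
  have pX := sq8 X
  have pY := sq8 Y
  have pA := sq8 A
  have pB := sq8 B
  have hY4 : Y % 4 = 0 := by omega
  have hA2 : A % 2 = 1 := by omega
  have hB2 : B % 2 = 1 := by omega
  obtain ⟨hpA1, hpA2⟩ := pos_of X Y A 5 (by norm_num) hY hA h1
  obtain ⟨hpB1, hpB2⟩ := pos_of X Y B 32 (by norm_num) hY hB h2
  have cAX : IsCoprime A X := cop_aux X Y A 5 hc (fun p hp _ hd => no_sq5 p hp hd) h1
  have cBX : IsCoprime B X := cop_aux X Y B 32 hc (fun p hp hpd hd => by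
    have := sq32 p hp hd
    subst this
    have : (2 : ℤ) ∣ X := by exact_mod_cast hpd
    omega) h2
  obtain ⟨Z, hZ⟩ : ∃ Z, Y = 2 * Z := ⟨Y / 2, by omega⟩
  obtain ⟨u, hu⟩ : ∃ u, A - X = 2 * u := ⟨(A - X) / 2, by omega⟩
  obtain ⟨v, hv⟩ : ∃ v, A + X = 2 * v := ⟨(A + X) / 2, by omega⟩
  have eA : A = u + v := by linarith
  have eX : X = v - u := by linarith
  have cuv : IsCoprime u v := cop_half u v (by rw [← eA, ← eX]; exact cAX)
  obtain ⟨m, hm⟩ : (5 : ℤ) ∣ u := by omega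
  have em : m * v = Z ^ 2 := by
    have : 20 * (m * v) = 20 * Z ^ 2 := by
      calc 20 * (m * v) = 4 * (5 * m) * v := by ring
        _ = 4 * u * v := by rw [← hm]
        _ = (A - X) * (A + X) := by rw [hu, hv]; ring
        _ = 20 * Z ^ 2 := by rw [hZ] at h1; linear_combination -h1
    linarith
  have cm : IsCoprime m v := by rw [hm] at cuv; exact cuv.of_mul_left_right
  obtain ⟨s, t, hs, ht, hms, hvt, hst⟩ := pos_sq m v Z (by omega) (by omega) (by omega) cm em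
  have cst : IsCoprime s t := by
    rw [hms, hvt] at cm
    exact IsCoprime.pow_iff (by norm_num) (by norm_num) |>.mp cm
  have eX1 : X = t ^ 2 - 5 * s ^ 2 := by rw [eX, hm, hms, hvt]
  obtain ⟨w, hw⟩ : ∃ w, B - X = 2 * w := ⟨(B - X) / 2, by omega⟩
  obtain ⟨x, hx⟩ : ∃ x, B + X = 2 * x := ⟨(B + X) / 2, by omega⟩
  have eB : B = w + x := by linarith
  have eX' : X = x - w := by linarith
  have cwx : IsCoprime w x := cop_half w x (by rw [← eB, ← eX']; exact cBX)
  have ewx : w * x = 8 * Y ^ 2 := by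
    have : 4 * (w * x) = 4 * (8 * Y ^ 2) := by
      calc 4 * (w * x) = (B - X) * (B + X) := by rw [hw, hx]; ring
        _ = 4 * (8 * Y ^ 2) := by linear_combination -h2
    linarith
  have hwpos : 0 < w := by omega
  have hxpos : 0 < x := by omega
  have h8 : (8 : ℤ) ∣ w ∨ (8 : ℤ) ∣ x := by
    have hpar : w % 2 = 1 ∨ x % 2 = 1 := by omega
    rcases hpar with hp | hp
    · right
      have c8 : IsCoprime (8 : ℤ) w := by
        have : IsCoprime (2 : ℤ) w := ⟨-((w - 1) / 2), 1, by omega⟩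
        have := this.pow_left (m := 3)
        norm_num at this
        exact this
      exact c8.dvd_of_dvd_mul_left ⟨Y ^ 2, ewx⟩
    · left
      have c8 : IsCoprime (8 : ℤ) x := by
        have : IsCoprime (2 : ℤ) x := ⟨-((x - 1) / 2), 1, by omega⟩
        have := this.pow_left (m := 3)
        norm_num at this
        exact this
      exact c8.dvd_of_dvd_mul_right ⟨Y ^ 2, ewx⟩
  rcases h8 with hd | hd
  · obtain ⟨w', hw'⟩ := hd
    have c' : IsCoprime w' x := by rw [hw'] at cwx; exact cwx.of_mul_left_right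
    obtain ⟨p, q, hp, hq, e1, e2, epq⟩ := pos_sq w' x Y (by omega) hxpos hY c'
      (by
        have : 8 * (w' * x) = 8 * Y ^ 2 := by rw [← ewx, hw']; ring
        linarith)
    have eX2 : X = q ^ 2 - 8 * p ^ 2 := by rw [eX', hw', e1, e2]
    have pt := sq8 t
    have ps := sq8 s
    have pq' := sq8 q
    have ht2 : t % 2 = 1 := by omega
    have hq2 : q % 2 = 1 := by omega
    have c2t : IsCoprime (2 * s) t := by
      have : IsCoprime (2 : ℤ) t := ⟨-((t - 1) / 2), 1, by omega⟩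
      exact this.mul_left cst
    obtain ⟨a, b, c, d, ha, hb, hc', hd, es, et, ep, eq, cac, cad, cbc, cbd⟩ :=
      four (2 * s) t p q (by omega) ht hp hq (by rw [epq, hZ, ← hst]; ring) c2t
    have ob := (odd_of_mul b d (by rw [← eq]; exact hq2)).1
    have od := (odd_of_mul b d (by rw [← eq]; exact hq2)).2
    have oc := (odd_of_mul c d (by rw [← et]; exact ht2)).1
    have ha2 : a % 2 = 0 := by
      by_contra hne
      have h1' : Odd a := Int.odd_iff.mpr (by omega)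
      have h2' : Odd b := Int.odd_iff.mpr ob
      have h3' : Odd (a * b) := h1'.mul h2'
      rw [← es] at h3'
      have := Int.odd_iff.mp h3'
      omega
    obtain ⟨a1, ha1⟩ : ∃ a1, a = 2 * a1 := ⟨a / 2, by omega⟩
    have main : c ^ 2 * (d ^ 2 + 32 * a1 ^ 2) = b ^ 2 * (d ^ 2 + 5 * a1 ^ 2) := by
      have e : t ^ 2 - 5 * s ^ 2 = q ^ 2 - 8 * p ^ 2 := by rw [← eX1, eX2]
      have es' : s = a1 * b := by
        have : 2 * s = 2 * (a1 * b) := by rw [es, ha1]; ring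
        linarith
      rw [es', et, ep, eq, ha1] at e
      linear_combination e
    have ca1d : IsCoprime a1 d := by rw [ha1] at cad; exact cad.of_mul_left_right
    have ha1pos : 0 < a1 := by omega
    obtain ⟨k, hk1, hk2, hk⟩ := exists_k b c a1 d _ _ hb cbc ca1d (by positivity) main
      1 (-1) (-5) 32 (by ring) (by ring)
    have pb := sq8 b
    have pc := sq8 c
    have pd := sq8 d
    have hlt : a1 < Y := by
      have e : Y = a1 * (2 * (b * (c * d))) := by
        rw [hZ, ← hst]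
        calc 2 * (s * t) = (2 * s) * t := by ring
          _ = a1 * (2 * (b * (c * d))) := by rw [es, et, ha1]; ring
      have h3 : 0 < b * (c * d) := by positivity
      have h4 := one_le_mul a1 (b * (c * d)) ha1pos h3
      rw [e]
      linarith
    rcases hk with rfl | rfl | rfl | rfl
    · exact IH d a1 c b ha1pos hlt hc' hb ca1d.symm od (by linarith) (by linarith)
    · omega
    · exact IH d a1 (3 * c) (3 * b) ha1pos hlt (by omega) (by omega) ca1d.symm od
        (by linarith) (by linarith)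
    · omega
  · obtain ⟨x', hx'⟩ := hd
    have c' : IsCoprime x' w := by rw [hx'] at cwx; exact cwx.of_mul_right_right.symm
    obtain ⟨p, q, hp, hq, e1, e2, epq⟩ := pos_sq x' w Y (by omega) hwpos hY c'
      (by
        have : 8 * (x' * w) = 8 * Y ^ 2 := by rw [← ewx, hx']; ring
        linarith)
    have eX2 : X = 8 * p ^ 2 - q ^ 2 := by rw [eX', hx', e1, e2]
    have cpq : IsCoprime p q := by
      rw [e1, e2] at c'
      exact IsCoprime.pow_iff (by norm_num) (by norm_num) |>.mp c'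
    have hh : p ^ 2 + q ^ 2 + s ^ 2 + t ^ 2 = 3 * (3 * p ^ 2 + 2 * s ^ 2) := by
      have : t ^ 2 - 5 * s ^ 2 = 8 * p ^ 2 - q ^ 2 := by rw [← eX1, eX2]
      linear_combination this
    refine mod3 p q s t cpq cst _ ?_ hh
    have : (p * q) ^ 2 = (s * t) ^ 2 + 3 * (s * t) ^ 2 := by rw [epq, hZ, hst]; ring
    rw [this]
    omega

theorem all_coprime : ∀ N : ℕ, ∀ X Y A B : ℤ, 0 < Y → Y ≤ N → 0 < A → 0 < B → IsCoprime X Y →
    X ^ 2 + 5 * Y ^ 2 = A ^ 2 → X ^ 2 + 32 * Y ^ 2 = B ^ 2 → X ^ 2 = 4 * Y ^ 2 ∧ Y % 2 = 1 := by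
  intro N
  induction N with
  | zero => intro X Y A B h1 h2; simp at h2; omega
  | succ N ih =>
    intro X Y A B hY hYN hA hB hc h1 h2
    have wl : ∀ X, IsCoprime X Y → X ^ 2 + 5 * Y ^ 2 = A ^ 2 → X ^ 2 + 32 * Y ^ 2 = B ^ 2 →
        (5 : ℤ) ∣ A - X → X ^ 2 = 4 * Y ^ 2 ∧ Y % 2 = 1 := by
      intro X hc h1 h2 h5
      rcases Int.emod_two_eq_zero_or_one Y with hy | hy
      · exfalso
        have hx : X % 2 = 1 := by
          by_contra hne
          have h2X : (2 : ℤ) ∣ X := by omega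
          have h2Y : (2 : ℤ) ∣ Y := by omega
          have := hc.isUnit_of_dvd' h2X h2Y
          rw [Int.isUnit_iff] at this
          omega
        refine core2 X Y A B hY hA hB hc hx h1 h2 h5 ?_
        intro X' Y' A' B' g1 g2 g3 g4 g5 g6 g7 g8
        have := ih X' Y' A' B' g1 (by push_cast at hYN; omega) g3 g4 g5 g7 g8
        have e := this.1
        have p1 := sq8 X'
        have p2 := sq8 Y'
        omega
      · refine ⟨core1 X Y A B hY hA hB hc hy h1 h2 h5 ?_, hy⟩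
        intro X' Y' A' B' g1 g2 g3 g4 g5 g6 g7 g8
        exact (ih X' Y' A' B' g1 (by push_cast at hYN; omega) g3 g4 g5 g7 g8).1
    have h5 : (5 : ℤ) ∣ (A - X) * (A + X) := ⟨Y ^ 2, by linear_combination -h1⟩
    have p5 : Prime (5 : ℤ) := by norm_num
    rcases p5.dvd_or_dvd h5 with hd | hd
    · exact wl X hc h1 h2 hd
    · have := wl (-X) hc.neg_left (by linear_combination h1) (by linear_combination h2)
        (by have e : A - -X = A + X := by ring
            rw [e]; exact hd)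
      refine ⟨by linear_combination this.1, this.2⟩

theorem int_case (X Y A B : ℤ) (hY : Y ≠ 0) (h1 : X ^ 2 + 5 * Y ^ 2 = A ^ 2)
    (h2 : X ^ 2 + 32 * Y ^ 2 = B ^ 2) : X ^ 2 = 4 * Y ^ 2 := by
  have hg : 0 < Int.gcd X Y := Int.gcd_pos_of_ne_zero_right _ hY
  obtain ⟨x, y, hcop, hx, hy⟩ := Int.exists_gcd_one hg
  set g : ℤ := (Int.gcd X Y : ℤ) with hgdef
  have hgpos : 0 < g := by rw [hgdef]; exact_mod_cast hg
  have hy0 : y ≠ 0 := by
    rintro rfl
    simp at hy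
    exact hY hy
  have hgA : g ∣ A := by
    have : g ^ 2 ∣ A ^ 2 := ⟨x ^ 2 + 5 * y ^ 2, by rw [← h1, hx, hy]; ring⟩
    exact (Int.pow_dvd_pow_iff two_ne_zero).mp this
  have hgB : g ∣ B := by
    have : g ^ 2 ∣ B ^ 2 := ⟨x ^ 2 + 32 * y ^ 2, by rw [← h2, hx, hy]; ring⟩
    exact (Int.pow_dvd_pow_iff two_ne_zero).mp this
  obtain ⟨a, ha⟩ := hgA
  obtain ⟨b, hb⟩ := hgB
  have e1 : x ^ 2 + 5 * y ^ 2 = a ^ 2 := by
    have : g ^ 2 * (x ^ 2 + 5 * y ^ 2) = g ^ 2 * a ^ 2 := by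
      rw [hx, hy, ha] at h1; linear_combination h1
    exact mul_left_cancel₀ (pow_pos hgpos 2).ne' this
  have e2 : x ^ 2 + 32 * y ^ 2 = b ^ 2 := by
    have : g ^ 2 * (x ^ 2 + 32 * y ^ 2) = g ^ 2 * b ^ 2 := by
      rw [hx, hy, hb] at h2; linear_combination h2
    exact mul_left_cancel₀ (pow_pos hgpos 2).ne' this
  have hc : IsCoprime x |y| := by
    have hxy : IsCoprime x y := Int.isCoprime_iff_gcd_eq_one.mpr hcop
    rcases abs_choice y with h | h <;> rw [h]
    · exact hxy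
    · exact hxy.neg_right
  have ha0 : a ≠ 0 := by
    rintro rfl
    have : 0 < y ^ 2 := by positivity
    nlinarith [sq_nonneg x]
  have hb0 : b ≠ 0 := by
    rintro rfl
    have : 0 < y ^ 2 := by positivity
    nlinarith [sq_nonneg x]
  have := all_coprime |y|.toNat x |y| |a| |b| (abs_pos.mpr hy0) (by simp) (abs_pos.mpr ha0)
    (abs_pos.mpr hb0) hc (by rw [sq_abs, sq_abs]; exact e1) (by rw [sq_abs, sq_abs]; exact e2)
  have e := this.1
  rw [sq_abs] at e
  rw [hx, hy]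
  linear_combination g ^ 2 * e

theorem rat_case (X Y A B : ℚ) (hY : Y ≠ 0) (h1 : X ^ 2 + 5 * Y ^ 2 = A ^ 2)
    (h2 : X ^ 2 + 32 * Y ^ 2 = B ^ 2) : X ^ 2 = 4 * Y ^ 2 := by
  set D : ℤ := X.den * Y.den * A.den * B.den with hD
  have nx : (X.den : ℚ) ≠ 0 := by exact_mod_cast X.den_nz
  have ny : (Y.den : ℚ) ≠ 0 := by exact_mod_cast Y.den_nz
  have na : (A.den : ℚ) ≠ 0 := by exact_mod_cast A.den_nz
  have nb : (B.den : ℚ) ≠ 0 := by exact_mod_cast B.den_nz
  have ex : X * X.den = X.num := Rat.mul_den_eq_num X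
  have ey : Y * Y.den = Y.num := Rat.mul_den_eq_num Y
  have ea : A * A.den = A.num := Rat.mul_den_eq_num A
  have eb : B * B.den = B.num := Rat.mul_den_eq_num B
  obtain ⟨x, hx⟩ : ∃ x : ℤ, (x : ℚ) = X * D :=
    ⟨X.num * Y.den * A.den * B.den, by rw [hD]; push_cast; rw [← ex]; ring⟩
  obtain ⟨y, hy⟩ : ∃ x : ℤ, (x : ℚ) = Y * D :=
    ⟨Y.num * X.den * A.den * B.den, by rw [hD]; push_cast; rw [← ey]; ring⟩
  obtain ⟨a, ha⟩ : ∃ x : ℤ, (x : ℚ) = A * D :=
    ⟨A.num * X.den * Y.den * B.den, by rw [hD]; push_cast; rw [← ea]; ring⟩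
  obtain ⟨b, hb⟩ : ∃ x : ℤ, (x : ℚ) = B * D :=
    ⟨B.num * X.den * Y.den * A.den, by rw [hD]; push_cast; rw [← eb]; ring⟩
  have hD0 : (D : ℚ) ≠ 0 := by
    rw [hD]; push_cast; positivity
  have hy0 : y ≠ 0 := by
    rintro rfl
    have : Y * (D : ℚ) = 0 := by rw [← hy]; simp
    rcases mul_eq_zero.mp this with h | h
    · exact hY h
    · exact hD0 h
  have k1 : x ^ 2 + 5 * y ^ 2 = a ^ 2 := by
    have : (x : ℚ) ^ 2 + 5 * (y : ℚ) ^ 2 = (a : ℚ) ^ 2 := by
      rw [hx, hy, ha]; linear_combination (D : ℚ) ^ 2 * h1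
    exact_mod_cast this
  have k2 : x ^ 2 + 32 * y ^ 2 = b ^ 2 := by
    have : (x : ℚ) ^ 2 + 32 * (y : ℚ) ^ 2 = (b : ℚ) ^ 2 := by
      rw [hx, hy, hb]; linear_combination (D : ℚ) ^ 2 * h2
    exact_mod_cast this
  have k3 := int_case x y a b hy0 k1 k2
  have k4 : (x : ℚ) ^ 2 = 4 * (y : ℚ) ^ 2 := by exact_mod_cast k3
  rw [hx, hy] at k4
  have : (D : ℚ) ^ 2 * X ^ 2 = (D : ℚ) ^ 2 * (4 * Y ^ 2) := by linear_combination k4
  exact mul_left_cancel₀ (pow_ne_zero 2 hD0) this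

/-- `xy+yz+zx=-1`, `xyz=-9(x+y+z)` has no rational solution with `xyz ≠ 0`. -/
theorem triple (x y z : ℚ) (hx : x ≠ 0) (hy : y ≠ 0) (hz : z ≠ 0)
    (h1 : x * y + y * z + z * x = -1) (h2 : x * y * z = -9 * (x + y + z)) : False := by
  have key : ∀ x y z : ℚ, x ≠ 0 → x * y + y * z + z * x = -1 → x * y * z = -9 * (x + y + z) →
      x ^ 2 = 1 := by
    intro x y z hx h1 h2
    have e0 : (9 - x ^ 2) * (y + z) = -8 * x := by linear_combination h2 - x * h1
    have hne : (9 - x ^ 2) ≠ 0 := by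
      intro h0
      rw [h0, zero_mul] at e0
      apply hx
      linarith
    have k1 : ((9 - x ^ 2) * (y - z) / 2) ^ 2 + 5 * (2 * x) ^ 2 = (3 * x ^ 2 - 9) ^ 2 := by
      have hp : y * z = -1 - x * (y + z) := by linear_combination h1
      have e2 : ((9 - x ^ 2) * (y - z) / 2) ^ 2 =
          (((9 - x ^ 2) * (y + z)) ^ 2 - 4 * (9 - x ^ 2) * ((9 - x ^ 2) * (y * z))) / 4 := by ring
      have e3 : (9 - x ^ 2) * (y * z) = -(9 - x ^ 2) + 8 * x ^ 2 := by
        rw [hp]; linear_combination (-x) * e0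
      rw [e2, e3, e0]; ring
    have k2 : ((9 - x ^ 2) * (y - z) / 2) ^ 2 + 32 * (2 * x) ^ 2 = (3 * x ^ 2 + 9) ^ 2 := by
      linear_combination k1
    have k3 := rat_case _ _ _ _ (mul_ne_zero two_ne_zero hx) k1 k2
    have k4 : (x ^ 2 - 1) * (x ^ 2 - 9) = 0 := by
      have : 9 * ((x ^ 2 - 1) * (x ^ 2 - 9)) = 0 := by linear_combination k3 - k1
      linarith
    rcases mul_eq_zero.mp k4 with h | h
    · linarith
    · exact absurd (by linarith) hne
  have a1 := key x y z hx h1 h2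
  have a2 := key y z x hy (by linear_combination h1) (by linear_combination h2)
  have a3 := key z x y hz (by linear_combination h1) (by linear_combination h2)
  have e0 : (9 - x ^ 2) * (y + z) = -8 * x := by linear_combination h2 - x * h1
  rw [a1] at e0
  have e1 : x + y + z = 0 := by linarith
  rw [e1, mul_zero] at h2
  rcases mul_eq_zero.mp h2 with h | h
  · rcases mul_eq_zero.mp h with h | h
    · exact hx h
    · exact hy h
  · exact hz h

end Q46.Conc
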