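import Mathlib

set_option linter.unusedVariables false
set_option linter.unusedSectionVars false

open Set Filter Topology MeasureTheory intervalIntegral
open scoped RealInnerProductSpace

namespace Pool.Agent.Q46.Dm

variable {H : Type*} [NormedAddCommGroup H] [InnerProductSpace ℝ H] [CompleteSpace H]

/-- solution of `u'' + c u' + B u = g` for a bounded operator, with velocity `v` -/
structure Sol (B : H →L[ℝ] H) (c : ℝ) (g u v : ℝ → H) : Prop where
  du : ∀ t, HasDerivAt u (v t) t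
  dv : ∀ t, HasDerivAt v (g t - B (u t) - c • v t) t

lemma Sol.cu {B : H →L[ℝ] H} {c : ℝ} {g u v : ℝ → H} (h : Sol B c g u v) : Continuous u :=
  continuous_iff_continuousAt.2 fun t => (h.du t).continuousAt

lemma Sol.cv {B : H →L[ℝ] H} {c : ℝ} {g u v : ℝ → H} (h : Sol B c g u v) : Continuous v :=
  continuous_iff_continuousAt.2 fun t => (h.dv t).continuousAt

/-- first-order operator -/
noncomputable def blk (B : H →L[ℝ] H) (c : ℝ) : (H × H) →L[ℝ] (H × H) :=
  (ContinuousLinearMap.snd ℝ H H).prod (-(B.comp (ContinuousLinearMap.fst ℝ H H)) - c • ContinuousLinearMap.snd ℝ H H)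

lemma exists_flow {E : Type*} [NormedAddCommGroup E] [NormedSpace ℝ E] [CompleteSpace E] (𝓑 : E →L[ℝ] E)
    (F : ℝ → E) (hF : Continuous F) (x0 : E) :
    ∃ X : ℝ → E, (∀ t, HasDerivAt X (𝓑 (X t) + F t) t) ∧ X 0 = x0 := by
  let e : ℝ → (E →L[ℝ] E) := fun t => NormedSpace.exp (t • 𝓑)
  have he : ∀ t, HasDerivAt e (𝓑 * e t) t := fun t => hasDerivAt_exp_smul_const' 𝓑 t
  have hec : Continuous e := continuous_iff_continuousAt.2 fun t => (he t).continuousAt
  have hinv : ∀ t, e t * e (-t) = 1 := by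
    intro t
    have he' : ∀ t, HasDerivAt e (e t * 𝓑) t := fun t => hasDerivAt_exp_smul_const 𝓑 t
    have hd : ∀ t, HasDerivAt (fun t => e t * e (-t)) 0 t := by
      intro t
      have h1 : HasDerivAt (fun t => e (-t)) (-(𝓑 * e (-t))) t := by
        have := (he (-t)).scomp t (hasDerivAt_neg t)
        rw [neg_one_smul] at this
        exact this
      have h2 := (he' t).mul h1
      have h3 : e t * 𝓑 * e (-t) + e t * -(𝓑 * e (-t)) = 0 := by
        rw [mul_neg, mul_assoc, add_neg_cancel]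
      rw [h3] at h2
      exact h2
    have hconst := is_const_of_deriv_eq_zero (fun t => (hd t).differentiableAt) (fun t => (hd t).deriv) t 0
    have h0 : e 0 * e (-0) = 1 := by simp [e]
    exact hconst.trans h0
  let G : ℝ → E := fun t => x0 + ∫ s in (0:ℝ)..t, e (-s) (F s)
  have hcont : Continuous (fun s => e (-s) (F s)) := by
    exact (hec.comp continuous_neg).clm_apply hF
  have hG : ∀ t, HasDerivAt G (e (-t) (F t)) t := by
    intro t
    have := intervalIntegral.integral_hasDerivAt_right (hcont.intervalIntegrable 0 t)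
      (hcont.stronglyMeasurableAtFilter _ _) hcont.continuousAt
    exact this.const_add _
  refine ⟨fun t => e t (G t), ?_, ?_⟩
  · intro t
    have h1 := (he t).clm_apply (hG t)
    have h2 : (𝓑 * e t) (G t) + (e t) (e (-t) (F t)) = 𝓑 (e t (G t)) + F t := by
      have h3 : (e t) (e (-t) (F t)) = (e t * e (-t)) (F t) := rfl
      rw [h3, hinv]; rfl
    rw [h2] at h1
    exact h1
  · simp only [G, e]
    simp

lemma exists_sol (B : H →L[ℝ] H) (c : ℝ) (g : ℝ → H) (hg : Continuous g) (a w : H) :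
    ∃ u v, Sol B c g u v ∧ u 0 = a ∧ v 0 = w := by
  obtain ⟨X, hX, hX0⟩ := exists_flow (blk B c) (fun t => ((0 : H), g t)) (by fun_prop) (a, w)
  refine ⟨fun t => (X t).1, fun t => (X t).2, ⟨?_, ?_⟩, congrArg Prod.fst hX0, congrArg Prod.snd hX0⟩
  · intro t
    have := (ContinuousLinearMap.fst ℝ H H).hasFDerivAt.comp_hasDerivAt t (hX t)
    refine this.congr_deriv ?_
    simp [blk]
  · intro t
    have := (ContinuousLinearMap.snd ℝ H H).hasFDerivAt.comp_hasDerivAt t (hX t)
    refine this.congr_deriv ?_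
    simp [blk]; abel

/-- hypotheses on a bounded operator: symmetric and coercive -/
structure Nice (B : H →L[ℝ] H) (b : ℝ) : Prop where
  b0 : 0 < b
  symm : ∀ x y, ⟪B x, y⟫ = ⟪x, B y⟫
  coer : ∀ x, b * ‖x‖ ^ 2 ≤ ⟪B x, x⟫

lemma hasDerivAt_norm_sq' {u : ℝ → H} {u' : H} {t : ℝ} (h : HasDerivAt u u' t) :
    HasDerivAt (fun t => ‖u t‖ ^ 2) (2 * ⟪u t, u'⟫) t := by
  have := h.norm_sq
  exact this

/-- antitone criterion -/
lemma le_of_deriv_nonpos' {f f' : ℝ → ℝ} (h : ∀ t, HasDerivAt f (f' t) t) (hf : ∀ t, 0 ≤ t → f' t ≤ 0)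
    {a t : ℝ} (ha : 0 ≤ a) (hat : a ≤ t) : f t ≤ f a := by
  have := antitoneOn_of_deriv_nonpos (convex_Ici 0) (f := f)
    (fun x _ => (h x).continuousAt.continuousWithinAt)
    (fun x _ => (h x).differentiableAt.differentiableWithinAt)
    (fun x hx => by
      rw [(h x).deriv]
      rw [interior_Ici] at hx
      exact hf x (le_of_lt hx))
  exact this (mem_Ici.2 ha) (mem_Ici.2 (ha.trans hat)) hat

/-- crude energy bound -/
lemma Sol.crude {B : H →L[ℝ] H} {b c : ℝ} (hB : Nice B b) (hc : 0 < c) {g u v : ℝ → H} (h : Sol B c g u v)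
    (hu0 : u 0 = 0) (hv0 : v 0 = 0) {T G : ℝ} (hG0 : 0 ≤ G) (hG : ∀ t, 0 ≤ t → t ≤ T → ‖g t‖ ≤ G) {t : ℝ}
    (ht : 0 ≤ t) (htT : t ≤ T) : ‖v t‖ ≤ G * Real.exp T := by
  let E : ℝ → ℝ := fun t => ‖v t‖ ^ 2 + ⟪B (u t), u t⟫
  have hE : ∀ t, HasDerivAt E (2 * ⟪v t, g t - c • v t⟫) t := by
    intro t
    have h1 := hasDerivAt_norm_sq' (h.dv t)
    have h2 := ((B.hasFDerivAt).comp_hasDerivAt t (h.du t)).inner ℝ (h.du t)
    have h3 := h1.add h2
    refine h3.congr_deriv ?_
    simp only [Function.comp]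
    rw [inner_sub_right, inner_sub_right, inner_sub_right, hB.symm (u t) (v t), real_inner_comm (B (v t)) (u t),
      hB.symm (v t) (u t)]
    ring
  let Φ : ℝ → ℝ := fun t => Real.exp (-t) * (E t + G ^ 2)
  -- the derivative is nonpositive on [0,T]; use a cut-off argument via monotonicity on the interval
  have hanti : AntitoneOn Φ (Icc 0 T) := by
    apply antitoneOn_of_deriv_nonpos (convex_Icc 0 T)
    · intro x _
      exact (((Real.continuous_exp.comp continuous_neg).mul
        ((continuous_iff_continuousAt.2 fun t => (hE t).continuousAt).add continuous_const)).continuousAt).continuousWithinAt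
    · intro x _
      have : HasDerivAt Φ _ x := ((Real.hasDerivAt_exp (-x)).comp x (hasDerivAt_neg x)).mul ((hE x).add_const (G ^ 2))
      exact this.differentiableAt.differentiableWithinAt
    · intro x hx
      rw [interior_Icc] at hx
      have : HasDerivAt Φ _ x := ((Real.hasDerivAt_exp (-x)).comp x (hasDerivAt_neg x)).mul ((hE x).add_const (G ^ 2))
      rw [this.deriv]
      have hg := hG x hx.1.le hx.2.le
      have h1 : 2 * ⟪v x, g x - c • v x⟫ ≤ ‖v x‖ ^ 2 + G ^ 2 := by
        rw [inner_sub_right, real_inner_smul_right, real_inner_self_eq_norm_sq]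
        have h2 : ⟪v x, g x⟫ ≤ ‖v x‖ * G := (real_inner_le_norm _ _).trans (by gcongr)
        nlinarith [sq_nonneg (‖v x‖ - G), norm_nonneg (v x), mul_nonneg hc.le (sq_nonneg ‖v x‖)]
      have h3 : 0 ≤ ⟪B (u x), u x⟫ := le_trans (mul_nonneg hB.b0.le (sq_nonneg _)) (hB.coer _)
      have h4 : 0 < Real.exp (-x) := Real.exp_pos _
      simp only [Function.comp, E] at *
      nlinarith
  have h5 := hanti (left_mem_Icc.2 (ht.trans htT)) ⟨ht, htT⟩ ht
  simp only [Φ, E, hu0, hv0] at h5
  simp only [neg_zero, Real.exp_zero, norm_zero, map_zero, inner_zero_left, one_mul] at h5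
  have h3 : 0 ≤ ⟪B (u t), u t⟫ := le_trans (mul_nonneg hB.b0.le (sq_nonneg _)) (hB.coer _)
  have h6 : Real.exp (-t) * ‖v t‖ ^ 2 ≤ G ^ 2 := by
    have h4 : 0 < Real.exp (-t) := Real.exp_pos _
    nlinarith [mul_nonneg h4.le h3, mul_nonneg h4.le (sq_nonneg G)]
  have h7 : ‖v t‖ ^ 2 ≤ (G * Real.exp T) ^ 2 := by
    have h8 : ‖v t‖ ^ 2 ≤ Real.exp t * G ^ 2 := by
      have : Real.exp t * (Real.exp (-t) * ‖v t‖ ^ 2) ≤ Real.exp t * G ^ 2 := by gcongr
      rw [← mul_assoc, ← Real.exp_add] at this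
      simpa using this
    have h9 : Real.exp t ≤ Real.exp T := Real.exp_le_exp.2 htT
    have h10 : 1 ≤ Real.exp T := Real.one_le_exp (ht.trans htT)
    calc ‖v t‖ ^ 2 ≤ Real.exp t * G ^ 2 := h8
      _ ≤ Real.exp T * G ^ 2 := by gcongr
      _ ≤ (Real.exp T * Real.exp T) * G ^ 2 := by
          gcongr
          nlinarith
      _ = (G * Real.exp T) ^ 2 := by ring
  exact le_of_sq_le_sq h7 (by positivity) |> fun h => h

end Pool.Agent.Q46.Dm
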