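import Pool.Agent.Q46.DmA

set_option linter.unusedVariables false
set_option linter.unusedSectionVars false

open Set Filter Topology MeasureTheory intervalIntegral
open scoped RealInnerProductSpace

namespace Pool.Agent.Q46.Dm

variable {H : Type*} [NormedAddCommGroup H] [InnerProductSpace ℝ H] [CompleteSpace H]

/-- decay constants -/
noncomputable def cM (b c : ℝ) : ℝ := 3 / 2 + c ^ 2 / b
noncomputable def cω (b c : ℝ) : ℝ := c / cM b c

lemma cM_pos {b c : ℝ} (hb : 0 < b) : 3 / 2 ≤ cM b c := by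
  unfold cM
  have : 0 ≤ c ^ 2 / b := by positivity
  linarith

lemma cω_pos {b c : ℝ} (hb : 0 < b) (hc : 0 < c) : 0 < cω b c := by
  unfold cω
  have := cM_pos (c := c) hb
  positivity

lemma Nice.nonneg {B : H →L[ℝ] H} {b : ℝ} (hB : Nice B b) (x : H) : 0 ≤ ⟪B x, x⟫ :=
  le_trans (mul_nonneg hB.b0.le (sq_nonneg _)) (hB.coer x)

lemma Sol.decay {B : H →L[ℝ] H} {b c : ℝ} (hB : Nice B b) (hc : 0 < c) {u v : ℝ → H}
    (h : Sol B c (fun _ => 0) u v) {t : ℝ} (ht : 0 ≤ t) :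
    1 / 2 * ‖v t‖ ^ 2 + ⟪B (u t), u t⟫ ≤
      Real.exp (-(cω b c * t)) * (cM b c * (‖v 0‖ ^ 2 + ⟪B (u 0), u 0⟫)) := by
  set M := cM b c with hM
  set ω := cω b c with hω
  have hb := hB.b0
  have hM0 : 3 / 2 ≤ M := cM_pos hb
  let V : ℝ → ℝ := fun t => ‖v t‖ ^ 2 + ⟪B (u t), u t⟫ + c * ⟪u t, v t⟫ + c ^ 2 / 2 * ‖u t‖ ^ 2
  have hV : ∀ t, HasDerivAt V (-c * (‖v t‖ ^ 2 + ⟪B (u t), u t⟫)) t := by
    intro t
    have h1 := hasDerivAt_norm_sq' (h.dv t)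
    have h2 := ((B.hasFDerivAt).comp_hasDerivAt t (h.du t)).inner ℝ (h.du t)
    have h3 := ((h.du t).inner ℝ (h.dv t)).const_mul c
    have h4 := (hasDerivAt_norm_sq' (h.du t)).const_mul (c ^ 2 / 2)
    have h5 := ((h1.add h2).add h3).add h4
    refine h5.congr_deriv ?_
    simp only [Function.comp, zero_sub]
    simp only [inner_sub_right, inner_neg_right, inner_smul_right, real_inner_self_eq_norm_sq]
    rw [hB.symm (u t) (v t), real_inner_comm (B (v t)) (u t), hB.symm (v t) (u t), real_inner_comm (B (u t)) (u t)]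
    ring
  have hlow : ∀ t, 1 / 2 * ‖v t‖ ^ 2 + ⟪B (u t), u t⟫ ≤ V t := by
    intro t
    have h1 : |⟪u t, v t⟫| ≤ ‖u t‖ * ‖v t‖ := abs_real_inner_le_norm _ _
    have h2 := (abs_le.1 h1).1
    simp only [V]
    nlinarith [sq_nonneg (‖v t‖ - c * ‖u t‖), mul_le_mul_of_nonneg_left h2 hc.le]
  have hup : ∀ t, V t ≤ M * (‖v t‖ ^ 2 + ⟪B (u t), u t⟫) := by
    intro t
    have h1 : |⟪u t, v t⟫| ≤ ‖u t‖ * ‖v t‖ := abs_real_inner_le_norm _ _
    have h2 := (abs_le.1 h1).2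
    have h3 := hB.coer (u t)
    have h4 : c ^ 2 * ‖u t‖ ^ 2 ≤ c ^ 2 / b * ⟪B (u t), u t⟫ := by
      rw [div_mul_eq_mul_div, le_div_iff₀ hb]
      nlinarith [sq_nonneg c]
    have h5 := hB.nonneg (u t)
    have h6 : 0 ≤ c ^ 2 / b := by positivity
    simp only [V, hM, cM]
    nlinarith [sq_nonneg (‖v t‖ - c * ‖u t‖), mul_le_mul_of_nonneg_left h2 hc.le, sq_nonneg ‖v t‖,
      mul_nonneg h6 (sq_nonneg ‖v t‖)]
  let Φ : ℝ → ℝ := fun t => Real.exp (ω * t) * V t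
  have hΦ : ∀ t, HasDerivAt Φ (Real.exp (ω * t) * ω * V t + Real.exp (ω * t) * (-c * (‖v t‖ ^ 2 + ⟪B (u t), u t⟫))) t := by
    intro t
    have h1 : HasDerivAt (fun t => Real.exp (ω * t)) (Real.exp (ω * t) * ω) t := by
      have := ((hasDerivAt_id t).const_mul ω).exp
      simpa using this
    exact h1.mul (hV t)
  have h1 := le_of_deriv_nonpos' hΦ (by
    intro t _
    have h2 : ω * V t ≤ c * (‖v t‖ ^ 2 + ⟪B (u t), u t⟫) := by
      have h3 := hup t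
      have h4 : ω = c / M := rfl
      rw [h4, div_mul_eq_mul_div, div_le_iff₀ (by linarith)]
      nlinarith
    have h5 : 0 < Real.exp (ω * t) := Real.exp_pos _
    nlinarith) (le_refl (0 : ℝ)) ht
  simp only [Φ, mul_zero, Real.exp_zero, one_mul] at h1
  have h2 : V t ≤ Real.exp (-(ω * t)) * V 0 := by
    have h3 : Real.exp (-(ω * t)) * (Real.exp (ω * t) * V t) ≤ Real.exp (-(ω * t)) * V 0 := by gcongr
    rw [← mul_assoc, ← Real.exp_add] at h3
    simpa using h3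
  calc _ ≤ V t := hlow t
    _ ≤ Real.exp (-(ω * t)) * V 0 := h2
    _ ≤ _ := by
      gcongr
      exact hup 0

lemma Sol.unique_zero {B : H →L[ℝ] H} {b c : ℝ} (hB : Nice B b) (hc : 0 < c) {u v : ℝ → H}
    (h : Sol B c (fun _ => 0) u v) (hu : u 0 = 0) (hv : v 0 = 0) {t : ℝ} (ht : 0 ≤ t) : u t = 0 ∧ v t = 0 := by
  have h1 := h.decay hB hc ht
  rw [hu, hv] at h1
  simp only [norm_zero, map_zero, inner_zero_left] at h1
  norm_num at h1
  have h2 := hB.nonneg (u t)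
  have h3 := hB.coer (u t)
  have h4 := hB.b0
  have h5 : ‖v t‖ ^ 2 = 0 := by nlinarith [sq_nonneg ‖v t‖]
  have h6 : ‖u t‖ ^ 2 = 0 := by
    have : b * ‖u t‖ ^ 2 ≤ 0 := by nlinarith [sq_nonneg ‖v t‖]
    nlinarith [sq_nonneg ‖u t‖]
  constructor
  · simpa using h6
  · simpa using h5

/-- decay of the velocity and displacement for the solution with `u 0 = 0` -/
lemma Sol.decay_v {B : H →L[ℝ] H} {b c : ℝ} (hB : Nice B b) (hc : 0 < c) {u v : ℝ → H}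
    (h : Sol B c (fun _ => 0) u v) (hu : u 0 = 0) {t : ℝ} (ht : 0 ≤ t) :
    ‖v t‖ ≤ 2 * cM b c * Real.exp (-(cω b c / 2 * t)) * ‖v 0‖ := by
  have h1 := h.decay hB hc ht
  rw [hu] at h1
  simp only [map_zero, inner_zero_left, add_zero] at h1
  have h2 := hB.nonneg (u t)
  have hM := cM_pos (c := c) hB.b0
  have h3 : ‖v t‖ ^ 2 ≤ (2 * cM b c * Real.exp (-(cω b c / 2 * t)) * ‖v 0‖) ^ 2 := by
    have h4 : Real.exp (-(cω b c * t)) = Real.exp (-(cω b c / 2 * t)) ^ 2 := by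
      rw [sq, ← Real.exp_add]; ring_nf
    rw [h4] at h1
    have h5 : (2 * cM b c * Real.exp (-(cω b c / 2 * t)) * ‖v 0‖) ^ 2 =
      (4 * cM b c ^ 2) * (Real.exp (-(cω b c / 2 * t)) ^ 2 * ‖v 0‖ ^ 2) := by ring
    rw [h5]
    have h6 : 0 ≤ Real.exp (-(cω b c / 2 * t)) ^ 2 * ‖v 0‖ ^ 2 := by positivity
    have h7 : 2 * cM b c ≤ 4 * cM b c ^ 2 := by nlinarith
    nlinarith [mul_le_mul_of_nonneg_right h7 h6]
  exact le_of_sq_le_sq h3 (by positivity)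

lemma Sol.decay_u {B : H →L[ℝ] H} {b c : ℝ} (hB : Nice B b) (hc : 0 < c) {u v : ℝ → H}
    (h : Sol B c (fun _ => 0) u v) (hu : u 0 = 0) {t : ℝ} (ht : 0 ≤ t) :
    ⟪B (u t), u t⟫ ≤ cM b c * Real.exp (-(cω b c * t)) * ‖v 0‖ ^ 2 := by
  have h1 := h.decay hB hc ht
  rw [hu] at h1
  simp only [map_zero, inner_zero_left, add_zero] at h1
  nlinarith [sq_nonneg ‖v t‖]

end Pool.Agent.Q46.Dm
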