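import Pool.Agent.Q46.DmB

set_option linter.unusedVariables false
set_option linter.unusedSectionVars false

open Set Filter Topology MeasureTheory intervalIntegral
open scoped RealInnerProductSpace

namespace Pool.Agent.Q46.Dm

variable {H : Type*} [NormedAddCommGroup H] [InnerProductSpace ℝ H] [CompleteSpace H]

lemma sub_le_integral {F F' G : ℝ → ℝ} {a b : ℝ} (hab : a ≤ b) (hF : ∀ t, HasDerivAt F (F' t) t)
    (hF' : Continuous F') (hG : Continuous G) (h : ∀ t ∈ Icc a b, F' t ≤ G t) : F b - F a ≤ ∫ t in a..b, G t := by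
  rw [← integral_eq_sub_of_hasDerivAt (fun x _ => hF x) (hF'.intervalIntegrable _ _)]
  exact integral_mono_on hab (hF'.intervalIntegrable _ _) (hG.intervalIntegrable _ _) h

/-- the identity `c q + 2 q' = u + t u'` -/
lemma key_identity {B : H →L[ℝ] H} {b c : ℝ} (hB : Nice B b) (hc : 0 < c) {u v q p : ℝ → H}
    (h : Sol B c (fun _ => 0) u v) (hu : u 0 = 0) (hq : Sol B c v q p) (hq0 : q 0 = 0) (hp0 : p 0 = 0)
    {t : ℝ} (ht : 0 ≤ t) : c • q t + (2 : ℝ) • p t = u t + t • v t := by
  let W1 : ℝ → H := fun t => c • q t + (2 : ℝ) • p t - u t - t • v t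
  let W2 : ℝ → H := fun t => -((2 : ℝ) • B (q t)) - c • p t + t • (B (u t) + c • v t)
  have hW : Sol B c (fun _ => 0) W1 W2 := by
    constructor
    · intro t
      have h1 := ((((hq.du t).const_smul c).add ((hq.dv t).const_smul (2 : ℝ))).sub (h.du t)).sub
        ((hasDerivAt_id t).smul (h.dv t))
      refine h1.congr_deriv ?_
      simp only [W2, id, zero_sub]
      module
    · intro t
      have h1 := ((((B.hasFDerivAt).comp_hasDerivAt t (hq.du t)).const_smul (2 : ℝ)).neg.sub
        ((hq.dv t).const_smul c)).add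
        ((hasDerivAt_id t).smul (((B.hasFDerivAt).comp_hasDerivAt t (h.du t)).add ((h.dv t).const_smul c)))
      refine h1.congr_deriv ?_
      simp only [W1, W2, id, zero_sub, map_add, map_sub, map_smul, Pi.add_apply, Pi.smul_apply, Function.comp]
      module
  have := (hW.unique_zero hB hc (by simp [W1, hq0, hp0, hu]) (by simp [W2, hq0, hp0, hu]) ht).1
  simp only [W1] at this
  rw [sub_sub, sub_eq_zero] at this
  exact this

/-- regularised direction -/
noncomputable def dir (ε : ℝ) (x : H) : H := (Real.sqrt (‖x‖ ^ 2 + ε ^ 2))⁻¹ • x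

lemma sqrt_pos' {ε : ℝ} (hε : 0 < ε) (x : H) : 0 < Real.sqrt (‖x‖ ^ 2 + ε ^ 2) :=
  Real.sqrt_pos.2 (by positivity)

lemma dir_continuous {ε : ℝ} (hε : 0 < ε) : Continuous (dir ε : H → H) := by
  unfold dir
  refine Continuous.smul (Continuous.inv₀ (by fun_prop) (fun x => (sqrt_pos' hε x).ne')) continuous_id

lemma norm_dir_le {ε : ℝ} (hε : 0 < ε) (x : H) : ‖dir ε x‖ ≤ 1 := by
  unfold dir
  have h1 := sqrt_pos' hε x
  rw [norm_smul, norm_inv, Real.norm_of_nonneg h1.le, inv_mul_le_iff₀ h1, mul_one]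
  exact Real.le_sqrt_of_sq_le (by nlinarith [sq_nonneg ε])

lemma inner_dir_ge {ε : ℝ} (hε : 0 < ε) (x : H) : ‖x‖ - ε ≤ ⟪dir ε x, x⟫ := by
  unfold dir
  have h1 := sqrt_pos' hε x
  rw [real_inner_smul_left, real_inner_self_eq_norm_sq, ← div_eq_inv_mul, le_div_iff₀ h1]
  have h2 : Real.sqrt (‖x‖ ^ 2 + ε ^ 2) ≤ ‖x‖ + ε := by
    rw [Real.sqrt_le_left (by positivity)]
    nlinarith [mul_nonneg (norm_nonneg x) hε.le]
  have h3 : ‖x‖ ≤ Real.sqrt (‖x‖ ^ 2 + ε ^ 2) := Real.le_sqrt_of_sq_le (by nlinarith [sq_nonneg ε])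
  have h4 : Real.sqrt (‖x‖ ^ 2 + ε ^ 2) ^ 2 = ‖x‖ ^ 2 + ε ^ 2 := Real.sq_sqrt (by positivity)
  nlinarith [norm_nonneg x, mul_nonneg (norm_nonneg x) hε.le]

/-- the main positivity: `∫ ⟪n, q'⟫ ≥ - small` -/
theorem J_lemma {B : H →L[ℝ] H} {b c : ℝ} (hB : Nice B b) (hc : 0 < c) {u v q p : ℝ → H}
    (h : Sol B c (fun _ => 0) u v) (hu : u 0 = 0) (hq : Sol B c v q p) (hq0 : q 0 = 0) (hp0 : p 0 = 0)
    {ε T : ℝ} (hε : 0 < ε) (hT : 2 / c ≤ T) :
    -(‖u T‖ / c) - ε * T ^ 2 / 4 ≤ ∫ t in (0:ℝ)..T, ⟪dir ε (v t), p t⟫ := by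
  obtain ⟨k, hk⟩ : ∃ k, k = c / 2 := ⟨_, rfl⟩
  have hk0 : 0 < k := by rw [hk]; linarith
  have hc2 : c = 2 * k := by rw [hk]; ring
  have hkT : 1 / k ≤ T := by
    have : 1 / k = 2 / c := by rw [hk]; field_simp
    rw [this]; exact hT
  have hik : 0 < 1 / k := by positivity
  have hT0 : 0 < T := hik.trans_le hkT
  let n : ℝ → H := fun t => dir ε (v t)
  have hn : Continuous n := (dir_continuous hε).comp h.cv
  have hn1 : ∀ t, ‖n t‖ ≤ 1 := fun t => norm_dir_le hε _
  let I : ℝ → H := fun t => ∫ s in T..t, Real.exp (-(k * s)) • n s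
  have hfc : Continuous (fun s => Real.exp (-(k * s)) • n s) := by fun_prop
  have hI : ∀ t, HasDerivAt I (Real.exp (-(k * t)) • n t) t := fun t =>
    intervalIntegral.integral_hasDerivAt_right (hfc.intervalIntegrable T t)
      (hfc.stronglyMeasurableAtFilter _ _) hfc.continuousAt
  let N : ℝ → H := fun t => -(Real.exp (k * t) • I t)
  have hN : ∀ t, HasDerivAt N (k • N t - n t) t := by
    intro t
    have h1 : HasDerivAt (fun t => Real.exp (k * t)) (Real.exp (k * t) * k) t := by
      have := ((hasDerivAt_id t).const_mul k).exp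
      simpa using this
    refine (h1.smul (hI t)).neg.congr_deriv ?_
    simp only [N]
    rw [smul_smul, ← Real.exp_add, add_neg_cancel, Real.exp_zero]
    module
  have hNc : Continuous N := continuous_iff_continuousAt.2 fun t => (hN t).continuousAt
  have hNT : N T = 0 := by simp [N, I]
  have hN1 : ∀ t, t ≤ T → ‖N t‖ ≤ 1 / k := by
    intro t ht
    have h1 : ‖I t‖ ≤ Real.exp (-(k * t)) / k := by
      have h2 : I t = -∫ s in t..T, Real.exp (-(k * s)) • n s := by
        simp only [I]; rw [integral_symm]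
      rw [h2, norm_neg]
      have h3 : ‖∫ s in t..T, Real.exp (-(k * s)) • n s‖ ≤ ∫ s in t..T, Real.exp (-(k * s)) := by
        refine norm_integral_le_of_norm_le ht (Filter.Eventually.of_forall ?_)
          ((by fun_prop : Continuous fun s => Real.exp (-(k * s))).intervalIntegrable _ _)
        intro s _
        rw [norm_smul, Real.norm_of_nonneg (Real.exp_pos _).le]
        exact mul_le_of_le_one_right (Real.exp_pos _).le (hn1 s)
      have h4 : ∫ s in t..T, Real.exp (-(k * s)) = Real.exp (-(k * t)) / k - Real.exp (-(k * T)) / k := by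
        have h5 : ∀ s, HasDerivAt (fun s => -(Real.exp (-(k * s)) / k)) (Real.exp (-(k * s))) s := by
          intro s
          have h6 : HasDerivAt (fun s => Real.exp (-(k * s))) (Real.exp (-(k * s)) * (-k)) s := by
            have := ((hasDerivAt_id s).const_mul k).neg.exp
            simpa using this
          refine (h6.div_const k).neg.congr_deriv ?_
          field_simp
        rw [integral_eq_sub_of_hasDerivAt (fun x _ => h5 x)
          ((by fun_prop : Continuous fun s => Real.exp (-(k * s))).intervalIntegrable _ _)]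
        ring
      have h7 : 0 ≤ Real.exp (-(k * T)) / k := by positivity
      linarith
    simp only [N]
    rw [norm_neg, norm_smul, Real.norm_of_nonneg (Real.exp_pos _).le]
    calc Real.exp (k * t) * ‖I t‖ ≤ Real.exp (k * t) * (Real.exp (-(k * t)) / k) := by gcongr
      _ = 1 / k := by rw [← mul_div_assoc, ← Real.exp_add]; simp
  -- the key identity as an exact derivative
  have hcont_u := h.cu
  have hcont_v := h.cv
  have hcont_q := hq.cu
  have hcont_p := hq.cv
  let G : ℝ → ℝ := fun t => t * ⟪n t, v t⟫ + (1 - k * t) * ⟪N t, v t⟫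
  have hG : Continuous G := by fun_prop
  have hFF : (∫ t in (0:ℝ)..T, 2 * ⟪n t, p t⟫) = ∫ t in (0:ℝ)..T, G t := by
    have hder : ∀ t, HasDerivAt (fun t => 2 * k * ⟪N t, q t⟫ - ⟪N t, u t⟫)
        (2 * k * (⟪N t, p t⟫ + ⟪k • N t - n t, q t⟫) - (⟪N t, v t⟫ + ⟪k • N t - n t, u t⟫)) t := by
      intro t
      exact (((hN t).inner ℝ (hq.du t)).const_mul (2 * k)).sub ((hN t).inner ℝ (h.du t))
    have hint := integral_eq_sub_of_hasDerivAt (a := 0) (b := T) (fun x _ => hder x)
      ((by fun_prop : Continuous fun t => (2 * k * (⟪N t, p t⟫ + ⟪k • N t - n t, q t⟫) -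
        (⟪N t, v t⟫ + ⟪k • N t - n t, u t⟫))).intervalIntegrable _ _)
    rw [hNT, hq0, hu] at hint
    simp only [inner_zero_left, inner_zero_right, mul_zero, sub_zero] at hint
    have h2 : ∫ t in (0:ℝ)..T, (2 * ⟪n t, p t⟫ - G t) = 0 := by
      refine (integral_congr ?_).trans hint
      intro t ht
      rw [uIcc_of_le hT0.le] at ht
      have hid := key_identity hB hc h hu hq hq0 hp0 ht.1
      have h3 : (2 : ℝ) • p t = u t + t • v t - (2 * k) • q t := by
        rw [← hid, hc2]; abel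
      have h4 : ∀ x : H, 2 * ⟪x, p t⟫ = ⟪x, u t⟫ + t * ⟪x, v t⟫ - 2 * k * ⟪x, q t⟫ := by
        intro x
        rw [← real_inner_smul_right, h3, inner_sub_right, inner_add_right, real_inner_smul_right,
          real_inner_smul_right]
      have h5 := h4 (n t)
      have h6 := h4 (N t)
      simp only [G, inner_sub_left, real_inner_smul_left]
      linear_combination h5 - k * h6
    rw [integral_sub ((by fun_prop : Continuous fun t => 2 * ⟪n t, p t⟫).intervalIntegrable _ _)
      (hG.intervalIntegrable _ _)] at h2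
    linarith
  -- bounds
  let R : ℝ → ℝ := fun s => -∫ t in T..s, ‖v t‖
  have hvn : Continuous (fun t => ‖v t‖) := h.cv.norm
  have hR : ∀ s, HasDerivAt R (-‖v s‖) s := fun s =>
    (intervalIntegral.integral_hasDerivAt_right (hvn.intervalIntegrable T s)
      (hvn.stronglyMeasurableAtFilter _ _) hvn.continuousAt).neg
  have hRc : Continuous R := continuous_iff_continuousAt.2 fun t => (hR t).continuousAt
  have hRT : R T = 0 := by simp [R]
  have huR : ∀ s, s ≤ T → ‖u s‖ ≤ ‖u T‖ + R s := by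
    intro s hs
    have h1 : ∫ t in s..T, v t = u T - u s :=
      integral_eq_sub_of_hasDerivAt (fun x _ => h.du x) (h.cv.intervalIntegrable _ _)
    have h2 : ‖∫ t in s..T, v t‖ ≤ ∫ t in s..T, ‖v t‖ := norm_integral_le_integral_norm hs
    have h3 : R s = ∫ t in s..T, ‖v t‖ := by
      simp only [R]; rw [integral_symm]; ring
    rw [h3]
    have h4 : u s = u T - ∫ t in s..T, v t := by rw [h1]; abel
    calc ‖u s‖ = ‖u T - ∫ t in s..T, v t‖ := by rw [← h4]
      _ ≤ ‖u T‖ + ‖∫ t in s..T, v t‖ := norm_sub_le _ _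
      _ ≤ _ := by linarith
  have hnv : ∀ t, ‖v t‖ - ε ≤ ⟪n t, v t⟫ := fun t => inner_dir_ge hε _
  have hpart1 : -((1 / k) * R (1 / k)) - ‖u T‖ * (1 / k) - ε * (1 / k) ^ 2 / 2 ≤ ∫ t in (0:ℝ)..(1 / k), G t := by
    have hder : ∀ t, HasDerivAt (fun t => (1 - k * t) * ⟪N t, u t⟫ - t * R t - ‖u T‖ * t - ε * t ^ 2 / 2)
        ((-k * ⟪N t, u t⟫ + (1 - k * t) * (⟪N t, v t⟫ + ⟪k • N t - n t, u t⟫)) - (1 * R t + t * (-‖v t‖)) -
          ‖u T‖ * 1 - ε * (2 * t) / 2) t := by
      intro t
      have h1 : HasDerivAt (fun t : ℝ => 1 - k * t) (-k) t := by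
        have := ((hasDerivAt_id t).const_mul k).const_sub 1
        simpa using this
      have h2 : HasDerivAt (fun t : ℝ => ε * t ^ 2 / 2) (ε * (2 * t) / 2) t := by
        have := ((hasDerivAt_pow 2 t).const_mul ε).div_const 2
        simpa using this
      exact ((((h1.mul ((hN t).inner ℝ (h.du t)))).sub ((hasDerivAt_id t).mul (hR t))).sub
        ((hasDerivAt_id t).const_mul ‖u T‖)).sub h2
    have := sub_le_integral hik.le hder (by fun_prop) hG (by
      intro t ht
      have hN' := hN1 t (ht.2.trans hkT)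
      have hu' := huR t (ht.2.trans hkT)
      have hkt : 0 ≤ 1 - k * t := by
        have := ht.2
        rw [le_div_iff₀ hk0] at this
        linarith
      have h1 : -(1 / k * ‖u t‖) ≤ ⟪N t, u t⟫ := by
        have := abs_real_inner_le_norm (N t) (u t)
        have h3 := (abs_le.1 this).1
        have h4 : ‖N t‖ * ‖u t‖ ≤ 1 / k * ‖u t‖ := by gcongr
        linarith
      have h2 : -‖u t‖ ≤ ⟪n t, u t⟫ := by
        have := abs_real_inner_le_norm (n t) (u t)
        have h3 := (abs_le.1 this).1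
        have h4 : ‖n t‖ * ‖u t‖ ≤ 1 * ‖u t‖ := by gcongr; exact hn1 t
        linarith
      have h5 : k ^ 2 * t * (-(1 / k * ‖u t‖)) ≤ k ^ 2 * t * ⟪N t, u t⟫ :=
        mul_le_mul_of_nonneg_left h1 (by have := ht.1; positivity)
      have h6 : (1 - k * t) * (-‖u t‖) ≤ (1 - k * t) * ⟪n t, u t⟫ := mul_le_mul_of_nonneg_left h2 hkt
      have h7 : t * (‖v t‖ - ε) ≤ t * ⟪n t, v t⟫ := mul_le_mul_of_nonneg_left (hnv t) ht.1
      have h8 : k ^ 2 * t * (-(1 / k * ‖u t‖)) = -(k * t * ‖u t‖) := by field_simp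
      rw [h8] at h5
      simp only [G, inner_sub_left, real_inner_smul_left]
      nlinarith)
    rw [hu] at this
    simp only [inner_zero_right, mul_zero, zero_mul, sub_zero, sub_self] at this
    have hk1 : k * (1 / k) = 1 := by field_simp
    rw [hk1] at this
    simp only [sub_self, zero_mul, zero_sub] at this
    have e0 : ε * (0:ℝ) ^ 2 / 2 = 0 := by ring
    linarith
  have hpart2 : (1 / k) * R (1 / k) + ε * (1 / k) ^ 2 / 2 - ε * T ^ 2 / 2 ≤ ∫ t in (1 / k)..T, G t := by
    have hder : ∀ t, HasDerivAt (fun t => -((1 / k) * R t) - ε * t ^ 2 / 2)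
        (-((1 / k) * (-‖v t‖)) - ε * (2 * t) / 2) t := by
      intro t
      have h2 : HasDerivAt (fun t : ℝ => ε * t ^ 2 / 2) (ε * (2 * t) / 2) t := by
        have := ((hasDerivAt_pow 2 t).const_mul ε).div_const 2
        simpa using this
      exact ((hR t).const_mul (1 / k)).neg.sub h2
    have := sub_le_integral hkT hder (by fun_prop) hG (by
      intro t ht
      have hN' := hN1 t ht.2
      have hkt : 0 ≤ k * t - 1 := by
        have := ht.1
        rw [div_le_iff₀ hk0] at this
        linarith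
      have ht0 : 0 ≤ t := hik.le.trans ht.1
      have h1 : ⟪N t, v t⟫ ≤ 1 / k * ‖v t‖ := by
        have := abs_real_inner_le_norm (N t) (v t)
        have h3 := (abs_le.1 this).2
        have h4 : ‖N t‖ * ‖v t‖ ≤ 1 / k * ‖v t‖ := by gcongr
        linarith
      have h6 : (k * t - 1) * ⟪N t, v t⟫ ≤ (k * t - 1) * (1 / k * ‖v t‖) := mul_le_mul_of_nonneg_left h1 hkt
      have h7 : t * (‖v t‖ - ε) ≤ t * ⟪n t, v t⟫ := mul_le_mul_of_nonneg_left (hnv t) ht0
      have h8 : (k * t - 1) * (1 / k * ‖v t‖) = t * ‖v t‖ - 1 / k * ‖v t‖ := by field_simp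
      rw [h8] at h6
      simp only [G]
      nlinarith)
    rw [hRT] at this
    simp only [mul_zero, neg_zero, zero_sub] at this
    linarith
  have hadd := integral_add_adjacent_intervals (μ := volume) (hG.intervalIntegrable 0 (1 / k))
    (hG.intervalIntegrable (1 / k) T)
  rw [← hadd] at hFF
  rw [intervalIntegral.integral_const_mul] at hFF
  have h9 : ‖u T‖ * (1 / k) = 2 * (‖u T‖ / c) := by rw [hc2]; field_simp
  change _ ≤ ∫ t in (0:ℝ)..T, ⟪n t, p t⟫
  linarith

end Pool.Agent.Q46.Dm
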