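import Pool.Agent.Q46.DmC

set_option linter.unusedVariables false
set_option linter.unusedSectionVars false

open Set Filter Topology MeasureTheory intervalIntegral
open scoped RealInnerProductSpace

namespace Pool.Agent.Q46.Dm

variable {H : Type*} [NormedAddCommGroup H] [InnerProductSpace ℝ H] [CompleteSpace H]

lemma Sol.sub {B : H →L[ℝ] H} {c : ℝ} {g u v g' u' v' : ℝ → H} (h : Sol B c g u v) (h' : Sol B c g' u' v') :
    Sol B c (fun t => g t - g' t) (fun t => u t - u' t) (fun t => v t - v' t) := by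
  constructor
  · intro t; exact (h.du t).sub (h'.du t)
  · intro t
    refine ((h.dv t).sub (h'.dv t)).congr_deriv ?_
    rw [map_sub]; module

lemma Sol.unique {B : H →L[ℝ] H} {b c : ℝ} (hB : Nice B b) (hc : 0 < c) {u v u' v' : ℝ → H}
    (h : Sol B c (fun _ => 0) u v) (h' : Sol B c (fun _ => 0) u' v') (hu : u 0 = u' 0) (hv : v 0 = v' 0)
    {t : ℝ} (ht : 0 ≤ t) : u t = u' t ∧ v t = v' t := by
  have h1 := h.sub h'
  simp only [sub_self] at h1
  have h2 := h1.unique_zero hB hc (by rw [hu, sub_self]) (by rw [hv, sub_self]) ht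
  exact ⟨sub_eq_zero.1 h2.1, sub_eq_zero.1 h2.2⟩

lemma convex_dir {ε : ℝ} (hε : 0 < ε) (a b : H) :
    Real.sqrt (‖a‖ ^ 2 + ε ^ 2) - Real.sqrt (‖b‖ ^ 2 + ε ^ 2) ≤ ⟪dir ε a, a - b⟫ := by
  unfold dir
  have h1 := sqrt_pos' hε a
  have h2 := sqrt_pos' hε b
  rw [real_inner_smul_left, ← div_eq_inv_mul, le_div_iff₀ h1, inner_sub_right, real_inner_self_eq_norm_sq]
  have h3 : Real.sqrt (‖a‖ ^ 2 + ε ^ 2) ^ 2 = ‖a‖ ^ 2 + ε ^ 2 := Real.sq_sqrt (by positivity)
  have h4 : Real.sqrt (‖b‖ ^ 2 + ε ^ 2) ^ 2 = ‖b‖ ^ 2 + ε ^ 2 := Real.sq_sqrt (by positivity)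
  have h5 : ⟪a, b⟫ + ε ^ 2 ≤ Real.sqrt (‖a‖ ^ 2 + ε ^ 2) * Real.sqrt (‖b‖ ^ 2 + ε ^ 2) := by
    have h6 := real_inner_le_norm a b
    have h7 : (‖a‖ * ‖b‖ + ε ^ 2) ^ 2 ≤ (Real.sqrt (‖a‖ ^ 2 + ε ^ 2) * Real.sqrt (‖b‖ ^ 2 + ε ^ 2)) ^ 2 := by
      rw [mul_pow, h3, h4]
      nlinarith [sq_nonneg (ε * (‖a‖ - ‖b‖))]
    have h8 := le_of_sq_le_sq h7 (by positivity)
    linarith
  nlinarith

/-- one step in the damping -/
lemma step_lemma {B : H →L[ℝ] H} {b c1 c2 : ℝ} (hB : Nice B b) (hc1 : 0 < c1) (hc : c1 ≤ c2)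
    {u1 v1 u2 v2 : ℝ → H} {w : H}
    (h1 : Sol B c1 (fun _ => 0) u1 v1) (hu1 : u1 0 = 0) (hv1 : v1 0 = w)
    (h2 : Sol B c2 (fun _ => 0) u2 v2) (hu2 : u2 0 = 0) (hv2 : v2 0 = w)
    {ε T : ℝ} (hε : 0 < ε) (hT : 2 / c2 ≤ T) :
    (∫ t in (0:ℝ)..T, Real.sqrt (‖v2 t‖ ^ 2 + ε ^ 2)) - (∫ t in (0:ℝ)..T, Real.sqrt (‖v1 t‖ ^ 2 + ε ^ 2)) ≤
      (c2 - c1) * (‖u2 T‖ / c2 + ε * T ^ 2 / 4) +
      (c2 - c1) ^ 2 * (T * (2 * cM b c2 * ‖w‖ * Real.exp T * Real.exp T)) := by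
  have hc2 : 0 < c2 := hc1.trans_le hc
  have hT0 : 0 < T := lt_of_lt_of_le (by positivity) hT
  set δ := c2 - c1 with hδ
  have hδ0 : 0 ≤ δ := by rw [hδ]; linarith
  obtain ⟨q, p, hq, hq0, hp0⟩ := exists_sol B c2 v2 h2.cv 0 0
  have hM := cM_pos (c := c2) hB.b0
  let V0 := 2 * cM b c2 * ‖w‖
  have hV0 : 0 ≤ V0 := by positivity
  have hv2b : ∀ t, 0 ≤ t → t ≤ T → ‖v2 t‖ ≤ V0 := by
    intro t ht _
    have := h2.decay_v hB hc2 hu2 ht
    rw [hv2] at this
    refine this.trans ?_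
    have h3 : Real.exp (-(cω b c2 / 2 * t)) ≤ 1 := by
      rw [Real.exp_le_one_iff]
      have := cω_pos hB.b0 hc2
      have : 0 ≤ cω b c2 / 2 * t := by positivity
      linarith
    calc 2 * cM b c2 * Real.exp (-(cω b c2 / 2 * t)) * ‖w‖ ≤ 2 * cM b c2 * 1 * ‖w‖ := by gcongr
      _ = V0 := by simp only [V0]; ring
  have hpb : ∀ t, 0 ≤ t → t ≤ T → ‖p t‖ ≤ V0 * Real.exp T := fun t ht htT =>
    hq.crude hB hc2 hq0 hp0 hV0 hv2b ht htT
  have hxy : Sol B c1 (fun t => (δ ^ 2) • p t) (fun t => u1 t - u2 t - δ • q t) (fun t => v1 t - v2 t - δ • p t) := by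
    constructor
    · intro t
      exact ((h1.du t).sub (h2.du t)).sub ((hq.du t).const_smul δ)
    · intro t
      refine (((h1.dv t).sub (h2.dv t)).sub ((hq.dv t).const_smul δ)).congr_deriv ?_
      rw [map_sub, map_sub, map_smul, hδ]
      module
  have hyb : ∀ t, 0 ≤ t → t ≤ T → ‖v1 t - v2 t - δ • p t‖ ≤ (δ ^ 2 * (V0 * Real.exp T)) * Real.exp T := by
    intro t ht htT
    refine hxy.crude hB hc1 (by simp [hu1, hu2, hq0]) (by simp [hv1, hv2, hp0]) (by positivity) ?_ ht htT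
    intro s hs hsT
    rw [norm_smul, Real.norm_of_nonneg (by positivity)]
    have := hpb s hs hsT
    gcongr
  have hJ := J_lemma hB hc2 h2 hu2 hq hq0 hp0 hε hT
  have hcv1 := h1.cv
  have hcv2 := h2.cv
  have hcp := hq.cv
  have hcn : Continuous (fun t => dir ε (v2 t)) := (dir_continuous hε).comp h2.cv
  have hcs2 : Continuous (fun t => Real.sqrt (‖v2 t‖ ^ 2 + ε ^ 2)) := by fun_prop
  have hcs1 : Continuous (fun t => Real.sqrt (‖v1 t‖ ^ 2 + ε ^ 2)) := by fun_prop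
  rw [← integral_sub (hcs2.intervalIntegrable _ _) (hcs1.intervalIntegrable _ _)]
  have hle : ∫ t in (0:ℝ)..T, (Real.sqrt (‖v2 t‖ ^ 2 + ε ^ 2) - Real.sqrt (‖v1 t‖ ^ 2 + ε ^ 2)) ≤
      ∫ t in (0:ℝ)..T, (-δ * ⟪dir ε (v2 t), p t⟫ + (δ ^ 2 * (V0 * Real.exp T)) * Real.exp T) := by
    refine integral_mono_on hT0.le ((hcs2.sub hcs1).intervalIntegrable _ _)
      ((by fun_prop : Continuous fun t => (-δ * ⟪dir ε (v2 t), p t⟫ + (δ ^ 2 * (V0 * Real.exp T)) * Real.exp T)).intervalIntegrable _ _) ?_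
    intro t ht
    refine (convex_dir hε (v2 t) (v1 t)).trans ?_
    have h3 : v2 t - v1 t = -(δ • p t) - (v1 t - v2 t - δ • p t) := by abel
    rw [h3, inner_sub_right, inner_neg_right, real_inner_smul_right]
    have h4 : -⟪dir ε (v2 t), v1 t - v2 t - δ • p t⟫ ≤ (δ ^ 2 * (V0 * Real.exp T)) * Real.exp T := by
      have h5 := (abs_le.1 (abs_real_inner_le_norm (dir ε (v2 t)) (v1 t - v2 t - δ • p t))).1
      have h6 : ‖dir ε (v2 t)‖ * ‖v1 t - v2 t - δ • p t‖ ≤ 1 * ((δ ^ 2 * (V0 * Real.exp T)) * Real.exp T) := by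
        gcongr
        · exact norm_dir_le hε _
        · exact hyb t ht.1 ht.2
      linarith
    linarith
  refine hle.trans ?_
  rw [integral_add ((by fun_prop : Continuous fun t => (-δ * ⟪dir ε (v2 t), p t⟫)).intervalIntegrable _ _)
    (continuous_const.intervalIntegrable _ _), intervalIntegral.integral_const_mul, intervalIntegral.integral_const,
    smul_eq_mul, sub_zero]
  have h7 : -δ * (∫ t in (0:ℝ)..T, ⟪dir ε (v2 t), p t⟫) ≤ δ * (‖u2 T‖ / c2 + ε * T ^ 2 / 4) := by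
    nlinarith
  have h8 : T * (δ ^ 2 * (V0 * Real.exp T) * Real.exp T) =
      δ ^ 2 * (T * (2 * cM b c2 * ‖w‖ * Real.exp T * Real.exp T)) := by simp only [V0]; ring
  linarith

lemma subdivide {F : ℝ → ℝ} {a C α β : ℝ} (haC : a ≤ C) (hβ : 0 ≤ β)
    (h : ∀ c c', a ≤ c → c ≤ c' → c' ≤ C → F c' - F c ≤ (c' - c) * α + (c' - c) ^ 2 * β) :
    F C - F a ≤ (C - a) * α := by
  have hn : ∀ n : ℕ, 0 < n → F C - F a ≤ (C - a) * α + (C - a) ^ 2 * β / n := by
    intro n hn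
    have hn' : (0 : ℝ) < n := by exact_mod_cast hn
    obtain ⟨s, hs⟩ : ∃ s, s = (C - a) / n := ⟨_, rfl⟩
    have hs0 : 0 ≤ s := by rw [hs]; exact div_nonneg (by linarith) hn'.le
    have hns : n * s = C - a := by rw [hs]; field_simp
    have key : ∀ j : ℕ, j ≤ n → F (a + j * s) - F a ≤ j * (s * α + s ^ 2 * β) := by
      intro j
      induction j with
      | zero => intro _; simp
      | succ j ih =>
        intro hj
        have h1 := ih (by omega)
        have hj' : ((j : ℝ) + 1) ≤ n := by exact_mod_cast hj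
        have h2 := h (a + j * s) (a + (j + 1 : ℕ) * s) (by
          have : 0 ≤ (j : ℝ) * s := by positivity
          linarith) (by push_cast; nlinarith) (by
          push_cast
          have : ((j : ℝ) + 1) * s ≤ n * s := by gcongr
          linarith)
        push_cast at h2 ⊢
        have e1 : a + ((j : ℝ) + 1) * s - (a + j * s) = s := by ring
        rw [e1] at h2
        linarith
    have h3 := key n le_rfl
    rw [hns] at h3
    have e2 : a + (C - a) = C := by ring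
    rw [e2] at h3
    have e3 : (n : ℝ) * (s * α + s ^ 2 * β) = (C - a) * α + (C - a) ^ 2 * β / n := by
      rw [hs]; field_simp
    linarith
  by_contra hcon
  push Not at hcon
  obtain ⟨n, hn'⟩ := exists_nat_gt ((C - a) ^ 2 * β / (F C - F a - (C - a) * α))
  have hpos : 0 < F C - F a - (C - a) * α := by linarith
  have hn0 : 0 < n := by
    have h1 : 0 ≤ (C - a) ^ 2 * β / (F C - F a - (C - a) * α) := by positivity
    have : (0 : ℝ) < n := lt_of_le_of_lt h1 hn'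
    exact_mod_cast this
  have h4 := hn n hn0
  have hn0' : (0 : ℝ) < n := by exact_mod_cast hn0
  rw [div_lt_iff₀ hpos] at hn'
  have h5 : (C - a) ^ 2 * β / n < F C - F a - (C - a) * α := by
    rw [div_lt_iff₀ hn0']; linarith
  linarith

/-- uniform bound of the displacement -/
lemma disp_bound {B : H →L[ℝ] H} {b a c C : ℝ} (hB : Nice B b) (ha : 0 < a) (hac : a ≤ c) (hcC : c ≤ C)
    {u v : ℝ → H} {w : H} (h : Sol B c (fun _ => 0) u v) (hu : u 0 = 0) (hv : v 0 = w) {T : ℝ} (hT : 0 ≤ T) :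
    ‖u T‖ ≤ (cM b C / b + 1) * Real.exp (-(a / cM b C / 2 * T)) * ‖w‖ := by
  have hb := hB.b0
  have hc : 0 < c := ha.trans_le hac
  have h1 := h.decay_u hB hc hu hT
  have h2 := hB.coer (u T)
  have hMc := cM_pos (c := c) hb
  have hMC := cM_pos (c := C) hb
  have hMM : cM b c ≤ cM b C := by
    unfold cM
    have : c ^ 2 ≤ C ^ 2 := by nlinarith
    gcongr
  have hω : a / cM b C ≤ cω b c := by
    unfold cω
    gcongr
  have h3 : Real.exp (-(cω b c * T)) ≤ Real.exp (-(a / cM b C / 2 * T)) ^ 2 := by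
    rw [sq, ← Real.exp_add, Real.exp_le_exp]
    have := mul_le_mul_of_nonneg_right hω hT
    linarith
  rw [hv] at h1
  have h4 : ‖u T‖ ^ 2 ≤ ((cM b C / b + 1) * Real.exp (-(a / cM b C / 2 * T)) * ‖w‖) ^ 2 := by
    have h5 : b * ‖u T‖ ^ 2 ≤ cM b C * Real.exp (-(a / cM b C / 2 * T)) ^ 2 * ‖w‖ ^ 2 := by
      refine (h2.trans h1).trans ?_
      gcongr
    have h6 : ‖u T‖ ^ 2 ≤ cM b C / b * (Real.exp (-(a / cM b C / 2 * T)) ^ 2 * ‖w‖ ^ 2) := by
      rw [div_mul_eq_mul_div, le_div_iff₀ hb]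
      linarith
    refine h6.trans ?_
    have h7 : ((cM b C / b + 1) * Real.exp (-(a / cM b C / 2 * T)) * ‖w‖) ^ 2 =
      (cM b C / b + 1) ^ 2 * (Real.exp (-(a / cM b C / 2 * T)) ^ 2 * ‖w‖ ^ 2) := by ring
    rw [h7]
    have h8 : 0 ≤ cM b C / b := by positivity
    gcongr
    nlinarith
  exact le_of_sq_le_sq h4 (by positivity)

/-- monotonicity of the length of the trajectory, bounded operators -/
theorem mono_bounded {B : H →L[ℝ] H} {b c1 c2 : ℝ} (hB : Nice B b) (hc1 : 0 < c1) (hc : c1 ≤ c2)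
    {u1 v1 u2 v2 : ℝ → H} {w : H}
    (h1 : Sol B c1 (fun _ => 0) u1 v1) (hu1 : u1 0 = 0) (hv1 : v1 0 = w)
    (h2 : Sol B c2 (fun _ => 0) u2 v2) (hu2 : u2 0 = 0) (hv2 : v2 0 = w) {κ : ℝ}
    (hκ : ∀ T, 0 ≤ T → ∫ t in (0:ℝ)..T, ‖v1 t‖ ≤ κ) {T : ℝ} (hT : 0 ≤ T) :
    ∫ t in (0:ℝ)..T, ‖v2 t‖ ≤ κ := by
  have hb := hB.b0
  have hMC := cM_pos (c := c2) hb
  -- the chosen family
  have hfam : ∀ c : ℝ, ∃ u v : ℝ → H, Sol B c (fun _ => 0) u v ∧ u 0 = 0 ∧ v 0 = w := fun c =>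
    exists_sol B c (fun _ => 0) continuous_const 0 w
  choose uu vv hS huu hvv using hfam
  have hkey : ∀ T, 2 / c1 ≤ T → ∫ t in (0:ℝ)..T, ‖v2 t‖ ≤
      κ + (c2 - c1) * ((cM b c2 / b + 1) * Real.exp (-(c1 / cM b c2 / 2 * T)) * ‖w‖ / c1) := by
    intro T hT
    have hT0 : 0 < T := lt_of_lt_of_le (by positivity) hT
    set U := (cM b c2 / b + 1) * Real.exp (-(c1 / cM b c2 / 2 * T)) * ‖w‖ with hU
    have hU0 : 0 ≤ U := by positivity
    have hε : ∀ ε, 0 < ε → ∫ t in (0:ℝ)..T, ‖v2 t‖ ≤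
        κ + ε * T + (c2 - c1) * (U / c1 + ε * T ^ 2 / 4) := by
      intro ε hε
      have hsub := subdivide (F := fun c => ∫ t in (0:ℝ)..T, Real.sqrt (‖vv c t‖ ^ 2 + ε ^ 2))
        (a := c1) (C := c2) (α := U / c1 + ε * T ^ 2 / 4)
        (β := T * (2 * cM b c2 * ‖w‖ * Real.exp T * Real.exp T)) hc (by positivity) (by
        intro c c' hac hcc hcC
        have hc0 : 0 < c := hc1.trans_le hac
        have hc'0 : 0 < c' := hc0.trans_le hcc
        have h3 := step_lemma hB hc0 hcc (hS c) (huu c) (hvv c) (hS c') (huu c') (hvv c') hε (T := T) (by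
          refine le_trans ?_ hT
          have : c1 ≤ c' := hac.trans hcc
          gcongr)
        refine h3.trans ?_
        have h4 := disp_bound hB hc1 (hac.trans hcc) hcC (hS c') (huu c') (hvv c') hT0.le
        have h5 : ‖uu c' T‖ / c' ≤ U / c1 := by
          have : c1 ≤ c' := hac.trans hcc
          gcongr
        have h6 : cM b c' ≤ cM b c2 := by
          unfold cM
          have : c' ^ 2 ≤ c2 ^ 2 := by nlinarith
          gcongr
        have h7 : 0 ≤ c' - c := by linarith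
        gcongr)
      have hv1eq : ∀ t, 0 ≤ t → vv c1 t = v1 t := fun t ht =>
        ((hS c1).unique hB hc1 h1 (by rw [huu, hu1]) (by rw [hvv, hv1]) ht).2
      have hv2eq : ∀ t, 0 ≤ t → vv c2 t = v2 t := fun t ht =>
        ((hS c2).unique hB (hc1.trans_le hc) h2 (by rw [huu, hu2]) (by rw [hvv, hv2]) ht).2
      have e1 : ∫ t in (0:ℝ)..T, ‖v2 t‖ ≤ ∫ t in (0:ℝ)..T, Real.sqrt (‖vv c2 t‖ ^ 2 + ε ^ 2) := by
        have hcont := (hS c2).cv
        refine integral_mono_on hT0.le (h2.cv.norm.intervalIntegrable _ _)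
          ((by fun_prop : Continuous fun t => Real.sqrt (‖vv c2 t‖ ^ 2 + ε ^ 2)).intervalIntegrable _ _) ?_
        intro t ht
        rw [← hv2eq t ht.1]
        exact Real.le_sqrt_of_sq_le (by nlinarith [sq_nonneg ε])
      have e2 : ∫ t in (0:ℝ)..T, Real.sqrt (‖vv c1 t‖ ^ 2 + ε ^ 2) ≤ (∫ t in (0:ℝ)..T, ‖v1 t‖) + ε * T := by
        have hcont := (hS c1).cv
        have hcont1 := h1.cv
        have e3 : ∫ t in (0:ℝ)..T, (‖v1 t‖ + ε) = (∫ t in (0:ℝ)..T, ‖v1 t‖) + ε * T := by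
          rw [integral_add (h1.cv.norm.intervalIntegrable _ _) (continuous_const.intervalIntegrable _ _),
            intervalIntegral.integral_const, smul_eq_mul, sub_zero, mul_comm]
        rw [← e3]
        refine integral_mono_on hT0.le
          ((by fun_prop : Continuous fun t => Real.sqrt (‖vv c1 t‖ ^ 2 + ε ^ 2)).intervalIntegrable _ _)
          ((by fun_prop : Continuous fun t => ‖v1 t‖ + ε).intervalIntegrable _ _) ?_
        intro t ht
        rw [hv1eq t ht.1, Real.sqrt_le_left (by positivity)]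
        nlinarith [mul_nonneg (norm_nonneg (v1 t)) hε.le]
      have e4 := hκ T hT0.le
      linarith
    -- let ε → 0
    have hlim : Tendsto (fun ε : ℝ => κ + ε * T + (c2 - c1) * (U / c1 + ε * T ^ 2 / 4)) (𝓝[>] 0)
        (𝓝 (κ + 0 * T + (c2 - c1) * (U / c1 + 0 * T ^ 2 / 4))) := by
      have : Continuous (fun ε : ℝ => κ + ε * T + (c2 - c1) * (U / c1 + ε * T ^ 2 / 4)) := by fun_prop
      exact (this.tendsto 0).mono_left nhdsWithin_le_nhds
    have h5 := ge_of_tendsto hlim (by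
      filter_upwards [self_mem_nhdsWithin] with ε hε'
      exact hε ε hε')
    have e5 : κ + 0 * T + (c2 - c1) * (U / c1 + 0 * T ^ 2 / 4) = κ + (c2 - c1) * (U / c1) := by ring
    rw [e5] at h5
    exact h5
  -- let T → ∞
  have hexp : Tendsto (fun S : ℝ => κ + (c2 - c1) * ((cM b c2 / b + 1) * Real.exp (-(c1 / cM b c2 / 2 * S)) * ‖w‖ / c1))
      atTop (𝓝 (κ + (c2 - c1) * ((cM b c2 / b + 1) * 0 * ‖w‖ / c1))) := by
    have h3 : Tendsto (fun S : ℝ => Real.exp (-(c1 / cM b c2 / 2 * S))) atTop (𝓝 0) := by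
      refine Real.tendsto_exp_atBot.comp ?_
      refine tendsto_neg_atTop_atBot.comp ?_
      exact Tendsto.const_mul_atTop (by positivity) tendsto_id
    exact (((h3.const_mul _).mul_const _).div_const _).const_mul _ |>.const_add κ
  have hfin := ge_of_tendsto hexp (b := ∫ t in (0:ℝ)..T, ‖v2 t‖) (by
    filter_upwards [eventually_ge_atTop (2 / c1), eventually_ge_atTop T] with S hS1 hS2
    refine le_trans ?_ (hkey S hS1)
    have h4 := integral_add_adjacent_intervals (μ := volume) (h2.cv.norm.intervalIntegrable 0 T)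
      (h2.cv.norm.intervalIntegrable T S)
    have h5 : 0 ≤ ∫ t in T..S, ‖v2 t‖ := integral_nonneg hS2 (fun _ _ => norm_nonneg _)
    linarith)
  simpa using hfin

end Pool.Agent.Q46.Dm
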