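import Pool.Agent.Q46.DmD

set_option linter.unusedVariables false
set_option linter.unusedSectionVars false

open Set Filter Topology MeasureTheory intervalIntegral
open scoped RealInnerProductSpace ENNReal

namespace Pool.Agent.Q46.Dm

variable {H : Type*} [NormedAddCommGroup H] [InnerProductSpace ℝ H] [CompleteSpace H]

/-- essential upper limit of `‖f t‖` as `t → ∞` -/
noncomputable def limsupNorm (f : ℝ → H) : ℝ≥0∞ :=
  limsup (fun t => ‖f t‖ₑ) (atTop ⊓ ae (volume : Measure ℝ))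

/-- `‖A^{1/2} v‖ ∈ [0, ∞]`, finite iff `v ∈ D(A^{1/2})`: the supremum of `|⟪A x, v⟫|` over the
`x ∈ D(A)` with `⟪A x, x⟫ ≤ 1`, i.e. `‖A^{1/2} x‖ ≤ 1`. -/
noncomputable def energyNorm (A : H →ₗ.[ℝ] H) (v : H) : ℝ≥0∞ :=
  ⨆ x : A.domain, ⨆ _ : ⟪A x, (x : H)⟫ ≤ 1, ‖⟪A x, v⟫‖ₑ

/-- `u` is a weak (mild) solution of `u'' + c u' + A u = f` on `(0,∞)`, with velocity `v = u'`:
`u ∈ C¹((0,∞), H) ∩ C⁰((0,∞), D(A^{1/2}))` and the equation holds in integrated form. -/
structure IsSolution (A : H →ₗ.[ℝ] H) (c : ℝ) (f u v : ℝ → H) : Prop where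
  deriv : ∀ t, 0 < t → HasDerivAt u (v t) t
  cont : ContinuousOn v (Ioi 0)
  energy_fin : ∀ t, 0 < t → energyNorm A (u t) < ⊤
  energy_cont : ∀ t, 0 < t → Tendsto (fun s => energyNorm A (u s - u t)) (𝓝 t) (𝓝 0)
  eq : ∀ s t, 0 < s → s ≤ t → ∃ h : (∫ r in s..t, u r) ∈ A.domain,
    A ⟨_, h⟩ = (∫ r in s..t, f r) - (v t - v s) - c • (u t - u s)

/-- `K` is admissible in the ultimate bound for the velocity. -/
def Admissible (A : H →ₗ.[ℝ] H) (c : ℝ) (K : ℝ≥0∞) : Prop :=
  ∀ f u v : ℝ → H, LocallyIntegrableOn f (Ioi 0) → limsupNorm f < ⊤ → IsSolution A c f u v →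
    limsup (fun t => ‖v t‖ₑ) atTop ≤ K * limsupNorm f

/-- the optimal constant `K(A, c)` -/
noncomputable def optK (A : H →ₗ.[ℝ] H) (c : ℝ) : ℝ≥0∞ := sInf {K | Admissible A c K}

/-- a cut-off `P` such that `A` is the bounded operator `B` on the range of `P` -/
structure Cut (A : H →ₗ.[ℝ] H) (b : ℝ) (P B : H →L[ℝ] H) : Prop where
  nice : Nice B b
  psymm : ∀ x y, ⟪P x, y⟫ = ⟪x, P y⟫
  comm : ∀ x, P (B x) = B (P x)
  dom : ∀ x, ∃ h : P x ∈ A.domain, A ⟨P x, h⟩ = B (P x)

/-- integration by parts for an integrable function -/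
lemma ibp {f ψ ψ' : ℝ → H} {a b : ℝ} (hab : a ≤ b) (hf : IntervalIntegrable f volume a b)
    (hψ : ∀ s, HasDerivAt ψ (ψ' s) s) (hψ' : Continuous ψ') :
    ∫ s in a..b, ⟪f s, ψ s⟫ = ⟪∫ s in a..b, f s, ψ b⟫ - ∫ s in a..b, ⟪∫ r in a..s, f r, ψ' s⟫ := by
  have hψc : Continuous ψ := continuous_iff_continuousAt.2 fun t => (hψ t).continuousAt
  set μ := (volume : Measure ℝ).restrict (Ioc a b) with hμ
  have hfi : Integrable f μ := (intervalIntegrable_iff_integrableOn_Ioc_of_le hab).1 hf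
  obtain ⟨C, hC⟩ := (isCompact_Icc (a := a) (b := b)).exists_bound_of_continuousOn hψ'.continuousOn
  let G : ℝ → ℝ → ℝ := fun s r => indicator {x : ℝ × ℝ | x.2 ≤ x.1} (fun x => ⟪f x.2, ψ' x.1⟫) (s, r)
  have hmeas : MeasurableSet {x : ℝ × ℝ | x.2 ≤ x.1} := measurableSet_le measurable_snd measurable_fst
  have hG : Integrable (Function.uncurry G) (μ.prod μ) := by
    have e : Function.uncurry G = indicator {x : ℝ × ℝ | x.2 ≤ x.1} (fun x => ⟪f x.2, ψ' x.1⟫) := by
      ext x; rfl
    rw [e]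
    refine Integrable.indicator ?_ hmeas
    have h1 : Integrable (fun x : ℝ × ℝ => C * ‖f x.2‖) (μ.prod μ) := by
      have : Integrable (fun x : ℝ × ℝ => (1 : ℝ) * ‖f x.2‖) (μ.prod μ) :=
        Integrable.mul_prod (f := fun _ : ℝ => (1 : ℝ)) (g := fun r => ‖f r‖) (integrable_const _) hfi.norm
      simpa using this.const_mul C
    refine h1.mono' ?_ ?_
    · exact (hfi.aestronglyMeasurable.comp_snd).inner (hψ'.aestronglyMeasurable.comp_fst)
    · have h2 : ∀ᵐ x ∂(μ.prod μ), x.1 ∈ Icc a b := by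
        have h3 : ∀ᵐ s ∂μ, s ∈ Icc a b := by
          rw [hμ]
          filter_upwards [ae_restrict_mem measurableSet_Ioc] with s hs
          exact Ioc_subset_Icc_self hs
        exact (Measure.quasiMeasurePreserving_fst (μ := μ) (ν := μ)).ae h3
      filter_upwards [h2] with x hx
      rw [Real.norm_eq_abs]
      refine (abs_real_inner_le_norm _ _).trans ?_
      rw [mul_comm]
      exact mul_le_mul_of_nonneg_right (hC x.1 hx) (norm_nonneg _)
  have hswap := integral_integral_swap hG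
  have hleft : ∫ s in a..b, ⟪∫ r in a..s, f r, ψ' s⟫ = ∫ s, ∫ r, G s r ∂μ ∂μ := by
    rw [integral_of_le hab]
    refine setIntegral_congr_fun measurableSet_Ioc ?_
    intro s hs
    have h1 : (fun r => G s r) = indicator (Iic s) (fun r => ⟪f r, ψ' s⟫) := by
      ext r
      simp only [G, indicator, mem_Iic]
      rfl
    simp only
    rw [h1, MeasureTheory.integral_indicator measurableSet_Iic, hμ, Measure.restrict_restrict measurableSet_Iic]
    have h2 : Iic s ∩ Ioc a b = Ioc a s := by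
      ext r
      simp only [mem_inter_iff, mem_Iic, mem_Ioc]
      constructor
      · rintro ⟨h3, h4, h5⟩; exact ⟨h4, h3⟩
      · rintro ⟨h3, h4⟩; exact ⟨h4, h3, h4.trans hs.2⟩
    rw [h2, integral_of_le hs.1.le]
    have h3 : IntegrableOn f (Ioc a s) := hfi.mono_measure (Measure.restrict_mono (Ioc_subset_Ioc_right hs.2) le_rfl)
    have h4 := ContinuousLinearMap.integral_comp_comm (innerSL ℝ (ψ' s)) h3
    rw [real_inner_comm]
    simp only [innerSL_apply_apply] at h4
    rw [← h4]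
    refine integral_congr_ae (Eventually.of_forall fun r => ?_)
    exact real_inner_comm _ _
  have hright : ∫ r, ∫ s, G s r ∂μ ∂μ = ∫ r in a..b, ⟪f r, ψ b - ψ r⟫ := by
    rw [integral_of_le hab]
    refine setIntegral_congr_fun measurableSet_Ioc ?_
    intro r hr
    have h1 : (fun s => G s r) = indicator (Ici r) (fun s => ⟪f r, ψ' s⟫) := by
      ext s
      simp only [G, indicator, mem_Ici]
      rfl
    simp only
    rw [h1, MeasureTheory.integral_indicator measurableSet_Ici, hμ, Measure.restrict_restrict measurableSet_Ici]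
    have h2 : Ici r ∩ Ioc a b = Icc r b := by
      ext s
      simp only [mem_inter_iff, mem_Ici, mem_Ioc, mem_Icc]
      constructor
      · rintro ⟨h3, h4, h5⟩; exact ⟨h3, h5⟩
      · rintro ⟨h3, h4⟩; exact ⟨h3, hr.1.trans_le h3, h4⟩
    rw [h2, integral_Icc_eq_integral_Ioc]
    have h3 : IntegrableOn ψ' (Ioc r b) := (hψ'.integrableOn_Icc).mono_set Ioc_subset_Icc_self
    have h4 := ContinuousLinearMap.integral_comp_comm (innerSL ℝ (f r)) h3
    simp only [innerSL_apply_apply] at h4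
    rw [h4]
    congr 1
    rw [← integral_of_le hr.2]
    exact integral_eq_sub_of_hasDerivAt (fun x _ => hψ x) (hψ'.intervalIntegrable _ _)
  rw [hleft, hswap, hright]
  have h5 : IntervalIntegrable (fun s => ⟪f s, ψ s⟫) volume a b := by
    rw [intervalIntegrable_iff_integrableOn_Ioc_of_le hab]
    obtain ⟨C', hC'⟩ := (isCompact_Icc (a := a) (b := b)).exists_bound_of_continuousOn hψc.continuousOn
    refine (hfi.norm.const_mul C').mono' (hfi.aestronglyMeasurable.inner hψc.aestronglyMeasurable) ?_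
    filter_upwards [ae_restrict_mem measurableSet_Ioc] with s hs
    rw [Real.norm_eq_abs]
    refine (abs_real_inner_le_norm _ _).trans ?_
    rw [mul_comm]
    exact mul_le_mul_of_nonneg_right (hC' s (Ioc_subset_Icc_self hs)) (norm_nonneg _)
  have h6 : IntervalIntegrable (fun s => ⟪f s, ψ b⟫) volume a b := by
    rw [intervalIntegrable_iff_integrableOn_Ioc_of_le hab]
    exact hfi.inner_const _
  have h7 : ∫ s in a..b, ⟪f s, ψ b - ψ s⟫ = (∫ s in a..b, ⟪f s, ψ b⟫) - ∫ s in a..b, ⟪f s, ψ s⟫ := by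
    rw [← integral_sub h6 h5]
    refine integral_congr (fun s _ => ?_)
    exact inner_sub_right _ _ _
  have h8 : ∫ s in a..b, ⟪f s, ψ b⟫ = ⟪∫ s in a..b, f s, ψ b⟫ := by
    rw [integral_of_le hab, integral_of_le hab]
    have h4 := ContinuousLinearMap.integral_comp_comm (innerSL ℝ (ψ b)) hfi
    rw [real_inner_comm]
    simp only [innerSL_apply_apply] at h4
    rw [← h4]
    refine integral_congr_ae (Eventually.of_forall fun r => ?_)
    exact real_inner_comm _ _
  rw [h7, h8]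
  ring

end Pool.Agent.Q46.Dm
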