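import Pool.Agent.Q46.DmE

set_option linter.unusedVariables false
set_option linter.unusedSectionVars false

open Set Filter Topology MeasureTheory intervalIntegral
open scoped RealInnerProductSpace ENNReal

namespace Pool.Agent.Q46.Dm

variable {H : Type*} [NormedAddCommGroup H] [InnerProductSpace ℝ H] [CompleteSpace H]

lemma Sol.cutoff {B P : H →L[ℝ] H} {c : ℝ} {g u v : ℝ → H} (h : Sol B c g u v) (hPB : ∀ x, P (B x) = B (P x)) :
    Sol B c (fun t => P (g t)) (fun t => P (u t)) (fun t => P (v t)) := by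
  constructor
  · intro t; exact (P.hasFDerivAt).comp_hasDerivAt t (h.du t)
  · intro t
    refine ((P.hasFDerivAt).comp_hasDerivAt t (h.dv t)).congr_deriv ?_
    rw [map_sub, map_sub, map_smul, hPB]

/-- duality formula -/
lemma duality {A : H →ₗ.[ℝ] H} (hsym : ∀ x y : A.domain, ⟪A x, (y : H)⟫ = ⟪(x : H), A y⟫) {b c : ℝ}
    {P B : H →L[ℝ] H} (hcut : Cut A b P B) {f u v : ℝ → H}
    (hf : LocallyIntegrableOn f (Ioi 0)) (hsol : IsSolution A c f u v)
    {y0 z0 : ℝ → H} (h0 : Sol B c (fun _ => 0) y0 z0) (hy0 : y0 0 = 0) {s0 t : ℝ} (hs0 : 0 < s0) (hst : s0 ≤ t) :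
    ⟪v t, P (z0 0)⟫ = (∫ s in s0..t, ⟪f s, P (z0 (t - s))⟫) + ⟪v s0, P (z0 (t - s0))⟫ -
      ⟪u s0, B (P (y0 (t - s0)))⟫ := by
  have hB := hcut.nice
  have hP := h0.cutoff hcut.comm
  simp only [map_zero] at hP
  -- test functions
  let χ : ℝ → H := fun s => P (y0 (t - s))
  let ψ : ℝ → H := fun s => P (z0 (t - s))
  let ψ' : ℝ → H := fun s => B (χ s) + c • ψ s
  have hrev : ∀ s : ℝ, HasDerivAt (fun s => t - s) (-1) s := fun s => by
    simpa using (hasDerivAt_id s).const_sub t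
  have hχ : ∀ s, HasDerivAt χ (-ψ s) s := by
    intro s
    have := (hP.du (t - s)).scomp s (hrev s)
    rw [neg_one_smul] at this
    exact this
  have hψ : ∀ s, HasDerivAt ψ (ψ' s) s := by
    intro s
    have := (hP.dv (t - s)).scomp s (hrev s)
    refine this.congr_deriv ?_
    simp only [ψ', χ, ψ]
    module
  have hχc : Continuous χ := continuous_iff_continuousAt.2 fun t => (hχ t).continuousAt
  have hψc : Continuous ψ := continuous_iff_continuousAt.2 fun t => (hψ t).continuousAt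
  have hψ'c : Continuous ψ' := by fun_prop
  have hψ'' : ∀ s, HasDerivAt ψ' (-(B (ψ s)) + c • ψ' s) s := by
    intro s
    have := ((B.hasFDerivAt).comp_hasDerivAt s (hχ s)).add ((hψ s).const_smul c)
    refine this.congr_deriv ?_
    simp
  have hucont : ContinuousOn u (Ioi 0) := fun x hx => (hsol.deriv x hx).continuousAt.continuousWithinAt
  have hsub : Icc s0 t ⊆ Ioi 0 := fun x hx => hs0.trans_le hx.1
  have hfi : IntervalIntegrable f volume s0 t := by
    rw [intervalIntegrable_iff_integrableOn_Ioc_of_le hst]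
    exact (hf.integrableOn_compact_subset hsub isCompact_Icc).mono_set Ioc_subset_Icc_self
  have hufull : ContinuousOn u (uIcc s0 t) := by rw [uIcc_of_le hst]; exact hucont.mono hsub
  have hvfull : ContinuousOn v (uIcc s0 t) := by rw [uIcc_of_le hst]; exact hsol.cont.mono hsub
  -- the function U
  let U : ℝ → H := fun s => ∫ r in s0..s, u r
  have hUc : ContinuousOn U (uIcc s0 t) := by
    apply intervalIntegral.continuousOn_primitive_interval
    exact hufull.integrableOn_uIcc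
  have hU : ∀ s ∈ Ioo s0 t, HasDerivAt U (u s) s := by
    intro s hs
    have hs' : 0 < s := hs0.trans hs.1
    apply intervalIntegral.integral_hasDerivAt_right
    · exact (hufull.mono (uIcc_subset_uIcc left_mem_uIcc (by rw [uIcc_of_le hst]; exact ⟨hs.1.le, hs.2.le⟩))).intervalIntegrable
    · exact hucont.stronglyMeasurableAtFilter isOpen_Ioi s hs'
    · exact (hsol.deriv s hs').continuousAt
  have heq : ∀ s ∈ Icc s0 t, ⟪∫ r in s0..s, f r, ψ' s⟫ =
      ⟪v s - v s0, ψ' s⟫ + c * ⟪u s - u s0, ψ' s⟫ + ⟪U s, B (ψ' s)⟫ := by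
    intro s hs
    obtain ⟨hd, he⟩ := hsol.eq s0 s hs0 hs.1
    have h1 : (∫ r in s0..s, f r) = A ⟨_, hd⟩ + (v s - v s0) + c • (u s - u s0) := by
      rw [he]; abel
    rw [h1, inner_add_left, inner_add_left, real_inner_smul_left]
    -- ψ' s in the range of P
    have h2 : ψ' s = P (B (y0 (t - s)) + c • z0 (t - s)) := by
      simp only [ψ', χ, ψ]
      rw [map_add, hcut.comm, map_smul]
    obtain ⟨hd2, he2⟩ := hcut.dom (B (y0 (t - s)) + c • z0 (t - s))
    have h3 : ⟪A ⟨_, hd⟩, ψ' s⟫ = ⟪U s, B (ψ' s)⟫ := by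
      have := hsym ⟨_, hd⟩ ⟨_, hd2⟩
      rw [he2] at this
      rw [h2]
      exact this
    rw [h3]; ring
  have hibp := ibp hst hfi hψ hψ'c
  have heqt : ⟪∫ r in s0..t, f r, ψ t⟫ = ⟪v t - v s0, ψ t⟫ + c * ⟪u t - u s0, ψ t⟫ + ⟪U t, B (ψ t)⟫ := by
    obtain ⟨hd, he⟩ := hsol.eq s0 t hs0 hst
    have h1 : (∫ r in s0..t, f r) = A ⟨_, hd⟩ + (v t - v s0) + c • (u t - u s0) := by
      rw [he]; abel
    rw [h1, inner_add_left, inner_add_left, real_inner_smul_left]
    obtain ⟨hd2, he2⟩ := hcut.dom (z0 (t - t))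
    have h3 : ⟪A ⟨_, hd⟩, ψ t⟫ = ⟪U t, B (ψ t)⟫ := by
      have := hsym ⟨_, hd⟩ ⟨_, hd2⟩
      rw [he2] at this
      exact this
    rw [h3]; ring
  -- integrate the exact derivative
  let Θ : ℝ → ℝ := fun s => ⟪U s, B (ψ s)⟫ + ⟪u s, ψ' s⟫ - ⟪v s0, ψ s⟫ - c * ⟪u s0, ψ s⟫
  have hΘ : ∀ s ∈ Ioo s0 t, HasDerivAt Θ ((⟪U s, B (ψ' s)⟫ + ⟪u s, B (ψ s)⟫) +
      (⟪u s, -(B (ψ s)) + c • ψ' s⟫ + ⟪v s, ψ' s⟫) - ⟪v s0, ψ' s⟫ - c * ⟪u s0, ψ' s⟫) s := by
    intro s hs
    have hs' : 0 < s := hs0.trans hs.1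
    have h1 := (hU s hs).inner ℝ ((B.hasFDerivAt).comp_hasDerivAt s (hψ s))
    have h2 := (hsol.deriv s hs').inner ℝ (hψ'' s)
    have h3 := (hasDerivAt_const s (v s0)).inner ℝ (hψ s)
    have h4 := ((hasDerivAt_const s (u s0)).inner ℝ (hψ s)).const_mul c
    have h5 := ((h1.add h2).sub h3).sub h4
    refine h5.congr_deriv ?_
    simp
  have hΘc : ContinuousOn Θ (uIcc s0 t) := by
    have h1 : ContinuousOn (fun s => ⟪U s, B (ψ s)⟫) (uIcc s0 t) :=
      hUc.inner (B.continuous.comp hψc).continuousOn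
    have h2 : ContinuousOn (fun s => ⟪u s, ψ' s⟫) (uIcc s0 t) := hufull.inner hψ'c.continuousOn
    have h3 : Continuous (fun s => ⟪v s0, ψ s⟫) := by fun_prop
    have h4 : Continuous (fun s => c * ⟪u s0, ψ s⟫) := by fun_prop
    exact ((h1.add h2).sub h3.continuousOn).sub h4.continuousOn
  have hder'c : ContinuousOn (fun s => (⟪U s, B (ψ' s)⟫ + ⟪u s, B (ψ s)⟫) +
      (⟪u s, -(B (ψ s)) + c • ψ' s⟫ + ⟪v s, ψ' s⟫) - ⟪v s0, ψ' s⟫ - c * ⟪u s0, ψ' s⟫) (uIcc s0 t) := by
    have e1 : ContinuousOn (fun s => ⟪U s, B (ψ' s)⟫) (uIcc s0 t) :=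
      hUc.inner (B.continuous.comp hψ'c).continuousOn
    have e2 : ContinuousOn (fun s => ⟪u s, B (ψ s)⟫) (uIcc s0 t) :=
      hufull.inner (B.continuous.comp hψc).continuousOn
    have e3 : ContinuousOn (fun s => ⟪u s, -(B (ψ s)) + c • ψ' s⟫) (uIcc s0 t) :=
      hufull.inner (by fun_prop : Continuous fun s => -(B (ψ s)) + c • ψ' s).continuousOn
    have e4 : ContinuousOn (fun s => ⟪v s, ψ' s⟫) (uIcc s0 t) := hvfull.inner hψ'c.continuousOn
    have e5 : Continuous (fun s => ⟪v s0, ψ' s⟫) := by fun_prop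
    have e6 : Continuous (fun s => c * ⟪u s0, ψ' s⟫) := by fun_prop
    exact (((e1.add e2).add (e3.add e4)).sub e5.continuousOn).sub e6.continuousOn
  have hFTC := integral_eq_sub_of_hasDerivAt_of_le hst (by rwa [uIcc_of_le hst] at hΘc) hΘ
    hder'c.intervalIntegrable
  have hcongr : ∫ s in s0..t, ⟪∫ r in s0..s, f r, ψ' s⟫ =
      ∫ s in s0..t, ((⟪U s, B (ψ' s)⟫ + ⟪u s, B (ψ s)⟫) +
      (⟪u s, -(B (ψ s)) + c • ψ' s⟫ + ⟪v s, ψ' s⟫) - ⟪v s0, ψ' s⟫ - c * ⟪u s0, ψ' s⟫) := by
    refine integral_congr ?_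
    intro s hs
    rw [uIcc_of_le hst] at hs
    simp only
    rw [heq s hs]
    simp only [inner_sub_left, inner_add_right, inner_neg_right, real_inner_smul_right]
    ring
  rw [hcongr, hFTC] at hibp
  have hUs0 : U s0 = 0 := by simp [U]
  have hχt : χ t = 0 := by simp [χ, hy0]
  have hψt : ψ t = P (z0 0) := by simp [ψ]
  rw [heqt] at hibp
  simp only [Θ, hUs0, inner_zero_left] at hibp
  have hψ't : ψ' t = c • ψ t := by simp [ψ', hχt]
  have hψ's0 : ψ' s0 = B (χ s0) + c • ψ s0 := rfl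
  rw [hψ't, hψ's0] at hibp
  simp only [inner_sub_left, inner_add_right, real_inner_smul_right] at hibp
  rw [← hψt]
  change ⟪v t, ψ t⟫ = (∫ s in s0..t, ⟪f s, ψ s⟫) + ⟪v s0, ψ s0⟫ - ⟪u s0, B (χ s0)⟫
  linarith

/-- bound by the energy norm -/
lemma energy_bound {A : H →ₗ.[ℝ] H} {b : ℝ} (hb : 0 < b)
    (hcoer : ∀ x : A.domain, b * ‖(x : H)‖ ^ 2 ≤ ⟪A x, (x : H)⟫) {u : H} (hu : energyNorm A u < ⊤)
    (x : A.domain) : |⟪A x, u⟫| ≤ (energyNorm A u).toReal * Real.sqrt ⟪A x, (x : H)⟫ := by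
  by_cases hx : (x : H) = 0
  · have : x = 0 := Subtype.ext hx
    rw [this]; simp
  · have h1 : 0 < ‖(x : H)‖ := norm_pos_iff.2 hx
    have h2 : 0 < ⟪A x, (x : H)⟫ := lt_of_lt_of_le (by positivity) (hcoer x)
    have h3 : 0 < Real.sqrt ⟪A x, (x : H)⟫ := Real.sqrt_pos.2 h2
    set r := Real.sqrt ⟪A x, (x : H)⟫ with hr
    have h4 : r ^ 2 = ⟪A x, (x : H)⟫ := Real.sq_sqrt h2.le
    let y : A.domain := r⁻¹ • x
    have h8 : A y = r⁻¹ • A x := A.map_smul r⁻¹ x
    have h5 : ⟪A y, (y : H)⟫ ≤ 1 := by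
      rw [h8]
      simp only [y, Submodule.coe_smul, real_inner_smul_left, real_inner_smul_right]
      rw [← h4]
      have : r⁻¹ * (r⁻¹ * r ^ 2) = 1 := by field_simp
      rw [this]
    have h6 : ‖⟪A y, u⟫‖ₑ ≤ energyNorm A u :=
      le_iSup_of_le y (le_iSup_of_le h5 le_rfl)
    have h7 : |⟪A y, u⟫| ≤ (energyNorm A u).toReal := by
      have := ENNReal.toReal_mono hu.ne h6
      simpa using this
    rw [h8, real_inner_smul_left, abs_mul, abs_of_pos (inv_pos.2 h3)] at h7
    rw [inv_mul_le_iff₀ h3] at h7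
    linarith

/-- upper bound: a uniform bound for the length of all trajectories is admissible -/
theorem upper {A : H →ₗ.[ℝ] H} (hsym : ∀ x y : A.domain, ⟪A x, (y : H)⟫ = ⟪(x : H), A y⟫) {b c κ : ℝ} (hc : 0 < c)
    (hb : 0 < b) (hcoer : ∀ x : A.domain, b * ‖(x : H)‖ ^ 2 ≤ ⟪A x, (x : H)⟫)
    (hex : ∀ (x : H) (ε : ℝ), 0 < ε → ∃ P B : H →L[ℝ] H, Cut A b P B ∧ ‖P x - x‖ < ε) (hκ0 : 0 ≤ κ)
    (hκ : ∀ P B : H →L[ℝ] H, Cut A b P B → ∀ y0 z0 : ℝ → H, Sol B c (fun _ => 0) y0 z0 → y0 0 = 0 →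
      ∀ T, 0 ≤ T → ∫ t in (0:ℝ)..T, ‖P (z0 t)‖ ≤ κ * ‖P (z0 0)‖) :
    Admissible A c (ENNReal.ofReal κ) := by
  intro f u v hf hfl hsol
  -- it is enough to bound by every larger M
  have hmain : ∀ M : ℝ, 0 ≤ M → limsupNorm f < ENNReal.ofReal M →
      limsup (fun t => ‖v t‖ₑ) atTop ≤ ENNReal.ofReal (κ * M) := by
    intro M hM0 hM
    have hev : ∀ᶠ t in atTop ⊓ ae (volume : Measure ℝ), ‖f t‖ₑ < ENNReal.ofReal M :=
      eventually_lt_of_limsup_lt hM
    have hev2 : ∃ s0 : ℝ, 0 < s0 ∧ ∀ᵐ t, s0 ≤ t → ‖f t‖ ≤ M := by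
      rw [eventually_inf] at hev
      obtain ⟨s, hs, s', hs', hss⟩ := hev
      obtain ⟨a, ha⟩ := mem_atTop_sets.1 hs
      refine ⟨max a 1, by positivity, ?_⟩
      filter_upwards [hs'] with t ht hmt
      have h1 := hss t ⟨ha t ((le_max_left _ _).trans hmt), ht⟩
      rw [← ofReal_norm, ENNReal.ofReal_lt_ofReal_iff_of_nonneg (norm_nonneg _)] at h1
      exact h1.le
    obtain ⟨s0, hs0, hfM⟩ := hev2
    set cm := cM b c with hcm
    set ω := cω b c with hωd
    have hM' : 3 / 2 ≤ cm := cM_pos hb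
    have hω : 0 < ω := cω_pos hb hc
    let E := (energyNorm A (u s0)).toReal
    let C0 := ‖v s0‖ * (2 * cm) + E * cm
    have hE : 0 ≤ E := ENNReal.toReal_nonneg
    have hC0 : 0 ≤ C0 := by positivity
    have hbound : ∀ t, s0 ≤ t → ‖v t‖ ≤ κ * M + C0 * Real.exp (-(ω / 2 * (t - s0))) := by
      intro t ht
      set D := κ * M + C0 * Real.exp (-(ω / 2 * (t - s0))) with hD
      have hD0 : 0 ≤ D := by positivity
      have key : ∀ P B : H →L[ℝ] H, Cut A b P B → ⟪v t, P (v t)⟫ ≤ D * ‖P (v t)‖ := by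
        intro P B hcut
        obtain ⟨y0, z0, h0, hy0, hz0⟩ := exists_sol B c (fun _ => 0) continuous_const 0 (v t)
        have hdual := duality hsym hcut hf hsol h0 hy0 hs0 ht
        rw [hz0] at hdual
        rw [hdual]
        have hP := h0.cutoff hcut.comm
        simp only [map_zero] at hP
        have hts : 0 ≤ t - s0 := by linarith
        -- the integral
        have hi : ∫ s in s0..t, ⟪f s, P (z0 (t - s))⟫ ≤ M * (κ * ‖P (v t)‖) := by
          have hcz : Continuous (fun s => P (z0 (t - s))) := P.continuous.comp (h0.cv.comp (by fun_prop))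
          have h1 : ∫ s in s0..t, ⟪f s, P (z0 (t - s))⟫ ≤ ∫ s in s0..t, M * ‖P (z0 (t - s))‖ := by
            have hsub : Icc s0 t ⊆ Ioi 0 := fun x hx => hs0.trans_le hx.1
            have hfi : IntegrableOn f (Ioc s0 t) :=
              (hf.integrableOn_compact_subset hsub isCompact_Icc).mono_set Ioc_subset_Icc_self
            have hae : ∀ᵐ s ∂(volume.restrict (Ioc s0 t)), ‖⟪f s, P (z0 (t - s))⟫‖ ≤ M * ‖P (z0 (t - s))‖ := by
              rw [ae_restrict_iff' measurableSet_Ioc]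
              filter_upwards [hfM] with s hs hs'
              rw [Real.norm_eq_abs]
              refine (abs_real_inner_le_norm _ _).trans ?_
              exact mul_le_mul_of_nonneg_right (hs hs'.1.le) (norm_nonneg _)
            rw [integral_of_le ht, integral_of_le ht]
            refine integral_mono_ae ?_ ?_ ?_
            · exact Integrable.mono' (((continuous_const.mul hcz.norm).integrableOn_Icc).mono_set
                Ioc_subset_Icc_self) (hfi.aestronglyMeasurable.inner hcz.aestronglyMeasurable) hae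
            · exact ((continuous_const.mul hcz.norm).integrableOn_Icc).mono_set
                Ioc_subset_Icc_self
            · filter_upwards [hae] with s hs
              exact (le_abs_self _).trans hs
          have h2 : ∫ s in s0..t, M * ‖P (z0 (t - s))‖ = M * ∫ r in (0:ℝ)..(t - s0), ‖P (z0 r)‖ := by
            rw [intervalIntegral.integral_const_mul]
            congr 1
            have := integral_comp_sub_left (a := s0) (b := t) (fun r => ‖P (z0 r)‖) t
            rw [this, sub_self]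
          rw [h2] at h1
          refine h1.trans ?_
          have h3 := hκ P B hcut y0 z0 h0 hy0 (t - s0) hts
          rw [hz0] at h3
          gcongr
        have hv : ⟪v s0, P (z0 (t - s0))⟫ ≤ ‖v s0‖ * (2 * cm * Real.exp (-(ω / 2 * (t - s0))) * ‖P (v t)‖) := by
          refine (real_inner_le_norm _ _).trans ?_
          have := hP.decay_v hcut.nice hc (by simp [hy0]) hts
          rw [hz0] at this
          gcongr
        have hu : -⟪u s0, B (P (y0 (t - s0)))⟫ ≤ E * (cm * Real.exp (-(ω / 2 * (t - s0))) * ‖P (v t)‖) := by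
          obtain ⟨hd, he⟩ := hcut.dom (y0 (t - s0))
          have h1 := energy_bound hb hcoer (hsol.energy_fin s0 hs0) ⟨_, hd⟩
          rw [he] at h1
          have h2 := (abs_le.1 h1).1
          rw [real_inner_comm (u s0) (B (P (y0 (t - s0))))] at h2
          have h3 : Real.sqrt ⟪B (P (y0 (t - s0))), P (y0 (t - s0))⟫ ≤ cm * Real.exp (-(ω / 2 * (t - s0))) * ‖P (v t)‖ := by
            apply Real.sqrt_le_iff.2
            refine ⟨by positivity, ?_⟩
            have := hP.decay_u hcut.nice hc (by simp [hy0]) hts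
            rw [hz0] at this
            refine this.trans ?_
            have h4 : Real.exp (-(ω * (t - s0))) = Real.exp (-(ω / 2 * (t - s0))) ^ 2 := by
              rw [sq, ← Real.exp_add]; ring_nf
            rw [← hωd, ← hcm, h4]
            have h5 : (cm * Real.exp (-(ω / 2 * (t - s0))) * ‖P (v t)‖) ^ 2 =
              cm ^ 2 * (Real.exp (-(ω / 2 * (t - s0))) ^ 2 * ‖P (v t)‖ ^ 2) := by ring
            rw [h5, mul_assoc]
            gcongr
            nlinarith
          have h4 : E * Real.sqrt ⟪B (P (y0 (t - s0))), P (y0 (t - s0))⟫ ≤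
              E * (cm * Real.exp (-(ω / 2 * (t - s0))) * ‖P (v t)‖) := by gcongr
          change -⟪u s0, B (P (y0 (t - s0)))⟫ ≤ _
          have h6 : -(E * Real.sqrt ⟪B (P (y0 (t - s0))), P (y0 (t - s0))⟫) ≤ ⟪u s0, B (P (y0 (t - s0)))⟫ := h2
          linarith
        have hfin : M * (κ * ‖P (v t)‖) + ‖v s0‖ * (2 * cm * Real.exp (-(ω / 2 * (t - s0))) * ‖P (v t)‖) +
            E * (cm * Real.exp (-(ω / 2 * (t - s0))) * ‖P (v t)‖) = D * ‖P (v t)‖ := by
          rw [hD]; simp only [C0]; ring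
        linarith
      -- remove the cut-off
      have hη : ∀ η, 0 < η → ‖v t‖ ^ 2 ≤ D * ‖v t‖ + η * (‖v t‖ + D) := by
        intro η hη
        obtain ⟨P, B, hcut, hP⟩ := hex (v t) η hη
        have h1 := key P B hcut
        have h2 : ⟪v t, P (v t)⟫ = ‖v t‖ ^ 2 + ⟪v t, P (v t) - v t⟫ := by
          rw [inner_sub_right, real_inner_self_eq_norm_sq]; ring
        have h3 := (abs_le.1 (abs_real_inner_le_norm (v t) (P (v t) - v t))).1
        have h4 : ‖v t‖ * ‖P (v t) - v t‖ ≤ ‖v t‖ * η := by gcongr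
        have h5 : ‖P (v t)‖ ≤ ‖v t‖ + η := by
          have : P (v t) = v t + (P (v t) - v t) := by abel
          calc ‖P (v t)‖ = ‖v t + (P (v t) - v t)‖ := by rw [← this]
            _ ≤ ‖v t‖ + ‖P (v t) - v t‖ := norm_add_le _ _
            _ ≤ _ := by linarith
        have h6 : D * ‖P (v t)‖ ≤ D * (‖v t‖ + η) := by gcongr
        nlinarith
      have h7 : ‖v t‖ ^ 2 ≤ D * ‖v t‖ := by
        refine le_of_forall_pos_le_add ?_
        intro δ hδ
        have h8 := hη (δ / (‖v t‖ + D + 1)) (by positivity)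
        have h9 : δ / (‖v t‖ + D + 1) * (‖v t‖ + D) ≤ δ := by
          rw [div_mul_eq_mul_div, div_le_iff₀ (by positivity)]
          nlinarith [norm_nonneg (v t)]
        linarith
      by_contra hcon
      push Not at hcon
      have h10 : 0 < ‖v t‖ := lt_of_le_of_lt hD0 hcon
      nlinarith
    -- limsup
    have hlim : Tendsto (fun t : ℝ => κ * M + C0 * Real.exp (-(ω / 2 * (t - s0)))) atTop (𝓝 (κ * M + C0 * 0)) := by
      have h3 : Tendsto (fun t : ℝ => Real.exp (-(ω / 2 * (t - s0)))) atTop (𝓝 0) := by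
        refine Real.tendsto_exp_atBot.comp ?_
        refine tendsto_neg_atTop_atBot.comp ?_
        exact Tendsto.const_mul_atTop (by positivity) (tendsto_atTop_add_const_right _ _ tendsto_id)
      exact (h3.const_mul C0).const_add _
    have hlim2 := (ENNReal.continuous_ofReal.tendsto _).comp hlim
    have h11 : limsup (fun t => ‖v t‖ₑ) atTop ≤ limsup (ENNReal.ofReal ∘ fun t : ℝ => κ * M + C0 * Real.exp (-(ω / 2 * (t - s0)))) atTop := by
      refine limsup_le_limsup ?_
      filter_upwards [eventually_ge_atTop s0] with t ht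
      rw [← ofReal_norm]
      exact ENNReal.ofReal_le_ofReal (hbound t ht)
    rw [hlim2.limsup_eq] at h11
    simpa using h11
  -- let M decrease to limsupNorm f
  have hL : limsupNorm f = ENNReal.ofReal (limsupNorm f).toReal := (ENNReal.ofReal_toReal hfl.ne).symm
  set L := (limsupNorm f).toReal with hLdef
  have hL0 : 0 ≤ L := ENNReal.toReal_nonneg
  rw [hL, ← ENNReal.ofReal_mul hκ0]
  refine ENNReal.le_of_forall_pos_le_add ?_
  intro ε hε _
  have h12 := hmain (L + ε / (κ + 1)) (by positivity) (by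
    rw [hL, ENNReal.ofReal_lt_ofReal_iff (by positivity)]
    have : 0 < (ε : ℝ) / (κ + 1) := by positivity
    linarith)
  refine h12.trans ?_
  have h13 : κ * (L + ε / (κ + 1)) ≤ κ * L + ε := by
    have : κ * ((ε : ℝ) / (κ + 1)) ≤ ε := by
      rw [← mul_div_assoc, div_le_iff₀ (by positivity)]
      have : (0:ℝ) < ε := hε
      nlinarith
    linarith
  calc ENNReal.ofReal (κ * (L + ε / (κ + 1))) ≤ ENNReal.ofReal (κ * L + ε) := ENNReal.ofReal_le_ofReal h13
    _ = ENNReal.ofReal (κ * L) + ε := by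
      rw [ENNReal.ofReal_add (by positivity) (by positivity), ENNReal.ofReal_coe_nnreal]

end Pool.Agent.Q46.Dm
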