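import Pool.Agent.Q46.DmF

set_option linter.unusedVariables false
set_option linter.unusedSectionVars false

open Set Filter Topology MeasureTheory intervalIntegral
open scoped RealInnerProductSpace ENNReal

namespace Pool.Agent.Q46.Dm

variable {H : Type*} [NormedAddCommGroup H] [InnerProductSpace ℝ H] [CompleteSpace H]

lemma dual_bounded {B : H →L[ℝ] H} {b c : ℝ} (hB : Nice B b) {f u v y z : ℝ → H} (hf : Continuous f)
    (h : Sol B c f u v) (hu : u 0 = 0) (hv : v 0 = 0) (h' : Sol B c (fun _ => 0) y z) (hy : y 0 = 0) (t : ℝ) :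
    ⟪v t, z 0⟫ = ∫ s in (0:ℝ)..t, ⟪f s, z (t - s)⟫ := by
  have hrev : ∀ s : ℝ, HasDerivAt (fun s => t - s) (-1) s := fun s => by
    simpa using (hasDerivAt_id s).const_sub t
  have hy' : ∀ s, HasDerivAt (fun s => y (t - s)) (-z (t - s)) s := by
    intro s
    have := (h'.du (t - s)).scomp s (hrev s)
    rw [neg_one_smul] at this
    exact this
  have hz' : ∀ s, HasDerivAt (fun s => z (t - s)) (B (y (t - s)) + c • z (t - s)) s := by
    intro s
    have := (h'.dv (t - s)).scomp s (hrev s)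
    refine this.congr_deriv ?_
    module
  have hder : ∀ s, HasDerivAt (fun s => ⟪v s, z (t - s)⟫ - ⟪u s, B (y (t - s))⟫) ⟪f s, z (t - s)⟫ s := by
    intro s
    have h1 := ((h.dv s).inner ℝ (hz' s)).sub ((h.du s).inner ℝ ((B.hasFDerivAt).comp_hasDerivAt s (hy' s)))
    refine h1.congr_deriv ?_
    simp only [Function.comp, map_neg, inner_neg_right, inner_add_right, inner_sub_left, real_inner_smul_left,
      real_inner_smul_right]
    rw [hB.symm (u s) (z (t - s))]
    ring
  have hcz : Continuous (fun s => z (t - s)) := h'.cv.comp (by fun_prop)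
  have := integral_eq_sub_of_hasDerivAt (a := 0) (b := t) (fun x _ => hder x)
    ((hf.inner hcz).intervalIntegrable _ _)
  rw [this]
  simp [hu, hv, hy]

/-- triangular wave -/
noncomputable def tri (τ s : ℝ) : ℝ := τ / Real.pi * Real.arccos (Real.cos (Real.pi / τ * s))

lemma tri_continuous (τ : ℝ) : Continuous (tri τ) := by
  unfold tri
  exact continuous_const.mul (Real.continuous_arccos.comp (Real.continuous_cos.comp (by fun_prop)))

lemma tri_eq {τ r : ℝ} (hτ : 0 < τ) (h0 : 0 ≤ r) (h1 : r ≤ τ) : tri τ r = r := by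
  unfold tri
  have hpi := Real.pi_pos
  rw [Real.arccos_cos (by positivity)]
  · field_simp
  · rw [div_mul_eq_mul_div, div_le_iff₀ hτ]
    nlinarith

lemma tri_reflect {τ : ℝ} (hτ : 0 < τ) (k : ℕ) (r : ℝ) : tri τ (2 * τ * k - r) = tri τ r := by
  unfold tri
  congr 2
  have : Real.pi / τ * (2 * τ * k - r) = k * (2 * Real.pi) - Real.pi / τ * r := by
    field_simp
  rw [this, Real.cos_nat_mul_two_pi_sub]

lemma energy_range {A : H →ₗ.[ℝ] H} (hsym : ∀ x y : A.domain, ⟪A x, (y : H)⟫ = ⟪(x : H), A y⟫) {b : ℝ} (hb : 0 < b)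
    (hcoer : ∀ x : A.domain, b * ‖(x : H)‖ ^ 2 ≤ ⟪A x, (x : H)⟫)
    {P B : H →L[ℝ] H} (hcut : Cut A b P B) (x : H) :
    energyNorm A (P x) ≤ ENNReal.ofReal (Real.sqrt (1 / b) * ‖B (P x)‖) := by
  refine iSup_le fun y => iSup_le fun hy => ?_
  obtain ⟨hd, he⟩ := hcut.dom x
  have h1 : ⟪A y, P x⟫ = ⟪(y : H), B (P x)⟫ := by
    have := hsym y ⟨_, hd⟩
    rw [he] at this
    exact this
  rw [h1, ← ofReal_norm]
  apply ENNReal.ofReal_le_ofReal
  rw [Real.norm_eq_abs]
  refine (abs_real_inner_le_norm _ _).trans ?_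
  have h2 : ‖(y : H)‖ ≤ Real.sqrt (1 / b) := by
    apply Real.le_sqrt_of_sq_le
    rw [le_div_iff₀ hb]
    have := hcoer y
    linarith
  gcongr

/-- lower bound: an admissible constant bounds the length of all trajectories -/
theorem lower {A : H →ₗ.[ℝ] H} (hsym : ∀ x y : A.domain, ⟪A x, (y : H)⟫ = ⟪(x : H), A y⟫) {b c : ℝ} (hc : 0 < c)
    (hb : 0 < b) (hcoer : ∀ x : A.domain, b * ‖(x : H)‖ ^ 2 ≤ ⟪A x, (x : H)⟫)
    {K : ℝ≥0∞} (hK : Admissible A c K) (hKt : K < ⊤)
    {P B : H →L[ℝ] H} (hcut : Cut A b P B) {y0 z0 : ℝ → H} (h0 : Sol B c (fun _ => 0) y0 z0) (hy0 : y0 0 = 0)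
    {T : ℝ} (hT : 0 ≤ T) : ∫ t in (0:ℝ)..T, ‖P (z0 t)‖ ≤ K.toReal * ‖P (z0 0)‖ := by
  have hB := hcut.nice
  have hP := h0.cutoff hcut.comm
  simp only [map_zero] at hP
  set κ := K.toReal with hκ
  have hκ0 : 0 ≤ κ := ENNReal.toReal_nonneg
  set cm := cM b c with hcm
  set ω := cω b c with hωd
  have hM' : 3 / 2 ≤ cm := cM_pos hb
  have hω : 0 < ω := cω_pos hb hc
  set z : ℝ → H := fun t => P (z0 t) with hz
  have hzc : Continuous z := hP.cv
  have hzdecay : ∀ r, 0 ≤ r → ‖z r‖ ≤ 2 * cm * Real.exp (-(ω / 2 * r)) * ‖z 0‖ := by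
    intro r hr
    exact hP.decay_v hB hc (by simp [hy0]) hr
  have hmain : ∀ τ, 0 < τ → ∀ ε, 0 < ε → ∀ η, 0 < η →
      ∫ t in (0:ℝ)..τ, ‖z t‖ ≤ (κ + η) * ‖z 0‖ + ε * τ + 4 * cm / ω * Real.exp (-(ω / 2 * τ)) * ‖z 0‖ := by
    intro τ hτ ε hε η hη
    let h : ℝ → H := fun s => (Real.sqrt (‖z (tri τ s)‖ ^ 2 + ε ^ 2))⁻¹ • z0 (tri τ s)
    let f : ℝ → H := fun s => dir ε (z (tri τ s))
    have hfh : ∀ s, P (h s) = f s := by
      intro s
      simp only [h, f, dir, map_smul]
      rfl
    have hztc : Continuous (fun s => z (tri τ s)) := hzc.comp (tri_continuous τ)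
    have hhc : Continuous h := by
      refine Continuous.smul (Continuous.inv₀ ?_ (fun s => (sqrt_pos' hε _).ne')) ?_
      · exact Real.continuous_sqrt.comp ((hztc.norm.pow 2).add continuous_const)
      · exact h0.cv.comp (tri_continuous τ)
    have hfc : Continuous f := (dir_continuous hε).comp hztc
    have hf1 : ∀ s, ‖f s‖ ≤ 1 := fun s => norm_dir_le hε _
    obtain ⟨Y, Z, hYZ, hY0, hZ0⟩ := exists_sol B c h hhc 0 0
    have hS := hYZ.cutoff hcut.comm
    simp only [hfh] at hS
    have hfeq : (fun t => P (h t)) = f := funext hfh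
    -- it is a solution of the A-equation
    have hsol : IsSolution A c f (fun t => P (Y t)) (fun t => P (Z t)) := by
      constructor
      · intro t _; exact hS.du t
      · exact hS.cv.continuousOn
      · intro t _
        exact lt_of_le_of_lt (energy_range hsym hb hcoer hcut (Y t)) ENNReal.ofReal_lt_top
      · intro t _
        have h1 : Tendsto (fun s => ENNReal.ofReal (Real.sqrt (1 / b) * ‖B (P (Y s - Y t))‖)) (𝓝 t) (𝓝 0) := by
          have h2 : Continuous (fun s => ENNReal.ofReal (Real.sqrt (1 / b) * ‖B (P (Y s - Y t))‖)) := by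
            have := hYZ.cu
            refine ENNReal.continuous_ofReal.comp ?_
            fun_prop
          have h3 := h2.tendsto t
          simpa using h3
        refine tendsto_of_tendsto_of_tendsto_of_le_of_le tendsto_const_nhds h1 (fun _ => bot_le) ?_
        intro s
        change energyNorm A (P (Y s) - P (Y t)) ≤ _
        rw [← map_sub]
        exact energy_range hsym hb hcoer hcut _
      · intro s t hs hst
        have hYc := hYZ.cu
        have hPY : ∫ r in s..t, P (Y r) = P (∫ r in s..t, Y r) :=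
          ContinuousLinearMap.intervalIntegral_comp_comm P (hYc.intervalIntegrable _ _)
        obtain ⟨hd, he⟩ := hcut.dom (∫ r in s..t, Y r)
        have hd' : (∫ r in s..t, P (Y r)) ∈ A.domain := by rw [hPY]; exact hd
        refine ⟨hd', ?_⟩
        have he' : A ⟨_, hd'⟩ = B (∫ r in s..t, P (Y r)) := by
          have e1 : (⟨_, hd'⟩ : A.domain) = ⟨_, hd⟩ := Subtype.ext hPY
          rw [e1, he, hPY]
        have he2 : ∫ r in s..t, B (P (Y r)) = B (∫ r in s..t, P (Y r)) :=
          ContinuousLinearMap.intervalIntegral_comp_comm B ((P.continuous.comp hYc).intervalIntegrable _ _)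
        rw [he', ← he2]
        have h3 : ∫ r in s..t, (f r - B (P (Y r)) - c • P (Z r)) = P (Z t) - P (Z s) :=
          integral_eq_sub_of_hasDerivAt (fun x _ => hS.dv x) (by
            have e2 := hS.cu
            have e3 := hS.cv
            exact ((hfc.sub (B.continuous.comp e2)).sub (e3.const_smul c)).intervalIntegrable _ _)
        have h4 : ∫ r in s..t, P (Z r) = P (Y t) - P (Y s) :=
          integral_eq_sub_of_hasDerivAt (fun x _ => hS.du x) (hS.cv.intervalIntegrable _ _)
        have k1 : Continuous (fun r => B (P (Y r))) := B.continuous.comp hS.cu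
        have k2 : Continuous (fun r => c • P (Z r)) := hS.cv.const_smul c
        have k3 : Continuous (fun r => f r - B (P (Y r))) := hfc.sub k1
        rw [integral_sub (k3.intervalIntegrable _ _) (k2.intervalIntegrable _ _),
          integral_sub (hfc.intervalIntegrable _ _) (k1.intervalIntegrable _ _),
          intervalIntegral.integral_smul, h4] at h3
        rw [← h3]
        module
    have hlf : limsupNorm f ≤ 1 := by
      refine limsup_le_of_le (h := Eventually.of_forall fun t => ?_)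
      rw [← ofReal_norm]
      exact ENNReal.ofReal_le_one.2 (hf1 t)
    have hadm := hK f _ _ (hfc.locallyIntegrable.locallyIntegrableOn _) (hlf.trans_lt ENNReal.one_lt_top) hsol
    have hlt : limsup (fun t => ‖P (Z t)‖ₑ) atTop < ENNReal.ofReal (κ + η) := by
      refine lt_of_le_of_lt hadm ?_
      have h1 : K * limsupNorm f ≤ K * 1 := by gcongr
      rw [mul_one] at h1
      refine lt_of_le_of_lt h1 ?_
      rw [← ENNReal.ofReal_toReal hKt.ne, ENNReal.ofReal_lt_ofReal_iff (by positivity)]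
      linarith
    have hev := eventually_lt_of_limsup_lt hlt
    obtain ⟨a, ha⟩ := eventually_atTop.1 hev
    obtain ⟨k, hk⟩ := exists_nat_gt (max (a / (2 * τ)) 1)
    have hk1 : a ≤ 2 * τ * k := by
      have : a / (2 * τ) ≤ k := (le_max_left _ _).trans hk.le
      rw [div_le_iff₀ (by positivity)] at this
      linarith
    have hk2 : (1 : ℝ) < k := (le_max_right _ _).trans_lt hk
    set tk := 2 * τ * k with htk
    have htkτ : τ ≤ tk := by nlinarith
    have hv := ha tk hk1
    rw [← ofReal_norm, ENNReal.ofReal_lt_ofReal_iff_of_nonneg (norm_nonneg _)] at hv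
    have hdual := dual_bounded hB hfc hS (by simp [hY0]) (by simp [hZ0]) hP (by simp [hy0]) tk
    have hsubst : ∫ s in (0:ℝ)..tk, ⟪f s, z (tk - s)⟫ = ∫ r in (0:ℝ)..tk, ⟪dir ε (z (tri τ r)), z r⟫ := by
      have h1 := integral_comp_sub_left (a := 0) (b := tk) (fun r => ⟪f (tk - r), z r⟫) tk
      simp only [sub_sub_cancel, sub_self, sub_zero] at h1
      rw [h1]
      refine integral_congr (fun r _ => ?_)
      simp only [f]
      rw [htk, tri_reflect hτ]
    rw [hsubst] at hdual
    have hGc : Continuous (fun r => ⟪dir ε (z (tri τ r)), z r⟫) := hfc.inner hzc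
    have hsplit := integral_add_adjacent_intervals (μ := volume) (hGc.intervalIntegrable 0 τ)
      (hGc.intervalIntegrable τ tk)
    have hA : (∫ t in (0:ℝ)..τ, ‖z t‖) - ε * τ ≤ ∫ r in (0:ℝ)..τ, ⟪dir ε (z (tri τ r)), z r⟫ := by
      have h1 : ∫ t in (0:ℝ)..τ, (‖z t‖ - ε) = (∫ t in (0:ℝ)..τ, ‖z t‖) - ε * τ := by
        rw [integral_sub (hzc.norm.intervalIntegrable _ _) (continuous_const.intervalIntegrable _ _),
          intervalIntegral.integral_const, smul_eq_mul, sub_zero, mul_comm]
      rw [← h1]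
      refine integral_mono_on hτ.le ((hzc.norm.sub continuous_const).intervalIntegrable _ _)
        (hGc.intervalIntegrable _ _) ?_
      intro r hr
      rw [tri_eq hτ hr.1 hr.2]
      exact inner_dir_ge hε _
    have hBd : -(4 * cm / ω * Real.exp (-(ω / 2 * τ)) * ‖z 0‖) ≤ ∫ r in τ..tk, ⟪dir ε (z (tri τ r)), z r⟫ := by
      have hder : ∀ r, HasDerivAt (fun r => 4 * cm / ω * Real.exp (-(ω / 2 * r)) * ‖z 0‖)
          (-(2 * cm * Real.exp (-(ω / 2 * r)) * ‖z 0‖)) r := by
        intro r
        have h6 : HasDerivAt (fun s => Real.exp (-(ω / 2 * s))) (Real.exp (-(ω / 2 * r)) * (-(ω / 2))) r := by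
          have := ((hasDerivAt_id r).const_mul (ω / 2)).neg.exp
          simpa using this
        refine ((h6.const_mul (4 * cm / ω)).mul_const ‖z 0‖).congr_deriv ?_
        field_simp
        ring
      have := sub_le_integral htkτ hder (by fun_prop) hGc (by
        intro r hr
        have h1 := (abs_le.1 (abs_real_inner_le_norm (dir ε (z (tri τ r))) (z r))).1
        have h2 : ‖dir ε (z (tri τ r))‖ * ‖z r‖ ≤ 1 * (2 * cm * Real.exp (-(ω / 2 * r)) * ‖z 0‖) := by
          have h3 := hzdecay r (hτ.le.trans hr.1)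
          have h4 := norm_dir_le hε (z (tri τ r))
          gcongr
        linarith)
      have h5 : 0 ≤ 4 * cm / ω * Real.exp (-(ω / 2 * tk)) * ‖z 0‖ := by positivity
      linarith
    have hC : ⟪P (Z tk), z 0⟫ ≤ (κ + η) * ‖z 0‖ := by
      refine (real_inner_le_norm _ _).trans ?_
      gcongr
    change ⟪P (Z tk), z 0⟫ = _ at hdual
    linarith
  -- remove η, ε
  have hmain2 : ∀ τ, 0 < τ → ∫ t in (0:ℝ)..τ, ‖z t‖ ≤ κ * ‖z 0‖ + 4 * cm / ω * Real.exp (-(ω / 2 * τ)) * ‖z 0‖ := by
    intro τ hτ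
    refine le_of_forall_pos_le_add ?_
    intro δ hδ
    have h1 := hmain τ hτ (δ / (2 * τ)) (by positivity) (δ / (2 * (‖z 0‖ + 1))) (by positivity)
    have h2 : δ / (2 * τ) * τ = δ / 2 := by field_simp
    have h3 : δ / (2 * (‖z 0‖ + 1)) * ‖z 0‖ ≤ δ / 2 := by
      rw [div_mul_eq_mul_div, div_le_div_iff₀ (by positivity) (by positivity)]
      nlinarith [norm_nonneg (z 0)]
    linarith
  have hlim : Tendsto (fun τ : ℝ => κ * ‖z 0‖ + 4 * cm / ω * Real.exp (-(ω / 2 * τ)) * ‖z 0‖) atTop
      (𝓝 (κ * ‖z 0‖ + 4 * cm / ω * 0 * ‖z 0‖)) := by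
    have h3 : Tendsto (fun t : ℝ => Real.exp (-(ω / 2 * t))) atTop (𝓝 0) := by
      refine Real.tendsto_exp_atBot.comp ?_
      refine tendsto_neg_atTop_atBot.comp ?_
      exact Tendsto.const_mul_atTop (by positivity) tendsto_id
    exact ((h3.const_mul _).mul_const _).const_add _
  have hfin := ge_of_tendsto hlim (b := ∫ t in (0:ℝ)..T, ‖z t‖) (by
    filter_upwards [eventually_gt_atTop 0, eventually_ge_atTop T] with S hS1 hS2
    refine le_trans ?_ (hmain2 S hS1)
    have h4 := integral_add_adjacent_intervals (μ := volume) (hzc.norm.intervalIntegrable 0 T)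
      (hzc.norm.intervalIntegrable T S)
    have h5 : 0 ≤ ∫ t in T..S, ‖z t‖ := integral_nonneg hS2 (fun _ _ => norm_nonneg _)
    linarith)
  simpa using hfin

end Pool.Agent.Q46.Dm
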