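import Pool.Agent.Q46.DmG

set_option linter.unusedVariables false
set_option linter.unusedSectionVars false

open Set Filter Topology Polynomial
open scoped RealInnerProductSpace ENNReal

namespace Pool.Agent.Q46.Dm

variable {H : Type*} [NormedAddCommGroup H] [InnerProductSpace ℝ H] [CompleteSpace H]

/-- bounded symmetric operator with `0 ≤ T ≤ M` -/
structure Bd (T : H →L[ℝ] H) (M : ℝ) : Prop where
  symm : ∀ x y, ⟪T x, y⟫ = ⟪x, T y⟫
  nonneg : ∀ x, 0 ≤ ⟪T x, x⟫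
  le : ∀ x, ⟪T x, x⟫ ≤ M * ‖x‖ ^ 2

lemma Bd.aeval_symm {T : H →L[ℝ] H} {M : ℝ} (hT : Bd T M) (p : ℝ[X]) (x y : H) :
    ⟪aeval T p x, y⟫ = ⟪x, aeval T p y⟫ := by
  induction p using Polynomial.induction_on generalizing x y with
  | C a => simp [real_inner_smul_left, real_inner_smul_right, Algebra.algebraMap_eq_smul_one]
  | add p q hp hq =>
    simp only [map_add, _root_.add_apply, inner_add_left, inner_add_right, hp, hq]
  | monomial n a h =>
    have e1 : aeval T (C a * X ^ (n + 1)) = (aeval T (C a * X ^ n)) * T := by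
      rw [pow_succ, ← mul_assoc, map_mul, aeval_X]
    have e2 : aeval T (C a * X ^ (n + 1)) = T * (aeval T (C a * X ^ n)) := by
      rw [pow_succ', ← mul_assoc, mul_comm (C a) X, mul_assoc, map_mul, aeval_X]
    rw [e1]
    conv_rhs => rw [← e1, e2]
    change ⟪aeval T (C a * X ^ n) (T x), y⟫ = ⟪x, T (aeval T (C a * X ^ n) y)⟫
    rw [h, hT.symm]

/-- positivity of polynomials, by compression to a Krylov space -/
lemma Bd.poly_nonneg {T : H →L[ℝ] H} {M : ℝ} (hT : Bd T M) (p : ℝ[X])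
    (hp : ∀ s ∈ Icc 0 M, 0 ≤ p.eval s) (x : H) : 0 ≤ ⟪aeval T p x, x⟫ := by
  classical
  set n := p.natDegree with hn
  let W : Submodule ℝ H := Submodule.span ℝ ((fun k : ℕ => (T ^ k) x) '' (Finset.range (n + 1) : Set ℕ))
  have hfin : FiniteDimensional ℝ W := FiniteDimensional.span_of_finite ℝ ((Finset.finite_toSet _).image _)
  have hmem : ∀ k, k ≤ n → (T ^ k) x ∈ W := fun k hk =>
    Submodule.subset_span ⟨k, by simpa using Nat.lt_succ_of_le hk, rfl⟩
  let S : W →ₗ[ℝ] W := (W.orthogonalProjectionOnto : H →ₗ[ℝ] W) ∘ₗ (T : H →ₗ[ℝ] H) ∘ₗ W.subtype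
  have hS : ∀ w : W, S w = W.orthogonalProjectionOnto (T w) := fun w => rfl
  have hSsym : S.IsSymmetric := by
    intro a b
    rw [hS, hS]
    rw [Submodule.coe_inner, Submodule.coe_inner]
    have h1 := Submodule.inner_orthogonalProjectionOnto_eq_of_mem_right (K := W) b (T a)
    have h2 := Submodule.inner_orthogonalProjectionOnto_eq_of_mem_left (K := W) a (T b)
    rw [Submodule.coe_inner] at h1 h2
    rw [h1, h2, hT.symm]
  let x0 : W := ⟨x, by simpa using hmem 0 (Nat.zero_le _)⟩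
  have hpow : ∀ k, k ≤ n → (((S ^ k) x0 : W) : H) = (T ^ k) x := by
    intro k
    induction k with
    | zero => intro _; simp [x0]
    | succ k ih =>
      intro hk
      have h1 := ih (by omega)
      have h2 : (S ^ (k + 1)) x0 = S ((S ^ k) x0) := by rw [pow_succ']; rfl
      have h3 : (T ^ (k + 1)) x = T ((T ^ k) x) := by rw [pow_succ']; rfl
      rw [h2, hS, h1, ← h3]
      exact congrArg Subtype.val (Submodule.orthogonalProjectionOnto_mem_subspace_eq_self (K := W) ⟨_, hmem (k + 1) hk⟩)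
  have hae : ((aeval S p x0 : W) : H) = aeval T p x := by
    rw [aeval_eq_sum_range, aeval_eq_sum_range]
    simp only [LinearMap.sum_apply, _root_.sum_apply, LinearMap.smul_apply,
      _root_.smul_apply, Submodule.coe_sum, Submodule.coe_smul]
    refine Finset.sum_congr rfl (fun k hk => ?_)
    rw [hpow k (by simpa using Nat.lt_succ_iff.1 (Finset.mem_range.1 hk))]
  have hinner : ⟪aeval T p x, x⟫ = ⟪aeval S p x0, x0⟫ := by
    rw [Submodule.coe_inner, hae]
  rw [hinner]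
  set e := hSsym.eigenvectorBasis rfl with he
  set lam := hSsym.eigenvalues rfl with hlam
  have hSe : ∀ i, S (e i) = lam i • e i := fun i => hSsym.apply_eigenvectorBasis rfl i
  have hae2 : ∀ i, aeval S p (e i) = p.eval (lam i) • e i := by
    intro i
    have hne : e i ≠ 0 := by
      intro h0
      have := e.orthonormal.1 i
      rw [h0] at this
      simp at this
    have hev : Module.End.HasEigenvector S (lam i) (e i) :=
      Module.End.hasEigenvector_iff.2 ⟨Module.End.mem_eigenspace_iff.2 (hSe i), hne⟩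
    exact Module.End.aeval_apply_of_hasEigenvector hev
  have hlamI : ∀ i, lam i ∈ Icc 0 M := by
    intro i
    have h1 : ⟪S (e i), e i⟫ = lam i := by
      rw [hSe, real_inner_smul_left, real_inner_self_eq_norm_sq, e.orthonormal.1 i]; ring
    have h2 : ⟪S (e i), e i⟫ = ⟪T (e i : H), (e i : H)⟫ := by
      rw [hS]
      exact Submodule.inner_orthogonalProjectionOnto_eq_of_mem_right (K := W) (e i) (T (e i))
    have h3 : ‖((e i : W) : H)‖ = 1 := e.orthonormal.1 i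
    constructor
    · rw [← h1, h2]; exact hT.nonneg _
    · rw [← h1, h2]
      have := hT.le ((e i : W) : H)
      rwa [h3, one_pow, mul_one] at this
  have hx0 : x0 = ∑ i, ⟪e i, x0⟫ • e i := (e.sum_repr' x0).symm
  have h1 : aeval S p x0 = ∑ i, (⟪e i, x0⟫ * p.eval (lam i)) • e i := by
    conv_lhs => rw [hx0]
    rw [map_sum]
    refine Finset.sum_congr rfl (fun i _ => ?_)
    rw [map_smul, hae2, smul_smul]
  rw [h1, sum_inner]
  refine Finset.sum_nonneg (fun i _ => ?_)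
  rw [real_inner_smul_left]
  have := hp _ (hlamI i)
  have h4 := mul_self_nonneg ⟪e i, x0⟫
  nlinarith [mul_nonneg this h4]

lemma Bd.poly_norm {T : H →L[ℝ] H} {M : ℝ} (hT : Bd T M) (p : ℝ[X]) {C : ℝ} (hC : 0 ≤ C)
    (hp : ∀ s ∈ Icc 0 M, |p.eval s| ≤ C) : ‖aeval T p‖ ≤ C := by
  refine ContinuousLinearMap.opNorm_le_bound _ hC (fun x => ?_)
  have h1 := hT.poly_nonneg (Polynomial.C (C ^ 2) - p * p) (by
    intro s hs
    simp only [eval_sub, eval_mul, eval_C]
    have := sq_le_sq' (abs_le.1 (hp s hs)).1 (abs_le.1 (hp s hs)).2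
    nlinarith) x
  have h2 : aeval T (Polynomial.C (C ^ 2) - p * p) x = C ^ 2 • x - aeval T p (aeval T p x) := by
    rw [map_sub, map_mul, aeval_C, Algebra.algebraMap_eq_smul_one]
    rfl
  rw [h2, inner_sub_left, hT.aeval_symm p (aeval T p x) x, real_inner_smul_left, real_inner_self_eq_norm_sq,
    real_inner_self_eq_norm_sq] at h1
  have h3 : ‖aeval T p x‖ ^ 2 ≤ (C * ‖x‖) ^ 2 := by nlinarith
  exact le_of_sq_le_sq h3 (by positivity)

/-- `S = g(T)` -/
def IsPhi (T : H →L[ℝ] H) (M : ℝ) (g : ℝ → ℝ) (S : H →L[ℝ] H) : Prop :=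
  ∀ (p : ℝ[X]) (C : ℝ), 0 ≤ C → (∀ s ∈ Icc 0 M, |p.eval s - g s| ≤ C) → ‖aeval T p - S‖ ≤ C

lemma exists_seq {M : ℝ} {g : ℝ → ℝ} (hg : ContinuousOn g (Icc 0 M)) :
    ∃ p : ℕ → ℝ[X], ∀ n, ∀ s ∈ Icc 0 M, |(p n).eval s - g s| ≤ 1 / ((n : ℝ) + 1) := by
  have h : ∀ n : ℕ, ∃ p : ℝ[X], ∀ s ∈ Icc 0 M, |p.eval s - g s| ≤ 1 / ((n : ℝ) + 1) := by
    intro n
    obtain ⟨p, hp⟩ := exists_polynomial_near_of_continuousOn 0 M g hg (1 / ((n : ℝ) + 1)) (by positivity)
    exact ⟨p, fun s hs => (hp s hs).le⟩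
  choose p hp using h
  exact ⟨p, hp⟩

lemma Bd.exists_phi {T : H →L[ℝ] H} {M : ℝ} (hT : Bd T M) {g : ℝ → ℝ} (hg : ContinuousOn g (Icc 0 M)) :
    ∃ S : H →L[ℝ] H, IsPhi T M g S := by
  obtain ⟨p, hp⟩ := exists_seq hg
  have hlim0 : Tendsto (fun n : ℕ => 1 / ((n : ℝ) + 1)) atTop (𝓝 0) := tendsto_one_div_add_atTop_nhds_zero_nat
  have hd : ∀ q : ℝ[X], ∀ C, 0 ≤ C → (∀ s ∈ Icc 0 M, |q.eval s - g s| ≤ C) → ∀ n,
      ‖aeval T q - aeval T (p n)‖ ≤ C + 1 / ((n : ℝ) + 1) := by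
    intro q C hC hq n
    rw [← map_sub]
    refine hT.poly_norm _ (by positivity) ?_
    intro s hs
    rw [eval_sub]
    have h1 := abs_le.1 (hq s hs)
    have h2 := abs_le.1 (hp n s hs)
    rw [abs_le]
    constructor <;> linarith
  have hcauchy : CauchySeq (fun n => aeval T (p n)) := by
    rw [Metric.cauchySeq_iff']
    intro ε hε
    have hlim1 := hlim0.add hlim0
    obtain ⟨N, hN⟩ := ((Metric.tendsto_atTop.1 hlim0) (ε / 2) (by positivity))
    refine ⟨N, fun n hn => ?_⟩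
    rw [dist_eq_norm]
    have h1 := hd (p n) (1 / ((n : ℝ) + 1)) (by positivity) (hp n) N
    have h2 := hN n hn
    have h3 := hN N le_rfl
    rw [Real.dist_eq, sub_zero, abs_of_pos (by positivity)] at h2 h3
    linarith
  obtain ⟨S, hS⟩ := cauchySeq_tendsto_of_complete hcauchy
  refine ⟨S, fun q C hC hq => ?_⟩
  have h1 : Tendsto (fun n => ‖aeval T q - aeval T (p n)‖) atTop (𝓝 ‖aeval T q - S‖) :=
    (tendsto_const_nhds.sub hS).norm
  have h2 : Tendsto (fun n : ℕ => C + 1 / ((n : ℝ) + 1)) atTop (𝓝 (C + 0)) := tendsto_const_nhds.add hlim0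
  rw [add_zero] at h2
  exact le_of_tendsto_of_tendsto' h1 h2 (hd q C hC hq)

lemma IsPhi.tendsto {T S : H →L[ℝ] H} {M : ℝ} {g : ℝ → ℝ} (h : IsPhi T M g S) {p : ℕ → ℝ[X]} {e : ℕ → ℝ}
    (he : Tendsto e atTop (𝓝 0)) (he0 : ∀ n, 0 ≤ e n) (hp : ∀ n, ∀ s ∈ Icc 0 M, |(p n).eval s - g s| ≤ e n) :
    Tendsto (fun n => aeval T (p n)) atTop (𝓝 S) := by
  rw [tendsto_iff_norm_sub_tendsto_zero]
  exact squeeze_zero (fun _ => norm_nonneg _) (fun n => h (p n) (e n) (he0 n) (hp n)) he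

lemma IsPhi.mul {T S S' R : H →L[ℝ] H} {M : ℝ} {g g' : ℝ → ℝ} (hg : ContinuousOn g (Icc 0 M))
    (hg' : ContinuousOn g' (Icc 0 M)) (h : IsPhi T M g S) (h' : IsPhi T M g' S')
    (hR : IsPhi T M (fun s => g s * g' s) R) : R = S * S' := by
  obtain ⟨p, hp⟩ := exists_seq hg
  obtain ⟨q, hq⟩ := exists_seq hg'
  have hlim0 : Tendsto (fun n : ℕ => 1 / ((n : ℝ) + 1)) atTop (𝓝 0) := tendsto_one_div_add_atTop_nhds_zero_nat
  have h1 := h.tendsto hlim0 (fun n => by positivity) hp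
  have h2 := h'.tendsto hlim0 (fun n => by positivity) hq
  obtain ⟨C, hC⟩ := isCompact_Icc.exists_bound_of_continuousOn hg
  obtain ⟨C', hC'⟩ := isCompact_Icc.exists_bound_of_continuousOn hg'
  have h3 := hR.tendsto (p := fun n => p n * q n) (e := fun n => 1 / ((n : ℝ) + 1) * (|C'| + 1) + |C| * (1 / ((n : ℝ) + 1)))
    (by
      have := (hlim0.mul_const (|C'| + 1)).add (hlim0.const_mul |C|)
      simpa using this) (fun n => by positivity) (by
      intro n s hs
      rw [eval_mul]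
      have e1 : (p n).eval s * (q n).eval s - g s * g' s =
        ((p n).eval s - g s) * (q n).eval s + g s * ((q n).eval s - g' s) := by ring
      rw [e1]
      refine (abs_add_le _ _).trans ?_
      rw [abs_mul, abs_mul]
      have h4 := hp n s hs
      have h5 := hq n s hs
      have h6 : |(q n).eval s| ≤ |C'| + 1 := by
        have h7 := hC' s hs
        rw [Real.norm_eq_abs] at h7
        have h8 : 1 / ((n : ℝ) + 1) ≤ 1 := by
          rw [div_le_one (by positivity)]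
          have : (0 : ℝ) ≤ n := by positivity
          linarith
        have h9 : (q n).eval s = ((q n).eval s - g' s) + g' s := by ring
        rw [h9]
        refine (abs_add_le _ _).trans ?_
        have := le_abs_self C'
        linarith
      have h10 : |g s| ≤ |C| := by
        have h7 := hC s hs
        rw [Real.norm_eq_abs] at h7
        exact h7.trans (le_abs_self C)
      gcongr)
  simp only [map_mul] at h3
  exact tendsto_nhds_unique h3 (h1.mul h2)

lemma IsPhi.norm_sub_le {T S S' : H →L[ℝ] H} {M : ℝ} {g g' : ℝ → ℝ} (hg' : ContinuousOn g' (Icc 0 M))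
    (h : IsPhi T M g S) (h' : IsPhi T M g' S') {C : ℝ} (hC : 0 ≤ C) (hgg : ∀ s ∈ Icc 0 M, |g s - g' s| ≤ C) :
    ‖S - S'‖ ≤ C := by
  obtain ⟨q, hq⟩ := exists_seq hg'
  have hlim0 : Tendsto (fun n : ℕ => 1 / ((n : ℝ) + 1)) atTop (𝓝 0) := tendsto_one_div_add_atTop_nhds_zero_nat
  have h2 := h'.tendsto hlim0 (fun n => by positivity) hq
  have h3 : ∀ n, ‖S - aeval T (q n)‖ ≤ C + 1 / ((n : ℝ) + 1) := by
    intro n
    rw [norm_sub_rev]
    refine h (q n) _ (by positivity) ?_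
    intro s hs
    have h4 := abs_le.1 (hq n s hs)
    have h5 := abs_le.1 (hgg s hs)
    rw [abs_le]; constructor <;> linarith
  have h6 : Tendsto (fun n => ‖S - aeval T (q n)‖) atTop (𝓝 ‖S - S'‖) := (tendsto_const_nhds.sub h2).norm
  have h7 : Tendsto (fun n : ℕ => C + 1 / ((n : ℝ) + 1)) atTop (𝓝 (C + 0)) := tendsto_const_nhds.add hlim0
  rw [add_zero] at h7
  exact le_of_tendsto_of_tendsto' h6 h7 h3

lemma hev {S : H →L[ℝ] H} {F : ℕ → (H →L[ℝ] H)} (h : Tendsto F atTop (𝓝 S)) (x : H) :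
    Tendsto (fun n => F n x) atTop (𝓝 (S x)) :=
  ((ContinuousLinearMap.apply ℝ H x).continuous.tendsto S).comp h

lemma IsPhi.symm {T S : H →L[ℝ] H} {M : ℝ} (hT : Bd T M) {g : ℝ → ℝ} (hg : ContinuousOn g (Icc 0 M))
    (h : IsPhi T M g S) (x y : H) : ⟪S x, y⟫ = ⟪x, S y⟫ := by
  obtain ⟨p, hp⟩ := exists_seq hg
  have h1 := h.tendsto tendsto_one_div_add_atTop_nhds_zero_nat (fun n => by positivity) hp
  have h2 : Tendsto (fun n => ⟪aeval T (p n) x, y⟫) atTop (𝓝 ⟪S x, y⟫) :=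
    ((hev h1 x).inner tendsto_const_nhds)
  have h3 : Tendsto (fun n => ⟪x, aeval T (p n) y⟫) atTop (𝓝 ⟪x, S y⟫) :=
    (tendsto_const_nhds.inner (hev h1 y))
  have h4 : (fun n => ⟪aeval T (p n) x, y⟫) = fun n => ⟪x, aeval T (p n) y⟫ := funext fun n => hT.aeval_symm _ _ _
  rw [h4] at h2
  exact tendsto_nhds_unique h2 h3

lemma IsPhi.lower {T S : H →L[ℝ] H} {M : ℝ} (hT : Bd T M) {g : ℝ → ℝ} (hg : ContinuousOn g (Icc 0 M))
    (h : IsPhi T M g S) {b : ℝ} (hb : ∀ s ∈ Icc 0 M, b ≤ g s) (x : H) : b * ‖x‖ ^ 2 ≤ ⟪S x, x⟫ := by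
  obtain ⟨p, hp⟩ := exists_seq hg
  have hlim0 : Tendsto (fun n : ℕ => 1 / ((n : ℝ) + 1)) atTop (𝓝 0) := tendsto_one_div_add_atTop_nhds_zero_nat
  have h1 := h.tendsto hlim0 (fun n => by positivity) hp
  have h2 : Tendsto (fun n => ⟪aeval T (p n) x, x⟫) atTop (𝓝 ⟪S x, x⟫) :=
    ((hev h1 x).inner tendsto_const_nhds)
  have h3 : ∀ n : ℕ, (b - 1 / ((n : ℝ) + 1)) * ‖x‖ ^ 2 ≤ ⟪aeval T (p n) x, x⟫ := by
    intro n
    have h4 := hT.poly_nonneg (p n - Polynomial.C (b - 1 / ((n : ℝ) + 1))) (by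
      intro s hs
      rw [eval_sub, eval_C]
      have h5 := (abs_le.1 (hp n s hs)).1
      have h6 := hb s hs
      linarith) x
    have h7 : aeval T (p n - Polynomial.C (b - 1 / ((n : ℝ) + 1))) x = aeval T (p n) x - (b - 1 / ((n : ℝ) + 1)) • x := by
      rw [map_sub, aeval_C, Algebra.algebraMap_eq_smul_one]
      rfl
    rw [h7, inner_sub_left, real_inner_smul_left, real_inner_self_eq_norm_sq] at h4
    linarith
  have h8 : Tendsto (fun n : ℕ => (b - 1 / ((n : ℝ) + 1)) * ‖x‖ ^ 2) atTop (𝓝 ((b - 0) * ‖x‖ ^ 2)) :=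
    (tendsto_const_nhds.sub hlim0).mul_const _
  rw [sub_zero] at h8
  exact le_of_tendsto_of_tendsto' h8 h2 h3

end Pool.Agent.Q46.Dm
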