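import Pool.Agent.Q46.DmH

set_option linter.unusedVariables false
set_option linter.unusedSectionVars false

open Set Filter Topology Polynomial
open scoped RealInnerProductSpace ENNReal

namespace Pool.Agent.Q46.Dm

variable {H : Type*} [NormedAddCommGroup H] [InnerProductSpace ℝ H] [CompleteSpace H]

lemma selfadj_symm {A : H →ₗ.[ℝ] H} (hd : Dense (A.domain : Set H)) (hsa : IsSelfAdjoint A) (x y : A.domain) :
    ⟪A x, (y : H)⟫ = ⟪(x : H), A y⟫ := by
  have h := LinearPMap.isSelfAdjoint_def.1 hsa
  have h1 := LinearPMap.adjoint_isFormalAdjoint hd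
  rw [h] at h1
  exact h1 x y

/-- the bounded inverse of a self-adjoint coercive operator -/
theorem exists_inverse {A : H →ₗ.[ℝ] H} (hd : Dense (A.domain : Set H)) (hsa : IsSelfAdjoint A) {b : ℝ} (hb : 0 < b)
    (hcoer : ∀ x : A.domain, b * ‖(x : H)‖ ^ 2 ≤ ⟪A x, (x : H)⟫) :
    ∃ T : H →L[ℝ] H, Bd T (1 / b) ∧ (∀ y, ∃ h : T y ∈ A.domain, A ⟨T y, h⟩ = y) ∧ DenseRange T := by
  have hsym := selfadj_symm hd hsa
  have hlow : ∀ x : A.domain, b * ‖(x : H)‖ ≤ ‖A x‖ := by
    intro x
    by_cases hx : ‖(x : H)‖ = 0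
    · rw [hx]; simp
    · have h1 : 0 < ‖(x : H)‖ := lt_of_le_of_ne (norm_nonneg _) (Ne.symm hx)
      have h2 := (hcoer x).trans (real_inner_le_norm _ _)
      have h3 : b * ‖(x : H)‖ * ‖(x : H)‖ ≤ ‖A x‖ * ‖(x : H)‖ := by nlinarith
      exact le_of_mul_le_mul_right h3 h1
  have hadj := LinearPMap.isSelfAdjoint_def.1 hsa
  have hclosed : IsClosed (A.graph : Set (H × H)) := by
    have h1 := LinearPMap.adjoint_isClosed hd
    rw [hadj] at h1
    exact h1
  -- injective
  have hinj : Function.Injective A.toFun := by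
    intro x y hxy
    have h1 : A (x - y) = 0 := by
      have : A (x - y) = A x - A y := A.map_sub x y
      rw [this]
      exact sub_eq_zero.2 hxy
    have h2 := hlow (x - y)
    rw [h1, norm_zero] at h2
    have h3 : ‖((x - y : A.domain) : H)‖ = 0 := by
      have := norm_nonneg ((x - y : A.domain) : H)
      nlinarith
    have h4 : ((x - y : A.domain) : H) = 0 := norm_eq_zero.1 h3
    have h5 : x - y = 0 := Subtype.ext h4
    exact sub_eq_zero.1 h5
  -- surjective
  have hsurj : Function.Surjective A.toFun := by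
    have hRclosed : IsClosed ((LinearMap.range A.toFun : Submodule ℝ H) : Set H) := by
      apply isClosed_of_closure_subset
      intro y hy
      obtain ⟨Y, hY, hlim⟩ := mem_closure_iff_seq_limit.1 hy
      choose X hX using hY
      have hXc : CauchySeq (fun n => (X n : H)) := by
        have hYc := hlim.cauchySeq
        rw [Metric.cauchySeq_iff'] at hYc ⊢
        intro ε hε
        obtain ⟨N, hN⟩ := hYc (b * ε) (by positivity)
        refine ⟨N, fun n hn => ?_⟩
        have h1 := hN n hn
        have h2 := hlow (X n - X N)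
        have h3 : A (X n - X N) = Y n - Y N := by
          have : A (X n - X N) = A (X n) - A (X N) := A.map_sub _ _
          rw [this, ← hX n, ← hX N]; rfl
        rw [h3] at h2
        rw [dist_eq_norm] at h1 ⊢
        have h4 : b * ‖(X n : H) - (X N : H)‖ < b * ε := lt_of_le_of_lt h2 h1
        exact lt_of_mul_lt_mul_left h4 hb.le
      obtain ⟨x, hx⟩ := cauchySeq_tendsto_of_complete hXc
      have hgr : (x, y) ∈ (A.graph : Set (H × H)) := by
        refine hclosed.mem_of_tendsto (hx.prodMk_nhds hlim) (Eventually.of_forall fun n => ?_)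
        change ((X n : H), Y n) ∈ A.graph
        rw [LinearPMap.mem_graph_iff]
        exact ⟨X n, rfl, hX n⟩
      obtain ⟨x', hx'1, hx'2⟩ := (LinearPMap.mem_graph_iff A).1 hgr
      exact ⟨x', hx'2⟩
    have hRorth : (LinearMap.range A.toFun)ᗮ = ⊥ := by
      rw [Submodule.eq_bot_iff]
      intro y hy
      have hy' : ∀ x : A.domain, ⟪y, A x⟫ = 0 := by
        intro x
        rw [Submodule.mem_orthogonal'] at hy
        exact hy _ ⟨x, rfl⟩
      have hmem : y ∈ A.adjoint.domain := by
        rw [LinearPMap.mem_adjoint_domain_iff]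
        have : ⇑((innerₛₗ ℝ) y ∘ₗ A.toFun) = fun _ => (0 : ℝ) := by
          ext x
          exact hy' x
        rw [this]
        exact continuous_const
      have hval : A.adjoint ⟨y, hmem⟩ = 0 := by
        apply LinearPMap.adjoint_apply_eq hd
        intro x
        rw [inner_zero_left]
        exact (hy' x).symm
      have hg : (y, (0 : H)) ∈ A.adjoint.graph := by
        rw [LinearPMap.mem_graph_iff]
        exact ⟨⟨y, hmem⟩, rfl, hval⟩
      rw [hadj] at hg
      obtain ⟨y', hy1, hy2⟩ := (LinearPMap.mem_graph_iff A).1 hg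
      have h2 := hlow y'
      rw [hy2, norm_zero, hy1] at h2
      have : ‖y‖ = 0 := by
        have := norm_nonneg y
        nlinarith
      exact norm_eq_zero.1 this
    have hcompl : IsComplete ((LinearMap.range A.toFun : Submodule ℝ H) : Set H) := hRclosed.isComplete
    have : (LinearMap.range A.toFun).HasOrthogonalProjection := by
      have : CompleteSpace (LinearMap.range A.toFun) := hcompl.completeSpace_coe
      infer_instance
    have htop : LinearMap.range A.toFun = ⊤ := by
      rw [← Submodule.orthogonal_eq_bot_iff]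
      exact hRorth
    exact LinearMap.range_eq_top.1 htop
  let e := LinearEquiv.ofBijective A.toFun ⟨hinj, hsurj⟩
  have he : ∀ y, A (e.symm y) = y := fun y => e.apply_symm_apply y
  let T : H →L[ℝ] H := (A.domain.subtype ∘ₗ e.symm.toLinearMap).mkContinuous (1 / b) (by
    intro y
    have h1 := hlow (e.symm y)
    rw [he y] at h1
    change ‖((e.symm y : A.domain) : H)‖ ≤ 1 / b * ‖y‖
    rw [div_mul_eq_mul_div, one_mul, le_div_iff₀ hb]
    linarith)
  have hT : ∀ y, T y = ((e.symm y : A.domain) : H) := fun y => rfl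
  refine ⟨T, ⟨?_, ?_, ?_⟩, ?_, ?_⟩
  · intro x y
    have h1 := hsym (e.symm x) (e.symm y)
    rw [he, he] at h1
    rw [hT, hT]
    exact h1.symm
  · intro x
    have h1 := hcoer (e.symm x)
    rw [he] at h1
    rw [hT, real_inner_comm]
    exact le_trans (by positivity) h1
  · intro x
    have h1 := hlow (e.symm x)
    rw [he x] at h1
    rw [hT]
    refine (real_inner_le_norm _ _).trans ?_
    rw [div_mul_eq_mul_div, one_mul, le_div_iff₀ hb]
    nlinarith [norm_nonneg x]
  · intro y
    refine ⟨(e.symm y).2, ?_⟩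
    have : (⟨T y, (e.symm y).2⟩ : A.domain) = e.symm y := Subtype.ext rfl
    rw [this]; exact he y
  · have : Set.range T = (A.domain : Set H) := by
      ext x
      constructor
      · rintro ⟨y, rfl⟩; exact (e.symm y).2
      · intro hx
        refine ⟨A ⟨x, hx⟩, ?_⟩
        rw [hT]
        have : e.symm (A ⟨x, hx⟩) = ⟨x, hx⟩ := e.symm_apply_apply ⟨x, hx⟩
        rw [this]
    rw [DenseRange, this]
    exact hd

/-- existence of cut-offs -/
theorem exists_cut {A : H →ₗ.[ℝ] H} (hd : Dense (A.domain : Set H)) (hsa : IsSelfAdjoint A) {b : ℝ} (hb : 0 < b)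
    (hcoer : ∀ x : A.domain, b * ‖(x : H)‖ ^ 2 ≤ ⟪A x, (x : H)⟫) (x : H) (ε : ℝ) (hε : 0 < ε) :
    ∃ P B : H →L[ℝ] H, Cut A b P B ∧ ‖P x - x‖ < ε := by
  obtain ⟨T, hT, hTA, hTd⟩ := exists_inverse hd hsa hb hcoer
  set M := 1 / b with hM
  have hM0 : 0 < M := by positivity
  obtain ⟨y, hy⟩ := hTd.exists_dist_lt x (by positivity : (0 : ℝ) < ε / 3)
  rw [dist_eq_norm] at hy
  obtain ⟨δ, hδ0, hδM, hδy⟩ : ∃ δ, 0 < δ ∧ δ ≤ M ∧ δ * ‖y‖ ≤ ε / 3 := by
    refine ⟨min M (ε / 3 / (‖y‖ + 1)), lt_min hM0 (by positivity), min_le_left _ _, ?_⟩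
    have h1 : min M (ε / 3 / (‖y‖ + 1)) * ‖y‖ ≤ ε / 3 / (‖y‖ + 1) * ‖y‖ := by
      gcongr
      exact min_le_right _ _
    refine h1.trans ?_
    rw [div_mul_eq_mul_div, div_le_iff₀ (by positivity)]
    nlinarith [norm_nonneg y]
  let β : ℝ → ℝ := fun s => (max s (δ / 2))⁻¹
  let χ : ℝ → ℝ := fun s => max 0 (min 1 (2 * s / δ - 1))
  have hmaxpos : ∀ s, 0 < max s (δ / 2) := fun s => lt_max_of_lt_right (by positivity)
  have hβc : Continuous β := by
    refine Continuous.inv₀ (by fun_prop) (fun s => (hmaxpos s).ne')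
  have hχc : Continuous χ := by fun_prop
  obtain ⟨B, hB⟩ := hT.exists_phi (hβc.continuousOn (s := Icc 0 M))
  obtain ⟨P, hP⟩ := hT.exists_phi (hχc.continuousOn (s := Icc 0 M))
  have hId : IsPhi T M (fun s => s) T := by
    intro p C hC hp
    have h1 := hT.poly_norm (p - X) hC (by
      intro s hs
      rw [eval_sub, eval_X]
      exact hp s hs)
    rwa [map_sub, aeval_X] at h1
  have hidc : Continuous (fun s : ℝ => s) := continuous_id
  -- products
  obtain ⟨Q, hQ⟩ := hT.exists_phi ((hβc.mul hχc).continuousOn (s := Icc 0 M))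
  have e1 : Q = B * P := IsPhi.mul hβc.continuousOn hχc.continuousOn hB hP hQ
  have e2 : Q = P * B := IsPhi.mul hχc.continuousOn hβc.continuousOn hP hB (by
    have : (fun s => χ s * β s) = fun s => β s * χ s := by ext s; ring
    rw [this]; exact hQ)
  have hχβ : ∀ s, s * (β s * χ s) = χ s := by
    intro s
    by_cases hs : δ / 2 ≤ s
    · simp only [β]
      rw [max_eq_left hs, ← mul_assoc, mul_inv_cancel₀ (by linarith), one_mul]
    · push Not at hs
      have : χ s = 0 := by
        simp only [χ]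
        apply max_eq_left
        refine (min_le_right _ _).trans ?_
        have : 2 * s / δ ≤ 1 := by
          rw [div_le_one hδ0]; linarith
        linarith
      rw [this]; ring
  have e3 : P = T * Q := by
    refine IsPhi.mul hidc.continuousOn (hβc.mul hχc).continuousOn hId hQ ?_
    have : (fun s => s * (β * χ) s) = χ := by
      ext s; exact hχβ s
    rw [this]; exact hP
  obtain ⟨R, hR⟩ := hT.exists_phi ((hχc.mul hidc).continuousOn (s := Icc 0 M))
  have e4 : R = P * T := IsPhi.mul hχc.continuousOn hidc.continuousOn hP hId hR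
  have hχ01 : ∀ s, 0 ≤ χ s ∧ χ s ≤ 1 := fun s => ⟨le_max_left _ _, max_le zero_le_one (min_le_left _ _)⟩
  have hPT : ‖P * T - T‖ ≤ δ := by
    rw [← e4]
    refine IsPhi.norm_sub_le hidc.continuousOn hR hId hδ0.le ?_
    intro s hs
    change |χ s * s - s| ≤ δ
    by_cases hsδ : δ ≤ s
    · have : χ s = 1 := by
        simp only [χ]
        have h1 : 1 ≤ 2 * s / δ - 1 := by
          have : 2 ≤ 2 * s / δ := by
            rw [le_div_iff₀ hδ0]; linarith
          linarith
        rw [min_eq_left h1, max_eq_right zero_le_one]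
      rw [this]; simp [hδ0.le]
    · push Not at hsδ
      have h1 := hχ01 s
      have hs0 := hs.1
      rw [abs_le]
      constructor <;> nlinarith
  have hzero : IsPhi T M (fun _ => 0) 0 := by
    intro p C hC hp
    rw [sub_zero]
    exact hT.poly_norm p hC (fun s hs => by simpa using hp s hs)
  have hP1 : ‖P‖ ≤ 1 := by
    have := IsPhi.norm_sub_le (g' := fun _ => 0) continuous_const.continuousOn hP hzero zero_le_one (by
      intro s _
      rw [sub_zero, abs_of_nonneg (hχ01 s).1]
      exact (hχ01 s).2)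
    simpa using this
  have hβb : ∀ s ∈ Icc 0 M, b ≤ β s := by
    intro s hs
    simp only [β]
    rw [le_inv_comm₀ hb (hmaxpos s), ← one_div]
    exact max_le hs.2 (by rw [← hM]; linarith)
  refine ⟨P, B, ⟨⟨hb, hB.symm hT hβc.continuousOn, hB.lower hT hβc.continuousOn hβb⟩,
    hP.symm hT hχc.continuousOn, ?_, ?_⟩, ?_⟩
  · intro z
    have : (P * B) z = (B * P) z := by rw [← e1, ← e2]
    exact this
  · intro z
    have hz : P z = T (B (P z)) := by
      have : P z = (T * (B * P)) z := by rw [← e1, ← e3]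
      exact this
    obtain ⟨h, hA⟩ := hTA (B (P z))
    have hm : P z ∈ A.domain := by rw [hz]; exact h
    refine ⟨hm, ?_⟩
    have : (⟨P z, hm⟩ : A.domain) = ⟨T (B (P z)), h⟩ := Subtype.ext hz
    rw [this, hA]
  · have h1 : P x - x = P (x - T y) + (P * T - T) y + (T y - x) := by
      rw [map_sub]
      change _ = P x - P (T y) + (P (T y) - T y) + (T y - x)
      abel
    have h2 : ‖P (x - T y)‖ ≤ ‖x - T y‖ := by
      refine (P.le_opNorm _).trans ?_
      exact mul_le_of_le_one_left (norm_nonneg _) hP1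
    have h3 : ‖(P * T - T) y‖ ≤ δ * ‖y‖ := by
      refine ((P * T - T).le_opNorm _).trans ?_
      gcongr
    have h4 : ‖T y - x‖ < ε / 3 := by rw [norm_sub_rev]; exact hy
    rw [h1]
    calc ‖P (x - T y) + (P * T - T) y + (T y - x)‖ ≤ ‖P (x - T y)‖ + ‖(P * T - T) y‖ + ‖T y - x‖ := norm_add₃_le
      _ < ε := by linarith

end Pool.Agent.Q46.Dm
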