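import Mathlib

/-!
Tables for the isolated point of a Gaussian double Markovian correlation model on 12 vertices
(problem MP_e0e142_ag).  All 12 x 12 matrices used have entries `a * (√7)^ε`, `a` rational and
`ε` the parity of `i - j`; they are stored as integer tables.
-/

namespace Pool.Agent.Q46.Dmm

open Matrix

/-- parity of the difference of two indices -/
def od (i j : Fin 12) : Bool := (i.val + j.val) % 2 == 1

/-- the weight `7` appears in a product when both differences are odd -/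
def wt (i a j : Fin 12) : ℤ := if od i a && od a j then 7 else 1

/-- the product of tables -/
def st (A B : Fin 12 → Fin 12 → ℤ) : Fin 12 → Fin 12 → ℤ :=
  fun i j => ∑ a, A i a * B a j * wt i a j

/-- the real matrix of a table -/
noncomputable def toR (A : Fin 12 → Fin 12 → ℤ) : Matrix (Fin 12) (Fin 12) ℝ :=
  Matrix.of fun i j => (A i j : ℝ) * (if od i j then √7 else 1)

theorem toR_mul (A B : Fin 12 → Fin 12 → ℤ) : toR A * toR B = toR (st A B) := by
  ext i j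
  simp only [toR, Matrix.mul_apply, Matrix.of_apply, st]
  push_cast
  rw [Finset.sum_mul]
  refine Finset.sum_congr rfl fun a _ => ?_
  have h7 : √(7:ℝ) * √7 = 7 := Real.mul_self_sqrt (by norm_num)
  unfold wt od
  rcases Nat.mod_two_eq_zero_or_one i.val with hi | hi <;>
    rcases Nat.mod_two_eq_zero_or_one a.val with ha | ha <;>
    rcases Nat.mod_two_eq_zero_or_one j.val with hj | hj <;>
    simp [Nat.add_mod, hi, ha, hj] <;>
    first
      | ring1
      | (linear_combination ((A i a : ℝ) * (B a j : ℝ)) * h7)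

def gRow : Fin 12 → ℤ := ![4, -1, 1, 0, 0, 0, 0, 0, 0, 0, 1, -1]
def kRow : Fin 12 → ℤ := ![9, 2, 0, -1, -2, 0, 1, 0, -2, -1, 0, 2]
def mRow : Fin 12 → ℤ := ![-7, 2, 0, 0, 0, 0, 0, 0, 0, 0, 0, 2]
def Sg : Fin 12 → Fin 12 → ℤ := fun i j => gRow (j - i)
def Kg : Fin 12 → Fin 12 → ℤ := fun i j => kRow (j - i)
def Mg : Fin 12 → Fin 12 → ℤ := fun i j => mRow (j - i)

def RU : Fin 12 → Fin 12 → ℤ :=
  ![![21560, 12320, 0, -192, 12600, -25012, -77308, -42064, -78148, 1992, 0, 0],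
    ![12320, 21560, 0, 0, 1992, -78148, -42064, -77308, -25012, 12600, -192, 0],
    ![0, 0, 0, 0, 0, -11616, -5628, 35748, 36960, -6588, -92652, -26904],
    ![-192, 0, 0, 0, 0, 0, 10812, 89040, -11628, -182952, -79416, -92652],
    ![12600, 1992, 0, 0, 0, 0, 0, 1908, -116172, -99576, -182952, -6588],
    ![-25012, -78148, -11616, 0, 0, 0, 0, 0, -18504, -116172, -11628, 36960],
    ![-77308, -42064, -5628, 10812, 0, 0, 0, 0, 0, 1908, 89040, 35748],
    ![-42064, -77308, 35748, 89040, 1908, 0, 0, 0, 0, 0, 10812, -5628],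
    ![-78148, -25012, 36960, -11628, -116172, -18504, 0, 0, 0, 0, 0, -11616],
    ![1992, 12600, -6588, -182952, -99576, -116172, 1908, 0, 0, 0, 0, 0],
    ![0, -192, -92652, -79416, -182952, -11628, 89040, 10812, 0, 0, 0, 0],
    ![0, 0, -26904, -92652, -6588, 36960, 35748, -5628, -11616, 0, 0, 0]]

def WU : Fin 12 → Fin 12 → ℤ :=
  ![![0, 0, 147, 0, 0, -4545, 0, -2970, 0, 0, -7350, 0],
    ![0, 0, 0, -7350, 0, 0, -2970, 0, -4545, 0, 0, 147],
    ![147, 0, 0, 0, 4263, 0, 0, 5535, 0, 2595, 0, 0],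
    ![0, -7350, 0, 0, 0, -2107, 0, 0, -835, 0, -3810, 0],
    ![0, 0, 4263, 0, 0, 0, -8820, 0, 0, -6750, 0, 2595],
    ![-4545, 0, 0, -2107, 0, 0, 0, 3087, 0, 0, -835, 0],
    ![0, -2970, 0, 0, -8820, 0, 0, 0, 3087, 0, 0, 5535],
    ![-2970, 0, 5535, 0, 0, 3087, 0, 0, 0, -8820, 0, 0],
    ![0, -4545, 0, -835, 0, 0, 3087, 0, 0, 0, -2107, 0],
    ![0, 0, 2595, 0, -6750, 0, 0, -8820, 0, 0, 0, 4263],
    ![-7350, 0, 0, -3810, 0, -835, 0, 0, -2107, 0, 0, 0],
    ![0, 147, 0, 0, 2595, 0, 5535, 0, 0, 4263, 0, 0]]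

def RV : Fin 12 → Fin 12 → ℤ :=
  ![![-3080, 0, 12320, 7536, -2268, -8240, -24332, -4964, 22176, 2944, 0, 0],
    ![0, 0, 0, 0, -4560, -532, 13236, 28336, 13236, -532, -4560, 0],
    ![12320, 0, -3080, 0, 0, 2944, 22176, -4964, -24332, -8240, -2268, 7536],
    ![7536, 0, 0, 0, 0, 0, 4, -35812, -18600, -1848, 12564, 40824],
    ![-2268, -4560, 0, 0, 0, 0, 0, -5120, -7588, 20964, 70224, 12564],
    ![-8240, -532, 2944, 0, 0, 0, 0, 0, 4036, 56504, 20964, -1848],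
    ![-24332, 13236, 22176, 4, 0, 0, 0, 0, 0, 4036, -7588, -18600],
    ![-4964, 28336, -4964, -35812, -5120, 0, 0, 0, 0, 0, -5120, -35812],
    ![22176, 13236, -24332, -18600, -7588, 4036, 0, 0, 0, 0, 0, 4],
    ![2944, -532, -8240, -1848, 20964, 56504, 4036, 0, 0, 0, 0, 0],
    ![0, -4560, -2268, 12564, 70224, 20964, -7588, -5120, 0, 0, 0, 0],
    ![0, 0, 7536, 40824, 12564, -1848, -18600, -35812, 4, 0, 0, 0]]

def WV : Fin 12 → Fin 12 → ℤ :=
  ![![0, 0, -714, 0, 0, -450, 0, -1185, 0, 0, 567, 0],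
    ![0, 0, 0, 1323, 0, 0, 2175, 0, 2175, 0, 0, 1323],
    ![-714, 0, 0, 0, 567, 0, 0, -1185, 0, -450, 0, 0],
    ![0, 1323, 0, 0, 0, -2156, 0, 0, -1640, 0, 75, 0],
    ![0, 0, 567, 0, 0, 0, 2667, 0, 0, 1685, 0, 75],
    ![-450, 0, 0, -2156, 0, 0, 0, 833, 0, 0, 1685, 0],
    ![0, 2175, 0, 0, 2667, 0, 0, 0, -2674, 0, 0, -1640],
    ![-1185, 0, -1185, 0, 0, 833, 0, 0, 0, 833, 0, 0],
    ![0, 2175, 0, -1640, 0, 0, -2674, 0, 0, 0, 2667, 0],
    ![0, 0, -450, 0, 1685, 0, 0, 833, 0, 0, 0, -2156],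
    ![567, 0, 0, 75, 0, 1685, 0, 0, 2667, 0, 0, 0],
    ![0, 1323, 0, 0, 75, 0, -1640, 0, 0, -2156, 0, 0]]


theorem st_Sg_Kg : ∀ i j, st Sg Kg i j = if i = j then 8 else 0 := by decide +kernel
theorem st_Mg_Mg : ∀ i j, st Mg Mg i j = 28 * Sg i j - (if i = j then 7 else 0) := by
  decide +kernel
theorem st_RU : ∀ i j, st Sg (st RU Sg) i j = 16 * WU i j := by decide +kernel
theorem st_RV : ∀ i j, st Sg (st RV Sg) i j = 16 * WV i j := by decide +kernel

end Pool.Agent.Q46.Dmm
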