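import Pool.Agent.Q46.DmmA

namespace Pool.Agent.Q46.Dmm

open Matrix

/-- the graph `H`: circulant on 12 vertices with differences 1, 2 -/
def HG : SimpleGraph (Fin 12) where
  Adj i j := j - i = 1 ∨ j - i = 2 ∨ j - i = 10 ∨ j - i = 11
  symm := ⟨by
    intro i j h
    revert i j
    decide +kernel⟩
  loopless := ⟨by
    intro i h
    revert i
    decide +kernel⟩

/-- the graph `G`: circulant on 12 vertices with differences 1, 3, 4, 6 -/
def GG : SimpleGraph (Fin 12) where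
  Adj i j := j - i = 1 ∨ j - i = 3 ∨ j - i = 4 ∨ j - i = 6 ∨ j - i = 8 ∨ j - i = 9 ∨ j - i = 11
  symm := ⟨by
    intro i j h
    revert i j
    decide +kernel⟩
  loopless := ⟨by
    intro i h
    revert i
    decide +kernel⟩

instance : DecidableRel HG.Adj := fun i j => by unfold HG; infer_instance
instance : DecidableRel GG.Adj := fun i j => by unfold GG; infer_instance

theorem Sg_zero : ∀ i j, i ≠ j → ¬ HG.Adj i j → Sg i j = 0 := by decide +kernel
theorem Kg_zero : ∀ i j, i ≠ j → ¬ GG.Adj i j → Kg i j = 0 := by decide +kernel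
theorem Sg_diag : ∀ i, Sg i i = 4 := by decide +kernel
theorem Sg_symm : ∀ i j, Sg i j = Sg j i := by decide +kernel
theorem Mg_symm : ∀ i j, Mg i j = Mg j i := by decide +kernel
theorem od_symm : ∀ i j, od i j = od j i := by decide +kernel
theorem WU_zero : ∀ i j, WU i j ≠ 0 → j ≠ i ∧ ¬ GG.Adj j i := by decide +kernel
theorem WV_zero : ∀ i j, WV i j ≠ 0 → j ≠ i ∧ ¬ GG.Adj j i := by decide +kernel
theorem WU_le : ∀ i j, |WU i j| ≤ 8820 := by decide +kernel
theorem WV_le : ∀ i j, |WV i j| ≤ 8820 := by decide +kernel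
theorem Kg_le : ∀ i j, |Kg i j| ≤ 9 := by decide +kernel
theorem Kg_odd : ∀ i j, od i j = true → |Kg i j| ≤ 2 := by decide +kernel
theorem RU_H : ∀ i j, RU i j ≠ 0 → (j ≠ i ∧ ¬ HG.Adj j i) ∨ j = i ∨ (i = 0 ∧ j = 1) ∨
    (i = 1 ∧ j = 0) := by decide +kernel
theorem RV_H : ∀ i j, RV i j ≠ 0 → (j ≠ i ∧ ¬ HG.Adj j i) ∨ j = i ∨ (i = 0 ∧ j = 2) ∨
    (i = 2 ∧ j = 0) := by decide +kernel
theorem RU_val : RU 0 1 = 12320 ∧ RU 1 0 = 12320 := by decide +kernel
theorem RV_val : RV 0 2 = 12320 ∧ RV 2 0 = 12320 := by decide +kernel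

end Pool.Agent.Q46.Dmm
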