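import Pool.Agent.Q46.DmmB

namespace Pool.Agent.Q46.Dmm

open Matrix

/-- The Gaussian double Markovian model `M(G,H)`: positive definite matrices `S` with
`(S⁻¹)_{ij} = 0` for the non-edges of `G` and `S_{ij} = 0` for the non-edges of `H`. -/
def model {n : ℕ} (G H : SimpleGraph (Fin n)) : Set (Matrix (Fin n) (Fin n) ℝ) :=
  {S | S.PosDef ∧ (∀ i j, i ≠ j → ¬ G.Adj i j → S⁻¹ i j = 0) ∧
    (∀ i j, i ≠ j → ¬ H.Adj i j → S i j = 0)}

/-- The correlation model `M_1(G,H)`: the members of `M(G,H)` with unit diagonal. -/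
def corrModel {n : ℕ} (G H : SimpleGraph (Fin n)) : Set (Matrix (Fin n) (Fin n) ℝ) :=
  {S | S ∈ model G H ∧ ∀ i, S i i = 1}

noncomputable def S0 : Matrix (Fin 12) (Fin 12) ℝ := (1 / 4 : ℝ) • toR Sg
noncomputable def K0 : Matrix (Fin 12) (Fin 12) ℝ := (1 / 2 : ℝ) • toR Kg

theorem toR_congr {A B : Fin 12 → Fin 12 → ℤ} (h : ∀ i j, A i j = B i j) : toR A = toR B := by
  ext i j; simp [toR, h i j]

theorem toR_smul (c : ℤ) (A : Fin 12 → Fin 12 → ℤ) :
    toR (fun i j => c * A i j) = (c : ℝ) • toR A := by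
  ext i j
  simp only [toR, Matrix.smul_apply, Matrix.of_apply, smul_eq_mul]
  push_cast
  ring

theorem od_self (i : Fin 12) : od i i = false := by
  revert i; decide +kernel

theorem toR_diag (c : ℤ) :
    toR (fun i j => if i = j then c else 0) = (c : ℝ) • (1 : Matrix (Fin 12) (Fin 12) ℝ) := by
  ext i j
  by_cases h : i = j
  · subst h
    simp [toR, od_self]
  · simp [toR, h]

theorem S0_mul_K0 : S0 * K0 = 1 := by
  unfold S0 K0
  rw [Matrix.smul_mul, Matrix.mul_smul, toR_mul, toR_congr st_Sg_Kg, toR_diag, smul_smul, smul_smul]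
  norm_num

theorem K0_mul_S0 : K0 * S0 = 1 := mul_eq_one_comm.mp S0_mul_K0

theorem S0_inv : S0⁻¹ = K0 := Matrix.inv_eq_right_inv S0_mul_K0

theorem toR_symm {A : Fin 12 → Fin 12 → ℤ} (h : ∀ i j, A i j = A j i) : (toR A)ᵀ = toR A := by
  ext i j
  simp only [toR, Matrix.transpose_apply, Matrix.of_apply]
  rw [h j i, od_symm j i]

theorem S0_eq : S0 = (1 / 112 : ℝ) • ((toR Mg)ᵀ * toR Mg) + (1 / 16 : ℝ) • 1 := by
  rw [toR_symm Mg_symm, toR_mul, toR_congr st_Mg_Mg]
  ext i j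
  simp only [S0, toR, Matrix.add_apply, Matrix.smul_apply, Matrix.of_apply, smul_eq_mul,
    Matrix.one_apply]
  by_cases h : i = j
  · subst h
    simp [od_self]
    ring
  · simp [h]
    ring_nf

theorem S0_posDef : S0.PosDef := by
  rw [S0_eq]
  refine Matrix.PosDef.posSemidef_add ?_ ?_
  · refine Matrix.PosSemidef.smul ?_ (by norm_num)
    have := Matrix.posSemidef_conjTranspose_mul_self (toR Mg)
    rwa [Matrix.conjTranspose_eq_transpose_of_trivial] at this
  · exact Matrix.PosDef.smul Matrix.PosDef.one (by norm_num)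

theorem S0_mem : S0 ∈ corrModel GG HG := by
  refine ⟨⟨S0_posDef, ?_, ?_⟩, ?_⟩
  · intro i j hij hG
    rw [S0_inv]
    simp [K0, toR, Kg_zero i j hij hG]
  · intro i j hij hH
    simp [S0, toR, Sg_zero i j hij hH]
  · intro i
    simp [S0, toR, Sg_diag, od_self]

theorem one_mem : (1 : Matrix (Fin 12) (Fin 12) ℝ) ∈ corrModel GG HG := by
  refine ⟨⟨Matrix.PosDef.one, ?_, ?_⟩, ?_⟩
  · intro i j hij _
    rw [inv_one, Matrix.one_apply_ne hij]
  · intro i j hij _
    rw [Matrix.one_apply_ne hij]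
  · intro i
    simp

theorem S0_ne_one : S0 ≠ 1 := by
  intro h
  have h2 : S0 0 2 = 0 := by rw [h]; rw [Matrix.one_apply_ne (by decide)]
  have h3 : Sg 0 2 = 1 := by decide +kernel
  have h4 : od 0 2 = false := by decide +kernel
  simp [S0, toR, h3, h4] at h2

end Pool.Agent.Q46.Dmm
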