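import Pool.Agent.Q46.DmmC

namespace Pool.Agent.Q46.Dmm

open Matrix

theorem mul_bound {A B : Matrix (Fin 12) (Fin 12) ℝ} {a b : ℝ} (hA : ∀ i j, |A i j| ≤ a)
    (hB : ∀ i j, |B i j| ≤ b) : ∀ i j, |(A * B) i j| ≤ 12 * (a * b) := by
  intro i j
  rw [Matrix.mul_apply]
  have ha : 0 ≤ a := le_trans (abs_nonneg _) (hA i j)
  calc |∑ k, A i k * B k j| ≤ ∑ k, |A i k * B k j| := Finset.abs_sum_le_sum_abs _ _
    _ ≤ ∑ _k : Fin 12, a * b := by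
        refine Finset.sum_le_sum fun k _ => ?_
        rw [abs_mul]
        exact mul_le_mul (hA i k) (hB k j) (abs_nonneg _) ha
    _ = 12 * (a * b) := by simp

theorem sqrt7_le : √(7:ℝ) ≤ 3 := by
  rw [Real.sqrt_le_left (by norm_num)]; norm_num

theorem one_le_sqrt7 : 1 ≤ √(7:ℝ) := by
  rw [Real.one_le_sqrt]; norm_num

theorem toR_le {A : Fin 12 → Fin 12 → ℤ} {c : ℤ} (h : ∀ i j, |A i j| ≤ c) :
    ∀ i j, |toR A i j| ≤ 3 * (c : ℝ) := by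
  intro i j
  have h1 : |(A i j : ℝ)| ≤ c := by exact_mod_cast h i j
  have h0 : (0 : ℝ) ≤ c := le_trans (abs_nonneg _) h1
  simp only [toR, Matrix.of_apply, abs_mul]
  have h2 : |(if od i j then √(7:ℝ) else 1)| ≤ 3 := by
    split
    · rw [abs_of_nonneg (Real.sqrt_nonneg _)]; exact sqrt7_le
    · norm_num
  calc |(A i j : ℝ)| * |(if od i j then √(7:ℝ) else 1)| ≤ c * 3 :=
        mul_le_mul h1 h2 (abs_nonneg _) h0
    _ = 3 * c := by ring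

theorem K0_le : ∀ i j, |K0 i j| ≤ 14 := by
  intro i j
  have h := toR_le Kg_le i j
  simp only [K0, Matrix.smul_apply, smul_eq_mul, abs_mul]
  norm_num at h ⊢
  linarith

/-- the two identities behind the isolation -/
theorem key_identities {S : Matrix (Fin 12) (Fin 12) ℝ} (hS : S.PosDef) :
    S⁻¹ = K0 - K0 * (S - S0) * S⁻¹ ∧
    K0 * (S - S0) * K0 = (K0 - S⁻¹) + K0 * (S - S0) * (K0 * (S - S0)) * S⁻¹ := by
  have hdet : IsUnit S.det := (Matrix.isUnit_iff_isUnit_det S).mp hS.isUnit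
  have h1 : S * S⁻¹ = 1 := Matrix.mul_nonsing_inv S hdet
  have e1 : K0 * (S - S0) * S⁻¹ = K0 - S⁻¹ := by
    rw [Matrix.mul_sub, Matrix.sub_mul, Matrix.mul_assoc, h1, K0_mul_S0, Matrix.mul_one,
      Matrix.one_mul]
  refine ⟨by rw [e1]; abel, ?_⟩
  have e2 : K0 * (S - S0) * K0 = K0 * (S - S0) * (S⁻¹ + K0 * (S - S0) * S⁻¹) := by
    rw [e1]; congr 1; abel
  rw [e2, Matrix.mul_add, ← e1, Matrix.mul_assoc (K0 * (S - S0)) (K0 * (S - S0)) S⁻¹]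

theorem inv_bound {S : Matrix (Fin 12) (Fin 12) ℝ} (hS : S.PosDef) {δ : ℝ}
    (hX : ∀ i j, |(S - S0) i j| ≤ δ) (hδ : δ ≤ 1 / 10000) : ∀ i j, |S⁻¹ i j| ≤ 20 := by
  obtain ⟨p, hp⟩ := Finite.exists_max (fun p : Fin 12 × Fin 12 => |S⁻¹ p.1 p.2|)
  obtain ⟨κ, hκ⟩ : ∃ κ : ℝ, κ = |S⁻¹ p.1 p.2| := ⟨_, rfl⟩
  have hκ' : ∀ i j, |S⁻¹ i j| ≤ κ := fun i j => hκ ▸ hp (i, j)
  have h0 : 0 ≤ κ := hκ ▸ abs_nonneg _
  have hδ0 : 0 ≤ δ := le_trans (abs_nonneg _) (hX 0 0)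
  have hb := mul_bound (mul_bound K0_le hX) hκ' p.1 p.2
  have h1 : κ ≤ 14 + 12 * (12 * (14 * δ) * κ) := by
    have e := congrFun (congrFun (key_identities hS).1 p.1) p.2
    rw [Matrix.sub_apply] at e
    have h3 : |S⁻¹ p.1 p.2| ≤ 14 + 12 * (12 * (14 * δ) * κ) := by
      rw [e]
      exact (abs_sub _ _).trans (add_le_add (K0_le _ _) hb)
    exact hκ.le.trans h3
  have h2 : κ ≤ 20 := by
    nlinarith [mul_le_mul_of_nonneg_right hδ h0]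
  intro i j
  exact (hκ' i j).trans h2

/-- the remainder term -/
theorem rem_bound {S : Matrix (Fin 12) (Fin 12) ℝ} (hS : S.PosDef) {δ : ℝ}
    (hX : ∀ i j, |(S - S0) i j| ≤ δ) (hδ : δ ≤ 1 / 10000) :
    ∀ i j, |(K0 * (S - S0) * (K0 * (S - S0)) * S⁻¹) i j| ≤ 10000000 * δ ^ 2 * 10 := by
  intro i j
  have h := mul_bound (mul_bound (mul_bound K0_le hX) (mul_bound K0_le hX))
    (inv_bound hS hX hδ) i j
  refine h.trans ?_
  nlinarith [sq_nonneg δ]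

end Pool.Agent.Q46.Dmm
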