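import Pool.Agent.Q46.DmmD

namespace Pool.Agent.Q46.Dmm

open Matrix

theorem trace_mul_eq (A B : Matrix (Fin 12) (Fin 12) ℝ) :
    (A * B).trace = ∑ p : Fin 12 × Fin 12, A p.1 p.2 * B p.2 p.1 := by
  rw [Fintype.sum_prod_type]
  simp [Matrix.trace, Matrix.mul_apply]

theorem S0_R_S0 {R W : Fin 12 → Fin 12 → ℤ} (hst : ∀ i j, st Sg (st R Sg) i j = 16 * W i j) :
    S0 * (toR R * S0) = toR W := by
  unfold S0
  rw [Matrix.smul_mul, Matrix.mul_smul, Matrix.mul_smul, toR_mul, toR_mul, toR_congr hst,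
    toR_smul, smul_smul, smul_smul]
  norm_num

theorem K0_W_K0 {R W : Fin 12 → Fin 12 → ℤ} (hst : ∀ i j, st Sg (st R Sg) i j = 16 * W i j) :
    K0 * (toR W * K0) = toR R := by
  rw [← S0_R_S0 hst]
  have : S0 * (toR R * S0) * K0 = S0 * toR R := by
    rw [Matrix.mul_assoc, Matrix.mul_assoc, S0_mul_K0, Matrix.mul_one]
  rw [this, ← Matrix.mul_assoc, K0_mul_S0, Matrix.one_mul]

theorem symm_entry {S : Matrix (Fin 12) (Fin 12) ℝ} (hS : S.PosDef) (i j : Fin 12) :
    S i j = S j i := by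
  have h := hS.isHermitian.apply i j
  simpa using h.symm

theorem cert {R W : Fin 12 → Fin 12 → ℤ} (hst : ∀ i j, st Sg (st R Sg) i j = 16 * W i j)
    (hWz : ∀ i j, W i j ≠ 0 → j ≠ i ∧ ¬ GG.Adj j i) (hWle : ∀ i j, |W i j| ≤ 8820)
    {a b : Fin 12} (hab : a ≠ b)
    (hRH : ∀ i j, R i j ≠ 0 → (j ≠ i ∧ ¬ HG.Adj j i) ∨ j = i ∨ (i = a ∧ j = b) ∨ (i = b ∧ j = a))
    (hval : R a b = 12320 ∧ R b a = 12320)
    {S : Matrix (Fin 12) (Fin 12) ℝ} (hS : S ∈ corrModel GG HG) {δ : ℝ}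
    (hX : ∀ i j, |(S - S0) i j| ≤ δ) (hδ : δ ≤ 1 / 10000) :
    |(S - S0) a b| ≤ 155 * (10000000 * δ ^ 2 * 10) := by
  obtain ⟨⟨hpd, hG, hH⟩, hdiag⟩ := hS
  obtain ⟨⟨-, hG0, hH0⟩, hdiag0⟩ := S0_mem
  have hXdiag : ∀ i, (S - S0) i i = 0 := fun i => by
    rw [Matrix.sub_apply, hdiag, hdiag0, sub_self]
  have hXH : ∀ i j, i ≠ j → ¬ HG.Adj i j → (S - S0) i j = 0 := fun i j h1 h2 => by
    rw [Matrix.sub_apply, hH i j h1 h2, hH0 i j h1 h2, sub_self]
  have hXs : (S - S0) b a = (S - S0) a b := by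
    rw [Matrix.sub_apply, Matrix.sub_apply, symm_entry hpd b a, symm_entry S0_posDef b a]
  have hPQ : ∀ i j, i ≠ j → ¬ GG.Adj i j → (K0 * (S - S0) * K0) i j =
      (K0 * (S - S0) * (K0 * (S - S0)) * S⁻¹) i j := fun i j h1 h2 => by
    have e := congrFun (congrFun (key_identities hpd).2 i) j
    rw [Matrix.add_apply, Matrix.sub_apply, hG i j h1 h2, ← S0_inv, hG0 i j h1 h2] at e
    rw [S0_inv] at e
    rw [e]; ring
  -- the trace, first way
  have t1 : (toR W * (K0 * (S - S0) * K0)).trace = (toR R * (S - S0)).trace := by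
    rw [← K0_W_K0 hst]
    rw [← Matrix.mul_assoc (toR W) (K0 * (S - S0)) K0, Matrix.trace_mul_comm,
      ← Matrix.mul_assoc (toR W) K0 (S - S0), ← Matrix.mul_assoc K0 (toR W * K0) (S - S0)]
  have t2 : (toR R * (S - S0)).trace = toR R a b * (S - S0) b a + toR R b a * (S - S0) a b := by
    rw [trace_mul_eq]
    rw [Finset.sum_eq_add (a, b) (b, a)]
    · intro h
      exact hab (congrArg Prod.fst h)
    · rintro ⟨i, j⟩ _ ⟨h1, h2⟩
      by_cases hR : R i j = 0
      · simp [toR, hR]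
      · rcases hRH i j hR with ⟨h3, h4⟩ | h3 | ⟨h3, h4⟩ | ⟨h3, h4⟩
        · rw [hXH j i h3 h4, mul_zero]
        · subst h3; rw [hXdiag, mul_zero]
        · exact absurd (by rw [h3, h4]) h1
        · exact absurd (by rw [h3, h4]) h2
    · intro h; exact absurd (Finset.mem_univ _) h
    · intro h; exact absurd (Finset.mem_univ _) h
  obtain ⟨c, hc1, hc⟩ : ∃ c : ℝ, 1 ≤ c ∧ toR R a b = 12320 * c ∧ toR R b a = 12320 * c := by
    refine ⟨if od a b then √7 else 1, ?_, ?_, ?_⟩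
    · split
      · exact one_le_sqrt7
      · exact le_refl _
    · simp [toR, hval.1]
    · simp [toR, hval.2, od_symm b a]
  have t3 : (toR R * (S - S0)).trace = 24640 * (c * (S - S0) a b) := by
    rw [t2, hXs, hc.1, hc.2]; ring
  -- the trace, second way
  have t4 : |(toR W * (K0 * (S - S0) * K0)).trace| ≤
      144 * (3 * 8820 * (10000000 * δ ^ 2 * 10)) := by
    rw [trace_mul_eq]
    calc |∑ p : Fin 12 × Fin 12, toR W p.1 p.2 * (K0 * (S - S0) * K0) p.2 p.1|
        ≤ ∑ p : Fin 12 × Fin 12, |toR W p.1 p.2 * (K0 * (S - S0) * K0) p.2 p.1| :=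
          Finset.abs_sum_le_sum_abs _ _
      _ ≤ ∑ _p : Fin 12 × Fin 12, (3 * 8820 * (10000000 * δ ^ 2 * 10) : ℝ) := by
          refine Finset.sum_le_sum ?_
          rintro ⟨i, j⟩ _
          by_cases hW : W i j = 0
          · have : toR W i j = 0 := by simp [toR, hW]
            simp only [this, zero_mul, abs_zero]
            positivity
          · obtain ⟨h1, h2⟩ := hWz i j hW
            simp only
            rw [hPQ j i h1 h2, abs_mul]
            have h3 := toR_le hWle i j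
            have h4 := rem_bound hpd hX hδ j i
            push_cast at h3
            exact mul_le_mul h3 h4 (abs_nonneg _) (by norm_num)
      _ = 144 * (3 * 8820 * (10000000 * δ ^ 2 * 10)) := by
          simp
  rw [t1, t3, abs_mul, abs_mul, abs_of_nonneg (by linarith : (0:ℝ) ≤ c)] at t4
  have h5 : |(S - S0) a b| ≤ c * |(S - S0) a b| := le_mul_of_one_le_left (abs_nonneg _) hc1
  have h6 : |(24640 : ℝ)| = 24640 := by norm_num
  rw [h6] at t4
  nlinarith [sq_nonneg δ]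

end Pool.Agent.Q46.Dmm
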