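import Pool.Agent.Q46.DmmE

namespace Pool.Agent.Q46.Dmm

open Matrix

theorem od_shift : ∀ t i j : Fin 12, od (i + t) (j + t) = od i j := by decide +kernel

theorem S0_shift (t i j : Fin 12) : S0 (i + t) (j + t) = S0 i j := by
  simp only [S0, toR, Matrix.smul_apply, Matrix.of_apply, od_shift, Sg, add_sub_add_right_eq_sub]

theorem HG_shift (t i j : Fin 12) : HG.Adj (i + t) (j + t) ↔ HG.Adj i j := by
  simp only [HG, add_sub_add_right_eq_sub]

theorem GG_shift (t i j : Fin 12) : GG.Adj (i + t) (j + t) ↔ GG.Adj i j := by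
  simp only [GG, add_sub_add_right_eq_sub]

theorem shift_mem {S : Matrix (Fin 12) (Fin 12) ℝ} (hS : S ∈ corrModel GG HG) (t : Fin 12) :
    S.submatrix (Equiv.addRight t) (Equiv.addRight t) ∈ corrModel GG HG := by
  obtain ⟨⟨hpd, hG, hH⟩, hdiag⟩ := hS
  refine ⟨⟨hpd.submatrix (Equiv.addRight t).injective, ?_, ?_⟩, ?_⟩
  · intro i j hij hg
    rw [Matrix.inv_submatrix_equiv]
    simp only [Matrix.submatrix_apply, Equiv.coe_addRight]
    exact hG _ _ (fun h => hij (add_right_cancel h)) (fun h => hg ((GG_shift t i j).mp h))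
  · intro i j hij hg
    simp only [Matrix.submatrix_apply, Equiv.coe_addRight]
    exact hH _ _ (fun h => hij (add_right_cancel h)) (fun h => hg ((HG_shift t i j).mp h))
  · intro i
    simp only [Matrix.submatrix_apply]
    exact hdiag _

theorem shift_diff {S : Matrix (Fin 12) (Fin 12) ℝ} (t i j : Fin 12) :
    (S.submatrix (Equiv.addRight t) (Equiv.addRight t) - S0) i j = (S - S0) (i + t) (j + t) := by
  simp only [Matrix.sub_apply, Matrix.submatrix_apply, Equiv.coe_addRight, S0_shift]

theorem isolated {S : Matrix (Fin 12) (Fin 12) ℝ} (hS : S ∈ corrModel GG HG)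
    (hX : ∀ i j, |(S - S0) i j| < 1 / 100000000000) : S = S0 := by
  obtain ⟨⟨p, q⟩, hp⟩ := Finite.exists_max (fun p : Fin 12 × Fin 12 => |(S - S0) p.1 p.2|)
  simp only [Prod.forall] at hp
  obtain ⟨δ, hδ⟩ : ∃ δ : ℝ, δ = |(S - S0) p q| := ⟨_, rfl⟩
  have hδ' : ∀ i j, |(S - S0) i j| ≤ δ := fun i j => hδ ▸ hp i j
  have hδ0 : 0 ≤ δ := hδ ▸ abs_nonneg _
  have hδs : δ < 1 / 100000000000 := hδ ▸ hX p q
  have hδs' : δ ≤ 1 / 10000 := by linarith
  suffices hz : δ ≤ 155 * (10000000 * δ ^ 2 * 10) by
    have h0 : δ = 0 := by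
      by_contra hne
      have hpos : 0 < δ := lt_of_le_of_ne hδ0 (Ne.symm hne)
      nlinarith
    have h1 : S - S0 = 0 := by
      ext i j
      have := hδ' i j
      rw [h0] at this
      simpa using abs_nonpos_iff.mp this
    exact sub_eq_zero.mp h1
  have hS' := hS
  obtain ⟨⟨hpd, hG, hH⟩, hdiag⟩ := hS
  obtain ⟨⟨-, hG0, hH0⟩, hdiag0⟩ := S0_mem
  have hsh : ∀ t : Fin 12, ∀ i j, |(S.submatrix (Equiv.addRight t) (Equiv.addRight t) - S0) i j| ≤ δ :=
    fun t i j => by rw [shift_diff]; exact hδ' _ _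
  have hXs : ∀ i j, (S - S0) i j = (S - S0) j i := fun i j => by
    rw [Matrix.sub_apply, Matrix.sub_apply, symm_entry hpd i j, symm_entry S0_posDef i j]
  have h1 : ∀ t : Fin 12, |(S - S0) t (t + 1)| ≤ 155 * (10000000 * δ ^ 2 * 10) := fun t => by
    have h := cert st_RU WU_zero WU_le (by decide) RU_H RU_val (shift_mem hS' t) (hsh t) hδs'
    rw [shift_diff] at h
    rwa [zero_add, add_comm 1 t] at h
  have h2 : ∀ t : Fin 12, |(S - S0) t (t + 2)| ≤ 155 * (10000000 * δ ^ 2 * 10) := fun t => by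
    have h := cert st_RV WV_zero WV_le (by decide) RV_H RV_val (shift_mem hS' t) (hsh t) hδs'
    rw [shift_diff] at h
    rwa [zero_add, add_comm 2 t] at h
  have hpos : 0 ≤ 155 * (10000000 * δ ^ 2 * 10) := by positivity
  generalize 155 * (10000000 * δ ^ 2 * 10) = B at h1 h2 hpos ⊢
  rw [hδ]
  by_cases hpq : p = q
  · subst hpq
    rw [Matrix.sub_apply, hdiag, hdiag0, sub_self, abs_zero]
    exact hpos
  · by_cases hadj : HG.Adj p q
    · rcases hadj with h | h | h | h
      · have : q = p + 1 := by rw [← h]; abel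
        rw [this]
        exact h1 p
      · have : q = p + 2 := by rw [← h]; abel
        rw [this]
        exact h2 p
      · have : p = q + 2 := by
          have h3 : q = p + 10 := by rw [← h]; abel
          rw [h3, add_assoc]
          have : (10 + 2 : Fin 12) = 0 := by decide
          rw [this, add_zero]
        rw [hXs, this]
        exact h2 q
      · have : p = q + 1 := by
          have h3 : q = p + 11 := by rw [← h]; abel
          rw [h3, add_assoc]
          have : (11 + 1 : Fin 12) = 0 := by decide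
          rw [this, add_zero]
        rw [hXs, this]
        exact h1 q
    · rw [Matrix.sub_apply, hH p q hpq hadj, hH0 p q hpq hadj, sub_self, abs_zero]
      exact hpos

end Pool.Agent.Q46.Dmm
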