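import Pool.Agent.Q46.DmmF

namespace Pool.Agent.Q46.Dmm

open Matrix

theorem corr_not_connected : ¬ IsConnected (corrModel GG HG) := by
  intro h
  have hpre := h.2
  have hu : IsOpen {S : Matrix (Fin 12) (Fin 12) ℝ | ∀ i j, |(S - S0) i j| < 1 / 100000000000} := by
    have : {S : Matrix (Fin 12) (Fin 12) ℝ | ∀ i j, |(S - S0) i j| < 1 / 100000000000} =
        ⋂ i, ⋂ j, {S : Matrix (Fin 12) (Fin 12) ℝ | |(S - S0) i j| < 1 / 100000000000} := by
      ext S; simp
    rw [this]
    refine isOpen_iInter_of_finite fun i => isOpen_iInter_of_finite fun j => ?_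
    refine isOpen_lt ?_ continuous_const
    have h1 : Continuous fun S : Matrix (Fin 12) (Fin 12) ℝ => S i j :=
      (continuous_apply j).comp (continuous_apply i)
    have h2 : Continuous fun S : Matrix (Fin 12) (Fin 12) ℝ => (S - S0) i j := by
      simp only [Matrix.sub_apply]
      exact h1.sub continuous_const
    exact h2.abs
  have hv : IsOpen ({S0}ᶜ : Set (Matrix (Fin 12) (Fin 12) ℝ)) := isOpen_compl_singleton
  obtain ⟨S, hS, hSu, hSv⟩ := hpre _ _ hu hv
    (fun S _ => by
      by_cases hS : S = S0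
      · left; rw [hS]; intro i j; simp
      · right; exact hS)
    ⟨S0, S0_mem, fun i j => by simp⟩
    ⟨1, one_mem, fun h => S0_ne_one h.symm⟩
  exact hSv (isolated hS hSu)

/-- the normalisation of a covariance matrix to a correlation matrix -/
noncomputable def normalise {n : ℕ} (S : Matrix (Fin n) (Fin n) ℝ) : Matrix (Fin n) (Fin n) ℝ :=
  Matrix.of fun i j => (√(S i i))⁻¹ * S i j * (√(S j j))⁻¹

theorem normalise_eq {n : ℕ} (S : Matrix (Fin n) (Fin n) ℝ) :
    normalise S = Matrix.diagonal (fun i => (√(S i i))⁻¹) * S *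
      Matrix.diagonal (fun i => (√(S i i))⁻¹) := by
  ext i j
  simp [normalise, Matrix.mul_diagonal, Matrix.diagonal_mul]

theorem normalise_mem {n : ℕ} {G H : SimpleGraph (Fin n)} {S : Matrix (Fin n) (Fin n) ℝ}
    (hS : S ∈ model G H) : normalise S ∈ corrModel G H := by
  obtain ⟨hpd, hG, hH⟩ := hS
  have hd : ∀ i, 0 < S i i := fun i => hpd.diag_pos
  have hs : ∀ i, √(S i i) ≠ 0 := fun i => (Real.sqrt_pos.mpr (hd i)).ne'
  have hdet : IsUnit S.det := (Matrix.isUnit_iff_isUnit_det S).mp hpd.isUnit
  have hDD : Matrix.diagonal (fun i => (√(S i i))⁻¹) * Matrix.diagonal (fun i => √(S i i)) =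
      (1 : Matrix (Fin n) (Fin n) ℝ) := by
    rw [Matrix.diagonal_mul_diagonal]
    rw [← Matrix.diagonal_one]
    congr 1
    funext i
    exact inv_mul_cancel₀ (hs i)
  have hinv : (normalise S)⁻¹ = Matrix.diagonal (fun i => √(S i i)) * S⁻¹ *
      Matrix.diagonal (fun i => √(S i i)) := by
    apply Matrix.inv_eq_right_inv
    rw [normalise_eq]
    have e1 : S * (Matrix.diagonal (fun i => (√(S i i))⁻¹) *
        (Matrix.diagonal (fun i => √(S i i)) * (S⁻¹ * Matrix.diagonal (fun i => √(S i i))))) =
        Matrix.diagonal (fun i => √(S i i)) := by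
      rw [← Matrix.mul_assoc (Matrix.diagonal (fun i => (√(S i i))⁻¹)), hDD, Matrix.one_mul,
        ← Matrix.mul_assoc, Matrix.mul_nonsing_inv S hdet, Matrix.one_mul]
    simp only [Matrix.mul_assoc]
    rw [e1, hDD]
  refine ⟨⟨?_, ?_, ?_⟩, ?_⟩
  · rw [normalise_eq]
    have h := hpd.conjTranspose_mul_mul_same (B := Matrix.diagonal (fun i => (√(S i i))⁻¹)) ?_
    · simpa [Matrix.diagonal_conjTranspose] using h
    · intro x y hxy
      funext i
      have := congrFun hxy i
      simp only [Matrix.mulVec_diagonal] at this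
      exact mul_left_cancel₀ (inv_ne_zero (hs i)) this
  · intro i j hij hg
    rw [hinv]
    simp [Matrix.mul_diagonal, Matrix.diagonal_mul, hG i j hij hg]
  · intro i j hij hg
    simp [normalise, hH i j hij hg]
  · intro i
    simp only [normalise, Matrix.of_apply]
    have := Real.mul_self_sqrt (hd i).le
    field_simp [hs i]
    nlinarith [this]

theorem normalise_of_diag {n : ℕ} {S : Matrix (Fin n) (Fin n) ℝ} (h : ∀ i, S i i = 1) :
    normalise S = S := by
  ext i j
  simp [normalise, h]

theorem model_not_connected {n : ℕ} {G H : SimpleGraph (Fin n)}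
    (h : ¬ IsConnected (corrModel G H)) : ¬ IsConnected (model G H) := by
  intro hc
  apply h
  have himg : normalise '' (model G H) = corrModel G H := by
    ext S
    constructor
    · rintro ⟨T, hT, rfl⟩
      exact normalise_mem hT
    · intro hS
      exact ⟨S, hS.1, normalise_of_diag hS.2⟩
  rw [← himg]
  refine hc.image _ ?_
  intro S hS
  apply ContinuousAt.continuousWithinAt
  have hd : ∀ i, 0 < S i i := fun i => hS.1.diag_pos
  have hs : ∀ i, √(S i i) ≠ 0 := fun i => (Real.sqrt_pos.mpr (hd i)).ne'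
  have hentry : ∀ i j, Continuous fun T : Matrix (Fin n) (Fin n) ℝ => T i j := fun i j =>
    (continuous_apply j).comp (continuous_apply i)
  unfold normalise
  refine continuousAt_pi.mpr fun i => continuousAt_pi.mpr fun j => ?_
  have h1 : ∀ k, ContinuousAt (fun T : Matrix (Fin n) (Fin n) ℝ => (√(T k k))⁻¹) S := fun k =>
    ContinuousAt.inv₀ ((Real.continuous_sqrt.comp (hentry k k)).continuousAt) (hs k)
  exact ((h1 i).mul (hentry i j).continuousAt).mul (h1 j)

end Pool.Agent.Q46.Dmm
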