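import Pool.Agent.Y237.FL.Gap

/-!
Faulty search on the line with certain detection at turning points (MP_d94893_lc).
-/

set_option autoImplicit false

open MeasureTheory
open scoped ENNReal

namespace Pool.Agent.Q46.Fl

open Pool.Agent.Helper569.Faulty

/-- The first time at which the searcher reverses direction exactly at `h`. -/
noncomputable def turnHit (y : ℕ → ℝ) (h : ℝ) : ℝ≥0∞ :=
  ⨅ (n : ℕ) (_ : y (n + 1) = h), ENNReal.ofReal (turnTime y (n + 1))

/-- First detection time if detection is certain at a reversal point. -/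
noncomputable def detectionTimeC (y : ℕ → ℝ) (h : ℝ) (ω : ℕ → Bool) : ℝ≥0∞ :=
  min (detectionTime y h ω) (turnHit y h)

noncomputable def expectedTimeC (p : ℝ) (y : ℕ → ℝ) (h : ℝ) : ℝ≥0∞ :=
  ∫⁻ ω, detectionTimeC y h ω ∂(Measure.infinitePi fun _ : ℕ => coin p)

noncomputable def competitiveRatioC (p : ℝ) (y : ℕ → ℝ) : ℝ≥0∞ :=
  ⨆ (h : ℝ) (_ : 1 ≤ |h|), ENNReal.ofReal p * expectedTimeC p y h / ENNReal.ofReal |h|

/-- The `(n+1)`-st excursion goes along the positive ray for even `n` and along the negative ray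
for odd `n`, up to distance `x n`; on each ray the turning distances increase strictly, and they
tend to infinity. -/
def IsCyclicMonotoneC (y : ℕ → ℝ) : Prop :=
  y 0 = 0 ∧ ∃ x : ℕ → ℝ, (∀ n, 0 < x n) ∧ (∀ n, x n < x (n + 2)) ∧
    Filter.Tendsto x Filter.atTop Filter.atTop ∧ ∀ n, y (n + 1) = (-1) ^ n * x n

variable {p : ℝ}

theorem expectedTimeC_le (y : ℕ → ℝ) (h : ℝ) : expectedTimeC p y h ≤ expectedTime p y h :=
  lintegral_mono fun _ => min_le_left _ _

theorem ratioC_le (y : ℕ → ℝ) : competitiveRatioC p y ≤ competitiveRatio p y := by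
  unfold competitiveRatioC competitiveRatio
  refine iSup₂_mono fun h _ => ?_
  exact ENNReal.div_le_div_right (mul_le_mul_right (expectedTimeC_le y h) _) _

theorem expectedTimeC_eq {y : ℕ → ℝ} {h : ℝ} (hno : ∀ n, y (n + 1) ≠ h) :
    expectedTimeC p y h = expectedTime p y h := by
  have h1 : turnHit y h = ⊤ := by
    unfold turnHit
    simp only [iInf_eq_top]
    intro n hn
    exact absurd hn (hno n)
  unfold expectedTimeC expectedTime detectionTimeC
  simp [h1]

theorem ratioC_le_iff {c : ℝ} (hp0 : 0 < p) (hc : 0 ≤ c) (y : ℕ → ℝ) :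
    competitiveRatioC p y ≤ ENNReal.ofReal (p * c) ↔
      ∀ h : ℝ, 1 ≤ |h| → expectedTimeC p y h ≤ ENNReal.ofReal (c * |h|) := by
  unfold competitiveRatioC
  rw [iSup₂_le_iff]
  apply forall_congr'
  intro h
  apply forall_congr'
  intro hh
  have hpos : 0 < |h| := by linarith
  have h1 : ENNReal.ofReal |h| ≠ 0 := by simpa using hpos
  have h3 : ENNReal.ofReal p ≠ 0 := by simpa using hp0
  rw [ENNReal.div_le_iff h1 ENNReal.ofReal_ne_top, ENNReal.ofReal_mul hp0.le,
    ENNReal.ofReal_mul hc, mul_assoc]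
  exact ENNReal.mul_le_mul_iff_right h3 ENNReal.ofReal_ne_top

section

variable {x : ℕ → ℝ} {y : ℕ → ℝ}

/-- moving the item slightly outwards from the turning point `x i` -/
theorem expectedTime_turn (hp0 : 0 < p) (hp1 : p < 1) (hx0 : ∀ n, 0 < x n)
    (hx2 : ∀ n, x n < x (n + 2)) (hy0 : y 0 = 0) (hy : ∀ n, y (n + 1) = (-1) ^ n * x n) {i : ℕ}
    {ε : ℝ} (hε : 0 < ε) (hi : x i + ε < x (i + 2)) :
    expectedTime p y ((-1) ^ i * x i) ≤
      expectedTime p y ((-1) ^ i * (x i + ε)) + ENNReal.ofReal ε := by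
  have hyσ : ∀ n, y (n + 1) = 1 * (-1) ^ n * x n := fun n => by rw [hy n]; ring
  have hxi := hx0 i
  have h1 : ∀ k, passTime y ((-1) ^ i * x i) (k + 1) ≤
      passTime y ((-1) ^ i * (x i + ε)) (k + 1) + ENNReal.ofReal ε := by
    intro k
    have a1 : passTime y ((-1) ^ i * x i) (k + 1) ≤ ENNReal.ofReal (tau x i (x i) k) :=
      passTime_le (tau_strictMono hx0 hx2 hxi (hx2 i)) (isAt_cyc_passes hx0 hx2 hy0 hy hxi (hx2 i)) k
    have a2 : ENNReal.ofReal (tau x i (x i + ε) k) ≤ passTime y ((-1) ^ i * (x i + ε)) (k + 1) := by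
      refine le_passTime (tau_strictMono hx0 hx2 (by linarith) hi) ?_ k
      intro s hs
      refine isAt_tau hx0 hx2 (Or.inl rfl) hy0 hyσ (g := x i + ε) (by linarith) ?_
      rwa [one_mul]
    have a3 : tau x i (x i) k ≤ tau x i (x i + ε) k + ε := by
      unfold tau
      rcases neg_one_pow_eq_or ℝ k with h | h <;> rw [h] <;> linarith
    calc passTime y ((-1) ^ i * x i) (k + 1) ≤ ENNReal.ofReal (tau x i (x i) k) := a1
      _ ≤ ENNReal.ofReal (tau x i (x i + ε) k + ε) := ENNReal.ofReal_le_ofReal a3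
      _ ≤ ENNReal.ofReal (tau x i (x i + ε) k) + ENNReal.ofReal ε := ENNReal.ofReal_add_le
      _ ≤ _ := add_le_add_left a2 _
  rw [expectedTime_eq hp0 hp1.le, expectedTime_eq hp0 hp1.le]
  have h2 : ∑' k : ℕ, ENNReal.ofReal (p * (1 - p) ^ k) = 1 := by
    have hq0 : 0 < 1 - p := by linarith
    have := hasSum_pq hp0 hp1
    rw [← ENNReal.ofReal_tsum_of_nonneg (fun k => by positivity) this.summable, this.tsum_eq,
      ENNReal.ofReal_one]
  calc ∑' k : ℕ, ENNReal.ofReal (p * (1 - p) ^ k) * passTime y ((-1) ^ i * x i) (k + 1)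
      ≤ ∑' k : ℕ, (ENNReal.ofReal (p * (1 - p) ^ k) *
          passTime y ((-1) ^ i * (x i + ε)) (k + 1) +
          ENNReal.ofReal (p * (1 - p) ^ k) * ENNReal.ofReal ε) := by
        refine ENNReal.tsum_le_tsum fun k => ?_
        rw [← mul_add]
        exact mul_le_mul_right (h1 k) _
    _ = _ := by
        rw [ENNReal.tsum_add, ENNReal.tsum_mul_right, h2, one_mul]

theorem ratio_le_ratioC (hp0 : 0 < p) (hp1 : p < 1) (hx0 : ∀ n, 0 < x n)
    (hx2 : ∀ n, x n < x (n + 2)) (hy0 : y 0 = 0) (hy : ∀ n, y (n + 1) = (-1) ^ n * x n) :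
    competitiveRatio p y ≤ competitiveRatioC p y := by
  by_cases htop : competitiveRatioC p y = ⊤
  · rw [htop]; exact le_top
  obtain ⟨c, hc0, hc⟩ : ∃ c : ℝ, 0 ≤ c ∧ competitiveRatioC p y = ENNReal.ofReal (p * c) := by
    refine ⟨(competitiveRatioC p y).toReal / p, by positivity, ?_⟩
    rw [mul_div_cancel₀ _ hp0.ne', ENNReal.ofReal_toReal htop]
  rw [hc, ratio_le_iff hp0 hc0]
  have hC := (ratioC_le_iff hp0 hc0 y).mp hc.le
  intro h hh
  by_cases hturn : ∃ n, y (n + 1) = h
  · obtain ⟨i, hi⟩ := hturn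
    have hxi := hx0 i
    have hhx : |h| = x i := by
      rw [← hi, hy i, abs_mul, abs_pow, abs_neg, abs_one, one_pow, one_mul, abs_of_pos hxi]
    have hlt := hx2 i
    rw [hhx]
    rw [hhx] at hh
    have hh' : h = (-1) ^ i * x i := by rw [← hi, hy i]
    rw [hh']
    refine ENNReal.le_of_forall_pos_le_add fun η hη _ => ?_
    have hη' : (0 : ℝ) < η := hη
    set ε : ℝ := min ((x (i + 2) - x i) / 2) (η / (c + 1)) with hεdef
    have hε : 0 < ε := by
      refine lt_min (by linarith) (by positivity)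
    have hε1 : x i + ε < x (i + 2) := by
      have := min_le_left ((x (i + 2) - x i) / 2) ((η : ℝ) / (c + 1))
      rw [← hεdef] at this
      linarith
    have hε2 : (c + 1) * ε ≤ η := by
      have := min_le_right ((x (i + 2) - x i) / 2) ((η : ℝ) / (c + 1))
      rw [← hεdef] at this
      calc (c + 1) * ε ≤ (c + 1) * (η / (c + 1)) := mul_le_mul_of_nonneg_left this (by linarith)
        _ = η := by field_simp
    have hno : ∀ n, y (n + 1) ≠ (-1) ^ i * (x i + ε) := by
      intro n hn
      rw [hy n] at hn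
      have hab : x n = x i + ε := by
        have := congrArg abs hn
        rwa [abs_mul, abs_pow, abs_neg, abs_one, one_pow, one_mul, abs_of_pos (hx0 n), abs_mul,
          abs_pow, abs_neg, abs_one, one_pow, one_mul, abs_of_pos (by linarith : 0 < x i + ε)]
          at this
      rw [hab] at hn
      have hs : (-1 : ℝ) ^ n = (-1) ^ i := mul_right_cancel₀ (by linarith : x i + ε ≠ 0) hn
      have hpar : n % 2 = i % 2 := by
        rcases Nat.even_or_odd n with h1 | h1 <;> rcases Nat.even_or_odd i with h2 | h2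
        · rw [Nat.even_iff.mp h1, Nat.even_iff.mp h2]
        · rw [h1.neg_one_pow, h2.neg_one_pow] at hs; norm_num at hs
        · rw [h1.neg_one_pow, h2.neg_one_pow] at hs; norm_num at hs
        · rw [Nat.odd_iff.mp h1, Nat.odd_iff.mp h2]
      rcases le_or_gt n i with h3 | h3
      · have := x_mono_parity hx2 h3 hpar.symm
        linarith
      · have h4 : i + 2 ≤ n := by omega
        have := x_mono_parity hx2 h4 (by omega)
        linarith
    have h5 := hC ((-1) ^ i * (x i + ε)) (by
      rw [abs_mul, abs_pow, abs_neg, abs_one, one_pow, one_mul, abs_of_pos (by linarith)]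
      linarith)
    rw [expectedTimeC_eq hno, abs_mul, abs_pow, abs_neg, abs_one, one_pow, one_mul,
      abs_of_pos (by linarith : 0 < x i + ε)] at h5
    calc expectedTime p y ((-1) ^ i * x i)
        ≤ expectedTime p y ((-1) ^ i * (x i + ε)) + ENNReal.ofReal ε :=
          expectedTime_turn hp0 hp1 hx0 hx2 hy0 hy hε hε1
      _ ≤ ENNReal.ofReal (c * (x i + ε)) + ENNReal.ofReal ε := add_le_add_left h5 _
      _ = ENNReal.ofReal (c * x i + (c + 1) * ε) := by
          rw [← ENNReal.ofReal_add (by positivity) hε.le]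
          congr 1
          ring
      _ ≤ ENNReal.ofReal (c * x i + η) := ENNReal.ofReal_le_ofReal (by linarith)
      _ ≤ ENNReal.ofReal (c * x i) + ENNReal.ofReal η := ENNReal.ofReal_add_le
      _ = _ := by rw [ENNReal.ofReal_coe_nnreal]
  · push Not at hturn
    rw [← expectedTimeC_eq hturn]
    exact hC h hh

end

end Pool.Agent.Q46.Fl
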