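import Pool.Agent.Q46.FlA

set_option autoImplicit false

open MeasureTheory
open scoped ENNReal

namespace Pool.Agent.Q46.Fl

open Pool.Agent.Helper569.Faulty

variable {p : ℝ}

/-- The geometric trajectory (same computation as in `Y237.FL.finite_ratio_explicit`). -/
theorem gy_ratio (hp0 : 0 < p) (hp1 : p < 1) :
    competitiveRatio p (gy (2 / (2 - p))) ≤ ENNReal.ofReal (8 + p) := by
  have hq0 : 0 < 1 - p := by linarith
  set r : ℝ := 2 / (2 - p) with hr
  have hr1 : 1 < r := by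
    rw [hr, lt_div_iff₀ (by linarith)]
    linarith
  have hqr : (1 - p) * r < 1 := by
    rw [hr, ← mul_div_assoc, div_lt_one (by linarith)]
    linarith
  have hqr0 : 0 < (1 - p) * r := by positivity
  have hx0 := gx_pos hr1
  have hx2 := gx_lt hr1
  have hy : ∀ n, gy r (n + 1) = (-1) ^ n * gx r n := fun n => rfl
  have hgeo := (hasSum_geometric_of_lt_one hqr0.le hqr).mul_left (p * (2 / (r - 1) * r ^ 2))
  have hsum := hgeo.add (hasSum_pq hp0 hp1)
  set c := p * (2 / (r - 1) * r ^ 2) * (1 - (1 - p) * r)⁻¹ + 1 with hc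
  have hr0 : 0 < r - 1 := by linarith
  have hc0 : 0 ≤ c := by
    have : 0 < 1 - (1 - p) * r := by linarith
    positivity
  have hcv : 8 + p = p * c := by
    have h2p : (2 - p) ≠ 0 := by linarith
    have e1 : r - 1 = p / (2 - p) := by rw [hr]; field_simp; ring
    have e2 : 1 - (1 - p) * r = p / (2 - p) := by rw [hr]; field_simp; ring
    rw [hc, e1, e2, hr]
    field_simp
    ring
  rw [hcv, ratio_le_iff hp0 hc0]
  -- bound for one side
  have main : ∀ j0 : ℕ, (j0 = 0 ∨ j0 = 1) → ∀ g : ℝ, 1 ≤ g →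
      expectedTime p (gy r) ((-1) ^ j0 * g) ≤ ENNReal.ofReal (c * g) := by
    intro j0 hj0 g hg
    have hstart : gx r j0 ≤ g := by
      have : gx r j0 ≤ 1 := by
        unfold gx
        rw [div_le_one (by positivity)]
        exact pow_le_pow_right₀ hr1.le (by omega)
      linarith
    have hex : ∃ m, g < gx r (j0 + 2 * m) := by
      obtain ⟨m, hm⟩ := pow_unbounded_of_one_lt (g * r ^ 2) hr1
      refine ⟨m, ?_⟩
      unfold gx
      rw [lt_div_iff₀ (by positivity)]
      exact hm.trans_le (pow_le_pow_right₀ hr1.le (by omega))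
    classical
    have hspec := Nat.find_spec hex
    have hne : Nat.find hex ≠ 0 := by
      intro h
      rw [h, mul_zero, add_zero] at hspec
      linarith
    obtain ⟨m, hm⟩ := Nat.exists_eq_succ_of_ne_zero hne
    have hmin : gx r (j0 + 2 * m) ≤ g := by
      by_contra h
      push Not at h
      have := Nat.find_min' hex h
      omega
    rw [hm, show j0 + 2 * m.succ = j0 + 2 * m + 2 by rw [Nat.succ_eq_add_one]; ring] at hspec
    set i := j0 + 2 * m with hi
    have hg0 : 0 < g := by linarith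
    have h1 := expectedTime_le hp0 hp1.le (tau_strictMono hx0 hx2 hg0 hspec)
      (isAt_cyc_passes hx0 hx2 rfl hy hg0 hspec)
    rw [pow_parity (show i % 2 = j0 % 2 by omega)] at h1
    refine h1.trans ?_
    have hb : ∀ k, tau (gx r) i g k ≤ (2 / (r - 1) * r ^ 2 * r ^ k + 1) * g := by
      intro k
      unfold tau
      have h2 := S_gx_le hr1 (i + 2 + k)
      have h3 : gx r (i + 2 + k) = r ^ 2 * r ^ k * gx r i := by
        unfold gx
        rw [pow_add, pow_add]
        ring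
      have h4 : (-1 : ℝ) ^ k * g ≤ g := by
        rcases neg_one_pow_eq_or ℝ k with h | h <;> rw [h] <;> linarith
      have h5 : 2 / (r - 1) * gx r (i + 2 + k) ≤ 2 / (r - 1) * r ^ 2 * r ^ k * g := by
        rw [h3]
        calc 2 / (r - 1) * (r ^ 2 * r ^ k * gx r i) = (2 / (r - 1) * r ^ 2 * r ^ k) * gx r i := by
              ring
          _ ≤ (2 / (r - 1) * r ^ 2 * r ^ k) * g := by
              apply mul_le_mul_of_nonneg_left hmin
              positivity
      linarith
    have hT : HasSum (fun k : ℕ => p * (1 - p) ^ k * ((2 / (r - 1) * r ^ 2 * r ^ k + 1) * g))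
        (c * g) := by
      have h6 := hsum.mul_right g
      have e1 : (fun k : ℕ => p * (1 - p) ^ k * ((2 / (r - 1) * r ^ 2 * r ^ k + 1) * g)) =
          fun k : ℕ => (p * (2 / (r - 1) * r ^ 2) * ((1 - p) * r) ^ k + p * (1 - p) ^ k) * g := by
        funext k
        rw [mul_pow]
        ring
      rw [e1]
      exact h6
    exact ofReal_sum_le hp0 hp1 hb (fun k => by positivity) hT
  intro h hh
  rcases le_total 0 h with h1 | h1
  · have h2 := main 0 (Or.inl rfl) |h| hh
    rw [pow_zero, one_mul] at h2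
    rwa [abs_of_nonneg h1] at h2 ⊢
  · have h2 := main 1 (Or.inr rfl) |h| hh
    rw [pow_one, abs_of_nonpos h1] at h2
    rw [abs_of_nonpos h1]
    convert h2 using 2
    ring


theorem gy_cyc (hp0 : 0 < p) (hp1 : p < 1) : IsCyclicMonotoneC (gy (2 / (2 - p))) := by
  have hr1 : 1 < 2 / (2 - p) := by
    rw [lt_div_iff₀ (by linarith)]
    linarith
  refine ⟨rfl, gx (2 / (2 - p)), gx_pos hr1, gx_lt hr1, ?_, fun n => rfl⟩
  unfold gx
  exact (tendsto_pow_atTop_atTop_of_one_lt hr1).atTop_div_const (by positivity)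

theorem cyc_traj {y : ℕ → ℝ} (h : IsCyclicMonotoneC y) : IsTrajectory y := by
  obtain ⟨h0, x, hx0, hx2, -, hy⟩ := h
  exact isTrajectory_cyc hx0 hx2 h0 hy

theorem main (hp0 : 0 < p) (hp1 : p < 1) :
    (⨅ (y : ℕ → ℝ) (_ : IsTrajectory y), competitiveRatioC p y) +
        ENNReal.ofReal (p ^ 4 * (1 - p) ^ 3 / 20) ≤
      (⨅ (y : ℕ → ℝ) (_ : IsCyclicMonotoneC y), competitiveRatioC p y) ∧
    (⨅ (y : ℕ → ℝ) (_ : IsCyclicMonotoneC y), competitiveRatioC p y) ≤
      ENNReal.ofReal (8 + p) ∧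
    ∃ y : ℕ → ℝ, IsTrajectory y ∧ competitiveRatioC p y <
      ⨅ (y : ℕ → ℝ) (_ : IsCyclicMonotoneC y), competitiveRatioC p y := by
  have h1 : (⨅ (y : ℕ → ℝ) (_ : IsTrajectory y), competitiveRatioC p y) +
        ENNReal.ofReal (p ^ 4 * (1 - p) ^ 3 / 20) ≤
      (⨅ (y : ℕ → ℝ) (_ : IsCyclicMonotoneC y), competitiveRatioC p y) := by
    refine le_trans (add_le_add_left ?_ _) ((Pool.Agent.Y237.FL.gap hp0 hp1).trans ?_)
    · exact iInf₂_mono fun y _ => ratioC_le y
    · refine le_iInf₂ fun y hy => ?_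
      obtain ⟨h0, x, hx0, hx2, hlim, hyx⟩ := hy
      refine le_trans ?_ (ratio_le_ratioC hp0 hp1 hx0 hx2 h0 hyx)
      refine iInf_le_of_le y (iInf_le_of_le (isTrajectory_cyc hx0 hx2 h0 hyx)
        (iInf_le_of_le ⟨x, hx0, hx2, Or.inl hyx⟩ le_rfl))
  have h2 : (⨅ (y : ℕ → ℝ) (_ : IsCyclicMonotoneC y), competitiveRatioC p y) ≤
      ENNReal.ofReal (8 + p) :=
    (iInf₂_le _ (gy_cyc hp0 hp1)).trans ((ratioC_le _).trans (gy_ratio hp0 hp1))
  refine ⟨h1, h2, ?_⟩
  have h3 : (⨅ (y : ℕ → ℝ) (_ : IsTrajectory y), competitiveRatioC p y) <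
      ⨅ (y : ℕ → ℝ) (_ : IsCyclicMonotoneC y), competitiveRatioC p y := by
    have hq0 : 0 < 1 - p := by linarith
    have hfin : (⨅ (y : ℕ → ℝ) (_ : IsTrajectory y), competitiveRatioC p y) ≠ ⊤ := by
      refine ne_top_of_le_ne_top ENNReal.ofReal_ne_top
        ((iInf₂_le _ (cyc_traj (gy_cyc hp0 hp1))).trans ((ratioC_le _).trans (gy_ratio hp0 hp1)))
    refine lt_of_lt_of_le (ENNReal.lt_add_right hfin ?_) h1
    have : 0 < p ^ 4 * (1 - p) ^ 3 / 20 := by positivity
    simpa using this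
  obtain ⟨y, hy⟩ := iInf_lt_iff.mp h3
  obtain ⟨hyt, hy⟩ := iInf_lt_iff.mp hy
  exact ⟨y, hyt, hy⟩

end Pool.Agent.Q46.Fl
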