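import Mathlib

/-!
# Recurrences for the Franel numbers and for `S(n) = ∑ C(n,k)^3 f_k` by creative telescoping
-/

open Finset

namespace Pool.Agent.Q46.Fr

/-- binomial coefficients as real numbers -/
noncomputable def C (n k : ℕ) : ℝ := (Nat.choose n k : ℝ)

theorem C_succ_left (n k : ℕ) : ((n : ℝ) + 1) * C n k = ((n : ℝ) + 1 - k) * C (n + 1) k := by
  unfold C
  have h := Nat.choose_mul_succ_eq n k
  rcases le_or_gt k (n + 1) with hk | hk
  · have h' : ((n.choose k : ℕ) : ℝ) * ((n : ℝ) + 1) = ((n + 1).choose k : ℝ) * ((n : ℝ) + 1 - k) := by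
      have := congrArg (Nat.cast : ℕ → ℝ) h
      rw [Nat.cast_mul, Nat.cast_mul, Nat.cast_sub hk] at this
      push_cast at this
      exact this
    linarith
  · rw [Nat.choose_eq_zero_of_lt (by omega), Nat.choose_eq_zero_of_lt hk]
    simp

theorem C_succ_right (n k : ℕ) : ((k : ℝ) + 1) * C n (k + 1) = ((n : ℝ) - k) * C n k := by
  unfold C
  have h := Nat.choose_succ_right_eq n k
  rcases le_or_gt k n with hk | hk
  · have := congrArg (Nat.cast : ℕ → ℝ) h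
    rw [Nat.cast_mul, Nat.cast_mul, Nat.cast_sub hk] at this
    push_cast at this
    linarith
  · rw [Nat.choose_eq_zero_of_lt (by omega), Nat.choose_eq_zero_of_lt hk]
    simp

/-- Franel numbers -/
noncomputable def f (k : ℕ) : ℝ := ∑ j ∈ range (k + 1), C k j ^ 3

theorem C_zero_of_lt {n k : ℕ} (h : n < k) : C n k = 0 := by
  unfold C; rw [Nat.choose_eq_zero_of_lt h]; simp

theorem f_ext (k N : ℕ) (h : k + 1 ≤ N) : f k = ∑ j ∈ range N, C k j ^ 3 := by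
  unfold f
  apply Finset.sum_subset (Finset.range_subset_range.2 h)
  intro j _ hj
  rw [Finset.mem_range, not_lt] at hj
  rw [C_zero_of_lt (by omega)]
  norm_num

/-- certificate for the Franel recurrence -/
noncomputable def sF (k j : ℝ) : ℝ :=
  (k + 1) ^ 2 * (-(18 + 14 * k) * (k + 2) ^ 2 + (39 + 27 * k) * (k + 2) * j
    - (30 + 18 * k) * j ^ 2 + 4 * j ^ 3)

theorem franel_rec (k : ℕ) :
    ((k : ℝ) + 2) ^ 2 * f (k + 2) = (7 * (k : ℝ) ^ 2 + 21 * k + 16) * f (k + 1)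
      + 8 * ((k : ℝ) + 1) ^ 2 * f k := by
  have hD : (0 : ℝ) < (((k : ℝ) + 1) * (k + 2)) ^ 3 := by positivity
  have key : ∀ j ∈ range (k + 3),
      ((k : ℝ) + 2) ^ 2 * C (k + 2) j ^ 3 - (7 * (k : ℝ) ^ 2 + 21 * k + 16) * C (k + 1) j ^ 3
        - 8 * ((k : ℝ) + 1) ^ 2 * C k j ^ 3
      = (C (k + 2) (j + 1) ^ 3 * ((j + 1 : ℕ) : ℝ) ^ 3 * sF k ((j + 1 : ℕ) : ℝ)) /
          (((k : ℝ) + 1) * (k + 2)) ^ 3
        - (C (k + 2) j ^ 3 * (j : ℝ) ^ 3 * sF k j) / (((k : ℝ) + 1) * (k + 2)) ^ 3 := by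
    intro j _
    have h1 := C_succ_right (k + 2) j
    have h2 := C_succ_left (k + 1) j
    have h3 := C_succ_left k j
    push_cast at h1 h2 h3
    set X := C (k + 2) j with hX
    have e2 : C (k + 1) j = ((k : ℝ) + 2 - j) * X / (k + 2) := by
      rw [eq_div_iff (by positivity)]; linarith
    have e3 : C k j = ((k : ℝ) + 1 - j) * (((k : ℝ) + 2 - j) * X / (k + 2)) / (k + 1) := by
      rw [eq_div_iff (by positivity), ← e2]; linarith
    have e1 : C (k + 2) (j + 1) ^ 3 * (((j + 1 : ℕ) : ℝ)) ^ 3 = (((k : ℝ) + 2 - j) * X) ^ 3 := by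
      push_cast
      rw [← mul_pow, mul_comm, h1]
    rw [e1, e2, e3]
    unfold sF
    push_cast
    field_simp
    ring
  have hsum := Finset.sum_congr rfl key
  rw [Finset.sum_range_sub (fun j => (C (k + 2) j ^ 3 * (j : ℝ) ^ 3 * sF k j) /
    (((k : ℝ) + 1) * (k + 2)) ^ 3)] at hsum
  rw [C_zero_of_lt (by omega : k + 2 < k + 3)] at hsum
  simp only [Finset.sum_sub_distrib, ← Finset.mul_sum] at hsum
  rw [← f_ext (k + 2) (k + 3) (by omega), ← f_ext (k + 1) (k + 3) (by omega),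
    ← f_ext k (k + 3) (by omega)] at hsum
  norm_num at hsum
  linarith

/-- the sums -/
noncomputable def S (n : ℕ) : ℝ := ∑ k ∈ range (n + 1), C n k ^ 3 * f k

theorem S_ext (n N : ℕ) (h : n + 1 ≤ N) : S n = ∑ k ∈ range N, C n k ^ 3 * f k := by
  unfold S
  apply Finset.sum_subset (Finset.range_subset_range.2 h)
  intro j _ hj
  rw [Finset.mem_range, not_lt] at hj
  rw [C_zero_of_lt (by omega)]
  norm_num

noncomputable def q0 (n : ℝ) : ℝ :=
  -72171 - 355023 * n - 713691 * n ^ 2 - 747954 * n ^ 3 - 429381 * n ^ 4 - 127575 * n ^ 5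
    - 15309 * n ^ 6
noncomputable def q1 (n : ℝ) : ℝ :=
  17145 + 57027 * n + 79569 * n ^ 2 + 59730 * n ^ 3 + 25479 * n ^ 4 + 5859 * n ^ 5 + 567 * n ^ 6
noncomputable def q2 (n : ℝ) : ℝ :=
  -32379 - 104673 * n - 137565 * n ^ 2 - 94086 * n ^ 3 - 35433 * n ^ 4 - 6993 * n ^ 5 - 567 * n ^ 6
noncomputable def q3 (n : ℝ) : ℝ :=
  2349 + 7101 * n + 8559 * n ^ 2 + 5262 * n ^ 3 + 1751 * n ^ 4 + 301 * n ^ 5 + 21 * n ^ 6

/-- certificate -/
noncomputable def e (n k : ℝ) : ℝ :=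
  (n + 1) ^ 3 * (-(n + 2) ^ 2 * (18519 + 43621 * n + 37450 * n ^ 2 + 13951 * n ^ 3 + 1911 * n ^ 4)
    + (n + 2) * (60333 + 136428 * n + 113412 * n ^ 2 + 41223 * n ^ 3 + 5544 * n ^ 4) * k
    - (77715 + 167168 * n + 133291 * n ^ 2 + 46788 * n ^ 3 + 6111 * n ^ 4) * k ^ 2
    + (23166 + 35550 * n + 18018 * n ^ 2 + 3024 * n ^ 3) * k ^ 3
    - (2673 + 2457 * n + 567 * n ^ 2) * k ^ 4)

noncomputable def P (n k : ℝ) : ℝ :=
  q0 n * ((n + 3 - k) * (n + 2 - k) * (n + 1 - k)) ^ 3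
  + q1 n * ((n + 1) * (n + 3 - k) * (n + 2 - k)) ^ 3
  + q2 n * ((n + 1) * (n + 2) * (n + 3 - k)) ^ 3
  + q3 n * ((n + 1) * (n + 2) * (n + 3)) ^ 3

theorem cert (n k : ℝ) :
    8 * ((n + 2 - k) * (n + 1 - k)) ^ 3 * e n (k + 2)
      + (k + 1) * (7 * k ^ 2 + 21 * k + 16) * (n + 2 - k) ^ 3 * e n (k + 1)
      - k * (k + 1) ^ 5 * e n k = P n (k + 1) := by
  unfold P e q0 q1 q2 q3
  ring

noncomputable def ca (n k : ℝ) : ℝ := 8 * ((n + 3 - k) * (n + 2 - k)) ^ 3 * e n (k + 1) - P n k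
noncomputable def cb (n k : ℝ) : ℝ := k * (k + 1) ^ 2 * (n + 3 - k) ^ 3 * e n k

theorem ca_zero (n : ℝ) : ca n 0 = 0 := by
  have h := cert n (-1)
  unfold ca
  ring_nf at h ⊢
  linarith

theorem cert2 (n k : ℝ) :
    (n + 3 - k) ^ 3 * (ca n (k + 1)
      + (k + 1) * (n + 2 - k) ^ 3 * e n (k + 1) * (7 * k ^ 2 + 21 * k + 16))
      = (k + 1) ^ 3 * cb n k := by
  have h := cert n k
  have h1 : ca n (k + 1) = 8 * ((n + 2 - k) * (n + 1 - k)) ^ 3 * e n (k + 2) - P n (k + 1) := by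
    unfold ca
    ring_nf
  rw [h1, ← h]
  unfold cb
  ring

theorem cert1 (n k : ℝ) :
    8 * ((n + 3 - k) * (n + 2 - k)) ^ 3 * e n (k + 1) - ca n k = P n k := by
  unfold ca; ring

theorem S_rec (n : ℕ) :
    q3 n * S (n + 3) + q2 n * S (n + 2) + q1 n * S (n + 1) + q0 n * S n = 0 := by
  have hD : (0 : ℝ) < (((n : ℝ) + 1) * (n + 2) * (n + 3)) ^ 3 := by positivity
  have key : ∀ k ∈ range (n + 4),
      q3 n * (C (n + 3) k ^ 3 * f k) + q2 n * (C (n + 2) k ^ 3 * f k)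
        + q1 n * (C (n + 1) k ^ 3 * f k) + q0 n * (C n k ^ 3 * f k)
      = (C (n + 3) (k + 1) ^ 3 * (ca n ((k + 1 : ℕ) : ℝ) * f (k + 1)
            + cb n ((k + 1 : ℕ) : ℝ) * f (k + 2))) / (((n : ℝ) + 1) * (n + 2) * (n + 3)) ^ 3
        - (C (n + 3) k ^ 3 * (ca n k * f k + cb n k * f (k + 1))) /
            (((n : ℝ) + 1) * (n + 2) * (n + 3)) ^ 3 := by
    intro k _
    have h1 := C_succ_right (n + 3) k
    have h2 := C_succ_left (n + 2) k
    have h3 := C_succ_left (n + 1) k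
    have h4 := C_succ_left n k
    have hf := franel_rec k
    push_cast at h1 h2 h3 h4
    set X := C (n + 3) k with hX
    have e2 : C (n + 2) k = ((n : ℝ) + 3 - k) * X / (n + 3) := by
      rw [eq_div_iff (by positivity)]; linarith
    have e3 : C (n + 1) k = ((n : ℝ) + 2 - k) * (((n : ℝ) + 3 - k) * X / (n + 3)) / (n + 2) := by
      rw [eq_div_iff (by positivity), ← e2]; linarith
    have e4 : C n k = ((n : ℝ) + 1 - k) *
        (((n : ℝ) + 2 - k) * (((n : ℝ) + 3 - k) * X / (n + 3)) / (n + 2)) / (n + 1) := by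
      rw [eq_div_iff (by positivity), ← e3]; linarith
    have hk1 : (0 : ℝ) < (k : ℝ) + 1 := by positivity
    have e1 : C (n + 3) (k + 1) = ((n : ℝ) + 3 - k) * X / (k + 1) := by
      rw [eq_div_iff (by positivity)]; linarith
    have hcb : cb n ((k + 1 : ℕ) : ℝ) * f (k + 2)
        = (k + 1) * ((n : ℝ) + 2 - k) ^ 3 * e n ((k : ℝ) + 1) *
          ((7 * (k : ℝ) ^ 2 + 21 * k + 16) * f (k + 1) + 8 * ((k : ℝ) + 1) ^ 2 * f k) := by
      rw [← hf]
      unfold cb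
      push_cast
      ring
    have hc2 := cert2 n k
    have hc1 := cert1 n k
    rw [hcb, e1, e2, e3, e4, ← sub_div, eq_div_iff hD.ne']
    have hL : (q3 n * (X ^ 3 * f k) + q2 n * ((((n : ℝ) + 3 - k) * X / (n + 3)) ^ 3 * f k)
        + q1 n * ((((n : ℝ) + 2 - k) * (((n : ℝ) + 3 - k) * X / (n + 3)) / (n + 2)) ^ 3 * f k)
        + q0 n * ((((n : ℝ) + 1 - k) * (((n : ℝ) + 2 - k) *
          (((n : ℝ) + 3 - k) * X / (n + 3)) / (n + 2)) / (n + 1)) ^ 3 * f k))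
        * (((n : ℝ) + 1) * (n + 2) * (n + 3)) ^ 3 = P n k * X ^ 3 * f k := by
      unfold P
      field_simp
      ring
    rw [hL, ← hc1]
    have hk3 : (((k : ℝ) + 1) ^ 3) ≠ 0 := by positivity
    have hR : (((n : ℝ) + 3 - k) * X / (k + 1)) ^ 3 * (ca n ((k + 1 : ℕ) : ℝ) * f (k + 1)
        + (k + 1) * ((n : ℝ) + 2 - k) ^ 3 * e n ((k : ℝ) + 1) *
          ((7 * (k : ℝ) ^ 2 + 21 * k + 16) * f (k + 1) + 8 * ((k : ℝ) + 1) ^ 2 * f k))
        = X ^ 3 * cb n k * f (k + 1)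
          + X ^ 3 * (8 * (((n : ℝ) + 3 - k) * (n + 2 - k)) ^ 3 * e n (k + 1)) * f k := by
      have : (ca n ((k + 1 : ℕ) : ℝ)) = ca n ((k : ℝ) + 1) := by push_cast; rfl
      rw [this, div_pow, div_mul_eq_mul_div, div_eq_iff hk3]
      linear_combination X ^ 3 * f (k + 1) * hc2
    rw [hR]
    ring
  have hsum := Finset.sum_congr rfl key
  rw [Finset.sum_range_sub (fun k => (C (n + 3) k ^ 3 * (ca n k * f k + cb n k * f (k + 1))) /
            (((n : ℝ) + 1) * (n + 2) * (n + 3)) ^ 3)] at hsum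
  rw [C_zero_of_lt (by omega : n + 3 < n + 4)] at hsum
  have hcb0 : cb n ((0 : ℕ) : ℝ) = 0 := by unfold cb; simp
  have hca0 : ca n ((0 : ℕ) : ℝ) = 0 := by
    have := ca_zero n
    simpa using this
  rw [hcb0, hca0] at hsum
  simp only [Finset.sum_add_distrib, ← Finset.mul_sum] at hsum
  rw [← S_ext (n + 3) (n + 4) (by omega), ← S_ext (n + 2) (n + 4) (by omega),
    ← S_ext (n + 1) (n + 4) (by omega), ← S_ext n (n + 4) (by omega)] at hsum
  norm_num at hsum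
  linarith

end Pool.Agent.Q46.Fr
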