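import Mathlib
import Pool.Agent.Q46.FrA

/-!
# Bounds for the ratios `S(n+1)/S(n)` and the two monotonicity statements
-/

open Finset Filter Topology

namespace Pool.Agent.Q46.Fr

theorem C_nonneg (n k : ℕ) : 0 ≤ C n k := by unfold C; positivity

theorem f_pos (k : ℕ) : 0 < f k := by
  unfold f
  apply Finset.sum_pos'
  · intro j _
    exact pow_nonneg (C_nonneg _ _) 3
  · refine ⟨0, by simp, ?_⟩
    unfold C
    simp

theorem S_pos (n : ℕ) : 0 < S n := by
  unfold S
  apply Finset.sum_pos'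
  · intro j _
    exact mul_nonneg (pow_nonneg (C_nonneg _ _) 3) (f_pos j).le
  · refine ⟨0, by simp, ?_⟩
    apply mul_pos _ (f_pos 0)
    unfold C
    simp

theorem S_zero : S 0 = 1 := by
  simp [S, f, C]

theorem S_one : S 1 = 3 := by
  simp [S, f, C, Finset.sum_range_succ]
  norm_num

theorem S_two : S 2 = 27 := by
  simp [S, f, C, Finset.sum_range_succ, Nat.choose]
  norm_num

theorem S_three : S 3 = 381 := by
  simp [S, f, C, Finset.sum_range_succ, Nat.choose]
  norm_num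

noncomputable def ell (u : ℝ) : ℝ := 27 * u ^ 3 - 54 * u ^ 2 + 48 * u - 30
noncomputable def ups (u : ℝ) : ℝ := 27 * u ^ 2 - 54 * u + 48

theorem ell_pos (m : ℝ) (hm : 0 ≤ m) : 0 < ell (m + 2) := by
  have : ell (m + 2) = 66 + 156 * m + 108 * m ^ 2 + 27 * m ^ 3 := by unfold ell; ring
  rw [this]; positivity

theorem ups_pos (m : ℝ) (hm : 0 ≤ m) : 0 < ups (m + 2) := by
  have : ups (m + 2) = 48 + 54 * m + 27 * m ^ 2 := by unfold ups; ring
  rw [this]; positivity

theorem q3_pos (n : ℝ) (hn : 0 ≤ n) : 0 < q3 n := by unfold q3; positivity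

theorem q0_neg (n : ℝ) (hn : 0 ≤ n) : 0 < - q0 n := by
  have : -q0 n = 72171 + 355023 * n + 713691 * n ^ 2 + 747954 * n ^ 3 + 429381 * n ^ 4
    + 127575 * n ^ 5 + 15309 * n ^ 6 := by unfold q0; ring
  rw [this]; positivity

theorem tp_nonneg (m : ℝ) (hm : 0 ≤ m) :
    0 ≤ -q1 (m + 1) * ell (m + 2) + (-q0 (m + 1)) * (m + 2) ^ 3 := by
  have : -q1 (m + 1) * ell (m + 2) + (-q0 (m + 1)) * (m + 2) ^ 3
      = 3494016 + 8064864 * m + 7990992 * m ^ 2 + 4324896 * m ^ 3 + 1338858 * m ^ 4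
        + 223182 * m ^ 5 + 15552 * m ^ 6 := by unfold q1 q0 ell; ring
  rw [this]; positivity

theorem tm_nonneg (m : ℝ) (hm : 0 ≤ m) :
    0 ≤ q1 (m + 1) * ups (m + 2) - (-q0 (m + 1)) * (m + 2) ^ 2 := by
  have : q1 (m + 1) * ups (m + 2) - (-q0 (m + 1)) * (m + 2) ^ 2
      = 1933632 + 2950272 * m + 1710288 * m ^ 2 + 456048 * m ^ 3 + 51732 * m ^ 4
        + 1458 * m ^ 5 := by unfold q1 q0 ups; ring
  rw [this]; positivity

theorem I_nonneg (m : ℝ) (hm : 0 ≤ m) :
    0 ≤ q3 (m + 1) * (ups (m + 4) * (ell (m + 2) * ell (m + 3)))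
      - (m + 4) ^ 2 * (-q2 (m + 1) * (ell (m + 2) * ell (m + 3))
        + (-q1 (m + 1) * ell (m + 2) + (-q0 (m + 1)) * (m + 2) ^ 3) * (m + 3) ^ 3) := by
  have : q3 (m + 1) * (ups (m + 4) * (ell (m + 2) * ell (m + 3)))
      - (m + 4) ^ 2 * (-q2 (m + 1) * (ell (m + 2) * ell (m + 3))
        + (-q1 (m + 1) * ell (m + 2) + (-q0 (m + 1)) * (m + 2) ^ 3) * (m + 3) ^ 3)
      = 933493248 + 7333058304 * m + 20692059552 * m ^ 2 + 31646437344 * m ^ 3
        + 30470562000 * m ^ 4 + 19776966156 * m ^ 5 + 8917343046 * m ^ 6 + 2808356436 * m ^ 7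
        + 607246794 * m ^ 8 + 86009058 * m ^ 9 + 7188804 * m ^ 10 + 268758 * m ^ 11 := by
    unfold q3 q2 q1 q0 ups ell; ring
  rw [this]; positivity

theorem II_nonneg (m : ℝ) (hm : 0 ≤ m) :
    0 ≤ (m + 4) ^ 3 * (-q2 (m + 1) * (ups (m + 2) * ell (m + 3))
        - (q1 (m + 1) * ups (m + 2) - (-q0 (m + 1)) * (m + 2) ^ 2) * (m + 3) ^ 3)
      - q3 (m + 1) * (ell (m + 4) * (ups (m + 2) * ell (m + 3))) := by
  have : (m + 4) ^ 3 * (-q2 (m + 1) * (ups (m + 2) * ell (m + 3))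
        - (q1 (m + 1) * ups (m + 2) - (-q0 (m + 1)) * (m + 2) ^ 2) * (m + 3) ^ 3)
      - q3 (m + 1) * (ell (m + 4) * (ups (m + 2) * ell (m + 3)))
      = 2580885504 + 14220804096 * m + 33460805376 * m ^ 2 + 45152520768 * m ^ 3
        + 39186805824 * m ^ 4 + 23098972716 * m ^ 5 + 9473626062 * m ^ 6 + 2711057544 * m ^ 7
        + 531618282 * m ^ 8 + 68140746 * m ^ 9 + 5144580 * m ^ 10 + 173502 * m ^ 11 := by
    unfold q3 q2 q1 q0 ups ell; ring
  rw [this]; positivity

theorem bounds (m : ℕ) :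
    (ell ((m : ℝ) + 2) * S (m + 1) ≤ ((m : ℝ) + 2) ^ 3 * S (m + 2) ∧
      ((m : ℝ) + 2) ^ 2 * S (m + 2) ≤ ups ((m : ℝ) + 2) * S (m + 1)) := by
  induction m using Nat.strong_induction_on with
  | _ m ih =>
    match m with
    | 0 =>
      rw [S_one, S_two]
      unfold ell ups
      norm_num
    | 1 =>
      rw [S_two, S_three]
      unfold ell ups
      norm_num
    | (m + 2) =>
      obtain ⟨hL0, hU0⟩ := ih m (by omega)
      obtain ⟨hL1, -⟩ := ih (m + 1) (by omega)
      have hrec := S_rec (m + 1)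
      have hm : (0 : ℝ) ≤ (m : ℝ) := by positivity
      push_cast at hL1 hrec ⊢
      have hx : (m : ℝ) + 1 + 2 = m + 3 := by ring
      have hx2 : (m : ℝ) + 2 + 2 = m + 4 := by ring
      rw [hx] at hL1
      rw [hx2]
      have e1 : m + 1 + 1 = m + 2 := rfl
      have e2 : m + 1 + 2 = m + 3 := rfl
      have e3 : m + 1 + 3 = m + 4 := rfl
      have e4 : m + 2 + 1 = m + 3 := rfl
      have e5 : m + 2 + 2 = m + 4 := rfl
      simp only [e1, e2, e3] at hL1 hrec ⊢
      set s0 := S (m + 1) with hs0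
      set s1 := S (m + 2) with hs1
      set s2 := S (m + 3) with hs2
      set s3 := S (m + 4) with hs3
      have h0 : 0 < s0 := S_pos _
      have h1 : 0 < s1 := S_pos _
      have h2 : 0 < s2 := S_pos _
      have h3 : 0 < s3 := S_pos _
      have hl2 := ell_pos m hm
      have hl3 : 0 < ell ((m : ℝ) + 3) := by
        have := ell_pos ((m : ℝ) + 1) (by positivity)
        rwa [hx] at this
      have hu2 := ups_pos m hm
      have hq3 := q3_pos ((m : ℝ) + 1) (by positivity)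
      have hg := q0_neg ((m : ℝ) + 1) (by positivity)
      have htp := tp_nonneg m hm
      have htm := tm_nonneg m hm
      have hI := I_nonneg m hm
      have hII := II_nonneg m hm
      set a3 := q3 ((m : ℝ) + 1)
      set a2 := q2 ((m : ℝ) + 1)
      set a1 := q1 ((m : ℝ) + 1)
      set g := -q0 ((m : ℝ) + 1) with hgdef
      have ha0 : q0 ((m : ℝ) + 1) = -g := by rw [hgdef, neg_neg]
      rw [ha0] at hrec
      set l2 := ell ((m : ℝ) + 2)
      set l3 := ell ((m : ℝ) + 3)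
      set l4 := ell ((m : ℝ) + 4)
      set u2 := ups ((m : ℝ) + 2)
      set u4 := ups ((m : ℝ) + 4)
      constructor
      · -- lower bound
        have k1 : a3 * s3 * (u2 * l3) ≥ (-a2 * (u2 * l3)
            - (a1 * u2 - g * ((m : ℝ) + 2) ^ 2) * ((m : ℝ) + 3) ^ 3) * s2 := by
          have k2 : a3 * s3 * (u2 * l3) = -a2 * (u2 * l3) * s2 - a1 * (u2 * l3) * s1
              + g * l3 * (u2 * s0) := by
            linear_combination (u2 * l3) * hrec
          have k3 : g * l3 * (((m : ℝ) + 2) ^ 2 * s1) ≤ g * l3 * (u2 * s0) :=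
            mul_le_mul_of_nonneg_left hU0 (by positivity)
          have k4 : (a1 * u2 - g * ((m : ℝ) + 2) ^ 2) * (l3 * s1)
              ≤ (a1 * u2 - g * ((m : ℝ) + 2) ^ 2) * (((m : ℝ) + 3) ^ 3 * s2) :=
            mul_le_mul_of_nonneg_left hL1 htm
          rw [k2]
          linarith
        have k5 : l4 * s2 * (a3 * (u2 * l3)) ≤ ((m : ℝ) + 4) ^ 3 * s3 * (a3 * (u2 * l3)) := by
          have k6 := mul_le_mul_of_nonneg_left k1 (by positivity : (0 : ℝ) ≤ ((m : ℝ) + 4) ^ 3)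
          have k7 := mul_nonneg hII h2.le
          linarith
        exact le_of_mul_le_mul_right k5 (by positivity)
      · -- upper bound
        have k1 : a3 * s3 * (l2 * l3) ≤ (-a2 * (l2 * l3)
            + (-a1 * l2 + g * ((m : ℝ) + 2) ^ 3) * ((m : ℝ) + 3) ^ 3) * s2 := by
          have k2 : a3 * s3 * (l2 * l3) = -a2 * (l2 * l3) * s2 - a1 * (l2 * l3) * s1
              + g * l3 * (l2 * s0) := by
            linear_combination (l2 * l3) * hrec
          have k3 : g * l3 * (l2 * s0) ≤ g * l3 * (((m : ℝ) + 2) ^ 3 * s1) :=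
            mul_le_mul_of_nonneg_left hL0 (by positivity)
          have k4 : (-a1 * l2 + g * ((m : ℝ) + 2) ^ 3) * (l3 * s1)
              ≤ (-a1 * l2 + g * ((m : ℝ) + 2) ^ 3) * (((m : ℝ) + 3) ^ 3 * s2) :=
            mul_le_mul_of_nonneg_left hL1 htp
          rw [k2]
          linarith
        have k5 : ((m : ℝ) + 4) ^ 2 * s3 * (a3 * (l2 * l3)) ≤ u4 * s2 * (a3 * (l2 * l3)) := by
          have k6 := mul_le_mul_of_nonneg_left k1 (by positivity : (0 : ℝ) ≤ ((m : ℝ) + 4) ^ 2)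
          have k7 := mul_nonneg hI h2.le
          linarith
        exact le_of_mul_le_mul_right k5 (by positivity)

/-- the ratios -/
noncomputable def x (n : ℕ) : ℝ := S (n + 1) / S n

theorem x_pos (n : ℕ) : 0 < x n := div_pos (S_pos _) (S_pos _)

theorem x_lower (m : ℕ) : ell ((m : ℝ) + 2) / ((m : ℝ) + 2) ^ 3 ≤ x (m + 1) := by
  unfold x
  rw [div_le_div_iff₀ (by positivity) (S_pos _)]
  have := (bounds m).1
  rw [mul_comm (S (m + 1 + 1))]
  exact this

theorem x_upper (m : ℕ) : x (m + 1) ≤ ups ((m : ℝ) + 2) / ((m : ℝ) + 2) ^ 2 := by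
  unfold x
  rw [div_le_div_iff₀ (S_pos _) (by positivity)]
  have := (bounds m).2
  rw [mul_comm (S (m + 1 + 1))]
  exact this

theorem x_zero : x 0 = 3 := by unfold x; rw [S_one, S_zero]; norm_num
theorem x_one : x 1 = 9 := by unfold x; rw [S_two, S_one]; norm_num
theorem x_two : x 2 = 127 / 9 := by unfold x; rw [S_three, S_two]; norm_num

theorem x_strictMono : StrictMono x := by
  apply strictMono_nat_of_lt_succ
  intro n
  rcases n with _ | m
  · rw [x_zero, x_one]; norm_num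
  · refine lt_of_le_of_lt (x_upper m) (lt_of_lt_of_le ?_ (x_lower (m + 1)))
    have hm : (0 : ℝ) ≤ (m : ℝ) := by positivity
    push_cast
    rw [div_lt_div_iff₀ (by positivity) (by positivity)]
    have hx : (m : ℝ) + 1 + 2 = m + 3 := by ring
    rw [hx, ← sub_pos]
    have : ell ((m : ℝ) + 3) * ((m : ℝ) + 2) ^ 2 - ups ((m : ℝ) + 2) * ((m : ℝ) + 3) ^ 3
        = 132 + 486 * m + 306 * m ^ 2 + 54 * m ^ 3 := by
      unfold ell ups; ring
    rw [this]
    positivity

theorem x_lt (n : ℕ) : x n < x (n + 1) := x_strictMono (Nat.lt_succ_self n)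

theorem x_tendsto : Tendsto x atTop (𝓝 27) := by
  rw [← tendsto_add_atTop_iff_nat 1]
  have hu : Tendsto (fun m : ℕ => ((m : ℝ) + 2)⁻¹) atTop (𝓝 0) := by
    apply tendsto_inv_atTop_zero.comp
    exact tendsto_atTop_add_const_right _ _ tendsto_natCast_atTop_atTop
  have hlo : Tendsto (fun m : ℕ => ell ((m : ℝ) + 2) / ((m : ℝ) + 2) ^ 3) atTop (𝓝 27) := by
    have h1 : ∀ m : ℕ, ell ((m : ℝ) + 2) / ((m : ℝ) + 2) ^ 3
        = 27 - 54 * ((m : ℝ) + 2)⁻¹ + 48 * ((m : ℝ) + 2)⁻¹ ^ 2 - 30 * ((m : ℝ) + 2)⁻¹ ^ 3 := by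
      intro m
      have : (m : ℝ) + 2 ≠ 0 := by positivity
      unfold ell
      field_simp
    simp only [h1]
    have h2 := ((tendsto_const_nhds (x := (27 : ℝ))).sub (hu.const_mul 54)).add
      ((hu.pow 2).const_mul 48) |>.sub ((hu.pow 3).const_mul 30)
    simpa using h2
  have hhi : Tendsto (fun m : ℕ => ups ((m : ℝ) + 2) / ((m : ℝ) + 2) ^ 2) atTop (𝓝 27) := by
    have h1 : ∀ m : ℕ, ups ((m : ℝ) + 2) / ((m : ℝ) + 2) ^ 2
        = 27 - 54 * ((m : ℝ) + 2)⁻¹ + 48 * ((m : ℝ) + 2)⁻¹ ^ 2 := by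
      intro m
      have : (m : ℝ) + 2 ≠ 0 := by positivity
      unfold ups
      field_simp
    simp only [h1]
    have h2 := ((tendsto_const_nhds (x := (27 : ℝ))).sub (hu.const_mul 54)).add
      ((hu.pow 2).const_mul 48)
    simpa using h2
  exact tendsto_of_tendsto_of_tendsto_of_le_of_le hlo hhi x_lower x_upper

/-- logarithm of the sums -/
noncomputable def lg (n : ℕ) : ℝ := Real.log (S n)

theorem lg_sub (n : ℕ) : lg (n + 1) - lg n = Real.log (x n) := by
  unfold lg x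
  rw [Real.log_div (S_pos _).ne' (S_pos _).ne']

theorem lg_zero : lg 0 = 0 := by unfold lg; rw [S_zero, Real.log_one]

noncomputable def W (n : ℕ) : ℝ := n * Real.log (x n) - lg n

theorem W_zero : W 0 = 0 := by unfold W; rw [lg_zero]; simp

theorem W_succ (n : ℕ) :
    W (n + 1) - W n = ((n : ℝ) + 1) * (Real.log (x (n + 1)) - Real.log (x n)) := by
  unfold W
  have := lg_sub n
  push_cast
  linear_combination -this

theorem log_x_lt (n : ℕ) : Real.log (x n) < Real.log (x (n + 1)) :=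
  Real.log_lt_log (x_pos n) (x_lt n)

theorem W_strictMono : StrictMono W := by
  apply strictMono_nat_of_lt_succ
  intro n
  have h1 := W_succ n
  have h2 : 0 < ((n : ℝ) + 1) * (Real.log (x (n + 1)) - Real.log (x n)) :=
    mul_pos (by positivity) (sub_pos.2 (log_x_lt n))
  linarith

theorem W_one : W 1 = Real.log 3 := by
  have h := W_succ 0
  rw [W_zero, zero_add, x_one, x_zero] at h
  have h9 : Real.log 9 = 2 * Real.log 3 := by
    rw [show (9 : ℝ) = 3 ^ 2 by norm_num, Real.log_pow]; norm_num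
  rw [h9] at h
  norm_num at h
  linarith

theorem W_two : 3 < 2 * W 2 := by
  have h := W_succ 1
  rw [W_one] at h
  norm_num at h
  rw [x_two, x_one] at h
  have h1 : 2 * W 2 = Real.log ((3 * (127 / 81) ^ 2) ^ 2) := by
    rw [Real.log_pow, Real.log_mul (by norm_num) (by norm_num), Real.log_pow]
    have h2 : Real.log (127 / 81 : ℝ) = Real.log (127 / 9) - Real.log 9 := by
      rw [← Real.log_div (by norm_num) (by norm_num)]
      norm_num
    rw [h2]
    push_cast
    linarith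
  rw [h1, Real.lt_log_iff_exp_lt (by positivity)]
  have h3 : Real.exp 3 = Real.exp 1 ^ 3 := by
    rw [← Real.exp_nat_mul]; norm_num
  rw [h3]
  have h4 : Real.exp 1 ^ 3 < 3 ^ 3 :=
    pow_lt_pow_left₀ (lt_trans Real.exp_one_lt_d9 (by norm_num)) (Real.exp_pos 1).le (by norm_num)
  norm_num at h4 ⊢
  linarith

/-- the second difference of `lg` is small -/
theorem delta_le (m : ℕ) :
    ((m : ℝ) + 1) * ((m : ℝ) + 2) * (Real.log (x (m + 2)) - Real.log (x (m + 1))) ≤ 3 := by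
  have hm : (0 : ℝ) ≤ (m : ℝ) := by positivity
  have h1 := x_upper (m + 1)
  have h2 := x_lower m
  push_cast at h1
  have hx : (m : ℝ) + 1 + 2 = m + 3 := by ring
  rw [hx] at h1
  have hl := ell_pos m hm
  have hu : 0 < ups ((m : ℝ) + 3) := by
    have := ups_pos ((m : ℝ) + 1) (by positivity)
    rwa [hx] at this
  have h3 : Real.log (x (m + 2)) - Real.log (x (m + 1))
      ≤ ups ((m : ℝ) + 3) / ((m : ℝ) + 3) ^ 2 / (ell ((m : ℝ) + 2) / ((m : ℝ) + 2) ^ 3) - 1 := by
    rw [← Real.log_div (x_pos _).ne' (x_pos _).ne']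
    refine le_trans (Real.log_le_sub_one_of_pos (div_pos (x_pos _) (x_pos _))) ?_
    have h4 : x (m + 2) / x (m + 1)
        ≤ ups ((m : ℝ) + 3) / ((m : ℝ) + 3) ^ 2 / (ell ((m : ℝ) + 2) / ((m : ℝ) + 2) ^ 3) :=
      div_le_div₀ (by positivity) h1 (by positivity) h2
    linarith
  refine le_trans (mul_le_mul_of_nonneg_left h3 (by positivity)) ?_
  have h5 : ups ((m : ℝ) + 3) / ((m : ℝ) + 3) ^ 2 / (ell ((m : ℝ) + 2) / ((m : ℝ) + 2) ^ 3) - 1
      = (ups ((m : ℝ) + 3) * ((m : ℝ) + 2) ^ 3 - ell ((m : ℝ) + 2) * ((m : ℝ) + 3) ^ 2) /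
        (((m : ℝ) + 3) ^ 2 * ell ((m : ℝ) + 2)) := by
    field_simp
  rw [h5, mul_div_assoc', div_le_iff₀ (by positivity), ← sub_nonneg]
  have h6 : 3 * (((m : ℝ) + 3) ^ 2 * ell ((m : ℝ) + 2)) - ((m : ℝ) + 1) * ((m : ℝ) + 2) *
      (ups ((m : ℝ) + 3) * ((m : ℝ) + 2) ^ 3 - ell ((m : ℝ) + 2) * ((m : ℝ) + 3) ^ 2)
      = 906 + 2862 * m + 3024 * m ^ 2 + 1485 * m ^ 3 + 336 * m ^ 4 + 27 * m ^ 5 := by
    unfold ups ell
    ring
  rw [h6]
  positivity

theorem second_diff (n : ℕ) (hn : 1 ≤ n) :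
    (n : ℝ) * (n + 1) * lg (n + 2) - 2 * n * (n + 2) * lg (n + 1) + (n + 1) * (n + 2) * lg n < 0 := by
  have h1 := lg_sub n
  have h2 := lg_sub (n + 1)
  have e1 : n + 1 + 1 = n + 2 := rfl
  rw [e1] at h2
  have h3 : (n : ℝ) * (n + 1) * lg (n + 2) - 2 * n * (n + 2) * lg (n + 1)
      + (n + 1) * (n + 2) * lg n
      = (n : ℝ) * (n + 1) * (Real.log (x (n + 1)) - Real.log (x n)) - 2 * W n := by
    unfold W
    linear_combination (n : ℝ) * (n + 1) * h2 - ((n : ℝ) ^ 2 + 3 * n) * h1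
  rw [h3]
  obtain ⟨m, rfl⟩ : ∃ m, n = m + 1 := ⟨n - 1, by omega⟩
  have h4 := delta_le m
  push_cast
  have e2 : m + 1 + 1 = m + 2 := rfl
  rw [e2]
  rcases m with _ | m
  · rw [W_one, zero_add, zero_add, x_one, x_two]
    have h5 : Real.log (127 / 9 : ℝ) - Real.log 9 < Real.log 3 := by
      rw [← Real.log_div (by norm_num) (by norm_num)]
      exact Real.log_lt_log (by norm_num) (by norm_num)
    norm_num
    linarith
  · have h5 : W 2 ≤ W (m + 1 + 1) := W_strictMono.monotone (by omega)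
    have h6 := W_two
    have h7 : ((m + 1 : ℕ) : ℝ) + 1 + 1 = ((m + 1 : ℕ) : ℝ) + 2 := by ring
    rw [h7]
    linarith

/-- the quotients of consecutive roots -/
noncomputable def b (n : ℕ) : ℝ :=
  S (n + 1) ^ (1 / ((n : ℝ) + 1)) / S n ^ (1 / (n : ℝ))

theorem b_eq (n : ℕ) : b n = Real.exp (lg (n + 1) / (n + 1) - lg n / n) := by
  unfold b lg
  rw [Real.rpow_def_of_pos (S_pos _), Real.rpow_def_of_pos (S_pos _), ← Real.exp_sub]
  congr 1
  ring

theorem b_anti (n : ℕ) (hn : 1 ≤ n) : b (n + 1) < b n := by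
  rw [b_eq, b_eq, Real.exp_lt_exp]
  have h := second_diff n hn
  have hn0 : (0 : ℝ) < n := by exact_mod_cast hn
  push_cast
  have e1 : n + 1 + 1 = n + 2 := rfl
  rw [e1, ← sub_neg]
  have h1 : lg (n + 2) / ((n : ℝ) + 1 + 1) - lg (n + 1) / ((n : ℝ) + 1)
      - (lg (n + 1) / ((n : ℝ) + 1) - lg n / n)
      = ((n : ℝ) * (n + 1) * lg (n + 2) - 2 * n * (n + 2) * lg (n + 1)
        + (n + 1) * (n + 2) * lg n) / (n * (n + 1) * (n + 2)) := by
    have h2 : (n : ℝ) + 1 + 1 = n + 2 := by ring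
    rw [h2]
    field_simp
    ring
  rw [h1]
  exact div_neg_of_neg_of_pos h (by positivity)

theorem b_tendsto : Tendsto b atTop (𝓝 1) := by
  have h1 : Tendsto (fun n => Real.log (x n)) atTop (𝓝 (Real.log 27)) :=
    (Real.continuousAt_log (by norm_num)).tendsto.comp x_tendsto
  have h2 := h1.cesaro
  have h3 : ∀ n : ℕ, ((n : ℝ)⁻¹) * ∑ i ∈ range n, Real.log (x i) = lg n / n := by
    intro n
    have h4 : ∑ i ∈ range n, Real.log (x i) = lg n := by
      rw [← Finset.sum_congr rfl (fun i _ => lg_sub i), Finset.sum_range_sub, lg_zero, sub_zero]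
    rw [h4]
    ring
  simp only [h3] at h2
  have h5 : Tendsto (fun n : ℕ => lg (n + 1) / ((n : ℝ) + 1)) atTop (𝓝 (Real.log 27)) := by
    have := h2.comp (tendsto_add_atTop_nat 1)
    refine this.congr (fun n => ?_)
    simp only [Function.comp_apply]
    push_cast
    rfl
  have h6 := (h5.sub h2)
  rw [sub_self] at h6
  have h7 := (Real.continuous_exp.tendsto 0).comp h6
  rw [Real.exp_zero] at h7
  refine h7.congr (fun n => ?_)
  rw [Function.comp_apply, b_eq]

/-! ### the double sum -/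

/-- the sum of the cubes of the trinomial coefficients -/
def T (n : ℕ) : ℕ := ∑ i ∈ range (n + 1), ∑ j ∈ range (n + 1 - i),
  (n.factorial / (i.factorial * j.factorial * (n - i - j).factorial)) ^ 3

theorem T_eq (n : ℕ) : ((T n : ℕ) : ℝ) = S n := by
  unfold T
  rw [← Finset.sum_range_diag_flip (n + 1)
    (fun i j => (n.factorial / (i.factorial * j.factorial * (n - i - j).factorial)) ^ 3)]
  unfold S f
  push_cast
  refine Finset.sum_congr rfl (fun k hk => ?_)
  rw [Finset.mul_sum]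
  refine Finset.sum_congr rfl (fun j hj => ?_)
  have hkn : k ≤ n := Nat.lt_succ_iff.1 (Finset.mem_range.1 hk)
  have hjk : j ≤ k := Nat.lt_succ_iff.1 (Finset.mem_range.1 hj)
  have h1 : n.factorial / (j.factorial * (k - j).factorial * (n - j - (k - j)).factorial)
      = n.choose k * k.choose j := by
    have h2 : n - j - (k - j) = n - k := by omega
    rw [h2]
    apply Nat.div_eq_of_eq_mul_left (by positivity)
    have h3 := Nat.choose_mul_factorial_mul_factorial hkn
    have h4 := Nat.choose_mul_factorial_mul_factorial hjk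
    calc n.factorial = n.choose k * k.factorial * (n - k).factorial := h3.symm
      _ = n.choose k * (k.choose j * j.factorial * (k - j).factorial) * (n - k).factorial := by
        rw [h4]
      _ = _ := by ring
  unfold C
  rw [← mul_pow, ← Nat.cast_mul, ← h1]

end Pool.Agent.Q46.Fr
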