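import Mathlib

/-!
# Counting injective tuples: factorial moments of the number of edges on a random cycle
-/

namespace Pool.Agent.Q46.Frus

open Finset

/-- Summing a function of the restriction of an embedding. -/
theorem sum_emb {J K V : Type*} [Fintype J] [DecidableEq J] [Fintype K] [DecidableEq K]
    [Fintype V] [DecidableEq V] (p : J ↪ K) (g : (J ↪ V) → ℤ) :
    ∑ f : K ↪ V, g (p.trans f) = (∑ a : J ↪ V, g a) *
      ((Fintype.card V - Fintype.card J).descFactorial (Fintype.card K - Fintype.card J) : ℕ) := by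
  classical
  let e : J ⊕ {x : K // x ∉ Set.range p} ≃ K :=
    (Equiv.sumCongr (Equiv.ofInjective p p.injective) (Equiv.refl _)).trans
      (Equiv.Set.sumCompl (Set.range p))
  have he : ∀ j, e (Sum.inl j) = p j := fun j => rfl
  let E : (K ↪ V) ≃ Σ a : J ↪ V, {x : K // x ∉ Set.range p} ↪ ↥(Set.range a)ᶜ :=
    (Equiv.embeddingCongr e.symm (Equiv.refl V)).trans
      Equiv.sumEmbeddingEquivSigmaEmbeddingRestricted
  have hE : ∀ f : K ↪ V, (E f).1 = p.trans f := by
    intro f
    ext j
    change f (e (Sum.inl j)) = f (p j)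
    rw [he]
  have h1 : ∑ f : K ↪ V, g (p.trans f) =
      ∑ x : (Σ a : J ↪ V, {x : K // x ∉ Set.range p} ↪ ↥(Set.range a)ᶜ), g x.1 := by
    rw [← Equiv.sum_comp E]
    apply Finset.sum_congr rfl
    intro f _
    rw [hE]
  rw [h1, Fintype.sum_sigma, Finset.sum_mul]
  apply Finset.sum_congr rfl
  intro a _
  change ∑ _y : ({x : K // x ∉ Set.range p} ↪ ↥(Set.range a)ᶜ), g a = _
  rw [Finset.sum_const, Finset.card_univ, Fintype.card_embedding_eq, nsmul_eq_mul, mul_comm]
  have c1 : Fintype.card ↥(Set.range a)ᶜ = Fintype.card V - Fintype.card J := by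
    rw [Fintype.card_compl_set, Set.card_range_of_injective a.injective]
  have c2 : Fintype.card {x : K // x ∉ Set.range p} = Fintype.card K - Fintype.card J := by
    have h2 := Fintype.card_compl_set (Set.range p)
    rw [Set.card_range_of_injective p.injective] at h2
    rw [← h2]
    exact Fintype.card_congr (Equiv.refl _)
  rw [c1, c2]

variable {V : Type*} [Fintype V] [DecidableEq V]

/-- sums over ordered pairs, triples, quadruples of distinct points -/
noncomputable def M1 (A : V → V → ℤ) : ℤ := ∑ a : Fin 2 ↪ V, A (a 0) (a 1)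

noncomputable def M2 (A : V → V → ℤ) : ℤ := ∑ a : Fin 3 ↪ V, A (a 0) (a 1) * A (a 1) (a 2)

noncomputable def M3 (A : V → V → ℤ) : ℤ := ∑ a : Fin 4 ↪ V, A (a 0) (a 1) * A (a 2) (a 3)

/-- the number of cyclically consecutive pairs of `f` in `A` -/
noncomputable def nu (A : V → V → ℤ) {m : ℕ} (f : Fin (m + 3) ↪ V) : ℤ :=
  ∑ i, A (f i) (f (i + 1))

theorem fin_succ_ne {m : ℕ} (i : Fin (m + 3)) : i ≠ i + 1 := by
  intro h
  have : (1 : Fin (m + 3)) = 0 := by
    have := congrArg (fun x => x - i) h
    simpa using this.symm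
  simp at this

theorem fin_succ2_ne {m : ℕ} (i : Fin (m + 3)) : i ≠ i + 1 + 1 := by
  intro h
  have h2 : (1 : Fin (m + 3)) + 1 = 0 := by
    have := congrArg (fun x => x - i) h
    simp only [sub_self] at this
    rw [this, add_assoc, add_sub_cancel_left]
  have h3 := congrArg Fin.val h2
  simp [Fin.val_add] at h3
  rw [Nat.mod_eq_of_lt (by omega)] at h3
  omega

theorem mom_pair (A : V → V → ℤ) (m : ℕ) (i : Fin (m + 3)) :
    ∑ f : Fin (m + 3) ↪ V, A (f i) (f (i + 1)) =
      M1 A * ((Fintype.card V - 2).descFactorial (m + 1) : ℕ) := by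
  have h := sum_emb (V := V) (J := Fin 2) (K := Fin (m + 3))
    ⟨![i, i + 1], by
      intro a b hab
      fin_cases a <;> fin_cases b <;> simp at hab ⊢⟩
    (fun a => A (a 0) (a 1))
  rw [Fintype.card_fin, Fintype.card_fin] at h
  exact h

theorem mom_adj (A : V → V → ℤ) (m : ℕ) (i : Fin (m + 3)) :
    ∑ f : Fin (m + 3) ↪ V, A (f i) (f (i + 1)) * A (f (i + 1)) (f (i + 1 + 1)) =
      M2 A * ((Fintype.card V - 3).descFactorial m : ℕ) := by
  have h1 := fin_succ_ne i
  have h2 := fin_succ2_ne i
  have h3 := fin_succ_ne (i + 1)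
  have h := sum_emb (V := V) (J := Fin 3) (K := Fin (m + 3))
    ⟨![i, i + 1, i + 1 + 1], by
      intro a b hab
      fin_cases a <;> fin_cases b <;> simp_all⟩
    (fun a => A (a 0) (a 1) * A (a 1) (a 2))
  rw [Fintype.card_fin, Fintype.card_fin] at h
  exact h

theorem mom_far (A : V → V → ℤ) (m : ℕ) (i j : Fin (m + 3)) (h1 : j ≠ i) (h2 : j ≠ i + 1)
    (h3 : i ≠ j + 1) :
    ∑ f : Fin (m + 3) ↪ V, A (f i) (f (i + 1)) * A (f j) (f (j + 1)) =
      M3 A * ((Fintype.card V - 4).descFactorial (m - 1) : ℕ) := by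
  have h4 := fin_succ_ne i
  have h5 := fin_succ_ne j
  have h6 : i + 1 ≠ j + 1 := fun h => h1 (add_right_cancel h).symm
  have h := sum_emb (V := V) (J := Fin 4) (K := Fin (m + 3))
    ⟨![i, i + 1, j, j + 1], by
      intro a b hab
      fin_cases a <;> fin_cases b <;> simp_all [eq_comm]⟩
    (fun a => A (a 0) (a 1) * A (a 2) (a 3))
  rw [Fintype.card_fin, Fintype.card_fin] at h
  exact h

/-- first moment -/
theorem sum_nu (A : V → V → ℤ) (m : ℕ) :
    ∑ f : Fin (m + 3) ↪ V, nu A f =
      (m + 3) * (M1 A * ((Fintype.card V - 2).descFactorial (m + 1) : ℕ)) := by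
  unfold nu
  rw [Finset.sum_comm, Finset.sum_congr rfl (fun i _ => mom_pair A m i), Finset.sum_const,
    Finset.card_univ, Fintype.card_fin, nsmul_eq_mul]
  push_cast
  ring

/-- second moment, for symmetric indicator functions -/
theorem sum_nu_sq (A : V → V → ℤ) (hidem : ∀ u v, A u v * A u v = A u v) (m : ℕ) :
    ∑ f : Fin (m + 3) ↪ V, nu A f * nu A f =
      (m + 3) * (M1 A * ((Fintype.card V - 2).descFactorial (m + 1) : ℕ)) +
      2 * (m + 3) * (M2 A * ((Fintype.card V - 3).descFactorial m : ℕ)) +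
      (m + 3) * m * (M3 A * ((Fintype.card V - 4).descFactorial (m - 1) : ℕ)) := by
  classical
  have hexp : ∀ f : Fin (m + 3) ↪ V, nu A f * nu A f =
      ∑ i, ∑ j, A (f i) (f (i + 1)) * A (f j) (f (j + 1)) := by
    intro f
    unfold nu
    rw [Finset.sum_mul_sum]
  rw [Finset.sum_congr rfl (fun f _ => hexp f), Finset.sum_comm]
  have hrow : ∀ i : Fin (m + 3), ∑ f : Fin (m + 3) ↪ V, ∑ j,
      A (f i) (f (i + 1)) * A (f j) (f (j + 1)) =
      M1 A * ((Fintype.card V - 2).descFactorial (m + 1) : ℕ) +
      2 * (M2 A * ((Fintype.card V - 3).descFactorial m : ℕ)) +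
      m * (M3 A * ((Fintype.card V - 4).descFactorial (m - 1) : ℕ)) := by
    intro i
    rw [Finset.sum_comm]
    have hT : ∀ j ∈ (Finset.univ : Finset (Fin (m + 3))),
        ∑ f : Fin (m + 3) ↪ V, A (f i) (f (i + 1)) * A (f j) (f (j + 1)) =
        (if j = i then M1 A * ((Fintype.card V - 2).descFactorial (m + 1) : ℕ) else
        if j = i + 1 then M2 A * ((Fintype.card V - 3).descFactorial m : ℕ) else
        if j = i - 1 then M2 A * ((Fintype.card V - 3).descFactorial m : ℕ) else
          M3 A * ((Fintype.card V - 4).descFactorial (m - 1) : ℕ)) := by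
      intro j _
      split_ifs with g1 g2 g3
      · subst g1
        rw [← mom_pair A m j]
        apply Finset.sum_congr rfl
        intro f _
        exact hidem _ _
      · subst g2
        exact mom_adj A m i
      · have : i = j + 1 := by rw [g3, sub_add_cancel]
        rw [this, ← mom_adj A m j]
        apply Finset.sum_congr rfl
        intro f _
        ring
      · apply mom_far A m i j g1 g2
        intro h
        apply g3
        rw [h, add_sub_cancel_right]
    rw [Finset.sum_congr rfl hT]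
    have h1 := fin_succ_ne i
    have h2 : i - 1 ≠ i := by
      intro h
      apply fin_succ_ne (i - 1)
      rw [sub_add_cancel]
      exact h
    have h3 : i - 1 ≠ i + 1 := by
      intro h
      apply fin_succ2_ne (i - 1)
      rw [sub_add_cancel]
      exact h
    set c1 := M1 A * ((Fintype.card V - 2).descFactorial (m + 1) : ℕ) with hc1
    set c2 := M2 A * ((Fintype.card V - 3).descFactorial m : ℕ) with hc2
    set c3 := M3 A * ((Fintype.card V - 4).descFactorial (m - 1) : ℕ) with hc3
    have hS : ∀ j ∈ (Finset.univ : Finset (Fin (m + 3))),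
        (if j = i then c1 else if j = i + 1 then c2 else if j = i - 1 then c2 else c3) =
        c3 + (if j = i then c1 - c3 else 0) + (if j = i + 1 then c2 - c3 else 0) +
          (if j = i - 1 then c2 - c3 else 0) := by
      intro j _
      by_cases g1 : j = i
      · subst g1
        rw [if_pos rfl, if_pos rfl, if_neg h1, if_neg h2.symm]
        ring
      · by_cases g2 : j = i + 1
        · subst g2
          rw [if_neg h1.symm, if_pos rfl, if_neg h1.symm, if_pos rfl, if_neg h3.symm]
          ring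
        · by_cases g3 : j = i - 1
          · subst g3
            rw [if_neg h2, if_neg h3, if_pos rfl, if_neg h2, if_neg h3, if_pos rfl]
            ring
          · rw [if_neg g1, if_neg g2, if_neg g3, if_neg g1, if_neg g2, if_neg g3]
            ring
    rw [Finset.sum_congr rfl hS, Finset.sum_add_distrib, Finset.sum_add_distrib,
      Finset.sum_add_distrib, Finset.sum_ite_eq' Finset.univ i, Finset.sum_ite_eq' Finset.univ (i + 1),
      Finset.sum_ite_eq' Finset.univ (i - 1), if_pos (Finset.mem_univ _),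
      if_pos (Finset.mem_univ _), if_pos (Finset.mem_univ _), Finset.sum_const,
      Finset.card_univ, Fintype.card_fin, nsmul_eq_mul]
    push_cast
    ring
  rw [Finset.sum_congr rfl (fun i _ => hrow i), Finset.sum_const, Finset.card_univ,
    Fintype.card_fin, nsmul_eq_mul]
  push_cast
  ring

/-- lower bound for the number of tuples with an odd number of marked consecutive pairs -/
theorem odd_lower (A : V → V → ℤ) (hidem : ∀ u v, A u v * A u v = A u v) (m : ℕ)
    (P : (Fin (m + 3) ↪ V) → Prop) [DecidablePred P]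
    (hP : ∀ f, nu A f * (2 - nu A f) ≤ if P f then 1 else 0) :
    (m + 3) * (M1 A * ((Fintype.card V - 2).descFactorial (m + 1) : ℕ)) -
      2 * (m + 3) * (M2 A * ((Fintype.card V - 3).descFactorial m : ℕ)) -
      (m + 3) * m * (M3 A * ((Fintype.card V - 4).descFactorial (m - 1) : ℕ)) ≤
      ((Finset.univ.filter P).card : ℤ) := by
  have h1 := sum_nu A m
  have h2 := sum_nu_sq A hidem m
  have h3 : ∑ f : Fin (m + 3) ↪ V, nu A f * (2 - nu A f) ≤
      ((Finset.univ.filter P).card : ℤ) := by
    rw [Finset.card_filter]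
    push_cast
    exact Finset.sum_le_sum (fun f _ => hP f)
  have h4 : ∑ f : Fin (m + 3) ↪ V, nu A f * (2 - nu A f) =
      2 * ∑ f : Fin (m + 3) ↪ V, nu A f - ∑ f : Fin (m + 3) ↪ V, nu A f * nu A f := by
    rw [Finset.mul_sum, ← Finset.sum_sub_distrib]
    apply Finset.sum_congr rfl
    intro f _
    ring
  rw [h4, h1, h2] at h3
  linarith

theorem odd_eq (A : V → V → ℤ) (hidem : ∀ u v, A u v * A u v = A u v) (m : ℕ)
    (P : (Fin (m + 3) ↪ V) → Prop) [DecidablePred P]
    (hP : ∀ f, nu A f * (2 - nu A f) = if P f then 1 else 0) :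
    (m + 3) * (M1 A * ((Fintype.card V - 2).descFactorial (m + 1) : ℕ)) -
      2 * (m + 3) * (M2 A * ((Fintype.card V - 3).descFactorial m : ℕ)) -
      (m + 3) * m * (M3 A * ((Fintype.card V - 4).descFactorial (m - 1) : ℕ)) =
      ((Finset.univ.filter P).card : ℤ) := by
  have h1 := sum_nu A m
  have h2 := sum_nu_sq A hidem m
  have h3 : ∑ f : Fin (m + 3) ↪ V, nu A f * (2 - nu A f) =
      ((Finset.univ.filter P).card : ℤ) := by
    rw [Finset.card_filter]
    push_cast
    exact Finset.sum_congr rfl (fun f _ => hP f)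
  have h4 : ∑ f : Fin (m + 3) ↪ V, nu A f * (2 - nu A f) =
      2 * ∑ f : Fin (m + 3) ↪ V, nu A f - ∑ f : Fin (m + 3) ↪ V, nu A f * nu A f := by
    rw [Finset.mul_sum, ← Finset.sum_sub_distrib]
    apply Finset.sum_congr rfl
    intro f _
    ring
  rw [h4, h1, h2] at h3
  linarith

end Pool.Agent.Q46.Frus
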