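import Pool.Agent.Q46.FrusA

/-!
# The moments in terms of degrees
-/

namespace Pool.Agent.Q46.Frus

open Finset

variable {V : Type*} [Fintype V] [DecidableEq V]

theorem emb2 (G : V → V → ℤ) :
    ∑ a : Fin 2 ↪ V, G (a 0) (a 1) = ∑ u, ∑ v, if u ≠ v then G u v else 0 := by
  have h : ∑ a : Fin 2 ↪ V, G (a 0) (a 1) =
      ∑ p ∈ (Finset.univ : Finset (V × V)).filter (fun p => p.1 ≠ p.2), G p.1 p.2 := by
    refine Finset.sum_bij' (i := fun a _ => (a 0, a 1))
      (j := fun p hp => (⟨![p.1, p.2], by
        rw [Finset.mem_filter] at hp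
        intro a b hab
        fin_cases a <;> fin_cases b <;> simp_all [eq_comm]⟩ : Fin 2 ↪ V)) ?_ ?_ ?_ ?_ ?_
    · intro a _
      simp only [Finset.mem_filter, Finset.mem_univ, true_and]
      intro h
      have := a.injective h
      simp at this
    · intro p hp
      exact Finset.mem_univ _
    · intro a _
      ext i
      fin_cases i <;> rfl
    · intro p hp
      rfl
    · intro a _
      rfl
  rw [h, Finset.sum_filter, Fintype.sum_prod_type]

theorem emb3 (G : V → V → V → ℤ) :
    ∑ a : Fin 3 ↪ V, G (a 0) (a 1) (a 2) =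
      ∑ u, ∑ v, ∑ w, if u ≠ v ∧ v ≠ w ∧ u ≠ w then G u v w else 0 := by
  have h : ∑ a : Fin 3 ↪ V, G (a 0) (a 1) (a 2) =
      ∑ p ∈ (Finset.univ : Finset (V × V × V)).filter
        (fun p => p.1 ≠ p.2.1 ∧ p.2.1 ≠ p.2.2 ∧ p.1 ≠ p.2.2), G p.1 p.2.1 p.2.2 := by
    refine Finset.sum_bij' (i := fun a _ => (a 0, a 1, a 2))
      (j := fun p hp => (⟨![p.1, p.2.1, p.2.2], by
        rw [Finset.mem_filter] at hp
        intro a b hab
        fin_cases a <;> fin_cases b <;> simp_all [eq_comm]⟩ : Fin 3 ↪ V)) ?_ ?_ ?_ ?_ ?_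
    · intro a _
      simp only [Finset.mem_filter, Finset.mem_univ, true_and]
      refine ⟨?_, ?_, ?_⟩ <;>
      · intro h
        have := a.injective h
        simp at this
    · intro p hp
      exact Finset.mem_univ _
    · intro a _
      ext i
      fin_cases i <;> rfl
    · intro p hp
      rfl
    · intro a _
      rfl
  rw [h, Finset.sum_filter, Fintype.sum_prod_type]
  apply Finset.sum_congr rfl
  intro u _
  rw [Fintype.sum_prod_type]

theorem emb4 (G : V → V → V → V → ℤ) :
    ∑ a : Fin 4 ↪ V, G (a 0) (a 1) (a 2) (a 3) =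
      ∑ u, ∑ v, ∑ x, ∑ y, if (u ≠ v ∧ x ≠ y) ∧ (x ≠ u ∧ x ≠ v) ∧ (y ≠ u ∧ y ≠ v)
        then G u v x y else 0 := by
  have h : ∑ a : Fin 4 ↪ V, G (a 0) (a 1) (a 2) (a 3) =
      ∑ p ∈ (Finset.univ : Finset (V × V × V × V)).filter
        (fun p => (p.1 ≠ p.2.1 ∧ p.2.2.1 ≠ p.2.2.2) ∧ (p.2.2.1 ≠ p.1 ∧ p.2.2.1 ≠ p.2.1) ∧
          (p.2.2.2 ≠ p.1 ∧ p.2.2.2 ≠ p.2.1)), G p.1 p.2.1 p.2.2.1 p.2.2.2 := by
    refine Finset.sum_bij' (i := fun a _ => (a 0, a 1, a 2, a 3))
      (j := fun p hp => (⟨![p.1, p.2.1, p.2.2.1, p.2.2.2], by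
        rw [Finset.mem_filter] at hp
        obtain ⟨-, ⟨h1, h2⟩, ⟨h3, h4⟩, h5, h6⟩ := hp
        intro a b hab
        fin_cases a <;> fin_cases b <;> simp at hab ⊢ <;>
          first
          | exact h1 hab
          | exact h1 hab.symm
          | exact h2 hab
          | exact h2 hab.symm
          | exact h3 hab
          | exact h3 hab.symm
          | exact h4 hab
          | exact h4 hab.symm
          | exact h5 hab
          | exact h5 hab.symm
          | exact h6 hab
          | exact h6 hab.symm⟩ : Fin 4 ↪ V)) ?_ ?_ ?_ ?_ ?_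
    · intro a _
      simp only [Finset.mem_filter, Finset.mem_univ, true_and]
      refine ⟨⟨?_, ?_⟩, ⟨?_, ?_⟩, ?_, ?_⟩ <;>
      · intro h
        have := a.injective h
        simp at this
    · intro p hp
      exact Finset.mem_univ _
    · intro a _
      ext i
      fin_cases i <;> rfl
    · intro p hp
      rfl
    · intro a _
      rfl
  rw [h, Finset.sum_filter, Fintype.sum_prod_type]
  apply Finset.sum_congr rfl
  intro u _
  rw [Fintype.sum_prod_type]
  apply Finset.sum_congr rfl
  intro v _
  rw [Fintype.sum_prod_type]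

/-- indicator functions of graphs -/
structure IsInd (A : V → V → ℤ) : Prop where
  symm : ∀ u v, A u v = A v u
  diag : ∀ u, A u u = 0
  val : ∀ u v, A u v = 0 ∨ A u v = 1

omit [Fintype V] [DecidableEq V] in
theorem IsInd.idem {A : V → V → ℤ} (h : IsInd A) (u v : V) : A u v * A u v = A u v := by
  rcases h.val u v with h | h <;> rw [h] <;> norm_num

omit [Fintype V] [DecidableEq V] in
theorem IsInd.nonneg {A : V → V → ℤ} (h : IsInd A) (u v : V) : 0 ≤ A u v := by
  rcases h.val u v with h | h <;> rw [h]; norm_num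

omit [Fintype V] [DecidableEq V] in
theorem IsInd.le_one {A : V → V → ℤ} (h : IsInd A) (u v : V) : A u v ≤ 1 := by
  rcases h.val u v with h | h <;> rw [h]; norm_num

/-- degree -/
noncomputable def deg (A : V → V → ℤ) (v : V) : ℤ := ∑ u, A v u

/-- sum of degrees -/
noncomputable def S1 (A : V → V → ℤ) : ℤ := ∑ v, deg A v

/-- sum of squares of degrees -/
noncomputable def S2 (A : V → V → ℤ) : ℤ := ∑ v, deg A v * deg A v

theorem M1_eq {A : V → V → ℤ} (h : IsInd A) : M1 A = S1 A := by
  unfold M1 S1 deg
  rw [emb2 (fun u v => A u v)]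
  apply Finset.sum_congr rfl
  intro u _
  apply Finset.sum_congr rfl
  intro v _
  split_ifs with g
  · rfl
  · have : u = v := not_not.mp g
    rw [this, h.diag]

theorem M2_eq {A : V → V → ℤ} (h : IsInd A) : M2 A = S2 A - S1 A := by
  unfold M2 S1 S2
  rw [emb3 (fun u v w => A u v * A v w), Finset.sum_comm, ← Finset.sum_sub_distrib]
  apply Finset.sum_congr rfl
  intro v _
  unfold deg
  rw [Finset.sum_mul_sum, ← Finset.sum_sub_distrib]
  apply Finset.sum_congr rfl
  intro u _
  have h1 : ∀ w, (if u ≠ v ∧ v ≠ w ∧ u ≠ w then A u v * A v w else 0) =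
      A v u * A v w - (if w = u then A v u else 0) := by
    intro w
    by_cases g1 : u = v
    · subst g1
      rw [if_neg (by simp)]
      rw [h.diag]
      simp
    · by_cases g2 : v = w
      · subst g2
        rw [if_neg (by simp), h.diag, if_neg (fun h => g1 h.symm)]
        simp
      · by_cases g3 : u = w
        · subst g3
          rw [if_neg (by simp), if_pos rfl, h.idem]
          ring
        · rw [if_pos ⟨g1, g2, g3⟩, if_neg (fun h => g3 h.symm), h.symm u v]
          ring
  rw [Finset.sum_congr rfl (fun w _ => h1 w), Finset.sum_sub_distrib,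
    Finset.sum_ite_eq' Finset.univ u, if_pos (Finset.mem_univ _)]

theorem M3_eq {A : V → V → ℤ} (h : IsInd A) :
    M3 A = S1 A * S1 A - 4 * S2 A + 2 * S1 A := by
  have hdelta : ∀ u v x : V, u ≠ v → (if x ≠ u ∧ x ≠ v then (1 : ℤ) else 0) =
      1 - (if x = u then 1 else 0) - (if x = v then 1 else 0) := by
    intro u v x huv
    by_cases g1 : x = u
    · subst g1
      simp [huv]
    · by_cases g2 : x = v
      · subst g2
        simp [g1]
      · simp [g1, g2]
  unfold M3
  rw [emb4 (fun u v x y => A u v * A x y)]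
  have hin : ∀ u v, (∑ x, ∑ y, if (u ≠ v ∧ x ≠ y) ∧ (x ≠ u ∧ x ≠ v) ∧ (y ≠ u ∧ y ≠ v)
        then A u v * A x y else 0) =
      A u v * (S1 A - 2 * deg A u - 2 * deg A v + 2) := by
    intro u v
    by_cases huv : u = v
    · subst huv
      rw [h.diag]
      simp
    · rcases h.val u v with h0 | h1
      · rw [h0]
        simp
      · have hterm : ∀ x y, (if (u ≠ v ∧ x ≠ y) ∧ (x ≠ u ∧ x ≠ v) ∧ (y ≠ u ∧ y ≠ v)
            then A u v * A x y else 0) =
            (if x ≠ u ∧ x ≠ v then (1 : ℤ) else 0) * ((if y ≠ u ∧ y ≠ v then (1 : ℤ) else 0)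
              * A x y) := by
          intro x y
          rw [h1]
          by_cases g0 : x = y
          · subst g0
            rw [if_neg (by simp), h.diag]
            ring
          · by_cases g1 : x ≠ u ∧ x ≠ v
            · by_cases g2 : y ≠ u ∧ y ≠ v
              · rw [if_pos ⟨⟨huv, g0⟩, g1, g2⟩, if_pos g1, if_pos g2]
                ring
              · rw [if_neg (fun h => g2 h.2.2), if_neg g2]
                ring
            · rw [if_neg (fun h => g1 h.2.1), if_neg g1]
              ring
        have hrow : ∀ x, (∑ y, (if y ≠ u ∧ y ≠ v then (1 : ℤ) else 0) * A x y) =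
            deg A x - A x u - A x v := by
          intro x
          rw [Finset.sum_congr rfl (fun y _ => by rw [hdelta u v y huv])]
          simp only [sub_mul, one_mul, ite_mul, zero_mul, Finset.sum_sub_distrib]
          rw [Finset.sum_ite_eq' Finset.univ u, Finset.sum_ite_eq' Finset.univ v,
            if_pos (Finset.mem_univ _), if_pos (Finset.mem_univ _)]
          rfl
        calc (∑ x, ∑ y, if (u ≠ v ∧ x ≠ y) ∧ (x ≠ u ∧ x ≠ v) ∧ (y ≠ u ∧ y ≠ v)
              then A u v * A x y else 0)
            = ∑ x, (if x ≠ u ∧ x ≠ v then (1 : ℤ) else 0) * (deg A x - A x u - A x v) := by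
              apply Finset.sum_congr rfl
              intro x _
              rw [← hrow x, Finset.mul_sum]
              apply Finset.sum_congr rfl
              intro y _
              exact hterm x y
          _ = ∑ x, ((deg A x - A x u - A x v) - (if x = u then (deg A x - A x u - A x v) else 0)
                - (if x = v then (deg A x - A x u - A x v) else 0)) := by
              apply Finset.sum_congr rfl
              intro x _
              rw [hdelta u v x huv]
              split_ifs <;> ring
          _ = A u v * (S1 A - 2 * deg A u - 2 * deg A v + 2) := by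
              rw [Finset.sum_sub_distrib, Finset.sum_sub_distrib, Finset.sum_ite_eq' Finset.univ u,
                Finset.sum_ite_eq' Finset.univ v, if_pos (Finset.mem_univ _),
                if_pos (Finset.mem_univ _), Finset.sum_sub_distrib, Finset.sum_sub_distrib,
                h.diag, h.diag, h.symm v u, h1]
              have e1 : ∑ x, A x u = deg A u := by
                unfold deg
                exact Finset.sum_congr rfl (fun x _ => h.symm x u)
              have e2 : ∑ x, A x v = deg A v := by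
                unfold deg
                exact Finset.sum_congr rfl (fun x _ => h.symm x v)
              rw [e1, e2]
              unfold S1
              ring
  rw [Finset.sum_congr rfl (fun u _ => Finset.sum_congr rfl (fun v _ => hin u v))]
  have e3 : ∀ u, ∑ v, A u v * (S1 A - 2 * deg A u - 2 * deg A v + 2) =
      deg A u * (S1 A - 2 * deg A u + 2) - 2 * ∑ v, A u v * deg A v := by
    intro u
    have e0 : deg A u * (S1 A - 2 * deg A u + 2) =
        ∑ v, A u v * (S1 A - 2 * deg A u + 2) := by
      rw [← Finset.sum_mul]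
      rfl
    rw [e0, Finset.mul_sum, ← Finset.sum_sub_distrib]
    apply Finset.sum_congr rfl
    intro v _
    ring
  rw [Finset.sum_congr rfl (fun u _ => e3 u), Finset.sum_sub_distrib, ← Finset.mul_sum,
    Finset.sum_comm (f := fun u v => A u v * deg A v)]
  have e4 : ∀ v, ∑ u, A u v * deg A v = deg A v * deg A v := by
    intro v
    rw [← Finset.sum_mul]
    congr 1
    unfold deg
    exact Finset.sum_congr rfl (fun x _ => h.symm x v)
  rw [Finset.sum_congr rfl (fun v _ => e4 v)]
  have e5 : ∑ u, deg A u * (S1 A - 2 * deg A u + 2) =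
      S1 A * S1 A - 2 * S2 A + 2 * S1 A := by
    have : ∀ u, deg A u * (S1 A - 2 * deg A u + 2) =
        S1 A * deg A u - 2 * (deg A u * deg A u) + 2 * deg A u := by
      intro u; ring
    rw [Finset.sum_congr rfl (fun u _ => this u), Finset.sum_add_distrib, Finset.sum_sub_distrib,
      ← Finset.mul_sum, ← Finset.mul_sum, ← Finset.mul_sum]
    rfl
  rw [e5]
  change S1 A * S1 A - 2 * S2 A + 2 * S1 A - 2 * S2 A = _
  ring

theorem M3_nonneg {A : V → V → ℤ} (h : IsInd A) : 0 ≤ M3 A :=
  Finset.sum_nonneg (fun _ _ => mul_nonneg (h.nonneg _ _) (h.nonneg _ _))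

theorem deg_nonneg {A : V → V → ℤ} (h : IsInd A) (v : V) : 0 ≤ deg A v :=
  Finset.sum_nonneg (fun _ _ => h.nonneg _ _)

theorem deg_le_S1 {A : V → V → ℤ} (h : IsInd A) (v : V) : deg A v ≤ S1 A :=
  Finset.single_le_sum (f := fun v => deg A v) (fun v _ => deg_nonneg h v) (Finset.mem_univ v)

theorem S1_nonneg {A : V → V → ℤ} (h : IsInd A) : 0 ≤ S1 A :=
  Finset.sum_nonneg (fun v _ => deg_nonneg h v)

theorem S2_le_sq {A : V → V → ℤ} (h : IsInd A) : S2 A ≤ S1 A * S1 A := by
  unfold S2
  calc ∑ v, deg A v * deg A v ≤ ∑ v, S1 A * deg A v :=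
        Finset.sum_le_sum (fun v _ => mul_le_mul_of_nonneg_right (deg_le_S1 h v) (deg_nonneg h v))
    _ = S1 A * S1 A := by rw [← Finset.mul_sum]; rfl

end Pool.Agent.Q46.Frus
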