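import Pool.Agent.Q46.FrusB

/-!
# Frustrated cycles: definitions, switching, the star
-/

namespace Pool.Agent.Q46.Frus

open Finset

section defs

variable {V : Type*}

open Classical in
/-- The number of frustrated `k`-cycles of `G`, counted as sequences of `k` distinct vertices:
an odd number of the `k` cyclically consecutive pairs are edges. -/
noncomputable def frustrated [Fintype V] (k : ℕ) (G : SimpleGraph V) : ℕ :=
  ((Finset.univ : Finset (Fin k ↪ V)).filter
    (fun f => Odd ((Finset.univ : Finset (Fin k)).filter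
      (fun i => G.Adj (f i) (f (finRotate k i)))).card)).card

/-- The star with `s` leaves on the vertex set `Fin n`: the centre is `0` and the leaves are
`1, ..., s`; the remaining vertices are isolated. -/
def star (n s : ℕ) : SimpleGraph (Fin n) where
  Adj u v := (u.val = 0 ∧ v.val ≠ 0 ∧ v.val ≤ s) ∨ (v.val = 0 ∧ u.val ≠ 0 ∧ u.val ≤ s)
  symm := ⟨fun u v h => by tauto⟩
  loopless := ⟨fun u h => by rcases h with h | h <;> exact h.2.1 h.1⟩

/-- The complete bipartite graph with parts `A` and its complement. -/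
def bip (A : Set V) : SimpleGraph V where
  Adj u v := (u ∈ A ∧ v ∉ A) ∨ (v ∈ A ∧ u ∉ A)
  symm := ⟨fun u v h => by tauto⟩
  loopless := ⟨fun u h => by rcases h with h | h <;> exact h.2 h.1⟩

open Classical in
/-- The number of pairs `{u, v}` of distinct vertices in whose adjacency `G` and `H` differ. -/
noncomputable def diffPairs {n : ℕ} (G H : SimpleGraph (Fin n)) : ℕ :=
  ((Finset.univ : Finset (Fin n × Fin n)).filter
    (fun p => p.1 < p.2 ∧ ¬ (G.Adj p.1 p.2 ↔ H.Adj p.1 p.2))).card

/-- symmetric difference with a complete bipartite graph -/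
def sw (G : SimpleGraph V) (A : Set V) : SimpleGraph V where
  Adj u v := u ≠ v ∧ ¬ (G.Adj u v ↔ (bip A).Adj u v)
  symm := ⟨fun u v h => ⟨h.1.symm, by rw [G.adj_comm, (bip A).adj_comm]; exact h.2⟩⟩
  loopless := ⟨fun u h => h.1 rfl⟩

open Classical in
/-- indicator of adjacency -/
noncomputable def ind (G : SimpleGraph V) (u v : V) : ℤ := if G.Adj u v then 1 else 0

theorem ind_isInd (G : SimpleGraph V) : IsInd (ind G) := by
  classical
  refine ⟨fun u v => ?_, fun u => ?_, fun u v => ?_⟩
  · unfold ind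
    rw [G.adj_comm]
  · unfold ind
    rw [if_neg (G.loopless.irrefl u)]
  · unfold ind
    split_ifs
    · exact Or.inr rfl
    · exact Or.inl rfl

end defs

variable {V : Type*} [Fintype V] [DecidableEq V]

open Classical in
/-- number of consecutive edges -/
noncomputable def cnt {m : ℕ} (G : SimpleGraph V) (f : Fin (m + 3) ↪ V) : ℕ :=
  ((Finset.univ : Finset (Fin (m + 3))).filter (fun i => G.Adj (f i) (f (i + 1)))).card

omit [Fintype V] [DecidableEq V] in
theorem nu_eq {m : ℕ} (G : SimpleGraph V) (f : Fin (m + 3) ↪ V) :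
    nu (ind G) f = (cnt G f : ℤ) := by
  classical
  unfold nu cnt ind
  rw [Finset.card_filter]
  push_cast
  rfl

open Classical in
omit [DecidableEq V] in
theorem frustrated_eq (m : ℕ) (G : SimpleGraph V) :
    frustrated (m + 3) G =
      ((Finset.univ : Finset (Fin (m + 3) ↪ V)).filter (fun f => Odd (cnt G f))).card := by
  unfold frustrated cnt
  congr 1
  apply Finset.filter_congr
  intro f _
  simp only [finRotate_apply]

/-- the basic lower bound -/
theorem frustrated_lower (m : ℕ) (G : SimpleGraph V) :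
    (m + 3) * (S1 (ind G) * ((Fintype.card V - 2).descFactorial (m + 1) : ℕ)) -
      2 * (m + 3) * ((S2 (ind G) - S1 (ind G)) * ((Fintype.card V - 3).descFactorial m : ℕ)) -
      (m + 3) * m * (M3 (ind G) * ((Fintype.card V - 4).descFactorial (m - 1) : ℕ)) ≤
      (frustrated (m + 3) G : ℤ) := by
  classical
  rw [frustrated_eq, ← M2_eq (ind_isInd G), ← M1_eq (ind_isInd G)]
  apply odd_lower (ind G) (ind_isInd G).idem
  intro f
  rw [nu_eq]
  rcases Nat.lt_or_ge (cnt G f) 3 with h | h
  · interval_cases hc : cnt G f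
    · simp
    · simp
    · norm_num
  · have h1 : ((cnt G f : ℕ) : ℤ) * (2 - ((cnt G f : ℕ) : ℤ)) ≤ 0 := by
      have : (3 : ℤ) ≤ ((cnt G f : ℕ) : ℤ) := by exact_mod_cast h
      nlinarith
    split_ifs <;> linarith

theorem frustrated_exact (m : ℕ) (G : SimpleGraph V) (h2 : ∀ f : Fin (m + 3) ↪ V, cnt G f ≤ 2) :
    (m + 3) * (S1 (ind G) * ((Fintype.card V - 2).descFactorial (m + 1) : ℕ)) -
      2 * (m + 3) * ((S2 (ind G) - S1 (ind G)) * ((Fintype.card V - 3).descFactorial m : ℕ)) -
      (m + 3) * m * (M3 (ind G) * ((Fintype.card V - 4).descFactorial (m - 1) : ℕ)) =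
      (frustrated (m + 3) G : ℤ) := by
  classical
  rw [frustrated_eq, ← M2_eq (ind_isInd G), ← M1_eq (ind_isInd G)]
  apply odd_eq (ind G) (ind_isInd G).idem
  intro f
  rw [nu_eq]
  have := h2 f
  interval_cases hc : cnt G f
  · simp
  · simp
  · norm_num

/-! ### Switching -/

open Classical in
omit [Fintype V] [DecidableEq V] in
theorem cnt_zmod {m : ℕ} (G : SimpleGraph V) (f : Fin (m + 3) ↪ V) :
    ((cnt G f : ℕ) : ZMod 2) = ∑ i, (if G.Adj (f i) (f (i + 1)) then 1 else 0) := by
  unfold cnt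
  rw [Finset.card_filter]
  push_cast
  rfl

theorem odd_iff_zmod (c : ℕ) : Odd c ↔ ((c : ℕ) : ZMod 2) = 1 :=
  (ZMod.natCast_eq_one_iff_odd).symm

theorem cnt_sw {m : ℕ} (G : SimpleGraph V) (A : Set V) (f : Fin (m + 3) ↪ V) :
    Odd (cnt (sw G A) f) ↔ Odd (cnt G f) := by
  classical
  rw [odd_iff_zmod, odd_iff_zmod, cnt_zmod, cnt_zmod]
  have key : ∑ i, (if (sw G A).Adj (f i) (f (i + 1)) then (1 : ZMod 2) else 0) =
      ∑ i, (if G.Adj (f i) (f (i + 1)) then (1 : ZMod 2) else 0) := by
    have h1 : ∀ i, (if (sw G A).Adj (f i) (f (i + 1)) then (1 : ZMod 2) else 0) =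
        (if G.Adj (f i) (f (i + 1)) then (1 : ZMod 2) else 0) +
        ((if f i ∈ A then (1 : ZMod 2) else 0) + (if f (i + 1) ∈ A then (1 : ZMod 2) else 0)) := by
      intro i
      have hne : f i ≠ f (i + 1) := fun h => fin_succ_ne i (f.injective h)
      have h2 : (1 : ZMod 2) + 1 = 0 := by decide
      by_cases g1 : G.Adj (f i) (f (i + 1)) <;> by_cases g2 : f i ∈ A <;>
        by_cases g3 : f (i + 1) ∈ A <;> simp [sw, bip, g1, g2, g3, hne, h2]
    rw [Finset.sum_congr rfl (fun i _ => h1 i), Finset.sum_add_distrib, Finset.sum_add_distrib]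
    have h3 : ∑ i, (if f (i + 1) ∈ A then (1 : ZMod 2) else 0) =
        ∑ i, (if f i ∈ A then (1 : ZMod 2) else 0) :=
      Equiv.sum_comp (Equiv.addRight (1 : Fin (m + 3)))
        (fun i => if f i ∈ A then (1 : ZMod 2) else 0)
    rw [h3]
    have h4 : ∀ z : ZMod 2, z + z = 0 := by decide
    rw [h4, add_zero]
  rw [key]

theorem frustrated_sw (m : ℕ) (G : SimpleGraph V) (A : Set V) :
    frustrated (m + 3) (sw G A) = frustrated (m + 3) G := by
  classical
  rw [frustrated_eq, frustrated_eq]
  congr 1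
  apply Finset.filter_congr
  intro f _
  exact cnt_sw G A f

theorem cnt_compl {m : ℕ} (G : SimpleGraph V) (f : Fin (m + 3) ↪ V) :
    cnt G f + cnt Gᶜ f = m + 3 := by
  classical
  have : ∀ i, Gᶜ.Adj (f i) (f (i + 1)) ↔ ¬ G.Adj (f i) (f (i + 1)) := by
    intro i
    rw [SimpleGraph.compl_adj]
    have hne : f i ≠ f (i + 1) := fun h => fin_succ_ne i (f.injective h)
    tauto
  have h3 : cnt Gᶜ f = (univ.filter (fun i => ¬ G.Adj (f i) (f (i + 1)))).card := by
    unfold cnt
    congr 1
    ext i
    simp only [Finset.mem_filter, this]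
  rw [h3]
  unfold cnt
  rw [Finset.card_filter_add_card_filter_not]
  simp

theorem frustrated_compl_even (m : ℕ) (hm : Even (m + 3)) (G : SimpleGraph V) :
    frustrated (m + 3) Gᶜ = frustrated (m + 3) G := by
  classical
  rw [frustrated_eq, frustrated_eq]
  congr 1
  apply Finset.filter_congr
  intro f _
  have h := cnt_compl G f
  rw [← h, Nat.even_add] at hm
  rw [← Nat.not_even_iff_odd, ← Nat.not_even_iff_odd, hm]

end Pool.Agent.Q46.Frus
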