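import Pool.Agent.Q46.FrusC

/-!
# The star, and comparison with the star
-/

namespace Pool.Agent.Q46.Frus

open Finset

/-! ### The star -/

theorem card_leaves (n s : ℕ) (h : s + 1 ≤ n) :
    ((Finset.univ : Finset (Fin n)).filter (fun u => u.val ≠ 0 ∧ u.val ≤ s)).card = s := by
  have : ((Finset.univ : Finset (Fin n)).filter (fun u => u.val ≠ 0 ∧ u.val ≤ s)).map
      Fin.valEmbedding = Finset.Icc 1 s := by
    ext x
    simp only [Finset.mem_map, Finset.mem_filter, Finset.mem_univ, true_and,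
      Fin.valEmbedding_apply, Finset.mem_Icc]
    constructor
    · rintro ⟨u, ⟨h1, h2⟩, rfl⟩
      omega
    · rintro ⟨h1, h2⟩
      exact ⟨⟨x, by omega⟩, ⟨by simp only; omega, by simp only; omega⟩, rfl⟩
  rw [← Finset.card_map Fin.valEmbedding, this, Nat.card_Icc]
  omega

theorem card_centre (n : ℕ) (h : 1 ≤ n) :
    ((Finset.univ : Finset (Fin n)).filter (fun u => u.val = 0)).card = 1 := by
  rw [Finset.card_eq_one]
  refine ⟨⟨0, h⟩, ?_⟩
  ext u
  simp [Fin.ext_iff]

theorem sum_profile (n s : ℕ) (h : s + 1 ≤ n) (a b : ℤ) :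
    ∑ v : Fin n, (if v.val = 0 then a else if v.val ≤ s then b else 0) = a + b * s := by
  have h1 : ∀ v : Fin n, (if v.val = 0 then a else if v.val ≤ s then b else 0) =
      (if v.val = 0 then a else 0) + b * (if v.val ≠ 0 ∧ v.val ≤ s then 1 else 0) := by
    intro v
    by_cases g1 : v.val = 0
    · simp [g1]
    · by_cases g2 : v.val ≤ s <;> simp [g1, g2]
  rw [Finset.sum_congr rfl (fun v _ => h1 v), Finset.sum_add_distrib, ← Finset.mul_sum,
    ← Finset.sum_filter, Finset.sum_const, card_centre n (by omega)]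
  have h2 : ∑ v : Fin n, (if v.val ≠ 0 ∧ v.val ≤ s then (1 : ℤ) else 0) = s := by
    rw [Finset.sum_boole, card_leaves n s h]
  rw [h2]
  simp

theorem deg_star (n s : ℕ) (h : s + 1 ≤ n) (v : Fin n) :
    deg (ind (star n s)) v = if v.val = 0 then (s : ℤ) else if v.val ≤ s then 1 else 0 := by
  classical
  unfold deg
  by_cases g1 : v.val = 0
  · rw [if_pos g1]
    have h1 : ∀ u : Fin n, ind (star n s) v u = if u.val ≠ 0 ∧ u.val ≤ s then 1 else 0 := by
      intro u
      simp [ind, star, g1]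
    rw [Finset.sum_congr rfl (fun u _ => h1 u), Finset.sum_boole, card_leaves n s h]
  · rw [if_neg g1]
    by_cases g2 : v.val ≤ s
    · rw [if_pos g2]
      have h1 : ∀ u : Fin n, ind (star n s) v u = if u.val = 0 then 1 else 0 := by
        intro u
        simp [ind, star, g1, g2]
      rw [Finset.sum_congr rfl (fun u _ => h1 u), Finset.sum_boole, card_centre n (by omega)]
      simp
    · rw [if_neg g2]
      apply Finset.sum_eq_zero
      intro u _
      simp [ind, star, g1, g2]

theorem S1_star (n s : ℕ) (h : s + 1 ≤ n) : S1 (ind (star n s)) = 2 * s := by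
  unfold S1
  rw [Finset.sum_congr rfl (fun v _ => deg_star n s h v), sum_profile n s h]
  ring

theorem S2_star (n s : ℕ) (h : s + 1 ≤ n) : S2 (ind (star n s)) = s * s + s := by
  unfold S2
  have h1 : ∀ v : Fin n, deg (ind (star n s)) v * deg (ind (star n s)) v =
      if v.val = 0 then (s : ℤ) * s else if v.val ≤ s then 1 else 0 := by
    intro v
    rw [deg_star n s h]
    split_ifs <;> ring
  rw [Finset.sum_congr rfl (fun v _ => h1 v), sum_profile n s h]
  ring

theorem cnt_star_le {m n : ℕ} (s : ℕ) (f : Fin (m + 3) ↪ Fin n) : cnt (star n s) f ≤ 2 := by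
  classical
  unfold cnt
  have hsub : (univ.filter (fun i => (star n s).Adj (f i) (f (i + 1)))) ⊆
      (univ.filter (fun i => (f i).val = 0)) ∪ (univ.filter (fun i => (f (i + 1)).val = 0)) := by
    intro i hi
    rw [Finset.mem_filter] at hi
    rw [Finset.mem_union, Finset.mem_filter, Finset.mem_filter]
    rcases hi.2 with h | h
    · exact Or.inl ⟨Finset.mem_univ _, h.1⟩
    · exact Or.inr ⟨Finset.mem_univ _, h.1⟩
  have h1 : (univ.filter (fun i => (f i).val = 0)).card ≤ 1 := by
    rw [Finset.card_le_one]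
    intro a ha b hb
    rw [Finset.mem_filter] at ha hb
    exact f.injective (Fin.ext (ha.2.trans hb.2.symm))
  have h2 : (univ.filter (fun i => (f (i + 1)).val = 0)).card ≤ 1 := by
    rw [Finset.card_le_one]
    intro a ha b hb
    rw [Finset.mem_filter] at ha hb
    exact add_right_cancel (f.injective (Fin.ext (ha.2.trans hb.2.symm)))
  calc _ ≤ _ := Finset.card_le_card hsub
    _ ≤ _ := Finset.card_union_le _ _
    _ ≤ 2 := by omega

theorem frustrated_star (m n s : ℕ) (h : s + 1 ≤ n) :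
    (frustrated (m + 3) (star n s) : ℤ) =
      (m + 3) * (2 * s * ((n - 2).descFactorial (m + 1) : ℕ) -
        2 * (s * s - s) * ((n - 3).descFactorial m : ℕ)) := by
  have := frustrated_exact m (star n s) (cnt_star_le s)
  rw [M3_eq (ind_isInd _), S1_star n s h, S2_star n s h, Fintype.card_fin] at this
  rw [← this]
  ring

/-! ### Comparison -/

theorem desc_rel1 (n m : ℕ) (hn : 3 ≤ n) :
    (((n - 2).descFactorial (m + 1) : ℕ) : ℤ) = (n - 2) * ((n - 3).descFactorial m : ℕ) := by
  obtain ⟨N, rfl⟩ := Nat.exists_eq_add_of_le hn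
  have e1 : 3 + N - 2 = N + 1 := by omega
  have e2 : 3 + N - 3 = N := by omega
  rw [e1, e2, Nat.succ_descFactorial_succ]
  push_cast
  ring

theorem desc_rel2 (n m : ℕ) (hn : 4 ≤ n) :
    (m : ℤ) * ((n - 3).descFactorial m : ℕ) =
      m * ((n - 3) * ((n - 4).descFactorial (m - 1) : ℕ)) := by
  rcases Nat.eq_zero_or_pos m with rfl | hm
  · simp
  · obtain ⟨N, rfl⟩ := Nat.exists_eq_add_of_le hn
    obtain ⟨l, rfl⟩ := Nat.exists_eq_add_of_le hm
    have e1 : 4 + N - 3 = N + 1 := by omega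
    have e2 : 4 + N - 4 = N := by omega
    have e3 : 1 + l - 1 = l := by omega
    have e4 : 1 + l = l + 1 := by omega
    rw [e1, e2, e3, e4, Nat.succ_descFactorial_succ]
    push_cast
    ring

/-- the key comparison, reduced to an inequality between `S1` and `S2` -/
theorem compare (m n T : ℕ) (hT : T + 1 ≤ n) (hn : 4 ≤ n) (B : SimpleGraph (Fin n))
    (h : ((n : ℤ) - 3) * (2 * T * n - 2 * (T * T) - 2 * T) ≤
      ((n : ℤ) - 3) * (S1 (ind B) * n - 2 * S2 (ind B)) - m * M3 (ind B)) :
    frustrated (m + 3) (star n T) ≤ frustrated (m + 3) B := by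
  have hl := frustrated_lower m B
  have hs := frustrated_star m n T hT
  rw [Fintype.card_fin] at hl
  have r1 := desc_rel1 n m (by omega)
  have r2 := desc_rel2 n m hn
  set X2 : ℤ := (((n - 2).descFactorial (m + 1) : ℕ) : ℤ) with hX2
  set X3 : ℤ := (((n - 3).descFactorial m : ℕ) : ℤ) with hX3
  set X4 : ℤ := (((n - 4).descFactorial (m - 1) : ℕ) : ℤ) with hX4
  have hX3n : 0 ≤ X3 := by rw [hX3]; positivity
  have hn3 : (0 : ℤ) < (n : ℤ) - 3 := by
    have : (4 : ℤ) ≤ n := by exact_mod_cast hn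
    linarith
  have hgoal : (frustrated (m + 3) (star n T) : ℤ) ≤ (frustrated (m + 3) B : ℤ) := by
    refine le_trans ?_ hl
    rw [hs, r1]
    have hk : (0 : ℤ) < (m : ℤ) + 3 := by positivity
    have h1 := mul_le_mul_of_nonneg_right h hX3n
    have h2 : ((n : ℤ) - 3) * ((m + 3) * (2 * T * ((n - 2) * X3) - 2 * (T * T - T) * X3)) ≤
        ((n : ℤ) - 3) * ((m + 3) * (S1 (ind B) * ((n - 2) * X3)) -
        2 * (m + 3) * ((S2 (ind B) - S1 (ind B)) * X3) - (m + 3) * m * (M3 (ind B) * X4)) := by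
      have h3 : ((n : ℤ) - 3) * ((m + 3) * m * (M3 (ind B) * X4)) =
          (m + 3) * M3 (ind B) * (m * X3) := by
        rw [r2]; ring
      have h4 := mul_le_mul_of_nonneg_left h1 hk.le
      linarith [h3, h4]
    exact le_of_mul_le_mul_left h2 hn3
  exact_mod_cast hgoal

/-- exactly `T` pairs -/
theorem compare_eq (m n T : ℕ) (hT : T + 1 ≤ n) (hn : 4 ≤ n) (hm : 2 * m + 3 ≤ n)
    (B : SimpleGraph (Fin n)) (h1 : S1 (ind B) = 2 * T) :
    frustrated (m + 3) (star n T) ≤ frustrated (m + 3) B := by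
  apply compare m n T hT hn
  have h3 := M3_eq (ind_isInd B)
  have h4 := M3_nonneg (ind_isInd B)
  rw [h1] at h3 ⊢
  have h5 : 4 * S2 (ind B) = 4 * (T * T) + 4 * T - M3 (ind B) := by linarith
  have h6 : (2 * (m : ℤ)) ≤ n - 3 := by
    have : (2 * (m : ℤ) + 3) ≤ n := by exact_mod_cast hm
    linarith
  have h7 : 0 ≤ (((n : ℤ) - 3) - 2 * m) * M3 (ind B) := mul_nonneg (by linarith) h4
  have h8 : ((n : ℤ) - 3) * (4 * S2 (ind B)) =
      ((n : ℤ) - 3) * (4 * (T * T) + 4 * T - M3 (ind B)) := by rw [h5]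
  linarith [h7, h8]

/-- boundedly many pairs -/
theorem compare_small (m n T L : ℕ) (hT : T + 1 ≤ n) (hn : 4 ≤ n)
    (hL : L * L + m * (L * L + 2 * L) ≤ n)
    (B : SimpleGraph (Fin n)) (h1 : 2 * (T : ℤ) + 2 ≤ S1 (ind B)) (h2 : S1 (ind B) ≤ L) :
    frustrated (m + 3) (star n T) ≤ frustrated (m + 3) B := by
  apply compare m n T hT hn
  have h3 := M3_eq (ind_isInd B)
  have h5 := S2_le_sq (ind_isInd B)
  have h6 := S1_nonneg (ind_isInd B)
  have hS2 : 0 ≤ S2 (ind B) := Finset.sum_nonneg (fun v _ => mul_self_nonneg _)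
  have h7 : S1 (ind B) * S1 (ind B) ≤ (L : ℤ) * L := mul_le_mul h2 h2 h6 (by positivity)
  have h8 : M3 (ind B) ≤ (L : ℤ) * L + 2 * L := by linarith
  have hn' : (4 : ℤ) ≤ n := by exact_mod_cast hn
  have hL' : (L : ℤ) * L + m * (L * L + 2 * L) ≤ n := by exact_mod_cast hL
  have hm : (0 : ℤ) ≤ m := by positivity
  have h9 : (m : ℤ) * M3 (ind B) ≤ m * (L * L + 2 * L) := mul_le_mul_of_nonneg_left h8 hm
  have h10 : (2 * (T : ℤ) + 2) * n ≤ S1 (ind B) * n :=
    mul_le_mul_of_nonneg_right h1 (by positivity)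
  have h11 : 2 * (n : ℤ) + 2 * T * n - 2 * (L * L) ≤ S1 (ind B) * n - 2 * S2 (ind B) := by
    linarith
  have h12 : ((n : ℤ) - 3) * (2 * n + 2 * T * n - 2 * (L * L)) ≤
      ((n : ℤ) - 3) * (S1 (ind B) * n - 2 * S2 (ind B)) :=
    mul_le_mul_of_nonneg_left h11 (by linarith)
  have h13 : (m : ℤ) * (L * L + 2 * L) ≤ n - L * L := by linarith
  have h14 : (0 : ℤ) ≤ ((n : ℤ) - 4) * (n - L * L) := by
    apply mul_nonneg (by linarith)
    have : (0 : ℤ) ≤ m * (L * L + 2 * L) := by positivity
    linarith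
  have h15 : (0 : ℤ) ≤ ((n : ℤ) - 3) * (2 * (T * T) + 2 * T) := mul_nonneg (by linarith) (by positivity)
  nlinarith [h12, h13, h14, h15, h9]

/-- many (but linearly many) pairs, small maximal degree -/
theorem compare_large (m n T C : ℕ) (hT : T + 1 ≤ n) (hn : 4 ≤ n)
    (hC : 8 * m * (C * n + 2) ≤ (n - 3) * n)
    (B : SimpleGraph (Fin n)) (hdeg : ∀ v, 2 * deg (ind B) v ≤ n)
    (h1 : (8 * T + 512 * (C * C) : ℤ) ≤ S1 (ind B)) (h2 : S1 (ind B) ≤ C * n) :
    frustrated (m + 3) (star n T) ≤ frustrated (m + 3) B := by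
  classical
  apply compare m n T hT hn
  have hI := ind_isInd B
  have h3 := M3_eq hI
  have h6 := S1_nonneg hI
  have hn' : (4 : ℤ) ≤ n := by exact_mod_cast hn
  have hS2 : 0 ≤ S2 (ind B) := Finset.sum_nonneg (fun v _ => mul_self_nonneg _)
  set H : Finset (Fin n) := univ.filter (fun v => (n : ℤ) < 16 * deg (ind B) v) with hH
  -- size of H
  have hHcard : (H.card : ℤ) ≤ 16 * C := by
    by_contra hcon
    push Not at hcon
    have e1 : (H.card : ℤ) * n ≤ 16 * S1 (ind B) := by
      have : (H.card : ℤ) * n = ∑ v ∈ H, (n : ℤ) := by rw [Finset.sum_const, nsmul_eq_mul]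
      rw [this]
      calc ∑ v ∈ H, (n : ℤ) ≤ ∑ v ∈ H, 16 * deg (ind B) v := by
            apply Finset.sum_le_sum
            intro v hv
            rw [hH, Finset.mem_filter] at hv
            exact hv.2.le
        _ ≤ ∑ v, 16 * deg (ind B) v := by
            apply Finset.sum_le_sum_of_subset_of_nonneg (Finset.subset_univ _)
            intro v _ _
            have := deg_nonneg hI v
            linarith
        _ = 16 * S1 (ind B) := by rw [← Finset.mul_sum]; rfl
    nlinarith
  -- degrees inside H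
  set χ : Fin n → ℤ := fun v => if v ∈ H then 1 else 0 with hχ
  have hχ01 : ∀ v, χ v = 0 ∨ χ v = 1 := by
    intro v
    simp only [hχ]
    split_ifs
    · exact Or.inr rfl
    · exact Or.inl rfl
  have hHdeg : 2 * ∑ v, χ v * deg (ind B) v ≤ S1 (ind B) + H.card * H.card := by
    have e1 : ∑ v, χ v * deg (ind B) v = ∑ v, ∑ u, χ v * ind B v u := by
      apply Finset.sum_congr rfl
      intro v _
      unfold deg
      rw [Finset.mul_sum]
    have e2 : ∑ v, χ v * deg (ind B) v = ∑ v, ∑ u, χ u * ind B v u := by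
      rw [e1, Finset.sum_comm]
      apply Finset.sum_congr rfl
      intro v _
      apply Finset.sum_congr rfl
      intro u _
      rw [hI.symm]
    have e3 : S1 (ind B) + H.card * H.card = ∑ v, ∑ u, (ind B v u + χ v * χ u) := by
      have e4 : ∑ v, χ v = (H.card : ℤ) := by
        simp only [hχ]
        rw [Finset.sum_boole]
        congr 1
        simp
      rw [← e4, Finset.sum_mul_sum]
      unfold S1 deg
      rw [← Finset.sum_add_distrib]
      apply Finset.sum_congr rfl
      intro v _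
      rw [← Finset.sum_add_distrib]
    rw [two_mul, e3]
    nth_rewrite 1 [e1]
    rw [e2, ← Finset.sum_add_distrib]
    apply Finset.sum_le_sum
    intro v _
    rw [← Finset.sum_add_distrib]
    apply Finset.sum_le_sum
    intro u _
    rcases hχ01 v with g1 | g1 <;> rcases hχ01 u with g2 | g2 <;>
      rcases hI.val v u with g3 | g3 <;> rw [g1, g2, g3] <;> norm_num
  have hS2b : 16 * S2 (ind B) ≤ 5 * (n * S1 (ind B)) + 4 * (n * (H.card * H.card)) := by
    have e1 : 16 * S2 (ind B) ≤ n * S1 (ind B) + 8 * n * ∑ v, χ v * deg (ind B) v := by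
      unfold S2 S1
      rw [Finset.mul_sum, Finset.mul_sum, Finset.mul_sum, ← Finset.sum_add_distrib]
      apply Finset.sum_le_sum
      intro v _
      have hd0 := deg_nonneg hI v
      by_cases hv : v ∈ H
      · have : χ v = 1 := by simp only [hχ]; rw [if_pos hv]
        rw [this]
        have := hdeg v
        nlinarith
      · have h0 : χ v = 0 := by simp only [hχ]; rw [if_neg hv]
        rw [h0]
        rw [hH, Finset.mem_filter] at hv
        push Not at hv
        have := hv (Finset.mem_univ _)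
        nlinarith
    have e2 : (8 : ℤ) * n * ∑ v, χ v * deg (ind B) v ≤
        4 * n * (S1 (ind B) + H.card * H.card) := by
      have : (0 : ℤ) ≤ 4 * n := by positivity
      nlinarith [mul_le_mul_of_nonneg_left hHdeg this]
    linarith
  have hC' : 8 * (m : ℤ) * (C * n + 2) ≤ ((n : ℤ) - 3) * n := by
    have e1 : ((n - 3 : ℕ) : ℤ) = (n : ℤ) - 3 := by
      rw [Nat.cast_sub (by omega)]
      norm_num
    rw [← e1]
    exact_mod_cast hC
  have hcard2 : (H.card : ℤ) * H.card ≤ 256 * (C * C) := by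
    have : (0 : ℤ) ≤ H.card := by positivity
    nlinarith
  have f1 : M3 (ind B) ≤ S1 (ind B) * (C * n + 2) := by
    have : S1 (ind B) * S1 (ind B) ≤ S1 (ind B) * (C * n) := mul_le_mul_of_nonneg_left h2 h6
    linarith
  have f2 : 8 * (m * M3 (ind B)) ≤ ((n : ℤ) - 3) * n * S1 (ind B) := by
    have g1 : (m : ℤ) * M3 (ind B) ≤ m * (S1 (ind B) * (C * n + 2)) :=
      mul_le_mul_of_nonneg_left f1 (by positivity)
    have g2 := mul_le_mul_of_nonneg_right hC' h6
    linarith
  have f3 : 3 * (n * S1 (ind B)) - 1024 * (C * C) * n ≤ 8 * (S1 (ind B) * n - 2 * S2 (ind B)) := by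
    have : (n : ℤ) * (H.card * H.card) ≤ n * (256 * (C * C)) :=
      mul_le_mul_of_nonneg_left hcard2 (by positivity)
    linarith
  have f4 := mul_le_mul_of_nonneg_left f3 (by linarith : (0 : ℤ) ≤ (n : ℤ) - 3)
  have f5 : (0 : ℤ) ≤ ((n : ℤ) - 3) * n * (2 * (S1 (ind B) - (8 * T + 512 * (C * C)))) := by
    apply mul_nonneg (mul_nonneg (by linarith) (by positivity))
    linarith
  have f6 : (0 : ℤ) ≤ ((n : ℤ) - 3) * (2 * (T * T) + 2 * T) :=
    mul_nonneg (by linarith) (by positivity)
  linarith [f2, f4, f5, f6]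

end Pool.Agent.Q46.Frus
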