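import Pool.Agent.Q46.FrusD

/-!
# Minimal switchings, the structure lemma and the main theorem
-/

namespace Pool.Agent.Q46.Frus

open Finset

/-! ### Edges as pairs -/

theorem S1_eq_card {V : Type*} [Fintype V] [DecidableEq V] (H : SimpleGraph V)
    [DecidableRel H.Adj] :
    S1 (ind H) = (((Finset.univ : Finset (V × V)).filter (fun p => H.Adj p.1 p.2)).card : ℤ) := by
  classical
  rw [Finset.card_filter]
  push_cast
  rw [Fintype.sum_prod_type]
  unfold S1 deg ind
  apply Finset.sum_congr rfl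
  intro u _
  apply Finset.sum_congr rfl
  intro v _
  congr

theorem S1_sw {n : ℕ} (G : SimpleGraph (Fin n)) (A : Set (Fin n)) :
    S1 (ind (sw G A)) = 2 * (diffPairs G (bip A) : ℤ) := by
  classical
  rw [S1_eq_card]
  have h1 : ((Finset.univ : Finset (Fin n × Fin n)).filter
      (fun p => (sw G A).Adj p.1 p.2)) =
      ((Finset.univ : Finset (Fin n × Fin n)).filter
        (fun p => p.1 < p.2 ∧ ¬ (G.Adj p.1 p.2 ↔ (bip A).Adj p.1 p.2))) ∪
      (((Finset.univ : Finset (Fin n × Fin n)).filter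
        (fun p => p.1 < p.2 ∧ ¬ (G.Adj p.1 p.2 ↔ (bip A).Adj p.1 p.2))).map
          (Equiv.prodComm _ _).toEmbedding) := by
    ext ⟨u, v⟩
    simp only [Finset.mem_union, Finset.mem_filter, Finset.mem_univ, true_and, Finset.mem_map,
      Equiv.coe_toEmbedding, Equiv.prodComm_apply, Prod.exists, Prod.swap_prod_mk,
      Prod.mk.injEq]
    constructor
    · rintro ⟨h1, h2⟩
      rcases lt_or_gt_of_ne h1 with h | h
      · exact Or.inl ⟨h, h2⟩
      · exact Or.inr ⟨v, u, ⟨h, by rwa [G.adj_comm, (bip A).adj_comm]⟩, rfl, rfl⟩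
    · rintro (⟨h1, h2⟩ | ⟨a, b, ⟨h1, h2⟩, rfl, rfl⟩)
      · exact ⟨h1.ne, h2⟩
      · exact ⟨h1.ne', by rwa [G.adj_comm, (bip A).adj_comm]⟩
  rw [h1, Finset.card_union_of_disjoint, Finset.card_map]
  · unfold diffPairs
    push_cast
    ring
  · rw [Finset.disjoint_left]
    rintro ⟨u, v⟩ h1 h2
    simp only [Finset.mem_filter, Finset.mem_univ, true_and, Finset.mem_map,
      Equiv.coe_toEmbedding, Equiv.prodComm_apply, Prod.exists, Prod.swap_prod_mk,
      Prod.mk.injEq] at h1 h2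
    obtain ⟨a, b, ⟨h3, -⟩, rfl, rfl⟩ := h2
    exact lt_asymm h1.1 h3

/-! ### Minimal switchings -/

theorem S1_switch {V : Type*} [Fintype V] [DecidableEq V] (G : SimpleGraph V) (A : Set V)
    (v : V) : S1 (ind (sw G (symmDiff A {v}))) =
      S1 (ind (sw G A)) + 2 * Fintype.card V - 4 * deg (ind (sw G A)) v - 2 := by
  classical
  have hpt : ∀ u w, ind (sw G (symmDiff A {v})) u w = ind (sw G A) u w +
      ((if u = v then (1 : ℤ) else 0) * (1 - 2 * ind (sw G A) u w) +
      (if w = v then (1 : ℤ) else 0) * (1 - 2 * ind (sw G A) u w) -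
      2 * ((if u = v then (1 : ℤ) else 0) * ((if w = v then (1 : ℤ) else 0) *
        (1 - 2 * ind (sw G A) u w)))) := by
    intro u w
    by_cases g1 : u = w
    · subst g1
      rw [(ind_isInd _).diag, (ind_isInd _).diag]
      split_ifs <;> norm_num
    · by_cases g2 : u = v
      · subst g2
        have g3 : w ≠ u := fun h => g1 h.symm
        by_cases c1 : G.Adj u w <;> by_cases c2 : u ∈ A <;> by_cases c3 : w ∈ A <;>
          simp [ind, sw, bip, Set.mem_symmDiff, g1, g3, c1, c2, c3]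
      · by_cases g3 : w = v
        · subst g3
          by_cases c1 : G.Adj u w <;> by_cases c2 : u ∈ A <;> by_cases c3 : w ∈ A <;>
            simp [ind, sw, bip, Set.mem_symmDiff, g1, g2, c1, c2, c3]
        · by_cases c1 : G.Adj u w <;> by_cases c2 : u ∈ A <;> by_cases c3 : w ∈ A <;>
            simp [ind, sw, bip, Set.mem_symmDiff, g1, g2, g3, c1, c2, c3]
  have hsum : S1 (ind (sw G (symmDiff A {v}))) = S1 (ind (sw G A)) +
      (∑ w, (1 - 2 * ind (sw G A) v w) + ∑ u, (1 - 2 * ind (sw G A) u v) -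
        2 * (1 - 2 * ind (sw G A) v v)) := by
    unfold S1 deg
    rw [Finset.sum_congr rfl (fun u _ => Finset.sum_congr rfl (fun w _ => hpt u w))]
    simp only [Finset.sum_add_distrib, Finset.sum_sub_distrib, ← Finset.mul_sum,
      ite_mul, one_mul, zero_mul, Finset.sum_ite_eq', Finset.mem_univ, if_true]
    simp [Finset.mul_sum]
  rw [hsum]
  have e1 : ∑ w, (1 - 2 * ind (sw G A) v w) = Fintype.card V - 2 * deg (ind (sw G A)) v := by
    rw [Finset.sum_sub_distrib, ← Finset.mul_sum]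
    simp [deg]
  have e2 : ∑ u, (1 - 2 * ind (sw G A) u v) = Fintype.card V - 2 * deg (ind (sw G A)) v := by
    rw [← e1]
    apply Finset.sum_congr rfl
    intro u _
    rw [(ind_isInd _).symm]
  rw [e1, e2, (ind_isInd _).diag]
  ring

theorem min_deg {n : ℕ} (G : SimpleGraph (Fin n)) (A : Set (Fin n))
    (hmin : ∀ A' : Set (Fin n), diffPairs G (bip A) ≤ diffPairs G (bip A')) (v : Fin n) :
    2 * deg (ind (sw G A)) v ≤ n := by
  have h1 := S1_switch G A v
  rw [S1_sw, S1_sw, Fintype.card_fin] at h1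
  have h2 : (diffPairs G (bip A) : ℤ) ≤ diffPairs G (bip (symmDiff A {v})) := by
    exact_mod_cast hmin _
  linarith

theorem main_close (m t C L n : ℕ) (hT : t + 2 ≤ n) (hn : 4 ≤ n) (hm : 2 * m + 3 ≤ n)
    (hLdef : 8 * (t + 1) + 512 * (C * C) ≤ L)
    (hL : L * L + m * (L * L + 2 * L) ≤ n)
    (hC : 8 * m * (C * n + 2) ≤ (n - 3) * n)
    (G : SimpleGraph (Fin n))
    (hfr : frustrated (m + 3) G < frustrated (m + 3) (star n (t + 1)))
    (hex : ∃ A : Set (Fin n), S1 (ind (sw G A)) ≤ C * n) :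
    ∃ A : Set (Fin n), diffPairs G (bip A) ≤ t := by
  classical
  obtain ⟨A, -, hA⟩ := Finset.exists_min_image (Finset.univ : Finset (Set (Fin n)))
    (fun A => diffPairs G (bip A)) ⟨∅, Finset.mem_univ _⟩
  have hmin : ∀ A' : Set (Fin n), diffPairs G (bip A) ≤ diffPairs G (bip A') :=
    fun A' => hA A' (Finset.mem_univ _)
  refine ⟨A, ?_⟩
  by_contra hcon
  push Not at hcon
  obtain ⟨A₀, hA₀⟩ := hex
  have hS1 : S1 (ind (sw G A)) ≤ C * n := by
    rw [S1_sw] at hA₀ ⊢
    have : (diffPairs G (bip A) : ℤ) ≤ diffPairs G (bip A₀) := by exact_mod_cast hmin A₀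
    linarith
  rw [← frustrated_sw m G A] at hfr
  have hd := S1_sw G A
  rcases Nat.lt_or_ge (t + 1) (diffPairs G (bip A)) with h | h
  · have h2 : 2 * ((t + 1 : ℕ) : ℤ) + 2 ≤ S1 (ind (sw G A)) := by
      rw [hd]
      have : ((t + 1 : ℕ) : ℤ) + 1 ≤ diffPairs G (bip A) := by exact_mod_cast h
      linarith
    rcases le_or_gt (S1 (ind (sw G A))) L with h3 | h3
    · have := compare_small m n (t + 1) L (by omega) hn hL (sw G A) h2 h3
      omega
    · have h4 : (8 * ((t + 1 : ℕ) : ℤ) + 512 * (C * C) : ℤ) ≤ S1 (ind (sw G A)) := by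
        have : (8 * ((t + 1 : ℕ) : ℤ) + 512 * (C * C) : ℤ) ≤ L := by exact_mod_cast hLdef
        linarith
      have := compare_large m n (t + 1) C (by omega) hn hC (sw G A) (min_deg G A hmin) h4 hS1
      omega
  · have h2 : diffPairs G (bip A) = t + 1 := by omega
    have h3 : S1 (ind (sw G A)) = 2 * ((t + 1 : ℕ) : ℤ) := by rw [hd, h2]
    have := compare_eq m n (t + 1) (by omega) hn hm (sw G A) h3
    omega

end Pool.Agent.Q46.Frus
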