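import Pool.Agent.Q46.FrusE

/-!
# The structure lemma and the final theorem
-/

namespace Pool.Agent.Q46.Frus

open Finset

variable {V : Type*} [Fintype V] [DecidableEq V]

/-- the tail positions -/
def tailPos (m : ℕ) : Fin (m + 1) ↪ Fin (m + 3) :=
  ⟨fun j => j.succ.succ, fun a b h => Fin.succ_injective _ (Fin.succ_injective _ h)⟩

/-- extend a tuple by two vertices in front -/
def extTuple {m : ℕ} (x : Fin (m + 1) ↪ V) (u v : V) (huv : u ≠ v) (hu : u ∉ Set.range x)
    (hv : v ∉ Set.range x) : Fin (m + 3) ↪ V :=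
  ⟨Fin.cons u (Fin.cons v x), by
    rw [Fin.cons_injective_iff, Fin.cons_injective_iff]
    refine ⟨?_, hv, x.injective⟩
    rintro ⟨i, hi⟩
    refine Fin.cases ?_ (fun j => ?_) i hi
    · intro h
      exact huv h.symm
    · intro h
      exact hu ⟨j, h⟩⟩

open Classical in
/-- adjacency in `ZMod 2` -/
noncomputable def ee (G : SimpleGraph V) (a b : V) : ZMod 2 := if G.Adj a b then 1 else 0

theorem ee_symm (G : SimpleGraph V) (a b : V) : ee G a b = ee G b a := by
  unfold ee
  rw [G.adj_comm]

theorem cnt_ext {m : ℕ} (G : SimpleGraph V) (x : Fin (m + 1) ↪ V) (u v : V) (huv : u ≠ v)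
    (hu : u ∉ Set.range x) (hv : v ∉ Set.range x) :
    ((cnt G (extTuple x u v huv hu hv) : ℕ) : ZMod 2) =
      ee G u v + ee G v (x 0) + (∑ l : Fin m, ee G (x l.castSucc) (x l.succ))
        + ee G (x (Fin.last m)) u := by
  classical
  rw [cnt_zmod]
  change ∑ i, ee G (extTuple x u v huv hu hv i) (extTuple x u v huv hu hv (i + 1)) = _
  rw [Fin.sum_univ_succ, Fin.sum_univ_succ, Fin.sum_univ_castSucc]
  have f0 : extTuple x u v huv hu hv 0 = u := rfl
  have f1 : extTuple x u v huv hu hv (0 + 1) = v := rfl
  have f1' : extTuple x u v huv hu hv (Fin.succ 0) = v := rfl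
  have f2 : extTuple x u v huv hu hv ((Fin.succ 0 : Fin (m + 3)) + 1) = x 0 := by
    have : (Fin.succ 0 : Fin (m + 3)) + 1 = (Fin.succ (Fin.succ 0) : Fin (m + 3)) := by
      apply Fin.ext
      rw [Fin.val_add_one_of_lt]
      · rfl
      · rw [Fin.lt_def]
        simp
    rw [this]
    rfl
  have f3 : ∀ j : Fin (m + 1), extTuple x u v huv hu hv j.succ.succ = x j := fun j => rfl
  have f4 : ∀ l : Fin m, extTuple x u v huv hu hv ((l.castSucc.succ.succ : Fin (m + 3)) + 1) =
      x l.succ := by
    intro l
    have : (l.castSucc.succ.succ : Fin (m + 3)) + 1 = l.succ.succ.succ := by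
      apply Fin.ext
      rw [Fin.val_add_one_of_lt]
      · rfl
      · rw [Fin.lt_def]
        simp
    rw [this]
    rfl
  have f5 : extTuple x u v huv hu hv (((Fin.last m).succ.succ : Fin (m + 3)) + 1) = u := by
    have : ((Fin.last m).succ.succ : Fin (m + 3)) + 1 = 0 := by
      rw [Fin.succ_last, Fin.succ_last, Fin.last_add_one]
    rw [this]
    rfl
  rw [f0, f1, f1', f2]
  simp only [f3, f4, f5]
  ring

open Classical in
/-- some tuple has few frustrated extensions -/
theorem exists_tuple (m D : ℕ) (G : SimpleGraph V)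
    (h : frustrated (m + 3) G < (D + 1) * (Fintype.card V).descFactorial (m + 1)) :
    ∃ x : Fin (m + 1) ↪ V, ((Finset.univ : Finset (Fin (m + 3) ↪ V)).filter
      (fun f => Odd (cnt G f) ∧ (tailPos m).trans f = x)).card ≤ D := by
  by_contra hcon
  push Not at hcon
  rw [frustrated_eq] at h
  have h1 := Finset.card_eq_sum_card_fiberwise (f := fun f : Fin (m + 3) ↪ V => (tailPos m).trans f)
    (s := (Finset.univ : Finset (Fin (m + 3) ↪ V)).filter (fun f => Odd (cnt G f)))
    (t := (Finset.univ : Finset (Fin (m + 1) ↪ V))) (fun _ _ => Finset.mem_coe.mpr (Finset.mem_univ _))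
  rw [h1] at h
  have h2 : ∑ x : Fin (m + 1) ↪ V, (D + 1) ≤
      ∑ x : Fin (m + 1) ↪ V, (((Finset.univ : Finset (Fin (m + 3) ↪ V)).filter
        (fun f => Odd (cnt G f))).filter (fun f => (tailPos m).trans f = x)).card := by
    apply Finset.sum_le_sum
    intro x _
    rw [Finset.filter_filter]
    exact hcon x
  rw [Finset.sum_const, Finset.card_univ, Fintype.card_embedding_eq, Fintype.card_fin,
    smul_eq_mul, mul_comm] at h2
  exact absurd (lt_of_le_of_lt h2 h) (lt_irrefl _)

/-- the structure lemma -/
theorem structure_lemma (m D : ℕ) (G : SimpleGraph V)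
    (h : frustrated (m + 3) G < (D + 1) * (Fintype.card V).descFactorial (m + 1))
    (hn : m + 3 + 4 * D ≤ Fintype.card V) :
    ∃ A : Set V, S1 (ind (sw G A)) ≤ D + 2 * ((m + 1) * Fintype.card V) ∨
      S1 (ind (sw G A)ᶜ) ≤ D + 2 * ((m + 1) * Fintype.card V) := by
  classical
  obtain ⟨x, hx⟩ := exists_tuple m D G h
  set α : V → ZMod 2 := fun v => ee G v (x 0) with hα
  set β : V → ZMod 2 := fun u => ee G (x (Fin.last m)) u with hβ
  set P : ZMod 2 := ∑ l : Fin m, ee G (x l.castSucc) (x l.succ) with hP
  set bad : Finset (V × V) := univ.filter (fun p => p.1 ≠ p.2 ∧ p.1 ∉ Set.range x ∧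
    p.2 ∉ Set.range x ∧ ee G p.1 p.2 + α p.2 + P + β p.1 = 1) with hbad
  have hbadcard : bad.card ≤ D := by
    refine le_trans ?_ hx
    have hsub : bad ⊆ ((Finset.univ : Finset (Fin (m + 3) ↪ V)).filter
        (fun f => Odd (cnt G f) ∧ (tailPos m).trans f = x)).image
          (fun f => (f 0, f 1)) := by
      rintro ⟨u, v⟩ hp
      rw [hbad, Finset.mem_filter] at hp
      obtain ⟨-, huv, hu, hv, hodd⟩ := hp
      rw [Finset.mem_image]
      refine ⟨extTuple x u v huv hu hv, ?_, rfl⟩
      rw [Finset.mem_filter]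
      refine ⟨Finset.mem_univ _, ?_, ?_⟩
      · rw [odd_iff_zmod, cnt_ext]
        exact hodd
      · ext j
        rfl
    exact (Finset.card_le_card hsub).trans Finset.card_image_le
  -- gamma is constant off the tuple
  set γ : V → ZMod 2 := fun u => α u + β u with hγ
  have hz2 : ∀ a : ZMod 2, a = 0 ∨ a = 1 := by decide
  have hbadpair : ∀ u v, u ∉ Set.range x → v ∉ Set.range x → γ u ≠ γ v →
      (u, v) ∈ bad ∨ (v, u) ∈ bad := by
    intro u v hu hv hne
    have huv : u ≠ v := fun h => hne (by rw [h])
    rw [hbad, Finset.mem_filter, Finset.mem_filter]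
    have key : (ee G u v + α v + P + β u) + (ee G v u + α u + P + β v) = 1 := by
      have e1 : (ee G u v + α v + P + β u) + (ee G v u + α u + P + β v) = γ u + γ v := by
        rw [ee_symm G v u]
        simp only [hγ]
        have : ∀ a b c d e f : ZMod 2, (a + b + c + d) + (a + e + c + f) = (e + d) + (b + f) := by
          decide
        exact this _ _ _ _ _ _
      rw [e1]
      rcases hz2 (γ u) with g1 | g1 <;> rcases hz2 (γ v) with g2 | g2 <;>
        rw [g1, g2] at hne ⊢ <;> first | exact absurd rfl hne | decide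
    rcases hz2 (ee G u v + α v + P + β u) with g | g
    · right
      rw [g, zero_add] at key
      exact ⟨Finset.mem_univ _, huv.symm, hv, hu, key⟩
    · left
      exact ⟨Finset.mem_univ _, huv, hu, hv, g⟩
  have hconst : ∀ u v, u ∉ Set.range x → v ∉ Set.range x → γ u = γ v := by
    intro u₀ v₀ hu₀ hv₀
    by_contra hne
    have hsub : (univ.filter (fun w : V => w ∉ Set.range x)) ⊆
        (((bad.image Prod.fst) ∪ (bad.image Prod.snd)) ∪
          ((bad.image Prod.fst) ∪ (bad.image Prod.snd))) := by
      intro w hw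
      rw [Finset.mem_filter] at hw
      have hw := hw.2
      have hor : γ w ≠ γ u₀ ∨ γ w ≠ γ v₀ := by
        by_contra hc
        push Not at hc
        exact hne (hc.1.symm.trans hc.2)
      simp only [Finset.mem_union, Finset.mem_image]
      rcases hor with hh | hh
      · rcases hbadpair w u₀ hw hu₀ hh with g | g
        · exact Or.inl (Or.inl ⟨_, g, rfl⟩)
        · exact Or.inl (Or.inr ⟨_, g, rfl⟩)
      · rcases hbadpair w v₀ hw hv₀ hh with g | g
        · exact Or.inl (Or.inl ⟨_, g, rfl⟩)
        · exact Or.inl (Or.inr ⟨_, g, rfl⟩)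
    have h1 := Finset.card_le_card hsub
    have h2 : (univ.filter (fun w : V => w ∉ Set.range x)).card = Fintype.card V - (m + 1) := by
      have := Fintype.card_compl_set (Set.range x)
      rw [Set.card_range_of_injective x.injective, Fintype.card_fin] at this
      rw [← this, Fintype.card_subtype]
      rfl
    have h3 : (((bad.image Prod.fst) ∪ (bad.image Prod.snd)) ∪
          ((bad.image Prod.fst) ∪ (bad.image Prod.snd))).card ≤ 4 * D := by
      have a1 : (bad.image Prod.fst).card ≤ D := Finset.card_image_le.trans hbadcard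
      have a2 : (bad.image Prod.snd).card ≤ D := Finset.card_image_le.trans hbadcard
      have a3 := Finset.card_union_le (bad.image Prod.fst) (bad.image Prod.snd)
      have a4 := Finset.card_union_le ((bad.image Prod.fst) ∪ (bad.image Prod.snd))
        ((bad.image Prod.fst) ∪ (bad.image Prod.snd))
      omega
    omega
  -- the set A
  obtain ⟨w₀, hw₀⟩ : ∃ w₀ : V, w₀ ∉ Set.range x := by
    by_contra hc
    push Not at hc
    have : Function.Surjective x := hc
    have := Fintype.card_le_of_surjective x this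
    rw [Fintype.card_fin] at this
    omega
  set A : Set V := {v | α v = 1} with hA
  refine ⟨A, ?_⟩
  have hee : ∀ u v, u ∉ Set.range x → v ∉ Set.range x → u ≠ v → (u, v) ∉ bad →
      ee G u v = α u + α v + (P + γ w₀) := by
    intro u v hu hv huv hnb
    have h1 : ee G u v + α v + P + β u = 0 := by
      rcases hz2 (ee G u v + α v + P + β u) with g | g
      · exact g
      · exact absurd (by rw [hbad, Finset.mem_filter]; exact ⟨Finset.mem_univ _, huv, hu, hv, g⟩) hnb
    have h2 := hconst u w₀ hu hw₀
    rw [← h2]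
    simp only [hγ]
    have : ∀ a b c d e : ZMod 2, a + b + c + d = 0 → a = e + b + (c + (e + d)) := by decide
    exact this _ _ _ _ _ h1
  -- counting lemma
  have hcount : ∀ H' : SimpleGraph V, (∀ u v, u ∉ Set.range x → v ∉ Set.range x → u ≠ v →
      (u, v) ∉ bad → ¬ H'.Adj u v) →
      S1 (ind H') ≤ D + 2 * ((m + 1) * Fintype.card V) := by
    intro H' hH'
    rw [S1_eq_card]
    have hsub : (univ.filter (fun p : V × V => H'.Adj p.1 p.2)) ⊆
        bad ∪ ((univ.image x) ×ˢ univ ∪ univ ×ˢ (univ.image x)) := by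
      rintro ⟨u, v⟩ hp
      rw [Finset.mem_filter] at hp
      by_contra hc
      simp only [Finset.mem_union, Finset.mem_product, Finset.mem_univ, and_true, true_and,
        Finset.mem_image, not_or] at hc
      exact hH' u v hc.2.1 hc.2.2 hp.2.ne hc.1 hp.2
    have h1 := Finset.card_le_card hsub
    have h2 := Finset.card_union_le bad ((univ.image x) ×ˢ univ ∪ univ ×ˢ (univ.image x))
    have h3 := Finset.card_union_le ((univ.image x) ×ˢ (univ : Finset V))
      ((univ : Finset V) ×ˢ (univ.image x))
    have h4 : (univ.image x).card = m + 1 := by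
      rw [Finset.card_image_of_injective _ x.injective, Finset.card_univ, Fintype.card_fin]
    rw [Finset.card_product, Finset.card_product, h4, Finset.card_univ] at h3
    have h5 : (univ.filter (fun p : V × V => H'.Adj p.1 p.2)).card ≤
        D + 2 * ((m + 1) * Fintype.card V) := by
      calc _ ≤ _ := h1
        _ ≤ _ := h2
        _ ≤ D + ((m + 1) * Fintype.card V + Fintype.card V * (m + 1)) := by omega
        _ = _ := by ring
    exact_mod_cast h5
  rcases hz2 (P + γ w₀) with hc | hc
  · left
    apply hcount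
    intro u v hu hv huv hnb hadj
    have h1 := hee u v hu hv huv hnb
    rw [hc, add_zero] at h1
    have h2 : (sw G A).Adj u v := hadj
    have h3 := h2.2
    apply h3
    have hG : G.Adj u v ↔ ee G u v = 1 := by
      unfold ee
      by_cases g : G.Adj u v <;> simp [g]
    have hB : (bip A).Adj u v ↔ α u + α v = 1 := by
      simp only [bip, hA, Set.mem_ofPred_eq]
      rcases hz2 (α u) with g1 | g1 <;> rcases hz2 (α v) with g2 | g2 <;> rw [g1, g2] <;> decide
    rw [hG, hB, h1]
  · right
    apply hcount
    intro u v hu hv huv hnb hadj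
    have h1 := hee u v hu hv huv hnb
    rw [hc] at h1
    rw [SimpleGraph.compl_adj] at hadj
    apply hadj.2
    refine ⟨huv, ?_⟩
    have hG : G.Adj u v ↔ ee G u v = 1 := by
      unfold ee
      by_cases g : G.Adj u v <;> simp [g]
    have hB : (bip A).Adj u v ↔ α u + α v = 1 := by
      simp only [bip, hA, Set.mem_ofPred_eq]
      rcases hz2 (α u) with g1 | g1 <;> rcases hz2 (α v) with g2 | g2 <;> rw [g1, g2] <;> decide
    rw [hG, hB, h1]
    rcases hz2 (α u) with g1 | g1 <;> rcases hz2 (α v) with g2 | g2 <;> rw [g1, g2] <;> decide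

end Pool.Agent.Q46.Frus
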