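import Pool.Agent.Q46.FrusF

/-!
# The final theorem
-/

namespace Pool.Agent.Q46.Frus

open Finset

/-- for odd length, almost complete graphs have too many frustrated cycles -/
theorem odd_dense (m n : ℕ) (hodd : Odd (m + 3)) (hn : 3 ≤ n) (H : SimpleGraph (Fin n)) (K : ℕ)
    (hK : S1 (ind Hᶜ) ≤ K) :
    ((n : ℤ) * (n - 1) - (m + 3) * K) * ((n - 2).descFactorial (m + 1) : ℕ) ≤
      (frustrated (m + 3) H : ℤ) := by
  classical
  rw [frustrated_eq]
  have h1 := sum_nu (ind Hᶜ) m
  rw [M1_eq (ind_isInd _), Fintype.card_fin] at h1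
  have h2 : ∑ f : Fin (m + 3) ↪ Fin n, (1 - nu (ind Hᶜ) f) ≤
      ((univ.filter (fun f : Fin (m + 3) ↪ Fin n => Odd (cnt H f))).card : ℤ) := by
    rw [Finset.card_filter]
    push_cast
    apply Finset.sum_le_sum
    intro f _
    rw [nu_eq]
    rcases Nat.eq_zero_or_pos (cnt Hᶜ f) with h | h
    · have h3 := cnt_compl H f
      rw [h, add_zero] at h3
      rw [h, h3, if_pos hodd]
      norm_num
    · have : (1 : ℤ) ≤ ((cnt Hᶜ f : ℕ) : ℤ) := by exact_mod_cast h
      split_ifs <;> linarith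
  rw [Finset.sum_sub_distrib, h1, Finset.sum_const, Finset.card_univ, Fintype.card_embedding_eq,
    Fintype.card_fin, Fintype.card_fin, nsmul_eq_mul, mul_one] at h2
  refine le_trans ?_ h2
  have h3 : ((n.descFactorial (m + 3) : ℕ) : ℤ) =
      (n : ℤ) * (n - 1) * ((n - 2).descFactorial (m + 1) : ℕ) := by
    obtain ⟨N, rfl⟩ := Nat.exists_eq_add_of_le (show 2 ≤ n by omega)
    have e1 : 2 + N - 2 = N := by omega
    have e2 : 2 + N = N + 1 + 1 := by omega
    rw [e1, e2, Nat.succ_descFactorial_succ, Nat.succ_descFactorial_succ]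
    push_cast
    ring
  rw [h3]
  have h4 : (0 : ℤ) ≤ ((n - 2).descFactorial (m + 1) : ℕ) := by positivity
  have h5 : S1 (ind Hᶜ) * ((n - 2).descFactorial (m + 1) : ℕ) ≤
      K * ((n - 2).descFactorial (m + 1) : ℕ) := mul_le_mul_of_nonneg_right hK h4
  have h6 : (0 : ℤ) ≤ (m : ℤ) + 3 := by positivity
  nlinarith [mul_le_mul_of_nonneg_left h5 h6]

theorem star_upper (m n T : ℕ) (h : T + 1 ≤ n) :
    (frustrated (m + 3) (star n T) : ℤ) ≤ (m + 3) * (2 * T) * ((n - 2).descFactorial (m + 1) : ℕ) := by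
  rw [frustrated_star m n T h]
  have h1 : (0 : ℤ) ≤ (T : ℤ) * T - T := by
    rcases Nat.eq_zero_or_pos T with h | h
    · subst h; simp
    · have : (1 : ℤ) ≤ T := by exact_mod_cast h
      nlinarith
  have h2 : (0 : ℤ) ≤ ((n - 3).descFactorial m : ℕ) := by positivity
  have h3 : (0 : ℤ) ≤ (m : ℤ) + 3 := by positivity
  have h4 := mul_nonneg h3 (mul_nonneg h1 h2)
  nlinarith [h4]

theorem sw_compl {V : Type*} (G : SimpleGraph V) (A : Set V) : sw Gᶜ A = (sw G A)ᶜ := by
  ext u v
  rw [SimpleGraph.compl_adj]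
  constructor
  · rintro ⟨h1, h2⟩
    refine ⟨h1, fun h3 => ?_⟩
    have h4 := h3.2
    rw [SimpleGraph.compl_adj] at h2
    tauto
  · rintro ⟨h1, h2⟩
    refine ⟨h1, fun h3 => ?_⟩
    apply h2
    refine ⟨h1, ?_⟩
    rw [SimpleGraph.compl_adj] at h3
    tauto

theorem main (m t : ℕ) : ∃ n₀ : ℕ, ∀ n ≥ n₀, ∀ G : SimpleGraph (Fin n),
    frustrated (m + 3) G < frustrated (m + 3) (star n (t + 1)) →
    ∃ A : Set (Fin n), diffPairs G (bip A) ≤ t ∨ diffPairs Gᶜ (bip A) ≤ t := by
  classical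
  set D : ℕ := (m + 3) * (2 * (t + 1)) with hD
  set C : ℕ := 2 * (m + 1) + 1 with hC
  set L : ℕ := 8 * (t + 1) + 512 * (C * C) with hL
  refine ⟨(t + 2) + 4 + (2 * m + 3) + (L * L + m * (L * L + 2 * L)) + (8 * m * (C + 2) + 3) +
    (m + 3 + 4 * D) + ((m + 3) * (D + 2 * (m + 1)) + D + 2), fun n hn G hfr => ?_⟩
  have n1 : t + 2 ≤ n := by omega
  have n2 : 4 ≤ n := by omega
  have n3 : 2 * m + 3 ≤ n := by omega
  have n4 : L * L + m * (L * L + 2 * L) ≤ n := by omega
  have n5 : 8 * m * (C + 2) + 3 ≤ n := by omega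
  have n6 : m + 3 + 4 * D ≤ n := by omega
  have n7 : (m + 3) * (D + 2 * (m + 1)) + D + 2 ≤ n := by omega
  have n8 : D ≤ n := by omega
  have hC2 : 8 * m * (C * n + 2) ≤ (n - 3) * n := by
    have a1 : 8 * m * (C + 2) ≤ n - 3 := by omega
    calc 8 * m * (C * n + 2) ≤ 8 * m * (C * n + 2 * n) := by
          apply Nat.mul_le_mul_left
          omega
      _ = 8 * m * (C + 2) * n := by ring
      _ ≤ (n - 3) * n := Nat.mul_le_mul_right _ a1
  have hXle : (n - 2).descFactorial (m + 1) ≤ n.descFactorial (m + 1) :=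
    Nat.descFactorial_le _ (by omega)
  have hXpos : 0 < (n - 2).descFactorial (m + 1) := Nat.descFactorial_pos.mpr (by omega)
  have hup : frustrated (m + 3) (star n (t + 1)) ≤ D * (n - 2).descFactorial (m + 1) := by
    have := star_upper m n (t + 1) (by omega)
    have h2 : ((frustrated (m + 3) (star n (t + 1)) : ℕ) : ℤ) ≤
        ((D * (n - 2).descFactorial (m + 1) : ℕ) : ℤ) := by
      rw [hD]
      push_cast at this ⊢
      linarith
    exact_mod_cast h2
  have hlt : frustrated (m + 3) G < (D + 1) * (Fintype.card (Fin n)).descFactorial (m + 1) := by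
    rw [Fintype.card_fin]
    calc frustrated (m + 3) G < frustrated (m + 3) (star n (t + 1)) := hfr
      _ ≤ D * (n - 2).descFactorial (m + 1) := hup
      _ ≤ D * n.descFactorial (m + 1) := Nat.mul_le_mul_left _ hXle
      _ ≤ (D + 1) * n.descFactorial (m + 1) := Nat.mul_le_mul_right _ (by omega)
  obtain ⟨A, hA⟩ := structure_lemma m D G hlt (by rw [Fintype.card_fin]; exact n6)
  rw [Fintype.card_fin] at hA
  have hbound : (D : ℤ) + 2 * ((m + 1) * n) ≤ C * n := by
    have : (D : ℤ) ≤ n := by exact_mod_cast n8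
    rw [hC]
    push_cast
    linarith
  rcases hA with hA | hA
  · obtain ⟨A', hA'⟩ := main_close m t C L n n1 n2 n3 (by rw [hL]) n4 hC2 G hfr
      ⟨A, hA.trans hbound⟩
    exact ⟨A', Or.inl hA'⟩
  · rcases Nat.even_or_odd (m + 3) with hev | hodd
    · rw [← sw_compl] at hA
      have hfr' : frustrated (m + 3) Gᶜ < frustrated (m + 3) (star n (t + 1)) := by
        rw [frustrated_compl_even m hev]
        exact hfr
      obtain ⟨A', hA'⟩ := main_close m t C L n n1 n2 n3 (by rw [hL]) n4 hC2 Gᶜ hfr'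
        ⟨A, hA.trans hbound⟩
      exact ⟨A', Or.inr hA'⟩
    · exfalso
      have h1 := odd_dense m n hodd (by omega) (sw G A) (D + 2 * ((m + 1) * n))
        (by push_cast; exact hA)
      rw [frustrated_sw] at h1
      have h2 : (frustrated (m + 3) G : ℤ) < D * ((n - 2).descFactorial (m + 1) : ℕ) := by
        have : frustrated (m + 3) G < D * (n - 2).descFactorial (m + 1) := lt_of_lt_of_le hfr hup
        exact_mod_cast this
      have h3 := lt_of_le_of_lt h1 h2
      have h4 : (0 : ℤ) < ((n - 2).descFactorial (m + 1) : ℕ) := by exact_mod_cast hXpos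
      have h5 := lt_of_mul_lt_mul_right h3 h4.le
      push_cast at h5
      have h6 : ((m : ℤ) + 3) * (D + 2 * (m + 1)) + D + 2 ≤ n := by exact_mod_cast n7
      have h7 : (1 : ℤ) ≤ n := by
        have : (4 : ℤ) ≤ n := by exact_mod_cast n2
        linarith
      have h8 : (0 : ℤ) ≤ D := by positivity
      have h9 : (0 : ℤ) ≤ m := by positivity
      have h10 : (0 : ℤ) ≤ ((m : ℤ) + 3) * D * (n - 1) := by
        apply mul_nonneg (by positivity)
        linarith
      have h11 : (0 : ℤ) ≤ (D : ℤ) * (n - 1) := mul_nonneg h8 (by linarith)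
      have h12 := mul_le_mul_of_nonneg_right h6 (by linarith : (0 : ℤ) ≤ n)
      nlinarith [h12, h10, h11]

end Pool.Agent.Q46.Frus
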