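import Mathlib

set_option autoImplicit false

/-!
# Probabilistically faulty search on the half-line

A searcher starts at the origin of `[0, ∞)` and moves with unit speed along a path with turning
points `t 0 = 0, t 1, t 2, …`; leg `n` of the path leads from `t n` to `t (n + 1)`.  The treasure is
at `d ≥ 1`.  Whenever the searcher passes over `d`, it is detected with probability `p`,
independently of all other passes; it is detected with certainty when the searcher turns at `d`.
-/

namespace Pool.Agent.Q46.Half

open Filter Topology

open scoped ENNReal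

/-- The sequence of turning points of a trajectory: `t 0 = 0`, `t i ≥ 0`, the searcher moves outward
on the even legs and inward on the odd legs. -/
structure IsTrajectory (t : ℕ → ℝ) : Prop where
  zero : t 0 = 0
  nonneg : ∀ i, 0 ≤ t i
  outward : ∀ i, t (2 * i) < t (2 * i + 1)
  inward : ∀ i, t (2 * i + 2) < t (2 * i + 1)

/-- The time at which the searcher is at the turning point `t n`. -/
noncomputable def clock (t : ℕ → ℝ) (n : ℕ) : ℝ :=
  ∑ j ∈ Finset.range n, |t (j + 1) - t j|

open Classical in
/-- The probability that a treasure at `d` which is still undetected at the beginning of leg `n`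
(from `t n` to `t (n + 1)`) is detected on leg `n`: it is `1` if the searcher turns at `d` at the
end of this leg, it is `p` if the searcher passes over `d` on this leg, and it is `0` otherwise. -/
noncomputable def detect (p : ℝ) (t : ℕ → ℝ) (d : ℝ) (n : ℕ) : ℝ :=
  if t (n + 1) = d then 1
  else if (t n < d ∧ d < t (n + 1)) ∨ (t (n + 1) < d ∧ d < t n) then p else 0

/-- The probability that a treasure at `d` is still undetected at the beginning of leg `n`. -/
noncomputable def undetected (p : ℝ) (t : ℕ → ℝ) (d : ℝ) (n : ℕ) : ℝ :=
  ∏ j ∈ Finset.range n, (1 - detect p t d j)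

open Classical in
/-- The expected time of the first detection of a treasure at `d`, in `[0, ∞]`.  If it is detected
on leg `n`, this happens at time `clock t n + |d - t n|`.  The expectation is infinite if with
positive probability the treasure is never detected. -/
noncomputable def expectedTime (p : ℝ) (t : ℕ → ℝ) (d : ℝ) : ℝ≥0∞ :=
  if Tendsto (undetected p t d) atTop (𝓝 0) then
    ∑' n, ENNReal.ofReal (undetected p t d n * detect p t d n * (clock t n + |d - t n|))
  else ⊤

/-- The competitive ratio `sup_{d ≥ 1} p * E(d) / d` of the trajectory `t`. -/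
noncomputable def ratio (p : ℝ) (t : ℕ → ℝ) : ℝ≥0∞ :=
  ⨆ d : Set.Ici (1 : ℝ), ENNReal.ofReal p * expectedTime p t d / ENNReal.ofReal d

/-! ## The integrated survival function -/

variable {p : ℝ} {t : ℕ → ℝ} {d : ℝ}

/-- The integral of the probability that the treasure is undetected, up to the time `clock t n`. -/
noncomputable def intg (p : ℝ) (t : ℕ → ℝ) (d : ℝ) (n : ℕ) : ℝ :=
  ∑ j ∈ Finset.range n, undetected p t d j *
    (detect p t d j * |d - t j| + (1 - detect p t d j) * |t (j + 1) - t j|)

theorem undetected_succ (n : ℕ) :
    undetected p t d (n + 1) = undetected p t d n * (1 - detect p t d n) := by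
  simp [undetected, Finset.prod_range_succ]

theorem intg_succ (n : ℕ) : intg p t d (n + 1) = intg p t d n + undetected p t d n *
    (detect p t d n * |d - t n| + (1 - detect p t d n) * |t (n + 1) - t n|) := by
  simp [intg, Finset.sum_range_succ]

theorem clock_succ (n : ℕ) : clock t (n + 1) = clock t n + |t (n + 1) - t n| := by
  simp [clock, Finset.sum_range_succ]

theorem clock_nonneg (n : ℕ) : 0 ≤ clock t n := Finset.sum_nonneg fun _ _ => abs_nonneg _

theorem sum_add_undetected_mul_clock (n : ℕ) :
    (∑ j ∈ Finset.range n, undetected p t d j * detect p t d j * (clock t j + |d - t j|)) +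
      undetected p t d n * clock t n = intg p t d n := by
  induction n with
  | zero => simp [clock, intg]
  | succ n ih =>
    rw [Finset.sum_range_succ, intg_succ, ← ih, undetected_succ, clock_succ]
    ring

theorem detect_nonneg (hp0 : 0 ≤ p) (n : ℕ) : 0 ≤ detect p t d n := by
  unfold detect
  split_ifs <;> simp [hp0]

theorem detect_le_one (hp1 : p ≤ 1) (n : ℕ) : detect p t d n ≤ 1 := by
  unfold detect
  split_ifs <;> simp [hp1]

theorem undetected_nonneg (hp1 : p ≤ 1) (n : ℕ) : 0 ≤ undetected p t d n :=
  Finset.prod_nonneg fun j _ => sub_nonneg.2 (detect_le_one hp1 j)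

theorem undetected_antitone (hp0 : 0 ≤ p) (hp1 : p ≤ 1) : Antitone (undetected p t d) := by
  refine antitone_nat_of_succ_le fun n => ?_
  rw [undetected_succ]
  have h1 := undetected_nonneg (t := t) (d := d) hp1 n
  have h2 := detect_nonneg (t := t) (d := d) hp0 n
  nlinarith

theorem intg_mono (hp0 : 0 ≤ p) (hp1 : p ≤ 1) : Monotone (intg p t d) := by
  refine monotone_nat_of_le_succ fun n => ?_
  rw [intg_succ]
  have h1 := undetected_nonneg (t := t) (d := d) hp1 n
  have h2 := detect_nonneg (t := t) (d := d) hp0 n
  have h3 := detect_le_one (t := t) (d := d) hp1 n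
  have h4 : 0 ≤ detect p t d n * |d - t n| + (1 - detect p t d n) * |t (n + 1) - t n| := by
    have := abs_nonneg (d - t n)
    have := abs_nonneg (t (n + 1) - t n)
    have : 0 ≤ 1 - detect p t d n := by linarith
    positivity
  have := mul_nonneg h1 h4
  linarith

/-- An upper bound for the expected time of detection. -/
theorem expectedTime_le (hp0 : 0 ≤ p) (hp1 : p ≤ 1) {B : ℝ}
    (h0 : Tendsto (undetected p t d) atTop (𝓝 0)) (hB : ∀ n, intg p t d n ≤ B) :
    expectedTime p t d ≤ ENNReal.ofReal B := by
  unfold expectedTime
  rw [if_pos h0]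
  refine ENNReal.tsum_le_of_sum_range_le fun n => ?_
  rw [← ENNReal.ofReal_sum_of_nonneg]
  · refine ENNReal.ofReal_le_ofReal (le_trans ?_ (hB n))
    rw [← sum_add_undetected_mul_clock]
    have := mul_nonneg (undetected_nonneg (t := t) (d := d) hp1 n) (clock_nonneg (t := t) n)
    linarith
  · intro j _
    have h1 := undetected_nonneg (t := t) (d := d) hp1 j
    have h2 := detect_nonneg (t := t) (d := d) hp0 j
    have h3 := clock_nonneg (t := t) j
    positivity

/-! ## One leg -/

theorem leg_below {n : ℕ} {a b : ℝ} (ha : t n = a) (hb : t (n + 1) = b) (h1 : a < d) (h2 : b < d) :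
    undetected p t d (n + 1) = undetected p t d n ∧
    intg p t d (n + 1) = intg p t d n + undetected p t d n * |b - a| := by
  have h : detect p t d n = 0 := by
    unfold detect
    rw [ha, hb, if_neg h2.ne, if_neg]
    rintro (⟨_, h⟩ | ⟨_, h⟩) <;> linarith
  rw [undetected_succ, intg_succ, h, ha, hb]
  constructor <;> ring

theorem leg_above {n : ℕ} {a b : ℝ} (ha : t n = a) (hb : t (n + 1) = b) (h1 : d < a) (h2 : d < b) :
    undetected p t d (n + 1) = undetected p t d n ∧
    intg p t d (n + 1) = intg p t d n + undetected p t d n * |b - a| := by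
  have h : detect p t d n = 0 := by
    unfold detect
    rw [ha, hb, if_neg h2.ne', if_neg]
    rintro (⟨h, _⟩ | ⟨h, _⟩) <;> linarith
  rw [undetected_succ, intg_succ, h, ha, hb]
  constructor <;> ring

theorem leg_up {n : ℕ} {a b : ℝ} (ha : t n = a) (hb : t (n + 1) = b) (h1 : a < d) (h2 : d < b) :
    undetected p t d (n + 1) = undetected p t d n * (1 - p) ∧
    intg p t d (n + 1) = intg p t d n + undetected p t d n * (p * (d - a) + (1 - p) * (b - a)) := by
  have h : detect p t d n = p := by
    unfold detect
    rw [ha, hb, if_neg h2.ne', if_pos (Or.inl ⟨h1, h2⟩)]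
  rw [undetected_succ, intg_succ, h, ha, hb, abs_of_pos (by linarith : (0 : ℝ) < d - a),
    abs_of_pos (by linarith : (0 : ℝ) < b - a)]
  constructor <;> ring

theorem leg_down {n : ℕ} {a b : ℝ} (ha : t n = a) (hb : t (n + 1) = b) (h1 : d < a) (h2 : b < d) :
    undetected p t d (n + 1) = undetected p t d n * (1 - p) ∧
    intg p t d (n + 1) = intg p t d n + undetected p t d n * (p * (a - d) + (1 - p) * (a - b)) := by
  have h : detect p t d n = p := by
    unfold detect
    rw [ha, hb, if_neg h2.ne, if_pos (Or.inr ⟨h2, h1⟩)]
  rw [undetected_succ, intg_succ, h, ha, hb, abs_of_neg (by linarith : d - a < (0 : ℝ)),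
    abs_of_neg (by linarith : b - a < (0 : ℝ))]
  constructor <;> ring

theorem leg_turn {n : ℕ} {a : ℝ} (ha : t n = a) (hb : t (n + 1) = d) :
    undetected p t d (n + 1) = 0 ∧
    intg p t d (n + 1) = intg p t d n + undetected p t d n * |d - a| := by
  have h : detect p t d n = 1 := by
    unfold detect
    rw [hb, if_pos rfl]
  rw [undetected_succ, intg_succ, h, ha, hb]
  constructor <;> ring

/-- After a certain detection nothing changes. -/
theorem after_zero {N : ℕ} (h : undetected p t d N = 0) (n : ℕ) (hn : N ≤ n) :
    undetected p t d n = 0 ∧ intg p t d n = intg p t d N := by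
  induction n, hn using Nat.le_induction with
  | base => exact ⟨h, rfl⟩
  | succ n _ ih =>
    rw [undetected_succ, intg_succ, ih.1, ih.2]
    constructor <;> ring

end Pool.Agent.Q46.Half
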