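import Pool.Agent.Q46.HalfDefs

set_option autoImplicit false

/-!
# A trajectory with competitive ratio below `4 - p` for `p = 1/3`
-/

namespace Pool.Agent.Q46.Half

open Filter Topology

open scoped ENNReal

/-- The turning points of one cycle, relative to the outermost one. -/
noncomputable def shape : ℕ → ℝ
  | 0 => 0
  | 1 => 32 / 81
  | 2 => 28 / 81
  | 3 => 7 / 9
  | 4 => 2 / 3
  | _ => 1

/-- Cycle `k`: `0 → 32/81 → 28/81 → 7/9 → 2/3 → 1 → 0`, scaled by `(3/2) ^ k`. -/
noncomputable def T (n : ℕ) : ℝ := (3 / 2 : ℝ) ^ (n / 6) * shape (n % 6)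

theorem T0 (k : ℕ) : T (6 * k) = 0 := by
  have h1 : (6 * k) / 6 = k := by omega
  have h2 : (6 * k) % 6 = 0 := by omega
  simp [T, h1, h2, shape]

theorem T1 (k : ℕ) : T (6 * k + 1) = 32 / 81 * (3 / 2 : ℝ) ^ k := by
  have h1 : (6 * k + 1) / 6 = k := by omega
  have h2 : (6 * k + 1) % 6 = 1 := by omega
  simp only [T, h1, h2, shape]; ring

theorem T2 (k : ℕ) : T (6 * k + 2) = 28 / 81 * (3 / 2 : ℝ) ^ k := by
  have h1 : (6 * k + 2) / 6 = k := by omega
  have h2 : (6 * k + 2) % 6 = 2 := by omega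
  simp only [T, h1, h2, shape]; ring

theorem T3 (k : ℕ) : T (6 * k + 3) = 7 / 9 * (3 / 2 : ℝ) ^ k := by
  have h1 : (6 * k + 3) / 6 = k := by omega
  have h2 : (6 * k + 3) % 6 = 3 := by omega
  simp only [T, h1, h2, shape]; ring

theorem T4 (k : ℕ) : T (6 * k + 4) = 2 / 3 * (3 / 2 : ℝ) ^ k := by
  have h1 : (6 * k + 4) / 6 = k := by omega
  have h2 : (6 * k + 4) % 6 = 4 := by omega
  simp only [T, h1, h2, shape]; ring

theorem T5 (k : ℕ) : T (6 * k + 5) = (3 / 2 : ℝ) ^ k := by
  have h1 : (6 * k + 5) / 6 = k := by omega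
  have h2 : (6 * k + 5) % 6 = 5 := by omega
  simp only [T, h1, h2, shape]; ring

theorem T6 (k : ℕ) : T (6 * k + 6) = 0 := by
  have := T0 (k + 1)
  rwa [show 6 * (k + 1) = 6 * k + 6 by ring] at this

theorem isTrajectory : IsTrajectory T := by
  have key : ∀ k : ℕ, (0 : ℝ) < (3 / 2) ^ k := fun k => by positivity
  refine ⟨T0 0, fun i => ?_, fun i => ?_, fun i => ?_⟩
  · have : 0 ≤ shape (i % 6) := by
      unfold shape
      split <;> norm_num
    have := key (i / 6)
    unfold T
    positivity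
  · obtain ⟨k, hk⟩ : ∃ k, i = 3 * k ∨ i = 3 * k + 1 ∨ i = 3 * k + 2 := ⟨i / 3, by omega⟩
    have hM := key k
    rcases hk with rfl | rfl | rfl
    · rw [show 2 * (3 * k) = 6 * k by ring, T0, T1]; linarith
    · rw [show 2 * (3 * k + 1) = 6 * k + 2 by ring, T2, show 6 * k + 2 + 1 = 6 * k + 3 by ring, T3]
      linarith
    · rw [show 2 * (3 * k + 2) = 6 * k + 4 by ring, T4, show 6 * k + 4 + 1 = 6 * k + 5 by ring, T5]
      linarith
  · obtain ⟨k, hk⟩ : ∃ k, i = 3 * k ∨ i = 3 * k + 1 ∨ i = 3 * k + 2 := ⟨i / 3, by omega⟩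
    have hM := key k
    rcases hk with rfl | rfl | rfl
    · rw [show 2 * (3 * k) + 2 = 6 * k + 2 by ring, T2, show 2 * (3 * k) + 1 = 6 * k + 1 by ring, T1]
      linarith
    · rw [show 2 * (3 * k + 1) + 2 = 6 * k + 4 by ring, T4,
        show 2 * (3 * k + 1) + 1 = 6 * k + 3 by ring, T3]
      linarith
    · rw [show 2 * (3 * k + 2) + 2 = 6 * k + 6 by ring, T6,
        show 2 * (3 * k + 2) + 1 = 6 * k + 5 by ring, T5]
      linarith

/-! ## One cycle -/

section cycle

variable {d σ J M : ℝ} {k : ℕ}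

/-- State: at the beginning of leg `n` the probability that the treasure is undetected is `σ` and
the integrated probability is `J`. -/
def St (d : ℝ) (n : ℕ) (σ J : ℝ) : Prop :=
  undetected (1 / 3) T d n = σ ∧ intg (1 / 3) T d n = J

theorem St.below {n : ℕ} {a b : ℝ} (h : St d n σ J) (ha : T n = a) (hb : T (n + 1) = b)
    (h1 : a < d) (h2 : b < d) {L : ℝ} (hL : |b - a| = L) : St d (n + 1) σ (J + σ * L) := by
  obtain ⟨e1, e2⟩ := leg_below (p := 1 / 3) ha hb h1 h2
  exact ⟨by rw [e1, h.1], by rw [e2, h.1, h.2, hL]⟩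

theorem St.above {n : ℕ} {a b : ℝ} (h : St d n σ J) (ha : T n = a) (hb : T (n + 1) = b)
    (h1 : d < a) (h2 : d < b) {L : ℝ} (hL : |b - a| = L) : St d (n + 1) σ (J + σ * L) := by
  obtain ⟨e1, e2⟩ := leg_above (p := 1 / 3) ha hb h1 h2
  exact ⟨by rw [e1, h.1], by rw [e2, h.1, h.2, hL]⟩

theorem St.up {n : ℕ} {a b : ℝ} (h : St d n σ J) (ha : T n = a) (hb : T (n + 1) = b)
    (h1 : a < d) (h2 : d < b) :
    St d (n + 1) (σ * (2 / 3)) (J + σ * (1 / 3 * (d - a) + 2 / 3 * (b - a))) := by
  obtain ⟨e1, e2⟩ := leg_up (p := 1 / 3) ha hb h1 h2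
  exact ⟨by rw [e1, h.1]; ring, by rw [e2, h.1, h.2]; ring⟩

theorem St.down {n : ℕ} {a b : ℝ} (h : St d n σ J) (ha : T n = a) (hb : T (n + 1) = b)
    (h1 : d < a) (h2 : b < d) :
    St d (n + 1) (σ * (2 / 3)) (J + σ * (1 / 3 * (a - d) + 2 / 3 * (a - b))) := by
  obtain ⟨e1, e2⟩ := leg_down (p := 1 / 3) ha hb h1 h2
  exact ⟨by rw [e1, h.1]; ring, by rw [e2, h.1, h.2]; ring⟩

theorem St.turn {n : ℕ} {a : ℝ} (h : St d n σ J) (ha : T n = a) (hb : T (n + 1) = d)
    (h1 : a < d) : St d (n + 1) 0 (J + σ * (d - a)) := by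
  obtain ⟨e1, e2⟩ := leg_turn (p := 1 / 3) ha hb
  exact ⟨e1, by rw [e2, h.1, h.2, abs_of_pos (by linarith)]⟩

theorem St.conv {n n' : ℕ} {σ' J' : ℝ} (h : St d n σ J) (hn : n = n') (h1 : σ = σ')
    (h2 : J = J') : St d n' σ' J' := by subst hn h1 h2; exact h

theorem absL {a b L : ℝ} (h : b - a = L) (hL : 0 ≤ L) : |b - a| = L := by
  rw [h, abs_of_nonneg hL]

theorem absR {a b L : ℝ} (h : b - a = -L) (hL : 0 ≤ L) : |b - a| = L := by
  rw [h, abs_neg, abs_of_nonneg hL]

/-- A cycle that does not reach `d`. -/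
theorem cycle_none (hM : (3 / 2 : ℝ) ^ k = M) (hM0 : 0 < M) (hd : M < d) (h : St d (6 * k) σ J) :
    St d (6 * (k + 1)) σ (J + σ * (188 / 81 * M)) := by
  have a0 := T0 k
  have a1 := T1 k; have a2 := T2 k; have a3 := T3 k; have a4 := T4 k; have a5 := T5 k
  have a6 := T6 k
  rw [hM] at a1 a2 a3 a4 a5
  have s1 := h.below a0 a1 (by linarith) (by linarith) (absL (L := 32 / 81 * M) (by ring) (by linarith))
  have s2 := s1.below a1 a2 (by linarith) (by linarith) (absR (L := 4 / 81 * M) (by ring) (by linarith))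
  have s3 := s2.below a2 a3 (by linarith) (by linarith) (absL (L := 35 / 81 * M) (by ring) (by linarith))
  have s4 := s3.below a3 a4 (by linarith) (by linarith) (absR (L := 9 / 81 * M) (by ring) (by linarith))
  have s5 := s4.below a4 a5 (by linarith) (by linarith) (absL (L := 27 / 81 * M) (by ring) (by linarith))
  have s6 := s5.below a5 a6 (by linarith) (by linarith) (absR (L := M) (by ring) (by linarith))
  exact s6.conv (by ring) (by ring) (by ring)

/-- Passes on legs 5 and 6. -/
theorem cycle_56 (hM : (3 / 2 : ℝ) ^ k = M) (hM0 : 0 < M) (hd : 7 / 9 * M < d) (hd' : d < M)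
    (h : St d (6 * k) σ J) :
    St d (6 * (k + 1)) (σ * (4 / 9))
      (J + σ * (80 / 81 * M + (1 / 3 * (d - 54 / 81 * M) + 2 / 3 * (27 / 81 * M)) +
        2 / 3 * (1 / 3 * (M - d) + 2 / 3 * M))) := by
  have a0 := T0 k
  have a1 := T1 k; have a2 := T2 k; have a3 := T3 k; have a4 := T4 k; have a5 := T5 k
  have a6 := T6 k
  rw [hM] at a1 a2 a3 a4 a5
  have s1 := h.below a0 a1 (by linarith) (by linarith) (absL (L := 32 / 81 * M) (by ring) (by linarith))
  have s2 := s1.below a1 a2 (by linarith) (by linarith) (absR (L := 4 / 81 * M) (by ring) (by linarith))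
  have s3 := s2.below a2 a3 (by linarith) (by linarith) (absL (L := 35 / 81 * M) (by ring) (by linarith))
  have s4 := s3.below a3 a4 (by linarith) (by linarith) (absR (L := 9 / 81 * M) (by ring) (by linarith))
  have s5 := s4.up a4 a5 (by linarith) (by linarith)
  have s6 := s5.down a5 a6 (by linarith) (by linarith)
  exact s6.conv (by ring) (by ring) (by ring)

/-- Passes on legs 3, 4, 5 and 6. -/
theorem cycle_3456 (hM : (3 / 2 : ℝ) ^ k = M) (hM0 : 0 < M) (hd : 2 / 3 * M < d)
    (hd' : d < 7 / 9 * M) (h : St d (6 * k) σ J) :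
    St d (6 * (k + 1)) (σ * (16 / 81))
      (J + σ * (36 / 81 * M + (1 / 3 * (d - 28 / 81 * M) + 2 / 3 * (35 / 81 * M)) +
        2 / 3 * (1 / 3 * (63 / 81 * M - d) + 2 / 3 * (9 / 81 * M)) +
        4 / 9 * (1 / 3 * (d - 54 / 81 * M) + 2 / 3 * (27 / 81 * M)) +
        8 / 27 * (1 / 3 * (M - d) + 2 / 3 * M))) := by
  have a0 := T0 k
  have a1 := T1 k; have a2 := T2 k; have a3 := T3 k; have a4 := T4 k; have a5 := T5 k
  have a6 := T6 k
  rw [hM] at a1 a2 a3 a4 a5
  have s1 := h.below a0 a1 (by linarith) (by linarith) (absL (L := 32 / 81 * M) (by ring) (by linarith))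
  have s2 := s1.below a1 a2 (by linarith) (by linarith) (absR (L := 4 / 81 * M) (by ring) (by linarith))
  have s3 := s2.up a2 a3 (by linarith) (by linarith)
  have s4 := s3.down a3 a4 (by linarith) (by linarith)
  have s5 := s4.up a4 a5 (by linarith) (by linarith)
  have s6 := s5.down a5 a6 (by linarith) (by linarith)
  exact s6.conv (by ring) (by ring) (by ring)

/-- Passes on legs 3 and 6. -/
theorem cycle_36 (hM : (3 / 2 : ℝ) ^ k = M) (hM0 : 0 < M) (hd : 32 / 81 * M < d)
    (hd' : d < 2 / 3 * M) (h : St d (6 * k) σ J) :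
    St d (6 * (k + 1)) (σ * (4 / 9))
      (J + σ * (36 / 81 * M + (1 / 3 * (d - 28 / 81 * M) + 2 / 3 * (35 / 81 * M)) +
        2 / 3 * (36 / 81 * M) + 2 / 3 * (1 / 3 * (M - d) + 2 / 3 * M))) := by
  have a0 := T0 k
  have a1 := T1 k; have a2 := T2 k; have a3 := T3 k; have a4 := T4 k; have a5 := T5 k
  have a6 := T6 k
  rw [hM] at a1 a2 a3 a4 a5
  have s1 := h.below a0 a1 (by linarith) (by linarith) (absL (L := 32 / 81 * M) (by ring) (by linarith))
  have s2 := s1.below a1 a2 (by linarith) (by linarith) (absR (L := 4 / 81 * M) (by ring) (by linarith))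
  have s3 := s2.up a2 a3 (by linarith) (by linarith)
  have s4 := s3.above a3 a4 (by linarith) (by linarith) (absR (L := 9 / 81 * M) (by ring) (by linarith))
  have s5 := s4.above a4 a5 (by linarith) (by linarith) (absL (L := 27 / 81 * M) (by ring) (by linarith))
  have s6 := s5.down a5 a6 (by linarith) (by linarith)
  exact s6.conv (by ring) (by ring) (by ring)

/-- Passes on legs 1, 2, 3 and 6. -/
theorem cycle_1236 (hM : (3 / 2 : ℝ) ^ k = M) (hM0 : 0 < M) (hd : 28 / 81 * M < d)
    (hd' : d < 32 / 81 * M) (h : St d (6 * k) σ J) :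
    St d (6 * (k + 1)) (σ * (16 / 81))
      (J + σ * ((1 / 3 * d + 2 / 3 * (32 / 81 * M)) +
        2 / 3 * (1 / 3 * (32 / 81 * M - d) + 2 / 3 * (4 / 81 * M)) +
        4 / 9 * (1 / 3 * (d - 28 / 81 * M) + 2 / 3 * (35 / 81 * M)) +
        8 / 27 * (36 / 81 * M) + 8 / 27 * (1 / 3 * (M - d) + 2 / 3 * M))) := by
  have a0 := T0 k
  have a1 := T1 k; have a2 := T2 k; have a3 := T3 k; have a4 := T4 k; have a5 := T5 k
  have a6 := T6 k
  rw [hM] at a1 a2 a3 a4 a5
  have s1 := h.up a0 a1 (by linarith) (by linarith)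
  have s2 := s1.down a1 a2 (by linarith) (by linarith)
  have s3 := s2.up a2 a3 (by linarith) (by linarith)
  have s4 := s3.above a3 a4 (by linarith) (by linarith) (absR (L := 9 / 81 * M) (by ring) (by linarith))
  have s5 := s4.above a4 a5 (by linarith) (by linarith) (absL (L := 27 / 81 * M) (by ring) (by linarith))
  have s6 := s5.down a5 a6 (by linarith) (by linarith)
  exact s6.conv (by ring) (by ring) (by ring)

/-- Passes on legs 1 and 6. -/
theorem cycle_16 (hM : (3 / 2 : ℝ) ^ k = M) (hM0 : 0 < M) (hd : 0 < d)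
    (hd' : d < 28 / 81 * M) (h : St d (6 * k) σ J) :
    St d (6 * (k + 1)) (σ * (4 / 9)) (J + σ * (376 / 243 * M + 1 / 9 * d)) := by
  have a0 := T0 k
  have a1 := T1 k; have a2 := T2 k; have a3 := T3 k; have a4 := T4 k; have a5 := T5 k
  have a6 := T6 k
  rw [hM] at a1 a2 a3 a4 a5
  have s1 := h.up a0 a1 (by linarith) (by linarith)
  have s2 := s1.above a1 a2 (by linarith) (by linarith) (absR (L := 4 / 81 * M) (by ring) (by linarith))
  have s3 := s2.above a2 a3 (by linarith) (by linarith) (absL (L := 35 / 81 * M) (by ring) (by linarith))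
  have s4 := s3.above a3 a4 (by linarith) (by linarith) (absR (L := 9 / 81 * M) (by ring) (by linarith))
  have s5 := s4.above a4 a5 (by linarith) (by linarith) (absL (L := 27 / 81 * M) (by ring) (by linarith))
  have s6 := s5.down a5 a6 (by linarith) (by linarith)
  exact s6.conv (by ring) (by ring) (by ring)

end cycle

/-! ## All cycles -/

/-- The cycles before `d` is reached. -/
theorem start {d : ℝ} {j : ℕ} (hd : ∀ k, k < j → (3 / 2 : ℝ) ^ k < d) :
    St d (6 * j) 1 (376 / 81 * ((3 / 2 : ℝ) ^ j - 1)) := by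
  induction j with
  | zero => exact ⟨by simp [undetected], by simp [intg]⟩
  | succ j ih =>
    have s := cycle_none rfl (by positivity) (hd j (Nat.lt_succ_self j))
      (ih fun k hk => hd k (Nat.lt_succ_of_lt hk))
    exact s.conv rfl rfl (by rw [pow_succ]; ring)

/-- The late cycles. -/
theorem late {d σ J : ℝ} {K : ℕ} (hd : 0 < d) (hK : d < 28 / 81 * (3 / 2 : ℝ) ^ K)
    (h : St d (6 * K) σ J) (i : ℕ) :
    St d (6 * (K + i)) (σ * (4 / 9) ^ i) (J + σ * (376 / 81 * (3 / 2 : ℝ) ^ K + 1 / 5 * d) -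
      σ * (4 / 9) ^ i * (376 / 81 * (3 / 2 : ℝ) ^ (K + i) + 1 / 5 * d)) := by
  induction i with
  | zero => exact h.conv rfl (by ring) (by simp)
  | succ i ih =>
    have hpos : (0 : ℝ) < (3 / 2) ^ K := by positivity
    have hone : (1 : ℝ) ≤ (3 / 2) ^ i := one_le_pow₀ (by norm_num)
    have hbig : d < 28 / 81 * (3 / 2 : ℝ) ^ (K + i) := by
      rw [pow_add]; nlinarith
    have s := cycle_16 rfl (by positivity) hd hbig ih
    refine s.conv (by ring) (by ring) ?_
    rw [show K + (i + 1) = (K + i) + 1 by ring, pow_succ, pow_succ]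
    ring

/-- The expected time of detection if the late phase begins with cycle `K`. -/
theorem expectedTime_le_of_late {d σ J B : ℝ} {K : ℕ} (hd : 0 < d) (hσ : 0 ≤ σ)
    (hK : d < 28 / 81 * (3 / 2 : ℝ) ^ K) (h : St d (6 * K) σ J)
    (hB : J + σ * (376 / 81 * (3 / 2 : ℝ) ^ K + 1 / 5 * d) ≤ B) :
    expectedTime (1 / 3) T d ≤ ENNReal.ofReal B := by
  have hp0 : (0 : ℝ) ≤ 1 / 3 := by norm_num
  have hp1 : (1 / 3 : ℝ) ≤ 1 := by norm_num
  refine expectedTime_le hp0 hp1 ?_ fun n => ?_
  · have hanti := undetected_antitone (t := T) (d := d) hp0 hp1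
    have hbdd : BddBelow (Set.range (undetected (1 / 3) T d)) :=
      ⟨0, by rintro _ ⟨n, rfl⟩; exact undetected_nonneg hp1 n⟩
    have hlim := tendsto_atTop_ciInf hanti hbdd
    have hsub : Tendsto (fun i : ℕ => 6 * (K + i)) atTop atTop := by
      refine tendsto_atTop_mono (fun i => ?_) tendsto_id
      simp only [id]; omega
    have h1 := hlim.comp hsub
    have h2 : Tendsto (fun i : ℕ => σ * (4 / 9 : ℝ) ^ i) atTop (𝓝 (σ * 0)) :=
      (tendsto_pow_atTop_nhds_zero_of_lt_one (by norm_num) (by norm_num)).const_mul σ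
    have h3 : (undetected (1 / 3) T d ∘ fun i : ℕ => 6 * (K + i)) =
        fun i : ℕ => σ * (4 / 9 : ℝ) ^ i := by
      funext i
      exact (late hd hK h i).1
    rw [h3] at h1
    have h4 := tendsto_nhds_unique h1 h2
    rw [h4] at hlim
    simpa using hlim
  · have hmono := intg_mono (t := T) (d := d) hp0 hp1
    refine (hmono (show n ≤ 6 * (K + n) by omega)).trans ?_
    rw [(late hd hK h n).2]
    have : 0 ≤ σ * (4 / 9) ^ n * (376 / 81 * (3 / 2 : ℝ) ^ (K + n) + 1 / 5 * d) := by positivity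
    linarith

/-- The expected time of detection if the searcher turns at `d`. -/
theorem expectedTime_le_of_turn {d J B : ℝ} {N : ℕ} (h : St d N 0 J) (hB : J ≤ B) :
    expectedTime (1 / 3) T d ≤ ENNReal.ofReal B := by
  have hp0 : (0 : ℝ) ≤ 1 / 3 := by norm_num
  have hp1 : (1 / 3 : ℝ) ≤ 1 := by norm_num
  refine expectedTime_le hp0 hp1 ?_ fun n => ?_
  · refine tendsto_const_nhds.congr' ?_
    filter_upwards [eventually_ge_atTop N] with n hn
    exact (after_zero h.1 n hn).1.symm
  · have hmono := intg_mono (t := T) (d := d) hp0 hp1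
    have h1 := (after_zero h.1 (max n N) (le_max_right _ _)).2
    have h2 := hmono (le_max_left n N)
    rw [h1, h.2] at h2
    linarith

/-- The main estimate. -/
theorem expectedTime_le_main {d : ℝ} (hd : 1 ≤ d) :
    expectedTime (1 / 3) T d ≤ ENNReal.ofReal (219 / 20 * d) := by
  obtain ⟨j, hj1, hj2⟩ : ∃ j : ℕ, (3 / 2 : ℝ) ^ j ≤ d ∧ d < (3 / 2 : ℝ) ^ (j + 1) :=
    exists_nat_pow_near hd (by norm_num)
  obtain ⟨m, hm⟩ : ∃ m : ℝ, (3 / 2 : ℝ) ^ j = m := ⟨_, rfl⟩
  have hm0 : 0 < m := by rw [← hm]; positivity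
  have e1 : (3 / 2 : ℝ) ^ (j + 1) = 3 / 2 * m := by rw [pow_succ, hm]; ring
  have e2 : (3 / 2 : ℝ) ^ (j + 2) = 9 / 4 * m := by rw [pow_succ, e1]; ring
  have e3 : (3 / 2 : ℝ) ^ (j + 3) = 27 / 8 * m := by rw [pow_succ, e2]; ring
  have e4 : (3 / 2 : ℝ) ^ (j + 4) = 81 / 16 * m := by rw [pow_succ, e3]; ring
  rw [hm] at hj1
  rw [e1] at hj2
  have hsmall : ∀ k, k < j → (3 / 2 : ℝ) ^ k < d := by
    intro k hk
    refine lt_of_lt_of_le ?_ hj1
    rw [← hm]
    exact pow_lt_pow_right₀ (by norm_num) hk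
  have s0 := start hsmall
  rw [hm] at s0
  rcases eq_or_lt_of_le hj1 with hmd | hmd
  · -- `d = m`
    have a0 := T0 j
    have a1 := T1 j; have a2 := T2 j; have a3 := T3 j; have a4 := T4 j; have a5 := T5 j
    rw [hm] at a1 a2 a3 a4 a5
    have s1 := s0.below a0 a1 (by linarith) (by linarith)
      (absL (L := 32 / 81 * m) (by ring) (by linarith))
    have s2 := s1.below a1 a2 (by linarith) (by linarith)
      (absR (L := 4 / 81 * m) (by ring) (by linarith))
    have s3 := s2.below a2 a3 (by linarith) (by linarith)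
      (absL (L := 35 / 81 * m) (by ring) (by linarith))
    have s4 := s3.below a3 a4 (by linarith) (by linarith)
      (absR (L := 9 / 81 * m) (by ring) (by linarith))
    have s5 := s4.turn a4 (a5.trans hmd) (by linarith)
    exact expectedTime_le_of_turn s5 (by linarith)
  · -- `m < d`
    have s1 := cycle_none hm hm0 hmd s0
    have b0 := T0 (j + 1)
    have b1 := T1 (j + 1); have b2 := T2 (j + 1); have b3 := T3 (j + 1)
    rw [e1] at b1 b2 b3
    rcases lt_trichotomy d (7 / 6 * m) with h | h | h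
    · -- `m < d < 7/6 m`
      have s2 := cycle_3456 e1 (by linarith) (by linarith) (by linarith) s1
      have s3 := cycle_36 (k := j + 2) e2 (by linarith) (by linarith) (by linarith) s2
      have s4 := cycle_16 (k := j + 3) e3 (by linarith) (by linarith) (by linarith) s3
      refine expectedTime_le_of_late (K := j + 4) (by linarith) (by norm_num)
        (by rw [e4]; linarith) s4 ?_
      rw [e4]
      linarith
    · -- `d = 7/6 m`
      have s2 := s1.below b0 b1 (by linarith) (by linarith)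
        (absL (L := 16 / 27 * m) (by ring) (by linarith))
      have s3 := s2.below b1 b2 (by linarith) (by linarith)
        (absR (L := 2 / 27 * m) (by ring) (by linarith))
      have s4 := s3.turn b2 (b3.trans (by linarith)) (by linarith)
      exact expectedTime_le_of_turn s4 (by linarith)
    · rcases lt_trichotomy d (4 / 3 * m) with h' | h' | h'
      · -- `7/6 m < d < 4/3 m`
        have s2 := cycle_56 e1 (by linarith) (by linarith) (by linarith) s1
        have s3 := cycle_36 (k := j + 2) e2 (by linarith) (by linarith) (by linarith) s2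
        have s4 := cycle_1236 (k := j + 3) e3 (by linarith) (by linarith) (by linarith) s3
        refine expectedTime_le_of_late (K := j + 4) (by linarith) (by norm_num)
          (by rw [e4]; linarith) s4 ?_
        rw [e4]
        linarith
      · -- `d = 4/3 m`
        have s2 := cycle_56 e1 (by linarith) (by linarith) (by linarith) s1
        have s3 := cycle_36 (k := j + 2) e2 (by linarith) (by linarith) (by linarith) s2
        have c0 := T0 (j + 3)
        have c1 := T1 (j + 3)
        rw [e3] at c1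
        have s4 := St.turn (s3.conv (n' := 6 * (j + 3)) rfl rfl rfl) c0 (c1.trans (by linarith))
          (by linarith)
        exact expectedTime_le_of_turn s4 (by linarith)
      · -- `4/3 m < d < 3/2 m`
        have s2 := cycle_56 e1 (by linarith) (by linarith) (by linarith) s1
        have s3 := cycle_36 (k := j + 2) e2 (by linarith) (by linarith) (by linarith) s2
        have s4 := cycle_36 (k := j + 3) e3 (by linarith) (by linarith) (by linarith) s3
        refine expectedTime_le_of_late (K := j + 4) (by linarith) (by norm_num)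
          (by rw [e4]; linarith) s4 ?_
        rw [e4]
        linarith

/-- The competitive ratio of `T` for `p = 1/3` is at most `73/20`. -/
theorem ratio_le : ratio (1 / 3) T ≤ ENNReal.ofReal (73 / 20) := by
  refine iSup_le fun ⟨d, hd⟩ => ?_
  have hd1 : (1 : ℝ) ≤ d := hd
  have hd0 : (0 : ℝ) < d := by linarith
  refine ENNReal.div_le_of_le_mul ?_
  refine (mul_le_mul_right (expectedTime_le_main hd1) _).trans ?_
  rw [← ENNReal.ofReal_mul (by norm_num), ← ENNReal.ofReal_mul (by norm_num)]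
  exact ENNReal.ofReal_le_ofReal (by linarith)

end Pool.Agent.Q46.Half
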