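import Mathlib

/-!
# Random subsets with product weights

Every subset `B` of a finite set gets the weight `(1/8)^|B| (7/8)^(n-|B|)`.  The centred indicator
`eta v B = 1 - 8 [v ∈ B]` is orthogonal to every function which does not depend on `v`.
-/

open Finset

set_option linter.unusedSectionVars false

namespace Pool.Agent.Q46.Ost

variable {V : Type*} [Fintype V] [DecidableEq V]

/-- product weight with parameter `1/8` -/
noncomputable def wt (B : Finset V) : ℝ :=
  (1 / 8 : ℝ) ^ (#B) * (7 / 8 : ℝ) ^ (Fintype.card V - #B)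

/-- centred indicator -/
noncomputable def eta (v : V) (B : Finset V) : ℝ := if v ∈ B then -7 else 1

theorem wt_nonneg (B : Finset V) : 0 ≤ wt B := by unfold wt; positivity

theorem sum_wt : ∑ B : Finset V, wt B = 1 := by
  unfold wt
  rw [Fintype.sum_pow_mul_eq_add_pow]
  norm_num

theorem wt_insert {v : V} {B : Finset V} (h : v ∉ B) : wt (insert v B) = wt B / 7 := by
  unfold wt
  have hc : #B < Fintype.card V := by
    rw [← Finset.card_univ]
    exact Finset.card_lt_card ((Finset.ssubset_univ_iff).2 (fun hB => h (hB ▸ Finset.mem_univ v)))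
  rw [Finset.card_insert_of_notMem h]
  obtain ⟨k, hk⟩ : ∃ k, Fintype.card V = #B + 1 + k := ⟨Fintype.card V - (#B + 1), by omega⟩
  rw [hk]
  have h1 : #B + 1 + k - (#B + 1) = k := by omega
  have h2 : #B + 1 + k - #B = k + 1 := by omega
  rw [h1, h2, pow_succ, pow_succ]
  ring

theorem sum_split (v : V) (f : Finset V → ℝ) :
    ∑ B : Finset V, f B
      = ∑ B ∈ (univ.erase v).powerset, (f B + f (insert v B)) := by
  have h1 : (univ : Finset (Finset V)) = (insert v (univ.erase v)).powerset := by
    rw [Finset.insert_erase (Finset.mem_univ v), Finset.powerset_univ]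
  rw [h1, Finset.sum_powerset_insert (Finset.notMem_erase v univ), Finset.sum_add_distrib]

theorem sum_eta (v : V) (h : Finset V → ℝ) (hh : ∀ B, v ∉ B → h (insert v B) = h B) :
    ∑ B : Finset V, wt B * (eta v B * h B) = 0 := by
  rw [sum_split v]
  apply Finset.sum_eq_zero
  intro B hB
  have hv : v ∉ B := fun hvB => by
    have := Finset.mem_powerset.1 hB hvB
    simp at this
  rw [wt_insert hv, hh B hv]
  simp only [eta, hv, Finset.mem_insert_self, if_true, if_false]
  ring

theorem sum_eta_sq (v : V) (h : Finset V → ℝ) (hh : ∀ B, v ∉ B → h (insert v B) = h B) :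
    ∑ B : Finset V, wt B * (eta v B * (eta v B * h B)) = 7 * ∑ B : Finset V, wt B * h B := by
  rw [sum_split v, sum_split v, Finset.mul_sum]
  apply Finset.sum_congr rfl
  intro B hB
  have hv : v ∉ B := fun hvB => by
    have := Finset.mem_powerset.1 hB hvB
    simp at this
  rw [wt_insert hv, hh B hv]
  simp only [eta, hv, Finset.mem_insert_self, if_true, if_false]
  ring

theorem eta_insert {v v' : V} (h : v' ≠ v) (B : Finset V) :
    eta v' (insert v B) = eta v' B := by
  unfold eta
  simp [Finset.mem_insert, h]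

/-- variance of the size -/
theorem sum_var :
    ∑ B : Finset V, wt B * (8 * (#B : ℝ) - Fintype.card V) ^ 2 = 7 * (Fintype.card V : ℝ) := by
  have h1 : ∀ B : Finset V, (8 * (#B : ℝ) - Fintype.card V) ^ 2
      = ∑ v : V, ∑ v' : V, eta v B * eta v' B := by
    intro B
    have h2 : ∑ v : V, eta v B = Fintype.card V - 8 * (#B : ℝ) := by
      have h3 : ∀ v : V, eta v B = 1 - 8 * (if v ∈ B then 1 else 0) := by
        intro v
        unfold eta
        split_ifs <;> norm_num
      rw [Finset.sum_congr rfl (fun v _ => h3 v), Finset.sum_sub_distrib, ← Finset.mul_sum]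
      simp
    rw [← Finset.sum_mul_sum, h2]
    ring
  calc ∑ B : Finset V, wt B * (8 * (#B : ℝ) - Fintype.card V) ^ 2
      = ∑ v : V, ∑ v' : V, ∑ B : Finset V, wt B * (eta v B * eta v' B) := by
        rw [Finset.sum_congr rfl (fun B _ => by rw [h1 B, Finset.mul_sum])]
        rw [Finset.sum_comm]
        refine Finset.sum_congr rfl (fun v _ => ?_)
        rw [Finset.sum_congr rfl (fun B _ => by rw [Finset.mul_sum])]
        rw [Finset.sum_comm]
    _ = ∑ v : V, 7 := by
        refine Finset.sum_congr rfl (fun v _ => ?_)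
        rw [Finset.sum_eq_single v]
        · have h4 := sum_eta_sq v (fun _ => (1 : ℝ)) (fun _ _ => rfl)
          simp only [mul_one] at h4
          rw [h4, sum_wt]
          norm_num
        · intro v' _ hne
          exact sum_eta v (fun B => eta v' B) (fun B _ => eta_insert hne B)
        · intro h
          exact absurd (Finset.mem_univ v) h
    _ = 7 * Fintype.card V := by
        simp [mul_comm]

/-- number of elements of `O` whose parent lies in `B` -/
def Kc (O : Finset V) (p : V → V) (B : Finset V) : ℕ := #(O.filter (fun v => p v ∈ B))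

/-- centred version -/
noncomputable def Xc (O : Finset V) (p : V → V) (B : Finset V) : ℝ :=
  ∑ v ∈ O, if p v ∈ B then eta v B else 0

theorem Kc_insert (O : Finset V) (p : V → V) (hp : ∀ v ∈ O, p v ∉ O) {v : V} (hv : v ∈ O)
    (B : Finset V) : Kc O p (insert v B) = Kc O p B := by
  unfold Kc
  congr 1
  apply Finset.filter_congr
  intro u hu
  have : p u ≠ v := fun h => hp u hu (h ▸ hv)
  simp [Finset.mem_insert, this]

/-- the key second moment bound, one parity class -/
theorem sum_key (O : Finset V) (p : V → V) (hp : ∀ v ∈ O, p v ∉ O) :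
    ∑ B : Finset V, wt B * (Xc O p B ^ 2 / Kc O p B) ≤ 7 := by
  have h1 : ∀ B : Finset V, wt B * (Xc O p B ^ 2 / Kc O p B)
      = ∑ v ∈ O, ∑ v' ∈ O, wt B * (eta v B * ((if p v ∈ B then 1 else 0) *
          ((if p v' ∈ B then 1 else 0) * eta v' B) / Kc O p B)) := by
    intro B
    have h2 : Xc O p B ^ 2 = ∑ v ∈ O, ∑ v' ∈ O, (if p v ∈ B then eta v B else 0) *
        (if p v' ∈ B then eta v' B else 0) := by
      rw [← Finset.sum_mul_sum, sq]
      rfl
    rw [h2, Finset.sum_div, Finset.mul_sum]
    refine Finset.sum_congr rfl (fun v _ => ?_)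
    rw [Finset.sum_div, Finset.mul_sum]
    refine Finset.sum_congr rfl (fun v' _ => ?_)
    split_ifs <;> ring
  calc ∑ B : Finset V, wt B * (Xc O p B ^ 2 / Kc O p B)
      = ∑ v ∈ O, ∑ v' ∈ O, ∑ B : Finset V, wt B * (eta v B * ((if p v ∈ B then 1 else 0) *
          ((if p v' ∈ B then 1 else 0) * eta v' B) / Kc O p B)) := by
        rw [Finset.sum_congr rfl (fun B _ => h1 B), Finset.sum_comm]
        refine Finset.sum_congr rfl (fun v _ => ?_)
        rw [Finset.sum_comm]
    _ = ∑ v ∈ O, 7 * ∑ B : Finset V, wt B * ((if p v ∈ B then 1 else 0) / Kc O p B) := by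
        refine Finset.sum_congr rfl (fun v hv => ?_)
        have hins : ∀ u ∈ O, ∀ B : Finset V, (p u ∈ insert v B ↔ p u ∈ B) := by
          intro u hu B
          have : p u ≠ v := fun h => hp u hu (h ▸ hv)
          simp [Finset.mem_insert, this]
        rw [Finset.sum_eq_single v]
        · rw [← sum_eta_sq v (fun B => (if p v ∈ B then 1 else 0) / (Kc O p B : ℝ))]
          · refine Finset.sum_congr rfl (fun B _ => ?_)
            split_ifs <;> ring
          · intro B _
            rw [Kc_insert O p hp hv]
            simp only [hins v hv B]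
        · intro v' hv' hne
          apply sum_eta v
          intro B _
          rw [Kc_insert O p hp hv, eta_insert hne]
          simp only [hins v hv B, hins v' hv' B]
        · intro h
          exact absurd hv h
    _ = 7 * ∑ B : Finset V, wt B * ((Kc O p B : ℝ) / Kc O p B) := by
        rw [← Finset.mul_sum, Finset.sum_comm]
        congr 1
        refine Finset.sum_congr rfl (fun B _ => ?_)
        rw [← Finset.mul_sum, ← Finset.sum_div]
        congr 2
        unfold Kc
        rw [Finset.sum_boole]
    _ ≤ 7 * ∑ B : Finset V, wt B * 1 := by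
        refine mul_le_mul_of_nonneg_left ?_ (by norm_num)
        refine Finset.sum_le_sum (fun B _ => ?_)
        exact mul_le_mul_of_nonneg_left (div_self_le_one _) (wt_nonneg B)
    _ = 7 := by
        simp only [mul_one, sum_wt]

theorem titu (a b : ℝ) (x y : ℕ) (ha : x = 0 → a = 0) (hb : y = 0 → b = 0) :
    (a + b) ^ 2 / ((x + y : ℕ) : ℝ) ≤ a ^ 2 / x + b ^ 2 / y := by
  rcases Nat.eq_zero_or_pos x with hx | hx
  · rw [ha hx, hx]; simp
  rcases Nat.eq_zero_or_pos y with hy | hy
  · rw [hb hy, hy]; simp
  have hx' : (0 : ℝ) < x := by exact_mod_cast hx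
  have hy' : (0 : ℝ) < y := by exact_mod_cast hy
  rw [Nat.cast_add, div_add_div _ _ hx'.ne' hy'.ne', div_le_div_iff₀ (by positivity) (by positivity)]
  nlinarith [sq_nonneg (a * y - b * x), mul_pos hx' hy']

theorem Xc_zero (O : Finset V) (p : V → V) (B : Finset V) (h : Kc O p B = 0) :
    Xc O p B = 0 := by
  unfold Kc at h
  rw [Finset.card_eq_zero, Finset.filter_eq_empty_iff] at h
  unfold Xc
  apply Finset.sum_eq_zero
  intro v hv
  rw [if_neg (h hv)]

/-- the key second moment bound for a rooted tree given by its parent function and depth -/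
theorem sum_key_tree (r : V) (p : V → V) (d : V → ℕ) (hd : ∀ v, v ≠ r → d (p v) + 1 = d v) :
    ∑ B : Finset V, wt B * (Xc (univ.erase r) p B ^ 2 / Kc (univ.erase r) p B) ≤ 14 := by
  set O0 := (univ.erase r).filter (fun v => d v % 2 = 0) with hO0
  set O1 := (univ.erase r).filter (fun v => ¬ (d v % 2 = 0)) with hO1
  have h0 : ∀ v ∈ O0, p v ∉ O0 := by
    intro v hv hpv
    simp only [hO0, Finset.mem_filter, Finset.mem_erase, Finset.mem_univ, and_true] at hv hpv
    have := hd v hv.1
    omega
  have h1 : ∀ v ∈ O1, p v ∉ O1 := by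
    intro v hv hpv
    simp only [hO1, Finset.mem_filter, Finset.mem_erase, Finset.mem_univ, and_true] at hv hpv
    have := hd v hv.1
    omega
  have hK : ∀ B : Finset V, Kc (univ.erase r) p B = Kc O0 p B + Kc O1 p B := by
    intro B
    have h5 := Finset.card_filter_add_card_filter_not
      (s := (univ.erase r).filter (fun v => p v ∈ B)) (fun v => d v % 2 = 0)
    rw [Finset.filter_comm, Finset.filter_comm (fun v => p v ∈ B)] at h5
    exact h5.symm
  have hX : ∀ B : Finset V, Xc (univ.erase r) p B = Xc O0 p B + Xc O1 p B := by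
    intro B
    unfold Xc
    rw [hO0, hO1]
    exact (Finset.sum_filter_add_sum_filter_not _ (fun v => d v % 2 = 0) _).symm
  calc ∑ B : Finset V, wt B * (Xc (univ.erase r) p B ^ 2 / Kc (univ.erase r) p B)
      ≤ ∑ B : Finset V, (wt B * (Xc O0 p B ^ 2 / Kc O0 p B) + wt B * (Xc O1 p B ^ 2 / Kc O1 p B)) := by
        refine Finset.sum_le_sum (fun B _ => ?_)
        rw [hX, hK, ← mul_add]
        exact mul_le_mul_of_nonneg_left (titu _ _ _ _ (Xc_zero _ _ _) (Xc_zero _ _ _)) (wt_nonneg B)
    _ ≤ 7 + 7 := by
        rw [Finset.sum_add_distrib]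
        exact add_le_add (sum_key O0 p h0) (sum_key O1 p h1)
    _ = 14 := by norm_num

end Pool.Agent.Q46.Ost
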