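import Mathlib

/-!
# Random orderings: the linear and the quadratic martingale

`Meas T ψ` : the function `ψ` of an ordering only depends on the entries at the positions `< T`
(in the sense of invariance under permutations of the later positions).
-/

open Finset

set_option linter.unusedSectionVars false

namespace Pool.Agent.Q46.Ost

variable {n : ℕ}

/-- the positions `≥ T` -/
def I (n T : ℕ) : Finset (Fin n) := univ.filter (fun i => T ≤ (i : ℕ))

theorem card_I (T : ℕ) : #(I n T) = n - T := by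
  have h1 : (I n T).map Fin.valEmbedding = (Finset.range n).filter (fun i => T ≤ i) := by
    ext j
    simp only [I, Finset.mem_map, Finset.mem_filter, Finset.mem_univ, true_and, Finset.mem_range,
      Fin.valEmbedding_apply]
    constructor
    · rintro ⟨a, ha, rfl⟩
      exact ⟨a.2, ha⟩
    · rintro ⟨hj, hTj⟩
      exact ⟨⟨j, hj⟩, hTj, rfl⟩
  rw [← Finset.card_map Fin.valEmbedding, h1]
  have h2 : (Finset.range n).filter (fun i => T ≤ i) = Finset.Ico T n := by
    ext j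
    simp only [Finset.mem_filter, Finset.mem_range, Finset.mem_Ico]
    tauto
  rw [h2, Nat.card_Ico]

/-- invariance under permutations of the positions `≥ T` -/
def Meas (T : ℕ) (ψ : Equiv.Perm (Fin n) → ℝ) : Prop :=
  ∀ σ π : Equiv.Perm (Fin n), (∀ i : Fin n, (i : ℕ) < T → π i = i) → ψ (σ * π) = ψ σ

theorem meas_sum_one {T : ℕ} {ψ : Equiv.Perm (Fin n) → ℝ} (hψ : Meas T ψ) (c : Fin n → ℝ)
    {i j : Fin n} (hi : i ∈ I n T) (hj : j ∈ I n T) :
    ∑ σ : Equiv.Perm (Fin n), ψ σ * c (σ i) = ∑ σ : Equiv.Perm (Fin n), ψ σ * c (σ j) := by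
  simp only [I, Finset.mem_filter, Finset.mem_univ, true_and] at hi hj
  rw [← Equiv.sum_comp (Equiv.mulRight (Equiv.swap i j))]
  refine Finset.sum_congr rfl (fun σ _ => ?_)
  simp only [Equiv.coe_mulRight]
  rw [hψ σ (Equiv.swap i j) (fun k hk => Equiv.swap_apply_of_ne_of_ne
    (fun h => by subst h; omega) (fun h => by subst h; omega))]
  simp [Equiv.Perm.mul_apply]

theorem exists_perm_two {T : ℕ} {i i' j j' : Fin n} (hi : i ∈ I n T) (hi' : i' ∈ I n T)
    (hj : j ∈ I n T) (hj' : j' ∈ I n T) (hii : i ≠ i') (hjj : j ≠ j') :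
    ∃ π : Equiv.Perm (Fin n), (∀ k : Fin n, (k : ℕ) < T → π k = k) ∧ π j = i ∧ π j' = i' := by
  simp only [I, Finset.mem_filter, Finset.mem_univ, true_and] at hi hi' hj hj'
  set l := Equiv.swap i j j' with hl
  have hli : l ≠ i := by
    intro h
    rw [hl, Equiv.swap_apply_eq_iff, Equiv.swap_apply_left] at h
    exact hjj h.symm
  have hlT : T ≤ (l : ℕ) := by
    rw [hl]
    by_cases h1 : j' = i
    · rw [h1, Equiv.swap_apply_left]; exact hj
    · rw [Equiv.swap_apply_of_ne_of_ne h1 (Ne.symm hjj)]; exact hj'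
  refine ⟨Equiv.swap l i' * Equiv.swap i j, ?_, ?_, ?_⟩
  · intro k hk
    rw [Equiv.Perm.mul_apply, Equiv.swap_apply_of_ne_of_ne (a := i) (b := j)
      (fun h => by subst h; omega) (fun h => by subst h; omega),
      Equiv.swap_apply_of_ne_of_ne (fun h => by subst h; omega) (fun h => by subst h; omega)]
  · rw [Equiv.Perm.mul_apply, Equiv.swap_apply_right, Equiv.swap_apply_of_ne_of_ne hli.symm hii]
  · rw [Equiv.Perm.mul_apply, ← hl, Equiv.swap_apply_left]

theorem meas_sum_two {T : ℕ} {ψ : Equiv.Perm (Fin n) → ℝ} (hψ : Meas T ψ)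
    (f : Fin n → Fin n → ℝ) {i i' j j' : Fin n} (hi : i ∈ I n T) (hi' : i' ∈ I n T)
    (hj : j ∈ I n T) (hj' : j' ∈ I n T) (hii : i ≠ i') (hjj : j ≠ j') :
    ∑ σ : Equiv.Perm (Fin n), ψ σ * f (σ i) (σ i')
      = ∑ σ : Equiv.Perm (Fin n), ψ σ * f (σ j) (σ j') := by
  obtain ⟨π, h1, h2, h3⟩ := exists_perm_two hi hi' hj hj' hii hjj
  symm
  rw [← Equiv.sum_comp (Equiv.mulRight π)]
  refine Finset.sum_congr rfl (fun σ _ => ?_)
  simp only [Equiv.coe_mulRight]
  rw [hψ σ π h1, Equiv.Perm.mul_apply, Equiv.Perm.mul_apply, h2, h3]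

/-- the linear martingale -/
theorem meas_lin {T : ℕ} (hT : T ≤ n) {ψ : Equiv.Perm (Fin n) → ℝ} (hψ : Meas T ψ)
    (c : Fin n → ℝ) (i0 : Fin n) (hi0 : (i0 : ℕ) = n - 1) :
    ∑ σ : Equiv.Perm (Fin n), ψ σ * ∑ i ∈ I n T, c (σ i)
      = ((n : ℝ) - T) * ∑ σ : Equiv.Perm (Fin n), ψ σ * c (σ i0) := by
  have h1 : ∑ σ : Equiv.Perm (Fin n), ψ σ * ∑ i ∈ I n T, c (σ i)
      = ∑ i ∈ I n T, ∑ σ : Equiv.Perm (Fin n), ψ σ * c (σ i) := by
    rw [Finset.sum_comm]
    refine Finset.sum_congr rfl (fun σ _ => ?_)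
    rw [Finset.mul_sum]
  rw [h1]
  have h2 : ∀ i ∈ I n T, ∑ σ : Equiv.Perm (Fin n), ψ σ * c (σ i)
      = ∑ σ : Equiv.Perm (Fin n), ψ σ * c (σ i0) := by
    intro i hi
    refine meas_sum_one hψ c hi ?_
    simp only [I, Finset.mem_filter, Finset.mem_univ, true_and] at hi ⊢
    omega
  rw [Finset.sum_congr rfl h2, Finset.sum_const, nsmul_eq_mul, card_I T, Nat.cast_sub hT]

/-- the quadratic martingale -/
theorem meas_quad {T : ℕ} (hT : T ≤ n) {ψ : Equiv.Perm (Fin n) → ℝ} (hψ : Meas T ψ)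
    (f : Fin n → Fin n → ℝ) (hf : ∀ a, f a a = 0) (i0 i1 : Fin n) (hi0 : (i0 : ℕ) = n - 1)
    (hi1 : (i1 : ℕ) = n - 2) (hn : 2 ≤ n) :
    ∑ σ : Equiv.Perm (Fin n), ψ σ * ∑ i ∈ I n T, ∑ i' ∈ I n T, f (σ i) (σ i')
      = ((n : ℝ) - T) * ((n : ℝ) - T - 1) * ∑ σ : Equiv.Perm (Fin n), ψ σ * f (σ i0) (σ i1) := by
  have h1 : ∑ σ : Equiv.Perm (Fin n), ψ σ * ∑ i ∈ I n T, ∑ i' ∈ I n T, f (σ i) (σ i')
      = ∑ i ∈ I n T, ∑ i' ∈ I n T, ∑ σ : Equiv.Perm (Fin n), ψ σ * f (σ i) (σ i') := by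
    rw [Finset.sum_congr rfl (fun σ _ => Finset.mul_sum _ _ _), Finset.sum_comm]
    refine Finset.sum_congr rfl (fun i _ => ?_)
    rw [Finset.sum_congr rfl (fun σ _ => Finset.mul_sum _ _ _), Finset.sum_comm]
  rw [h1]
  have h2 : ∀ i ∈ I n T, ∑ i' ∈ I n T, ∑ σ : Equiv.Perm (Fin n), ψ σ * f (σ i) (σ i')
      = ((n : ℝ) - T - 1) * ∑ σ : Equiv.Perm (Fin n), ψ σ * f (σ i0) (σ i1) := by
    intro i hi
    rw [← Finset.sum_erase_add _ _ hi]
    have h3 : ∑ σ : Equiv.Perm (Fin n), ψ σ * f (σ i) (σ i) = 0 := by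
      simp [hf]
    rw [h3, add_zero]
    have h4 : ∀ i' ∈ (I n T).erase i, ∑ σ : Equiv.Perm (Fin n), ψ σ * f (σ i) (σ i')
        = ∑ σ : Equiv.Perm (Fin n), ψ σ * f (σ i0) (σ i1) := by
      intro i' hi'
      have hne : i' ≠ i := Finset.ne_of_mem_erase hi'
      have hi'2 := Finset.mem_of_mem_erase hi'
      have hT2 : T ≤ n - 2 := by
        simp only [I, Finset.mem_filter, Finset.mem_univ, true_and] at hi hi'2
        have h5 : (i : ℕ) ≠ i' := fun h => hne (Fin.ext h.symm)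
        have := i.2
        have := i'.2
        omega
      refine meas_sum_two hψ f hi hi'2 ?_ ?_ hne.symm ?_
      · simp only [I, Finset.mem_filter, Finset.mem_univ, true_and]; omega
      · simp only [I, Finset.mem_filter, Finset.mem_univ, true_and]; omega
      · intro h
        have := congrArg Fin.val h
        omega
    rw [Finset.sum_congr rfl h4, Finset.sum_const, nsmul_eq_mul, Finset.card_erase_of_mem hi,
      card_I T]
    have h6 : 1 ≤ n - T := by
      simp only [I, Finset.mem_filter, Finset.mem_univ, true_and] at hi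
      have := i.2
      omega
    rw [Nat.cast_sub h6, Nat.cast_sub hT]
    push_cast
    ring
  rw [Finset.sum_congr rfl h2, Finset.sum_const, nsmul_eq_mul, card_I T, Nat.cast_sub hT]
  ring

end Pool.Agent.Q46.Ost
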