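import Mathlib
import Pool.Agent.Q46.OstA
import Pool.Agent.Q46.OstB

/-!
# Components of induced subgraphs through a parent function; real inequalities
-/

open Finset

set_option linter.unusedSectionVars false

namespace Pool.Agent.Q46.Ost

theorem exists_parent {V : Type*} (G : SimpleGraph V) (hG : G.Connected) (r : V) :
    ∃ (p : V → V) (d : V → ℕ), ∀ v, v ≠ r → d (p v) + 1 = d v ∧ G.Adj v (p v) := by
  classical
  have key : ∀ v, ∃ w, v ≠ r → G.dist w r + 1 = G.dist v r ∧ G.Adj v w := by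
    intro v
    by_cases hv : v = r
    · exact ⟨v, fun h => absurd hv h⟩
    · obtain ⟨q, hq⟩ := (hG.preconnected v r).exists_walk_length_eq_dist
      cases q with
      | nil => exact absurd rfl hv
      | cons h q' =>
        rename_i w
        refine ⟨w, fun _ => ⟨?_, h⟩⟩
        rw [SimpleGraph.Walk.length_cons] at hq
        have h1 : G.dist w r ≤ q'.length := SimpleGraph.dist_le q'
        have h2 : G.dist v r ≤ G.dist v w + G.dist w r := hG.dist_triangle
        have h3 : G.dist v w = 1 := SimpleGraph.dist_eq_one_iff_adj.2 h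
        omega
  choose p hp using key
  exact ⟨p, fun v => G.dist v r, fun v hv => hp v hv⟩

theorem card_components_le {V : Type*} [Fintype V] [DecidableEq V] (G : SimpleGraph V) (r : V)
    (p : V → V) (d : V → ℕ) (h : ∀ v, v ≠ r → d (p v) + 1 = d v ∧ G.Adj v (p v))
    (B : Finset V) (A : Set V) (hA : ∀ v, v ∈ A ↔ v ∉ B) :
    Nat.card (G.induce A).ConnectedComponent
      ≤ 1 + #((univ.erase r).filter (fun v => v ∉ B ∧ p v ∈ B)) := by
  classical
  let S : Set A := {v | (v : V) = r ∨ p v ∈ B}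
  let φ : S → (G.induce A).ConnectedComponent := fun v => (G.induce A).connectedComponentMk v.1
  have hφ : Function.Surjective φ := by
    intro C
    have hne : ∃ k, ∃ v : A, (G.induce A).connectedComponentMk v = C ∧ d v = k := by
      obtain ⟨v, hv⟩ := C.exists_rep
      exact ⟨d v, v, hv, rfl⟩
    obtain ⟨v, hv, hk⟩ := Nat.find_spec hne
    have hmin := fun m (hm : m < Nat.find hne) => Nat.find_min hne hm
    by_cases hS : (v : V) = r ∨ p v ∈ B
    · exact ⟨⟨v, hS⟩, hv⟩
    · exfalso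
      push Not at hS
      have hpA : p v ∈ A := (hA _).2 hS.2
      have h1 := h v hS.1
      apply hmin (d (p v)) (by omega)
      refine ⟨⟨p v, hpA⟩, ?_, rfl⟩
      rw [← hv]
      apply SimpleGraph.ConnectedComponent.sound
      apply SimpleGraph.Adj.reachable
      exact h1.2.symm
  have h1 : Nat.card (G.induce A).ConnectedComponent ≤ Nat.card S :=
    Nat.card_le_card_of_surjective φ hφ
  refine h1.trans ?_
  let ι : S → ((insert r ((univ.erase r).filter (fun v => v ∉ B ∧ p v ∈ B)) : Finset V) : Type _) :=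
    fun v => ⟨v.1.1, by
      rw [Finset.mem_insert, Finset.mem_filter, Finset.mem_erase]
      by_cases hr : v.1.1 = r
      · exact Or.inl hr
      · refine Or.inr ⟨⟨hr, Finset.mem_univ _⟩, (hA _).1 v.1.2, ?_⟩
        exact v.2.resolve_left hr⟩
  have hι : Function.Injective ι := by
    intro a b hab
    have h2 : ((ι a : V)) = (ι b : V) := by rw [hab]
    exact Subtype.ext (Subtype.ext h2)
  calc Nat.card S ≤ Nat.card ((insert r ((univ.erase r).filter (fun v => v ∉ B ∧ p v ∈ B)) :
        Finset V) : Type _) := Nat.card_le_card_of_injective ι hι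
    _ = #(insert r ((univ.erase r).filter (fun v => v ∉ B ∧ p v ∈ B))) := by
      rw [Nat.card_eq_fintype_card, Fintype.card_coe]
    _ ≤ _ := by
      rw [add_comm]
      exact Finset.card_insert_le _ _

/-- number of vertices in `B` whose parent is in `B` -/
def Nc {V : Type*} [DecidableEq V] (O : Finset V) (p : V → V) (B : Finset V) : ℕ :=
  #(O.filter (fun v => v ∈ B ∧ p v ∈ B))

theorem split_card {V : Type*} [DecidableEq V] (O : Finset V) (p : V → V) (B : Finset V) :
    (#(O.filter (fun v => v ∉ B ∧ p v ∈ B)) : ℝ) = (Kc O p B : ℝ) - Nc O p B := by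
  have h1 : Kc O p B = Nc O p B + #(O.filter (fun v => v ∉ B ∧ p v ∈ B)) := by
    unfold Kc Nc
    have := Finset.card_filter_add_card_filter_not (s := O.filter (fun v => p v ∈ B))
      (fun v => v ∈ B)
    rw [Finset.filter_filter, Finset.filter_filter] at this
    rw [← this]
    congr 2
    · apply Finset.filter_congr; intros; tauto
    · apply Finset.filter_congr; intros; tauto
  rw [h1]
  push_cast
  ring

theorem Xc_eq {V : Type*} [Fintype V] [DecidableEq V] (O : Finset V) (p : V → V) (B : Finset V) :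
    Xc O p B = (Kc O p B : ℝ) - 8 * Nc O p B := by
  unfold Xc Kc Nc
  rw [← Finset.sum_boole, ← Finset.sum_boole, Finset.mul_sum, ← Finset.sum_sub_distrib]
  refine Finset.sum_congr rfl (fun v _ => ?_)
  unfold eta
  by_cases h1 : p v ∈ B <;> by_cases h2 : v ∈ B <;> (simp [h1, h2]; try norm_num)

theorem Nc_le_Kc {V : Type*} [DecidableEq V] (O : Finset V) (p : V → V) (B : Finset V) :
    Nc O p B ≤ Kc O p B := by
  unfold Nc Kc
  apply Finset.card_le_card
  intro v hv
  rw [Finset.mem_filter] at hv ⊢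
  exact ⟨hv.1, hv.2.2⟩

theorem Nc_le_card {V : Type*} [DecidableEq V] (O : Finset V) (p : V → V) (B : Finset V) :
    Nc O p B ≤ #B := by
  unfold Nc
  apply Finset.card_le_card
  intro v hv
  rw [Finset.mem_filter] at hv
  exact hv.2.1

theorem Kc_image {n : ℕ} (O : Finset (Fin n)) (p : Fin n → Fin n) (σ : Equiv.Perm (Fin n))
    (J : Finset (Fin n)) :
    (Kc O p (J.image σ) : ℝ) = ∑ i ∈ J, (#(O.filter (fun v => p v = σ i)) : ℝ) := by
  unfold Kc
  rw [← Finset.sum_boole]
  have h1 : ∀ v ∈ O, (if p v ∈ J.image σ then (1 : ℝ) else 0)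
      = ∑ i ∈ J, if p v = σ i then (1 : ℝ) else 0 := by
    intro v _
    have h2 : ∀ i ∈ J, (if p v = σ i then (1 : ℝ) else 0)
        = if i = σ.symm (p v) then (1 : ℝ) else 0 := by
      intro i _
      congr 1
      rw [eq_iff_iff]
      constructor
      · intro h; rw [h, Equiv.symm_apply_apply]
      · intro h; rw [h, Equiv.apply_symm_apply]
    rw [Finset.sum_congr rfl h2, Finset.sum_ite_eq']
    congr 1
    rw [eq_iff_iff, Finset.mem_image]
    constructor
    · rintro ⟨a, ha, hav⟩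
      rw [← hav, Equiv.symm_apply_apply]
      exact ha
    · intro h
      exact ⟨_, h, Equiv.apply_symm_apply _ _⟩
  rw [Finset.sum_congr rfl h1, Finset.sum_comm]
  refine Finset.sum_congr rfl (fun i _ => ?_)
  rw [Finset.sum_boole]

/-- the pair function -/
noncomputable def pf {n : ℕ} (r : Fin n) (p : Fin n → Fin n) (a b : Fin n) : ℝ :=
  if a ≠ r ∧ p a = b then 1 else 0

theorem Nc_image {n : ℕ} (r : Fin n) (p : Fin n → Fin n) (σ : Equiv.Perm (Fin n))
    (J : Finset (Fin n)) :
    (Nc (univ.erase r) p (J.image σ) : ℝ) = ∑ i ∈ J, ∑ i' ∈ J, pf r p (σ i) (σ i') := by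
  unfold Nc pf
  have h0 : (univ.erase r).filter (fun v => v ∈ J.image σ ∧ p v ∈ J.image σ)
      = (J.image σ).filter (fun v => v ≠ r ∧ p v ∈ J.image σ) := by
    ext v
    simp only [Finset.mem_filter, Finset.mem_erase, Finset.mem_univ, and_true]
    tauto
  rw [h0, ← Finset.sum_boole, Finset.sum_image (fun _ _ _ _ h => σ.injective h)]
  refine Finset.sum_congr rfl (fun i _ => ?_)
  by_cases hr : σ i = r
  · simp [hr]
  · have h2 : ∀ i' ∈ J, (if σ i ≠ r ∧ p (σ i) = σ i' then (1 : ℝ) else 0)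
        = if i' = σ.symm (p (σ i)) then (1 : ℝ) else 0 := by
      intro i' _
      congr 1
      rw [eq_iff_iff]
      constructor
      · intro h; rw [h.2, Equiv.symm_apply_apply]
      · intro h; rw [h, Equiv.apply_symm_apply]; exact ⟨hr, rfl⟩
    rw [Finset.sum_congr rfl h2, Finset.sum_ite_eq']
    congr 1
    rw [eq_iff_iff, Finset.mem_image]
    constructor
    · rintro ⟨_, a, ha, hav⟩
      rw [← hav, Equiv.symm_apply_apply]
      exact ha
    · intro h
      exact ⟨hr, _, h, Equiv.apply_symm_apply _ _⟩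

/-! ### real inequalities -/

theorem alg1 (K N X X' α : ℝ) (hN : 0 ≤ N) (hNK : N ≤ K) (hX' : X' = K - 8 * N)
    (hα : |α| ≤ 8) (h0 : K = 0 → X = 0) :
    α * X - α ^ 2 / 4 * N ≤ 16 * ((X ^ 2 + X' ^ 2) / K) := by
  rcases (hN.trans hNK).eq_or_lt with hK | hK
  · have h1 := h0 hK.symm
    have h2 : N = 0 := le_antisymm (by linarith) hN
    rw [h1, h2, ← hK]
    simp
  · rw [← mul_div_assoc, le_div_iff₀ hK]
    by_cases h1 : K / 16 ≤ N
    · have hN0 : 0 < N := lt_of_lt_of_le (by positivity) h1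
      have h2 : α * X - α ^ 2 / 4 * N ≤ X ^ 2 / N := by
        rw [le_div_iff₀ hN0]
        nlinarith [sq_nonneg (α * N / 2 - X)]
      have h3 : X ^ 2 / N * K ≤ 16 * X ^ 2 := by
        rw [div_mul_eq_mul_div, div_le_iff₀ hN0]
        nlinarith [sq_nonneg X]
      nlinarith [sq_nonneg X', mul_le_mul_of_nonneg_right h2 hK.le]
    · push Not at h1
      have h2 : K < 2 * X' := by linarith
      have h3 : α * X ≤ 8 * |X| := by
        calc α * X ≤ |α * X| := le_abs_self _
          _ = |α| * |X| := abs_mul _ _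
          _ ≤ 8 * |X| := mul_le_mul_of_nonneg_right hα (abs_nonneg _)
      have h4 : 0 ≤ α ^ 2 / 4 * N := by positivity
      have h5 : 8 * |X| * K ≤ 16 * (X ^ 2 + X' ^ 2) := by
        have h6 : X ^ 2 = |X| ^ 2 := (sq_abs X).symm
        rw [h6]
        nlinarith [abs_nonneg X, sq_nonneg (|X| - X')]
      nlinarith

theorem alg2 (K N m X X' δ : ℝ) (hN : 0 ≤ N) (hNK : N ≤ K) (hNm : N ≤ m)
    (hX : X = X' + δ * N) :
    16 * ((X ^ 2 + X' ^ 2) / K) ≤ 48 * (X' ^ 2 / K) + 32 * δ ^ 2 * m := by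
  have hm : 0 ≤ m := hN.trans hNm
  rcases (hN.trans hNK).eq_or_lt with hK | hK
  · rw [← hK]
    simp only [div_zero, mul_zero, zero_add]
    positivity
  · rw [← mul_div_assoc, ← mul_div_assoc, div_add' _ _ _ hK.ne', div_le_div_iff_of_pos_right hK]
    have h1 : N ^ 2 ≤ m * K := by nlinarith
    have h2 : X ^ 2 ≤ 2 * X' ^ 2 + 2 * δ ^ 2 * N ^ 2 := by
      rw [hX]; nlinarith [sq_nonneg (X' - δ * N)]
    have h3 : δ ^ 2 * N ^ 2 ≤ δ ^ 2 * (m * K) := mul_le_mul_of_nonneg_left h1 (sq_nonneg _)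
    nlinarith

theorem alg3 (n m δ : ℝ) (hn : 64 ≤ n) (hm : n / 16 ≤ m) (hδ : δ = 8 - n / (m - 1)) :
    32 * δ ^ 2 * m ≤ 4096 * ((8 * m - n) ^ 2 / n) + 4096 := by
  have hm4 : 4 ≤ m := by linarith
  have h1 : 0 < m - 1 := by linarith
  have h2 : δ = (8 * m - n - 8) / (m - 1) := by
    rw [hδ]; field_simp; ring
  have h3 : δ ^ 2 * m ≤ 64 * ((8 * m - n - 8) ^ 2 / n) := by
    rw [h2, div_pow, div_mul_eq_mul_div, ← mul_div_assoc, div_le_div_iff₀ (by positivity) (by linarith)]
    have h4 : m * n ≤ 64 * (m - 1) ^ 2 := by nlinarith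
    nlinarith [mul_le_mul_of_nonneg_left h4 (sq_nonneg (8 * m - n - 8))]
  have h5 : (8 * m - n - 8) ^ 2 / n ≤ 2 * ((8 * m - n) ^ 2 / n) + 2 := by
    rw [← mul_div_assoc, div_add' _ _ _ (by linarith : n ≠ 0), div_le_div_iff_of_pos_right (by linarith)]
    nlinarith [sq_nonneg (8 * m - n + 8)]
  nlinarith

end Pool.Agent.Q46.Ost
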