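import Mathlib
import Pool.Agent.Q46.OstC

/-!
# Additive error in optimal stopping for components
-/

open Finset

set_option linter.unusedSectionVars false

namespace Pool.Agent.Q46.Ost

variable {n : ℕ}

theorem pw (n m K N X' α β e : ℝ) (hn : 64 ≤ n) (hm : n / 16 ≤ m) (hN : 0 ≤ N)
    (hNK : N ≤ K) (hNm : N ≤ m) (hX' : X' = K - 8 * N) (hα : |α| ≤ 8)
    (hβ : α ^ 2 / 4 * N ≤ β) (he : e ≤ 32) :
    α * (K - n / (m - 1) * N) - β + e
      ≤ 4128 + 48 * (X' ^ 2 / K) + 4096 * ((8 * m - n) ^ 2 / n) := by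
  have h0 : K = 0 → K - n / (m - 1) * N = 0 := by
    intro h
    have : N = 0 := le_antisymm (by linarith) hN
    rw [h, this]; ring
  have h1 := alg1 K N (K - n / (m - 1) * N) X' α hN hNK hX' hα h0
  have h2 := alg2 K N m (K - n / (m - 1) * N) X' (8 - n / (m - 1)) hN hNK hNm
    (by rw [hX']; ring)
  have h3 := alg3 n m (8 - n / (m - 1)) hn hm rfl
  linarith

theorem pw_early (n m K N X' μ : ℝ) (hn : 64 ≤ n) (hm : n / 16 ≤ m) (hN : 0 ≤ N)
    (hNK : N ≤ K) (hNm : N ≤ m) (hX' : X' = K - 8 * N) (hμ0 : 0 ≤ μ) (hμn : μ ≤ n) :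
    μ * (K / m) - μ * (μ - 1) * (N / (m * (m - 1))) - (n / 2 * (K / m) -
        n ^ 2 / 4 * (N / (m * (m - 1))))
      ≤ 4128 + 48 * (X' ^ 2 / K) + 4096 * ((8 * m - n) ^ 2 / n) := by
  have hm4 : 4 ≤ m := by linarith
  have hm0 : 0 < m := by linarith
  have hm1 : 0 < m - 1 := by linarith
  have hα : |(μ - n / 2) / m| ≤ 8 := by
    rw [abs_div, abs_of_pos hm0, div_le_iff₀ hm0, abs_le]
    constructor <;> linarith
  have h1 : ((μ - n / 2) / m) ^ 2 / 4 * N ≤ (μ - n / 2) ^ 2 * (N / (m * (m - 1))) := by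
    have h2 : (μ - n / 2) ^ 2 * (N / (m * (m - 1))) - ((μ - n / 2) / m) ^ 2 / 4 * N
        = (μ - n / 2) ^ 2 * N * (3 * m + 1) / (4 * m ^ 2 * (m - 1)) := by
      field_simp
      ring
    have h3 : 0 ≤ (μ - n / 2) ^ 2 * N * (3 * m + 1) / (4 * m ^ 2 * (m - 1)) := by positivity
    linarith
  have h4 : μ * (N / (m * (m - 1))) ≤ 32 := by
    have h5 : N / (m * (m - 1)) ≤ 1 / (m - 1) := by
      rw [div_le_div_iff₀ (by positivity) hm1]
      nlinarith
    calc μ * (N / (m * (m - 1))) ≤ n * (1 / (m - 1)) :=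
          mul_le_mul hμn h5 (by positivity) (by linarith)
      _ ≤ 32 := by
          rw [mul_one_div, div_le_iff₀ hm1]
          linarith
  have h6 := pw n m K N X' ((μ - n / 2) / m) _ _ hn hm hN hNK hNm hX' hα h1 h4
  refine le_trans (le_of_eq ?_) h6
  field_simp
  ring

theorem pw_late (n m K N X' : ℝ) (hn : 64 ≤ n) (hm : n / 16 ≤ m) (hm2 : m ≤ 3 * n / 16)
    (hN : 0 ≤ N) (hNK : N ≤ K) (hNm : N ≤ m) (hX' : X' = K - 8 * N) :
    m * (K / m) - 0 * (N / (m * (m - 1))) - (n / 2 * (K / m) -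
        n ^ 2 / 4 * (N / (m * (m - 1))))
      ≤ 4128 + 48 * (X' ^ 2 / K) + 4096 * ((8 * m - n) ^ 2 / n) := by
  have hm4 : 4 ≤ m := by linarith
  have hm0 : 0 < m := by linarith
  have hm1 : 0 < m - 1 := by linarith
  have hα : |(m - n / 2) / m| ≤ 8 := by
    rw [abs_div, abs_of_pos hm0, div_le_iff₀ hm0, abs_le]
    constructor <;> linarith
  have h1 : ((m - n / 2) / m) ^ 2 / 4 * N ≤ (n ^ 2 / 4 - m * n) * (N / (m * (m - 1))) := by
    have ha : (m - n / 2) ^ 2 ≤ n ^ 2 / 4 := by nlinarith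
    have hb : (m - n / 2) ^ 2 / 4 ≤ n ^ 2 / 4 - m * n := by nlinarith
    have hc : N / m ^ 2 ≤ N / (m * (m - 1)) := by
      apply div_le_div_of_nonneg_left hN (by positivity)
      nlinarith
    calc ((m - n / 2) / m) ^ 2 / 4 * N = (m - n / 2) ^ 2 / 4 * (N / m ^ 2) := by
          rw [div_pow]; ring
      _ ≤ (n ^ 2 / 4 - m * n) * (N / (m * (m - 1))) :=
          mul_le_mul hb hc (by positivity) (le_trans (by positivity) hb)
  have h6 := pw n m K N X' ((m - n / 2) / m) _ 0 hn hm hN hNK hNm hX' hα h1 (by norm_num)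
  refine le_trans (le_of_eq ?_) h6
  field_simp
  ring

theorem sum_by_value (alg : Equiv.Perm (Fin n) → ℕ) (hle : ∀ σ, alg σ ≤ n)
    (F : Equiv.Perm (Fin n) → ℕ → ℝ) :
    ∑ σ, F σ (alg σ) = ∑ k ∈ range (n + 1), ∑ σ, (if alg σ = k then (1 : ℝ) else 0) * F σ k := by
  rw [Finset.sum_comm]
  refine Finset.sum_congr rfl (fun σ _ => ?_)
  rw [Finset.sum_eq_single (alg σ)]
  · simp
  · intro b _ hb
    rw [if_neg (Ne.symm hb), zero_mul]
  · intro h
    exact absurd (Finset.mem_range.2 (Nat.lt_succ_of_le (hle σ))) h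

theorem stop_eq (alg : Equiv.Perm (Fin n) → ℕ)
    (hstop : ∀ σ τ : Equiv.Perm (Fin n), (∀ i : Fin n, (i : ℕ) < alg σ → σ i = τ i) →
      alg τ = alg σ) {T : ℕ} (σ π : Equiv.Perm (Fin n))
    (hπ : ∀ i : Fin n, (i : ℕ) < T → π i = i) (h : alg σ ≤ T ∨ alg (σ * π) ≤ T) :
    alg (σ * π) = alg σ := by
  rcases h with h | h
  · apply hstop
    intro i hi
    rw [Equiv.Perm.mul_apply, hπ i (lt_of_lt_of_le hi h)]
  · symm
    apply hstop
    intro i hi
    rw [Equiv.Perm.mul_apply, hπ i (lt_of_lt_of_le hi h)]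

theorem stop_meas (alg : Equiv.Perm (Fin n) → ℕ)
    (hstop : ∀ σ τ : Equiv.Perm (Fin n), (∀ i : Fin n, (i : ℕ) < alg σ → σ i = τ i) →
      alg τ = alg σ) (T : ℕ) (ρ : ℕ → ℝ) (c : ℝ) :
    Meas T (fun σ => if alg σ ≤ T then ρ (alg σ) else c) := by
  intro σ π hπ
  dsimp only
  by_cases h : alg σ ≤ T
  · rw [stop_eq alg hstop σ π hπ (Or.inl h)]
  · by_cases h' : alg (σ * π) ≤ T
    · rw [stop_eq alg hstop σ π hπ (Or.inr h')]
    · rw [if_neg h, if_neg h']

theorem image_I_zero (σ : Equiv.Perm (Fin n)) : (I n 0).image σ = univ := by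
  ext v
  simp only [I, Finset.mem_image, Finset.mem_filter, Finset.mem_univ, true_and, iff_true]
  exact ⟨σ.symm v, Nat.zero_le _, Equiv.apply_symm_apply _ _⟩

/-- the main estimate for one comparison time -/
theorem one_time (r : Fin n) (p : Fin n → Fin n) (hp : ∀ v, v ≠ r → p v ≠ v)
    (hn : 64 ≤ n) (alg : Equiv.Perm (Fin n) → ℕ) (hle : ∀ σ, alg σ ≤ n)
    (hstop : ∀ σ τ : Equiv.Perm (Fin n), (∀ i : Fin n, (i : ℕ) < alg σ → σ i = τ i) →
      alg τ = alg σ) (T : ℕ) (hT : T ≤ n) (hg1 : (n : ℝ) / 16 ≤ (n : ℝ) - T)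
    (hg2 : (n : ℝ) - T ≤ 3 * n / 16) :
    ∑ σ, ((Kc (univ.erase r) p ((I n (alg σ)).image σ) : ℝ) -
        Nc (univ.erase r) p ((I n (alg σ)).image σ))
      ≤ (n.factorial : ℝ) * (n / 4 - 1 / 2 + 4128 + 4096 * ((8 * ((n : ℝ) - T) - n) ^ 2 / n))
        + 48 * ∑ σ : Equiv.Perm (Fin n), Xc (univ.erase r) p ((I n T).image σ) ^ 2 /
            Kc (univ.erase r) p ((I n T).image σ) := by
  set O := (univ.erase r : Finset (Fin n)) with hO
  set c : Fin n → ℝ := fun u => (#(O.filter (fun v => p v = u)) : ℝ) with hc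
  have hnR : (64 : ℝ) ≤ n := by exact_mod_cast hn
  let i0 : Fin n := ⟨n - 1, by omega⟩
  let i1 : Fin n := ⟨n - 2, by omega⟩
  have hpf : ∀ a, pf r p a a = 0 := by
    intro a
    unfold pf
    rw [if_neg]
    rintro ⟨h1, h2⟩
    exact hp a h1 h2
  set g : Equiv.Perm (Fin n) → ℝ := fun σ => c (σ i0) with hg
  set y : Equiv.Perm (Fin n) → ℝ := fun σ => pf r p (σ i0) (σ i1) with hy
  have hg0 : ∀ σ, 0 ≤ g σ := fun σ => by rw [hg]; positivity
  have hy0 : ∀ σ, 0 ≤ y σ := fun σ => by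
    rw [hy]; dsimp only; unfold pf; split_ifs <;> norm_num
  have hlin : ∀ (S : ℕ), S ≤ n → ∀ ψ : Equiv.Perm (Fin n) → ℝ, Meas S ψ →
      ∑ σ, ψ σ * (Kc O p ((I n S).image σ) : ℝ) = ((n : ℝ) - S) * ∑ σ, ψ σ * g σ := by
    intro S hS ψ hψ
    rw [← meas_lin hS hψ c i0 rfl]
    refine Finset.sum_congr rfl (fun σ _ => ?_)
    rw [Kc_image]
  have hquad : ∀ (S : ℕ), S ≤ n → ∀ ψ : Equiv.Perm (Fin n) → ℝ, Meas S ψ →
      ∑ σ, ψ σ * (Nc O p ((I n S).image σ) : ℝ)
        = ((n : ℝ) - S) * ((n : ℝ) - S - 1) * ∑ σ, ψ σ * y σ := by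
    intro S hS ψ hψ
    rw [← meas_quad hS hψ (pf r p) hpf i0 i1 rfl rfl (by omega)]
    refine Finset.sum_congr rfl (fun σ _ => ?_)
    rw [Nc_image]
  have hcardO : (#O : ℝ) = n - 1 := by
    rw [hO, Finset.card_erase_of_mem (Finset.mem_univ r), Finset.card_univ, Fintype.card_fin,
      Nat.cast_sub (by omega)]
    norm_num
  have hcardP : ((Finset.univ : Finset (Equiv.Perm (Fin n))).card : ℝ) = n.factorial := by
    rw [Finset.card_univ, Fintype.card_perm, Fintype.card_fin]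
  have hone : ∀ S, Meas S (fun _ : Equiv.Perm (Fin n) => (1 : ℝ)) := fun S σ π _ => rfl
  -- averages
  have hG : (n : ℝ) * ∑ σ, g σ = n.factorial * (n - 1) := by
    have h1 := hlin 0 (Nat.zero_le _) (fun _ => 1) (hone 0)
    simp only [one_mul, image_I_zero, Nat.cast_zero, sub_zero] at h1
    rw [← h1, Finset.sum_const, nsmul_eq_mul, hcardP]
    congr 1
    rw [← hcardO]
    unfold Kc
    simp
  have hY : (n : ℝ) * (n - 1) * ∑ σ, y σ = n.factorial * (n - 1) := by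
    have h1 := hquad 0 (Nat.zero_le _) (fun _ => 1) (hone 0)
    simp only [one_mul, image_I_zero, Nat.cast_zero, sub_zero] at h1
    rw [← h1, Finset.sum_const, nsmul_eq_mul, hcardP]
    congr 1
    rw [← hcardO]
    unfold Nc
    simp
  -- the exact optional stopping identity
  have hS1 : ∑ σ, ((Kc O p ((I n (alg σ)).image σ) : ℝ) - Nc O p ((I n (alg σ)).image σ))
      = ∑ σ, (((n : ℝ) - alg σ) * g σ - ((n : ℝ) - alg σ) * ((n : ℝ) - alg σ - 1) * y σ) := by
    rw [sum_by_value alg hle (fun σ k => (Kc O p ((I n k).image σ) : ℝ) - Nc O p ((I n k).image σ)),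
      sum_by_value alg hle (fun σ k => ((n : ℝ) - k) * g σ - ((n : ℝ) - k) * ((n : ℝ) - k - 1) * y σ)]
    refine Finset.sum_congr rfl (fun k hk => ?_)
    have hkn : k ≤ n := Nat.lt_succ_iff.1 (Finset.mem_range.1 hk)
    have hM : Meas k (fun σ => if alg σ = k then (1 : ℝ) else 0) := by
      have h1 := stop_meas alg hstop k (fun j => if j = k then 1 else 0) 0
      have h2 : (fun σ => if alg σ = k then (1 : ℝ) else 0)
          = (fun σ => if alg σ ≤ k then (if alg σ = k then (1 : ℝ) else 0) else 0) := by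
        funext σ
        by_cases h3 : alg σ = k
        · simp [h3]
        · simp [h3]
      rw [h2]
      exact h1
    have h3 := hlin k hkn _ hM
    have h4 := hquad k hkn _ hM
    simp only [mul_sub, Finset.sum_sub_distrib]
    rw [h3, h4, Finset.mul_sum, Finset.mul_sum]
    congr 1
    · refine Finset.sum_congr rfl (fun σ _ => ?_); ring
    · refine Finset.sum_congr rfl (fun σ _ => ?_); ring
  set m : ℝ := (n : ℝ) - T with hm
  have hm4 : 4 ≤ m := by linarith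
  have hm0 : 0 < m := by linarith
  have hm1 : 0 < m - 1 := by linarith
  set ψ1 : Equiv.Perm (Fin n) → ℝ := fun σ => if alg σ ≤ T then (n : ℝ) - alg σ else m with hψ1
  set ψ2 : Equiv.Perm (Fin n) → ℝ :=
    fun σ => if alg σ ≤ T then ((n : ℝ) - alg σ) * ((n : ℝ) - alg σ - 1) else 0 with hψ2
  have hM1 : Meas T ψ1 := stop_meas alg hstop T (fun j => (n : ℝ) - j) m
  have hM2 : Meas T ψ2 := stop_meas alg hstop T (fun j => ((n : ℝ) - j) * ((n : ℝ) - j - 1)) 0
  have hstep1 : ∑ σ, (((n : ℝ) - alg σ) * g σ - ((n : ℝ) - alg σ) * ((n : ℝ) - alg σ - 1) * y σ)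
      ≤ ∑ σ, (ψ1 σ * g σ - ψ2 σ * y σ) := by
    refine Finset.sum_le_sum (fun σ _ => ?_)
    rw [hψ1, hψ2]
    dsimp only
    by_cases h : alg σ ≤ T
    · rw [if_pos h, if_pos h]
    · rw [if_neg h, if_neg h, zero_mul, sub_zero]
      push Not at h
      have h1 : (T : ℝ) ≤ alg σ := by exact_mod_cast h.le
      have h2 : 0 ≤ ((n : ℝ) - alg σ) * ((n : ℝ) - alg σ - 1) := by
        rcases (hle σ).eq_or_lt with h3 | h3
        · rw [h3]; simp
        · have h4 : (alg σ : ℝ) + 1 ≤ n := by exact_mod_cast h3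
          apply mul_nonneg <;> linarith
      have h5 : ((n : ℝ) - alg σ) * g σ ≤ m * g σ :=
        mul_le_mul_of_nonneg_right (by rw [hm]; linarith) (hg0 σ)
      nlinarith [mul_nonneg h2 (hy0 σ)]
  have hstep2 : ∑ σ, (ψ1 σ * g σ - ψ2 σ * y σ)
      = ∑ σ, (ψ1 σ * ((Kc O p ((I n T).image σ) : ℝ) / m)
        - ψ2 σ * ((Nc O p ((I n T).image σ) : ℝ) / (m * (m - 1)))) := by
    have h1 := hlin T hT ψ1 hM1
    have h2 := hquad T hT ψ2 hM2
    rw [← hm] at h1 h2
    rw [Finset.sum_sub_distrib, Finset.sum_sub_distrib]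
    congr 1
    · have : ∑ σ, ψ1 σ * ((Kc O p ((I n T).image σ) : ℝ) / m)
          = (∑ σ, ψ1 σ * (Kc O p ((I n T).image σ) : ℝ)) / m := by
        rw [Finset.sum_div]
        exact Finset.sum_congr rfl (fun σ _ => by ring)
      rw [this, h1]
      field_simp
    · have : ∑ σ, ψ2 σ * ((Nc O p ((I n T).image σ) : ℝ) / (m * (m - 1)))
          = (∑ σ, ψ2 σ * (Nc O p ((I n T).image σ) : ℝ)) / (m * (m - 1)) := by
        rw [Finset.sum_div]
        exact Finset.sum_congr rfl (fun σ _ => by ring)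
      rw [this, h2]
      field_simp
  have hL : ∑ σ : Equiv.Perm (Fin n), ((n : ℝ) / 2 * ((Kc O p ((I n T).image σ) : ℝ) / m)
      - (n : ℝ) ^ 2 / 4 * ((Nc O p ((I n T).image σ) : ℝ) / (m * (m - 1))))
      = (n.factorial : ℝ) * ((n : ℝ) / 4 - 1 / 2) := by
    have h1 := hlin T hT (fun _ => 1) (hone T)
    have h2 := hquad T hT (fun _ => 1) (hone T)
    rw [← hm] at h1 h2
    simp only [one_mul] at h1 h2
    rw [Finset.sum_sub_distrib, ← Finset.mul_sum, ← Finset.mul_sum, ← Finset.sum_div,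
      ← Finset.sum_div, h1, h2]
    have hn1 : (n : ℝ) - 1 ≠ 0 := by linarith
    have hn0 : (n : ℝ) ≠ 0 := by linarith
    have h3 : ∑ σ, g σ = (n.factorial : ℝ) * ((n : ℝ) - 1) / n := by
      rw [eq_div_iff hn0, mul_comm]; exact hG
    have h4 : ∑ σ, y σ = (n.factorial : ℝ) / n := by
      rw [eq_div_iff hn0]
      apply mul_right_cancel₀ hn1
      rw [← hY]; ring
    rw [h3, h4]
    field_simp
    ring
  have hfin : ∑ σ, (ψ1 σ * ((Kc O p ((I n T).image σ) : ℝ) / m)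
        - ψ2 σ * ((Nc O p ((I n T).image σ) : ℝ) / (m * (m - 1))))
      - ∑ σ : Equiv.Perm (Fin n), ((n : ℝ) / 2 * ((Kc O p ((I n T).image σ) : ℝ) / m)
      - (n : ℝ) ^ 2 / 4 * ((Nc O p ((I n T).image σ) : ℝ) / (m * (m - 1))))
      ≤ ∑ σ : Equiv.Perm (Fin n), (4128 + 48 * (Xc O p ((I n T).image σ) ^ 2 /
            Kc O p ((I n T).image σ)) + 4096 * ((8 * m - n) ^ 2 / n)) := by
    rw [← Finset.sum_sub_distrib]
    refine Finset.sum_le_sum (fun σ _ => ?_)
    have hN0 : (0 : ℝ) ≤ (Nc O p ((I n T).image σ) : ℝ) := by positivity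
    have hNK : (Nc O p ((I n T).image σ) : ℝ) ≤ Kc O p ((I n T).image σ) := by
      exact_mod_cast Nc_le_Kc O p _
    have hNm : (Nc O p ((I n T).image σ) : ℝ) ≤ m := by
      have h1 := Nc_le_card O p ((I n T).image σ)
      rw [Finset.card_image_of_injective _ σ.injective, card_I T] at h1
      have h2 : (Nc O p ((I n T).image σ) : ℝ) ≤ ((n - T : ℕ) : ℝ) := by exact_mod_cast h1
      rwa [Nat.cast_sub hT] at h2
    have hX := Xc_eq O p ((I n T).image σ)
    rw [hψ1, hψ2]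
    dsimp only
    by_cases h : alg σ ≤ T
    · rw [if_pos h, if_pos h]
      have ha : (alg σ : ℝ) ≤ n := by exact_mod_cast hle σ
      exact pw_early n m _ _ _ ((n : ℝ) - alg σ) hnR hg1 hN0 hNK hNm hX (by linarith)
        (by have : (0 : ℝ) ≤ alg σ := by positivity
            linarith)
    · rw [if_neg h, if_neg h]
      exact pw_late n m _ _ _ hnR hg1 hg2 hN0 hNK hNm hX
  have hR : ∑ σ : Equiv.Perm (Fin n), (4128 + 48 * (Xc O p ((I n T).image σ) ^ 2 /
            Kc O p ((I n T).image σ)) + 4096 * ((8 * m - n) ^ 2 / n))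
      = (n.factorial : ℝ) * (4128 + 4096 * ((8 * m - n) ^ 2 / n))
        + 48 * ∑ σ : Equiv.Perm (Fin n), Xc O p ((I n T).image σ) ^ 2 /
            Kc O p ((I n T).image σ) := by
    rw [Finset.sum_add_distrib, Finset.sum_add_distrib, Finset.sum_const, Finset.sum_const,
      ← Finset.mul_sum, nsmul_eq_mul, nsmul_eq_mul, hcardP]
    ring
  rw [hS1]
  calc _ ≤ _ := hstep1
    _ = _ := hstep2
    _ ≤ _ := by
      rw [hR, hL] at hfin
      linarith

end Pool.Agent.Q46.Ost
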