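import Mathlib
import Pool.Agent.Q46.OstD

/-!
# Additive error in optimal stopping for components: averaging over the comparison time
-/

open Finset

set_option linter.unusedSectionVars false

namespace Pool.Agent.Q46.Ost

variable {n : ℕ}

theorem wt_image (σ : Equiv.Perm (Fin n)) (B : Finset (Fin n)) :
    wt (B.image σ) = wt B := by
  unfold wt
  rw [Finset.card_image_of_injective _ σ.injective]

theorem exists_perm_image (B C : Finset (Fin n)) (h : #B = #C) :
    ∃ τ : Equiv.Perm (Fin n), B.image τ = C := by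
  classical
  let e : {x // x ∈ B} ≃ {x // x ∈ C} := Finset.equivOfCardEq h
  refine ⟨e.extendSubtype, ?_⟩
  apply Finset.eq_of_subset_of_card_le
  · intro v hv
    rw [Finset.mem_image] at hv
    obtain ⟨a, ha, rfl⟩ := hv
    exact e.extendSubtype_mem a ha
  · rw [Finset.card_image_of_injective _ (Equiv.injective _), h]

theorem avg_image (h : Finset (Fin n) → ℝ) :
    ∑ B : Finset (Fin n), wt B * ∑ σ : Equiv.Perm (Fin n), h ((I n (n - #B)).image σ)
      = (n.factorial : ℝ) * ∑ B : Finset (Fin n), wt B * h B := by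
  have h1 : ∀ B : Finset (Fin n), ∑ σ : Equiv.Perm (Fin n), h ((I n (n - #B)).image σ)
      = ∑ σ : Equiv.Perm (Fin n), h (B.image σ) := by
    intro B
    have hB : #B ≤ n := by
      have := Finset.card_le_univ B
      rwa [Fintype.card_fin] at this
    obtain ⟨τ, hτ⟩ := exists_perm_image B (I n (n - #B)) (by rw [card_I]; omega)
    rw [← hτ, ← Equiv.sum_comp (Equiv.mulRight τ) (fun σ => h (B.image σ))]
    refine Finset.sum_congr rfl (fun σ _ => ?_)
    simp only [Equiv.coe_mulRight]
    rw [Finset.image_image]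
    rfl
  calc ∑ B : Finset (Fin n), wt B * ∑ σ : Equiv.Perm (Fin n), h ((I n (n - #B)).image σ)
      = ∑ σ : Equiv.Perm (Fin n), ∑ B : Finset (Fin n), wt B * h (B.image σ) := by
        rw [Finset.sum_comm]
        refine Finset.sum_congr rfl (fun B _ => ?_)
        rw [h1 B, Finset.mul_sum]
    _ = ∑ σ : Equiv.Perm (Fin n), ∑ B : Finset (Fin n), wt B * h B := by
        refine Finset.sum_congr rfl (fun σ _ => ?_)
        let E : Finset (Fin n) ≃ Finset (Fin n) := σ.finsetCongr
        rw [← Equiv.sum_comp E (fun B => wt B * h B)]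
        refine Finset.sum_congr rfl (fun B _ => ?_)
        have h2 : E B = B.image σ := by
          simp only [E, Equiv.finsetCongr_apply]
          rw [Finset.map_eq_image]
          rfl
        rw [h2, wt_image]
    _ = _ := by
        rw [Finset.sum_const, Finset.card_univ, Fintype.card_perm, Fintype.card_fin, nsmul_eq_mul]

theorem main (G : SimpleGraph (Fin n)) (hG : G.Connected)
    (alg : Equiv.Perm (Fin n) → ℕ) (hle : ∀ σ, alg σ ≤ n)
    (hstop : ∀ σ τ : Equiv.Perm (Fin n), (∀ i : Fin n, (i : ℕ) < alg σ → σ i = τ i) →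
      alg τ = alg σ) :
    ∑ σ : Equiv.Perm (Fin n), (Nat.card (G.induce
        {v : Fin n | ∃ i : Fin n, (i : ℕ) < alg σ ∧ σ i = v}).ConnectedComponent : ℝ)
      ≤ ((n : ℝ) / 4 + 33473) * n.factorial := by
  classical
  have hn1 : 1 ≤ n := by
    obtain ⟨v⟩ := hG.nonempty
    have := v.2
    omega
  let r : Fin n := ⟨0, by omega⟩
  obtain ⟨p, d, hpd⟩ := exists_parent G hG r
  set O := (univ.erase r : Finset (Fin n)) with hO
  have hcardO : #O = n - 1 := by
    rw [hO, Finset.card_erase_of_mem (Finset.mem_univ r), Finset.card_univ, Fintype.card_fin]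
  have hcardP : ((Finset.univ : Finset (Equiv.Perm (Fin n))).card : ℝ) = n.factorial := by
    rw [Finset.card_univ, Fintype.card_perm, Fintype.card_fin]
  have hfac : (0 : ℝ) < n.factorial := by positivity
  have hCC : ∀ σ : Equiv.Perm (Fin n), Nat.card (G.induce
        {v : Fin n | ∃ i : Fin n, (i : ℕ) < alg σ ∧ σ i = v}).ConnectedComponent
      ≤ 1 + #(O.filter (fun v => v ∉ (I n (alg σ)).image σ ∧ p v ∈ (I n (alg σ)).image σ)) := by
    intro σ
    apply card_components_le G r p d hpd
    intro v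
    simp only [Set.mem_ofPred_eq, Finset.mem_image, I, Finset.mem_filter, Finset.mem_univ, true_and]
    constructor
    · rintro ⟨i, hi, rfl⟩ ⟨j, hj, hji⟩
      have := σ.injective hji
      subst this
      omega
    · intro h
      refine ⟨σ.symm v, ?_, Equiv.apply_symm_apply _ _⟩
      by_contra hlt
      exact h ⟨σ.symm v, by omega, Equiv.apply_symm_apply _ _⟩
  have htriv : ∑ σ : Equiv.Perm (Fin n), (Nat.card (G.induce
        {v : Fin n | ∃ i : Fin n, (i : ℕ) < alg σ ∧ σ i = v}).ConnectedComponent : ℝ)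
      ≤ (n : ℝ) * n.factorial := by
    calc _ ≤ ∑ σ : Equiv.Perm (Fin n), (n : ℝ) := by
          refine Finset.sum_le_sum (fun σ _ => ?_)
          have h1 := hCC σ
          have h2 := Finset.card_filter_le O
            (fun v => v ∉ (I n (alg σ)).image σ ∧ p v ∈ (I n (alg σ)).image σ)
          have h3 : Nat.card (G.induce
            {v : Fin n | ∃ i : Fin n, (i : ℕ) < alg σ ∧ σ i = v}).ConnectedComponent ≤ n := by
            omega
          exact_mod_cast h3
      _ = _ := by
          rw [Finset.sum_const, nsmul_eq_mul, hcardP]; ring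
  by_cases hn : 64 ≤ n
  swap
  · refine htriv.trans (mul_le_mul_of_nonneg_right ?_ hfac.le)
    push Not at hn
    have : (n : ℝ) ≤ 64 := by exact_mod_cast hn.le
    have h0 : (0 : ℝ) ≤ n := by positivity
    linarith
  have hnR : (64 : ℝ) ≤ n := by exact_mod_cast hn
  set tot := ∑ σ : Equiv.Perm (Fin n), (Nat.card (G.induce
        {v : Fin n | ∃ i : Fin n, (i : ℕ) < alg σ ∧ σ i = v}).ConnectedComponent : ℝ) with htot
  set h : Finset (Fin n) → ℝ := fun B => Xc O p B ^ 2 / Kc O p B with hh
  have hh0 : ∀ B, 0 ≤ h B := fun B => by rw [hh]; positivity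
  -- one comparison time
  have hone : ∀ m : ℕ, m ≤ n → tot ≤ (n.factorial : ℝ) *
      ((n : ℝ) / 4 + 4129 + 4096 * ((8 * (m : ℝ) - n) ^ 2 / n))
      + 48 * ∑ σ : Equiv.Perm (Fin n), h ((I n (n - m)).image σ) := by
    intro m hm
    have hsum0 : 0 ≤ ∑ σ : Equiv.Perm (Fin n), h ((I n (n - m)).image σ) :=
      Finset.sum_nonneg (fun σ _ => hh0 _)
    have hcast : ((n - m : ℕ) : ℝ) = (n : ℝ) - m := Nat.cast_sub hm
    by_cases hgood : (n : ℝ) / 16 ≤ m ∧ (m : ℝ) ≤ 3 * n / 16
    · have h1 := one_time r p (fun v hv hpv => by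
        have := (hpd v hv).1
        rw [hpv] at this
        omega) hn alg hle hstop (n - m) (Nat.sub_le _ _)
        (by rw [hcast]; linarith [hgood.1]) (by rw [hcast]; linarith [hgood.2])
      rw [hcast] at h1
      have h2 : tot ≤ ∑ σ : Equiv.Perm (Fin n), (1 + ((Kc O p ((I n (alg σ)).image σ) : ℝ)
          - Nc O p ((I n (alg σ)).image σ))) := by
        rw [htot]
        refine Finset.sum_le_sum (fun σ _ => ?_)
        rw [← split_card]
        exact_mod_cast hCC σ
      rw [Finset.sum_add_distrib, Finset.sum_const, nsmul_eq_mul, hcardP] at h2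
      have h3 : (8 * ((n : ℝ) - (n - m)) - n) = 8 * (m : ℝ) - n := by ring
      rw [h3] at h1
      rw [hh]
      dsimp only
      nlinarith
    · have h1 : (n : ℝ) ≤ 4 * ((8 * (m : ℝ) - n) ^ 2 / n) := by
        rw [← mul_div_assoc, le_div_iff₀ (by linarith)]
        rw [not_and_or] at hgood
        rcases hgood with hg | hg
        · push Not at hg
          nlinarith
        · push Not at hg
          nlinarith
      have h2 : (0 : ℝ) ≤ (8 * (m : ℝ) - n) ^ 2 / n := by positivity
      calc tot ≤ (n : ℝ) * n.factorial := htriv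
        _ ≤ (n.factorial : ℝ) *
          ((n : ℝ) / 4 + 4129 + 4096 * ((8 * (m : ℝ) - n) ^ 2 / n)) := by
            rw [mul_comm]
            refine mul_le_mul_of_nonneg_left ?_ hfac.le
            linarith
        _ ≤ _ := by linarith
  have hcardB : ∀ B : Finset (Fin n), #B ≤ n := fun B => by
    have := Finset.card_le_univ B
    rwa [Fintype.card_fin] at this
  have hav : tot ≤ ∑ B : Finset (Fin n), wt B * ((n.factorial : ℝ) *
      ((n : ℝ) / 4 + 4129 + 4096 * ((8 * (#B : ℝ) - n) ^ 2 / n))
      + 48 * ∑ σ : Equiv.Perm (Fin n), h ((I n (n - #B)).image σ)) := by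
    calc tot = ∑ B : Finset (Fin n), wt B * tot := by
          rw [← Finset.sum_mul, sum_wt, one_mul]
      _ ≤ _ := Finset.sum_le_sum (fun B _ =>
          mul_le_mul_of_nonneg_left (hone (#B) (hcardB B)) (wt_nonneg B))
  refine hav.trans ?_
  have hsplit : ∑ B : Finset (Fin n), wt B * ((n.factorial : ℝ) *
      ((n : ℝ) / 4 + 4129 + 4096 * ((8 * (#B : ℝ) - n) ^ 2 / n))
      + 48 * ∑ σ : Equiv.Perm (Fin n), h ((I n (n - #B)).image σ))
      = (n.factorial : ℝ) * ((n : ℝ) / 4 + 4129) * ∑ B : Finset (Fin n), wt B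
        + (n.factorial : ℝ) * 4096 / n * ∑ B : Finset (Fin n), wt B * (8 * (#B : ℝ) - n) ^ 2
        + 48 * ∑ B : Finset (Fin n), wt B *
          ∑ σ : Equiv.Perm (Fin n), h ((I n (n - #B)).image σ) := by
    rw [Finset.mul_sum, Finset.mul_sum, Finset.mul_sum, ← Finset.sum_add_distrib,
      ← Finset.sum_add_distrib]
    refine Finset.sum_congr rfl (fun B _ => ?_)
    ring
  have hvar := sum_var (V := Fin n)
  rw [Fintype.card_fin] at hvar
  have hkey := sum_key_tree r p d (fun v hv => (hpd v hv).1)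
  rw [hsplit, sum_wt, hvar, avg_image h]
  have hkey' : ∑ B : Finset (Fin n), wt B * h B ≤ 14 := hkey
  have h5 : (n.factorial : ℝ) * 4096 / n * (7 * (n : ℝ)) = 28672 * n.factorial := by
    field_simp
    ring
  rw [h5]
  nlinarith

end Pool.Agent.Q46.Ost
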