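import Pool.Agent.Q46.PermStar

set_option autoImplicit false

namespace Pool.Agent.Q46.PI

open Matrix Equiv Finset

/-- The ideal generated by the permanents of all `t × t` submatrices `(X (r i) (c j))`, with `r` and
`c` injective (the permanent does not depend on the order of the rows and columns). -/
def permIdeal {R : Type*} [CommRing R] {m n : ℕ} (t : ℕ) (X : Matrix (Fin m) (Fin n) R) :
    Ideal R :=
  Ideal.span {f | ∃ (r : Fin t → Fin m) (c : Fin t → Fin n), Function.Injective r ∧
    Function.Injective c ∧ f = (X.submatrix r c).permanent}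

/-- the generic `m × n` matrix -/
noncomputable def genericMatrix (k : Type*) [Field k] (m n : ℕ) :
    Matrix (Fin m) (Fin n) (MvPolynomial (Fin m × Fin n) k) :=
  of fun i j => MvPolynomial.X (i, j)

/-- the generic symmetric `n × n` matrix -/
noncomputable def symmetricMatrix (k : Type*) [Field k] (n : ℕ) :
    Matrix (Fin n) (Fin n) (MvPolynomial (Sym2 (Fin n)) k) :=
  of fun i j => MvPolynomial.X s(i, j)

section general

variable {R : Type*} [CommRing R] {m n t : ℕ}

/-- the top left block -/
def block (X : Matrix (Fin m) (Fin n) R) (hm : t ≤ m) (hn : t ≤ n) : Matrix (Fin t) (Fin t) R :=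
  X.submatrix (Fin.castLE hm) (Fin.castLE hn)

/-- If `P_t(X)` is prime and does not contain the entries `X t j`, then it contains the determinant
of the permanental cofactors of the top left block. -/
lemma det_mem (X : Matrix (Fin m) (Fin n) R) (hm : t < m) (hn : t ≤ n)
    (hP : (permIdeal t X).IsPrime) (j₀ : Fin t) (hy : X ⟨t, hm⟩ (Fin.castLE hn j₀) ∉ permIdeal t X) :
    (cof (block X hm.le hn)).det ∈ permIdeal t X := by
  classical
  set I := permIdeal t X with hI
  set y : Fin t → R := fun j => X ⟨t, hm⟩ (Fin.castLE hn j) with hydef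
  have hmem : ∀ i, (cof (block X hm.le hn) *ᵥ y) i ∈ I := fun i => by
    rw [cof_mulVec]
    refine Ideal.subset_span ⟨Function.update (Fin.castLE hm.le) i ⟨t, hm⟩, Fin.castLE hn, ?_,
      Fin.castLE_injective hn, ?_⟩
    · intro a b hab
      by_cases ha : a = i
      · by_cases hb : b = i
        · rw [ha, hb]
        · subst ha
          rw [Function.update_self, Function.update_of_ne hb] at hab
          have := congrArg Fin.val hab
          simp at this
          have hb' := b.2
          omega
      · by_cases hb : b = i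
        · subst hb
          rw [Function.update_self, Function.update_of_ne ha] at hab
          have := congrArg Fin.val hab
          simp at this
          have ha' := a.2
          omega
        · rw [Function.update_of_ne ha, Function.update_of_ne hb] at hab
          exact Fin.castLE_injective hm.le hab
    · congr 1
      ext a b
      rw [submatrix_apply]
      by_cases ha : a = i
      · subst ha
        rw [updateRow_self, Function.update_self]
      · rw [updateRow_ne ha, Function.update_of_ne ha]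
        rfl
  have : IsDomain (R ⧸ I) := (Ideal.Quotient.isDomain_iff_prime I).mpr hP
  have h1 : ((cof (block X hm.le hn)).map (Ideal.Quotient.mk I)) *ᵥ (Ideal.Quotient.mk I ∘ y) = 0 := by
    ext i
    rw [← RingHom.map_mulVec]
    exact Ideal.Quotient.eq_zero_iff_mem.mpr (hmem i)
  have h2 : (Ideal.Quotient.mk I ∘ y) ≠ 0 := fun h0 => by
    have := congrFun h0 j₀
    exact hy (Ideal.Quotient.eq_zero_iff_mem.mp this)
  have h3 := exists_mulVec_eq_zero_iff.mp ⟨_, h2, h1⟩
  rw [← RingHom.mapMatrix_apply, ← RingHom.map_det] at h3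
  exact Ideal.Quotient.eq_zero_iff_mem.mp h3

lemma map_cof {S : Type*} [CommRing S] {α : Type*} [Fintype α] [DecidableEq α] (f : R →+* S)
    (B : Matrix α α R) : (cof B).map f = cof (B.map f) := by
  ext i j
  rw [map_apply, cof, of_apply, map_permanent, cof, of_apply]
  congr 1
  ext a b
  rw [map_apply]
  by_cases ha : a = i
  · subst ha
    rw [updateRow_self, updateRow_self]
    by_cases hb : b = j
    · subst hb; simp
    · simp [Pi.single_eq_of_ne hb]
  · rw [updateRow_ne ha, updateRow_ne ha, map_apply]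

/-- a ring homomorphism which maps `X` to a matrix supported on the top left block `A₀`, of
permanent zero, vanishes on `P_t(X)` -/
lemma permIdeal_le_ker {S : Type*} [CommRing S] (X : Matrix (Fin m) (Fin n) R) (f : R →+* S) (A₀ : Matrix (Fin t) (Fin t) S) (hA : A₀.permanent = 0)
    (hf : ∀ i j, f (X i j) = if h : i.val < t ∧ j.val < t then A₀ ⟨i, h.1⟩ ⟨j, h.2⟩ else 0) :
    permIdeal t X ≤ RingHom.ker f := by
  rw [permIdeal, Ideal.span_le]
  rintro _ ⟨r, c, hr, hc, rfl⟩
  change _ ∈ RingHom.ker f
  rw [RingHom.mem_ker, map_permanent]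
  by_cases h1 : ∃ i, ¬ (r i).val < t
  · obtain ⟨i, hi⟩ := h1
    rw [permanent_rows]
    refine Finset.sum_eq_zero fun σ _ => Finset.prod_eq_zero (mem_univ i) ?_
    rw [map_apply, submatrix_apply, hf, dif_neg (fun h => hi h.1)]
  · push Not at h1
    by_cases h2 : ∃ j, ¬ (c j).val < t
    · obtain ⟨j, hj⟩ := h2
      rw [permanent]
      refine Finset.sum_eq_zero fun σ _ => Finset.prod_eq_zero (mem_univ j) ?_
      rw [map_apply, submatrix_apply, hf, dif_neg (fun h => hj h.2)]
    · push Not at h2
      have hr' : Function.Injective (fun i => (⟨(r i).val, h1 i⟩ : Fin t)) := fun a b hab => by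
        simp only [Fin.mk.injEq] at hab
        exact hr (Fin.ext hab)
      have hc' : Function.Injective (fun i => (⟨(c i).val, h2 i⟩ : Fin t)) := fun a b hab => by
        simp only [Fin.mk.injEq] at hab
        exact hc (Fin.ext hab)
      set σ : Perm (Fin t) := Equiv.ofBijective _ (Finite.injective_iff_bijective.mp hr') with hσ
      set τ : Perm (Fin t) := Equiv.ofBijective _ (Finite.injective_iff_bijective.mp hc') with hτ
      have : (X.submatrix r c).map f = (A₀.submatrix σ id).submatrix id τ := by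
        ext i j
        rw [map_apply, submatrix_apply, hf, dif_pos ⟨h1 i, h2 j⟩]
        rfl
      rw [this, permanent_permute_rows, permanent_permute_cols, hA]

/-- the entries are not in `P_t(X)` if there is a grading -/
lemma not_mem_of_dual {S : Type*} [CommRing S] (X : Matrix (Fin m) (Fin n) R) (ht : 2 ≤ t)
    (f : R →+* S) (N : Ideal S) (hN : ∀ a ∈ N, ∀ b ∈ N, a * b = 0) (hf : ∀ i j, f (X i j) ∈ N) :
    permIdeal t X ≤ RingHom.ker f := by
  rw [permIdeal, Ideal.span_le]
  rintro _ ⟨r, c, hr, hc, rfl⟩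
  change _ ∈ RingHom.ker f
  rw [RingHom.mem_ker, map_permanent, permanent_rows]
  refine Finset.sum_eq_zero fun σ _ => ?_
  have h0 : (⟨0, by omega⟩ : Fin t) ∈ (univ : Finset (Fin t)) := mem_univ _
  have h1 : (⟨1, by omega⟩ : Fin t) ∈ (univ : Finset (Fin t)).erase ⟨0, by omega⟩ := by
    rw [mem_erase]; exact ⟨by simp, mem_univ _⟩
  have hfe : ∀ i j, (X.submatrix r c).map f i j ∈ N := fun i j => hf _ _
  rw [← mul_prod_erase _ _ h0, ← mul_prod_erase _ _ h1, ← mul_assoc,
    hN _ (hfe _ _) _ (hfe _ _), zero_mul]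

lemma permIdeal_transpose (X : Matrix (Fin m) (Fin n) R) : permIdeal t Xᵀ = permIdeal t X := by
  unfold permIdeal
  congr 1
  ext f
  constructor
  · rintro ⟨r, c, hr, hc, rfl⟩
    exact ⟨c, r, hc, hr, by rw [← transpose_submatrix, permanent_transpose]⟩
  · rintro ⟨r, c, hr, hc, rfl⟩
    exact ⟨c, r, hc, hr, by rw [← transpose_submatrix, permanent_transpose]⟩

lemma arrow_symm {k : Type*} [CommRing k] {α : Type*} [DecidableEq α] (z : α) (a : k) (i j : α) :
    arrow z a i j = arrow z a j i := by
  simp only [arrow, of_apply]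
  congr 1
  · rw [and_comm]
  · congr 1
    simp only [eq_iff_iff]
    tauto

/-- the criterion -/
lemma not_prime {k : Type*} [Field k] (h2 : (2 : k) ≠ 0) (X : Matrix (Fin m) (Fin n) R)
    (ht : 2 ≤ t) (hm : t < m) (hn : t ≤ n) (f : R →+* k)
    (hf : ∀ i j, f (X i j) = if h : i.val < t ∧ j.val < t then
      arrow (⟨0, by omega⟩ : Fin t) (-((t - 1 : ℕ) : k)) ⟨i, h.1⟩ ⟨j, h.2⟩ else 0)
    {S : Type*} [CommRing S] (g : R →+* S) (N : Ideal S) (hN : ∀ a ∈ N, ∀ b ∈ N, a * b = 0)
    (hg : ∀ i j, g (X i j) ∈ N) (hg' : ∀ i j, g (X i j) ≠ 0) :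
    ¬ (permIdeal t X).IsPrime := by
  intro hP
  have hy : X ⟨t, hm⟩ (Fin.castLE hn ⟨0, by omega⟩) ∉ permIdeal t X := fun h =>
    hg' _ _ (not_mem_of_dual X ht g N hN hg h)
  have h1 := det_mem X hm hn hP ⟨0, by omega⟩ hy
  have hA : (arrow (⟨0, by omega⟩ : Fin t) (-((t - 1 : ℕ) : k))).permanent = 0 := by
    rw [permanent_arrow, Fintype.card_fin, neg_add_cancel]
  have h3 := permIdeal_le_ker X f _ hA hf h1
  rw [RingHom.mem_ker, RingHom.map_det, RingHom.mapMatrix_apply, map_cof] at h3
  have h4 : (block X hm.le hn).map f = arrow (⟨0, by omega⟩ : Fin t) (-((t - 1 : ℕ) : k)) := by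
    ext i j
    rw [map_apply, block, submatrix_apply, hf, dif_pos ⟨i.2, j.2⟩]
    rfl
  rw [h4] at h3
  have h5 := det_cof_arrow h2 (⟨0, by omega⟩ : Fin t) (by rw [Fintype.card_fin]; exact ht)
  rw [Fintype.card_fin] at h5
  exact h5 h3

end general

section types

variable (k : Type*) [Field k]

/-- all variables go to `ε` -/
noncomputable def toDual (σ : Type*) : MvPolynomial σ k →+* DualNumber k :=
  MvPolynomial.eval₂Hom (algebraMap k (DualNumber k)) (fun _ => DualNumber.eps)

lemma toDual_X {σ : Type*} (v : σ) : toDual k σ (MvPolynomial.X v) = DualNumber.eps := by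
  simp [toDual]

lemma span_eps (a : DualNumber k) (ha : a ∈ Ideal.span {(DualNumber.eps : DualNumber k)})
    (b : DualNumber k) (hb : b ∈ Ideal.span {(DualNumber.eps : DualNumber k)}) : a * b = 0 := by
  obtain ⟨x, rfl⟩ := Ideal.mem_span_singleton'.mp ha
  obtain ⟨y, rfl⟩ := Ideal.mem_span_singleton'.mp hb
  have : x * DualNumber.eps * (y * DualNumber.eps) = x * y * (DualNumber.eps * DualNumber.eps) := by
    ring
  rw [this, DualNumber.eps_mul_eps, mul_zero]

lemma eps_ne : (DualNumber.eps : DualNumber k) ≠ 0 := fun h => by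
  have := congrArg TrivSqZeroExt.snd h
  simp at this

/-- the generic type -/
theorem generic_not_prime (h2 : (2 : k) ≠ 0) {m n t : ℕ} (ht : 2 ≤ t) (hm : t ≤ m) (hn : t ≤ n)
    (h : ¬ (t = m ∧ t = n)) : ¬ (permIdeal t (genericMatrix k m n)).IsPrime := by
  have hmem : ∀ (i : Fin m) (j : Fin n), toDual k (Fin m × Fin n) (genericMatrix k m n i j) ∈
      Ideal.span {(DualNumber.eps : DualNumber k)} := fun i j => by
    rw [genericMatrix, of_apply, toDual_X]
    exact Ideal.subset_span rfl
  have hne : ∀ (i : Fin m) (j : Fin n), toDual k (Fin m × Fin n) (genericMatrix k m n i j) ≠ 0 :=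
    fun i j => by
      rw [genericMatrix, of_apply, toDual_X]
      exact eps_ne k
  set F : MvPolynomial (Fin m × Fin n) k →+* k := MvPolynomial.eval (fun v =>
    if h : v.1.val < t ∧ v.2.val < t then
      arrow (⟨0, by omega⟩ : Fin t) (-((t - 1 : ℕ) : k)) ⟨v.1, h.1⟩ ⟨v.2, h.2⟩ else 0) with hF
  have hFX : ∀ (i : Fin m) (j : Fin n), F (genericMatrix k m n i j) =
      if h : i.val < t ∧ j.val < t then
        arrow (⟨0, by omega⟩ : Fin t) (-((t - 1 : ℕ) : k)) ⟨i, h.1⟩ ⟨j, h.2⟩ else 0 := fun i j => by
    rw [genericMatrix, of_apply, hF, MvPolynomial.eval_X]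
  rcases lt_or_eq_of_le hm with hm' | hm'
  · exact not_prime h2 _ ht hm' hn F hFX (toDual k _) _ (span_eps k) hmem hne
  · have hn' : t < n := lt_of_le_of_ne hn fun h' => h ⟨hm', h'⟩
    rw [← permIdeal_transpose]
    refine not_prime h2 _ ht hn' hm F (fun i j => ?_) (toDual k _) _ (span_eps k)
      (fun i j => hmem j i) (fun i j => hne j i)
    rw [transpose_apply, hFX]
    by_cases hc : i.val < t ∧ j.val < t
    · rw [dif_pos hc, dif_pos hc.symm, arrow_symm]
    · rw [dif_neg hc, dif_neg (fun h' => hc h'.symm)]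

/-- the symmetric type -/
theorem symmetric_not_prime (h2 : (2 : k) ≠ 0) {n t : ℕ} (ht : 2 ≤ t) (hn : t < n) :
    ¬ (permIdeal t (symmetricMatrix k n)).IsPrime := by
  have hmem : ∀ (i : Fin n) (j : Fin n), toDual k (Sym2 (Fin n)) (symmetricMatrix k n i j) ∈
      Ideal.span {(DualNumber.eps : DualNumber k)} := fun i j => by
    rw [symmetricMatrix, of_apply, toDual_X]
    exact Ideal.subset_span rfl
  have hne : ∀ (i : Fin n) (j : Fin n), toDual k (Sym2 (Fin n)) (symmetricMatrix k n i j) ≠ 0 :=
    fun i j => by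
      rw [symmetricMatrix, of_apply, toDual_X]
      exact eps_ne k
  set v : Sym2 (Fin n) → k := Sym2.lift ⟨fun i j => if h : i.val < t ∧ j.val < t then
      arrow (⟨0, by omega⟩ : Fin t) (-((t - 1 : ℕ) : k)) ⟨i, h.1⟩ ⟨j, h.2⟩ else 0, fun i j => by
        dsimp only
        by_cases hc : i.val < t ∧ j.val < t
        · rw [dif_pos hc, dif_pos hc.symm, arrow_symm]
        · rw [dif_neg hc, dif_neg (fun h' => hc h'.symm)]⟩ with hv
  refine not_prime h2 _ ht hn hn.le (MvPolynomial.eval v) (fun i j => ?_) (toDual k _) _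
    (span_eps k) hmem hne
  rw [symmetricMatrix, of_apply, MvPolynomial.eval_X, hv]
  rfl

end types

end Pool.Agent.Q46.PI
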