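import Pool.Agent.Q46.PermIdeal

set_option autoImplicit false

namespace Pool.Agent.Q46.PI

open Matrix Equiv Finset

/-- the extended arrow matrix -/
def ext (k : Type*) [CommRing k] (n : ℕ) (a : k) : Matrix (Fin (n + 2)) (Fin (n + 2)) k :=
  (arrow (1 : Fin (n + 2)) a).updateRow 0 (Pi.single 1 1)

lemma ext_permanent {k : Type*} [CommRing k] (n : ℕ) (a : k) : (ext k n a).permanent = 1 :=
  perm_row_iz (1 : Fin (n + 2)) a (by simp)

lemma ext_block {k : Type*} [CommRing k] (n : ℕ) (a : k) :
    (ext k n a).submatrix Fin.succ Fin.succ = arrow (0 : Fin (n + 1)) a := by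
  ext i j
  rw [submatrix_apply, ext, updateRow_ne (Fin.succ_ne_zero i)]
  simp only [arrow, of_apply]
  have h : ∀ i : Fin (n + 1), (i.succ = (1 : Fin (n + 2))) ↔ i = 0 := fun i => by
    rw [← Fin.succ_zero_eq_one, Fin.succ_inj]
  simp only [h, Fin.succ_inj]

lemma ext_symm {k : Type*} [CommRing k] (n : ℕ) (a : k) (i j : Fin (n + 2)) :
    ext k n a i j = ext k n a j i := by
  have h10 : (1 : Fin (n + 2)) ≠ 0 := by simp
  have key : ∀ j : Fin (n + 2), j ≠ 0 → ext k n a 0 j = ext k n a j 0 := fun j hj => by
    rw [ext, updateRow_self, updateRow_ne hj]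
    by_cases h : j = 1
    · subst h
      rw [Pi.single_eq_same, arrow_zr a (Ne.symm h10)]
    · rw [Pi.single_eq_of_ne h, arrow_rc a h (Ne.symm h10) (Ne.symm hj)]
  by_cases hi : i = 0
  · by_cases hj : j = 0
    · rw [hi, hj]
    · rw [hi, key j hj]
  · by_cases hj : j = 0
    · rw [hj, key i hi]
    · rw [ext, updateRow_ne hi, updateRow_ne hj, arrow_symm]

section

variable {k : Type*} [Field k] {σ τ : Type*}

lemma prime_rename {e : σ → τ} (he : Function.Injective e) {p : MvPolynomial σ k} (hp : Prime p) :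
    Prime (MvPolynomial.rename e p) := by
  have h1 : MvPolynomial.rename e p = MvPolynomial.rename ((↑) : Set.range e → τ)
      (MvPolynomial.renameEquiv k (Equiv.ofInjective e he) p) := by
    rw [MvPolynomial.renameEquiv_apply, MvPolynomial.rename_rename]
    rfl
  rw [h1, MvPolynomial.prime_rename_iff]
  exact (MulEquiv.prime_iff (MvPolynomial.renameEquiv k (Equiv.ofInjective e he))).mpr hp

/-- the part of the permanent which does not use the entry `(0, 0)` -/
noncomputable def rest {R : Type*} [CommRing R] {n : ℕ} (Y : Matrix (Fin (n + 1)) (Fin (n + 1)) R) :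
    R := ∑ π ∈ (univ : Finset (Perm (Fin (n + 1)))).filter (fun π => π 0 ≠ 0), ∏ i, Y (π i) i

lemma permanent_split {R : Type*} [CommRing R] {n : ℕ} (Y : Matrix (Fin (n + 1)) (Fin (n + 1)) R) :
    Y.permanent = (Y.submatrix Fin.succ Fin.succ).permanent * Y 0 0 + rest Y := by
  rw [permanent, ← Finset.sum_filter_add_sum_filter_not univ (fun π : Perm (Fin (n + 1)) => π 0 = 0)]
  congr 1
  rw [permanent, Finset.sum_mul]
  symm
  refine Finset.sum_bij (fun (π : Perm (Fin n)) _ => Equiv.Perm.decomposeFin.symm (0, π)) ?_ ?_ ?_ ?_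
  · intro π _
    simp
  · intro π _ π' _ h
    have := Equiv.Perm.decomposeFin.symm.injective h
    simpa using this
  · intro π hπ
    rw [Finset.mem_filter] at hπ
    refine ⟨(Equiv.Perm.decomposeFin π).2, mem_univ _, ?_⟩
    have h0 : (Equiv.Perm.decomposeFin π).1 = 0 := by
      have h1 := Equiv.Perm.decomposeFin_symm_apply_zero (Equiv.Perm.decomposeFin π).1
        (Equiv.Perm.decomposeFin π).2
      rw [Prod.mk.eta, Equiv.symm_apply_apply] at h1
      rw [← h1, hπ.2]
    rw [← h0, Prod.mk.eta, Equiv.symm_apply_apply]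
  · intro π _
    have h1 : Equiv.Perm.decomposeFin.symm ((0 : Fin (n + 1)), π) 0 = 0 := by simp
    have h2 : ∀ i : Fin n, Equiv.Perm.decomposeFin.symm ((0 : Fin (n + 1)), π) i.succ
        = (π i).succ := fun i => by
      rw [Equiv.Perm.decomposeFin_symm_apply_succ]; simp
    rw [Fin.prod_univ_succ, h1, mul_comm]
    simp only [h2]
    rfl

/-- the induction step -/
lemma step {n : ℕ} (e : σ → τ) (he : Function.Injective e)
    (v : Fin (n + 1) → Fin (n + 1) → σ) (u : Fin (n + 2) → Fin (n + 2) → τ)
    (huv : ∀ i j, u i.succ j.succ = e (v i j)) (hu : ∀ i j, u i j = u 0 0 → i = 0 ∧ j = 0)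
    (w : τ → k) (hw : ∀ i j, w (u i j) = ext k n (-(n : k)) i j)
    (hp : Prime (of fun i j => (MvPolynomial.X (v i j) : MvPolynomial σ k)).permanent) :
    Irreducible (of fun i j => (MvPolynomial.X (u i j) : MvPolynomial τ k)).permanent := by
  classical
  set Y : Matrix (Fin (n + 2)) (Fin (n + 2)) (MvPolynomial τ k) :=
    of fun i j => (MvPolynomial.X (u i j) : MvPolynomial τ k) with hY
  have hYblock : (Y.submatrix Fin.succ Fin.succ).permanent = MvPolynomial.rename e
      (of fun i j => (MvPolynomial.X (v i j) : MvPolynomial σ k)).permanent := by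
    rw [← AlgHom.coe_toRingHom, map_permanent]
    congr 1
    ext i j : 2
    simp [hY, huv]
  have hA : Prime (Y.submatrix Fin.succ Fin.succ).permanent := by
    rw [hYblock]; exact prime_rename he hp
  -- evaluation
  have hev : (Y.map (MvPolynomial.eval w)) = ext k n (-(n : k)) := by
    ext i j
    rw [map_apply, hY, of_apply, MvPolynomial.eval_X, hw]
  have h1 : MvPolynomial.eval w Y.permanent = 1 := by
    rw [map_permanent, hev, ext_permanent]
  have h2 : MvPolynomial.eval w (Y.submatrix Fin.succ Fin.succ).permanent = 0 := by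
    rw [map_permanent, ← submatrix_map, hev, ext_block, permanent_arrow, Fintype.card_fin]
    simp
  have h3 : ¬ (Y.submatrix Fin.succ Fin.succ).permanent ∣ rest Y := by
    rintro ⟨c, hc⟩
    rw [permanent_split, map_add, map_mul, h2, zero_mul, zero_add, hc, map_mul, h2, zero_mul] at h1
    exact zero_ne_one h1
  rw [permanent_split]
  have h00 : Y 0 0 = MvPolynomial.X (u 0 0) := rfl
  rw [h00]
  refine MvPolynomial.irreducible_mul_X_add _ _ _ hA.ne_zero ?_ ?_
    (hA.irreducible.isRelPrime_iff_not_dvd.mpr h3)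
  · intro hmem
    rw [permanent] at hmem
    have := MvPolynomial.vars_sum_subset _ _ hmem
    rw [Finset.mem_biUnion] at this
    obtain ⟨π, _, hπ⟩ := this
    have := MvPolynomial.vars_prod _ hπ
    rw [Finset.mem_biUnion] at this
    obtain ⟨i, _, hi⟩ := this
    have h4 : (Y.submatrix Fin.succ Fin.succ) (π i) i
        = MvPolynomial.X (u (π i).succ i.succ) := rfl
    rw [h4, MvPolynomial.vars_X, Finset.mem_singleton] at hi
    exact Fin.succ_ne_zero _ (hu _ _ hi.symm).1
  · intro hmem
    rw [rest] at hmem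
    have := MvPolynomial.vars_sum_subset _ _ hmem
    rw [Finset.mem_biUnion] at this
    obtain ⟨π, hπ0, hπ⟩ := this
    have := MvPolynomial.vars_prod _ hπ
    rw [Finset.mem_biUnion] at this
    obtain ⟨i, _, hi⟩ := this
    have h4 : Y (π i) i = MvPolynomial.X (u (π i) i) := rfl
    rw [h4, MvPolynomial.vars_X, Finset.mem_singleton] at hi
    obtain ⟨h5, h6⟩ := hu _ _ hi.symm
    rw [Finset.mem_filter] at hπ0
    rw [h6] at h5
    exact hπ0.2 h5

/-- the permanent of the generic square matrix is prime -/
lemma generic_prime (n : ℕ) : Prime (genericMatrix k (n + 1) (n + 1)).permanent := by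
  induction n with
  | zero =>
    have : Unique (Fin (0 + 1)) := inferInstanceAs (Unique (Fin 1))
    rw [permanent_eq_elem_of_card_eq_one (by simp) (0 : Fin (0 + 1))]
    exact MvPolynomial.X_prime
  | succ n ih =>
    refine (step (k := k) (fun p : Fin (n + 1) × Fin (n + 1) => (p.1.succ, p.2.succ)) ?_
      (fun i j => (i, j)) (fun i j => (i, j)) (fun i j => rfl) (fun i j h => ?_)
      (fun p => ext k n (-(n : k)) p.1 p.2) (fun i j => rfl) ih).prime
    · rintro ⟨a, b⟩ ⟨c, d⟩ h
      simpa using h
    · simpa using h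

/-- the permanent of the generic symmetric matrix is prime -/
lemma symmetric_prime (n : ℕ) : Prime (symmetricMatrix k (n + 1)).permanent := by
  induction n with
  | zero =>
    have : Unique (Fin (0 + 1)) := inferInstanceAs (Unique (Fin 1))
    rw [permanent_eq_elem_of_card_eq_one (by simp) (0 : Fin (0 + 1))]
    exact MvPolynomial.X_prime
  | succ n ih =>
    refine (step (k := k) (Sym2.map Fin.succ) (Sym2.map.injective (Fin.succ_injective _))
      (fun i j => s(i, j)) (fun i j => s(i, j)) (fun i j => by rw [Sym2.map_mk]) (fun i j h => ?_)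
      (Sym2.lift ⟨fun i j => ext k n (-(n : k)) i j, ext_symm n _⟩) (fun i j => rfl) ih).prime
    rw [Sym2.eq_iff] at h
    rcases h with h | h
    · exact h
    · exact h

end

section

variable {R : Type*} [CommRing R] {t : ℕ}

lemma permIdeal_self (X : Matrix (Fin t) (Fin t) R) : permIdeal t X = Ideal.span {X.permanent} := by
  rw [permIdeal]
  congr 1
  ext f
  rw [Set.mem_singleton_iff]
  constructor
  · rintro ⟨r, c, hr, hc, rfl⟩
    set σ : Perm (Fin t) := Equiv.ofBijective _ (Finite.injective_iff_bijective.mp hr) with hσ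
    set τ : Perm (Fin t) := Equiv.ofBijective _ (Finite.injective_iff_bijective.mp hc) with hτ
    have : X.submatrix r c = (X.submatrix σ id).submatrix id τ := rfl
    rw [this, permanent_permute_rows, permanent_permute_cols]
  · rintro rfl
    exact ⟨id, id, Function.injective_id, Function.injective_id, by rw [submatrix_id_id]⟩

end

/-- **Theorem** (generic type). -/
theorem generic_iff (k : Type*) [Field k] (h2 : (2 : k) ≠ 0) {m n t : ℕ} (ht : 2 ≤ t)
    (hm : t ≤ m) (hn : t ≤ n) :
    (permIdeal t (genericMatrix k m n)).IsPrime ↔ t = m ∧ t = n := by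
  constructor
  · intro h
    by_contra hne
    exact generic_not_prime k h2 ht hm hn hne h
  · rintro ⟨rfl, rfl⟩
    rw [permIdeal_self]
    obtain ⟨s, rfl⟩ : ∃ s, t = s + 1 := ⟨t - 1, by omega⟩
    have := generic_prime (k := k) s
    rwa [Ideal.span_singleton_prime this.ne_zero]

/-- **Theorem** (symmetric type). -/
theorem symmetric_iff (k : Type*) [Field k] (h2 : (2 : k) ≠ 0) {n t : ℕ} (ht : 2 ≤ t)
    (hn : t ≤ n) :
    (permIdeal t (symmetricMatrix k n)).IsPrime ↔ t = n := by
  constructor
  · intro h
    by_contra hne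
    exact symmetric_not_prime k h2 ht (lt_of_le_of_ne hn hne) h
  · rintro rfl
    rw [permIdeal_self]
    obtain ⟨s, rfl⟩ : ∃ s, t = s + 1 := ⟨t - 1, by omega⟩
    have := symmetric_prime (k := k) s
    rwa [Ideal.span_singleton_prime this.ne_zero]

end Pool.Agent.Q46.PI
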