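import Mathlib

set_option autoImplicit false

namespace Pool.Agent.Q46.PI

open Matrix Equiv Finset

variable {α : Type*} [Fintype α] [DecidableEq α] {R : Type*} [CommRing R]

/-- the permanent as a sum over permutations from rows to columns -/
lemma permanent_rows (B : Matrix α α R) : B.permanent = ∑ σ : Perm α, ∏ i, B i (σ i) := by
  rw [← permanent_transpose]; rfl

lemma map_permanent {S : Type*} [CommRing S] (f : R →+* S) (B : Matrix α α R) :
    f B.permanent = (B.map f).permanent := by
  simp [permanent, map_sum, map_prod]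

/-- expansion along a row -/
lemma permanent_updateRow (B : Matrix α α R) (i : α) (y : α → R) :
    (B.updateRow i y).permanent = ∑ j, y j * (B.updateRow i (Pi.single j 1)).permanent := by
  simp only [permanent_rows, Finset.mul_sum]
  rw [Finset.sum_comm]
  refine Finset.sum_congr rfl fun σ _ => ?_
  rw [Finset.sum_eq_single (σ i)]
  · rw [← mul_prod_erase _ _ (mem_univ i), ← mul_prod_erase _ _ (mem_univ i)]
    simp only [updateRow_self, Pi.single_eq_same, one_mul]
    congr 1
    refine Finset.prod_congr rfl fun r hr => ?_
    rw [updateRow_ne (ne_of_mem_erase hr), updateRow_ne (ne_of_mem_erase hr)]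
  · intro j _ hj
    rw [← mul_prod_erase _ _ (mem_univ i)]
    simp [updateRow_self, Pi.single_eq_of_ne (Ne.symm hj)]
  · intro h; exact absurd (mem_univ _) h

/-- a permutation all of whose displacements involve `z` is a transposition `(z l)` -/
lemma eq_swap {z : α} {σ : Perm α} (h : ∀ r, r ≠ z → σ r = r ∨ σ r = z) : σ = swap z (σ z) := by
  by_cases hz : σ z = z
  · rw [hz, swap_self]
    ext r
    by_cases hr : r = z
    · subst hr; simpa using hz
    · rcases h r hr with h1 | h1
      · simpa using h1
      · exact absurd (σ.injective (h1.trans hz.symm)) hr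
  · -- the preimage of z
    set l := σ.symm z with hl
    have hlz : σ l = z := by simp [hl]
    have hlne : l ≠ z := fun h' => hz (by rw [← h']; rw [hlz]; exact h'.symm)
    have hfix : ∀ r, r ≠ z → r ≠ l → σ r = r := fun r hr hrl => by
      rcases h r hr with h1 | h1
      · exact h1
      · exact absurd (σ.injective (h1.trans hlz.symm)) hrl
    have hσz : σ z = l := by
      by_contra hne
      have := hfix (σ z) hz hne
      exact hz (σ.injective this)
    rw [hσz]
    ext r
    by_cases hr : r = z
    · subst hr; rw [hσz, swap_apply_left]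
    · by_cases hrl : r = l
      · subst hrl; rw [hlz, swap_apply_right]
      · rw [hfix r hr hrl, swap_apply_of_ne_of_ne hr hrl]

/-- the permanent of a star shaped matrix -/
lemma permanent_star (B : Matrix α α R) (z : α)
    (h : ∀ r c, r ≠ z → c ≠ z → c ≠ r → B r c = 0) :
    B.permanent = ∑ l, ∏ r, B r (swap z l r) := by
  rw [permanent_rows]
  have hinj : Function.Injective (fun l => swap z l) := fun a b hab => by
    have := congrArg (fun σ : Perm α => σ z) hab
    simpa using this
  rw [← Finset.sum_image (s := univ) (g := fun l => swap z l) (f := fun σ : Perm α => ∏ r, B r (σ r))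
    (fun a _ b _ hab => hinj hab)]
  symm
  refine Finset.sum_subset (Finset.subset_univ _) fun σ _ hσ => ?_
  by_contra hne
  apply hσ
  rw [Finset.mem_image]
  refine ⟨σ z, mem_univ _, (eq_swap fun r hr => ?_).symm⟩
  by_contra hcon
  push Not at hcon
  exact hne (Finset.prod_eq_zero (mem_univ r) (h r (σ r) hr hcon.2 hcon.1))

/-- the arrow matrix -/
def arrow (z : α) (a : R) : Matrix α α R := of fun i j =>
  if i = z ∧ j = z then a else if i = z ∨ j = z ∨ i = j then 1 else 0

lemma arrow_zz (z : α) (a : R) : arrow z a z z = a := by simp [arrow]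
lemma arrow_zr {z r : α} (a : R) (h : r ≠ z) : arrow z a z r = 1 := by simp [arrow, h]
lemma arrow_rz {z r : α} (a : R) (h : r ≠ z) : arrow z a r z = 1 := by simp [arrow, h]
lemma arrow_rr {z r : α} (a : R) (h : r ≠ z) : arrow z a r r = 1 := by simp [arrow, h]
lemma arrow_rc {z r c : α} (a : R) (h : r ≠ z) (h' : c ≠ z) (h'' : c ≠ r) : arrow z a r c = 0 := by
  simp [arrow, h, h', Ne.symm h'']

/-- the products in `permanent_star` -/
lemma prod_swap (B : Matrix α α R) {z l : α} (hl : l ≠ z) :
    ∏ r, B r (swap z l r) = B z l * (B l z * ∏ r ∈ (univ.erase z).erase l, B r r) := by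
  rw [← mul_prod_erase _ _ (mem_univ z), swap_apply_left,
    ← mul_prod_erase _ _ (mem_erase.mpr ⟨hl, mem_univ l⟩), swap_apply_right]
  congr 2
  refine Finset.prod_congr rfl fun r hr => ?_
  rw [mem_erase, mem_erase] at hr
  rw [swap_apply_of_ne_of_ne hr.2.1 hr.1]

lemma prod_diag (B : Matrix α α R) (z : α) :
    ∏ r, B r (swap z z r) = B z z * ∏ r ∈ univ.erase z, B r r := by
  rw [← mul_prod_erase _ _ (mem_univ z)]
  simp

lemma permanent_arrow (z : α) (a : R) :
    (arrow z a).permanent = a + ((Fintype.card α - 1 : ℕ) : R) := by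
  rw [permanent_star _ z (fun r c h1 h2 h3 => arrow_rc a h1 h2 h3),
    ← Finset.add_sum_erase _ _ (mem_univ z)]
  congr 1
  · rw [prod_diag, arrow_zz, Finset.prod_eq_one, mul_one]
    intro r hr
    exact arrow_rr a (ne_of_mem_erase hr)
  · rw [Finset.sum_congr rfl (g := fun _ => (1 : R))]
    · simp [card_erase_of_mem]
    · intro l hl
      have hlz := ne_of_mem_erase hl
      rw [prod_swap _ hlz, arrow_zr a hlz, arrow_rz a hlz, Finset.prod_eq_one, mul_one, mul_one]
      intro r hr
      rw [mem_erase, mem_erase] at hr
      exact arrow_rr a hr.2.1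

/-- row `z` of the permanental cofactors -/
lemma perm_row_z (z : α) (a : R) (j : α) :
    ((arrow z a).updateRow z (Pi.single j 1)).permanent = 1 := by
  rw [permanent_star _ z (fun r c h1 h2 h3 => by rw [updateRow_ne h1]; exact arrow_rc a h1 h2 h3)]
  rw [Finset.sum_eq_single j]
  · by_cases hj : j = z
    · subst hj
      rw [prod_diag, updateRow_self, Pi.single_eq_same, one_mul]
      refine Finset.prod_eq_one fun r hr => ?_
      rw [updateRow_ne (ne_of_mem_erase hr)]
      exact arrow_rr a (ne_of_mem_erase hr)
    · rw [prod_swap _ hj, updateRow_self, Pi.single_eq_same, updateRow_ne hj, arrow_rz a hj,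
        Finset.prod_eq_one, mul_one, mul_one]
      intro r hr
      rw [mem_erase, mem_erase] at hr
      rw [updateRow_ne hr.2.1]
      exact arrow_rr a hr.2.1
  · intro l _ hl
    refine Finset.prod_eq_zero (mem_univ z) ?_
    rw [swap_apply_left, updateRow_self, Pi.single_eq_of_ne hl]
  · intro h; exact absurd (mem_univ _) h

/-- the other rows: the entry at `z` -/
lemma perm_row_iz (z : α) (a : R) {i : α} (hi : i ≠ z) :
    ((arrow z a).updateRow i (Pi.single z 1)).permanent = 1 := by
  rw [permanent_star _ z (fun r c h1 h2 h3 => by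
    by_cases hr : r = i
    · subst hr; rw [updateRow_self, Pi.single_eq_of_ne h2]
    · rw [updateRow_ne hr]; exact arrow_rc a h1 h2 h3)]
  rw [Finset.sum_eq_single i]
  · rw [prod_swap _ hi, updateRow_self, Pi.single_eq_same, updateRow_ne (Ne.symm hi), arrow_zr a hi,
      Finset.prod_eq_one, mul_one, mul_one]
    intro r hr
    rw [mem_erase, mem_erase] at hr
    rw [updateRow_ne hr.1]
    exact arrow_rr a hr.2.1
  · intro l _ hl
    refine Finset.prod_eq_zero (mem_univ i) ?_
    rw [swap_apply_of_ne_of_ne hi (Ne.symm hl), updateRow_self, Pi.single_eq_of_ne hi]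
  · intro h; exact absurd (mem_univ _) h

/-- the other rows: the diagonal entry -/
lemma perm_row_ii (z : α) (a : R) {i : α} (hi : i ≠ z) :
    ((arrow z a).updateRow i (Pi.single i 1)).permanent = a + ((Fintype.card α - 2 : ℕ) : R) := by
  rw [permanent_star _ z (fun r c h1 h2 h3 => by
    by_cases hr : r = i
    · subst hr; rw [updateRow_self, Pi.single_eq_of_ne h3]
    · rw [updateRow_ne hr]; exact arrow_rc a h1 h2 h3)]
  rw [← Finset.add_sum_erase _ _ (mem_univ z),
    ← Finset.add_sum_erase _ _ (mem_erase.mpr ⟨hi, mem_univ i⟩)]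
  have h0 : ∏ r, ((arrow z a).updateRow i (Pi.single i 1)) r (swap z i r) = 0 := by
    refine Finset.prod_eq_zero (mem_univ i) ?_
    rw [swap_apply_right, updateRow_self, Pi.single_eq_of_ne (Ne.symm hi)]
  rw [h0, zero_add]
  have hd : ∀ r, r ≠ z → ((arrow z a).updateRow i (Pi.single i 1)) r r = 1 := fun r hr => by
    by_cases h : r = i
    · subst h; rw [updateRow_self, Pi.single_eq_same]
    · rw [updateRow_ne h]; exact arrow_rr a hr
  congr 1
  · rw [prod_diag, updateRow_ne (Ne.symm hi), arrow_zz, Finset.prod_eq_one, mul_one]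
    intro r hr
    exact hd r (ne_of_mem_erase hr)
  · rw [Finset.sum_congr rfl (g := fun _ => (1 : R))]
    · simp [card_erase_of_mem, mem_erase.mpr ⟨hi, mem_univ i⟩]
      congr 1
    · intro l hl
      rw [mem_erase, mem_erase] at hl
      rw [prod_swap _ hl.2.1, updateRow_ne (Ne.symm hi), arrow_zr a hl.2.1, updateRow_ne hl.1,
        arrow_rz a hl.2.1, Finset.prod_eq_one, mul_one, mul_one]
      intro r hr
      rw [mem_erase, mem_erase] at hr
      exact hd r hr.2.1

/-- the other rows: the other entries -/
lemma perm_row_ij (z : α) (a : R) {i j : α} (hi : i ≠ z) (hj : j ≠ z) (hij : j ≠ i) :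
    ((arrow z a).updateRow i (Pi.single j 1)).permanent = 1 := by
  rw [permanent_rows, Finset.sum_eq_single (swap z j * swap z i)]
  · refine Finset.prod_eq_one fun r _ => ?_
    rw [Perm.mul_apply]
    by_cases hr : r = i
    · subst hr
      rw [swap_apply_right, swap_apply_left, updateRow_self, Pi.single_eq_same]
    · rw [updateRow_ne hr]
      by_cases hrz : r = z
      · subst hrz
        rw [swap_apply_left, swap_apply_of_ne_of_ne hi (Ne.symm hij)]
        exact arrow_zr a hi
      · rw [swap_apply_of_ne_of_ne hrz hr]
        by_cases hrj : r = j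
        · subst hrj
          rw [swap_apply_right]
          exact arrow_rz a hj
        · rw [swap_apply_of_ne_of_ne hrz hrj]
          exact arrow_rr a hrz
  · intro σ _ hσ
    by_contra hne
    apply hσ
    have hprod : ∀ r, ((arrow z a).updateRow i (Pi.single j 1)) r (σ r) ≠ 0 := fun r h0 =>
      hne (Finset.prod_eq_zero (mem_univ r) h0)
    have hi' : σ i = j := by
      by_contra h
      apply hprod i
      rw [updateRow_self, Pi.single_eq_of_ne h]
    have hr' : ∀ r, r ≠ z → r ≠ i → σ r = r ∨ σ r = z := fun r hrz hri => by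
      by_contra h
      push Not at h
      apply hprod r
      rw [updateRow_ne hri]
      exact arrow_rc a hrz h.2 h.1
    have hj' : σ j = z := by
      rcases hr' j hj hij with h | h
      · exact absurd (σ.injective (h.trans hi'.symm)) hij
      · exact h
    have hfix : ∀ r, r ≠ z → r ≠ i → r ≠ j → σ r = r := fun r h1 h2 h3 => by
      rcases hr' r h1 h2 with h | h
      · exact h
      · exact absurd (σ.injective (h.trans hj'.symm)) h3
    have hz' : σ z = i := by
      by_contra h
      have h1 : σ z ≠ z := fun h' => hj (σ.injective (hj'.trans h'.symm))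
      have h2 : σ z ≠ j := fun h' => hi (σ.injective (hi'.trans h'.symm))
      exact h1 (σ.injective (hfix (σ z) h1 h h2))
    ext r
    rw [Perm.mul_apply]
    by_cases hr : r = i
    · subst hr
      rw [swap_apply_right, swap_apply_left, hi']
    · by_cases hrz : r = z
      · subst hrz
        rw [swap_apply_left, swap_apply_of_ne_of_ne hi (Ne.symm hij), hz']
      · rw [swap_apply_of_ne_of_ne hrz hr]
        by_cases hrj : r = j
        · subst hrj
          rw [swap_apply_right, hj']
        · rw [swap_apply_of_ne_of_ne hrz hrj, hfix r hrz hr hrj]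
  · intro h; exact absurd (mem_univ _) h

/-- the matrix of permanental cofactors -/
def cof (B : Matrix α α R) : Matrix α α R := of fun i j => (B.updateRow i (Pi.single j 1)).permanent

lemma cof_mulVec (B : Matrix α α R) (y : α → R) (i : α) :
    (cof B *ᵥ y) i = (B.updateRow i y).permanent := by
  rw [permanent_updateRow, mulVec, dotProduct]
  refine Finset.sum_congr rfl fun j _ => ?_
  rw [cof, of_apply, mul_comm]

/-- the matrix of permanental cofactors of the arrow matrix of permanent zero is nonsingular -/
lemma det_cof_arrow {k : Type*} [Field k] (h2 : (2 : k) ≠ 0) (z : α) (hc : 2 ≤ Fintype.card α) :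
    (cof (arrow z (-((Fintype.card α - 1 : ℕ) : k)))).det ≠ 0 := by
  intro hdet
  obtain ⟨v, hv, hMv⟩ := (exists_mulVec_eq_zero_iff (M := cof (arrow z
    (-((Fintype.card α - 1 : ℕ) : k))))).mpr hdet
  set a : k := -((Fintype.card α - 1 : ℕ) : k) with ha
  have hz : ∑ j, v j = 0 := by
    have := congrFun hMv z
    rw [cof_mulVec, permanent_updateRow] at this
    simpa [perm_row_z] using this
  have hi : ∀ i, i ≠ z → v i = 0 := fun i hi => by
    have := congrFun hMv i
    rw [cof_mulVec, permanent_updateRow, ← Finset.add_sum_erase _ _ (mem_univ i),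
      perm_row_ii z a hi] at this
    have h3 : ∑ j ∈ univ.erase i, v j * ((arrow z a).updateRow i (Pi.single j 1)).permanent
        = ∑ j ∈ univ.erase i, v j := by
      refine Finset.sum_congr rfl fun j hj => ?_
      by_cases hjz : j = z
      · subst hjz; rw [perm_row_iz _ a hi, mul_one]
      · rw [perm_row_ij z a hi hjz (ne_of_mem_erase hj), mul_one]
    rw [h3] at this
    have h4 : v i + ∑ j ∈ univ.erase i, v j = 0 := by
      rw [Finset.add_sum_erase _ _ (mem_univ i)]; exact hz
    have h5 : a + ((Fintype.card α - 2 : ℕ) : k) = -1 := by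
      have : Fintype.card α - 1 = (Fintype.card α - 2) + 1 := by omega
      rw [ha, this]; push_cast; ring
    rw [h5] at this
    have h6 : (2 : k) * v i = 0 := by
      have : v i * -1 + ∑ j ∈ univ.erase i, v j = 0 := by simpa using this
      linear_combination h4 - this
    exact (mul_eq_zero.mp h6).resolve_left h2
  apply hv
  ext i
  by_cases h : i = z
  · subst h
    rw [← Finset.add_sum_erase _ _ (mem_univ i), Finset.sum_eq_zero, add_zero] at hz
    · exact hz
    · intro j hj; exact hi j (ne_of_mem_erase hj)
  · exact hi i h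

end Pool.Agent.Q46.PI
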