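import Mathlib

set_option autoImplicit false

open Filter Set Topology

namespace Pool.Agent.Q46.PQ

/-- Quadratic functions on a real inner product space. -/
structure Qd (V : Type*) [NormedAddCommGroup V] [InnerProductSpace ℝ V] where
  T : V →L[ℝ] V
  symm : ∀ x y, inner ℝ (T x) y = inner ℝ x (T y)
  b : V
  c : ℝ

variable {V : Type*} [NormedAddCommGroup V] [InnerProductSpace ℝ V]

namespace Qd

noncomputable def fn (q : Qd V) (x : V) : ℝ := 1 / 2 * inner ℝ (q.T x) x + inner ℝ q.b x + q.c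

def grad (q : Qd V) (x : V) : V := q.T x + q.b

def sub (p q : Qd V) : Qd V where
  T := p.T - q.T
  symm := by
    intro x y
    simp only [sub_apply, inner_sub_left, inner_sub_right, p.symm, q.symm]
  b := p.b - q.b
  c := p.c - q.c

def neg (p : Qd V) : Qd V where
  T := -p.T
  symm := by
    intro x y
    simp only [neg_apply, inner_neg_left, inner_neg_right, p.symm]
  b := -p.b
  c := -p.c

lemma sub_fn (p q : Qd V) (x : V) : (p.sub q).fn x = p.fn x - q.fn x := by
  simp only [fn, sub, sub_apply, inner_sub_left]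
  ring

lemma neg_fn (p : Qd V) (x : V) : p.neg.fn x = -p.fn x := by
  simp only [fn, neg, neg_apply, inner_neg_left]
  ring

lemma neg_grad (p : Qd V) (x : V) : p.neg.grad x = -p.grad x := by
  simp only [grad, neg, neg_apply]
  abel

lemma fn_add (q : Qd V) (x u : V) :
    q.fn (x + u) = q.fn x + inner ℝ (q.grad x) u + 1 / 2 * inner ℝ (q.T u) u := by
  simp only [fn, grad, map_add, inner_add_left, inner_add_right]
  have : inner ℝ (q.T u) x = inner ℝ (q.T x) u := by
    rw [q.symm u x, real_inner_comm]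
  rw [this]
  ring

lemma grad_add (q : Qd V) (x u : V) : q.grad (x + u) = q.grad x + q.T u := by
  simp only [grad, map_add]; abel

lemma continuous_fn (q : Qd V) : Continuous q.fn := by
  unfold fn; fun_prop

lemma continuous_grad (q : Qd V) : Continuous q.grad := by
  unfold grad; fun_prop

/-- along a segment the increment is the mean of the two slopes -/
lemma fn_add_smul (q : Qd V) (y e : V) (t : ℝ) :
    q.fn (y + t • e) = q.fn y +
      t / 2 * (inner ℝ (q.grad y) e + inner ℝ (q.grad (y + t • e)) e) := by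
  rw [fn_add, grad_add]
  simp only [map_smul, inner_smul_left, inner_smul_right, inner_add_left, RCLike.conj_to_real]
  ring

lemma ident (q : Qd V) (x : V) (h : ∀ᶠ y in 𝓝 x, q.fn y = 0) : ∀ y, q.fn y = 0 := by
  intro y
  set u := y - x with hu
  have hc : Tendsto (fun t : ℝ => x + t • u) (𝓝 0) (𝓝 x) := by
    have : Continuous fun t : ℝ => x + t • u := by fun_prop
    simpa using this.tendsto 0
  have h1 := hc.eventually h
  rw [Metric.eventually_nhds_iff] at h1
  obtain ⟨ε, hε, h1⟩ := h1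
  have h2 : ∀ t : ℝ, q.fn (x + t • u) = q.fn x + t * inner ℝ (q.grad x) u
      + t ^ 2 * (1 / 2 * inner ℝ (q.T u) u) := by
    intro t
    rw [fn_add]
    simp only [map_smul, inner_smul_left, inner_smul_right, RCLike.conj_to_real]
    ring
  have e0 := h1 (y := 0) (by simpa using hε)
  have e1 := h1 (y := ε / 2) (by rw [Real.dist_eq, sub_zero, abs_of_pos (by linarith)]; linarith)
  have e2 := h1 (y := -(ε / 2)) (by
    rw [Real.dist_eq, sub_zero, abs_neg, abs_of_pos (by linarith)]; linarith)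
  rw [h2] at e0 e1 e2
  have a0 : q.fn x = 0 := by simpa using e0
  rw [a0] at e1 e2
  set α := inner ℝ (q.grad x) u
  set β := 1 / 2 * inner ℝ (q.T u) u
  have a1 : α = 0 := by
    have : ε * α = 0 := by linear_combination e1 - e2
    rcases mul_eq_zero.1 this with h | h
    · exact absurd h hε.ne'
    · exact h
  have a2 : β = 0 := by
    have : ε ^ 2 * β = 0 := by linear_combination 2 * e1 + 2 * e2
    rcases mul_eq_zero.1 this with h | h
    · exact absurd h (by positivity)
    · exact h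
  have := h2 1
  rw [a0, a1, a2] at this
  simpa [hu] using this

/-- the function is a product of two affine functions -/
def Fac (q : Qd V) : Prop :=
  ∃ (a₁ : V) (c₁ : ℝ) (a₂ : V) (c₂ : ℝ), ∀ y,
    q.fn y = (inner ℝ a₁ y + c₁) * (inner ℝ a₂ y + c₂)

end Qd

variable {ι : Type*}

/-- `f` is locally one of the `q i` at `x` -/
def Good (f : V → ℝ) (q : ι → Qd V) (x : V) : Prop := ∃ i, f =ᶠ[𝓝 x] (q i).fn

lemma good_nhds {f : V → ℝ} {q : ι → Qd V} {x : V} {i : ι} (h : f =ᶠ[𝓝 x] (q i).fn) :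
    ∀ᶠ y in 𝓝 x, f =ᶠ[𝓝 y] (q i).fn := h.eventually_nhds

/-- propagation along preconnected sets -/
lemma propagate {f : V → ℝ} {q : ι → Qd V} {S : Set V} (hS : IsPreconnected S)
    (hG : ∀ x ∈ S, Good f q x) {x y : V} (hx : x ∈ S) (hy : y ∈ S) {i : ι}
    (hi : f =ᶠ[𝓝 x] (q i).fn) : f =ᶠ[𝓝 y] (q i).fn := by
  classical
  set U : Set V := {z | f =ᶠ[𝓝 z] (q i).fn} with hU
  set W : Set V := {z | ∃ j, (∃ w, (q j).fn w ≠ (q i).fn w) ∧ f =ᶠ[𝓝 z] (q j).fn} with hW
  have hUo : IsOpen U := by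
    rw [isOpen_iff_mem_nhds]
    intro z hz
    exact good_nhds hz
  have hWo : IsOpen W := by
    rw [isOpen_iff_mem_nhds]
    rintro z ⟨j, hj, hz⟩
    filter_upwards [good_nhds hz] with w hw
    exact ⟨j, hj, hw⟩
  have hd : Disjoint U W := by
    rw [Set.disjoint_left]
    rintro z hz ⟨j, ⟨w, hw⟩, hz'⟩
    apply hw
    have h1 : ∀ᶠ y in 𝓝 z, ((q j).sub (q i)).fn y = 0 := by
      filter_upwards [hz, hz'] with y h1 h2
      rw [Qd.sub_fn, ← h1, ← h2, sub_self]
    have h2 := Qd.ident _ z h1 w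
    rw [Qd.sub_fn] at h2
    linarith
  have hsub : S ⊆ U ∪ W := by
    intro z hz
    obtain ⟨j, hj⟩ := hG z hz
    by_cases hji : ∃ w, (q j).fn w ≠ (q i).fn w
    · exact Or.inr ⟨j, hji, hj⟩
    · left
      push Not at hji
      have : (q j).fn = (q i).fn := funext hji
      show f =ᶠ[𝓝 z] (q i).fn
      rw [← this]; exact hj
  exact hS.subset_left_of_subset_union hUo hWo hd hsub ⟨x, hx, hi⟩ hy

lemma propagate_seg {f : V → ℝ} {q : ι → Qd V} {x y : V}
    (hG : ∀ z ∈ segment ℝ x y, Good f q z) {i : ι}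
    (hi : f =ᶠ[𝓝 x] (q i).fn) : f =ᶠ[𝓝 y] (q i).fn :=
  propagate (convex_segment x y).isPreconnected hG (left_mem_segment ℝ x y)
    (right_mem_segment ℝ x y) hi

lemma exists_not_mem_two (K₁ K₂ : Submodule ℝ V) (h₁ : K₁ ≠ ⊤) (h₂ : K₂ ≠ ⊤) :
    ∃ w, w ∉ K₁ ∧ w ∉ K₂ := by
  obtain ⟨w₁, hw₁⟩ : ∃ w, w ∉ K₁ := by
    by_contra h; push Not at h; exact h₁ (by ext; simp [h])
  obtain ⟨w₂, hw₂⟩ : ∃ w, w ∉ K₂ := by
    by_contra h; push Not at h; exact h₂ (by ext; simp [h])
  by_cases h3 : w₁ ∈ K₂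
  · by_cases h4 : w₂ ∈ K₁
    · refine ⟨w₁ + w₂, fun h => hw₁ ?_, fun h => hw₂ ?_⟩
      · simpa using K₁.sub_mem h h4
      · simpa using K₂.sub_mem h h3
    · exact ⟨w₂, h4, hw₂⟩
  · exact ⟨w₁, hw₁, h3⟩

/-- small vectors outside two proper subspaces -/
lemma exists_small (K₁ K₂ : Submodule ℝ V) (h₁ : K₁ ≠ ⊤) (h₂ : K₂ ≠ ⊤) {r : ℝ} (hr : 0 < r) :
    ∃ w, ‖w‖ < r ∧ w ∉ K₁ ∧ w ∉ K₂ := by
  obtain ⟨w, hw1, hw2⟩ := exists_not_mem_two K₁ K₂ h₁ h₂
  have ht : (0 : ℝ) < r / (2 * (‖w‖ + 1)) := by positivity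
  refine ⟨(r / (2 * (‖w‖ + 1))) • w, ?_, ?_, ?_⟩
  · rw [norm_smul, Real.norm_of_nonneg ht.le, div_mul_eq_mul_div, div_lt_iff₀ (by positivity)]
    nlinarith [norm_nonneg w]
  · intro h; exact hw1 ((K₁.smul_mem_iff ht.ne').1 h)
  · intro h; exact hw2 ((K₂.smul_mem_iff ht.ne').1 h)

/-- a set of codimension at least two does not matter -/
lemma codim_two {f : V → ℝ} (hf : Continuous f) {q : ι → Qd V} (K : Submodule ℝ V)
    (hK : ∀ v, K ⊔ Submodule.span ℝ {v} ≠ ⊤) {z : V} {r : ℝ} (hr : 0 < r)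
    (h : ∀ y, ‖y - z‖ < r → y - z ∉ K → Good f q y) : Good f q z := by
  have hsm : ∀ y : V, ‖y - z‖ < r → y - z ∉ K → ∀ p : V, ‖p‖ < r →
      p ∉ K ⊔ Submodule.span ℝ {y - z} → ∀ w ∈ segment ℝ y (z + p), Good f q w := by
    intro y hy hyK p hp hpK w hw
    obtain ⟨s, t, hs, ht, hst, rfl⟩ := hw
    have e : s • y + t • (z + p) - z = s • (y - z) + t • p := by
      have hz : z = (s + t) • z := by rw [hst, one_smul]
      nth_rewrite 2 [hz]
      module
    apply h
    · rw [e]
      calc ‖s • (y - z) + t • p‖ ≤ ‖s • (y - z)‖ + ‖t • p‖ := norm_add_le _ _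
        _ = s * ‖y - z‖ + t * ‖p‖ := by
            rw [norm_smul, norm_smul, Real.norm_of_nonneg hs, Real.norm_of_nonneg ht]
        _ < r := by
            rcases hs.eq_or_lt with h0 | h0
            · subst h0
              have : t = 1 := by linarith
              rw [this]; simpa using hp
            · nlinarith [mul_lt_mul_of_pos_left hy h0, mul_le_mul_of_nonneg_left hp.le ht]
    · rw [e]
      intro hm
      rcases ht.eq_or_lt with h0 | h0
      · subst h0
        have : s = 1 := by linarith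
        rw [this] at hm
        exact hyK (by simpa using hm)
      · apply hpK
        have h1 : t • p ∈ K ⊔ Submodule.span ℝ {y - z} := by
          have h2 : t • p = (s • (y - z) + t • p) + (-s) • (y - z) := by module
          rw [h2]
          exact Submodule.add_mem _ (Submodule.mem_sup_left hm)
            (Submodule.mem_sup_right (Submodule.smul_mem _ _ (Submodule.mem_span_singleton_self _)))
        exact (Submodule.smul_mem_iff _ h0.ne').1 h1
  have hK0 : K ≠ ⊤ := by
    intro h0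
    apply hK 0
    rw [h0]; simp
  obtain ⟨p₀, hp₀, hp₀K, -⟩ := exists_small K K hK0 hK0 hr
  obtain ⟨i, hi⟩ := h (z + p₀) (by simpa using hp₀) (by simpa using hp₀K)
  have key : ∀ y, ‖y - z‖ < r → y - z ∉ K → f =ᶠ[𝓝 y] (q i).fn := by
    intro y hy hyK
    obtain ⟨p, hp, hp1, hp2⟩ := exists_small (K ⊔ Submodule.span ℝ {y - z})
      (K ⊔ Submodule.span ℝ {z + p₀ - z}) (hK _) (hK _) hr
    have h1 := propagate_seg (hsm (z + p₀) (by simpa using hp₀) (by simpa using hp₀K) p hp hp2) hi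
    have h2 : ∀ w ∈ segment ℝ (z + p) y, Good f q w := by
      rw [segment_symm]
      exact hsm y hy hyK p hp hp1
    exact propagate_seg h2 h1
  refine ⟨i, ?_⟩
  have hb : ∀ᶠ y in 𝓝 z, ‖y - z‖ < r := by
    filter_upwards [Metric.ball_mem_nhds z hr] with y hy
    rwa [mem_ball_iff_norm] at hy
  filter_upwards [hb] with y hy
  by_cases hyK : y - z ∈ K
  · -- limit along `y + t • p₀`
    have hc : Tendsto (fun t : ℝ => y + t • p₀) (𝓝[≠] 0) (𝓝 y) := by
      have : Continuous fun t : ℝ => y + t • p₀ := by fun_prop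
      have h1 := this.tendsto 0
      simp only [zero_smul, add_zero] at h1
      exact h1.mono_left nhdsWithin_le_nhds
    have h1 : Tendsto (fun t : ℝ => f (y + t • p₀)) (𝓝[≠] 0) (𝓝 (f y)) :=
      (hf.tendsto y).comp hc
    have h2 : Tendsto (fun t : ℝ => (q i).fn (y + t • p₀)) (𝓝[≠] 0) (𝓝 ((q i).fn y)) :=
      ((q i).continuous_fn.tendsto y).comp hc
    have h3 : (fun t : ℝ => f (y + t • p₀)) =ᶠ[𝓝[≠] 0] fun t => (q i).fn (y + t • p₀) := by
      have h4 : ∀ᶠ t : ℝ in 𝓝[≠] 0, ‖y + t • p₀ - z‖ < r := by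
        have : Tendsto (fun t : ℝ => ‖y + t • p₀ - z‖) (𝓝[≠] 0) (𝓝 ‖y - z‖) :=
          (hc.sub_const z).norm
        exact this.eventually (gt_mem_nhds hy)
      filter_upwards [h4, self_mem_nhdsWithin] with t ht ht0
      apply (key _ ht ?_).self_of_nhds
      intro hm
      apply hp₀K
      have h5 : t • p₀ ∈ K := by
        have : t • p₀ = (y + t • p₀ - z) - (y - z) := by module
        rw [this]; exact K.sub_mem hm hyK
      exact (K.smul_mem_iff ht0).1 h5
    exact tendsto_nhds_unique h1 (h2.congr' h3.symm)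
  · exact (key y hy hyK).self_of_nhds

end Pool.Agent.Q46.PQ
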