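import Mathlib
import Pool.Agent.Q46.PqA

set_option autoImplicit false

open Filter Set Topology

namespace Pool.Agent.Q46.PQ

variable {V : Type*} [NormedAddCommGroup V] [InnerProductSpace ℝ V] {ι : Type*}

/-- Twice semidifferentiable at `x`. -/
def TwiceSemi (f : V → ℝ) (x : V) : Prop :=
  ∃ d : V → ℝ,
    (∀ v, Tendsto (fun p : V × ℝ => (f (x + p.2 • p.1) - f x) / p.2) (𝓝 v ×ˢ 𝓝[>] 0) (𝓝 (d v))) ∧
    ∀ w, ∃ L : ℝ, Tendsto (fun p : V × ℝ => (f (x + p.2 • p.1) - f x - p.2 * d p.1) / p.2 ^ 2)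
      (𝓝 w ×ˢ 𝓝[>] 0) (𝓝 L)

/-- one sided analysis: on the side `σ * g > 0` the function is `qa` -/
lemma one_side {f : V → ℝ} {x : V} {g qa : Qd V} {σ : ℝ} (hgx : g.fn x = 0)
    (hp : 0 < σ * inner ℝ (g.grad x) (g.grad x) * σ) (hfx : f x = qa.fn x)
    (h : ∀ᶠ y in 𝓝 x, 0 < σ * g.fn y → f y = qa.fn y)
    {d : V → ℝ}
    (hd : ∀ v, Tendsto (fun p : V × ℝ => (f (x + p.2 • p.1) - f x) / p.2) (𝓝 v ×ˢ 𝓝[>] 0) (𝓝 (d v)))
    {w : V} (hw : inner ℝ (g.grad x) w = 0) :
    d w = inner ℝ (qa.grad x) w ∧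
    ∀ L : ℝ, Tendsto (fun p : V × ℝ => (f (x + p.2 • p.1) - f x - p.2 * d p.1) / p.2 ^ 2)
      (𝓝 w ×ˢ 𝓝[>] 0) (𝓝 L) → L = 1 / 2 * inner ℝ (qa.T w) w := by
  set p := g.grad x with hpdef
  -- `d` on the open half space
  have hdv : ∀ v, 0 < σ * inner ℝ p v → d v = inner ℝ (qa.grad x) v := by
    intro v hv
    have hpath : Tendsto (fun τ : ℝ => ((v, τ) : V × ℝ)) (𝓝[>] 0) (𝓝 v ×ˢ 𝓝[>] 0) :=
      tendsto_const_nhds.prodMk tendsto_id
    have h1 := (hd v).comp hpath
    have hx : Tendsto (fun τ : ℝ => x + τ • v) (𝓝[>] 0) (𝓝 x) := by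
      have : Continuous fun τ : ℝ => x + τ • v := by fun_prop
      have h2 := this.tendsto 0
      simp only [zero_smul, add_zero] at h2
      exact h2.mono_left nhdsWithin_le_nhds
    have hg : ∀ᶠ τ : ℝ in 𝓝[>] 0, 0 < σ * g.fn (x + τ • v) := by
      have h3 : Tendsto (fun τ : ℝ => σ * (inner ℝ p v + τ * (1 / 2 * inner ℝ (g.T v) v)))
          (𝓝[>] 0) (𝓝 (σ * inner ℝ p v)) := by
        have : Continuous fun τ : ℝ => σ * (inner ℝ p v + τ * (1 / 2 * inner ℝ (g.T v) v)) := by
          fun_prop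
        have h2 := this.tendsto 0
        simp only [zero_mul, add_zero] at h2
        exact h2.mono_left nhdsWithin_le_nhds
      filter_upwards [h3.eventually (lt_mem_nhds hv), self_mem_nhdsWithin] with τ h4 hτ
      have hτ' : (0 : ℝ) < τ := hτ
      have e : σ * g.fn (x + τ • v) = τ * (σ * (inner ℝ p v + τ * (1 / 2 * inner ℝ (g.T v) v))) := by
        rw [Qd.fn_add, hgx]
        simp only [map_smul, inner_smul_left, inner_smul_right, RCLike.conj_to_real]
        ring
      rw [e]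
      exact mul_pos hτ' h4
    have h5 : Tendsto (fun τ : ℝ => inner ℝ (qa.grad x) v + τ * (1 / 2 * inner ℝ (qa.T v) v))
        (𝓝[>] 0) (𝓝 (inner ℝ (qa.grad x) v)) := by
      have : Continuous fun τ : ℝ => inner ℝ (qa.grad x) v + τ * (1 / 2 * inner ℝ (qa.T v) v) := by
        fun_prop
      have h2 := this.tendsto 0
      simp only [zero_mul, add_zero] at h2
      exact h2.mono_left nhdsWithin_le_nhds
    refine tendsto_nhds_unique h1 (h5.congr' ?_)
    filter_upwards [hg, hx.eventually h, self_mem_nhdsWithin] with τ h6 h7 hτ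
    have hτ' : (0 : ℝ) < τ := hτ
    simp only [Function.comp]
    rw [h7 h6, hfx, Qd.fn_add, eq_div_iff hτ'.ne']
    simp only [map_smul, inner_smul_left, inner_smul_right, RCLike.conj_to_real]
    ring
  -- the special path
  obtain ⟨s, hs0, hs⟩ : ∃ s : ℝ, 0 < σ * (s * inner ℝ p p) ∧
      0 < σ * (s * inner ℝ p p + 1 / 2 * inner ℝ (g.T w) w) := by
    set B := |σ * (1 / 2 * inner ℝ (g.T w) w)| + 1 with hB
    have hB1 : 0 < B := by positivity
    refine ⟨σ * B / (σ * inner ℝ p p * σ), ?_, ?_⟩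
    · have : σ * (σ * B / (σ * inner ℝ p p * σ) * inner ℝ p p) = B := by
        have : σ * (σ * B / (σ * inner ℝ p p * σ) * inner ℝ p p) =
            B * ((σ * inner ℝ p p * σ) / (σ * inner ℝ p p * σ)) := by ring
        rw [this, div_self hp.ne', mul_one]
      rw [this]; exact hB1
    · have : σ * (σ * B / (σ * inner ℝ p p * σ) * inner ℝ p p + 1 / 2 * inner ℝ (g.T w) w) =
          B + σ * (1 / 2 * inner ℝ (g.T w) w) := by
        have : σ * (σ * B / (σ * inner ℝ p p * σ) * inner ℝ p p + 1 / 2 * inner ℝ (g.T w) w) =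
            B * ((σ * inner ℝ p p * σ) / (σ * inner ℝ p p * σ)) +
              σ * (1 / 2 * inner ℝ (g.T w) w) := by ring
        rw [this, div_self hp.ne', mul_one]
      rw [this, hB]
      have := neg_abs_le (σ * (1 / 2 * inner ℝ (g.T w) w))
      linarith
  set W : ℝ → V := fun τ => w + (s * τ) • p with hW
  have hWc : Continuous W := by unfold W; fun_prop
  have hW0 : W 0 = w := by simp [W]
  have hWt : Tendsto W (𝓝[>] 0) (𝓝 w) := by
    have := hWc.tendsto 0
    rw [hW0] at this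
    exact this.mono_left nhdsWithin_le_nhds
  have hpath : Tendsto (fun τ : ℝ => ((W τ, τ) : V × ℝ)) (𝓝[>] 0) (𝓝 w ×ˢ 𝓝[>] 0) :=
    hWt.prodMk tendsto_id
  have hx : Tendsto (fun τ : ℝ => x + τ • W τ) (𝓝[>] 0) (𝓝 x) := by
    have : Continuous fun τ : ℝ => x + τ • W τ := by fun_prop
    have h2 := this.tendsto 0
    simp only [zero_smul, add_zero] at h2
    exact h2.mono_left nhdsWithin_le_nhds
  have hpW : ∀ τ, inner ℝ p (W τ) = s * τ * inner ℝ p p := by
    intro τ
    simp only [W, inner_add_right, inner_smul_right, hw, zero_add]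
  have hg : ∀ᶠ τ : ℝ in 𝓝[>] 0, 0 < σ * g.fn (x + τ • W τ) := by
    have h3 : Tendsto (fun τ : ℝ => σ * (s * inner ℝ p p + 1 / 2 * inner ℝ (g.T (W τ)) (W τ)))
        (𝓝[>] 0) (𝓝 (σ * (s * inner ℝ p p + 1 / 2 * inner ℝ (g.T w) w))) := by
      have : Continuous fun τ : ℝ => σ * (s * inner ℝ p p + 1 / 2 * inner ℝ (g.T (W τ)) (W τ)) := by
        fun_prop
      have h2 := this.tendsto 0
      rw [hW0] at h2
      exact h2.mono_left nhdsWithin_le_nhds
    filter_upwards [h3.eventually (lt_mem_nhds hs), self_mem_nhdsWithin] with τ h4 hτ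
    have hτ' : (0 : ℝ) < τ := hτ
    have e : σ * g.fn (x + τ • W τ) =
        τ ^ 2 * (σ * (s * inner ℝ p p + 1 / 2 * inner ℝ (g.T (W τ)) (W τ))) := by
      rw [Qd.fn_add, hgx]
      simp only [map_smul, inner_smul_left, inner_smul_right, RCLike.conj_to_real]
      rw [hpW]
      ring
    rw [e]
    positivity
  have hgood : ∀ᶠ τ : ℝ in 𝓝[>] 0, f (x + τ • W τ) - f x =
      τ * inner ℝ (qa.grad x) (W τ) + τ ^ 2 * (1 / 2 * inner ℝ (qa.T (W τ)) (W τ)) := by
    filter_upwards [hg, hx.eventually h] with τ h6 h7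
    rw [h7 h6, hfx, Qd.fn_add]
    simp only [map_smul, inner_smul_left, inner_smul_right, RCLike.conj_to_real]
    ring
  constructor
  · have h1 := (hd w).comp hpath
    have h5 : Tendsto (fun τ : ℝ => inner ℝ (qa.grad x) (W τ) +
        τ * (1 / 2 * inner ℝ (qa.T (W τ)) (W τ))) (𝓝[>] 0) (𝓝 (inner ℝ (qa.grad x) w)) := by
      have : Continuous fun τ : ℝ => inner ℝ (qa.grad x) (W τ) +
        τ * (1 / 2 * inner ℝ (qa.T (W τ)) (W τ)) := by fun_prop
      have h2 := this.tendsto 0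
      rw [hW0] at h2
      simp only [zero_mul, add_zero] at h2
      exact h2.mono_left nhdsWithin_le_nhds
    refine tendsto_nhds_unique h1 (h5.congr' ?_)
    filter_upwards [hgood, self_mem_nhdsWithin] with τ h6 hτ
    have hτ' : (0 : ℝ) < τ := hτ
    simp only [Function.comp]
    rw [h6, eq_div_iff hτ'.ne']
    ring
  · intro L hL
    have h1 := hL.comp hpath
    have h5 : Tendsto (fun τ : ℝ => 1 / 2 * inner ℝ (qa.T (W τ)) (W τ))
        (𝓝[>] 0) (𝓝 (1 / 2 * inner ℝ (qa.T w) w)) := by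
      have : Continuous fun τ : ℝ => 1 / 2 * inner ℝ (qa.T (W τ)) (W τ) := by fun_prop
      have h2 := this.tendsto 0
      rw [hW0] at h2
      exact h2.mono_left nhdsWithin_le_nhds
    refine tendsto_nhds_unique h1 (h5.congr' ?_)
    filter_upwards [hgood, self_mem_nhdsWithin] with τ h6 hτ
    have hτ' : (0 : ℝ) < τ := hτ
    simp only [Function.comp]
    have h7 : d (W τ) = inner ℝ (qa.grad x) (W τ) := by
      apply hdv
      rw [hpW]
      have : σ * (s * τ * inner ℝ p p) = τ * (σ * (s * inner ℝ p p)) := by ring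
      rw [this]
      exact mul_pos hτ' hs0
    rw [h6, h7, eq_div_iff (by positivity)]
    ring

/-- a quadratic function that vanishes on a hyperplane is a product of affine functions -/
lemma fac_of_hyperplane (g : Qd V) (x p : V) (hp : p ≠ 0) (hgx : g.fn x = 0)
    (h1 : ∀ w, inner ℝ p w = 0 → inner ℝ (g.grad x) w = 0)
    (h2 : ∀ w, inner ℝ p w = 0 → inner ℝ (g.T w) w = 0) : g.Fac := by
  have hpp : inner ℝ p p ≠ 0 := by simpa using hp
  set P := inner ℝ p p with hP
  set G := g.grad x with hG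
  refine ⟨(1 / P) • p, -(1 / P * inner ℝ p x),
    g.T p - (1 / 2 * inner ℝ (g.T p) p / P) • p,
    inner ℝ G p - inner ℝ (g.T p) x + 1 / 2 * inner ℝ (g.T p) p / P * inner ℝ p x, ?_⟩
  intro y
  obtain ⟨u, rfl⟩ : ∃ u, y = x + u := ⟨y - x, by abel⟩
  set α := inner ℝ p u / P with hα
  set w := u - α • p with hw
  have hwp : inner ℝ p w = 0 := by
    rw [hw, inner_sub_right, inner_smul_right, ← hP, hα]
    field_simp
    ring
  have hu : u = w + α • p := by rw [hw]; abel
  have e1 : inner ℝ G u = α * inner ℝ G p := by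
    rw [hu, inner_add_right, inner_smul_right, h1 w hwp, zero_add]
  have e2 : inner ℝ (g.T p) w = inner ℝ (g.T p) u - α * inner ℝ (g.T p) p := by
    rw [hw, inner_sub_right, inner_smul_right]
  have e3 : inner ℝ (g.T w) p = inner ℝ (g.T p) w := by
    rw [g.symm w p, real_inner_comm]
  have e4 : inner ℝ (g.T u) u = 2 * α * inner ℝ (g.T p) u - α ^ 2 * inner ℝ (g.T p) p := by
    have : inner ℝ (g.T u) u = inner ℝ (g.T w) w + 2 * α * inner ℝ (g.T p) w +
        α ^ 2 * inner ℝ (g.T p) p := by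
      conv_lhs => rw [hu]
      simp only [map_add, map_smul, inner_add_left, inner_add_right, inner_smul_left,
        inner_smul_right, RCLike.conj_to_real, e3]
      ring
    rw [this, h2 w hwp, e2]
    ring
  rw [Qd.fn_add, hgx, e1, e4]
  have e5 : inner ℝ p u = α * P := by rw [hα]; field_simp
  simp only [inner_smul_left, inner_add_right, inner_sub_left, RCLike.conj_to_real, e5]
  field_simp
  ring

/-- `T` with one dimensional range -/
lemma fac_of_rank_one (g : Qd V) (x v : V) (hgx : g.fn x = 0) (hgrad : g.grad x = 0)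
    (hv : LinearMap.ker (g.T : V →ₗ[ℝ] V) ⊔ Submodule.span ℝ {v} = ⊤) : g.Fac := by
  set e := g.T v with he
  have key : ∀ u, inner ℝ (g.T u) u = inner ℝ e u * (1 / inner ℝ e v * inner ℝ e u) := by
    intro u
    have hu : u ∈ LinearMap.ker (g.T : V →ₗ[ℝ] V) ⊔ Submodule.span ℝ {v} := by rw [hv]; trivial
    rw [Submodule.mem_sup] at hu
    obtain ⟨k, hk, w, hw, rfl⟩ := hu
    obtain ⟨t, rfl⟩ := Submodule.mem_span_singleton.1 hw
    have hk' : g.T k = 0 := by simpa using hk
    have e1 : g.T (k + t • v) = t • e := by rw [map_add, hk', zero_add, map_smul]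
    have e2 : inner ℝ e (k + t • v) = t * inner ℝ e v := by
      rw [inner_add_right, inner_smul_right]
      have : inner ℝ e k = 0 := by
        rw [he, g.symm v k, hk', inner_zero_right]
      rw [this, zero_add]
    rw [e1, inner_smul_left, e2]
    simp only [RCLike.conj_to_real]
    by_cases h0 : inner ℝ e v = 0
    · rw [h0]; simp
    · field_simp
  refine ⟨e, -inner ℝ e x, (1 / 2 * (1 / inner ℝ e v)) • e,
    -(1 / 2 * (1 / inner ℝ e v) * inner ℝ e x), ?_⟩
  intro y
  obtain ⟨u, rfl⟩ : ∃ u, y = x + u := ⟨y - x, by abel⟩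
  rw [Qd.fn_add, hgx, hgrad, key u]
  simp only [inner_zero_left, inner_smul_left, inner_add_right, RCLike.conj_to_real]
  ring

end Pool.Agent.Q46.PQ
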