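import Mathlib
import Pool.Agent.Q46.PqB

set_option autoImplicit false

open Filter Set Topology

namespace Pool.Agent.Q46.PQ

variable {V : Type*} [NormedAddCommGroup V] [InnerProductSpace ℝ V] {ι : Type*}

/-- the zero sets of the factorable differences are avoided at `x` -/
def Off (q : ι → Qd V) (x : V) : Prop :=
  ∀ i j, ((q i).sub (q j)).Fac → (∃ y, (q i).fn y ≠ (q j).fn y) → (q i).fn x ≠ (q j).fn x

/-- Step A: near a bad point at which a non-factorable difference vanishes there is a bad point with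
nonzero gradient. -/
lemma grad_point {f : V → ℝ} (hf : Continuous f) {q : ι → Qd V} {z : V} (hbad : ¬ Good f q z)
    (g : Qd V) (hg : ∀ᶠ y in 𝓝 z, ¬ Good f q y → g.fn y = 0) (hfac : ¬ g.Fac) :
    ∃ᶠ y in 𝓝 z, ¬ Good f q y ∧ g.grad y ≠ 0 := by
  intro hcon
  have h1 : ∀ᶠ y in 𝓝 z, ¬ Good f q y → g.grad y = 0 := by
    filter_upwards [hcon] with y hy hb
    by_contra h
    exact hy ⟨hb, h⟩
  have hgz : g.fn z = 0 := hg.self_of_nhds hbad
  have hgr : g.grad z = 0 := h1.self_of_nhds hbad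
  rw [Metric.eventually_nhds_iff] at h1
  obtain ⟨r, hr, h1⟩ := h1
  by_cases hK : ∀ v, LinearMap.ker (g.T : V →ₗ[ℝ] V) ⊔ Submodule.span ℝ {v} ≠ ⊤
  · apply hbad
    refine codim_two hf (LinearMap.ker (g.T : V →ₗ[ℝ] V)) hK hr ?_
    intro y hy hyK
    by_contra hb
    have h2 := h1 (y := y) (by rwa [dist_eq_norm]) hb
    apply hyK
    have h3 : g.grad y = g.grad z + g.T (y - z) := by
      rw [← Qd.grad_add]; congr 1; abel
    rw [hgr, zero_add, h2] at h3
    simpa using h3.symm
  · push Not at hK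
    obtain ⟨v, hv⟩ := hK
    exact hfac (fac_of_rank_one g z v hgz hgr hv)

/-- Positive side of a smooth zero set. -/
lemma side {f : V → ℝ} {q : ι → Qd V} {x : V} {g : Qd V} (hgx : g.fn x = 0)
    (hgr : g.grad x ≠ 0) (h : ∀ᶠ y in 𝓝 x, g.fn y ≠ 0 → Good f q y) :
    ∃ i, ∀ᶠ y in 𝓝 x, 0 < g.fn y → f =ᶠ[𝓝 y] (q i).fn := by
  set e := g.grad x with he
  have he0 : 0 < inner ℝ e e := by
    rw [real_inner_self_eq_norm_sq]
    have := norm_pos_iff.2 hgr
    positivity
  have h1 : ∀ᶠ y in 𝓝 x, 0 < inner ℝ (g.grad y) e := by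
    have : Continuous fun y => inner ℝ (g.grad y) e := by
      have := g.continuous_grad
      fun_prop
    exact (this.tendsto x).eventually (lt_mem_nhds he0)
  obtain ⟨ρ, hρ, hN⟩ := Metric.eventually_nhds_iff.1 (h.and h1)
  -- increments
  have hinc : ∀ y : V, ∀ t : ℝ, 0 < t → dist y x < ρ → dist (y + t • e) x < ρ →
      g.fn y < g.fn (y + t • e) := by
    intro y t ht hy hy'
    rw [Qd.fn_add_smul]
    have a1 := (hN hy).2
    have a2 := (hN hy').2
    have : 0 < t / 2 * (inner ℝ (g.grad y) e + inner ℝ (g.grad (y + t • e)) e) := by positivity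
    linarith
  have hen : 0 < ‖e‖ := norm_pos_iff.2 hgr
  set η : ℝ := ρ / (2 * (‖e‖ + 1)) with hη
  have hη0 : 0 < η := by positivity
  have hηe : η * ‖e‖ < ρ / 2 := by
    rw [hη, div_mul_eq_mul_div, div_lt_div_iff₀ (by positivity) (by positivity)]
    nlinarith
  set p := x + η • e with hp
  have hdp : ∀ t : ℝ, 0 ≤ t → t ≤ η → ∀ y, dist y x < ρ / 2 → dist (y + t • e) x < ρ := by
    intro t ht0 ht y hy
    rw [dist_eq_norm] at hy ⊢
    have : y + t • e - x = (y - x) + t • e := by abel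
    rw [this]
    calc ‖(y - x) + t • e‖ ≤ ‖y - x‖ + ‖t • e‖ := norm_add_le _ _
      _ = ‖y - x‖ + t * ‖e‖ := by rw [norm_smul, Real.norm_of_nonneg ht0]
      _ ≤ ‖y - x‖ + η * ‖e‖ := by gcongr
      _ < ρ := by linarith
  have hgp : 0 < g.fn p := by
    have := hinc x η hη0 (by simpa using hρ) (hdp η hη0.le le_rfl x (by simpa using half_pos hρ))
    rwa [hgx] at this
  have hpN : dist p x < ρ := hdp η hη0.le le_rfl x (by simpa using half_pos hρ)
  have hpG : Good f q p := (hN hpN).1 hgp.ne'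
  obtain ⟨i, hi⟩ := hpG
  refine ⟨i, ?_⟩
  -- a ball around `p`
  have hb : ∀ᶠ y in 𝓝 p, 0 < g.fn y ∧ dist y x < ρ := by
    refine ((g.continuous_fn.tendsto p).eventually (lt_mem_nhds hgp)).and ?_
    have : Continuous fun y : V => dist y x := by fun_prop
    exact (this.tendsto p).eventually (gt_mem_nhds hpN)
  obtain ⟨δ, hδ, hB⟩ := Metric.eventually_nhds_iff.1 hb
  have hsmall : ∀ᶠ y in 𝓝 x, dist y x < min δ (ρ / 2) :=
    Metric.ball_mem_nhds x (lt_min hδ (half_pos hρ))
  filter_upwards [hsmall] with y hy hgy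
  have hy1 : dist y x < δ := lt_of_lt_of_le hy (min_le_left _ _)
  have hy2 : dist y x < ρ / 2 := lt_of_lt_of_le hy (min_le_right _ _)
  -- second segment: from `p` to `y + η e`
  have s2 : ∀ z ∈ segment ℝ p (y + η • e), Good f q z := by
    intro z hz
    have hz' : dist z p < δ := by
      have hc : Convex ℝ (Metric.ball p δ) := convex_ball p δ
      have hm : y + η • e ∈ Metric.ball p δ := by
        rw [Metric.mem_ball, hp, dist_add_right]; exact hy1
      exact hc.segment_subset (Metric.mem_ball_self hδ) hm hz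
    obtain ⟨a1, a2⟩ := hB hz'
    exact (hN a2).1 a1.ne'
  have s1 : ∀ z ∈ segment ℝ (y + η • e) y, Good f q z := by
    intro z hz
    rw [segment_symm] at hz
    rw [segment_eq_image'] at hz
    obtain ⟨θ, ⟨hθ0, hθ1⟩, rfl⟩ := hz
    have e1 : y + θ • (y + η • e - y) = y + (θ * η) • e := by
      rw [add_sub_cancel_left, smul_smul]
    simp only [e1]
    have hyρ : dist y x < ρ := by linarith
    have hzρ : dist (y + (θ * η) • e) x < ρ :=
      hdp (θ * η) (by positivity) (by nlinarith) y hy2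
    have hpos : 0 < g.fn (y + (θ * η) • e) := by
      rcases hθ0.eq_or_lt with h0 | h0
      · rw [← h0]; simpa using hgy
      · exact hgy.trans (hinc y (θ * η) (by positivity) hyρ hzρ)
    exact (hN hzρ).1 hpos.ne'
  exact propagate_seg s1 (propagate_seg s2 hi)

/-- points with `g > 0` accumulate at a point where `g = 0`, `grad g ≠ 0` -/
lemma freq_pos {x : V} {g : Qd V} (hgx : g.fn x = 0) (hgr : g.grad x ≠ 0) :
    ∃ᶠ y in 𝓝 x, 0 < g.fn y := by
  have he0 : 0 < inner ℝ (g.grad x) (g.grad x) := by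
    rw [real_inner_self_eq_norm_sq]
    have := norm_pos_iff.2 hgr
    positivity
  have hc : Tendsto (fun t : ℝ => x + t • g.grad x) (𝓝[>] 0) (𝓝 x) := by
    have : Continuous fun t : ℝ => x + t • g.grad x := by fun_prop
    have h1 := this.tendsto 0
    simp only [zero_smul, add_zero] at h1
    exact h1.mono_left nhdsWithin_le_nhds
  have h2 : ∀ᶠ t : ℝ in 𝓝[>] 0, 0 < g.fn (x + t • g.grad x) := by
    have h3 : Tendsto (fun t : ℝ => inner ℝ (g.grad x) (g.grad x) +
        t * (1 / 2 * inner ℝ (g.T (g.grad x)) (g.grad x))) (𝓝[>] 0)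
        (𝓝 (inner ℝ (g.grad x) (g.grad x))) := by
      have : Continuous fun t : ℝ => inner ℝ (g.grad x) (g.grad x) +
        t * (1 / 2 * inner ℝ (g.T (g.grad x)) (g.grad x)) := by fun_prop
      have h1 := this.tendsto 0
      simp only [zero_mul, add_zero] at h1
      exact h1.mono_left nhdsWithin_le_nhds
    filter_upwards [h3.eventually (lt_mem_nhds he0), self_mem_nhdsWithin] with t h4 ht
    have ht' : (0 : ℝ) < t := ht
    have e : g.fn (x + t • g.grad x) = t * (inner ℝ (g.grad x) (g.grad x) +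
        t * (1 / 2 * inner ℝ (g.T (g.grad x)) (g.grad x))) := by
      rw [Qd.fn_add, hgx]
      simp only [map_smul, inner_smul_left, inner_smul_right, RCLike.conj_to_real]
      ring
    rw [e]
    exact mul_pos ht' h4
  exact hc.frequently (h2.frequently)

omit [InnerProductSpace ℝ V] in
lemma ne_near {f g : V → ℝ} (hf : Continuous f) (hg : Continuous g) {y : V} (h : f y ≠ g y) :
    ∀ᶠ w in 𝓝 y, f w ≠ g w := (isOpen_ne_fun hf hg).mem_nhds h

/-- The main lemma. -/
theorem good_of_off [Fintype ι] {f : V → ℝ} (hf : Continuous f) {q : ι → Qd V}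
    (hsel : ∀ x, ∃ i, f x = (q i).fn x) (hts : ∀ x, TwiceSemi f x) {x : V} (hx : Off q x) :
    Good f q x := by
  classical
  by_contra hbad0
  -- bad points off the arrangement, with minimal number of active indices
  let J : V → Finset ι := fun y => Finset.univ.filter fun i => f y = (q i).fn y
  have hex : ∃ n : ℕ, ∃ y, Off q y ∧ ¬ Good f q y ∧ (J y).card = n := ⟨_, x, hx, hbad0, rfl⟩
  obtain ⟨z, hzoff, hzbad, hzcard⟩ := Nat.find_spec hex
  have hmin : ∀ y, Off q y → ¬ Good f q y → (J z).card ≤ (J y).card := by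
    intro y h1 h2
    rw [hzcard]
    exact Nat.find_min' hex ⟨y, h1, h2, rfl⟩
  -- Off is open
  have hoff : ∀ y, Off q y → ∀ᶠ w in 𝓝 y, Off q w := by
    intro y hy
    unfold Off
    rw [eventually_all]; intro i
    rw [eventually_all]; intro j
    by_cases h1 : ((q i).sub (q j)).Fac ∧ ∃ y, (q i).fn y ≠ (q j).fn y
    · have h2 := hy i j h1.1 h1.2
      have h3 : ∀ᶠ w in 𝓝 y, (q i).fn w ≠ (q j).fn w :=
        ne_near (q i).continuous_fn (q j).continuous_fn h2
      filter_upwards [h3] with w hw _ _ using hw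
    · refine Eventually.of_forall fun w a b => ?_
      exact absurd ⟨a, b⟩ h1
  -- active sets shrink
  have hJ : ∀ y, ∀ᶠ w in 𝓝 y, J w ⊆ J y := by
    intro y
    have : ∀ i, ∀ᶠ w in 𝓝 y, i ∈ J w → i ∈ J y := by
      intro i
      by_cases h1 : f y = (q i).fn y
      · exact Eventually.of_forall fun w _ => by simp [J, h1]
      · have h3 : ∀ᶠ w in 𝓝 y, f w ≠ (q i).fn w :=
          ne_near hf (q i).continuous_fn h1
        filter_upwards [h3] with w hw hm
        exact absurd (by simpa [J] using hm) hw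
    have h2 := (eventually_all.2 this)
    filter_upwards [h2] with w hw i hi using hw i hi
  have hnear : ∀ᶠ w in 𝓝 z, Off q w ∧ (¬ Good f q w → J w = J z) := by
    filter_upwards [hoff z hzoff, hJ z] with w h1 h2
    exact ⟨h1, fun h3 => Finset.eq_of_subset_of_card_le h2 (hmin w h1 h3)⟩
  -- two different active functions
  obtain ⟨j, k, hjJ, hkJ, hjk⟩ : ∃ j k, j ∈ J z ∧ k ∈ J z ∧ ∃ w, (q j).fn w ≠ (q k).fn w := by
    by_contra hcon
    push Not at hcon
    obtain ⟨j, hj⟩ := hsel z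
    have hjJ : j ∈ J z := by simp [J, hj]
    apply hzbad
    refine ⟨j, ?_⟩
    filter_upwards [hJ z] with w hw
    obtain ⟨i, hi⟩ := hsel w
    have hiJ : i ∈ J z := hw (by simp [J, hi])
    rw [hi]
    exact hcon i j hiJ hjJ w
  set g := (q j).sub (q k) with hgdef
  have hzero : ∀ w, J w = J z → g.fn w = 0 := by
    intro w hw
    have h1 : j ∈ J w := by rw [hw]; exact hjJ
    have h2 : k ∈ J w := by rw [hw]; exact hkJ
    have h3 : f w = (q j).fn w := by simpa [J] using h1
    have h4 : f w = (q k).fn w := by simpa [J] using h2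
    rw [hgdef, Qd.sub_fn, ← h3, ← h4, sub_self]
  have hfac : ¬ g.Fac := by
    intro hF
    have h1 := hzoff j k hF hjk
    have h2 := hzero z rfl
    rw [hgdef, Qd.sub_fn] at h2
    exact h1 (by linarith)
  have hgnear : ∀ᶠ y in 𝓝 z, ¬ Good f q y → g.fn y = 0 := by
    filter_upwards [hnear] with w hw hb using hzero w (hw.2 hb)
  have hA := grad_point hf hzbad g hgnear hfac
  obtain ⟨x₁, ⟨hx₁bad, hx₁gr⟩, hx₁near⟩ := (hA.and_eventually (hnear.eventually_nhds)).exists
  have hx₁off : Off q x₁ := hx₁near.self_of_nhds.1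
  have hx₁J : J x₁ = J z := hx₁near.self_of_nhds.2 hx₁bad
  have hgx₁ : g.fn x₁ = 0 := hzero x₁ hx₁J
  have hgood : ∀ᶠ y in 𝓝 x₁, g.fn y ≠ 0 → Good f q y := by
    filter_upwards [hx₁near] with w hw hne
    by_contra hb
    exact hne (hzero w (hw.2 hb))
  obtain ⟨a, ha⟩ := side hgx₁ hx₁gr hgood
  have hgood' : ∀ᶠ y in 𝓝 x₁, g.neg.fn y ≠ 0 → Good f q y := by
    filter_upwards [hgood] with w hw hne
    apply hw
    rw [Qd.neg_fn] at hne
    exact fun h => hne (by rw [h, neg_zero])
  have hngr : g.neg.grad x₁ ≠ 0 := by rw [Qd.neg_grad]; exact neg_ne_zero.2 hx₁gr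
  have hngx : g.neg.fn x₁ = 0 := by rw [Qd.neg_fn, hgx₁, neg_zero]
  obtain ⟨b, hb⟩ := side hngx hngr hgood'
  -- values on the two sides
  have ha' : ∀ᶠ y in 𝓝 x₁, 0 < g.fn y → f y = (q a).fn y := by
    filter_upwards [ha] with y hy h0 using (hy h0).self_of_nhds
  have hb' : ∀ᶠ y in 𝓝 x₁, 0 < -g.fn y → f y = (q b).fn y := by
    filter_upwards [hb] with y hy h0
    exact (hy (by rwa [Qd.neg_fn])).self_of_nhds
  have hclos : ∀ (p : V → Prop) (i : ι), (∃ᶠ y in 𝓝 x₁, p y) → (∀ᶠ y in 𝓝 x₁, p y → f y = (q i).fn y) →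
      f x₁ = (q i).fn x₁ := by
    intro p i h1 h2
    by_contra hne
    have h3 : ∀ᶠ w in 𝓝 x₁, f w ≠ (q i).fn w :=
      ne_near hf (q i).continuous_fn hne
    obtain ⟨y, h4, h5, h6⟩ := (h1.and_eventually (h2.and h3)).exists
    exact h6 (h5 h4)
  have hfa : f x₁ = (q a).fn x₁ := hclos _ a (freq_pos hgx₁ hx₁gr) ha'
  have hfb : f x₁ = (q b).fn x₁ := by
    refine hclos (fun y => 0 < -g.fn y) b ?_ hb'
    have := freq_pos hngx hngr
    refine this.mono fun y hy => ?_
    rwa [Qd.neg_fn] at hy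
  -- second order analysis
  obtain ⟨d, hd, h2nd⟩ := hts x₁
  have hpp : 0 < inner ℝ (g.grad x₁) (g.grad x₁) := by
    rw [real_inner_self_eq_norm_sq]
    have := norm_pos_iff.2 hx₁gr
    positivity
  have hab : ∀ w, inner ℝ (g.grad x₁) w = 0 →
      inner ℝ ((q a).grad x₁) w = inner ℝ ((q b).grad x₁) w ∧
      inner ℝ ((q a).T w) w = inner ℝ ((q b).T w) w := by
    intro w hw
    obtain ⟨L, hL⟩ := h2nd w
    have r1 := one_side (σ := 1) hgx₁ (by simpa using hpp) hfa (by simpa using ha') hd hw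
    have r2 := one_side (σ := -1) hgx₁ (by simpa using hpp) hfb (by simpa using hb') hd hw
    refine ⟨r1.1.symm.trans r2.1, ?_⟩
    have e1 := r1.2 L hL
    have e2 := r2.2 L hL
    linarith
  set g₁ := (q a).sub (q b) with hg₁
  have hfac₁ : g₁.Fac := by
    refine fac_of_hyperplane g₁ x₁ (g.grad x₁) hx₁gr ?_ ?_ ?_
    · rw [hg₁, Qd.sub_fn, ← hfa, ← hfb, sub_self]
    · intro w hw
      have h1 := (hab w hw).1
      have : g₁.grad x₁ = (q a).grad x₁ - (q b).grad x₁ := by
        simp only [hg₁, Qd.grad, Qd.sub, sub_apply]; abel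
      rw [this, inner_sub_left, h1, sub_self]
    · intro w hw
      have h1 := (hab w hw).2
      have : g₁.T w = (q a).T w - (q b).T w := by
        simp only [hg₁, Qd.sub, sub_apply]
      rw [this, inner_sub_left, h1, sub_self]
  by_cases hne : ∃ y, (q a).fn y ≠ (q b).fn y
  · exact hx₁off a b hfac₁ hne (hfa.symm.trans hfb)
  · push Not at hne
    -- both sides carry the same function, so `x₁` is good
    apply hx₁bad
    refine ⟨a, ?_⟩
    filter_upwards [(ha'.and hb').eventually_nhds] with y hy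
    by_contra hyne
    have h4 : ∀ᶠ w in 𝓝 y, f w ≠ (q a).fn w := ne_near hf (q a).continuous_fn hyne
    have h5 : ∀ᶠ w in 𝓝 y, g.fn w = 0 := by
      filter_upwards [hy, h4] with w h6 h7
      by_contra h0
      rcases lt_or_gt_of_ne h0 with h8 | h8
      · exact h7 (by rw [hne w]; exact h6.2 (by linarith))
      · exact h7 (h6.1 h8)
    obtain ⟨w, hw⟩ := hjk
    have h6 := Qd.ident g y h5 w
    rw [hgdef, Qd.sub_fn] at h6
    exact hw (by linarith)

end Pool.Agent.Q46.PQ
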