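import Mathlib
import Pool.Agent.Q46.PqC

set_option autoImplicit false

open Filter Set Topology

namespace Pool.Agent.Q46.PQ

variable {V : Type*} [NormedAddCommGroup V] [InnerProductSpace ℝ V] {ι : Type*}

/-- Intersection of finitely many closed half-spaces. -/
def Polyhedron (P : Set V) : Prop :=
  ∃ (m : ℕ) (a : Fin m → V) (b : Fin m → ℝ), (∀ i, a i ≠ 0) ∧ P = {x | ∀ i, inner ℝ (a i) x ≤ b i}

lemma polyhedron_of_fintype {κ : Type*} [Fintype κ] (a : κ → V) (b : κ → ℝ) (ha : ∀ k, a k ≠ 0) :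
    Polyhedron {x | ∀ k, inner ℝ (a k) x ≤ b k} := by
  classical
  refine ⟨Fintype.card κ, fun i => a ((Fintype.equivFin κ).symm i),
    fun i => b ((Fintype.equivFin κ).symm i), fun i => ha _, ?_⟩
  ext x
  constructor
  · intro h i; exact h _
  · intro h k
    have := h (Fintype.equivFin κ k)
    simpa using this

lemma affine_dense {a : V} (ha : a ≠ 0) (c : ℝ) : Dense {y : V | inner ℝ a y + c ≠ 0} := by
  intro y
  rw [mem_closure_iff_frequently]
  intro hcon
  let l : Qd V := ⟨0, by intro x y; simp, a, c⟩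
  have hl : ∀ y, l.fn y = inner ℝ a y + c := by
    intro y; simp [l, Qd.fn]
  have h1 : ∀ᶠ w in 𝓝 y, l.fn w = 0 := by
    filter_upwards [hcon] with w hw
    rw [hl]
    by_contra h
    exact hw h
  have h2 := Qd.ident l y h1
  have h3 := h2 0
  have h4 := h2 a
  rw [hl] at h3 h4
  rw [inner_zero_right, zero_add] at h3
  rw [h3, add_zero] at h4
  exact ha (inner_self_eq_zero.1 h4)

lemma affine_open (a : V) (c : ℝ) : IsOpen {y : V | inner ℝ a y + c ≠ 0} := by
  have : Continuous fun y : V => inner ℝ a y + c := by fun_prop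
  exact isOpen_ne.preimage this

/-- the arrangement -/
lemma exists_arrangement [Fintype ι] (q : ι → Qd V) :
    ∃ L : Finset (V × ℝ), (∀ p ∈ L, p.1 ≠ 0) ∧
      ∀ x, (∀ p ∈ L, inner ℝ p.1 x + p.2 ≠ 0) → Off q x := by
  classical
  have h : ∀ i j, ∃ L : Finset (V × ℝ), (∀ p ∈ L, p.1 ≠ 0) ∧
      ∀ x, (∀ p ∈ L, inner ℝ p.1 x + p.2 ≠ 0) →
        (((q i).sub (q j)).Fac → (∃ y, (q i).fn y ≠ (q j).fn y) → (q i).fn x ≠ (q j).fn x) := by
    intro i j
    by_cases h0 : ((q i).sub (q j)).Fac ∧ ∃ y, (q i).fn y ≠ (q j).fn y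
    · obtain ⟨⟨a₁, c₁, a₂, c₂, hfac⟩, y, hy⟩ := h0
      refine ⟨({(a₁, c₁), (a₂, c₂)} : Finset (V × ℝ)).filter fun p => p.1 ≠ 0,
        fun p hp => (Finset.mem_filter.1 hp).2, ?_⟩
      intro x hx _ _ heq
      have h1 := hfac x
      rw [Qd.sub_fn, heq, sub_self] at h1
      have hy' := hfac y
      rw [Qd.sub_fn] at hy'
      rcases mul_eq_zero.1 h1.symm with h2 | h2
      · by_cases ha : a₁ = 0
        · subst ha
          rw [inner_zero_left, zero_add] at h2
          rw [h2, inner_zero_left, add_zero, zero_mul] at hy'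
          exact hy (by linarith)
        · exact hx (a₁, c₁) (by simp [ha]) h2
      · by_cases ha : a₂ = 0
        · subst ha
          rw [inner_zero_left, zero_add] at h2
          rw [h2, inner_zero_left, add_zero, mul_zero] at hy'
          exact hy (by linarith)
        · exact hx (a₂, c₂) (by simp [ha]) h2
    · exact ⟨∅, by simp, fun x _ h1 h2 => absurd ⟨h1, h2⟩ h0⟩
  choose L hL1 hL2 using h
  refine ⟨Finset.univ.biUnion fun i => Finset.univ.biUnion fun j => L i j, ?_, ?_⟩
  · intro p hp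
    simp only [Finset.mem_biUnion, Finset.mem_univ, true_and] at hp
    obtain ⟨i, j, hp⟩ := hp
    exact hL1 i j p hp
  · intro x hx i j
    apply hL2 i j x
    intro p hp
    apply hx
    simp only [Finset.mem_biUnion, Finset.mem_univ, true_and]
    exact ⟨i, j, hp⟩

theorem assemble [CompleteSpace V] [Fintype ι] {f : V → ℝ} (hf : Continuous f) {q : ι → Qd V}
    (hsel : ∀ x, ∃ i, f x = (q i).fn x) (hts : ∀ x, TwiceSemi f x) :
    ∃ (N : ℕ) (idx : Fin N → ι) (P : Fin N → Set V), (∀ m, Polyhedron (P m)) ∧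
      (⋃ m, P m) = univ ∧ ∀ m, ∀ x ∈ P m, f x = (q (idx m)).fn x := by
  classical
  obtain ⟨L, hL0, hLoff⟩ := exists_arrangement q
  let s : (L → Bool) → L → ℝ := fun σ p => if σ p then 1 else -1
  have hs : ∀ σ p, s σ p = 1 ∨ s σ p = -1 := by
    intro σ p; simp only [s]; split_ifs <;> simp
  let C : (L → Bool) → Set V := fun σ => {x | ∀ p : L, 0 < s σ p * (inner ℝ p.1.1 x + p.1.2)}
  let P : (L → Bool) → Set V := fun σ => {x | ∀ p : L, 0 ≤ s σ p * (inner ℝ p.1.1 x + p.1.2)}
  have hPpoly : ∀ σ, Polyhedron (P σ) := by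
    intro σ
    have := polyhedron_of_fintype (fun p : L => -(s σ p) • p.1.1) (fun p : L => s σ p * p.1.2) ?_
    · convert this using 1
      ext x
      simp only [P, Set.mem_ofPred_eq, inner_smul_left, RCLike.conj_to_real]
      refine forall_congr' fun p => ?_
      constructor <;> intro h <;> nlinarith
    · intro p
      have h1 := hL0 p.1 p.2
      refine smul_ne_zero ?_ h1
      rcases hs σ p with h | h <;> rw [h] <;> norm_num
  have hCconv : ∀ σ, Convex ℝ (C σ) := by
    intro σ x hx y hy a b ha hb hab p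
    have h1 := hx p
    have h2 := hy p
    have e : s σ p * (inner ℝ p.1.1 (a • x + b • y) + p.1.2) =
        a * (s σ p * (inner ℝ p.1.1 x + p.1.2)) + b * (s σ p * (inner ℝ p.1.1 y + p.1.2)) := by
      rw [inner_add_right, inner_smul_right, inner_smul_right]
      linear_combination (-(s σ p * p.1.2)) * hab
    show 0 < s σ p * (inner ℝ p.1.1 (a • x + b • y) + p.1.2)
    rw [e]
    rcases ha.eq_or_lt with h0 | h0
    · have : b = 1 := by linarith
      rw [← h0, this]; linarith
    · have : 0 < a * (s σ p * (inner ℝ p.1.1 x + p.1.2)) := mul_pos h0 h1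
      have : 0 ≤ b * (s σ p * (inner ℝ p.1.1 y + p.1.2)) := mul_nonneg hb h2.le
      linarith
  have hCgood : ∀ σ, ∀ x ∈ C σ, Good f q x := by
    intro σ x hx
    apply good_of_off hf hsel hts
    apply hLoff
    intro p hp h0
    have := hx ⟨p, hp⟩
    simp only [h0, mul_zero, lt_irrefl] at this
  -- the function on the closed chamber
  have hfun : ∀ σ, (C σ).Nonempty → ∃ i, ∀ x ∈ P σ, f x = (q i).fn x := by
    rintro σ ⟨y, hy⟩
    obtain ⟨i, hi⟩ := hCgood σ y hy
    refine ⟨i, fun x hx => ?_⟩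
    have hC : ∀ z ∈ C σ, f z = (q i).fn z := fun z hz =>
      (propagate (hCconv σ).isPreconnected (hCgood σ) hy hz hi).self_of_nhds
    have hc : Tendsto (fun t : ℝ => x + t • (y - x)) (𝓝[>] 0) (𝓝 x) := by
      have : Continuous fun t : ℝ => x + t • (y - x) := by fun_prop
      have h1 := this.tendsto 0
      simp only [zero_smul, add_zero] at h1
      exact h1.mono_left nhdsWithin_le_nhds
    have h1 : Tendsto (fun t : ℝ => f (x + t • (y - x))) (𝓝[>] 0) (𝓝 (f x)) :=
      (hf.tendsto x).comp hc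
    have h2 : Tendsto (fun t : ℝ => (q i).fn (x + t • (y - x))) (𝓝[>] 0) (𝓝 ((q i).fn x)) :=
      ((q i).continuous_fn.tendsto x).comp hc
    refine tendsto_nhds_unique h1 (h2.congr' ?_)
    have h3 : ∀ᶠ t : ℝ in 𝓝[>] 0, t < 1 :=
      nhdsWithin_le_nhds (gt_mem_nhds one_pos)
    filter_upwards [h3, self_mem_nhdsWithin] with t ht1 ht0
    have ht0' : (0 : ℝ) < t := ht0
    symm
    apply hC
    intro p
    have e : s σ p * (inner ℝ p.1.1 (x + t • (y - x)) + p.1.2) =
        (1 - t) * (s σ p * (inner ℝ p.1.1 x + p.1.2)) + t * (s σ p * (inner ℝ p.1.1 y + p.1.2)) := by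
      rw [inner_add_right, inner_smul_right, inner_sub_right]
      ring
    show 0 < s σ p * (inner ℝ p.1.1 (x + t • (y - x)) + p.1.2)
    rw [e]
    have a1 : 0 ≤ (1 - t) * (s σ p * (inner ℝ p.1.1 x + p.1.2)) :=
      mul_nonneg (by linarith) (hx p)
    have a2 : 0 < t * (s σ p * (inner ℝ p.1.1 y + p.1.2)) := mul_pos ht0' (hy p)
    linarith
  -- the chambers are dense
  have hdense : Dense (⋃ σ, C σ) := by
    have h1 : Dense (⋂ p ∈ (L : Set (V × ℝ)), {y : V | inner ℝ p.1 y + p.2 ≠ 0}) :=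
      dense_biInter_of_isOpen (fun p _ => affine_open p.1 p.2) L.countable_toSet
        (fun p hp => affine_dense (hL0 p hp) p.2)
    refine h1.mono ?_
    intro y hy
    simp only [Set.mem_iInter, Finset.mem_coe] at hy
    rw [Set.mem_iUnion]
    refine ⟨fun p => decide (0 < inner ℝ p.1.1 y + p.1.2), fun p => ?_⟩
    have h2 := hy p.1 p.2
    simp only [s]
    by_cases h3 : 0 < inner ℝ p.1.1 y + p.1.2
    · simp [h3]
    · have h4 : inner ℝ p.1.1 y + p.1.2 < 0 := lt_of_le_of_ne (not_lt.1 h3) h2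
      simp only [h3, decide_false, Bool.false_eq_true, if_false]
      linarith
  have hPclosed : ∀ σ, IsClosed (P σ) := by
    intro σ
    have : P σ = ⋂ p : L, {x | 0 ≤ s σ p * (inner ℝ p.1.1 x + p.1.2)} := by
      ext x; simp [P]
    rw [this]
    refine isClosed_iInter fun p => isClosed_le continuous_const ?_
    fun_prop
  have hcover : ∀ x, ∃ σ, (C σ).Nonempty ∧ x ∈ P σ := by
    intro x
    have h1 : x ∈ closure (⋃ σ, C σ) := hdense x
    rw [closure_iUnion_of_finite] at h1
    obtain ⟨σ, hσ⟩ := Set.mem_iUnion.1 h1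
    refine ⟨σ, ?_, ?_⟩
    · exact closure_nonempty_iff.1 ⟨x, hσ⟩
    · exact (hPclosed σ).closure_subset_iff.2 (fun z hz p => (hz p).le) hσ
  let S := {σ : L → Bool // (C σ).Nonempty}
  choose idx hidx using fun σ : S => hfun σ.1 σ.2
  let e := Fintype.equivFin S
  refine ⟨Fintype.card S, fun m => idx (e.symm m), fun m => P (e.symm m).1,
    fun m => hPpoly _, ?_, fun m x hx => hidx _ x hx⟩
  ext x
  simp only [Set.mem_iUnion, Set.mem_univ, iff_true]
  obtain ⟨σ, hσ, hx⟩ := hcover x
  exact ⟨e ⟨σ, hσ⟩, by simpa using hx⟩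

end Pool.Agent.Q46.PQ
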