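import Mathlib

/-!
# Metric graphs, piecewise linear functions and divisors

A self-contained model of metric graphs (finite graphs with positive edge lengths), their
points and topology, piecewise linear functions with integer slopes, the divisor of such a
function, and the basic facts needed for the tropical Abel-Prym map.
-/

namespace Pool.Agent.Q46.Prym

/-- `φ` has slope `a` on the right at `r`. -/
def HasSlope (φ : ℝ → ℝ) (r : ℝ) (a : ℤ) : Prop :=
  ∃ δ : ℝ, 0 < δ ∧ ∀ h : ℝ, 0 ≤ h → h < δ → φ (r + h) = φ r + a * h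

theorem HasSlope.unique {φ : ℝ → ℝ} {r : ℝ} {a b : ℤ} (h1 : HasSlope φ r a)
    (h2 : HasSlope φ r b) : a = b := by
  obtain ⟨d1, hd1, H1⟩ := h1
  obtain ⟨d2, hd2, H2⟩ := h2
  have hm : 0 < min d1 d2 / 2 := by positivity
  have e1 := H1 (min d1 d2 / 2) hm.le (by
    have := min_le_left d1 d2
    linarith)
  have e2 := H2 (min d1 d2 / 2) hm.le (by
    have := min_le_right d1 d2
    linarith)
  have e3 : ((a : ℝ) - b) * (min d1 d2 / 2) = 0 := by linear_combination e2 - e1
  rcases mul_eq_zero.mp e3 with h | h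
  · have : (a : ℝ) = b := by linarith
    exact_mod_cast this
  · exact absurd h hm.ne'

/-- `φ` has slope `a` on the left at `r` (moving away from `r`). -/
def HasLSlope (φ : ℝ → ℝ) (r : ℝ) (a : ℤ) : Prop :=
  ∃ δ : ℝ, 0 < δ ∧ ∀ h : ℝ, 0 ≤ h → h < δ → φ (r - h) = φ r + a * h

theorem HasLSlope.unique {φ : ℝ → ℝ} {r : ℝ} {a b : ℤ} (h1 : HasLSlope φ r a)
    (h2 : HasLSlope φ r b) : a = b := by
  obtain ⟨d1, hd1, H1⟩ := h1
  obtain ⟨d2, hd2, H2⟩ := h2
  have hm : 0 < min d1 d2 / 2 := by positivity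
  have e1 := H1 (min d1 d2 / 2) hm.le (by
    have := min_le_left d1 d2
    linarith)
  have e2 := H2 (min d1 d2 / 2) hm.le (by
    have := min_le_right d1 d2
    linarith)
  have e3 : ((a : ℝ) - b) * (min d1 d2 / 2) = 0 := by linear_combination e2 - e1
  rcases mul_eq_zero.mp e3 with h | h
  · have : (a : ℝ) = b := by linarith
    exact_mod_cast this
  · exact absurd h hm.ne'

theorem near_right {φ : ℝ → ℝ} {t : ℝ} {a : ℤ} (h : HasSlope φ t a) :
    ∃ δ : ℝ, 0 < δ ∧ ∀ s : ℝ, t < s → s < t + δ → HasLSlope φ s (-a) ∧ HasSlope φ s a := by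
  obtain ⟨d, hd, H⟩ := h
  refine ⟨d, hd, fun s hs1 hs2 => ⟨⟨s - t, by linarith, fun h h0 h1 => ?_⟩,
    ⟨t + d - s, by linarith, fun h h0 h1 => ?_⟩⟩⟩
  · have e1 := H (s - h - t) (by linarith) (by linarith)
    have e2 := H (s - t) (by linarith) (by linarith)
    have r1 : t + (s - h - t) = s - h := by ring
    have r2 : t + (s - t) = s := by ring
    rw [r1] at e1
    rw [r2] at e2
    rw [e1, e2]
    push_cast
    ring
  · have e1 := H (s + h - t) (by linarith) (by linarith)
    have e2 := H (s - t) (by linarith) (by linarith)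
    have r1 : t + (s + h - t) = s + h := by ring
    have r2 : t + (s - t) = s := by ring
    rw [r1] at e1
    rw [r2] at e2
    rw [e1, e2]
    ring

theorem near_left {φ : ℝ → ℝ} {t : ℝ} {a : ℤ} (h : HasLSlope φ t a) :
    ∃ δ : ℝ, 0 < δ ∧ ∀ s : ℝ, t - δ < s → s < t → HasLSlope φ s a ∧ HasSlope φ s (-a) := by
  obtain ⟨d, hd, H⟩ := h
  refine ⟨d, hd, fun s hs1 hs2 => ⟨⟨s - (t - d), by linarith, fun h h0 h1 => ?_⟩,
    ⟨t - s, by linarith, fun h h0 h1 => ?_⟩⟩⟩
  · have e1 := H (t - (s - h)) (by linarith) (by linarith)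
    have e2 := H (t - s) (by linarith) (by linarith)
    have r1 : t - (t - (s - h)) = s - h := by ring
    have r2 : t - (t - s) = s := by ring
    rw [r1] at e1
    rw [r2] at e2
    rw [e1, e2]
    ring
  · have e1 := H (t - (s + h)) (by linarith) (by linarith)
    have e2 := H (t - s) (by linarith) (by linarith)
    have r1 : t - (t - (s + h)) = s + h := by ring
    have r2 : t - (t - s) = s := by ring
    rw [r1] at e1
    rw [r2] at e2
    rw [e1, e2]
    push_cast
    ring

theorem real_ind (P : ℝ → Prop) (l : ℝ)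
    (base : ∃ δ : ℝ, 0 < δ ∧ ∀ t, 0 < t → t < δ → t ≤ l → P t)
    (lim : ∀ t, 0 < t → t ≤ l → (∀ s, 0 < s → s < t → P s) → P t)
    (succ : ∀ t, 0 < t → t < l → P t →
      ∃ δ : ℝ, 0 < δ ∧ ∀ t', t < t' → t' < t + δ → t' ≤ l → P t') :
    ∀ t, 0 < t → t ≤ l → P t := by
  intro t0 ht0 htl
  by_contra hP
  set B : Set ℝ := {t | 0 < t ∧ t ≤ l ∧ ¬ P t} with hB
  have hne : B.Nonempty := ⟨t0, ht0, htl, hP⟩
  have hbdd : BddBelow B := ⟨0, fun t ht => ht.1.le⟩
  obtain ⟨d0, hd0, H0⟩ := base
  have hm0 : d0 ≤ sInf B := by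
    apply le_csInf hne
    rintro t ⟨h1, h2, h3⟩
    by_contra hlt
    exact h3 (H0 t h1 (not_le.mp hlt) h2)
  have hm : 0 < sInf B := by linarith
  have hml : sInf B ≤ t0 := csInf_le hbdd ⟨ht0, htl, hP⟩
  have hPm : P (sInf B) := by
    apply lim _ hm (by linarith)
    intro s hs0 hs
    by_contra hPs
    have : sInf B ≤ s := csInf_le hbdd ⟨hs0, by linarith, hPs⟩
    linarith
  rcases lt_or_eq_of_le (show sInf B ≤ l by linarith) with h | h
  · obtain ⟨d, hd, H⟩ := succ _ hm h hPm
    have : sInf B + d ≤ sInf B := by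
      apply le_csInf hne
      rintro t ⟨h1, h2, h3⟩
      by_contra hlt
      have ht : sInf B ≤ t := csInf_le hbdd ⟨h1, h2, h3⟩
      rcases lt_or_eq_of_le ht with h4 | h4
      · exact h3 (H t h4 (not_le.mp hlt) h2)
      · exact h3 (h4 ▸ hPm)
    linarith
  · have : t0 = sInf B := by linarith
    exact hP (this ▸ hPm)

/-- The flux identity on an edge. -/
theorem edge_flux (φ : ℝ → ℝ) (l : ℝ) (hl : 0 < l) (R L : ℝ → ℤ)
    (hR : ∀ r, 0 ≤ r → r < l → HasSlope φ r (R r))
    (hL : ∀ r, 0 < r → r ≤ l → HasLSlope φ r (L r)) :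
    ∃ S : Finset ℝ, (∀ r ∈ S, 0 < r ∧ r < l) ∧
      (∀ r, 0 < r → r < l → R r + L r ≠ 0 → r ∈ S) ∧
      R 0 + L l + ∑ r ∈ S, (R r + L r) = 0 := by
  classical
  refine real_ind (fun t => ∃ S : Finset ℝ, (∀ r ∈ S, 0 < r ∧ r < t) ∧
      (∀ r, 0 < r → r < t → R r + L r ≠ 0 → r ∈ S) ∧
      R 0 + L t + ∑ r ∈ S, (R r + L r) = 0) l ?_ ?_ ?_ l hl le_rfl
  · obtain ⟨d, hd, H⟩ := near_right (hR 0 le_rfl hl)
    refine ⟨d, hd, fun t ht0 htd htl => ⟨∅, by simp, ?_, ?_⟩⟩
    · intro r hr0 hrt hne
      exfalso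
      apply hne
      have h1 := H r hr0 (by linarith)
      have h2 := h1.1.unique (hL r hr0 (by linarith))
      have h3 := h1.2.unique (hR r hr0.le (by linarith))
      omega
    · have h1 := H t ht0 (by linarith)
      have h2 := h1.1.unique (hL t ht0 (by linarith))
      simp
      omega
  · intro t ht0 htl hs
    obtain ⟨d, hd, H⟩ := near_left (hL t ht0 htl)
    set s := max (t - d / 2) (t / 2) with hsd
    have hs0 : 0 < s := lt_of_lt_of_le (by linarith) (le_max_right _ _)
    have hst : s < t := max_lt (by linarith) (by linarith)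
    have hsd : t - d < s := lt_of_lt_of_le (by linarith) (le_max_left _ _)
    obtain ⟨S, hS1, hS2, hS3⟩ := hs s hs0 hst
    have key : ∀ r, s ≤ r → r < t → R r + L r = 0 ∧ L r = L t := by
      intro r hr1 hr2
      have h1 := H r (by linarith) hr2
      have h2 := h1.1.unique (hL r (by linarith) (by linarith))
      have h3 := h1.2.unique (hR r (by linarith) (by linarith))
      constructor <;> omega
    refine ⟨S, fun r hr => ⟨(hS1 r hr).1, (hS1 r hr).2.trans hst⟩, ?_, ?_⟩
    · intro r hr0 hrt hne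
      rcases lt_or_ge r s with h | h
      · exact hS2 r hr0 h hne
      · exact absurd (key r h hrt).1 hne
    · rw [← (key s le_rfl hst).2]
      exact hS3
  · rintro t ht0 htl ⟨S, hS1, hS2, hS3⟩
    obtain ⟨d, hd, H⟩ := near_right (hR t ht0.le htl)
    refine ⟨d, hd, fun t' h1 h2 h3 => ⟨insert t S, ?_, ?_, ?_⟩⟩
    · intro r hr
      rw [Finset.mem_insert] at hr
      rcases hr with rfl | hr
      · exact ⟨ht0, h1⟩
      · exact ⟨(hS1 r hr).1, (hS1 r hr).2.trans h1⟩
    · intro r hr0 hrt hne
      rw [Finset.mem_insert]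
      rcases lt_trichotomy r t with h | h | h
      · exact Or.inr (hS2 r hr0 h hne)
      · exact Or.inl h
      · exfalso
        apply hne
        have h1 := H r h (by linarith)
        have h2 := h1.1.unique (hL r hr0 (by linarith))
        have h3 := h1.2.unique (hR r hr0.le (by linarith))
        omega
    · have hnot : t ∉ S := fun h => lt_irrefl _ (hS1 t h).2
      rw [Finset.sum_insert hnot]
      have h4 := H t' h1 h2
      have h5 := h4.1.unique (hL t' (by linarith) h3)
      linarith [hS3]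

/-- A finite graph (loops and multiple edges allowed) with positive edge lengths. The edge `e`
joins `ends e true` to `ends e false`. -/
structure MGraph where
  /-- vertices -/
  V : Type
  /-- edges -/
  E : Type
  [fV : Fintype V]
  [fE : Fintype E]
  /-- the two ends of an edge -/
  ends : E → Bool → V
  /-- edge lengths -/
  len : E → ℝ
  len_pos : ∀ e, 0 < len e

attribute [instance] MGraph.fV MGraph.fE

/-- The points of the metric graph: vertices and interior points of edges; `inner e r` is the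
point of `e` at distance `r` from the end `ends e true`. -/
inductive Pt (G : MGraph) : Type
  | vert (v : G.V) : Pt G
  | inner (e : G.E) (r : ℝ) (h0 : 0 < r) (h1 : r < G.len e) : Pt G

variable {G : MGraph}

open Classical in
/-- The point of the edge `e` at distance `r` from `ends e true` (clamped outside `[0, len e]`). -/
noncomputable def pt (e : G.E) (r : ℝ) : Pt G :=
  if h0 : 0 < r then
    if h1 : r < G.len e then Pt.inner e r h0 h1 else Pt.vert (G.ends e false)
  else Pt.vert (G.ends e true)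

/-- The point of the edge `e` at distance `r` from the end `ends e b`. -/
noncomputable def dpt (e : G.E) (b : Bool) (r : ℝ) : Pt G :=
  pt e (if b then r else G.len e - r)

/-- The topology of the metric graph: a set is open if its trace on every closed edge
is open. -/
noncomputable instance : TopologicalSpace (Pt G) :=
  ⨆ e : G.E, TopologicalSpace.coinduced
    (fun r : Set.Icc (0 : ℝ) (G.len e) => pt e (r : ℝ)) inferInstance

/-- `f` is piecewise linear with integer slopes; `σ e b r` is the slope of `f` at the point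
`dpt e b r`, in the direction of the edge `e` away from its end `ends e b`. -/
def IsPL (f : Pt G → ℝ) (σ : G.E → Bool → ℝ → ℤ) : Prop :=
  ∀ (e : G.E) (b : Bool) (r : ℝ), 0 ≤ r → r < G.len e →
    HasSlope (fun t => f (dpt e b t)) r (σ e b r)

open Classical in
/-- The tangent directions at a point, as triples `(e, b, r)`: at the point `dpt e b r`, along
`e`, away from its end `ends e b`. -/
noncomputable def dirs : Pt G → Finset (G.E × Bool × ℝ)
  | .vert v => ((Finset.univ : Finset (G.E × Bool)).filter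
      (fun a => G.ends a.1 a.2 = v)).image (fun a => (a.1, a.2, (0 : ℝ)))
  | .inner e r _ _ => {(e, true, r), (e, false, G.len e - r)}

/-- The order at `x` of a piecewise linear function with slopes `σ`: the sum of its outgoing
slopes at `x`. -/
noncomputable def ord (σ : G.E → Bool → ℝ → ℤ) (x : Pt G) : ℤ :=
  ∑ d ∈ dirs x, σ d.1 d.2.1 d.2.2

theorem pt_inner (e : G.E) {r : ℝ} (h0 : 0 < r) (h1 : r < G.len e) :
    pt e r = Pt.inner e r h0 h1 := by
  unfold pt
  rw [dif_pos h0, dif_pos h1]

theorem pt_zero (e : G.E) : pt e 0 = Pt.vert (G.ends e true) := by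
  unfold pt
  rw [dif_neg (lt_irrefl _)]

theorem pt_len (e : G.E) : pt e (G.len e) = Pt.vert (G.ends e false) := by
  unfold pt
  rw [dif_pos (G.len_pos e), dif_neg (lt_irrefl _)]

theorem dpt_true (e : G.E) (r : ℝ) : dpt e true r = pt e r := by simp [dpt]

theorem dpt_false (e : G.E) (r : ℝ) : dpt e false r = pt e (G.len e - r) := by simp [dpt]

theorem dpt_zero (e : G.E) (b : Bool) : dpt e b 0 = Pt.vert (G.ends e b) := by
  cases b
  · rw [dpt_false, sub_zero, pt_len]
  · rw [dpt_true, pt_zero]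

theorem dpt_not (e : G.E) (b : Bool) (r : ℝ) : dpt e (!b) r = dpt e b (G.len e - r) := by
  cases b
  · simp [dpt]
  · simp [dpt]

theorem mem_dirs (x : Pt G) (e : G.E) (b : Bool) (r : ℝ) :
    (e, b, r) ∈ dirs x ↔ 0 ≤ r ∧ r < G.len e ∧ dpt e b r = x := by
  classical
  cases x with
  | vert v =>
    simp only [dirs, Finset.mem_image, Finset.mem_filter, Finset.mem_univ, true_and,
      Prod.mk.injEq, Prod.exists]
    constructor
    · rintro ⟨e', b', h, rfl, rfl, rfl⟩
      exact ⟨le_rfl, G.len_pos _, by rw [dpt_zero, h]⟩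
    · rintro ⟨h0, h1, h2⟩
      rcases h0.lt_or_eq with h | h
      · exfalso
        cases b
        · rw [dpt_false, pt_inner e (by linarith) (by linarith)] at h2
          exact absurd h2 (by simp)
        · rw [dpt_true, pt_inner e h h1] at h2
          exact absurd h2 (by simp)
      · subst h
        rw [dpt_zero] at h2
        refine ⟨e, b, by simpa using h2, rfl, rfl, rfl⟩
  | inner e' r' h0' h1' =>
    simp only [dirs, Finset.mem_insert, Finset.mem_singleton, Prod.mk.injEq]
    constructor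
    · rintro (⟨rfl, rfl, rfl⟩ | ⟨rfl, rfl, rfl⟩)
      · exact ⟨h0'.le, h1', by rw [dpt_true, pt_inner _ h0' h1']⟩
      · refine ⟨by linarith, by linarith, ?_⟩
        have : G.len e - (G.len e - r') = r' := by ring
        rw [dpt_false, this, pt_inner _ h0' h1']
    · rintro ⟨h0, h1, h2⟩
      rcases h0.lt_or_eq with h | h
      · cases b
        · rw [dpt_false, pt_inner e (by linarith) (by linarith)] at h2
          rw [Pt.inner.injEq] at h2
          obtain ⟨rfl, h3⟩ := h2
          refine Or.inr ⟨rfl, rfl, by linarith⟩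
        · rw [dpt_true, pt_inner e h h1] at h2
          rw [Pt.inner.injEq] at h2
          obtain ⟨rfl, h3⟩ := h2
          exact Or.inl ⟨rfl, rfl, h3⟩
      · subst h
        rw [dpt_zero] at h2
        exact absurd h2 (by simp)

/-- Every point has the form `dpt e b r`, or is an isolated vertex. -/
theorem mem_dirs' {x : Pt G} {d : G.E × Bool × ℝ} (h : d ∈ dirs x) :
    0 ≤ d.2.2 ∧ d.2.2 < G.len d.1 ∧ dpt d.1 d.2.1 d.2.2 = x :=
  (mem_dirs x d.1 d.2.1 d.2.2).mp h

/-! ### Openness through germs -/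

theorem isOpen_iff_trace (U : Set (Pt G)) :
    IsOpen U ↔ ∀ e : G.E, IsOpen {r : Set.Icc (0 : ℝ) (G.len e) | pt e (r : ℝ) ∈ U} := by
  rw [isOpen_iSup_iff]
  rfl

theorem isOpen_of_germs (U : Set (Pt G))
    (H : ∀ (e : G.E) (b : Bool) (r : ℝ), 0 ≤ r → r < G.len e → dpt e b r ∈ U →
      ∃ δ : ℝ, 0 < δ ∧ ∀ h, 0 < h → h < δ → dpt e b (r + h) ∈ U) : IsOpen U := by
  rw [isOpen_iff_trace]
  intro e
  rw [Metric.isOpen_iff]
  rintro ⟨r, hr0, hr1⟩ hr
  simp only [Set.mem_ofPred_eq] at hr
  -- right side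
  have hright : ∃ δ : ℝ, 0 < δ ∧ ∀ s, r < s → s < r + δ → s ≤ G.len e → pt e s ∈ U := by
    rcases hr1.lt_or_eq with h | h
    · obtain ⟨d, hd, Hd⟩ := H e true r hr0 h (by rw [dpt_true]; exact hr)
      refine ⟨d, hd, fun s h1 h2 _ => ?_⟩
      have := Hd (s - r) (by linarith) (by linarith)
      rw [dpt_true] at this
      simpa using this
    · exact ⟨1, one_pos, fun s h1 _ h2 => by linarith⟩
  have hleft : ∃ δ : ℝ, 0 < δ ∧ ∀ s, r - δ < s → s < r → 0 ≤ s → pt e s ∈ U := by
    rcases hr0.lt_or_eq with h | h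
    · obtain ⟨d, hd, Hd⟩ := H e false (G.len e - r) (by linarith) (by linarith)
        (by rw [dpt_false]; simpa using hr)
      refine ⟨d, hd, fun s h1 h2 _ => ?_⟩
      have := Hd (r - s) (by linarith) (by linarith)
      rw [dpt_false] at this
      have e1 : G.len e - (G.len e - r + (r - s)) = s := by ring
      rwa [e1] at this
    · exact ⟨1, one_pos, fun s _ h1 h2 => by linarith⟩
  obtain ⟨d1, hd1, H1⟩ := hright
  obtain ⟨d2, hd2, H2⟩ := hleft
  refine ⟨min d1 d2, by positivity, ?_⟩
  rintro ⟨s, hs0, hs1⟩ hs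
  rw [Metric.mem_ball, Subtype.dist_eq, Real.dist_eq, abs_lt] at hs
  simp only [Set.mem_ofPred_eq]
  have m1 := min_le_left d1 d2
  have m2 := min_le_right d1 d2
  rcases lt_trichotomy s r with h | h | h
  · exact H2 s (by linarith [hs.1]) h hs0
  · rw [h]; exact hr
  · exact H1 s h (by linarith [hs.2]) hs1

end Pool.Agent.Q46.Prym
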