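import Pool.Agent.Q46.PrymA

/-!
# Degree of a principal divisor, operations on piecewise linear functions
-/

namespace Pool.Agent.Q46.Prym

variable {G : MGraph}

theorem IsPL.left {f : Pt G → ℝ} {σ} (h : IsPL f σ) (e : G.E) (r : ℝ) (h0 : 0 < r)
    (h1 : r ≤ G.len e) : HasLSlope (fun t => f (pt e t)) r (σ e false (G.len e - r)) := by
  obtain ⟨d, hd, H⟩ := h e false (G.len e - r) (by linarith) (by linarith)
  refine ⟨d, hd, fun t ht0 ht1 => ?_⟩
  have := H t ht0 ht1
  simp only [dpt_false] at this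
  have e1 : G.len e - (G.len e - r + t) = r - t := by ring
  have e2 : G.len e - (G.len e - r) = r := by ring
  rwa [e1, e2] at this

theorem IsPL.right {f : Pt G → ℝ} {σ} (h : IsPL f σ) (e : G.E) (r : ℝ) (h0 : 0 ≤ r)
    (h1 : r < G.len e) : HasSlope (fun t => f (pt e t)) r (σ e true r) := by
  have := h e true r h0 h1
  simp only [dpt_true] at this
  exact this

theorem IsPL.slope_unique {f : Pt G → ℝ} {σ τ} (h1 : IsPL f σ) (h2 : IsPL f τ) (e : G.E)
    (b : Bool) (r : ℝ) (h0 : 0 ≤ r) (h3 : r < G.len e) : σ e b r = τ e b r :=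
  (h1 e b r h0 h3).unique (h2 e b r h0 h3)

theorem ord_congr {σ τ : G.E → Bool → ℝ → ℤ} {x : Pt G}
    (h : ∀ e b r, 0 ≤ r → r < G.len e → dpt e b r = x → σ e b r = τ e b r) :
    ord σ x = ord τ x := by
  unfold ord
  apply Finset.sum_congr rfl
  rintro ⟨e, b, r⟩ hd
  obtain ⟨h0, h1, h2⟩ := mem_dirs' hd
  exact h e b r h0 h1 h2

theorem ord_inner (σ : G.E → Bool → ℝ → ℤ) (e : G.E) (r : ℝ) (h0 : 0 < r)
    (h1 : r < G.len e) : ord σ (Pt.inner e r h0 h1) = σ e true r + σ e false (G.len e - r) := by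
  classical
  unfold ord dirs
  rw [Finset.sum_pair]
  intro h
  simp at h

theorem sum_ord_vert (σ : G.E → Bool → ℝ → ℤ) :
    ∑ v : G.V, ord σ (Pt.vert v) = ∑ e : G.E, (σ e true 0 + σ e false 0) := by
  classical
  have h1 : ∀ v : G.V, ord σ (Pt.vert v) =
      ∑ a ∈ (Finset.univ : Finset (G.E × Bool)).filter (fun a => G.ends a.1 a.2 = v),
        σ a.1 a.2 0 := by
    intro v
    unfold ord dirs
    rw [Finset.sum_image]
    rintro ⟨a, b⟩ _ ⟨c, d⟩ _ h
    simp only [Prod.mk.injEq] at h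
    exact Prod.ext h.1 h.2.1
  rw [Finset.sum_congr rfl (fun v _ => h1 v)]
  have h2 := Finset.sum_fiberwise (Finset.univ : Finset (G.E × Bool))
    (fun a => G.ends a.1 a.2) (fun a => σ a.1 a.2 0)
  rw [h2, Fintype.sum_prod_type]
  apply Finset.sum_congr rfl
  intro e _
  rw [Fintype.sum_bool]

/-- The divisor of a piecewise linear function has finite support and degree zero. -/
theorem IsPL.degree {f : Pt G → ℝ} {σ} (h : IsPL f σ) :
    ∃ T : Finset (Pt G), (∀ x, ord σ x ≠ 0 → x ∈ T) ∧ ∑ x ∈ T, ord σ x = 0 := by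
  classical
  have H : ∀ e : G.E, ∃ S : Finset ℝ, (∀ r ∈ S, 0 < r ∧ r < G.len e) ∧
      (∀ r, 0 < r → r < G.len e → σ e true r + σ e false (G.len e - r) ≠ 0 → r ∈ S) ∧
      σ e true 0 + σ e false (G.len e - G.len e)
        + ∑ r ∈ S, (σ e true r + σ e false (G.len e - r)) = 0 := fun e =>
    edge_flux (fun t => f (pt e t)) (G.len e) (G.len_pos e) (fun r => σ e true r)
      (fun r => σ e false (G.len e - r)) (h.right e) (h.left e)
  choose S hS1 hS2 hS3 using H
  set A : Finset (Pt G) := (Finset.univ : Finset G.V).image Pt.vert with hA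
  set B : Finset (Pt G) := (Finset.univ : Finset G.E).biUnion (fun e => (S e).image (pt e))
    with hB
  have hdisj : Disjoint A B := by
    rw [Finset.disjoint_left]
    intro x hxA hxB
    rw [hA, Finset.mem_image] at hxA
    rw [hB, Finset.mem_biUnion] at hxB
    obtain ⟨v, _, rfl⟩ := hxA
    obtain ⟨e, _, hx⟩ := hxB
    rw [Finset.mem_image] at hx
    obtain ⟨r, hr, hx⟩ := hx
    rw [pt_inner e (hS1 e r hr).1 (hS1 e r hr).2] at hx
    exact absurd hx (by simp)
  refine ⟨A ∪ B, ?_, ?_⟩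
  · intro x hx
    rw [Finset.mem_union]
    cases x with
    | vert v =>
      left
      rw [hA]
      exact Finset.mem_image_of_mem _ (Finset.mem_univ _)
    | inner e r h0 h1 =>
      right
      rw [hB, Finset.mem_biUnion]
      refine ⟨e, Finset.mem_univ _, ?_⟩
      rw [ord_inner] at hx
      rw [← pt_inner e h0 h1]
      exact Finset.mem_image_of_mem _ (hS2 e r h0 h1 hx)
  · rw [Finset.sum_union hdisj]
    have hA1 : ∑ x ∈ A, ord σ x = ∑ e : G.E, (σ e true 0 + σ e false 0) := by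
      rw [hA, Finset.sum_image (by
        intro a _ b _ hab
        simpa using hab), sum_ord_vert]
    have hB1 : ∑ x ∈ B, ord σ x
        = ∑ e : G.E, ∑ r ∈ S e, (σ e true r + σ e false (G.len e - r)) := by
      rw [hB, Finset.sum_biUnion]
      · apply Finset.sum_congr rfl
        intro e _
        rw [Finset.sum_image]
        · apply Finset.sum_congr rfl
          intro r hr
          rw [pt_inner e (hS1 e r hr).1 (hS1 e r hr).2, ord_inner]
        · intro a ha b hb hab
          have ha' := hS1 e a ha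
          have hb' := hS1 e b hb
          rw [pt_inner e ha'.1 ha'.2, pt_inner e hb'.1 hb'.2, Pt.inner.injEq] at hab
          exact hab.2
      · intro e _ e' _ hne
        rw [Function.onFun, Finset.disjoint_left]
        intro x hx hx'
        rw [Finset.mem_image] at hx hx'
        obtain ⟨r, hr, rfl⟩ := hx
        obtain ⟨r', hr', h2⟩ := hx'
        have ha' := hS1 e r hr
        have hb' := hS1 e' r' hr'
        rw [pt_inner e ha'.1 ha'.2, pt_inner e' hb'.1 hb'.2, Pt.inner.injEq] at h2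
        exact hne h2.1.symm
    rw [hA1, hB1, ← Finset.sum_add_distrib]
    apply Finset.sum_eq_zero
    intro e _
    have := hS3 e
    rwa [sub_self] at this

/-! ### Operations -/

theorem IsPL.const (c : ℝ) : IsPL (fun _ : Pt G => c) (fun _ _ _ => 0) := by
  intro e b r h0 h1
  exact ⟨1, one_pos, fun h _ _ => by simp⟩

theorem IsPL.add {f g : Pt G → ℝ} {σ τ} (hf : IsPL f σ) (hg : IsPL g τ) :
    IsPL (fun x => f x + g x) (fun e b r => σ e b r + τ e b r) := by
  intro e b r h0 h1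
  obtain ⟨d1, hd1, H1⟩ := hf e b r h0 h1
  obtain ⟨d2, hd2, H2⟩ := hg e b r h0 h1
  refine ⟨min d1 d2, by positivity, fun h k0 k1 => ?_⟩
  have e1 := H1 h k0 (lt_of_lt_of_le k1 (min_le_left _ _))
  have e2 := H2 h k0 (lt_of_lt_of_le k1 (min_le_right _ _))
  simp only at e1 e2 ⊢
  rw [e1, e2]
  push_cast
  ring

theorem IsPL.neg {f : Pt G → ℝ} {σ} (hf : IsPL f σ) :
    IsPL (fun x => - f x) (fun e b r => - σ e b r) := by
  intro e b r h0 h1
  obtain ⟨d1, hd1, H1⟩ := hf e b r h0 h1
  refine ⟨d1, hd1, fun h k0 k1 => ?_⟩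
  have e1 := H1 h k0 k1
  simp only at e1 ⊢
  rw [e1]
  push_cast
  ring

theorem IsPL.sub_const {f : Pt G → ℝ} {σ} (hf : IsPL f σ) (c : ℝ) :
    IsPL (fun x => f x - c) σ := by
  intro e b r h0 h1
  obtain ⟨d1, hd1, H1⟩ := hf e b r h0 h1
  refine ⟨d1, hd1, fun h k0 k1 => ?_⟩
  have e1 := H1 h k0 k1
  simp only at e1 ⊢
  rw [e1]
  ring

theorem ord_add (σ τ : G.E → Bool → ℝ → ℤ) (x : Pt G) :
    ord (fun e b r => σ e b r + τ e b r) x = ord σ x + ord τ x := by
  unfold ord
  rw [Finset.sum_add_distrib]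

theorem ord_neg (σ : G.E → Bool → ℝ → ℤ) (x : Pt G) :
    ord (fun e b r => - σ e b r) x = - ord σ x := by
  unfold ord
  rw [Finset.sum_neg_distrib]

/-- values stay close along a germ -/
theorem IsPL.germ_close {f : Pt G → ℝ} {σ} (hf : IsPL f σ) (e : G.E) (b : Bool) (r : ℝ)
    (h0 : 0 ≤ r) (h1 : r < G.len e) (η : ℝ) (hη : 0 < η) :
    ∃ δ : ℝ, 0 < δ ∧ ∀ h, 0 ≤ h → h < δ → |f (dpt e b (r + h)) - f (dpt e b r)| < η := by
  obtain ⟨d, hd, H⟩ := hf e b r h0 h1
  have hden : 0 < |(σ e b r : ℝ)| + 1 := by positivity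
  refine ⟨min d (η / (|(σ e b r : ℝ)| + 1)), by positivity, fun h k0 k1 => ?_⟩
  have e1 := H h k0 (lt_of_lt_of_le k1 (min_le_left _ _))
  have e2 : h < η / (|(σ e b r : ℝ)| + 1) := lt_of_lt_of_le k1 (min_le_right _ _)
  rw [lt_div_iff₀ hden] at e2
  simp only at e1
  rw [e1, add_sub_cancel_left, abs_mul, abs_of_nonneg k0]
  nlinarith [abs_nonneg (σ e b r : ℝ)]

theorem IsPL.isOpen_pos {f : Pt G → ℝ} {σ} (hf : IsPL f σ) (c : ℝ) :
    IsOpen {x | c < f x} := by
  apply isOpen_of_germs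
  intro e b r h0 h1 hx
  simp only [Set.mem_ofPred_eq] at hx
  obtain ⟨d, hd, H⟩ := hf.germ_close e b r h0 h1 (f (dpt e b r) - c) (by linarith)
  refine ⟨d, hd, fun h k0 k1 => ?_⟩
  have := H h k0.le k1
  rw [abs_lt] at this
  simp only [Set.mem_ofPred_eq]
  linarith [this.1]

theorem IsPL.isOpen_neg {f : Pt G → ℝ} {σ} (hf : IsPL f σ) (c : ℝ) :
    IsOpen {x | f x < c} := by
  have := hf.neg.isOpen_pos (-c)
  simpa using this

/-- positive part slopes -/
noncomputable def posσ (f : Pt G → ℝ) (σ : G.E → Bool → ℝ → ℤ) : G.E → Bool → ℝ → ℤ :=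
  fun e b r => if 0 < f (dpt e b r) then σ e b r else
    if f (dpt e b r) < 0 then 0 else max (σ e b r) 0

theorem IsPL.pos {f : Pt G → ℝ} {σ} (hf : IsPL f σ) :
    IsPL (fun x => max (f x) 0) (posσ f σ) := by
  intro e b r h0 h1
  obtain ⟨d, hd, H⟩ := hf e b r h0 h1
  simp only at H
  unfold posσ
  rcases lt_trichotomy (f (dpt e b r)) 0 with hneg | hz | hpos
  · rw [if_neg (not_lt.mpr hneg.le), if_pos hneg]
    obtain ⟨d', hd', H'⟩ := hf.germ_close e b r h0 h1 (-f (dpt e b r)) (by linarith)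
    refine ⟨d', hd', fun h k0 k1 => ?_⟩
    have := H' h k0 k1
    rw [abs_lt] at this
    simp only
    rw [max_eq_right (by linarith [this.2]), max_eq_right hneg.le]
    simp
  · rw [if_neg (by linarith), if_neg (by linarith)]
    refine ⟨d, hd, fun h k0 k1 => ?_⟩
    have e1 := H h k0 k1
    simp only
    rw [e1, hz, max_self, zero_add, zero_add]
    rcases le_total (σ e b r) 0 with hs | hs
    · have hs' : (σ e b r : ℝ) ≤ 0 := by exact_mod_cast hs
      rw [max_eq_right hs, max_eq_right (by nlinarith)]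
      simp
    · have hs' : (0 : ℝ) ≤ (σ e b r : ℝ) := by exact_mod_cast hs
      rw [max_eq_left hs, max_eq_left (by positivity)]
  · rw [if_pos hpos]
    obtain ⟨d', hd', H'⟩ := hf.germ_close e b r h0 h1 (f (dpt e b r)) (by linarith)
    refine ⟨min d d', by positivity, fun h k0 k1 => ?_⟩
    have := H' h k0 (lt_of_lt_of_le k1 (min_le_right _ _))
    have e1 := H h k0 (lt_of_lt_of_le k1 (min_le_left _ _))
    rw [abs_lt] at this
    simp only
    rw [max_eq_left (by linarith [this.1]), max_eq_left hpos.le]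
    exact e1

/-- sum of the positive outgoing slopes -/
noncomputable def up (σ : G.E → Bool → ℝ → ℤ) (x : Pt G) : ℤ :=
  ∑ d ∈ dirs x, max (σ d.1 d.2.1 d.2.2) 0

theorem up_nonneg (σ : G.E → Bool → ℝ → ℤ) (x : Pt G) : 0 ≤ up σ x :=
  Finset.sum_nonneg fun _ _ => le_max_right _ _

theorem ord_pos (f : Pt G → ℝ) (σ : G.E → Bool → ℝ → ℤ) (x : Pt G) :
    ord (posσ f σ) x = if 0 < f x then ord σ x else if f x < 0 then 0 else up σ x := by
  have : ∀ d ∈ dirs x, posσ f σ d.1 d.2.1 d.2.2 =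
      if 0 < f x then σ d.1 d.2.1 d.2.2 else if f x < 0 then 0
        else max (σ d.1 d.2.1 d.2.2) 0 := by
    intro d hd
    unfold posσ
    rw [(mem_dirs' hd).2.2]
  unfold ord up
  rw [Finset.sum_congr rfl this]
  split_ifs <;> simp

theorem ord_eq_up_sub (σ : G.E → Bool → ℝ → ℤ) (x : Pt G) :
    ord σ x = up σ x - up (fun e b r => - σ e b r) x := by
  unfold ord up
  rw [← Finset.sum_sub_distrib]
  apply Finset.sum_congr rfl
  intro d _
  rcases le_total (σ d.1 d.2.1 d.2.2) 0 with h | h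
  · rw [max_eq_right h, max_eq_left (by linarith)]
    ring
  · rw [max_eq_left h, max_eq_right (by linarith)]
    ring

theorem up_eq_zero {σ : G.E → Bool → ℝ → ℤ} {x : Pt G} (h : up σ x = 0) {e : G.E} {b : Bool}
    {r : ℝ} (h0 : 0 ≤ r) (h1 : r < G.len e) (h2 : dpt e b r = x) : σ e b r ≤ 0 := by
  unfold up at h
  rw [Finset.sum_eq_zero_iff_of_nonneg (fun _ _ => le_max_right _ _)] at h
  have := h (e, b, r) ((mem_dirs x e b r).mpr ⟨h0, h1, h2⟩)
  simpa using this

/-- A function on a connected metric graph with zero divisor is constant. -/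
theorem IsPL.const_of_ord [ConnectedSpace (Pt G)] {f : Pt G → ℝ} {σ} (hf : IsPL f σ)
    (h : ∀ x, ord σ x = 0) (x y : Pt G) : f x = f y := by
  classical
  -- all positive slopes vanish
  have key : ∀ {g : Pt G → ℝ} {τ : G.E → Bool → ℝ → ℤ}, IsPL g τ → (∀ x, ord τ x = 0) →
      ∀ x, up τ x = 0 := by
    intro g τ hg hτ x
    have hgc := hg.sub_const (g x)
    obtain ⟨T, hT1, hT2⟩ := hgc.pos.degree
    have hall : ∀ y ∈ T, 0 ≤ ord (posσ (fun x_1 => g x_1 - g x) τ) y := by
      intro y _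
      rw [ord_pos]
      split_ifs
      · exact (hτ y).ge
      · exact le_rfl
      · exact up_nonneg _ _
    rw [Finset.sum_eq_zero_iff_of_nonneg hall] at hT2
    have hx : ord (posσ (fun x_1 => g x_1 - g x) τ) x = up τ x := by
      rw [ord_pos, if_neg (by simp), if_neg (by simp)]
    by_contra hne
    have hxT := hT1 x (by rw [hx]; exact hne)
    exact hne (by rw [← hx]; exact hT2 x hxT)
  have hup := key hf h
  have hdown := key hf.neg (fun x => by rw [ord_neg, h x, neg_zero])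
  have hzero : ∀ (e : G.E) (b : Bool) (r : ℝ), 0 ≤ r → r < G.len e → σ e b r = 0 := by
    intro e b r h0 h1
    have a1 := up_eq_zero (hup (dpt e b r)) h0 h1 rfl
    have a2 := up_eq_zero (hdown (dpt e b r)) h0 h1 rfl
    simp only [Left.neg_nonpos_iff] at a2
    exact le_antisymm a1 a2
  have hopen : ∀ S : Set ℝ, IsOpen (f ⁻¹' S) := by
    intro S
    apply isOpen_of_germs
    intro e b r h0 h1 hx
    obtain ⟨d, hd, H⟩ := hf e b r h0 h1
    refine ⟨d, hd, fun k k0 k1 => ?_⟩
    have := H k k0.le k1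
    rw [hzero e b r h0 h1] at this
    simp only [Int.cast_zero, zero_mul, add_zero] at this
    rw [Set.mem_preimage, this]
    exact hx
  have hclopen : IsClopen (f ⁻¹' {f x}) :=
    ⟨⟨by rw [← Set.preimage_compl]; exact hopen _⟩, hopen _⟩
  rcases isClopen_iff.mp hclopen with h1 | h1
  · exfalso
    have : x ∈ f ⁻¹' {f x} := rfl
    rw [h1] at this
    exact this
  · have : y ∈ f ⁻¹' {f x} := by rw [h1]; trivial
    exact this.symm

end Pool.Agent.Q46.Prym
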