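import Pool.Agent.Q46.PrymB

/-!
# Free involutions, the quotient graph, the Abel-Prym map, and the structure of a relation
-/

namespace Pool.Agent.Q46.Prym

variable {G : MGraph}

/-- A free involution of the metric graph (an isometric involution of the model without fixed
vertices, hence without fixed points). -/
structure FreeInv (G : MGraph) where
  /-- action on vertices -/
  v : G.V → G.V
  /-- action on edges -/
  e : G.E → G.E
  v_v : ∀ x, v (v x) = x
  e_e : ∀ x, e (e x) = x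
  v_ne : ∀ x, v x ≠ x
  ends_e : ∀ x b, G.ends (e x) b = v (G.ends x b)
  len_e : ∀ x, G.len (e x) = G.len x

/-- The action of a free involution on points. -/
def FreeInv.inv (i : FreeInv G) : Pt G → Pt G
  | .vert v => .vert (i.v v)
  | .inner e r h0 h1 => .inner (i.e e) r h0 (by rw [i.len_e]; exact h1)

/-- Two points are identified in the base of the double cover if they are equal or swapped by
the involution. -/
def FreeInv.setoid (i : FreeInv G) : Setoid (Pt G) where
  r x y := x = y ∨ i.inv x = y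
  iseqv := by
    have hinv : ∀ x, i.inv (i.inv x) = x := by
      intro x
      cases x with
      | vert v => simp [FreeInv.inv, i.v_v]
      | inner e r h0 h1 => simp [FreeInv.inv, i.e_e]
    constructor
    · exact fun x => Or.inl rfl
    · rintro x y (rfl | rfl)
      · exact Or.inl rfl
      · exact Or.inr (hinv x)
    · rintro x y z (rfl | rfl) (rfl | rfl)
      · exact Or.inl rfl
      · exact Or.inr rfl
      · exact Or.inr rfl
      · exact Or.inl (hinv x).symm

/-- The base `Γ` of the double cover, with the quotient topology. -/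
abbrev FreeInv.Base (i : FreeInv G) : Type := Quotient i.setoid

/-- The group of principal divisors: divisors of piecewise linear functions with integer
slopes. -/
def prin (G : MGraph) : AddSubgroup (Pt G →₀ ℤ) where
  carrier := {D | ∃ (f : Pt G → ℝ) (σ : G.E → Bool → ℝ → ℤ), IsPL f σ ∧ ∀ x, D x = ord σ x}
  zero_mem' := ⟨fun _ => 0, fun _ _ _ => 0, IsPL.const 0, fun x => by simp [ord]⟩
  add_mem' := by
    rintro D D' ⟨f, σ, hf, h⟩ ⟨g, τ, hg, h'⟩
    exact ⟨_, _, hf.add hg, fun x => by rw [ord_add, Finsupp.add_apply, h, h']⟩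
  neg_mem' := by
    rintro D ⟨f, σ, hf, h⟩
    exact ⟨_, _, hf.neg, fun x => by rw [ord_neg, Finsupp.neg_apply, h]⟩

/-- Divisor classes modulo linear equivalence; the Jacobian is its degree zero part. -/
abbrev Pic (G : MGraph) : Type := (Pt G →₀ ℤ) ⧸ prin G

/-- The Abel-Prym map `p ↦ [p - ι p]`. -/
noncomputable def psi (i : FreeInv G) (p : Pt G) : Pic G :=
  QuotientAddGroup.mk (Finsupp.single p 1 - Finsupp.single (i.inv p) 1)

namespace FreeInv

variable (i : FreeInv G)

theorem inv_inv (x : Pt G) : i.inv (i.inv x) = x := by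
  cases x with
  | vert v => simp [FreeInv.inv, i.v_v]
  | inner e r h0 h1 => simp [FreeInv.inv, i.e_e]

theorem inv_ne (x : Pt G) : i.inv x ≠ x := by
  cases x with
  | vert v => simp [FreeInv.inv, i.v_ne]
  | inner e r h0 h1 =>
    simp only [FreeInv.inv, ne_eq, Pt.inner.injEq, and_true]
    intro h
    have := i.ends_e e true
    rw [h] at this
    exact i.v_ne _ this.symm

theorem inv_eq_iff (x y : Pt G) : i.inv x = y ↔ x = i.inv y :=
  ⟨fun h => by rw [← h, inv_inv], fun h => by rw [h, inv_inv]⟩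

theorem inv_pt (e : G.E) (r : ℝ) : i.inv (pt e r) = pt (i.e e) r := by
  unfold pt
  by_cases h0 : 0 < r
  · by_cases h1 : r < G.len e
    · rw [dif_pos h0, dif_pos h1, dif_pos h0, dif_pos (by rw [i.len_e]; exact h1)]
      rfl
    · rw [dif_pos h0, dif_neg h1, dif_pos h0, dif_neg (by rw [i.len_e]; exact h1)]
      simp [FreeInv.inv, i.ends_e]
  · rw [dif_neg h0, dif_neg h0]
    simp [FreeInv.inv, i.ends_e]

theorem inv_dpt (e : G.E) (b : Bool) (r : ℝ) : i.inv (dpt e b r) = dpt (i.e e) b r := by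
  unfold dpt
  rw [inv_pt, i.len_e]

theorem pl_inv {f : Pt G → ℝ} {σ} (hf : IsPL f σ) :
    IsPL (fun x => f (i.inv x)) (fun e b r => σ (i.e e) b r) := by
  intro e b r h0 h1
  have := hf (i.e e) b r h0 (by rw [i.len_e]; exact h1)
  simp only [inv_dpt]
  exact this

theorem sum_dirs_inv (g : G.E × Bool × ℝ → ℤ) (x : Pt G) :
    ∑ d ∈ dirs (i.inv x), g d = ∑ d ∈ dirs x, g (i.e d.1, d.2.1, d.2.2) := by
  have hmem : ∀ (y : Pt G) (d : G.E × Bool × ℝ), d ∈ dirs y →
      (i.e d.1, d.2.1, d.2.2) ∈ dirs (i.inv y) := by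
    rintro y ⟨e, b, r⟩ hd
    obtain ⟨h0, h1, h2⟩ := mem_dirs' hd
    rw [mem_dirs]
    refine ⟨h0, by rw [i.len_e]; exact h1, ?_⟩
    rw [← inv_dpt, h2]
  apply Finset.sum_nbij' (fun d => (i.e d.1, d.2.1, d.2.2)) (fun d => (i.e d.1, d.2.1, d.2.2))
  · intro d hd
    have := hmem _ d hd
    rwa [inv_inv] at this
  · intro d hd
    exact hmem _ d hd
  · rintro ⟨e, b, r⟩ _
    simp [i.e_e]
  · rintro ⟨e, b, r⟩ _
    simp [i.e_e]
  · rintro ⟨e, b, r⟩ _
    simp [i.e_e]

theorem ord_inv (σ : G.E → Bool → ℝ → ℤ) (x : Pt G) :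
    ord (fun e b r => σ (i.e e) b r) x = ord σ (i.inv x) := by
  unfold ord
  rw [i.sum_dirs_inv (fun d => σ d.1 d.2.1 d.2.2)]

theorem up_inv (σ : G.E → Bool → ℝ → ℤ) (x : Pt G) :
    up (fun e b r => σ (i.e e) b r) x = up σ (i.inv x) := by
  unfold up
  rw [i.sum_dirs_inv (fun d => max (σ d.1 d.2.1 d.2.2) 0)]

/-- 2-connectedness of the base, in terms of invariant open sets upstairs. -/
theorem two_conn (h2 : ∀ x : i.Base, IsPreconnected ({x}ᶜ : Set i.Base)) (z : Pt G)
    (A B : Set (Pt G)) (hA : IsOpen A) (hB : IsOpen B)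
    (hiA : ∀ x ∈ A, i.inv x ∈ A) (hiB : ∀ x ∈ B, i.inv x ∈ B)
    (hcov : ∀ x, x ≠ z → x ≠ i.inv z → x ∈ A ∨ x ∈ B)
    (hdis : ∀ x, x ≠ z → x ≠ i.inv z → x ∈ A → x ∈ B → False)
    (a : Pt G) (ha : a ∈ A) (haz : a ≠ z) (haz' : a ≠ i.inv z)
    (b : Pt G) (hb : b ∈ B) (hbz : b ≠ z) (hbz' : b ≠ i.inv z) : False := by
  have hmk : ∀ x y : Pt G, (Quotient.mk i.setoid x = Quotient.mk i.setoid y) ↔
      (x = y ∨ i.inv x = y) := fun x y => Quotient.eq (r := i.setoid)
  have hpre : ∀ (C : Set (Pt G)), (∀ x ∈ C, i.inv x ∈ C) →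
      (Quotient.mk i.setoid) ⁻¹' (Quotient.mk i.setoid '' C) = C := by
    intro C hC
    ext x
    simp only [Set.mem_preimage, Set.mem_image]
    constructor
    · rintro ⟨y, hy, hxy⟩
      rcases (hmk y x).mp hxy with h | h
      · rw [← h]; exact hy
      · rw [← h]; exact hC y hy
    · intro hx
      exact ⟨x, hx, rfl⟩
  have hopen : ∀ (C : Set (Pt G)), IsOpen C → (∀ x ∈ C, i.inv x ∈ C) →
      IsOpen (Quotient.mk i.setoid '' C : Set i.Base) := by
    intro C hC hiC
    rw [isOpen_coinduced]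
    change IsOpen ((Quotient.mk i.setoid) ⁻¹' (Quotient.mk i.setoid '' C))
    rw [hpre C hiC]
    exact hC
  have hne : ∀ x, x ≠ z → x ≠ i.inv z →
      (Quotient.mk i.setoid x) ∈ ({Quotient.mk i.setoid z}ᶜ : Set i.Base) := by
    intro x h1 h2 h3
    rcases (hmk x z).mp h3 with h | h
    · exact h1 h
    · exact h2 ((i.inv_eq_iff x z).mp h)
  obtain ⟨w, hw1, hw2, hw3⟩ := h2 (Quotient.mk i.setoid z)
    (Quotient.mk i.setoid '' A) (Quotient.mk i.setoid '' B)
    (hopen A hA hiA) (hopen B hB hiB)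
    (by
      intro w hw
      induction w using Quotient.inductionOn with
      | h x =>
        have h1 : x ≠ z := fun h => hw (by rw [h]; rfl)
        have h2 : x ≠ i.inv z := fun h => hw ((hmk x z).mpr (Or.inr (by rw [h, inv_inv])))
        rcases hcov x h1 h2 with h | h
        · exact Or.inl ⟨x, h, rfl⟩
        · exact Or.inr ⟨x, h, rfl⟩)
    ⟨Quotient.mk i.setoid a, hne a haz haz', ⟨a, ha, rfl⟩⟩
    ⟨Quotient.mk i.setoid b, hne b hbz hbz', ⟨b, hb, rfl⟩⟩
  induction w using Quotient.inductionOn with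
  | h x =>
    have h1 : x ≠ z := fun h => hw1 (by rw [h]; rfl)
    have h2 : x ≠ i.inv z := fun h => hw1 ((hmk x z).mpr (Or.inr (by rw [h, inv_inv])))
    have hxA : x ∈ A := by
      have : x ∈ (Quotient.mk i.setoid) ⁻¹' (Quotient.mk i.setoid '' A) := hw2
      rwa [hpre A hiA] at this
    have hxB : x ∈ B := by
      have : x ∈ (Quotient.mk i.setoid) ⁻¹' (Quotient.mk i.setoid '' B) := hw3
      rwa [hpre B hiB] at this
    exact hdis x h1 h2 hxA hxB

end FreeInv

/-! ### Injectivity of the parametrisation and avoiding points -/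

theorem dpt_inner_form (e : G.E) (b : Bool) {s : ℝ} (h0 : 0 < s) (h1 : s < G.len e) :
    ∃ (k0 : 0 < (if b then s else G.len e - s)) (k1 : (if b then s else G.len e - s) < G.len e),
      dpt e b s = Pt.inner e (if b then s else G.len e - s) k0 k1 := by
  cases b
  · refine ⟨by simpa using h1, by simpa using h0, ?_⟩
    unfold dpt
    rw [pt_inner]
  · refine ⟨by simpa using h0, by simpa using h1, ?_⟩
    unfold dpt
    rw [pt_inner]

/-- two parametrisations of the same interior point -/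
theorem dpt_eq {e e' : G.E} {b b' : Bool} {s s' : ℝ} (h0 : 0 < s) (h1 : s < G.len e)
    (h0' : 0 ≤ s') (h1' : s' < G.len e') (h : dpt e b s = dpt e' b' s') :
    e' = e ∧ 0 < s' ∧ ((b' = b ∧ s' = s) ∨ (b' = (!b) ∧ s' = G.len e - s)) := by
  obtain ⟨k0, k1, hk⟩ := dpt_inner_form e b h0 h1
  rcases h0'.lt_or_eq with hs | hs
  · obtain ⟨m0, m1, hm⟩ := dpt_inner_form e' b' hs h1'
    rw [hk, hm, Pt.inner.injEq] at h
    obtain ⟨rfl, h⟩ := h
    refine ⟨rfl, hs, ?_⟩
    cases b <;> cases b' <;> simp at h ⊢ <;> linarith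
  · subst hs
    rw [dpt_zero, hk] at h
    exact absurd h (by simp)

theorem dpt_inj {e : G.E} {b : Bool} {s s' : ℝ} (h0 : 0 ≤ s) (h1 : s < G.len e)
    (h0' : 0 ≤ s') (h1' : s' < G.len e) (h : dpt e b s = dpt e b s') : s' = s := by
  rcases h0.lt_or_eq with hs | hs
  · obtain ⟨-, -, h2 | h2⟩ := dpt_eq hs h1 h0' h1' h
    · exact h2.2
    · exfalso
      cases b <;> simp at h2
  · rcases h0'.lt_or_eq with hs' | hs'
    · obtain ⟨-, h2, -⟩ := dpt_eq hs' h1' h0 h1 h.symm
      linarith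
    · rw [← hs, ← hs']

/-- germs leave any given point -/
theorem germ_ne (z : Pt G) (e : G.E) (b : Bool) (r : ℝ) (h0 : 0 ≤ r) (h1 : r < G.len e) :
    ∃ δ : ℝ, 0 < δ ∧ δ ≤ G.len e - r ∧ ∀ h, 0 < h → h < δ → dpt e b (r + h) ≠ z := by
  by_cases hex : ∃ h, 0 < h ∧ h < G.len e - r ∧ dpt e b (r + h) = z
  · obtain ⟨k, k0, k1, hk⟩ := hex
    refine ⟨k, k0, k1.le, fun h hh0 hh1 heq => ?_⟩
    have := dpt_inj (by linarith) (by linarith) (by linarith) (by linarith) (heq.trans hk.symm)
    linarith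
  · push Not at hex
    exact ⟨G.len e - r, by linarith, le_rfl, fun h hh0 hh1 => hex h hh0 hh1⟩

end Pool.Agent.Q46.Prym
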