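import Pool.Agent.Q46.PrymC

/-!
# The structure forced by a relation `p - ιp ~ q - ιq`
-/

namespace Pool.Agent.Q46.Prym

variable {G : MGraph}

open Classical in
/-- indicator of a point -/
noncomputable def kd (a x : Pt G) : ℤ := if a = x then 1 else 0

open Classical in
theorem kd_self (a : Pt G) : kd a a = 1 := if_pos rfl

theorem kd_ne {a x : Pt G} (h : a ≠ x) : kd a x = 0 := if_neg h

theorem sum_kd (T : Finset (Pt G)) (a : Pt G) (ha : a ∈ T) (P : Pt G → Prop)
    [DecidablePred P] :
    ∑ x ∈ T, (if P x then kd a x else 0) = if P a then 1 else 0 := by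
  rw [Finset.sum_eq_single a]
  · rw [kd_self]
  · intro x _ hx
    rw [kd_ne hx.symm, ite_self]
  · intro h
    exact absurd ha h

theorem up_pos {σ : G.E → Bool → ℝ → ℤ} {x : Pt G} {e : G.E} {b : Bool} {r : ℝ}
    (h0 : 0 ≤ r) (h1 : r < G.len e) (h2 : dpt e b r = x) (hs : 0 < σ e b r) : 0 < up σ x := by
  rcases (up_nonneg σ x).lt_or_eq with h | h
  · exact h
  · have := up_eq_zero h.symm h0 h1 h2
    omega

theorem exists_up {σ : G.E → Bool → ℝ → ℤ} {x : Pt G} (h : 0 < up σ x) :
    ∃ (e : G.E) (b : Bool) (r : ℝ), 0 ≤ r ∧ r < G.len e ∧ dpt e b r = x ∧ 0 < σ e b r := by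
  by_contra hno
  push Not at hno
  have : up σ x ≤ 0 := by
    unfold up
    apply Finset.sum_nonpos
    rintro ⟨e, b, r⟩ hd
    obtain ⟨h0, h1, h2⟩ := mem_dirs' hd
    exact max_le (hno e b r h0 h1 h2) le_rfl
  omega

/-- if `up σ x = 1` the up direction is unique and has slope one -/
theorem up_one {σ : G.E → Bool → ℝ → ℤ} {x : Pt G} (h : up σ x = 1)
    {e e' : G.E} {b b' : Bool} {r r' : ℝ}
    (h0 : 0 ≤ r) (h1 : r < G.len e) (h2 : dpt e b r = x) (hs : 0 < σ e b r)
    (h0' : 0 ≤ r') (h1' : r' < G.len e') (h2' : dpt e' b' r' = x) (hs' : 0 < σ e' b' r') :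
    (e', b', r') = (e, b, r) ∧ σ e b r = 1 := by
  classical
  have hd : (e, b, r) ∈ dirs x := (mem_dirs x e b r).mpr ⟨h0, h1, h2⟩
  have hd' : (e', b', r') ∈ dirs x := (mem_dirs x e' b' r').mpr ⟨h0', h1', h2'⟩
  unfold up at h
  have hle : ∀ S ⊆ dirs x, ∑ d ∈ S, max (σ d.1 d.2.1 d.2.2) 0 ≤ 1 := by
    intro S hS
    rw [← h]
    exact Finset.sum_le_sum_of_subset_of_nonneg hS (fun _ _ _ => le_max_right _ _)
  constructor
  · by_contra hne
    have := hle {(e', b', r'), (e, b, r)} (by
      intro y hy
      simp only [Finset.mem_insert, Finset.mem_singleton] at hy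
      rcases hy with rfl | rfl
      · exact hd'
      · exact hd)
    rw [Finset.sum_pair hne] at this
    simp only at this
    rw [max_eq_left hs.le, max_eq_left hs'.le] at this
    omega
  · have := hle {(e, b, r)} (by
      intro y hy
      rw [Finset.mem_singleton] at hy
      rw [hy]
      exact hd)
    rw [Finset.sum_singleton] at this
    simp only at this
    rw [max_eq_left hs.le] at this
    omega

/-- The data extracted from a relation. -/
structure Rel (i : FreeInv G) (f : Pt G → ℝ) (σ : G.E → Bool → ℝ → ℤ) (z : Pt G) : Prop where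
  pl : IsPL f σ
  anti : ∀ x, f (i.inv x) = - f x
  zero : ∀ x, f x = 0 ↔ x = z ∨ x = i.inv z
  slope_ne : ∀ e b r, 0 ≤ r → r < G.len e → dpt e b r = z → σ e b r ≠ 0
  up_z : up σ z = 1

theorem exists_rel [ConnectedSpace (Pt G)] (i : FreeInv G)
    (h2 : ∀ x : i.Base, IsPreconnected ({x}ᶜ : Set i.Base))
    {f₀ : Pt G → ℝ} {σ : G.E → Bool → ℝ → ℤ} (hf₀ : IsPL f₀ σ) {p q : Pt G} (hpq : p ≠ q)
    (hord : ∀ x, ord σ x = kd q x + kd (i.inv p) x - kd p x - kd (i.inv q) x) :
    ∃ (f : Pt G → ℝ) (z : Pt G), Rel i f σ z := by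
  classical
  -- symmetrize
  have hsum := hf₀.add (i.pl_inv hf₀)
  have hkd : ∀ a x : Pt G, kd a (i.inv x) = kd (i.inv a) x := by
    intro a x
    unfold kd
    by_cases h : a = i.inv x
    · rw [if_pos h, if_pos (by rw [h, i.inv_inv])]
    · rw [if_neg h, if_neg (fun h' => h (by rw [← h', i.inv_inv]))]
  have hsum0 : ∀ x, ord (fun e b r => σ e b r + σ (i.e e) b r) x = 0 := by
    intro x
    rw [ord_add σ (fun e b r => σ (i.e e) b r), i.ord_inv, hord, hord, hkd, hkd, hkd, hkd,
      i.inv_inv, i.inv_inv]
    ring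
  have hconst := hsum.const_of_ord hsum0
  set c := (f₀ p + f₀ (i.inv p)) / 2 with hc
  have hanti₀ : ∀ x, f₀ x + f₀ (i.inv x) = 2 * c := by
    intro x
    have := hconst x p
    rw [this, hc]
    ring
  set f : Pt G → ℝ := fun x => f₀ x - c with hfdef
  have hf : IsPL f σ := hf₀.sub_const c
  have hanti : ∀ x, f (i.inv x) = - f x := by
    intro x
    have := hanti₀ x
    simp only [hfdef]
    linarith
  have hσanti : ∀ e b r, 0 ≤ r → r < G.len e → σ (i.e e) b r = - σ e b r := by
    intro e b r h0 h1
    have h3 : IsPL (fun x => - f x) (fun e b r => σ (i.e e) b r) := by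
      have := i.pl_inv hf
      have e1 : (fun x => f (i.inv x)) = fun x => - f x := funext hanti
      rwa [e1] at this
    exact h3.slope_unique hf.neg e b r h0 h1
  have hupinv : ∀ x, up σ (i.inv x) = up (fun e b r => - σ e b r) x := by
    intro x
    rw [← i.up_inv]
    unfold up
    apply Finset.sum_congr rfl
    intro d hd
    obtain ⟨k0, k1, -⟩ := mem_dirs' hd
    simp only
    rw [hσanti _ _ _ k0 k1]
  have hordup : ∀ x, ord σ x = up σ x - up σ (i.inv x) := by
    intro x
    rw [ord_eq_up_sub, hupinv]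
  -- the degree inequality
  set U : ℤ := (if 0 < f q then 1 else 0) + (if 0 < f (i.inv p) then 1 else 0)
    - (if 0 < f p then 1 else 0) - (if 0 < f (i.inv q) then 1 else 0) with hU
  have hdeg : ∀ S : Finset (Pt G), (∀ x ∈ S, f x = 0) → ∑ x ∈ S, up σ x ≤ - U := by
    intro S hS
    obtain ⟨T, hT1, hT2⟩ := hf.pos.degree
    set T' : Finset (Pt G) := T ∪ S ∪ {p, q, i.inv p, i.inv q} with hT'
    have hTT' : T ⊆ T' := by
      intro x hx
      simp [hT', hx]
    have hST' : S ⊆ T' := by
      intro x hx
      simp [hT', hx]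
    have h1 : ∑ x ∈ T', ord (posσ f σ) x = 0 := by
      rw [← hT2]
      symm
      apply Finset.sum_subset hTT'
      intro x _ hx
      by_contra hne
      exact hx (hT1 x hne)
    have h3 : ∀ x, ord (posσ f σ) x =
        ((((if 0 < f x then kd q x else 0) + (if 0 < f x then kd (i.inv p) x else 0))
        - (if 0 < f x then kd p x else 0)) - (if 0 < f x then kd (i.inv q) x else 0)) +
        (if 0 < f x then 0 else if f x < 0 then 0 else up σ x) := by
      intro x
      rw [ord_pos]
      split_ifs
      · rw [hord]; ring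
      · ring
      · ring
    rw [Finset.sum_congr rfl (fun x _ => h3 x), Finset.sum_add_distrib, Finset.sum_sub_distrib,
      Finset.sum_sub_distrib, Finset.sum_add_distrib,
      sum_kd T' q (by simp [hT']) (fun x => 0 < f x),
      sum_kd T' (i.inv p) (by simp [hT']) (fun x => 0 < f x),
      sum_kd T' p (by simp [hT']) (fun x => 0 < f x),
      sum_kd T' (i.inv q) (by simp [hT']) (fun x => 0 < f x)] at h1
    have h4 : ∑ x ∈ S, up σ x ≤ ∑ x ∈ T', (if 0 < f x then 0 else if f x < 0 then 0
        else up σ x) := by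
      calc ∑ x ∈ S, up σ x = ∑ x ∈ S, (if 0 < f x then 0 else if f x < 0 then 0
          else up σ x) := by
            apply Finset.sum_congr rfl
            intro x hx
            rw [if_neg (by rw [hS x hx]; exact lt_irrefl _),
              if_neg (by rw [hS x hx]; exact lt_irrefl _)]
        _ ≤ _ := by
            apply Finset.sum_le_sum_of_subset_of_nonneg hST'
            intro x _ _
            split_ifs
            · exact le_rfl
            · exact le_rfl
            · exact up_nonneg _ _
    rw [hU]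
    linarith
  have hUb : - U ≤ 2 ∧ (2 ≤ - U → f p ≠ 0 ∧ f q ≠ 0) := by
    rw [hU, hanti, hanti]
    rcases lt_trichotomy (f p) 0 with hp | hp | hp <;>
    rcases lt_trichotomy (f q) 0 with hq | hq | hq <;>
    constructor <;>
    first
    | (simp [hp, hq, hp.le, hq.le, not_lt.mpr hp.le, not_lt.mpr hq.le]; done)
    | exact fun _ => ⟨hp.ne', hq.ne⟩
  -- f is not constant
  have hpne : ord σ p ≠ 0 := by
    rw [hord, kd_self, kd_ne hpq.symm, kd_ne (i.inv_ne p)]
    have : 0 ≤ kd (i.inv q) p := by
      unfold kd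
      split_ifs <;> norm_num
    omega
  have hnonzero : ∃ x, f x ≠ 0 := by
    by_contra hno
    push Not at hno
    apply hpne
    unfold ord
    apply Finset.sum_eq_zero
    rintro ⟨e, b, r⟩ hd
    obtain ⟨k0, k1, k2⟩ := mem_dirs' hd
    simp only at k0 k1 k2 ⊢
    have e1 := hf e b r k0 k1
    have e2 : HasSlope (fun t => f (dpt e b t)) r 0 :=
      ⟨1, one_pos, fun h _ _ => by simp [hno]⟩
    exact e1.unique e2
  obtain ⟨x₀, hx₀⟩ := hnonzero
  -- existence of a zero
  have hZ : ∃ z, f z = 0 := by
    by_contra hno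
    push Not at hno
    have hclopen : IsClopen {x | 0 < f x} := by
      refine ⟨⟨?_⟩, hf.isOpen_pos 0⟩
      have : ({x | 0 < f x} : Set (Pt G))ᶜ = {x | f x < 0} := by
        ext x
        simp only [Set.mem_compl_iff, Set.mem_ofPred_eq, not_lt]
        exact ⟨fun h => lt_of_le_of_ne h (hno x), le_of_lt⟩
      rw [this]
      exact hf.isOpen_neg 0
    rcases isClopen_iff.mp hclopen with h | h
    · have h3 : ∀ x, ¬ 0 < f x := by
        intro x hx
        have : x ∈ ({x | 0 < f x} : Set (Pt G)) := hx
        rw [h] at this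
        exact this
      have h4 := h3 x₀
      have h5 := h3 (i.inv x₀)
      rw [hanti] at h5
      exact hx₀ (by linarith)
    · have h3 : ∀ x, 0 < f x := by
        intro x
        have : x ∈ ({x | 0 < f x} : Set (Pt G)) := by rw [h]; trivial
        exact this
      have h4 := h3 x₀
      have h5 := h3 (i.inv x₀)
      rw [hanti] at h5
      linarith
  -- choice of z
  have hz : ∃ z, f z = 0 ∧ ∀ x, f x = 0 → x ≠ z → x ≠ i.inv z → up σ x = 0 := by
    by_cases hex : ∃ z, f z = 0 ∧ 0 < up σ z
    · obtain ⟨z, hz0, hzu⟩ := hex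
      refine ⟨z, hz0, fun x hx0 hxz hxz' => ?_⟩
      by_contra hne
      have hxu : 0 < up σ x := lt_of_le_of_ne (up_nonneg σ x) (Ne.symm hne)
      have h3 := hdeg {x, z} (by
        intro y hy
        simp only [Finset.mem_insert, Finset.mem_singleton] at hy
        rcases hy with rfl | rfl
        · exact hx0
        · exact hz0)
      rw [Finset.sum_pair hxz] at h3
      obtain ⟨hfp, hfq⟩ := hUb.2 (by omega)
      have hordz : ord σ z = 0 := by
        rw [hord, kd_ne, kd_ne, kd_ne, kd_ne]
        · ring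
        · rintro rfl; rw [hanti] at hz0; exact hfq (by linarith)
        · rintro rfl; exact hfp hz0
        · rintro rfl; rw [hanti] at hz0; exact hfp (by linarith)
        · rintro rfl; exact hfq hz0
      have h4 : up σ (i.inv z) = up σ z := by
        have := hordup z
        omega
      have h5 := hdeg {x, z, i.inv z} (by
        intro y hy
        simp only [Finset.mem_insert, Finset.mem_singleton] at hy
        rcases hy with rfl | rfl | rfl
        · exact hx0
        · exact hz0
        · rw [hanti, hz0, neg_zero])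
      rw [Finset.sum_insert (by simp [hxz, hxz']), Finset.sum_pair (i.inv_ne z).symm] at h5
      have := hUb.1
      omega
    · push Not at hex
      obtain ⟨z, hz0⟩ := hZ
      exact ⟨z, hz0, fun x hx _ _ => le_antisymm (hex x hx) (up_nonneg σ x)⟩
  obtain ⟨z, hz0, hzu⟩ := hz
  have hz0' : f (i.inv z) = 0 := by rw [hanti, hz0, neg_zero]
  -- the zero set is {z, ιz}
  have hZset : ∀ x, f x = 0 → x = z ∨ x = i.inv z := by
    by_contra hno
    push Not at hno
    obtain ⟨y, hy0, hyz, hyz'⟩ := hno
    have hopenA : IsOpen {x | f x = 0 ∧ x ≠ z ∧ x ≠ i.inv z} := by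
      apply isOpen_of_germs
      intro e b r k0 k1 hx
      simp only [Set.mem_ofPred_eq] at hx
      obtain ⟨hx0, hxz, hxz'⟩ := hx
      have hs1 := up_eq_zero (hzu _ hx0 hxz hxz') k0 k1 rfl
      have hx0' : f (i.inv (dpt e b r)) = 0 := by rw [hanti, hx0, neg_zero]
      have hs2 := up_eq_zero (hzu _ hx0' (fun h => hxz' ((i.inv_eq_iff _ _).mp h))
        (fun h => hxz (by rw [(i.inv_eq_iff _ _).mp h, i.inv_inv]))) (e := i.e e) (b := b)
        (r := r) k0 (by rw [i.len_e]; exact k1) (by rw [i.inv_dpt])
      rw [hσanti e b r k0 k1] at hs2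
      have hs : σ e b r = 0 := by omega
      obtain ⟨d1, hd1, H1⟩ := hf e b r k0 k1
      obtain ⟨d2, hd2, -, H2⟩ := germ_ne z e b r k0 k1
      obtain ⟨d3, hd3, -, H3⟩ := germ_ne (i.inv z) e b r k0 k1
      refine ⟨min d1 (min d2 d3), by positivity, fun h m0 m1 => ?_⟩
      rw [lt_min_iff, lt_min_iff] at m1
      refine ⟨?_, H2 h m0 m1.2.1, H3 h m0 m1.2.2⟩
      have := H1 h m0.le m1.1
      simp only at this
      rw [this, hx0, hs]
      simp
    have hopenB : IsOpen {x | f x ≠ 0} := by
      have : ({x | f x ≠ 0} : Set (Pt G)) = {x | 0 < f x} ∪ {x | f x < 0} := by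
        ext x
        simp only [Set.mem_ofPred_eq, Set.mem_union]
        constructor
        · intro h
          rcases lt_or_gt_of_ne h with h | h
          · exact Or.inr h
          · exact Or.inl h
        · rintro (h | h)
          · exact h.ne'
          · exact h.ne
      rw [this]
      exact (hf.isOpen_pos 0).union (hf.isOpen_neg 0)
    refine i.two_conn h2 z _ _ hopenA hopenB ?_ ?_ ?_ ?_ y ⟨hy0, hyz, hyz'⟩ hyz hyz' x₀ hx₀ ?_ ?_
    · rintro x ⟨h3, h4, h5⟩
      refine ⟨by rw [hanti, h3, neg_zero], fun h => h5 ((i.inv_eq_iff _ _).mp h),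
        fun h => h4 (by rw [(i.inv_eq_iff _ _).mp h, i.inv_inv])⟩
    · intro x hx
      simp only [Set.mem_ofPred_eq] at hx ⊢
      rw [hanti]
      exact neg_ne_zero.mpr hx
    · intro x hxz hxz'
      by_cases h : f x = 0
      · exact Or.inl ⟨h, hxz, hxz'⟩
      · exact Or.inr h
    · rintro x _ _ ⟨h3, -, -⟩ h4
      exact h4 h3
    · rintro rfl
      exact hx₀ hz0
    · rintro rfl
      exact hx₀ hz0'
  -- slopes at z and ιz do not vanish
  have hslope : ∀ w, f w = 0 → ∀ e b r, 0 ≤ r → r < G.len e → dpt e b r = w →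
      σ e b r ≠ 0 := by
    intro w hw e b r k0 k1 k2 hs
    obtain ⟨d1, hd1, H1⟩ := hf e b r k0 k1
    obtain ⟨d2, hd2, -, H2⟩ := germ_ne z e b r k0 k1
    obtain ⟨d3, hd3, -, H3⟩ := germ_ne (i.inv z) e b r k0 k1
    have hmin : 0 < min d1 (min d2 d3) / 2 := by positivity
    have hlt : min d1 (min d2 d3) / 2 < min d1 (min d2 d3) := by linarith
    rw [lt_min_iff, lt_min_iff] at hlt
    have := H1 _ hmin.le hlt.1
    simp only at this
    rw [k2, hw, hs] at this
    simp only [Int.cast_zero, zero_mul, add_zero] at this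
    rcases hZset _ this with h | h
    · exact H2 _ hmin hlt.2.1 h
    · exact H3 _ hmin hlt.2.2 h
  -- there is a down direction at each zero
  have hdown : ∀ w, f w = 0 → 0 < up σ (i.inv w) := by
    intro w hw
    by_contra hno
    have hno' : up σ (i.inv w) = 0 := le_antisymm (not_lt.mp hno) (up_nonneg _ _)
    have hw' : f (i.inv w) = 0 := by rw [hanti, hw, neg_zero]
    have hww : ∀ x, f x = 0 → x = w ∨ x = i.inv w := by
      intro x hx
      rcases hZset w hw with h | h
      · rcases hZset x hx with h' | h'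
        · exact Or.inl (by rw [h, h'])
        · exact Or.inr (by rw [h, h'])
      · rcases hZset x hx with h' | h'
        · exact Or.inr (by rw [h, h', i.inv_inv])
        · exact Or.inl (by rw [h, h'])
    -- slopes at w are positive, at ιw negative
    have hsneg : ∀ e b r, 0 ≤ r → r < G.len e → dpt e b r = i.inv w → σ e b r < 0 := by
      intro e b r k0 k1 k2
      exact lt_of_le_of_ne (up_eq_zero hno' k0 k1 k2) (hslope _ hw' e b r k0 k1 k2)
    have hspos : ∀ e b r, 0 ≤ r → r < G.len e → dpt e b r = w → 0 < σ e b r := by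
      intro e b r k0 k1 k2
      have := hsneg (i.e e) b r k0 (by rw [i.len_e]; exact k1) (by rw [← i.inv_dpt, k2])
      rw [hσanti e b r k0 k1] at this
      omega
    have hopenA : IsOpen {x | 0 < f x ∨ x = w} := by
      apply isOpen_of_germs
      intro e b r k0 k1 hx
      by_cases hxw : dpt e b r = w
      · obtain ⟨d1, hd1, H1⟩ := hf e b r k0 k1
        refine ⟨d1, hd1, fun h m0 m1 => Or.inl ?_⟩
        have := H1 h m0.le m1
        simp only at this
        rw [this, hxw, hw, zero_add]
        have : (0 : ℝ) < (σ e b r : ℝ) := by exact_mod_cast hspos e b r k0 k1 hxw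
        positivity
      · have hx' : 0 < f (dpt e b r) := by
          rcases hx with h | h
          · exact h
          · exact absurd h hxw
        obtain ⟨d, hd, H⟩ := hf.germ_close e b r k0 k1 _ hx'
        refine ⟨d, hd, fun h m0 m1 => Or.inl ?_⟩
        have := H h m0.le m1
        rw [abs_lt] at this
        linarith [this.1]
    have hopenB : IsOpen {x | f x < 0 ∨ x = i.inv w} := by
      apply isOpen_of_germs
      intro e b r k0 k1 hx
      by_cases hxw : dpt e b r = i.inv w
      · obtain ⟨d1, hd1, H1⟩ := hf e b r k0 k1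
        refine ⟨d1, hd1, fun h m0 m1 => Or.inl ?_⟩
        have := H1 h m0.le m1
        simp only at this
        rw [this, hxw, hw', zero_add]
        have : (σ e b r : ℝ) < 0 := by exact_mod_cast hsneg e b r k0 k1 hxw
        nlinarith
      · have hx' : 0 < - f (dpt e b r) := by
          rcases hx with h | h
          · linarith
          · exact absurd h hxw
        obtain ⟨d, hd, H⟩ := hf.germ_close e b r k0 k1 _ hx'
        refine ⟨d, hd, fun h m0 m1 => Or.inl ?_⟩
        have := H h m0.le m1
        rw [abs_lt] at this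
        linarith [this.2]
    have hclopen : IsClopen {x | 0 < f x ∨ x = w} := by
      refine ⟨⟨?_⟩, hopenA⟩
      have : ({x | 0 < f x ∨ x = w} : Set (Pt G))ᶜ = {x | f x < 0 ∨ x = i.inv w} := by
        ext x
        simp only [Set.mem_compl_iff, Set.mem_ofPred_eq, not_or, not_lt]
        constructor
        · rintro ⟨h3, h4⟩
          rcases h3.lt_or_eq with h5 | h5
          · exact Or.inl h5
          · rcases hww x h5 with h6 | h6
            · exact absurd h6 h4
            · exact Or.inr h6
        · rintro (h3 | h3)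
          · exact ⟨h3.le, fun h => by rw [h, hw] at h3; exact lt_irrefl _ h3⟩
          · exact ⟨by rw [h3, hw'], fun h => i.inv_ne w (by rw [← h3, h])⟩
      rw [this]
      exact hopenB
    rcases isClopen_iff.mp hclopen with h | h
    · have : w ∈ ({x | 0 < f x ∨ x = w} : Set (Pt G)) := Or.inr rfl
      rw [h] at this
      exact this
    · have : i.inv w ∈ ({x | 0 < f x ∨ x = w} : Set (Pt G)) := by rw [h]; trivial
      rcases this with h3 | h3
      · rw [hw'] at h3
        exact lt_irrefl _ h3
      · exact i.inv_ne w h3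
  have h3 := hdown z hz0
  have h4 := hdown (i.inv z) hz0'
  rw [i.inv_inv] at h4
  have h5 := hdeg {z, i.inv z} (by
    intro y hy
    simp only [Finset.mem_insert, Finset.mem_singleton] at hy
    rcases hy with rfl | rfl
    · exact hz0
    · exact hz0')
  rw [Finset.sum_pair (i.inv_ne z).symm] at h5
  have h6 := hUb.1
  refine ⟨f, z, hf, hanti, fun x => ⟨hZset x, ?_⟩, hslope z hz0, by omega⟩
  rintro (rfl | rfl)
  · exact hz0
  · exact hz0'

end Pool.Agent.Q46.Prym
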