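import Pool.Agent.Q46.PrymD

/-!
# An infinite fibre
-/

namespace Pool.Agent.Q46.Prym

variable {G : MGraph}

/-- germs avoid a closed segment not containing their base point -/
theorem germ_seg (e : G.E) (b : Bool) (r₀ τ : ℝ) (h0 : 0 ≤ r₀) (hτ : 0 < τ)
    (h1 : r₀ + τ < G.len e) (e' : G.E) (b' : Bool) (r' : ℝ) (h0' : 0 ≤ r') (h1' : r' < G.len e')
    (hno : ∀ h, 0 ≤ h → h ≤ τ → dpt e' b' r' ≠ dpt e b (r₀ + h)) :
    ∃ δ : ℝ, 0 < δ ∧ ∀ k, 0 < k → k < δ → ∀ h, 0 ≤ h → h ≤ τ →
      dpt e' b' (r' + k) ≠ dpt e b (r₀ + h) := by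
  by_cases hee : e' = e
  swap
  · refine ⟨G.len e' - r', by linarith, fun k k0 k1 h m0 m1 heq => ?_⟩
    have := dpt_eq (by linarith) (by linarith) (by linarith) (by linarith) heq
    exact hee this.1.symm
  subst hee
  by_cases hbb : b' = b
  · subst hbb
    rcases lt_or_ge r' r₀ with hr | hr
    · refine ⟨r₀ - r', by linarith, fun k k0 k1 h m0 m1 heq => ?_⟩
      have := dpt_inj (by linarith) (by linarith) (by linarith) (by linarith) heq
      linarith
    · rcases le_or_gt r' (r₀ + τ) with hr2 | hr2
      · exfalso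
        apply hno (r' - r₀) (by linarith) (by linarith)
        congr 1
        ring
      · refine ⟨G.len e' - r', by linarith, fun k k0 k1 h m0 m1 heq => ?_⟩
        have := dpt_inj (by linarith) (by linarith) (by linarith) (by linarith) heq
        linarith
  · have hb : b' = !b := by
      cases b <;> cases b' <;> simp at hbb ⊢
    subst hb
    have hs : ∀ k, dpt e' (!b) (r' + k) = dpt e' b (G.len e' - r' - k) := by
      intro k
      rw [dpt_not]
      congr 1
      ring
    have hs0 : dpt e' (!b) r' = dpt e' b (G.len e' - r') := by rw [dpt_not]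
    rcases lt_or_ge (r₀ + τ) (G.len e' - r') with hr | hr
    · refine ⟨G.len e' - r' - (r₀ + τ), by linarith, fun k k0 k1 h m0 m1 heq => ?_⟩
      rw [hs] at heq
      have := dpt_inj (by linarith) (by linarith) (by linarith) (by linarith) heq
      linarith
    · rcases le_or_gt r₀ (G.len e' - r') with hr2 | hr2
      · exfalso
        apply hno (G.len e' - r' - r₀) (by linarith) (by linarith)
        rw [hs0]
        congr 1
        ring
      · refine ⟨G.len e' - r', by linarith, fun k k0 k1 h m0 m1 heq => ?_⟩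
        rw [hs] at heq
        have := dpt_inj (by linarith) (by linarith) (by linarith) (by linarith) heq
        linarith

open Classical in
/-- slopes along a segment -/
noncomputable def kap (e : G.E) (b : Bool) (r₀ τ : ℝ) (e' : G.E) (b' : Bool) (r' : ℝ) : ℤ :=
  (if e' = e ∧ b' = b ∧ r₀ ≤ r' ∧ r' < r₀ + τ then 1 else 0) -
  (if e' = e ∧ b' = (!b) ∧ G.len e - (r₀ + τ) ≤ r' ∧ r' < G.len e - r₀ then 1 else 0)

theorem ord_kap (e : G.E) (b : Bool) (r₀ τ : ℝ) (h0 : 0 ≤ r₀) (hτ : 0 < τ)
    (h1 : r₀ + τ < G.len e) (x : Pt G) :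
    ord (kap e b r₀ τ) x = kd (dpt e b r₀) x - kd (dpt e b (r₀ + τ)) x := by
  classical
  have hsplit : ord (kap e b r₀ τ) x =
      (∑ d ∈ dirs x, if (d.1 = e ∧ d.2.1 = b ∧ r₀ ≤ d.2.2 ∧ d.2.2 < r₀ + τ) then (1 : ℤ) else 0)
      - ∑ d ∈ dirs x, if (d.1 = e ∧ d.2.1 = (!b) ∧ G.len e - (r₀ + τ) ≤ d.2.2 ∧
        d.2.2 < G.len e - r₀) then (1 : ℤ) else 0 := by
    unfold ord kap
    rw [Finset.sum_sub_distrib]
  have hfwd : (∑ d ∈ dirs x, if (d.1 = e ∧ d.2.1 = b ∧ r₀ ≤ d.2.2 ∧ d.2.2 < r₀ + τ)
      then (1 : ℤ) else 0) = if (∃ h, 0 ≤ h ∧ h < τ ∧ dpt e b (r₀ + h) = x) then 1 else 0 := by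
    split_ifs with hex
    · obtain ⟨h, m0, m1, hx⟩ := hex
      rw [Finset.sum_eq_single (e, b, r₀ + h)]
      · rw [if_pos ⟨rfl, rfl, by simp only; linarith, by simp only; linarith⟩]
      · rintro ⟨e', b', r'⟩ hd hne
        rw [if_neg]
        rintro ⟨h3, h4, h5, h6⟩
        simp only at h3 h4 h5 h6
        subst h3 h4
        obtain ⟨k0, k1, k2⟩ := mem_dirs' hd
        simp only at k0 k1 k2
        have := dpt_inj (by linarith) (by linarith) k0 k1 (hx.trans k2.symm)
        exact hne (by rw [this])
      · intro hnot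
        exact absurd ((mem_dirs x e b (r₀ + h)).mpr ⟨by linarith, by linarith, hx⟩) hnot
    · apply Finset.sum_eq_zero
      rintro ⟨e', b', r'⟩ hd
      rw [if_neg]
      rintro ⟨h3, h4, h5, h6⟩
      simp only at h3 h4 h5 h6
      subst h3 h4
      obtain ⟨k0, k1, k2⟩ := mem_dirs' hd
      simp only at k0 k1 k2
      exact hex ⟨r' - r₀, by linarith, by linarith, by rw [← k2]; congr 1; ring⟩
  have hbwd : (∑ d ∈ dirs x, if (d.1 = e ∧ d.2.1 = (!b) ∧ G.len e - (r₀ + τ) ≤ d.2.2 ∧
        d.2.2 < G.len e - r₀) then (1 : ℤ) else 0)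
        = if (∃ h, 0 < h ∧ h ≤ τ ∧ dpt e b (r₀ + h) = x) then 1 else 0 := by
    have hconv : ∀ h, dpt e (!b) (G.len e - (r₀ + h)) = dpt e b (r₀ + h) := by
      intro h
      rw [dpt_not]
      congr 1
      ring
    split_ifs with hex
    · obtain ⟨h, m0, m1, hx⟩ := hex
      rw [Finset.sum_eq_single (e, (!b), G.len e - (r₀ + h))]
      · rw [if_pos ⟨rfl, rfl, by simp only; linarith, by simp only; linarith⟩]
      · rintro ⟨e', b', r'⟩ hd hne
        rw [if_neg]
        rintro ⟨h3, h4, h5, h6⟩
        simp only at h3 h4 h5 h6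
        subst h3 h4
        obtain ⟨k0, k1, k2⟩ := mem_dirs' hd
        simp only at k0 k1 k2
        have := dpt_inj (by linarith) (by linarith) k0 k1 (((hconv h).trans hx).trans k2.symm)
        exact hne (by rw [this])
      · intro hnot
        exact absurd ((mem_dirs x e (!b) (G.len e - (r₀ + h))).mpr
          ⟨by linarith, by linarith, (hconv h).trans hx⟩) hnot
    · apply Finset.sum_eq_zero
      rintro ⟨e', b', r'⟩ hd
      rw [if_neg]
      rintro ⟨h3, h4, h5, h6⟩
      simp only at h3 h4 h5 h6
      subst h3 h4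
      obtain ⟨k0, k1, k2⟩ := mem_dirs' hd
      simp only at k0 k1 k2
      exact hex ⟨G.len e' - r' - r₀, by linarith, by linarith, by
        rw [← k2, dpt_not]; congr 1; ring⟩
  rw [hsplit, hfwd, hbwd]
  unfold kd
  by_cases hx : ∃ h, 0 ≤ h ∧ h ≤ τ ∧ dpt e b (r₀ + h) = x
  · obtain ⟨h, m0, m1, hxe⟩ := hx
    have huniq : ∀ h', 0 ≤ h' → h' ≤ τ → (dpt e b (r₀ + h') = x ↔ h' = h) := by
      intro h' n0 n1
      constructor
      · intro h3
        have := dpt_inj (by linarith) (by linarith) (by linarith) (by linarith)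
          (hxe.trans h3.symm)
        linarith
      · rintro rfl
        exact hxe
    have e1 : (∃ h, 0 ≤ h ∧ h < τ ∧ dpt e b (r₀ + h) = x) ↔ h < τ := by
      constructor
      · rintro ⟨h', n0, n1, h3⟩
        rw [huniq h' n0 n1.le] at h3
        rwa [← h3]
      · intro h3
        exact ⟨h, m0, h3, hxe⟩
    have e2 : (∃ h, 0 < h ∧ h ≤ τ ∧ dpt e b (r₀ + h) = x) ↔ 0 < h := by
      constructor
      · rintro ⟨h', n0, n1, h3⟩
        rw [huniq h' n0.le n1] at h3
        rwa [← h3]
      · intro h3
        exact ⟨h, h3, m1, hxe⟩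
    have e3 : (dpt e b r₀ = x) ↔ h = 0 := by
      have := huniq 0 le_rfl hτ.le
      rw [add_zero] at this
      rw [this, eq_comm]
    have e4 : (dpt e b (r₀ + τ) = x) ↔ h = τ := by
      rw [huniq τ hτ.le le_rfl, eq_comm]
    simp only [e1, e2, e3, e4]
    rcases m0.lt_or_eq with g1 | g1
    · rcases m1.lt_or_eq with g2 | g2
      · simp [g1, g2, g1.ne', g2.ne]
      · subst g2
        simp [g1, g1.ne']
    · subst g1
      simp [hτ, hτ.ne]
  · rw [if_neg, if_neg, if_neg, if_neg]
    · intro h3
      exact hx ⟨τ, hτ.le, le_rfl, h3⟩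
    · intro h3
      exact hx ⟨0, le_rfl, hτ.le, by rw [add_zero, h3]⟩
    · rintro ⟨h, g1, g2, g3⟩
      exact hx ⟨h, g1.le, g2, g3⟩
    · rintro ⟨h, g1, g2, g3⟩
      exact hx ⟨h, g1, g2.le, g3⟩

open Classical in
/-- the function moving `z` along the segment -/
noncomputable def mov (i : FreeInv G) (f : Pt G → ℝ) (z : Pt G) (e : G.E) (b : Bool)
    (r₀ τ : ℝ) (y : Pt G) : ℝ :=
  if 0 < f y then (if ∃ h, 0 < h ∧ h < τ ∧ dpt e b (r₀ + h) = y then f y else τ)
  else if f y < 0 then (if ∃ h, 0 < h ∧ h < τ ∧ dpt e b (r₀ + h) = i.inv y then τ + f y else 0)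
  else if y = z then 0 else τ

theorem mov_anti (i : FreeInv G) {f : Pt G → ℝ} {σ : G.E → Bool → ℝ → ℤ} {z : Pt G}
    (R : Rel i f σ z) (e : G.E) (b : Bool) (r₀ τ : ℝ) (y : Pt G) :
    mov i f z e b r₀ τ (i.inv y) = τ - mov i f z e b r₀ τ y := by
  classical
  unfold mov
  rw [R.anti, i.inv_inv]
  rcases lt_trichotomy (f y) 0 with hy | hy | hy
  · rw [if_pos (by linarith : 0 < - f y), if_neg (not_lt.mpr hy.le), if_pos hy]
    split_ifs <;> ring
  · rw [hy, neg_zero, if_neg (lt_irrefl _), if_neg (lt_irrefl _)]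
    rcases (R.zero y).mp hy with rfl | rfl
    · rw [if_neg (i.inv_ne y), if_neg (lt_irrefl _), if_neg (lt_irrefl _), if_pos rfl]
      ring
    · rw [i.inv_inv, if_pos rfl, if_neg (lt_irrefl _), if_neg (lt_irrefl _),
        if_neg (i.inv_ne z)]
      ring
  · rw [if_neg (by linarith : ¬ 0 < - f y), if_pos (by linarith : - f y < 0), if_pos hy]
    split_ifs <;> ring

theorem mov_pl (i : FreeInv G) {f : Pt G → ℝ} {σ : G.E → Bool → ℝ → ℤ} {z : Pt G}
    (R : Rel i f σ z) (e : G.E) (b : Bool) (r₀ τ₀ : ℝ) (h0 : 0 ≤ r₀) (h1 : r₀ < G.len e)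
    (hz : dpt e b r₀ = z) (hσ : σ e b r₀ = 1) (hτ₁ : r₀ + τ₀ ≤ G.len e)
    (hlin : ∀ h, 0 ≤ h → h < τ₀ → f (dpt e b (r₀ + h)) = h)
    (τ : ℝ) (hτ : 0 < τ) (hττ : τ < τ₀) :
    IsPL (mov i f z e b r₀ τ)
      (fun e' b' r' => kap e b r₀ τ e' b' r' - kap e b r₀ τ (i.e e') b' r') := by
  classical
  have hfz : f z = 0 := (R.zero z).mpr (Or.inl rfl)
  have hfz' : f (i.inv z) = 0 := (R.zero _).mpr (Or.inr rfl)
  -- half one: `kap` vanishes on the swapped edge
  have half1 : ∀ e' b' r', 0 ≤ r' → r' < G.len e' →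
      (0 < f (dpt e' b' r') ∨ dpt e' b' r' = z) → kap e b r₀ τ (i.e e') b' r' = 0 := by
    intro e' b' r' k0 k1 hy
    unfold kap
    rw [if_neg, if_neg, sub_zero]
    · rintro ⟨h3, h4, h5, h6⟩
      have hval : i.inv (dpt e' b' r') = dpt e b (r₀ + (G.len e - r' - r₀)) := by
        rw [i.inv_dpt, h3, h4, dpt_not]
        congr 1
        ring
      have h7 := hlin (G.len e - r' - r₀) (by linarith) (by linarith)
      rw [← hval, R.anti] at h7
      rcases hy with hy | hy
      · linarith
      · rw [hy, hfz] at h7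
        linarith
    · rintro ⟨h3, h4, h5, h6⟩
      have hval : i.inv (dpt e' b' r') = dpt e b (r₀ + (r' - r₀)) := by
        rw [i.inv_dpt, h3, h4]
        congr 1
        ring
      have h7 := hlin (r' - r₀) (by linarith) (by linarith)
      rw [← hval, R.anti] at h7
      rcases hy with hy | hy
      · linarith
      · rw [hy, hfz] at h7
        have h8 : r' - r₀ = 0 := by linarith
        rw [hy, h8, add_zero, hz] at hval
        exact i.inv_ne z hval
  -- half two: slopes of the function
  have half2 : ∀ e' b' r', 0 ≤ r' → r' < G.len e' →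
      (0 < f (dpt e' b' r') ∨ dpt e' b' r' = z) →
      HasSlope (fun t => mov i f z e b r₀ τ (dpt e' b' t)) r' (kap e b r₀ τ e' b' r') := by
    intro e' b' r' k0 k1 hy
    obtain ⟨dc, hdc, Hc⟩ := R.pl e' b' r' k0 k1
    simp only at Hc
    rcases hy with hy | hy
    · by_cases hcl : ∃ h, 0 ≤ h ∧ h ≤ τ ∧ dpt e b (r₀ + h) = dpt e' b' r'
      · -- on the closed segment, but not `z`
        obtain ⟨h₀, m0, m1, hbase⟩ := hcl
        have hval : f (dpt e' b' r') = h₀ := by
          rw [← hbase]; exact hlin h₀ m0 (by linarith)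
        have hpos : 0 < h₀ := by rw [← hval]; exact hy
        obtain ⟨hee, hr'pos, hcase⟩ := dpt_eq (by linarith) (by linarith) k0 k1 hbase
        subst hee
        have hval0 : mov i f z e' b r₀ τ (dpt e' b' r') = h₀ := by
          unfold mov
          rw [if_pos hy]
          split_ifs with h3
          · exact hval
          · rcases m1.lt_or_eq with g | g
            · exact absurd ⟨h₀, hpos, g, hbase⟩ h3
            · exact g.symm
        have hmovin : ∀ h, 0 < h → h < τ → mov i f z e' b r₀ τ (dpt e' b (r₀ + h)) = h := by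
          intro h n0 n1
          have g1 := hlin h n0.le (by linarith)
          unfold mov
          rw [if_pos (by rw [g1]; exact n0), if_pos ⟨h, n0, n1, rfl⟩, g1]
        have hmovout : ∀ h, τ ≤ h → h < τ₀ →
            mov i f z e' b r₀ τ (dpt e' b (r₀ + h)) = τ := by
          intro h n0 n1
          have g1 := hlin h (by linarith) n1
          unfold mov
          rw [if_pos (by rw [g1]; linarith), if_neg]
          rintro ⟨h', p0, p1, p2⟩
          have := dpt_inj (by linarith) (by linarith) (by linarith) (by linarith) p2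
          linarith
        rcases hcase with ⟨hb, hr⟩ | ⟨hb, hr⟩
        · subst hb hr
          rcases m1.lt_or_eq with g | g
          · have hk : kap e' b' r₀ τ e' b' (r₀ + h₀) = 1 := by
              unfold kap
              rw [if_pos ⟨rfl, rfl, by linarith, by linarith⟩, if_neg (by
                rintro ⟨-, h4, -⟩
                cases b' <;> simp at h4), sub_zero]
            rw [hk]
            refine ⟨τ - h₀, by linarith, fun h n0 n1 => ?_⟩
            simp only
            rw [add_assoc, hmovin (h₀ + h) (by linarith) (by linarith), hval0]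
            push_cast
            ring
          · have hk : kap e' b' r₀ τ e' b' (r₀ + h₀) = 0 := by
              unfold kap
              rw [if_neg (by rintro ⟨-, -, -, h4⟩; linarith), if_neg (by
                rintro ⟨-, h4, -⟩
                cases b' <;> simp at h4), sub_zero]
            rw [hk]
            refine ⟨τ₀ - h₀, by linarith, fun h n0 n1 => ?_⟩
            simp only
            rw [add_assoc, hmovout (h₀ + h) (by linarith) (by linarith), hval0, g]
            simp
        · subst hb hr
          have hk : kap e' b r₀ τ e' (!b) (G.len e' - (r₀ + h₀)) = -1 := by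
            unfold kap
            rw [if_neg (by
                rintro ⟨-, h4, -⟩
                cases b <;> simp at h4), if_pos ⟨rfl, rfl, by linarith, by linarith⟩]
            norm_num
          rw [hk]
          refine ⟨h₀, hpos, fun h n0 n1 => ?_⟩
          simp only
          have hconv : dpt e' (!b) (G.len e' - (r₀ + h₀) + h) = dpt e' b (r₀ + (h₀ - h)) := by
            rw [dpt_not]
            congr 1
            ring
          rcases n0.lt_or_eq with n0 | n0
          · rw [hconv, hmovin (h₀ - h) (by linarith) (by linarith), hval0]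
            push_cast
            ring
          · subst n0
            rw [add_zero]
            simp
      · -- away from the closed segment
        push Not at hcl
        have hk : kap e b r₀ τ e' b' r' = 0 := by
          unfold kap
          rw [if_neg, if_neg, sub_zero]
          · rintro ⟨h3, h4, h5, h6⟩
            subst h3 h4
            apply hcl (G.len e' - r' - r₀) (by linarith) (by linarith)
            rw [dpt_not]
            congr 1
            ring
          · rintro ⟨h3, h4, h5, h6⟩
            subst h3 h4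
            apply hcl (r' - r₀) (by linarith) (by linarith)
            congr 1
            ring
        rw [hk]
        obtain ⟨d1, hd1, H1⟩ := R.pl.germ_close e' b' r' k0 k1 _ hy
        obtain ⟨d2, hd2, H2⟩ := germ_seg e b r₀ τ h0 hτ (by linarith) e' b' r' k0 k1
          (fun h p0 p1 p2 => hcl h p0 p1 p2.symm)
        refine ⟨min d1 d2, by positivity, fun h n0 n1 => ?_⟩
        rw [lt_min_iff] at n1
        simp only [Int.cast_zero, zero_mul, add_zero]
        rcases n0.lt_or_eq with n0 | n0
        · have g1 := H1 h n0.le n1.1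
          rw [abs_lt] at g1
          have g2 : 0 < f (dpt e' b' (r' + h)) := by linarith [g1.1]
          unfold mov
          rw [if_pos g2, if_pos hy, if_neg, if_neg]
          · rintro ⟨h', p0, p1, p2⟩
            exact hcl h' p0.le p1.le p2
          · rintro ⟨h', p0, p1, p2⟩
            exact H2 h n0 n1.2 h' p0.le p1.le p2.symm
        · rw [← n0, add_zero]
    · -- at `z`
      have hs0 := R.slope_ne e' b' r' k0 k1 hy
      have hmz : mov i f z e b r₀ τ z = 0 := by
        unfold mov
        rw [hfz, if_neg (lt_irrefl _), if_neg (lt_irrefl _), if_pos rfl]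
      rw [hy, hfz] at Hc
      rcases lt_or_gt_of_ne hs0 with hs | hs
      · -- down direction
        have hne : ¬ (e' = e ∧ b' = b ∧ r' = r₀) := by
          rintro ⟨rfl, rfl, rfl⟩
          rw [hσ] at hs
          norm_num at hs
        have hk : kap e b r₀ τ e' b' r' = 0 := by
          unfold kap
          rw [if_neg, if_neg, sub_zero]
          · rintro ⟨h3, h4, h5, h6⟩
            subst h3 h4
            have h7 := hlin (G.len e' - r' - r₀) (by linarith) (by linarith)
            have hval : dpt e' (!b) r' = dpt e' b (r₀ + (G.len e' - r' - r₀)) := by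
              rw [dpt_not]
              congr 1
              ring
            rw [← hval, hy, hfz] at h7
            linarith
          · rintro ⟨h3, h4, h5, h6⟩
            subst h3 h4
            have h7 := hlin (r' - r₀) (by linarith) (by linarith)
            have hval : dpt e' b' r' = dpt e' b' (r₀ + (r' - r₀)) := by
              congr 1
              ring
            rw [← hval, hy, hfz] at h7
            exact hne ⟨rfl, rfl, by linarith⟩
        rw [hk]
        obtain ⟨d2, hd2, H2⟩ := germ_seg e b r₀ τ h0 hτ (by linarith) (i.e e') b' r' k0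
          (by rw [i.len_e]; exact k1) (by
            intro h p0 p1 p2
            rw [← i.inv_dpt, hy] at p2
            have g1 := hlin h p0 (by linarith)
            rw [← p2, hfz'] at g1
            rw [← g1, add_zero, hz] at p2
            exact i.inv_ne z p2)
        refine ⟨min dc d2, by positivity, fun h n0 n1 => ?_⟩
        rw [lt_min_iff] at n1
        simp only [Int.cast_zero, zero_mul, add_zero]
        rcases n0.lt_or_eq with n0 | n0
        · have g1 := Hc h n0.le n1.1
          have g2 : f (dpt e' b' (r' + h)) < 0 := by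
            rw [g1, zero_add]
            have : (σ e' b' r' : ℝ) < 0 := by exact_mod_cast hs
            nlinarith
          rw [hy, hmz]
          unfold mov
          rw [if_neg (not_lt.mpr g2.le), if_pos g2, if_neg]
          rintro ⟨h', p0, p1, p2⟩
          rw [i.inv_dpt] at p2
          exact H2 h n0 n1.2 h' p0.le p1.le p2.symm
        · rw [← n0, add_zero]
      · -- up direction: it is the given one
        obtain ⟨huq, -⟩ := up_one R.up_z h0 h1 hz (by rw [hσ]; norm_num) k0 k1 hy hs
        simp only [Prod.mk.injEq] at huq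
        obtain ⟨rfl, rfl, rfl⟩ := huq
        have hk : kap e' b' r' τ e' b' r' = 1 := by
          unfold kap
          rw [if_pos ⟨rfl, rfl, le_rfl, by linarith⟩, if_neg (by
            rintro ⟨-, h4, -⟩
            cases b' <;> simp at h4), sub_zero]
        rw [hk]
        refine ⟨τ, hτ, fun h n0 n1 => ?_⟩
        simp only
        rw [hy, hmz]
        rcases n0.lt_or_eq with n0 | n0
        · have g1 := hlin h n0.le (by linarith)
          unfold mov
          rw [if_pos (by rw [g1]; exact n0), if_pos ⟨h, n0, n1, rfl⟩, g1]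
          push_cast
          ring
        · rw [← n0, add_zero, hy, hmz]
          simp
  -- combine
  intro e' b' r' k0 k1
  by_cases hy : 0 < f (dpt e' b' r') ∨ dpt e' b' r' = z
  · have g1 := half2 e' b' r' k0 k1 hy
    have g2 := half1 e' b' r' k0 k1 hy
    simp only [g2, sub_zero]
    exact g1
  · have hy' : 0 < f (dpt (i.e e') b' r') ∨ dpt (i.e e') b' r' = z := by
      rw [← i.inv_dpt, R.anti]
      push Not at hy
      obtain ⟨g1, g2⟩ := hy
      rcases g1.lt_or_eq with g3 | g3
      · exact Or.inl (by linarith)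
      · right
        rcases (R.zero _).mp g3 with g4 | g4
        · exact absurd g4 g2
        · rw [g4, i.inv_inv]
    have k1' : r' < G.len (i.e e') := by rw [i.len_e]; exact k1
    have g1 := half2 (i.e e') b' r' k0 k1' hy'
    have g2 := half1 (i.e e') b' r' k0 k1' hy'
    rw [i.e_e] at g2
    simp only [g2, zero_sub]
    obtain ⟨d, hd, H⟩ := g1
    refine ⟨d, hd, fun h n0 n1 => ?_⟩
    have g3 := H h n0 n1
    simp only at g3 ⊢
    rw [← i.inv_dpt, ← i.inv_dpt, mov_anti i R, mov_anti i R] at g3
    push_cast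
    linarith

theorem psi_eq_of_rel (i : FreeInv G) {f : Pt G → ℝ} {σ : G.E → Bool → ℝ → ℤ} {z : Pt G}
    (R : Rel i f σ z) (hfin : (psi i ⁻¹' {psi i z}).Finite) : False := by
  classical
  obtain ⟨e, b, r₀, h0, h1, hz, hs⟩ := exists_up (x := z) (σ := σ) (by rw [R.up_z]; norm_num)
  have hσ : σ e b r₀ = 1 := (up_one R.up_z h0 h1 hz hs h0 h1 hz hs).2
  have hfz : f z = 0 := (R.zero z).mpr (Or.inl rfl)
  obtain ⟨d, hd, H⟩ := R.pl e b r₀ h0 h1
  simp only at H
  rw [hz, hfz, hσ] at H
  set τ₀ := min d (G.len e - r₀) with hτ₀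
  have hτ₀pos : 0 < τ₀ := lt_min hd (by linarith)
  have hd1 : τ₀ ≤ d := min_le_left _ _
  have hd2 : τ₀ ≤ G.len e - r₀ := min_le_right _ _
  have hlin : ∀ h, 0 ≤ h → h < τ₀ → f (dpt e b (r₀ + h)) = h := by
    intro h g0 g1
    rw [H h g0 (by linarith)]
    push_cast
    ring
  have hmaps : Set.MapsTo (fun τ => dpt e b (r₀ + τ)) (Set.Ioo 0 τ₀)
      (psi i ⁻¹' {psi i z}) := by
    rintro τ ⟨t0, t1⟩
    simp only [Set.mem_preimage, Set.mem_singleton_iff]
    have hpl := mov_pl i R e b r₀ τ₀ h0 h1 hz hσ (by linarith) hlin τ t0 t1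
    unfold psi
    rw [QuotientAddGroup.eq]
    refine ⟨_, _, hpl, ?_⟩
    intro x
    have e1 : ord (fun e' b' r' => kap e b r₀ τ e' b' r' - kap e b r₀ τ (i.e e') b' r') x =
        ord (kap e b r₀ τ) x - ord (kap e b r₀ τ) (i.inv x) := by
      have := ord_add (kap e b r₀ τ) (fun e' b' r' => - kap e b r₀ τ (i.e e') b' r') x
      rw [ord_neg (fun e' b' r' => kap e b r₀ τ (i.e e') b' r') x, i.ord_inv] at this
      simp only [sub_eq_add_neg]
      exact this
    rw [e1, ord_kap e b r₀ τ h0 t0 (by linarith), ord_kap e b r₀ τ h0 t0 (by linarith), hz]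
    simp only [Finsupp.add_apply, Finsupp.neg_apply, Finsupp.sub_apply, Finsupp.single_apply]
    unfold kd
    have e2 : ∀ a : Pt G, (a = i.inv x) ↔ (i.inv a = x) := fun a => (i.inv_eq_iff a x).symm
    simp only [e2]
    split_ifs <;> ring
  have hinj : Set.InjOn (fun τ => dpt e b (r₀ + τ)) (Set.Ioo 0 τ₀) := by
    rintro s ⟨s0, s1⟩ t ⟨t0, t1⟩ hst
    have := dpt_inj (by linarith) (by linarith) (by linarith) (by linarith) hst
    linarith
  exact Set.infinite_of_injOn_mapsTo hinj hmaps (Set.Ioo_infinite hτ₀pos) hfin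

theorem psi_injective [ConnectedSpace (Pt G)] (i : FreeInv G)
    (h2 : ∀ x : i.Base, IsPreconnected ({x}ᶜ : Set i.Base))
    (hfin : ∀ c : Pic G, (psi i ⁻¹' {c}).Finite) : Function.Injective (psi i) := by
  classical
  intro p q hpq
  by_contra hne
  unfold psi at hpq
  rw [QuotientAddGroup.eq] at hpq
  obtain ⟨f, σ, hf, hD⟩ := hpq
  obtain ⟨f', z, R⟩ := exists_rel i h2 hf hne (by
    intro x
    rw [← hD]
    simp only [Finsupp.add_apply, Finsupp.neg_apply, Finsupp.sub_apply, Finsupp.single_apply]
    unfold kd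
    split_ifs <;> ring)
  exact psi_eq_of_rel i R (hfin _)

end Pool.Agent.Q46.Prym
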