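import Mathlib

/-!
# Capped averaging of gaps on a cycle

`g t i` is the gap between the points `i` and `i + 1`; `v = min g V`.  At each time the point `i`
moves by `μ (v i - v (i-1))` with `0 ≤ μ ≤ 1/4`.  Every point is active infinitely often and an
active point moves by at least `min δ (|v i - v (i-1)|/4)`.  Then all capped gaps become equal.
-/

open Finset

set_option linter.unusedSectionVars false

namespace Pool.Agent.Q46.Ring

variable {n : ℕ} [NeZero n]

/-- the energy of a gap -/
noncomputable def phi (V g : ℝ) : ℝ := g ^ 2 / 2 - (max (g - V) 0) ^ 2 / 2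

theorem phi_nonneg (V g : ℝ) (hV : 0 ≤ V) (hg : 0 ≤ g) : 0 ≤ phi V g := by
  unfold phi
  rcases le_total (g - V) 0 with h | h
  · rw [max_eq_right h]; nlinarith [sq_nonneg g]
  · rw [max_eq_left h]; nlinarith

theorem phi_le (V a b : ℝ) :
    phi V b ≤ phi V a + min a V * (b - a) + (b - a) ^ 2 / 2 := by
  unfold phi
  rcases le_total (a - V) 0 with h | h <;> rcases le_total (b - V) 0 with h' | h'
  · rw [max_eq_right h, max_eq_right h', min_eq_left (by linarith)]; nlinarith
  · rw [max_eq_right h, max_eq_left h', min_eq_left (by linarith)]; nlinarith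
  · rw [max_eq_left h, max_eq_right h', min_eq_right (by linarith)]; nlinarith
  · rw [max_eq_left h, max_eq_left h', min_eq_right (by linarith)]; nlinarith

/-- a threshold gap among `n` real numbers -/
theorem exists_threshold (v : ZMod n → ℝ) (ε : ℝ) (hε : 0 < ε) (i j : ZMod n)
    (hij : ε ≤ v j - v i) :
    ∃ θ : ℝ, (∀ k, v k ≤ θ ∨ θ + ε / n ≤ v k) ∧ v i ≤ θ ∧ θ + ε / n ≤ v j := by
  have hn : (0 : ℝ) < n := by exact_mod_cast Nat.pos_of_ne_zero (NeZero.ne n)
  have hγ : 0 < ε / n := by positivity
  by_contra hcon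
  push Not at hcon
  have key : ∀ k : Fin n, ∃ l : ZMod n, v i + k * (ε / n) < v l ∧ v l < v i + k * (ε / n) + ε / n := by
    intro k
    by_contra hk
    push Not at hk
    have h1 := hcon (v i + k * (ε / n)) (fun l => by
      by_cases hl : v l ≤ v i + k * (ε / n)
      · exact Or.inl hl
      · push Not at hl
        exact Or.inr (hk l hl)) (by
        have : 0 ≤ (k : ℝ) * (ε / n) := by positivity
        linarith)
    have h2 : ((k : ℕ) : ℝ) + 1 ≤ n := by exact_mod_cast k.2
    have h3 : (((k : ℕ) : ℝ) + 1) * (ε / n) ≤ n * (ε / n) := mul_le_mul_of_nonneg_right h2 hγ.le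
    have h4 : (n : ℝ) * (ε / n) = ε := by field_simp
    linarith
  choose f hf1 hf2 using key
  have hinj : Function.Injective f := by
    intro a b hab
    by_contra hne
    rcases lt_or_gt_of_ne hne with h | h
    · have h1 : ((a : ℕ) : ℝ) + 1 ≤ (b : ℕ) := by exact_mod_cast h
      have h2 := hf2 a
      have h3 := hf1 b
      rw [hab] at h2
      have h4 : (((a : ℕ) : ℝ) + 1) * (ε / n) ≤ ((b : ℕ) : ℝ) * (ε / n) :=
        mul_le_mul_of_nonneg_right h1 hγ.le
      linarith
    · have h1 : ((b : ℕ) : ℝ) + 1 ≤ (a : ℕ) := by exact_mod_cast h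
      have h2 := hf2 b
      have h3 := hf1 a
      rw [hab] at h3
      have h4 : (((b : ℕ) : ℝ) + 1) * (ε / n) ≤ ((a : ℕ) : ℝ) * (ε / n) :=
        mul_le_mul_of_nonneg_right h1 hγ.le
      linarith
  have hsurj : Function.Surjective f := by
    have hcard : Fintype.card (Fin n) = Fintype.card (ZMod n) := by
      rw [Fintype.card_fin, ZMod.card]
    exact ((Fintype.bijective_iff_injective_and_card f).2 ⟨hinj, hcard⟩).2
  obtain ⟨k, hk⟩ := hsurj i
  have h1 := hf1 k
  rw [hk] at h1
  have : 0 ≤ (k : ℝ) * (ε / n) := by positivity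
  linarith

theorem zmod_induct (P : ZMod n → Prop) (i : ZMod n) (h0 : P i) (hs : ∀ k, P k → P (k + 1)) :
    ∀ j, P j := by
  intro j
  have h1 : ∀ m : ℕ, P (i + m) := by
    intro m
    induction m with
    | zero => simpa using h0
    | succ m ih =>
      have := hs _ ih
      rwa [add_assoc, ← Nat.cast_succ] at this
  have h2 := h1 (j - i).val
  rwa [ZMod.natCast_zmod_val, add_sub_cancel] at h2

/-- the dynamics of the gaps -/
structure GapDyn (V δ : ℝ) (act : ℕ → Set (ZMod n)) (g μ : ℕ → ZMod n → ℝ) : Prop where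
  mu0 : ∀ t i, 0 ≤ μ t i
  mu1 : ∀ t i, μ t i ≤ 1 / 4
  idle : ∀ t i, i ∉ act t → μ t i = 0
  mv : ∀ t i, i ∈ act t → min δ (|min (g t i) V - min (g t (i - 1)) V| / 4)
    ≤ μ t i * |min (g t i) V - min (g t (i - 1)) V|
  step : ∀ t i, g (t + 1) i = g t i - μ t i * (min (g t i) V - min (g t (i - 1)) V)
    + μ t (i + 1) * (min (g t (i + 1)) V - min (g t i) V)
  pos : ∀ i, 0 < g 0 i

variable {V δ : ℝ} {act : ℕ → Set (ZMod n)} {g μ : ℕ → ZMod n → ℝ}

theorem GapDyn.gpos (hV : 0 < V) (h : GapDyn V δ act g μ) : ∀ t i, 0 < g t i := by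
  intro t
  induction t with
  | zero => exact h.pos
  | succ t ih =>
    intro i
    rw [h.step]
    have h1 : 0 < min (g t (i - 1)) V := lt_min (ih _) hV
    have h2 : 0 < min (g t (i + 1)) V := lt_min (ih _) hV
    have h3 : 0 < min (g t i) V := lt_min (ih _) hV
    have h4 : min (g t i) V ≤ g t i := min_le_left _ _
    have h5 := h.mu0 t i
    have h6 := h.mu1 t i
    have h7 := h.mu0 t (i + 1)
    have h8 := h.mu1 t (i + 1)
    nlinarith [mul_nonneg h5 h1.le, mul_nonneg h7 h2.le,
      mul_le_mul_of_nonneg_right h6 h3.le, mul_le_mul_of_nonneg_right h8 h3.le]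

/-- the total energy -/
noncomputable def energy (V : ℝ) (g : ZMod n → ℝ) : ℝ := ∑ i, phi V (g i)

theorem GapDyn.energy_step (h : GapDyn V δ act g μ) (t : ℕ) :
    energy V (g (t + 1)) ≤ energy V (g t)
      - (∑ i, μ t i * (min (g t i) V - min (g t (i - 1)) V) ^ 2) / 2 := by
  set v : ZMod n → ℝ := fun i => min (g t i) V with hv
  set m : ZMod n → ℝ := fun i => μ t i * (v i - v (i - 1)) with hm
  have h1 : ∀ i, phi V (g (t + 1) i) ≤ phi V (g t i) + v i * (m (i + 1) - m i)
      + (m (i + 1) ^ 2 + m i ^ 2) := by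
    intro i
    have h2 := phi_le V (g t i) (g (t + 1) i)
    have h3 : g (t + 1) i - g t i = m (i + 1) - m i := by
      rw [h.step, hm, hv]
      dsimp only
      rw [add_sub_cancel_right]
      ring
    rw [h3] at h2
    nlinarith [sq_nonneg (m (i + 1) + m i)]
  have h4 : energy V (g (t + 1)) ≤ energy V (g t) + (∑ i, v i * m (i + 1) - ∑ i, v i * m i)
      + (∑ i, m (i + 1) ^ 2 + ∑ i, m i ^ 2) := by
    unfold energy
    rw [← Finset.sum_sub_distrib, ← Finset.sum_add_distrib, ← Finset.sum_add_distrib,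
      ← Finset.sum_add_distrib]
    refine Finset.sum_le_sum (fun i _ => ?_)
    have := h1 i
    linarith
  have h5 : ∑ i, m (i + 1) ^ 2 = ∑ i, m i ^ 2 :=
    Equiv.sum_comp (Equiv.addRight (1 : ZMod n)) (fun i => m i ^ 2)
  have h6 : ∑ i, v i * m (i + 1) = ∑ i, v (i - 1) * m i := by
    have := Equiv.sum_comp (Equiv.addRight (1 : ZMod n)) (fun i => v (i - 1) * m i)
    simp only [Equiv.coe_addRight, add_sub_cancel_right] at this
    exact this
  rw [h5, h6] at h4
  have h7 : (∑ i, v (i - 1) * m i - ∑ i, v i * m i) + (∑ i, m i ^ 2 + ∑ i, m i ^ 2)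
      ≤ - ((∑ i, μ t i * (min (g t i) V - min (g t (i - 1)) V) ^ 2) / 2) := by
    rw [← Finset.sum_sub_distrib, ← Finset.sum_add_distrib, ← Finset.sum_add_distrib,
      Finset.sum_div, ← Finset.sum_neg_distrib]
    refine Finset.sum_le_sum (fun i _ => ?_)
    have h8 : m i = μ t i * (v i - v (i - 1)) := rfl
    have h9 : min (g t i) V - min (g t (i - 1)) V = v i - v (i - 1) := rfl
    rw [h8, h9]
    have h10 := h.mu0 t i
    have h11 := h.mu1 t i
    have h12 : 0 ≤ μ t i * (v i - v (i - 1)) ^ 2 * (1 / 4 - μ t i) := by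
      apply mul_nonneg (mul_nonneg h10 (sq_nonneg _))
      linarith
    nlinarith
  linarith

theorem GapDyn.energy_anti (h : GapDyn V δ act g μ) : Antitone (fun t => energy V (g t)) := by
  apply antitone_nat_of_succ_le
  intro t
  have h1 := h.energy_step t
  have h2 : 0 ≤ ∑ i, μ t i * (min (g t i) V - min (g t (i - 1)) V) ^ 2 :=
    Finset.sum_nonneg (fun i _ => mul_nonneg (h.mu0 t i) (sq_nonneg _))
  linarith

/-- one round: a large spread leads to a definite loss of energy -/
theorem GapDyn.round (hδ : 0 < δ) (h : GapDyn V δ act g μ)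
    (hfair : ∀ i T, ∃ t, T ≤ t ∧ i ∈ act t)
    (ε : ℝ) (hε : 0 < ε) (t : ℕ) (i j : ZMod n) (hij : ε ≤ min (g t j) V - min (g t i) V) :
    ∃ s, t ≤ s ∧ energy V (g s) ≤ energy V (g t) - min δ (ε / n / 4) * (ε / n) / 2 := by
  classical
  have hn : (0 : ℝ) < n := by exact_mod_cast Nat.pos_of_ne_zero (NeZero.ne n)
  obtain ⟨θ, hθ, hi, hj⟩ := exists_threshold (fun k => min (g t k) V) ε hε i j hij
  set γ := ε / n with hγdef
  have hγ : 0 < γ := by positivity
  -- the low set
  let Lo : ZMod n → Prop := fun k => min (g t k) V ≤ θ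
  have hθV : θ + γ ≤ V := le_trans hj (min_le_right _ _)
  -- a boundary point exists
  obtain ⟨b, hb1, hb2⟩ : ∃ b, Lo (b - 1) ∧ ¬ Lo b := by
    by_contra hcon
    push Not at hcon
    have hall := zmod_induct Lo i hi (fun k hk => hcon (k + 1) (by rwa [add_sub_cancel_right]))
    have h1 : min (g t j) V ≤ θ := hall j
    have h2 : θ + γ ≤ min (g t j) V := hj
    linarith
  let Bd : ZMod n → Prop := fun k => ¬ (Lo (k - 1) ↔ Lo k)
  have hex : ∃ u, ∃ k, Bd k ∧ k ∈ act (t + u) := by
    obtain ⟨s, hs, hbs⟩ := hfair b t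
    refine ⟨s - t, b, ?_, ?_⟩
    · intro hiff
      exact hb2 (hiff.1 hb1)
    · rwa [Nat.add_sub_cancel' hs]
  obtain ⟨k, hkB, hk⟩ := Nat.find_spec hex
  have hmin : ∀ u, u < Nat.find hex → ∀ k, Bd k → k ∉ act (t + u) := by
    intro u hu k hkB hk
    exact Nat.find_min hex hu ⟨k, hkB, hk⟩
  set U := Nat.find hex with hU
  -- persistence
  have hpers : ∀ u, u ≤ U → ∀ l, (Lo l → min (g (t + u) l) V ≤ θ) ∧
      (¬ Lo l → θ + γ ≤ min (g (t + u) l) V) := by
    intro u
    induction u with
    | zero =>
      intro _ l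
      refine ⟨fun h => h, fun h => ?_⟩
      rcases hθ l with h1 | h1
      · exact absurd h1 h
      · exact h1
    | succ u ih =>
      intro hu l
      have ihu := ih (by omega)
      have hidle : ∀ k, Bd k → μ (t + u) k = 0 := fun k hk =>
        h.idle _ _ (hmin u (by omega) k hk)
      have hst := h.step (t + u) l
      have ha0 := h.mu0 (t + u) l
      have ha1 := h.mu1 (t + u) l
      have hc0 := h.mu0 (t + u) (l + 1)
      have hc1 := h.mu1 (t + u) (l + 1)
      constructor
      · intro hl
        have h1 := (ihu l).1 hl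
        have h2 : g (t + u) l = min (g (t + u) l) V := by
          rcases min_choice (g (t + u) l) V with h3 | h3
          · exact h3.symm
          · rw [h3] at h1; linarith
        have h3 : -(μ (t + u) l * (min (g (t + u) l) V - min (g (t + u) (l - 1)) V))
            ≤ 1 / 4 * (θ - min (g (t + u) l) V) := by
          by_cases hB : Bd l
          · rw [hidle l hB, zero_mul, neg_zero]
            exact mul_nonneg (by norm_num) (by linarith)
          · have h4 : Lo (l - 1) := by
              simp only [Bd, not_not] at hB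
              exact hB.2 hl
            have h5 := (ihu (l - 1)).1 h4
            nlinarith [mul_le_mul_of_nonneg_right ha1 (by linarith : 0 ≤ θ - min (g (t + u) l) V),
              mul_nonneg ha0 (by linarith : 0 ≤ θ - min (g (t + u) (l - 1)) V)]
        have h6 : μ (t + u) (l + 1) * (min (g (t + u) (l + 1)) V - min (g (t + u) l) V)
            ≤ 1 / 4 * (θ - min (g (t + u) l) V) := by
          by_cases hB : Bd (l + 1)
          · rw [hidle (l + 1) hB, zero_mul]
            exact mul_nonneg (by norm_num) (by linarith)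
          · have h4 : Lo (l + 1) := by
              simp only [Bd, not_not, add_sub_cancel_right] at hB
              exact hB.1 hl
            have h5 := (ihu (l + 1)).1 h4
            nlinarith [mul_le_mul_of_nonneg_right hc1 (by linarith : 0 ≤ θ - min (g (t + u) l) V),
              mul_nonneg hc0 (by linarith : 0 ≤ θ - min (g (t + u) (l + 1)) V)]
        refine le_trans (min_le_left _ _) ?_
        rw [← add_assoc, hst]
        linarith
      · intro hl
        have h1 := (ihu l).2 hl
        have h2 : min (g (t + u) l) V ≤ g (t + u) l := min_le_left _ _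
        have h3 : -(1 / 4 * (min (g (t + u) l) V - (θ + γ)))
            ≤ -(μ (t + u) l * (min (g (t + u) l) V - min (g (t + u) (l - 1)) V)) := by
          by_cases hB : Bd l
          · rw [hidle l hB, zero_mul, neg_zero]
            have := mul_nonneg (by norm_num : (0 : ℝ) ≤ 1 / 4)
              (by linarith : 0 ≤ min (g (t + u) l) V - (θ + γ))
            linarith
          · have h4 : ¬ Lo (l - 1) := by
              simp only [Bd, not_not] at hB
              exact fun h => hl (hB.1 h)
            have h5 := (ihu (l - 1)).2 h4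
            nlinarith [mul_le_mul_of_nonneg_right ha1
                (by linarith : 0 ≤ min (g (t + u) l) V - (θ + γ)),
              mul_nonneg ha0 (by linarith : 0 ≤ min (g (t + u) (l - 1)) V - (θ + γ))]
        have h6 : -(1 / 4 * (min (g (t + u) l) V - (θ + γ)))
            ≤ μ (t + u) (l + 1) * (min (g (t + u) (l + 1)) V - min (g (t + u) l) V) := by
          by_cases hB : Bd (l + 1)
          · rw [hidle (l + 1) hB, zero_mul]
            have := mul_nonneg (by norm_num : (0 : ℝ) ≤ 1 / 4)
              (by linarith : 0 ≤ min (g (t + u) l) V - (θ + γ))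
            linarith
          · have h4 : ¬ Lo (l + 1) := by
              simp only [Bd, not_not, add_sub_cancel_right] at hB
              exact fun h => hl (hB.2 h)
            have h5 := (ihu (l + 1)).2 h4
            nlinarith [mul_le_mul_of_nonneg_right hc1
                (by linarith : 0 ≤ min (g (t + u) l) V - (θ + γ)),
              mul_nonneg hc0 (by linarith : 0 ≤ min (g (t + u) (l + 1)) V - (θ + γ))]
        refine le_min ?_ hθV
        rw [← add_assoc, hst]
        linarith
  have hfin := hpers U le_rfl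
  have hD : γ ≤ |min (g (t + U) k) V - min (g (t + U) (k - 1)) V| := by
    by_cases hl : Lo k
    · have hl' : ¬ Lo (k - 1) := fun h' => hkB ⟨fun _ => hl, fun _ => h'⟩
      have h1 := (hfin k).1 hl
      have h2 := (hfin (k - 1)).2 hl'
      rw [abs_sub_comm]
      exact le_trans (by linarith) (le_abs_self _)
    · have hl' : Lo (k - 1) := by
        by_contra h'
        exact hkB ⟨fun h'' => absurd h'' h', fun h'' => absurd h'' hl⟩
      have h1 := (hfin k).2 hl
      have h2 := (hfin (k - 1)).1 hl'
      exact le_trans (by linarith) (le_abs_self _)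
  refine ⟨t + U + 1, by omega, ?_⟩
  have h1 := h.energy_step (t + U)
  have h2 : energy V (g (t + U)) ≤ energy V (g t) := h.energy_anti (Nat.le_add_right t U)
  have h3 : μ (t + U) k * (min (g (t + U) k) V - min (g (t + U) (k - 1)) V) ^ 2
      ≤ ∑ i, μ (t + U) i * (min (g (t + U) i) V - min (g (t + U) (i - 1)) V) ^ 2 :=
    Finset.single_le_sum (f := fun i => μ (t + U) i *
      (min (g (t + U) i) V - min (g (t + U) (i - 1)) V) ^ 2)
      (fun i _ => mul_nonneg (h.mu0 _ i) (sq_nonneg _)) (Finset.mem_univ k)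
  have h4 := h.mv (t + U) k hk
  have h5 : min δ (γ / 4) * γ ≤ μ (t + U) k *
      (min (g (t + U) k) V - min (g (t + U) (k - 1)) V) ^ 2 := by
    rw [← sq_abs]
    set D := |min (g (t + U) k) V - min (g (t + U) (k - 1)) V| with hDdef
    calc min δ (γ / 4) * γ ≤ min δ (D / 4) * D := by
          apply mul_le_mul _ hD hγ.le
          · exact le_min hδ.le (by positivity)
          · exact min_le_min_left _ (by linarith)
      _ ≤ (μ (t + U) k * D) * D := mul_le_mul_of_nonneg_right h4 (by positivity)
      _ = μ (t + U) k * D ^ 2 := by ring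
  linarith

/-- the spread of the capped gaps becomes and stays small -/
theorem GapDyn.spread (hV : 0 < V) (hδ : 0 < δ) (h : GapDyn V δ act g μ)
    (hfair : ∀ i T, ∃ t, T ≤ t ∧ i ∈ act t) (ε : ℝ) (hε : 0 < ε) :
    ∃ T, ∀ t, T ≤ t → ∀ i j, min (g t j) V - min (g t i) V < ε := by
  have hn : (0 : ℝ) < n := by exact_mod_cast Nat.pos_of_ne_zero (NeZero.ne n)
  by_contra hcon
  push Not at hcon
  set κ := min δ (ε / n / 4) * (ε / n) / 2 with hκ
  have hκ0 : 0 < κ := by
    have h1 : 0 < min δ (ε / n / 4) := lt_min hδ (by positivity)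
    positivity
  have hE0 : ∀ t, 0 ≤ energy V (g t) := fun t =>
    Finset.sum_nonneg (fun i _ => phi_nonneg V _ hV.le (h.gpos hV t i).le)
  have hiter : ∀ k : ℕ, ∃ t, energy V (g t) ≤ energy V (g 0) - k * κ := by
    intro k
    induction k with
    | zero => exact ⟨0, by simp⟩
    | succ k ih =>
      obtain ⟨t, ht⟩ := ih
      obtain ⟨t', ht', i, j, hij⟩ := hcon t
      obtain ⟨s, hs, hse⟩ := h.round hδ hfair ε hε t' i j hij
      have h1 : energy V (g t') ≤ energy V (g t) := h.energy_anti ht'
      refine ⟨s, ?_⟩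
      push_cast
      linarith
  obtain ⟨k, hk⟩ := exists_nat_gt (energy V (g 0) / κ)
  obtain ⟨t, ht⟩ := hiter k
  rw [div_lt_iff₀ hκ0] at hk
  have := hE0 t
  linarith

/-- conservation of the total length -/
theorem GapDyn.total (h : GapDyn V δ act g μ) (t : ℕ) : ∑ i, g t i = ∑ i, g 0 i := by
  induction t with
  | zero => rfl
  | succ t ih =>
    rw [← ih]
    have h1 : ∑ i, g (t + 1) i = ∑ i, g t i
        - ∑ i, μ t i * (min (g t i) V - min (g t (i - 1)) V)
        + ∑ i, μ t (i + 1) * (min (g t (i + 1)) V - min (g t i) V) := by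
      rw [← Finset.sum_sub_distrib, ← Finset.sum_add_distrib]
      exact Finset.sum_congr rfl (fun i _ => h.step t i)
    have h2 : ∑ i, μ t (i + 1) * (min (g t (i + 1)) V - min (g t i) V)
        = ∑ i, μ t i * (min (g t i) V - min (g t (i - 1)) V) := by
      have := Equiv.sum_comp (Equiv.addRight (1 : ZMod n))
        (fun i => μ t i * (min (g t i) V - min (g t (i - 1)) V))
      simp only [Equiv.coe_addRight, add_sub_cancel_right] at this
      exact this
    rw [h1, h2]
    ring

/-- all gaps converge to the average -/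
theorem GapDyn.converges (hV : 0 < V) (hδ : 0 < δ) (h : GapDyn V δ act g μ)
    (hfair : ∀ i T, ∃ t, T ≤ t ∧ i ∈ act t) (d : ℝ) (hd : 0 < d) (hdV : 2 * d ≤ V)
    (hsum : ∑ i, g 0 i = n * d) (ε : ℝ) (hε : 0 < ε) :
    ∃ T, ∀ t, T ≤ t → ∀ i, |g t i - d| ≤ ε := by
  have hn : (0 : ℝ) < n := by exact_mod_cast Nat.pos_of_ne_zero (NeZero.ne n)
  obtain ⟨T, hT⟩ := h.spread hV hδ hfair (min ε d) (lt_min hε hd)
  refine ⟨T, fun t ht i => ?_⟩
  have hsp := hT t ht
  have htot : ∑ i, g t i = ∑ _i : ZMod n, d := by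
    rw [h.total t, hsum, Finset.sum_const, Finset.card_univ, ZMod.card, nsmul_eq_mul]
  -- all gaps are at most V
  have hle : ∀ k, g t k ≤ V := by
    intro k
    by_contra hk
    push Not at hk
    have h1 : ∀ l, d < g t l := by
      intro l
      have h2 := hsp l k
      rw [min_eq_right hk.le] at h2
      have h3 : min (g t l) V ≤ g t l := min_le_left _ _
      have h4 : min ε d ≤ d := min_le_right _ _
      linarith
    have h5 : ∑ _i : ZMod n, d < ∑ i, g t i :=
      Finset.sum_lt_sum_of_nonempty ⟨0, Finset.mem_univ _⟩ (fun l _ => h1 l)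
    rw [htot] at h5
    exact lt_irrefl _ h5
  have hsp' : ∀ a b, g t b - g t a < ε := by
    intro a b
    have h1 := hsp a b
    rw [min_eq_left (hle a), min_eq_left (hle b)] at h1
    exact lt_of_lt_of_le h1 (min_le_left _ _)
  obtain ⟨a, ha⟩ : ∃ a, g t a ≤ d := by
    by_contra hcon
    push Not at hcon
    have h5 : ∑ _i : ZMod n, d < ∑ i, g t i :=
      Finset.sum_lt_sum_of_nonempty ⟨0, Finset.mem_univ _⟩ (fun l _ => hcon l)
    rw [htot] at h5
    exact lt_irrefl _ h5
  obtain ⟨b, hb⟩ : ∃ b, d ≤ g t b := by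
    by_contra hcon
    push Not at hcon
    have h5 : ∑ i, g t i < ∑ _i : ZMod n, d :=
      Finset.sum_lt_sum_of_nonempty ⟨0, Finset.mem_univ _⟩ (fun l _ => hcon l)
    rw [htot] at h5
    exact lt_irrefl _ h5
  rw [abs_le]
  have h1 := hsp' a i
  have h2 := hsp' i b
  constructor <;> linarith

end Pool.Agent.Q46.Ring
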