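import Mathlib
import Pool.Agent.Q46.RingA

/-!
# Points on a circle in cyclic order
-/

open Finset

set_option linter.unusedSectionVars false

namespace Pool.Agent.Q46.Ring

variable {L : ℝ} [hL : Fact (0 < L)]

/-- clockwise distance -/
noncomputable def cw (x y : AddCircle L) : ℝ := (AddCircle.equivIco L 0 (y - x) : ℝ)

theorem cw_coe (x y : AddCircle L) : ((cw x y : ℝ) : AddCircle L) = y - x :=
  (AddCircle.equivIco L 0).symm_apply_apply (y - x)

theorem cw_nonneg (x y : AddCircle L) : 0 ≤ cw x y := (AddCircle.equivIco L 0 (y - x)).2.1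

theorem cw_lt (x y : AddCircle L) : cw x y < L := by
  have := (AddCircle.equivIco L 0 (y - x)).2.2
  exact lt_of_lt_of_eq this (zero_add L)

theorem coe_inj {r s : ℝ} (hr0 : 0 ≤ r) (hrL : r < L) (hs0 : 0 ≤ s) (hsL : s < L)
    (h : (r : AddCircle L) = (s : AddCircle L)) : r = s := by
  have hr : r ∈ Set.Ico (0 : ℝ) (0 + L) := ⟨hr0, by rwa [zero_add]⟩
  have hs : s ∈ Set.Ico (0 : ℝ) (0 + L) := ⟨hs0, by rwa [zero_add]⟩
  exact (AddCircle.coe_eq_coe_iff_of_mem_Ico hr hs).1 h

theorem cw_unique {x y : AddCircle L} {r : ℝ} (h0 : 0 ≤ r) (h1 : r < L)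
    (h : (r : AddCircle L) = y - x) : cw x y = r := by
  apply coe_inj (L := L) (cw_nonneg x y) (cw_lt x y) h0 h1
  rw [cw_coe, h]

theorem coe_L : ((L : ℝ) : AddCircle L) = 0 := AddCircle.coe_period L

variable {n : ℕ} [NeZero n]

theorem sum_cycle (g : ZMod n → ℝ) (i : ZMod n) :
    ∑ l ∈ range n, g (i + (l : ZMod n)) = ∑ j, g j := by
  refine Finset.sum_bij' (fun l _ => i + (l : ZMod n)) (fun j _ => (j - i).val) ?_ ?_ ?_ ?_ ?_
  · intro l _; exact Finset.mem_univ _
  · intro j _; exact Finset.mem_range.2 (ZMod.val_lt _)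
  · intro l hl
    rw [add_sub_cancel_left, ZMod.val_natCast, Nat.mod_eq_of_lt (Finset.mem_range.1 hl)]
  · intro j _
    rw [ZMod.natCast_zmod_val, add_sub_cancel]
  · intro l _; rfl

/-- points with positive gaps which add up to the length of the circle -/
structure Ord (x : ZMod n → AddCircle L) (g : ZMod n → ℝ) : Prop where
  pos : ∀ i, 0 < g i
  rel : ∀ i, x (i + 1) = x i + ((g i : ℝ) : AddCircle L)
  sum : ∑ i, g i = L

theorem Ord.partial_sum {x : ZMod n → AddCircle L} {g : ZMod n → ℝ} (h : Ord x g) (i : ZMod n)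
    (k : ℕ) : x (i + (k : ZMod n)) = x i + ((∑ l ∈ range k, g (i + (l : ZMod n)) : ℝ) : AddCircle L) := by
  induction k with
  | zero => simp
  | succ k ih =>
    rw [Nat.cast_succ, ← add_assoc, h.rel, ih, Finset.sum_range_succ, AddCircle.coe_add, add_assoc]

/-- every other point has an arc coordinate between the right neighbour and the left neighbour -/
theorem Ord.coord {x : ZMod n → AddCircle L} {g : ZMod n → ℝ} (h : Ord x g) (i j : ZMod n)
    (hij : j ≠ i) : ∃ P : ℝ, x j = x i + (P : AddCircle L) ∧ g i ≤ P ∧ P ≤ L - g (i - 1) := by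
  have hk : (j - i).val < n := ZMod.val_lt _
  have hk0 : (j - i).val ≠ 0 := by
    rw [Ne, ZMod.val_eq_zero, sub_eq_zero]
    exact hij
  obtain ⟨k, hkk⟩ := Nat.exists_eq_succ_of_ne_zero hk0
  refine ⟨∑ l ∈ range (j - i).val, g (i + (l : ZMod n)), ?_, ?_, ?_⟩
  · have := h.partial_sum i (j - i).val
    rwa [ZMod.natCast_zmod_val, add_sub_cancel] at this
  · rw [hkk, Finset.sum_range_succ']
    have h1 : 0 ≤ ∑ l ∈ range k, g (i + ((l + 1 : ℕ) : ZMod n)) :=
      Finset.sum_nonneg (fun l _ => (h.pos _).le)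
    simp only [Nat.cast_zero, add_zero]
    linarith
  · have hn1 : n = (n - 1) + 1 := by omega
    have h2 := sum_cycle g i
    rw [h.sum] at h2
    have h3 : ∑ l ∈ range n, g (i + (l : ZMod n))
        = ∑ l ∈ range (n - 1), g (i + (l : ZMod n)) + g (i - 1) := by
      have hr : Finset.range n = Finset.range ((n - 1) + 1) := by rw [← hn1]
      rw [hr, Finset.sum_range_succ]
      congr 2
      have : ((n - 1 : ℕ) : ZMod n) = -1 := by
        rw [Nat.cast_sub (by omega)]
        simp
      rw [this, sub_eq_add_neg]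
    have h4 : ∑ l ∈ range (j - i).val, g (i + (l : ZMod n))
        ≤ ∑ l ∈ range (n - 1), g (i + (l : ZMod n)) :=
      Finset.sum_le_sum_of_subset_of_nonneg (Finset.range_subset_range.2 (by omega))
        (fun l _ _ => (h.pos _).le)
    linarith

theorem Ord.injective {x : ZMod n → AddCircle L} {g : ZMod n → ℝ} (h : Ord x g) :
    Function.Injective x := by
  intro j i hji
  by_contra hne
  obtain ⟨P, hP, hP1, hP2⟩ := h.coord i j hne
  rw [hji] at hP
  have h1 : ((P : ℝ) : AddCircle L) = ((0 : ℝ) : AddCircle L) := by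
    have := left_eq_add.1 hP
    rw [this, AddCircle.coe_zero]
  have h2 := h.pos i
  have h3 := h.pos (i - 1)
  have h4 := coe_inj (L := L) (by linarith) (by linarith) le_rfl hL.out h1
  linarith

/-- no point strictly between a point and its right neighbour -/
theorem Ord.no_right {x : ZMod n → AddCircle L} {g : ZMod n → ℝ} (h : Ord x g) (i j : ZMod n)
    (r : ℝ) (h0 : 0 < r) (h1 : r < g i) (hgL : g i ≤ L) : x j ≠ x i + ((r : ℝ) : AddCircle L) := by
  intro hj
  by_cases hji : j = i
  · rw [hji] at hj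
    have h2 : ((r : ℝ) : AddCircle L) = ((0 : ℝ) : AddCircle L) := by
      have := left_eq_add.1 hj
      rw [this, AddCircle.coe_zero]
    have h4 := coe_inj (L := L) h0.le (by linarith) le_rfl hL.out h2
    linarith
  · obtain ⟨P, hP, hP1, hP2⟩ := h.coord i j hji
    have h2 : ((P : ℝ) : AddCircle L) = ((r : ℝ) : AddCircle L) := by
      rw [hP] at hj
      exact add_left_cancel hj
    have h3 := h.pos (i - 1)
    have h4 := coe_inj (L := L) (by linarith) (by linarith) h0.le (by linarith) h2
    linarith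

/-- no point strictly between a point and its left neighbour -/
theorem Ord.no_left {x : ZMod n → AddCircle L} {g : ZMod n → ℝ} (h : Ord x g) (i j : ZMod n)
    (r : ℝ) (h0 : 0 < r) (h1 : r < g (i - 1)) (hgL : g (i - 1) ≤ L) :
    x j ≠ x i + ((-r : ℝ) : AddCircle L) := by
  intro hj
  have hneg : ((-r : ℝ) : AddCircle L) = ((L - r : ℝ) : AddCircle L) := by
    rw [AddCircle.coe_sub, coe_L, zero_sub, AddCircle.coe_neg]
  rw [hneg] at hj
  by_cases hji : j = i
  · rw [hji] at hj
    have h2 : ((L - r : ℝ) : AddCircle L) = ((0 : ℝ) : AddCircle L) := by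
      have := left_eq_add.1 hj
      rw [this, AddCircle.coe_zero]
    have h4 := coe_inj (L := L) (by linarith) (by linarith) le_rfl hL.out h2
    linarith
  · obtain ⟨P, hP, hP1, hP2⟩ := h.coord i j hji
    have h2 : ((P : ℝ) : AddCircle L) = ((L - r : ℝ) : AddCircle L) := by
      rw [hP] at hj
      exact add_left_cancel hj
    have h3 := h.pos (i - 1)
    have h5 := h.pos i
    have h4 := coe_inj (L := L) (by linarith) (by linarith) (by linarith) (by linarith) h2
    linarith

theorem Ord.gap_lt {x : ZMod n → AddCircle L} {g : ZMod n → ℝ} (h : Ord x g) (hn : 2 ≤ n)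
    (i : ZMod n) : g i < L := by
  have h1 : g i + g (i + 1) ≤ ∑ j, g j := by
    have hne : i + 1 ≠ i := by
      intro h'
      have h2 : (1 : ZMod n) = 0 := by
        have := congrArg (fun z => z - i) h'
        simpa using this
      have : Fact (1 < n) := ⟨by omega⟩
      exact one_ne_zero h2
    rw [← Finset.sum_erase_add _ _ (Finset.mem_univ i), add_comm]
    have h3 : i + 1 ∈ (univ : Finset (ZMod n)).erase i := by simp [hne]
    have h4 := Finset.single_le_sum (f := g) (fun j _ => (h.pos j).le) h3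
    linarith
  rw [h.sum] at h1
  have := h.pos (i + 1)
  linarith

/-- the gaps are the clockwise distances -/
theorem Ord.cw_eq {x : ZMod n → AddCircle L} {g : ZMod n → ℝ} (h : Ord x g) (hn : 2 ≤ n)
    (i : ZMod n) : cw (x i) (x (i + 1)) = g i := by
  apply cw_unique (h.pos i).le (h.gap_lt hn i)
  rw [h.rel, add_sub_cancel_left]

theorem ord_of_injective {x : ZMod n → AddCircle L} (hn : 2 ≤ n) (hx : Function.Injective x)
    (hs : ∑ i, cw (x i) (x (i + 1)) = L) : Ord x (fun i => cw (x i) (x (i + 1))) := by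
  refine ⟨fun i => ?_, fun i => ?_, hs⟩
  · rcases (cw_nonneg (x i) (x (i + 1))).eq_or_lt with h | h
    · exfalso
      have h1 := cw_coe (x i) (x (i + 1))
      rw [← h, AddCircle.coe_zero] at h1
      have h2 := hx (sub_eq_zero.1 h1.symm)
      have h3 : (1 : ZMod n) = 0 := by
        have := congrArg (fun z => z - i) h2
        simpa using this
      have : Fact (1 < n) := ⟨by omega⟩
      exact one_ne_zero h3
    · exact h
  · rw [cw_coe]
    abel

/-- what a sensor sees, in its own coordinate -/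
def snap (V : ℝ) (x : ZMod n → AddCircle L) (o : ℤˣ) (i : ZMod n) : Set ℝ :=
  {r : ℝ | |r| ≤ V ∧ ∃ j, x j = x i + ((((o : ℤ) : ℝ) * r : ℝ) : AddCircle L)}

/-- the distance to the nearest visible sensor on the positive side, capped at `V` -/
noncomputable def near (V : ℝ) (S : Set ℝ) : ℝ := sInf ({r | r ∈ S ∧ 0 < r} ∪ {V})

/-- the algorithm -/
noncomputable def balance (V : ℝ) (S : Set ℝ) : ℝ := (near V S - near V {r | -r ∈ S}) / 4

theorem near_eq (V G : ℝ) (_hV : 0 < V) (hG : 0 < G) (S : Set ℝ) (_hSV : ∀ r ∈ S, |r| ≤ V)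
    (h1 : G ≤ V → G ∈ S) (h2 : ∀ r, 0 < r → r < G → r ∉ S) : near V S = min G V := by
  unfold near
  apply IsLeast.csInf_eq
  constructor
  · rcases le_total G V with h | h
    · rw [min_eq_left h]
      exact Or.inl ⟨h1 h, hG⟩
    · rw [min_eq_right h]
      exact Or.inr rfl
  · rintro r (⟨hr, hr0⟩ | hr)
    · refine le_trans (min_le_left _ _) ?_
      by_contra hlt
      push Not at hlt
      exact h2 r hr0 hlt hr
    · rw [Set.mem_singleton_iff] at hr
      rw [hr]
      exact min_le_right _ _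

theorem balance_snap {x : ZMod n → AddCircle L} {g : ZMod n → ℝ} (h : Ord x g) (hn : 2 ≤ n)
    (V : ℝ) (hV : 0 < V) (o : ℤˣ) (i : ZMod n) :
    ((o : ℤ) : ℝ) * balance V (snap V x o i) = (min (g i) V - min (g (i - 1)) V) / 4 := by
  have hr1 : ∀ r, 0 < r → r < g i → ∀ j, x j ≠ x i + ((r : ℝ) : AddCircle L) := fun r h0 h1 j =>
    h.no_right i j r h0 h1 (h.gap_lt hn i).le
  have hl1 : ∀ r, 0 < r → r < g (i - 1) → ∀ j, x j ≠ x i + ((-r : ℝ) : AddCircle L) :=
    fun r h0 h1 j => h.no_left i j r h0 h1 (h.gap_lt hn (i - 1)).le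
  have hr2 : x (i + 1) = x i + ((g i : ℝ) : AddCircle L) := h.rel i
  have hl2 : x (i - 1) = x i + ((-(g (i - 1)) : ℝ) : AddCircle L) := by
    have := h.rel (i - 1)
    rw [sub_add_cancel] at this
    rw [this, AddCircle.coe_neg]
    abel
  have hgi := h.pos i
  have hgi' := h.pos (i - 1)
  unfold balance
  rcases Int.units_eq_one_or o with ho | ho
  · subst ho
    have e1 : near V (snap V x 1 i) = min (g i) V := by
      apply near_eq V (g i) hV hgi
      · rintro r ⟨hr, _⟩; exact hr
      · intro hgV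
        refine ⟨by rw [abs_of_pos hgi]; exact hgV, i + 1, ?_⟩
        simpa using hr2
      · rintro r h0 h1 ⟨_, j, hj⟩
        apply hr1 r h0 h1 j
        simpa using hj
    have e2 : near V {r | -r ∈ snap V x 1 i} = min (g (i - 1)) V := by
      apply near_eq V (g (i - 1)) hV hgi'
      · rintro r ⟨hr, _⟩; rwa [abs_neg] at hr
      · intro hgV
        refine ⟨by rw [abs_neg, abs_of_pos hgi']; exact hgV, i - 1, ?_⟩
        simpa using hl2
      · rintro r h0 h1 ⟨_, j, hj⟩
        apply hl1 r h0 h1 j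
        simpa using hj
    rw [e1, e2]
    simp
  · subst ho
    have e1 : near V (snap V x (-1) i) = min (g (i - 1)) V := by
      apply near_eq V (g (i - 1)) hV hgi'
      · rintro r ⟨hr, _⟩; exact hr
      · intro hgV
        refine ⟨by rw [abs_of_pos hgi']; exact hgV, i - 1, ?_⟩
        simpa using hl2
      · rintro r h0 h1 ⟨_, j, hj⟩
        apply hl1 r h0 h1 j
        simpa using hj
    have e2 : near V {r | -r ∈ snap V x (-1) i} = min (g i) V := by
      apply near_eq V (g i) hV hgi
      · rintro r ⟨hr, _⟩; rwa [abs_neg] at hr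
      · intro hgV
        refine ⟨by rw [abs_neg, abs_of_pos hgi]; exact hgV, i + 1, ?_⟩
        simpa using hr2
      · rintro r h0 h1 ⟨_, j, hj⟩
        apply hr1 r h0 h1 j
        simpa using hj
    rw [e1, e2]
    simp
    ring

/-- one step keeps the cyclic order -/
theorem ord_step {x x' : ZMod n → AddCircle L} {g μ : ZMod n → ℝ} {V : ℝ} (hV : 0 < V)
    (h : Ord x g) (h0 : ∀ i, 0 ≤ μ i) (h1 : ∀ i, μ i ≤ 1 / 4)
    (hx : ∀ i, x' i = x i + ((μ i * (min (g i) V - min (g (i - 1)) V) : ℝ) : AddCircle L)) :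
    Ord x' (fun i => g i - μ i * (min (g i) V - min (g (i - 1)) V)
      + μ (i + 1) * (min (g (i + 1)) V - min (g i) V)) := by
  refine ⟨fun i => ?_, fun i => ?_, ?_⟩
  · have a1 : 0 < min (g (i - 1)) V := lt_min (h.pos _) hV
    have a2 : 0 < min (g (i + 1)) V := lt_min (h.pos _) hV
    have a3 : 0 < min (g i) V := lt_min (h.pos _) hV
    have a4 : min (g i) V ≤ g i := min_le_left _ _
    have a5 := h0 i
    have a6 := h1 i
    have a7 := h0 (i + 1)
    have a8 := h1 (i + 1)
    nlinarith [mul_nonneg a5 a1.le, mul_nonneg a7 a2.le,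
      mul_le_mul_of_nonneg_right a6 a3.le, mul_le_mul_of_nonneg_right a8 a3.le]
  · rw [hx, hx, h.rel, add_sub_cancel_right]
    simp only [AddCircle.coe_add, AddCircle.coe_sub]
    abel
  · have h2 : ∑ i, μ (i + 1) * (min (g (i + 1)) V - min (g i) V)
        = ∑ i, μ i * (min (g i) V - min (g (i - 1)) V) := by
      have := Equiv.sum_comp (Equiv.addRight (1 : ZMod n))
        (fun i => μ i * (min (g i) V - min (g (i - 1)) V))
      simp only [Equiv.coe_addRight, add_sub_cancel_right] at this
      exact this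
    rw [Finset.sum_add_distrib, Finset.sum_sub_distrib, h2, h.sum]
    ring

/-- main theorem on executions -/
theorem execution (V δ : ℝ) (hV : 0 < V) (hδ : 0 < δ) (hn : 2 ≤ n) (hd : 2 * (L / n) ≤ V)
    (o : ℕ → ZMod n → ℤˣ) (act : ℕ → Set (ZMod n)) (x : ℕ → ZMod n → AddCircle L)
    (fair : ∀ i T, ∃ t, T ≤ t ∧ i ∈ act t)
    (idle : ∀ t i, i ∉ act t → x (t + 1) i = x t i)
    (move : ∀ t i, i ∈ act t → ∃ s : ℝ, 0 ≤ s ∧ s ≤ 1 ∧
      min δ |balance V (snap V (x t) (o t i) i)| ≤ s * |balance V (snap V (x t) (o t i) i)| ∧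
      x (t + 1) i = x t i +
        ((((o t i : ℤ) : ℝ) * (s * balance V (snap V (x t) (o t i) i)) : ℝ) : AddCircle L))
    (hx0 : Function.Injective (x 0)) (hs0 : ∑ i, cw (x 0 i) (x 0 (i + 1)) = L) :
    (∀ t, Function.Injective (x t) ∧ ∑ i, cw (x t i) (x t (i + 1)) = L) ∧
    ∀ ε : ℝ, 0 < ε → ∃ T, ∀ t, T ≤ t → ∀ i, |cw (x t i) (x t (i + 1)) - L / n| ≤ ε := by
  classical
  have key : ∀ t i, ∃ s : ℝ, 0 ≤ s ∧ s ≤ 1 ∧ (i ∉ act t → s = 0) ∧
      (i ∈ act t → min δ |balance V (snap V (x t) (o t i) i)|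
        ≤ s * |balance V (snap V (x t) (o t i) i)|) ∧
      x (t + 1) i = x t i +
        ((((o t i : ℤ) : ℝ) * (s * balance V (snap V (x t) (o t i) i)) : ℝ) : AddCircle L) := by
    intro t i
    by_cases hi : i ∈ act t
    · obtain ⟨s, h1, h2, h3, h4⟩ := move t i hi
      exact ⟨s, h1, h2, fun h => absurd hi h, fun _ => h3, h4⟩
    · refine ⟨0, le_rfl, zero_le_one, fun _ => rfl, fun h => absurd h hi, ?_⟩
      rw [idle t i hi]
      simp
  choose s hs1 hs2 hs3 hs4 hs5 using key
  set g : ℕ → ZMod n → ℝ := fun t i => cw (x t i) (x t (i + 1)) with hg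
  have hmove : ∀ t, Ord (x t) (g t) → ∀ i, x (t + 1) i = x t i +
      ((s t i / 4 * (min (g t i) V - min (g t (i - 1)) V) : ℝ) : AddCircle L) := by
    intro t ht i
    rw [hs5 t i]
    congr 2
    have := balance_snap ht hn V hV (o t i) i
    linear_combination (s t i) * this
  have hord : ∀ t, Ord (x t) (g t) := by
    intro t
    induction t with
    | zero => exact ord_of_injective hn hx0 hs0
    | succ t ih =>
      have h1 := ord_step hV ih (fun i => (by have := hs1 t i; linarith : (0 : ℝ) ≤ s t i / 4))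
        (fun i => by have := hs2 t i; linarith) (hmove t ih)
      have h2 := h1.injective
      apply ord_of_injective hn h2
      exact (Finset.sum_congr rfl (fun i _ => h1.cw_eq hn i)).trans h1.sum
  refine ⟨fun t => ⟨(hord t).injective, (hord t).sum⟩, ?_⟩
  have hdyn : GapDyn V δ act g (fun t i => s t i / 4) := by
    refine ⟨fun t i => by have := hs1 t i; linarith, fun t i => by have := hs2 t i; linarith,
      fun t i hi => by rw [hs3 t i hi]; simp, fun t i hi => ?_, fun t i => ?_,
      fun i => (hord 0).pos i⟩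
    · have h1 := hs4 t i hi
      have h2 : |balance V (snap V (x t) (o t i) i)|
          = |min (g t i) V - min (g t (i - 1)) V| / 4 := by
        have h3 := balance_snap (hord t) hn V hV (o t i) i
        have h4 : |((o t i : ℤ) : ℝ)| = 1 := by
          rcases Int.units_eq_one_or (o t i) with ho | ho <;> simp [ho]
        have h5 := congrArg abs h3
        rw [abs_mul, h4, one_mul, abs_div] at h5
        rw [h5]
        norm_num
      rw [h2] at h1
      calc _ ≤ _ := h1
        _ = _ := by ring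
    · have h1 := ord_step hV (hord t)
        (fun i => (by have := hs1 t i; linarith : (0 : ℝ) ≤ s t i / 4))
        (fun i => by have := hs2 t i; linarith) (hmove t (hord t))
      exact h1.cw_eq hn i
  intro ε hε
  have hnR : (0 : ℝ) < n := by exact_mod_cast Nat.pos_of_ne_zero (NeZero.ne n)
  have hLpos : 0 < L := hL.out
  apply hdyn.converges hV hδ fair (L / n) (by positivity) hd _ ε hε
  have h1 := (hord 0).sum
  rw [h1]
  field_simp

end Pool.Agent.Q46.Ring
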