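import Mathlib

/-! Polynomial part: rank two presentations of a cubic polynomial by factors of degree at most 2. -/

namespace Q46.Schmidt

open MvPolynomial

variable {σ K : Type*} [Field K]

lemma hC_mul {i j : ℕ} {p q : MvPolynomial σ K} (hp : p.totalDegree ≤ i)
    (hq : q.totalDegree ≤ j) :
    homogeneousComponent (i + j) (p * q) = homogeneousComponent i p * homogeneousComponent j q := by
  classical
  ext d
  rw [coeff_homogeneousComponent, coeff_mul, coeff_mul]
  split_ifs with h
  · apply Finset.sum_congr rfl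
    rintro ⟨a, b⟩ hab
    rw [Finset.HasAntidiagonal.mem_antidiagonal] at hab
    rw [coeff_homogeneousComponent, coeff_homogeneousComponent]
    have hdeg : a.degree + b.degree = i + j := by
      rw [← h, ← hab]; simp
    by_cases ha : a.degree = i
    · have hb : b.degree = j := by omega
      rw [if_pos ha, if_pos hb]
    · rcases lt_or_gt_of_ne ha with h1 | h1
      · have hb : j < b.degree := by omega
        have : coeff b q = 0 := coeff_eq_zero_of_totalDegree_lt (lt_of_le_of_lt hq (by
          rw [← Finsupp.degree_apply]; exact hb))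
        rw [this]; simp
      · have : coeff a p = 0 := coeff_eq_zero_of_totalDegree_lt (lt_of_le_of_lt hp (by
          rw [← Finsupp.degree_apply]; exact h1))
        rw [this]; simp
  · symm
    apply Finset.sum_eq_zero
    rintro ⟨a, b⟩ hab
    rw [Finset.HasAntidiagonal.mem_antidiagonal] at hab
    rw [coeff_homogeneousComponent, coeff_homogeneousComponent]
    by_cases ha : a.degree = i
    · by_cases hb : b.degree = j
      · exfalso
        apply h
        rw [← hab, ← ha, ← hb]; simp
      · rw [if_neg hb, mul_zero]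
    · rw [if_neg ha, zero_mul]

lemma td_lt_of_hC {n : ℕ} {p : MvPolynomial σ K} (hp : p.totalDegree ≤ n + 1)
    (h0 : homogeneousComponent (n + 1) p = 0) : p.totalDegree ≤ n := by
  classical
  rw [totalDegree_eq, Finset.sup_le_iff]
  intro m hm
  have h1 : m.degree ≤ n + 1 := by
    have := le_totalDegree hm
    refine le_trans (le_of_eq ?_) (this.trans hp)
    rw [Finsupp.degree_apply]; rfl
  have h2 : m.degree ≠ n + 1 := by
    intro h
    have := congrArg (coeff m) h0
    rw [coeff_homogeneousComponent, if_pos h, coeff_zero] at this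
    exact (mem_support_iff.mp hm) this
  have h3 : m.degree ≤ n := by omega
  rw [Finsupp.degree_apply] at h3
  simpa [Finsupp.card_toMultiset, Finsupp.sum] using h3

lemma hC_hC (n : ℕ) (p : MvPolynomial σ K) :
    homogeneousComponent n (homogeneousComponent n p) = homogeneousComponent n p :=
  homogeneousComponent_eq_self (homogeneousComponent_isHomogeneous n p)

lemma td_sub {n : ℕ} {p : MvPolynomial σ K} (hp : p.totalDegree ≤ n + 1) :
    (p - homogeneousComponent (n + 1) p).totalDegree ≤ n := by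
  apply td_lt_of_hC
  · refine (totalDegree_sub _ _).trans ?_
    exact max_le hp (homogeneousComponent_isHomogeneous (n + 1) p).totalDegree_le
  · rw [map_sub, hC_hC, sub_self]


/-- the two shapes of a rank two presentation -/
def ShapeL (P : MvPolynomial σ K) : Prop :=
  ∃ L1 L2 A B : MvPolynomial σ K, L1.totalDegree ≤ 1 ∧ L2.totalDegree ≤ 1 ∧
    A.totalDegree ≤ 2 ∧ B.totalDegree ≤ 2 ∧ P = L1 * A + L2 * B

def ShapeM (P : MvPolynomial σ K) : Prop :=
  ∃ g h u v n1 n2 m1 m2 : MvPolynomial σ K, g.IsHomogeneous 1 ∧ h.IsHomogeneous 1 ∧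
    u.IsHomogeneous 1 ∧ v.IsHomogeneous 1 ∧ n1.totalDegree ≤ 1 ∧ n2.totalDegree ≤ 1 ∧
    m1.totalDegree ≤ 1 ∧ m2.totalDegree ≤ 1 ∧
    P = (g * u + n1) * (h * v + m1) + (g * v + n2) * (-(h * u) + m2)

lemma shapes {P Q1 R1 Q2 R2 : MvPolynomial σ K} (hP : P.totalDegree ≤ 3)
    (hQ1 : Q1.totalDegree ≤ 2) (hR1 : R1.totalDegree ≤ 2) (hQ2 : Q2.totalDegree ≤ 2)
    (hR2 : R2.totalDegree ≤ 2) (hPQ : P = Q1 * R1 + Q2 * R2) : ShapeL P ∨ ShapeM P := by
  classical
  set q1 := homogeneousComponent 2 Q1 with hq1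
  set q2 := homogeneousComponent 2 Q2 with hq2
  set r1 := homogeneousComponent 2 R1 with hr1
  set r2 := homogeneousComponent 2 R2 with hr2
  have hq1h : q1.IsHomogeneous 2 := homogeneousComponent_isHomogeneous 2 Q1
  have hq2h : q2.IsHomogeneous 2 := homogeneousComponent_isHomogeneous 2 Q2
  have hr1h : r1.IsHomogeneous 2 := homogeneousComponent_isHomogeneous 2 R1
  have hr2h : r2.IsHomogeneous 2 := homogeneousComponent_isHomogeneous 2 R2
  have key : q1 * r1 + q2 * r2 = 0 := by
    have h4 : homogeneousComponent (2 + 2) P = 0 := homogeneousComponent_eq_zero _ _ (by omega)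
    rw [hPQ, map_add, hC_mul hQ1 hR1, hC_mul hQ2 hR2] at h4
    exact h4
  -- a general way to produce shape L
  have mkL : ∀ A B L1 L2 : MvPolynomial σ K, A.totalDegree ≤ 2 → B.totalDegree ≤ 2 →
      L1.totalDegree ≤ 2 → L2.totalDegree ≤ 2 → homogeneousComponent 2 L1 = 0 →
      homogeneousComponent 2 L2 = 0 → P = L1 * A + L2 * B → ShapeL P := by
    intro A B L1 L2 hA hB h1 h2 h3 h4 h5
    exact ⟨L1, L2, A, B, td_lt_of_hC h1 h3, td_lt_of_hC h2 h4, hA, hB, h5⟩
  have tdC : ∀ (c : K) (p : MvPolynomial σ K), p.totalDegree ≤ 2 → (C c * p).totalDegree ≤ 2 := by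
    intro c p hp
    refine (totalDegree_mul _ _).trans ?_
    rw [totalDegree_C, zero_add]
    exact hp
  by_cases z1 : q1 = 0
  · by_cases z2 : q2 = 0
    · left
      exact mkL R1 R2 Q1 Q2 hR1 hR2 hQ1 hQ2 z1 z2 (by rw [hPQ])
    · left
      have : r2 = 0 := by
        rw [z1, zero_mul, zero_add] at key
        exact (mul_eq_zero.mp key).resolve_left z2
      exact mkL R1 Q2 Q1 R2 hR1 hQ2 hQ1 hR2 z1 this (by rw [hPQ]; ring)
  by_cases z2 : q2 = 0
  · left
    have : r1 = 0 := by
      rw [z2, zero_mul, add_zero] at key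
      exact (mul_eq_zero.mp key).resolve_left z1
    exact mkL Q1 R2 R1 Q2 hQ1 hR2 hR1 hQ2 this z2 (by rw [hPQ]; ring)
  obtain ⟨u, v, g, hrel, hgu, hgv⟩ := UniqueFactorizationMonoid.exists_reduced_factors q1 z1 q2
  have hg0 : g ≠ 0 := by rintro rfl; apply z1; rw [← hgu, zero_mul]
  have hu0 : u ≠ 0 := by rintro rfl; apply z1; rw [← hgu, mul_zero]
  have hv0 : v ≠ 0 := by rintro rfl; apply z2; rw [← hgv, mul_zero]
  have k1 : u * r1 + v * r2 = 0 := by
    have : g * (u * r1 + v * r2) = 0 := by rw [← hgu, ← hgv] at key; linear_combination key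
    exact (mul_eq_zero.mp this).resolve_left hg0
  have hdvd : v ∣ u * r1 := ⟨-r2, by linear_combination k1⟩
  have hdvd' : v ∣ r1 := hrel.symm.dvd_of_dvd_mul_left hdvd
  obtain ⟨h, hh⟩ := hdvd'
  have hh2 : r2 = -(u * h) := by
    have : v * (r2 + u * h) = 0 := by rw [hh] at k1; linear_combination k1
    have := (mul_eq_zero.mp this).resolve_left hv0
    linear_combination this
  have d1 : g.totalDegree + u.totalDegree = 2 := by
    rw [← totalDegree_mul_of_isDomain hg0 hu0, hgu]
    exact hq1h.totalDegree z1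
  have d2 : g.totalDegree + v.totalDegree = 2 := by
    rw [← totalDegree_mul_of_isDomain hg0 hv0, hgv]
    exact hq2h.totalDegree z2
  by_cases hz : h = 0
  · left
    have e1 : r1 = 0 := by rw [hh, hz, mul_zero]
    have e2 : r2 = 0 := by rw [hh2, hz, mul_zero, neg_zero]
    exact mkL Q1 Q2 R1 R2 hQ1 hQ2 hR1 hR2 e1 e2 (by rw [hPQ]; ring)
  have d3 : v.totalDegree + h.totalDegree = 2 := by
    rw [← totalDegree_mul_of_isDomain hv0 hz, ← hh]
    apply hr1h.totalDegree
    rw [hh]
    exact mul_ne_zero hv0 hz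
  have hcases : g.totalDegree = 0 ∨ g.totalDegree = 1 ∨ g.totalDegree = 2 := by omega
  rcases hcases with hg | hg | hg
  · -- g, h constants
    left
    have hhd : h.totalDegree = 0 := by omega
    obtain ⟨cg, hcg⟩ : ∃ c, g = C c := ⟨_, totalDegree_eq_zero_iff_eq_C.mp hg⟩
    obtain ⟨ch, hch⟩ : ∃ c, h = C c := ⟨_, totalDegree_eq_zero_iff_eq_C.mp hhd⟩
    have hcg0 : cg ≠ 0 := by rintro rfl; apply hg0; rw [hcg, C_0]
    have hC1 : (C (ch / cg) : MvPolynomial σ K) * C cg = C ch := by
      rw [← C_mul, div_mul_cancel₀ _ hcg0]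
    refine mkL Q1 Q2 (R1 - C (ch / cg) * Q2) (R2 + C (ch / cg) * Q1) hQ1 hQ2 ?_ ?_ ?_ ?_ ?_
    · exact (totalDegree_sub _ _).trans (max_le hR1 (tdC _ _ hQ2))
    · exact (totalDegree_add _ _).trans (max_le hR2 (tdC _ _ hQ1))
    · rw [map_sub, homogeneousComponent_C_mul, ← hr1, ← hq2, hh, ← hgv, hcg, hch, ← hC1]
      ring
    · rw [map_add, homogeneousComponent_C_mul, ← hr2, ← hq1, hh2, ← hgu, hcg, hch, ← hC1]
      ring
    · rw [hPQ]; ring
  · right
    have hud : u.totalDegree = 1 := by omega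
    have hvd : v.totalDegree = 1 := by omega
    have hhd : h.totalDegree = 1 := by omega
    have e1 : q1 = homogeneousComponent 1 g * homogeneousComponent 1 u := by
      rw [← hC_mul hg.le hud.le, hgu]
      exact (homogeneousComponent_eq_self hq1h).symm
    have e2 : q2 = homogeneousComponent 1 g * homogeneousComponent 1 v := by
      rw [← hC_mul hg.le hvd.le, hgv]
      exact (homogeneousComponent_eq_self hq2h).symm
    have e3 : r1 = homogeneousComponent 1 h * homogeneousComponent 1 v := by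
      rw [← hC_mul hhd.le hvd.le, mul_comm h v, ← hh]
      exact (homogeneousComponent_eq_self hr1h).symm
    have e4 : r2 = -(homogeneousComponent 1 h * homogeneousComponent 1 u) := by
      rw [← hC_mul hhd.le hud.le, mul_comm h u, ← map_neg, ← hh2]
      exact (homogeneousComponent_eq_self hr2h).symm
    refine ⟨homogeneousComponent 1 g, homogeneousComponent 1 h, homogeneousComponent 1 u,
      homogeneousComponent 1 v, Q1 - q1, Q2 - q2, R1 - r1, R2 - r2,
      homogeneousComponent_isHomogeneous _ _, homogeneousComponent_isHomogeneous _ _,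
      homogeneousComponent_isHomogeneous _ _, homogeneousComponent_isHomogeneous _ _,
      td_sub hQ1, td_sub hQ2, td_sub hR1, td_sub hR2, ?_⟩
    rw [← e1, ← e2, ← e3, ← e4, hPQ]
    ring
  · -- u, v constants
    left
    have hud : u.totalDegree = 0 := by omega
    have hvd : v.totalDegree = 0 := by omega
    obtain ⟨cu, hcu⟩ : ∃ c, u = C c := ⟨_, totalDegree_eq_zero_iff_eq_C.mp hud⟩
    obtain ⟨cv, hcv⟩ : ∃ c, v = C c := ⟨_, totalDegree_eq_zero_iff_eq_C.mp hvd⟩
    have hcu0 : cu ≠ 0 := by rintro rfl; apply hu0; rw [hcu, C_0]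
    have hC1 : (C (cv / cu) : MvPolynomial σ K) * C cu = C cv := by
      rw [← C_mul, div_mul_cancel₀ _ hcu0]
    refine mkL Q1 R2 (R1 + C (cv / cu) * R2) (Q2 - C (cv / cu) * Q1) hQ1 hR2 ?_ ?_ ?_ ?_ ?_
    · exact (totalDegree_add _ _).trans (max_le hR1 (tdC _ _ hR2))
    · exact (totalDegree_sub _ _).trans (max_le hQ2 (tdC _ _ hQ1))
    · rw [map_add, homogeneousComponent_C_mul, ← hr1, ← hr2, hh, hh2, hcu, hcv, ← hC1]
      ring
    · rw [map_sub, homogeneousComponent_C_mul, ← hq1, ← hq2, ← hgu, ← hgv, hcu, hcv, ← hC1]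
      ring
    · rw [hPQ]; ring

end Q46.Schmidt
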