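import Mathlib

/-! Linear algebra part: the cubic `x^2 a + y^2 c` and its relatives. -/

namespace Q46.Schmidt

variable {K : Type*} [Field K]

lemma poly3 [Infinite K] (A B C' D : K) (h : ∀ l : K, A * l ^ 3 + B * l ^ 2 + C' * l + D = 0) :
    A = 0 ∧ B = 0 ∧ C' = 0 ∧ D = 0 := by
  have hp : (Polynomial.C A * Polynomial.X ^ 3 + Polynomial.C B * Polynomial.X ^ 2 +
      Polynomial.C C' * Polynomial.X + Polynomial.C D : Polynomial K) = 0 := by
    apply Polynomial.funext
    intro r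
    simpa using h r
  have c3 := congrArg (fun p => p.coeff 3) hp
  have c2 := congrArg (fun p => p.coeff 2) hp
  have c1 := congrArg (fun p => p.coeff 1) hp
  have c0 := congrArg (fun p => p.coeff 0) hp
  simp [Polynomial.coeff_X, Polynomial.coeff_C, Polynomial.coeff_X_pow] at c3 c2 c1 c0
  exact ⟨c3, c2, c1, c0⟩

/-- no hyperplane on which `α x^2 a + β y^2 c` vanishes -/
lemma E0 (α β l0 l1 l2 l3 : K) (hα : α ≠ 0) (hβ : β ≠ 0)
    (H : ∀ x a y c : K, l0 * x + l1 * a + l2 * y + l3 * c = 0 →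
      α * x ^ 2 * a + β * y ^ 2 * c = 0) : False := by
  by_cases h3 : l3 = 0
  · by_cases h1 : l1 = 0
    · by_cases h2 : l2 = 0
      · have := H 0 0 1 1 (by rw [h2, h3]; ring)
        apply hβ
        linear_combination this
      · have := H 1 1 (-l0 / l2) 0 (by rw [h1, h3]; field_simp; ring)
        apply hα
        linear_combination this
    · have := H 0 (-(l2 + l3) / l1) 1 1 (by field_simp; ring)
      apply hβ
      linear_combination this
  · have := H 1 1 0 (-(l0 + l1) / l3) (by field_simp; ring)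
    apply hα
    linear_combination this

/-- the linear form with coefficients `c 0, ..., c 3` -/
def D (c : Fin 6 → K) (x : Fin 4 → K) : K := c 0 * x 0 + c 1 * x 1 + c 2 * x 2 + c 3 * x 3

lemma D_add (c : Fin 6 → K) (x y : Fin 4 → K) : D c (x + y) = D c x + D c y := by
  simp [D]; ring

lemma D_smul (c : Fin 6 → K) (l : K) (x : Fin 4 → K) : D c (l • x) = l * D c x := by
  simp [D]; ring

/-- the cubic form `x^2 a + y^2 c` -/
def F (x : Fin 4 → K) : K := x 0 ^ 2 * x 1 + x 2 ^ 2 * x 3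

lemma F_smul (l : K) (x : Fin 4 → K) : F (l • x) = l ^ 3 * F x := by
  simp [F]; ring

/-- if the cubic vanishes on `g = h = 0`, then `g` has no `w` component -/
lemma E_w (g h : Fin 6 → K) (H : ∀ (x : Fin 4 → K) (w b : K), D g x + g 4 * w + g 5 * b = 0 →
    D h x + h 4 * w + h 5 * b = 0 → F x = 0) : g 4 = 0 := by
  by_contra h4
  refine E0 (1 : K) 1 (h 0 - h 4 * g 0 / g 4) (h 1 - h 4 * g 1 / g 4) (h 2 - h 4 * g 2 / g 4)
    (h 3 - h 4 * g 3 / g 4) one_ne_zero one_ne_zero ?_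
  intro x a y c hl
  have := H ![x, a, y, c] (-(g 0 * x + g 1 * a + g 2 * y + g 3 * c) / g 4) 0
    (by simp [D]; field_simp; ring)
    (by simp [D]; rw [← hl]; field_simp; ring)
  simp [F] at this
  linear_combination this

lemma E_b (g h : Fin 6 → K) (H : ∀ (x : Fin 4 → K) (w b : K), D g x + g 4 * w + g 5 * b = 0 →
    D h x + h 4 * w + h 5 * b = 0 → F x = 0) : g 5 = 0 := by
  by_contra h4
  refine E0 (1 : K) 1 (h 0 - h 5 * g 0 / g 5) (h 1 - h 5 * g 1 / g 5) (h 2 - h 5 * g 2 / g 5)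
    (h 3 - h 5 * g 3 / g 5) one_ne_zero one_ne_zero ?_
  intro x a y c hl
  have := H ![x, a, y, c] 0 (-(g 0 * x + g 1 * a + g 2 * y + g 3 * c) / g 5)
    (by simp [D]; field_simp; ring)
    (by simp [D]; rw [← hl]; field_simp; ring)
  simp [F] at this
  linear_combination this

/-- independence of `g` and `h` -/
lemma exists_point (g h : Fin 6 → K) (H : ∀ x : Fin 4 → K, D g x = 0 → D h x = 0 → F x = 0) :
    ∃ x, D g x = 0 ∧ D h x = 1 := by
  by_contra hcon
  push Not at hcon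
  have h1 : ∀ x, D g x = 0 → D h x = 0 := by
    intro x hx
    by_contra hne
    apply hcon ((D h x)⁻¹ • x)
    · rw [D_smul, hx, mul_zero]
    · rw [D_smul, inv_mul_cancel₀ hne]
  refine E0 (1 : K) 1 (g 0) (g 1) (g 2) (g 3) one_ne_zero one_ne_zero ?_
  intro x a y c hl
  have hx : D g ![x, a, y, c] = 0 := by simp [D]; exact hl
  have := H _ hx (h1 _ hx)
  simp [F] at this
  linear_combination this

/-- codimension two: three squares times linear -/
lemma no_codim2 (s : K) (hs : s ≠ 0) (g h : Fin 6 → K)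
    (H : ∀ (x : Fin 4 → K) (w b : K), D g x + g 4 * w + g 5 * b = 0 →
      D h x + h 4 * w + h 5 * b = 0 → F x + s * w ^ 2 * b = 0) : False := by
  have Eb : ∀ g h : Fin 6 → K, (∀ (x : Fin 4 → K) (w b : K), D g x + g 4 * w + g 5 * b = 0 →
      D h x + h 4 * w + h 5 * b = 0 → F x + s * w ^ 2 * b = 0) → g 5 = 0 := by
    intro g h H
    by_contra h4
    refine E0 (1 : K) 1 (h 0 - h 5 * g 0 / g 5) (h 1 - h 5 * g 1 / g 5) (h 2 - h 5 * g 2 / g 5)
      (h 3 - h 5 * g 3 / g 5) one_ne_zero one_ne_zero ?_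
    intro x a y c hl
    have := H ![x, a, y, c] 0 (-(g 0 * x + g 1 * a + g 2 * y + g 3 * c) / g 5)
      (by simp [D]; field_simp; ring)
      (by simp [D]; rw [← hl]; field_simp; ring)
    simp [F] at this
    linear_combination this
  have Ea : ∀ g h : Fin 6 → K, (∀ (x : Fin 4 → K) (w b : K), D g x + g 4 * w + g 5 * b = 0 →
      D h x + h 4 * w + h 5 * b = 0 → F x + s * w ^ 2 * b = 0) → g 1 = 0 := by
    intro g h H
    by_contra h4
    refine E0 (s : K) 1 (h 4 - h 1 * g 4 / g 1) (h 5 - h 1 * g 5 / g 1) (h 2 - h 1 * g 2 / g 1)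
      (h 3 - h 1 * g 3 / g 1) hs one_ne_zero ?_
    intro w b y c hl
    have := H ![0, -(g 4 * w + g 5 * b + g 2 * y + g 3 * c) / g 1, y, c] w b
      (by simp [D]; field_simp; ring)
      (by simp [D]; rw [← hl]; field_simp; ring)
    simp [F] at this
    linear_combination this
  have Ec : ∀ g h : Fin 6 → K, (∀ (x : Fin 4 → K) (w b : K), D g x + g 4 * w + g 5 * b = 0 →
      D h x + h 4 * w + h 5 * b = 0 → F x + s * w ^ 2 * b = 0) → g 3 = 0 := by
    intro g h H
    by_contra h4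
    refine E0 (1 : K) s (h 0 - h 3 * g 0 / g 3) (h 1 - h 3 * g 1 / g 3) (h 4 - h 3 * g 4 / g 3)
      (h 5 - h 3 * g 5 / g 3) one_ne_zero hs ?_
    intro x a w b hl
    have := H ![x, a, 0, -(g 0 * x + g 1 * a + g 4 * w + g 5 * b) / g 3] w b
      (by simp [D]; field_simp; ring)
      (by simp [D]; rw [← hl]; field_simp; ring)
    simp [F] at this
    linear_combination this
  have H' : ∀ (x : Fin 4 → K) (w b : K), D h x + h 4 * w + h 5 * b = 0 →
      D g x + g 4 * w + g 5 * b = 0 → F x + s * w ^ 2 * b = 0 := fun x w b h1 h2 => H x w b h2 h1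
  have g5 := Eb g h H
  have g1 := Ea g h H
  have g3 := Ec g h H
  have h5 := Eb h g H'
  have h1 := Ea h g H'
  have h3 := Ec h g H'
  obtain ⟨v, hv0, hv⟩ := (Matrix.exists_mulVec_eq_zero_iff
    (M := !![g 0, g 2, g 4; h 0, h 2, h 4; 0, 0, 0])).mpr (by simp [Matrix.det_fin_three])
  have e1 : g 0 * v 0 + g 2 * v 1 + g 4 * v 2 = 0 := by
    have := congrFun hv 0
    simp [Matrix.mulVec, dotProduct, Fin.sum_univ_three] at this
    exact this
  have e2 : h 0 * v 0 + h 2 * v 1 + h 4 * v 2 = 0 := by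
    have := congrFun hv 1
    simp [Matrix.mulVec, dotProduct, Fin.sum_univ_three] at this
    exact this
  have key : ∀ a c b : K, v 0 ^ 2 * a + v 1 ^ 2 * c + s * v 2 ^ 2 * b = 0 := by
    intro a c b
    have := H ![v 0, a, v 1, c] (v 2) b
      (by simp [D, g1, g3, g5]; linear_combination e1)
      (by simp [D, h1, h3, h5]; linear_combination e2)
    simp [F] at this
    linear_combination this
  apply hv0
  funext i
  fin_cases i
  · have := key 1 0 0
    simp at this
    simpa using this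
  · have := key 0 1 0
    simp at this
    simpa using this
  · have := key 0 0 1
    simp [hs] at this
    simpa using this


lemma caseL (g h : Fin 6 → K) (c1 c2 : K) (A B : (Fin 4 → K) → K → K → K)
    (hP : ∀ x w b, F x + w ^ 2 = (D g x + g 4 * w + g 5 * b + c1) * A x w b +
      (D h x + h 4 * w + h 5 * b + c2) * B x w b)
    (hF : ∀ (x : Fin 4 → K) (w b : K), D g x + g 4 * w + g 5 * b = 0 →
      D h x + h 4 * w + h 5 * b = 0 → F x = 0) : False := by
  have hF' : ∀ (x : Fin 4 → K) (w b : K), D h x + h 4 * w + h 5 * b = 0 →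
      D g x + g 4 * w + g 5 * b = 0 → F x = 0 := fun x w b h1 h2 => hF x w b h2 h1
  have g4 := E_w g h hF
  have g5 := E_b g h hF
  have h4 := E_w h g hF'
  have h5 := E_b h g hF'
  have hG : ∀ x : Fin 4 → K, D g x = 0 → D h x = 0 → F x = 0 := fun x h1 h2 =>
    hF x 0 0 (by rw [h1]; ring) (by rw [h2]; ring)
  obtain ⟨xg, a1, a2⟩ := exists_point g h hG
  obtain ⟨xh, b1, b2⟩ := exists_point h g (fun x h1 h2 => hG x h2 h1)
  have e : ∀ w : K, F ((-c1) • xh + (-c2) • xg) + w ^ 2 = 0 := by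
    intro w
    rw [hP _ w 0, D_add, D_add, D_smul, D_smul, D_smul, D_smul, a1, a2, b1, b2, g4, g5, h4, h5]
    ring
  have e0 := e 0
  have e1 := e 1
  have : (1 : K) = 0 := by linear_combination e1 - e0
  exact one_ne_zero this

/-- linear algebra behind the matrix case -/
lemma alg (G H U V N1 N2 M1 M2 ν1 ν2 μ1 μ2 κ w Fx : K) (hdet : ν1 * μ1 + ν2 * μ2 = 1)
    (hU : μ1 * U + μ2 * V = κ * H) (hV : ν2 * U - ν1 * V = κ * G)
    (hF : Fx + w ^ 2 = (G * U + N1 + ν1 * w) * (H * V + M1 + μ1 * w) +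
      (G * V + N2 + ν2 * w) * (-(H * U) + M2 + μ2 * w)) :
    Fx + w ^ 2 = (κ * G * H + w + (μ1 * N1 + μ2 * N2)) * (-(κ * G * H) + w + (ν1 * M1 + ν2 * M2)) -
      (κ * G ^ 2 + (ν2 * N1 - ν1 * N2)) * (-(κ * H ^ 2) + (μ1 * M2 - μ2 * M1)) := by
  have e11 : κ * G * H + w + (μ1 * N1 + μ2 * N2) =
      μ1 * (G * U + N1 + ν1 * w) + μ2 * (G * V + N2 + ν2 * w) := by
    linear_combination -G * hU - w * hdet
  have e12 : κ * G ^ 2 + (ν2 * N1 - ν1 * N2) =
      ν2 * (G * U + N1 + ν1 * w) - ν1 * (G * V + N2 + ν2 * w) := by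
    linear_combination -G * hV
  have e21 : -(κ * H ^ 2) + (μ1 * M2 - μ2 * M1) =
      μ1 * (-(H * U) + M2 + μ2 * w) - μ2 * (H * V + M1 + μ1 * w) := by
    linear_combination H * hU
  have e22 : -(κ * G * H) + w + (ν1 * M1 + ν2 * M2) =
      ν2 * (-(H * U) + M2 + μ2 * w) + ν1 * (H * V + M1 + μ1 * w) := by
    linear_combination H * hV - w * hdet
  rw [e11, e12, e21, e22, hF]
  linear_combination (-((G * U + N1 + ν1 * w) * (H * V + M1 + μ1 * w) +
      (G * V + N2 + ν2 * w) * (-(H * U) + M2 + μ2 * w))) * hdet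

lemma caseM [Infinite K] (g h u v n1 n2 m1 m2 : Fin 6 → K) (cn1 cn2 cm1 cm2 : K)
    (hP : ∀ x w b, F x + w ^ 2 =
      ((D g x + g 4 * w + g 5 * b) * (D u x + u 4 * w + u 5 * b) +
        (D n1 x + n1 4 * w + n1 5 * b + cn1)) *
      ((D h x + h 4 * w + h 5 * b) * (D v x + v 4 * w + v 5 * b) +
        (D m1 x + m1 4 * w + m1 5 * b + cm1)) +
      ((D g x + g 4 * w + g 5 * b) * (D v x + v 4 * w + v 5 * b) +
        (D n2 x + n2 4 * w + n2 5 * b + cn2)) *
      (-((D h x + h 4 * w + h 5 * b) * (D u x + u 4 * w + u 5 * b)) +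
        (D m2 x + m2 4 * w + m2 5 * b + cm2)))
    (hF : ∀ x w b, F x =
      (D g x + g 4 * w + g 5 * b) * ((D u x + u 4 * w + u 5 * b) *
        (D m1 x + m1 4 * w + m1 5 * b) + (D v x + v 4 * w + v 5 * b) *
        (D m2 x + m2 4 * w + m2 5 * b)) +
      (D h x + h 4 * w + h 5 * b) * ((D v x + v 4 * w + v 5 * b) *
        (D n1 x + n1 4 * w + n1 5 * b) - (D u x + u 4 * w + u 5 * b) *
        (D n2 x + n2 4 * w + n2 5 * b))) : False := by
  have hgh : ∀ (x : Fin 4 → K) (w b : K), D g x + g 4 * w + g 5 * b = 0 →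
      D h x + h 4 * w + h 5 * b = 0 → F x = 0 := by
    intro x w b h1 h2
    rw [hF x w b, h1, h2]; ring
  have hhg : ∀ (x : Fin 4 → K) (w b : K), D h x + h 4 * w + h 5 * b = 0 →
      D g x + g 4 * w + g 5 * b = 0 → F x = 0 := fun x w b h1 h2 => hgh x w b h2 h1
  have huv : ∀ (x : Fin 4 → K) (w b : K), D u x + u 4 * w + u 5 * b = 0 →
      D v x + v 4 * w + v 5 * b = 0 → F x = 0 := by
    intro x w b h1 h2
    rw [hF x w b, h1, h2]; ring
  have hvu : ∀ (x : Fin 4 → K) (w b : K), D v x + v 4 * w + v 5 * b = 0 →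
      D u x + u 4 * w + u 5 * b = 0 → F x = 0 := fun x w b h1 h2 => huv x w b h2 h1
  have g4 := E_w g h hgh
  have h4 := E_w h g hhg
  have u4 := E_w u v huv
  have v4 := E_w v u hvu
  have hG : ∀ x : Fin 4 → K, D g x = 0 → D h x = 0 → F x = 0 := fun x h1 h2 =>
    hgh x 0 0 (by rw [h1]; ring) (by rw [h2]; ring)
  obtain ⟨xg, a1, a2⟩ := exists_point g h hG
  obtain ⟨xh, b1, b2⟩ := exists_point h g (fun x h1 h2 => hG x h2 h1)
  -- simplified identities
  have P0 : ∀ x w, F x + w ^ 2 = (D g x * D u x + (D n1 x + cn1) + n1 4 * w) *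
      (D h x * D v x + (D m1 x + cm1) + m1 4 * w) +
      (D g x * D v x + (D n2 x + cn2) + n2 4 * w) *
      (-(D h x * D u x) + (D m2 x + cm2) + m2 4 * w) := by
    intro x w
    rw [hP x w 0, g4, h4, u4, v4]; ring
  have F0 : ∀ x w, F x = D g x * (D u x * (D m1 x + m1 4 * w) + D v x * (D m2 x + m2 4 * w)) +
      D h x * (D v x * (D n1 x + n1 4 * w) - D u x * (D n2 x + n2 4 * w)) := by
    intro x w
    rw [hF x w 0, g4, h4, u4, v4]; ring
  have hdet : n1 4 * m1 4 + n2 4 * m2 4 = 1 := by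
    have := poly3 0 (n1 4 * m1 4 + n2 4 * m2 4 - 1)
      (cn1 * m1 4 + n1 4 * cm1 + cn2 * m2 4 + n2 4 * cm2) (cn1 * cm1 + cn2 * cm2) (by
        intro l
        have := P0 0 l
        simp [D, F] at this
        linear_combination -this)
    linear_combination this.2.1
  have rel : ∀ x, D g x * (m1 4 * D u x + m2 4 * D v x) = D h x * (n2 4 * D u x - n1 4 * D v x) := by
    intro x
    have e0 := F0 x 0
    have e1 := F0 x 1
    linear_combination e0 - e1
  obtain ⟨κ, hκ⟩ : ∃ κ, κ = m1 4 * D u xg + m2 4 * D v xg := ⟨_, rfl⟩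
  have v0 : n2 4 * D u xg - n1 4 * D v xg = 0 := by
    have := rel xg
    rw [a1, a2] at this
    linear_combination -this
  have u0 : m1 4 * D u xh + m2 4 * D v xh = 0 := by
    have := rel xh
    rw [b1, b2] at this
    linear_combination this
  have hV : ∀ x, n2 4 * D u x - n1 4 * D v x = κ * D g x := by
    intro x
    have e1 := rel (x + xg)
    have e2 := rel x
    have e3 := rel xg
    simp only [D_add] at e1
    rw [a1, a2] at e1 e3
    rw [hκ]
    linear_combination -e1 + e2 + e3 - D h x * v0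
  have hκ2 : n2 4 * D u xh - n1 4 * D v xh = κ := by
    rw [hV xh, b2, mul_one]
  have hU : ∀ x, m1 4 * D u x + m2 4 * D v x = κ * D h x := by
    intro x
    have e1 := rel (x + xh)
    have e2 := rel x
    have e3 := rel xh
    simp only [D_add] at e1
    rw [b1, b2] at e1 e3
    rw [← hκ2]
    linear_combination e1 - e2 - e3 - D g x * u0
  -- the normal form
  have Q : ∀ x w, F x + w ^ 2 = (κ * D g x * D h x + w +
      (m1 4 * (D n1 x + cn1) + m2 4 * (D n2 x + cn2))) *
      (-(κ * D g x * D h x) + w + (n1 4 * (D m1 x + cm1) + n2 4 * (D m2 x + cm2))) -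
      (κ * D g x ^ 2 + (n2 4 * (D n1 x + cn1) - n1 4 * (D n2 x + cn2))) *
      (-(κ * D h x ^ 2) + (m1 4 * (D m2 x + cm2) - m2 4 * (D m1 x + cm1))) := by
    intro x w
    exact alg _ _ _ _ _ _ _ _ _ _ _ _ κ w (F x) hdet (hU x) (hV x) (P0 x w)
  -- linear parts
  obtain ⟨p, hp⟩ : ∃ p : (Fin 4 → K) → K, ∀ x, p x = m1 4 * D n1 x + m2 4 * D n2 x :=
    ⟨_, fun _ => rfl⟩
  obtain ⟨q, hq⟩ : ∃ q : (Fin 4 → K) → K, ∀ x, q x = n2 4 * D n1 x - n1 4 * D n2 x :=
    ⟨_, fun _ => rfl⟩
  obtain ⟨r, hr⟩ : ∃ r : (Fin 4 → K) → K, ∀ x, r x = m1 4 * D m2 x - m2 4 * D m1 x :=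
    ⟨_, fun _ => rfl⟩
  obtain ⟨p0, hp0⟩ : ∃ p0, p0 = m1 4 * cn1 + m2 4 * cn2 := ⟨_, rfl⟩
  obtain ⟨q0, hq0⟩ : ∃ q0, q0 = n2 4 * cn1 - n1 4 * cn2 := ⟨_, rfl⟩
  obtain ⟨r0, hr0⟩ : ∃ r0, r0 = m1 4 * cm2 - m2 4 * cm1 := ⟨_, rfl⟩
  have Q' : ∀ x w, F x + w ^ 2 = (κ * D g x * D h x + w + (p x + p0)) *
      (-(κ * D g x * D h x) + w + (n1 4 * (D m1 x + cm1) + n2 4 * (D m2 x + cm2))) -
      (κ * D g x ^ 2 + (q x + q0)) * (-(κ * D h x ^ 2) + (r x + r0)) := by
    intro x w
    rw [Q x w, hp, hq, hr, hp0, hq0, hr0]; ring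
  have hs : ∀ x, n1 4 * (D m1 x + cm1) + n2 4 * (D m2 x + cm2) = -(p x + p0) := by
    intro x
    have e0 := Q' x 0
    have e1 := Q' x 1
    linear_combination e0 - e1
  have star : ∀ x, F x + (p x + p0) ^ 2 + (q x + q0) * (r x + r0) =
      κ * (D h x ^ 2 * (q x + q0) - D g x ^ 2 * (r x + r0) - 2 * D g x * D h x * (p x + p0)) := by
    intro x
    have e0 := Q' x 0
    rw [hs x] at e0
    linear_combination e0
  have p_add : ∀ x y, p (x + y) = p x + p y := by
    intro x y; rw [hp, hp, hp, D_add, D_add]; ring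
  have q_add : ∀ x y, q (x + y) = q x + q y := by
    intro x y; rw [hq, hq, hq, D_add, D_add]; ring
  have r_add : ∀ x y, r (x + y) = r x + r y := by
    intro x y; rw [hr, hr, hr, D_add, D_add]; ring
  have p_smul : ∀ (l : K) x, p (l • x) = l * p x := by
    intro x y; rw [hp, hp, D_smul, D_smul]; ring
  have q_smul : ∀ (l : K) x, q (l • x) = l * q x := by
    intro x y; rw [hq, hq, D_smul, D_smul]; ring
  have r_smul : ∀ (l : K) x, r (l • x) = l * r x := by
    intro x y; rw [hr, hr, D_smul, D_smul]; ring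
  have parts : ∀ x, F x = κ * (D h x ^ 2 * q x - D g x ^ 2 * r x - 2 * D g x * D h x * p x) ∧
      p x ^ 2 + q x * r x = κ * (D h x ^ 2 * q0 - D g x ^ 2 * r0 - 2 * D g x * D h x * p0) := by
    intro x
    have := poly3
      (F x - κ * (D h x ^ 2 * q x - D g x ^ 2 * r x - 2 * D g x * D h x * p x))
      (p x ^ 2 + q x * r x - κ * (D h x ^ 2 * q0 - D g x ^ 2 * r0 - 2 * D g x * D h x * p0))
      (2 * p x * p0 + q x * r0 + q0 * r x) (p0 ^ 2 + q0 * r0) (by
        intro l
        have := star (l • x)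
        rw [F_smul, p_smul, q_smul, r_smul, D_smul, D_smul] at this
        linear_combination this)
    exact ⟨by linear_combination this.1, by linear_combination this.2.1⟩
  have onW : ∀ x, D g x = 0 → D h x = 0 → p x ^ 2 + q x * r x = 0 := by
    intro x h1 h2
    rw [(parts x).2, h1, h2]; ring
  -- a common zero
  have exv : ∀ c : Fin 6 → K, ∃ z : Fin 4 → K, z ≠ 0 ∧ D g z = 0 ∧ D h z = 0 ∧ D c z = 0 := by
    intro c
    obtain ⟨z, hz0, hz⟩ := (Matrix.exists_mulVec_eq_zero_iff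
      (M := !![g 0, g 1, g 2, g 3; h 0, h 1, h 2, h 3; c 0, c 1, c 2, c 3; 0, 0, 0, 0])).mpr
      (Matrix.det_eq_zero_of_row_eq_zero 3 (by intro j; fin_cases j <;> simp))
    refine ⟨z, hz0, ?_, ?_, ?_⟩
    · have := congrFun hz 0
      simp [Matrix.mulVec, dotProduct, Fin.sum_univ_four] at this
      exact this
    · have := congrFun hz 1
      simp [Matrix.mulVec, dotProduct, Fin.sum_univ_four] at this
      exact this
    · have := congrFun hz 2
      simp [Matrix.mulVec, dotProduct, Fin.sum_univ_four] at this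
      exact this
  have hqD : ∀ x, q x = D (fun i => n2 4 * n1 i - n1 4 * n2 i) x := by
    intro x; rw [hq]; simp [D]; ring
  have hrD : ∀ x, r x = D (fun i => m1 4 * m2 i - m2 4 * m1 i) x := by
    intro x; rw [hr]; simp [D]; ring
  obtain ⟨z, hz0, zg, zh, zp, zq, zr⟩ : ∃ z : Fin 4 → K, z ≠ 0 ∧ D g z = 0 ∧ D h z = 0 ∧
      p z = 0 ∧ q z = 0 ∧ r z = 0 := by
    by_cases hqz : ∀ x, D g x = 0 → D h x = 0 → q x = 0
    · obtain ⟨z, hz0, zg, zh, zr⟩ := exv (fun i => m1 4 * m2 i - m2 4 * m1 i)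
      rw [← hrD] at zr
      have zq := hqz z zg zh
      have zp : p z = 0 := by
        have := onW z zg zh
        rw [zq, zero_mul, add_zero] at this
        exact pow_eq_zero_iff (two_ne_zero) |>.mp this
      exact ⟨z, hz0, zg, zh, zp, zq, zr⟩
    · push Not at hqz
      obtain ⟨y, yg, yh, yq⟩ := hqz
      obtain ⟨z, hz0, zg, zh, zq⟩ := exv (fun i => n2 4 * n1 i - n1 4 * n2 i)
      rw [← hqD] at zq
      have zp : p z = 0 := by
        have := onW z zg zh
        rw [zq, zero_mul, add_zero] at this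
        exact pow_eq_zero_iff (two_ne_zero) |>.mp this
      have zr : r z = 0 := by
        have e1 := onW (z + y) (by rw [D_add, zg, yg, add_zero]) (by rw [D_add, zh, yh, add_zero])
        have e2 := onW y yg yh
        rw [p_add, q_add, r_add, zp, zq] at e1
        have : q y * r z = 0 := by linear_combination e1 - e2
        exact (mul_eq_zero.mp this).resolve_left yq
      exact ⟨z, hz0, zg, zh, zp, zq, zr⟩
  have trans : ∀ x, F (x + z) = F x := by
    intro x
    rw [(parts (x + z)).1, (parts x).1, D_add, D_add, p_add, q_add, r_add, zg, zh, zp, zq, zr]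
    ring
  apply hz0
  have t := fun x a y c => trans ![x, a, y, c]
  have z1 : z 1 = 0 := by
    have := poly3 0 (z 1) (2 * z 0 * z 1) (z 0 ^ 2 * z 1 + z 2 ^ 2 * z 3) (by
      intro l
      have := t l 0 0 0
      simp [F] at this
      linear_combination this)
    exact this.2.1
  have z3 : z 3 = 0 := by
    have := poly3 0 (z 3) (2 * z 2 * z 3) (z 0 ^ 2 * z 1 + z 2 ^ 2 * z 3) (by
      intro l
      have := t 0 0 l 0
      simp [F] at this
      linear_combination this)
    exact this.2.1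
  have z00 : z 0 = 0 := by
    have := t 0 1 0 0
    simp [F, z1, z3] at this
    exact this
  have z2 : z 2 = 0 := by
    have := t 0 0 0 1
    simp [F, z1, z3] at this
    exact this
  funext i
  fin_cases i
  · exact z00
  · exact z1
  · exact z2
  · exact z3

end Q46.Schmidt
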