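import Mathlib

set_option linter.unusedVariables false
set_option linter.unusedSimpArgs false

universe u

namespace Pool.Agent.Q46.Td

/-- `S` is a total dominating set of `G`: every vertex has a neighbour in `S`. -/
def IsTotalDominating {V : Type*} (G : SimpleGraph V) (S : Finset V) : Prop :=
  ∀ v, ∃ w ∈ S, G.Adj v w

/-- the total domination number: minimum size of a total dominating set -/
noncomputable def totalDominationNumber {V : Type*} (G : SimpleGraph V) : ℕ :=
  sInf {k | ∃ S : Finset V, IsTotalDominating G S ∧ S.card = k}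

/-- the claw `K_{1,3}` -/
def claw : SimpleGraph (Fin 4) := SimpleGraph.fromEdgeSet {s(0, 1), s(0, 2), s(0, 3)}

/-- the diamond: `K_4` minus one edge -/
def diamond : SimpleGraph (Fin 4) := SimpleGraph.fromEdgeSet {s(2, 3)}ᶜ

/-- connected claw-free diamond-free cubic graphs -/
structure InC {V : Type*} (G : SimpleGraph V) : Prop where
  connected : G.Connected
  cubic : ∀ v, (G.neighborSet v).ncard = 3
  clawFree : IsEmpty (claw ↪g G)
  diamondFree : IsEmpty (diamond ↪g G)

/-- abstract triangle structure: vertices `V`, triangles `Tri`, every vertex in one triangle,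
outer neighbour involution `o`. -/
structure TS (V Tri : Type*) [Fintype V] [DecidableEq Tri] where
  T : V → Tri
  o : V → V
  inv : ∀ v, o (o v) = v
  loop : ∀ v, T (o v) ≠ T v
  fib : ∀ t, (Finset.univ.filter (fun v => T v = t)).card = 3

def TS.graph {V Tri : Type*} [Fintype V] [DecidableEq Tri] (S : TS V Tri) : SimpleGraph V where
  Adj v w := (v ≠ w ∧ S.T v = S.T w) ∨ w = S.o v
  symm := ⟨by
    rintro v w (⟨h, h'⟩ | h)
    · exact Or.inl ⟨h.symm, h'.symm⟩
    · right; rw [h, S.inv]⟩
  loopless := ⟨by
    rintro v (⟨h, _⟩ | h)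
    · exact h rfl
    · exact S.loop v (by rw [← h])⟩

/-- elementary forms -/
lemma claw_elem {V : Type*} {G : SimpleGraph V} (h : IsEmpty (claw ↪g G)) {v a b c : V}
    (ha : G.Adj v a) (hb : G.Adj v b) (hc : G.Adj v c) (hab : a ≠ b) (hac : a ≠ c) (hbc : b ≠ c) :
    G.Adj a b ∨ G.Adj a c ∨ G.Adj b c := by
  by_contra hcon
  push Not at hcon
  obtain ⟨h1, h2, h3⟩ := hcon
  refine h.false ⟨⟨![v, a, b, c], ?_⟩, ?_⟩
  · intro i j hij
    fin_cases i <;> fin_cases j <;> simp at hij ⊢
    · exact ha.ne hij
    · exact hb.ne hij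
    · exact hc.ne hij
    · exact ha.ne hij.symm
    · exact hab hij
    · exact hac hij
    · exact hb.ne hij.symm
    · exact hab hij.symm
    · exact hbc hij
    · exact hc.ne hij.symm
    · exact hac hij.symm
    · exact hbc hij.symm
  · intro i j
    change G.Adj (![v, a, b, c] i) (![v, a, b, c] j) ↔ _
    fin_cases i <;> fin_cases j <;>
      simp [claw, ha, hb, hc, ha.symm, hb.symm, hc.symm, h1, h2, h3, G.adj_comm b a, G.adj_comm c a, G.adj_comm c b]

lemma diamond_elem {V : Type*} {G : SimpleGraph V} (h : IsEmpty (diamond ↪g G)) {v a b c : V}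
    (ha : G.Adj v a) (hb : G.Adj v b) (hc : G.Adj v c) (hab : G.Adj a b) (hac : G.Adj a c) (hbc : b ≠ c) :
    G.Adj b c := by
  by_contra hcon
  refine h.false ⟨⟨![v, a, b, c], ?_⟩, ?_⟩
  · intro i j hij
    fin_cases i <;> fin_cases j <;> simp at hij ⊢
    · exact ha.ne hij
    · exact hb.ne hij
    · exact hc.ne hij
    · exact ha.ne hij.symm
    · exact hab.ne hij
    · exact hac.ne hij
    · exact hb.ne hij.symm
    · exact hab.ne hij.symm
    · exact hbc hij
    · exact hc.ne hij.symm
    · exact hac.ne hij.symm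
    · exact hbc hij.symm
  · intro i j
    change G.Adj (![v, a, b, c] i) (![v, a, b, c] j) ↔ _
    fin_cases i <;> fin_cases j <;>
      simp [diamond, ha, hb, hc, ha.symm, hb.symm, hc.symm, hab, hac, hab.symm, hac.symm, hcon, G.adj_comm c b]

lemma claw_of {V : Type*} {G : SimpleGraph V}
    (h : ∀ v a b c, G.Adj v a → G.Adj v b → G.Adj v c → a ≠ b → a ≠ c → b ≠ c →
      G.Adj a b ∨ G.Adj a c ∨ G.Adj b c) : IsEmpty (claw ↪g G) := by
  refine ⟨fun f => ?_⟩
  have hinj := f.injective
  have hadj : ∀ i j, G.Adj (f i) (f j) ↔ claw.Adj i j := fun i j => f.map_rel_iff'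
  have := h (f 0) (f 1) (f 2) (f 3) ((hadj 0 1).2 (by simp [claw])) ((hadj 0 2).2 (by simp [claw]))
    ((hadj 0 3).2 (by simp [claw])) (fun e => by simpa using hinj e) (fun e => by simpa using hinj e)
    (fun e => by simpa using hinj e)
  rw [hadj, hadj, hadj] at this
  simp [claw] at this

lemma diamond_of {V : Type*} {G : SimpleGraph V}
    (h : ∀ v a b c, G.Adj v a → G.Adj v b → G.Adj v c → G.Adj a b → G.Adj a c → b ≠ c →
      G.Adj b c) : IsEmpty (diamond ↪g G) := by
  refine ⟨fun f => ?_⟩
  have hinj := f.injective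
  have hadj : ∀ i j, G.Adj (f i) (f j) ↔ diamond.Adj i j := fun i j => f.map_rel_iff'
  have := h (f 0) (f 1) (f 2) (f 3) ((hadj 0 1).2 (by simp [diamond])) ((hadj 0 2).2 (by simp [diamond]))
    ((hadj 0 3).2 (by simp [diamond])) ((hadj 1 2).2 (by simp [diamond])) ((hadj 1 3).2 (by simp [diamond]))
    (fun e => by simpa using hinj e)
  rw [hadj] at this
  simp [diamond] at this

/-- a nonempty closed set in a connected graph is everything -/
lemma closed_univ {V : Type*} {G : SimpleGraph V} (hG : G.Connected) {s : Set V} {x : V} (hx : x ∈ s)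
    (hs : ∀ a ∈ s, ∀ b, G.Adj a b → b ∈ s) (y : V) : y ∈ s := by
  obtain ⟨w⟩ := hG.preconnected x y
  induction w with
  | nil => exact hx
  | cons h p ih => exact ih (hs _ hx _ h)

lemma nbrs {V : Type*} [Fintype V] {G : SimpleGraph V} (hG : InC G) (hV : 5 ≤ Fintype.card V) (v : V) :
    ∃ a b c, a ≠ b ∧ a ≠ c ∧ b ≠ c ∧ (∀ w, G.Adj v w ↔ w = a ∨ w = b ∨ w = c) ∧ G.Adj a b ∧
      ¬ G.Adj a c ∧ ¬ G.Adj b c := by
  classical
  have main : ∀ v a b c : V, a ≠ b → a ≠ c → b ≠ c → G.neighborSet v = {a, b, c} → G.Adj a b →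
      G.Adj a c → False := by
    intro v a b c hab hac hbc hN h1 h2
    have ha : G.Adj v a := by rw [← SimpleGraph.mem_neighborSet, hN]; simp
    have hb : G.Adj v b := by rw [← SimpleGraph.mem_neighborSet, hN]; simp
    have hc : G.Adj v c := by rw [← SimpleGraph.mem_neighborSet, hN]; simp
    have h3 := diamond_elem hG.diamondFree ha hb hc h1 h2 hbc
    have key : ∀ x y z w : V, G.Adj x y → G.Adj x z → G.Adj x w → y ≠ z → y ≠ w → z ≠ w →
        G.neighborSet x = {y, z, w} := by
      intro x y z w h1 h2 h3 h4 h5 h6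
      symm
      have hf : (G.neighborSet x).Finite := Set.toFinite _
      refine Set.eq_of_subset_of_ncard_le ?_ ?_ hf
      · intro u hu
        simp only [Set.mem_insert_iff, Set.mem_singleton_iff] at hu
        rcases hu with rfl | rfl | rfl <;> simpa
      · rw [hG.cubic, Set.ncard_eq_three.2 ⟨y, z, w, h4, h5, h6, rfl⟩]
    have hNa := key a v b c ha.symm h1 h2 hb.ne hc.ne hbc
    have hNb := key b v a c hb.symm h1.symm h3 ha.ne hc.ne hac
    have hNc := key c v a b hc.symm h2.symm h3.symm ha.ne hb.ne hab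
    have hall : ∀ y : V, y ∈ ({v, a, b, c} : Set V) := by
      apply closed_univ hG.connected (x := v) (by simp)
      intro x hx y hxy
      rw [← SimpleGraph.mem_neighborSet] at hxy
      simp only [Set.mem_insert_iff, Set.mem_singleton_iff] at hx ⊢
      rcases hx with rfl | rfl | rfl | rfl
      · rw [hN] at hxy; simp only [Set.mem_insert_iff, Set.mem_singleton_iff] at hxy; tauto
      · rw [hNa] at hxy; simp only [Set.mem_insert_iff, Set.mem_singleton_iff] at hxy; tauto
      · rw [hNb] at hxy; simp only [Set.mem_insert_iff, Set.mem_singleton_iff] at hxy; tauto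
      · rw [hNc] at hxy; simp only [Set.mem_insert_iff, Set.mem_singleton_iff] at hxy; tauto
    have hcard : Fintype.card V ≤ 4 := by
      rw [← Finset.card_univ]
      refine le_trans (Finset.card_le_card (t := {v, a, b, c}) ?_) Finset.card_le_four
      intro y _
      have := hall y
      simpa using this
    omega
  obtain ⟨a, b, c, hab, hac, hbc, hN⟩ := Set.ncard_eq_three.1 (hG.cubic v)
  have hmem : ∀ w, G.Adj v w ↔ w = a ∨ w = b ∨ w = c := by
    intro w
    rw [← SimpleGraph.mem_neighborSet, hN]; simp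
  have hcl := claw_elem hG.clawFree ((hmem a).2 (by simp)) ((hmem b).2 (by simp)) ((hmem c).2 (by simp))
    hab hac hbc
  rcases hcl with h | h | h
  · exact ⟨a, b, c, hab, hac, hbc, hmem, h, fun h' => main v a b c hab hac hbc hN h h',
      fun h' => main v b a c hab.symm hbc hac (by rw [hN, Set.insert_comm]) h.symm h'⟩
  · refine ⟨a, c, b, hac, hab, hbc.symm, fun w => by rw [hmem]; tauto, h,
      fun h' => main v a c b hac hab hbc.symm (by rw [hN, Set.pair_comm]) h h',
      fun h' => main v c a b hac.symm hbc.symm hab (by rw [hN]; ext w; simp; tauto) h.symm h'⟩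
  · refine ⟨b, c, a, hbc, hab.symm, hac.symm, fun w => by rw [hmem]; tauto, h,
      fun h' => main v b c a hbc hab.symm hac.symm (by rw [hN]; ext w; simp; tauto) h h',
      fun h' => main v c b a hbc.symm hac.symm hab.symm (by rw [hN]; ext w; simp; tauto) h.symm h'⟩

/-- every graph of the class (order at least 5) is the graph of a triangle structure -/
theorem exists_TS {V : Type u} [Fintype V] [DecidableEq V] {G : SimpleGraph V} (hG : InC G)
    (hV : 5 ≤ Fintype.card V) :
    ∃ (Tri : Type u) (_ : Fintype Tri) (_ : DecidableEq Tri) (S : TS V Tri), S.graph = G := by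
  classical
  choose a b o hab hao hbo hN hadj hna hnb using nbrs hG hV
  have hvo : ∀ v, G.Adj v (o v) := fun v => (hN v _).2 (by simp)
  have hva : ∀ v, G.Adj v (a v) := fun v => (hN v _).2 (by simp)
  have hvb : ∀ v, G.Adj v (b v) := fun v => (hN v _).2 (by simp)
  have hno : ∀ v w, G.Adj v w → G.Adj w (o v) → False := by
    intro v w h1 h2
    rcases (hN v w).1 h1 with rfl | rfl | rfl
    · exact hna v h2
    · exact hnb v h2
    · exact h2.ne rfl
  have hinv : ∀ v, o (o v) = v := by
    intro v
    by_contra hne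
    have h1 := (hN (o v) v).1 (hvo v).symm
    rcases h1 with h | h | h
    · -- v = a (o v), b (o v) adjacent to both
      have h2 : G.Adj v (b (o v)) := by
        have := hadj (o v); rwa [← h] at this
      exact hno v _ h2 (hvb (o v)).symm
    · have h2 : G.Adj v (a (o v)) := by
        have := hadj (o v); rw [← h] at this; exact this.symm
      exact hno v _ h2 (hva (o v)).symm
    · exact hne h.symm
  let R : V → V → Prop := fun v w => v = w ∨ (G.Adj v w ∧ w ≠ o v)
  have hR : ∀ v w, R v w ↔ (w = v ∨ w = a v ∨ w = b v) := by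
    intro v w
    simp only [R]
    constructor
    · rintro (h | ⟨h, h'⟩)
      · exact Or.inl h.symm
      · rcases (hN v w).1 h with h | h | h
        · exact Or.inr (Or.inl h)
        · exact Or.inr (Or.inr h)
        · exact absurd h h'
    · rintro (h | h | h)
      · exact Or.inl h.symm
      · right; rw [h]; exact ⟨hva v, hao v⟩
      · right; rw [h]; exact ⟨hvb v, hbo v⟩
  have hsymm : ∀ v w, R v w → R w v := by
    rintro v w (h | ⟨h, h'⟩)
    · exact Or.inl h.symm
    · refine Or.inr ⟨h.symm, fun e => h' ?_⟩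
      rw [e, hinv]
  have htrans : ∀ v w x, R v w → R w x → R v x := by
    intro v w x h1 h2
    rcases h1 with rfl | ⟨h1, h1'⟩
    · exact h2
    rcases h2 with rfl | ⟨h2, h2'⟩
    · exact Or.inr ⟨h1, h1'⟩
    by_cases hvx : v = x
    · exact Or.inl hvx
    have h3 : v ≠ o w := fun e => h1' (by rw [e, hinv])
    have e1 := (hN w v).1 h1.symm
    have e2 := (hN w x).1 h2
    have hvxadj : G.Adj v x := by
      rcases e1 with e1 | e1 | e1
      · rcases e2 with e2 | e2 | e2
        · exact absurd (e1.trans e2.symm) hvx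
        · rw [e1, e2]; exact hadj w
        · exact absurd e2 h2'
      · rcases e2 with e2 | e2 | e2
        · rw [e1, e2]; exact (hadj w).symm
        · exact absurd (e1.trans e2.symm) hvx
        · exact absurd e2 h2'
      · exact absurd e1 h3
    refine Or.inr ⟨hvxadj, fun e => ?_⟩
    exact hno v w h1 (by rw [← e]; exact h2)
  let st : Setoid V := ⟨R, ⟨fun v => Or.inl rfl, fun {v w} => hsymm v w, fun {v w x} => htrans v w x⟩⟩
  have hq : ∀ v w, (Quotient.mk st v = Quotient.mk st w) ↔ R v w := fun v w => Quotient.eq (r := st)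
  refine ⟨Quotient st, inferInstance, inferInstance, ⟨Quotient.mk st, o, hinv, ?_, ?_⟩, ?_⟩
  · intro v h
    rcases (hq _ _).1 h with h | ⟨h, h'⟩
    · exact (hvo v).ne h.symm
    · exact h' (hinv v).symm
  · intro t
    induction t using Quotient.inductionOn with
    | h v =>
      have : (Finset.univ.filter (fun w => (Quotient.mk st w) = Quotient.mk st v)) = {v, a v, b v} := by
        ext w
        simp only [Finset.mem_filter, Finset.mem_univ, true_and, Finset.mem_insert, Finset.mem_singleton]
        rw [hq]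
        constructor
        · intro h; exact (hR v w).1 (hsymm _ _ h)
        · intro h; exact hsymm _ _ ((hR v w).2 h)
      rw [this]
      exact Finset.card_eq_three.2 ⟨v, a v, b v, (hva v).ne, (hvb v).ne, hab v, rfl⟩
  · ext v w
    simp only [TS.graph]
    rw [hq]
    constructor
    · rintro (⟨h1, h2 | ⟨h2, _⟩⟩ | h)
      · exact absurd h2 h1
      · exact h2
      · rw [h]; exact hvo v
    · intro h
      by_cases h' : w = o v
      · exact Or.inr h'
      · exact Or.inl ⟨h.ne, Or.inr ⟨h, h'⟩⟩

/-- conversely, the graph of a triangle structure is cubic, claw-free and diamond-free -/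
lemma TS.cubic {V Tri : Type*} [Fintype V] [DecidableEq Tri] (S : TS V Tri) (v : V) :
    (S.graph.neighborSet v).ncard = 3 := by
  classical
  have h : S.graph.neighborSet v =
      (insert (S.o v) ((Finset.univ.filter (fun w => S.T w = S.T v)).erase v) : Finset V) := by
    ext w
    simp only [SimpleGraph.mem_neighborSet, TS.graph, Finset.coe_insert, Finset.coe_erase, Finset.coe_filter,
      Finset.mem_univ, true_and, Set.mem_insert_iff, Set.mem_sdiff, Set.mem_ofPred_eq, Set.mem_singleton_iff]
    constructor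
    · rintro (⟨h1, h2⟩ | h)
      · exact Or.inr ⟨h2.symm, h1.symm⟩
      · exact Or.inl h
    · rintro (h | ⟨h1, h2⟩)
      · exact Or.inr h
      · exact Or.inl ⟨Ne.symm h2, h1.symm⟩
  rw [h, Set.ncard_coe_finset, Finset.card_insert_of_notMem, Finset.card_erase_of_mem, S.fib]
  · simp
  · simp only [Finset.mem_erase, Finset.mem_filter, Finset.mem_univ, true_and, not_and]
    intro _
    exact S.loop v

lemma TS.inC {V Tri : Type*} [Fintype V] [DecidableEq Tri] (S : TS V Tri) (hc : S.graph.Connected) :
    InC S.graph := by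
  refine ⟨hc, S.cubic, claw_of ?_, diamond_of ?_⟩
  · intro v a b c ha hb hc hab hac hbc
    rcases ha with ⟨ha, ha'⟩ | ha <;> rcases hb with ⟨hb, hb'⟩ | hb <;> rcases hc with ⟨hc, hc'⟩ | hc
    · exact Or.inl (Or.inl ⟨hab, ha'.symm.trans hb'⟩)
    · exact Or.inl (Or.inl ⟨hab, ha'.symm.trans hb'⟩)
    · exact Or.inr (Or.inl (Or.inl ⟨hac, ha'.symm.trans hc'⟩))
    · exact absurd (hb.trans hc.symm) hbc
    · exact Or.inr (Or.inr (Or.inl ⟨hbc, hb'.symm.trans hc'⟩))
    · exact absurd (ha.trans hc.symm) hac
    · exact absurd (ha.trans hb.symm) hab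
    · exact absurd (ha.trans hb.symm) hab
  · intro v a b c ha hb hc hab hac hbc
    rcases ha with ⟨ha, ha'⟩ | ha
    · rcases hb with ⟨hb, hb'⟩ | hb
      · rcases hc with ⟨hc, hc'⟩ | hc
        · exact Or.inl ⟨hbc, hb'.symm.trans hc'⟩
        · exfalso
          rcases hac with ⟨h1, h2⟩ | h1
          · exact S.loop v (by rw [← hc, ← h2, ha'])
          · have := congrArg S.o h1; rw [hc, S.inv, S.inv] at this; exact ha this
      · exfalso
        rcases hab with ⟨h1, h2⟩ | h1
        · exact S.loop v (by rw [← hb, ← h2, ha'])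
        · have := congrArg S.o h1; rw [hb, S.inv, S.inv] at this; exact ha this
    · exfalso
      rcases hb with ⟨hb, hb'⟩ | hb
      · rcases hab with ⟨h1, h2⟩ | h1
        · exact S.loop v (by rw [← ha, h2, hb'])
        · rw [ha, S.inv] at h1; exact hb h1.symm
      · exact hab.ne (ha.trans hb.symm)

end Pool.Agent.Q46.Td
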