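import Pool.Agent.Q46.TdA
import Pool.Agent.H168DD.TB

set_option linter.unusedVariables false
set_option linter.unusedSimpArgs false
set_option linter.unusedSectionVars false

namespace Pool.Agent.Q46.Td

lemma even_card_of_inv {V : Type*} [DecidableEq V] (s : Finset V) (f : V → V) (hf : ∀ x ∈ s, f x ∈ s)
    (hinv : ∀ x ∈ s, f (f x) = x) (hne : ∀ x ∈ s, f x ≠ x) : Even s.card := by
  have h : ∑ x ∈ s, (1 : ZMod 2) = 0 := by
    refine Finset.sum_involution (fun x _ => f x) ?_ ?_ ?_ ?_
    · intro a ha; decide
    · intro a ha _; exact hne a ha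
    · intro a ha; exact hf a ha
    · intro a ha; exact hinv a ha
  rw [Finset.sum_const, nsmul_eq_mul, mul_one] at h
  exact (ZMod.natCast_eq_zero_iff_even).1 h

variable {V Tri : Type*} [Fintype V] [DecidableEq V] [Fintype Tri] [DecidableEq Tri] (S : TS V Tri)

include S

lemma TS.card_T_mem (X : Finset Tri) :
    (Finset.univ.filter (fun v => S.T v ∈ X)).card = 3 * X.card := by
  rw [Finset.card_eq_sum_card_fiberwise (f := S.T) (t := X)]
  · rw [Finset.sum_congr rfl (g := fun _ => 3), Finset.sum_const, smul_eq_mul, mul_comm]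
    intro t ht
    rw [← S.fib t, Finset.filter_filter]
    congr 1
    ext v
    simp only [Finset.mem_filter, Finset.mem_univ, true_and]
    constructor
    · exact fun h => h.2
    · intro h; exact ⟨h ▸ ht, h⟩
  · intro v hv
    simpa using hv

lemma TS.card_V : Fintype.card V = 3 * Fintype.card Tri := by
  have := S.card_T_mem Finset.univ
  simpa using this

lemma TS.even_tri : Even (Fintype.card Tri) := by
  have h : Even (Finset.univ : Finset V).card :=
    even_card_of_inv _ S.o (fun _ _ => Finset.mem_univ _) (fun x _ => S.inv x)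
      (fun x _ h => S.loop x (by rw [h]))
  rw [Finset.card_univ, S.card_V] at h
  rcases Nat.even_mul.1 h with h | h
  · exact absurd h (by decide)
  · exact h

lemma TS.exists_T (t : Tri) : ∃ v, S.T v = t := by
  have h : 0 < (Finset.univ.filter (fun v => S.T v = t)).card := by rw [S.fib]; norm_num
  obtain ⟨v, hv⟩ := Finset.card_pos.1 h
  exact ⟨v, by simpa using hv⟩

/-- the graph on the triangles -/
def TS.H : SimpleGraph Tri where
  Adj t t' := t ≠ t' ∧ ∃ v, S.T v = t ∧ S.T (S.o v) = t'
  symm := ⟨by
    rintro t t' ⟨h, v, h1, h2⟩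
    exact ⟨h.symm, S.o v, h2, by rw [S.inv]; exact h1⟩⟩
  loopless := ⟨fun t h => h.1 rfl⟩

lemma TS.H_adj (v : V) : S.H.Adj (S.T v) (S.T (S.o v)) := ⟨(S.loop v).symm, v, rfl, rfl⟩

/-- connectivity bound -/
lemma TS.conn_bound (hc : S.graph.Connected) (A : Finset Tri) (F : Finset (Finset Tri))
    (hne : ∀ O ∈ F, O.Nonempty)
    (hdisj : ∀ O ∈ F, ∀ O' ∈ F, O ≠ O' → Disjoint O O')
    (hA : ∀ O ∈ F, Disjoint O A)
    (hcl : ∀ O ∈ F, ∀ x ∈ O, ∀ y, S.H.Adj x y → y ∈ O ∨ y ∈ A) (a0 : Tri) (ha0 : a0 ∈ A) :
    F.card ≤ 2 * A.card + 1 := by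
  classical
  let κ : Tri → (↥A) ⊕ (Option ↥F) := fun t =>
    if h : t ∈ A then Sum.inl ⟨t, h⟩ else
      if h' : ∃ O : ↥F, t ∈ O.1 then Sum.inr (some h'.choose) else Sum.inr none
  have κA : ∀ t (h : t ∈ A), κ t = Sum.inl ⟨t, h⟩ := fun t h => by simp only [κ]; rw [dif_pos h]
  have κF : ∀ t (O : Finset Tri) (hO : O ∈ F), t ∈ O → κ t = Sum.inr (some ⟨O, hO⟩) := by
    intro t O hO ht
    have h1 : t ∉ A := fun h => Finset.disjoint_left.1 (hA O hO) ht h
    have h2 : ∃ O : ↥F, t ∈ O.1 := ⟨⟨O, hO⟩, ht⟩
    simp only [κ]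
    rw [dif_neg h1, dif_pos h2]
    congr 2
    by_contra hne'
    have := hdisj h2.choose.1 h2.choose.2 O hO (fun e => hne' (Subtype.ext e))
    exact Finset.disjoint_left.1 this h2.choose_spec ht
  have κN : ∀ t, t ∉ A → (∀ O ∈ F, t ∉ O) → κ t = Sum.inr none := by
    intro t h1 h2
    simp only [κ]
    rw [dif_neg h1, dif_neg]
    rintro ⟨O, hO⟩
    exact h2 O.1 O.2 hO
  let a0' : (↥A) ⊕ (Option ↥F) := Sum.inl ⟨a0, ha0⟩
  let b0' : (↥A) ⊕ (Option ↥F) := Sum.inr none
  let Q : SimpleGraph ((↥A) ⊕ (Option ↥F)) :=
    { Adj := fun w w' => w ≠ w' ∧ ((∃ v, κ (S.T v) = w ∧ κ (S.T (S.o v)) = w') ∨ (w = a0' ∧ w' = b0') ∨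
        (w = b0' ∧ w' = a0'))
      symm := ⟨by
        rintro w w' ⟨h, h1 | h1 | h1⟩
        · obtain ⟨v, h2, h3⟩ := h1
          exact ⟨h.symm, Or.inl ⟨S.o v, h3, by rw [S.inv]; exact h2⟩⟩
        · exact ⟨h.symm, Or.inr (Or.inr ⟨h1.2, h1.1⟩)⟩
        · exact ⟨h.symm, Or.inr (Or.inl ⟨h1.2, h1.1⟩)⟩⟩
      loopless := ⟨fun w h => h.1 rfl⟩ }
  have hreachV : ∀ v, Q.Reachable a0' (κ (S.T v)) := by
    obtain ⟨v0, hv0⟩ := S.exists_T a0
    intro v
    have := closed_univ hc (s := {v | Q.Reachable a0' (κ (S.T v))}) (x := v0) (by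
      simp only [Set.mem_ofPred_eq]
      rw [hv0, κA a0 ha0]) (by
      intro a ha b hab
      simp only [Set.mem_ofPred_eq] at ha ⊢
      rcases hab with ⟨_, h⟩ | h
      · rw [← h]; exact ha
      · by_cases he : κ (S.T a) = κ (S.T b)
        · rw [← he]; exact ha
        · refine ha.trans (SimpleGraph.Adj.reachable ?_)
          exact ⟨he, Or.inl ⟨a, rfl, by rw [h]⟩⟩) v
    exact this
  have hreach : ∀ w, Q.Reachable a0' w := by
    rintro (⟨a, ha⟩ | (_ | ⟨O, hO⟩))
    · obtain ⟨v, hv⟩ := S.exists_T a
      have := hreachV v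
      rwa [hv, κA a ha] at this
    · refine SimpleGraph.Adj.reachable ?_
      exact ⟨by simp [a0'], Or.inr (Or.inl ⟨rfl, rfl⟩)⟩
    · obtain ⟨t, ht⟩ := hne O hO
      obtain ⟨v, hv⟩ := S.exists_T t
      have := hreachV v
      rwa [hv, κF t O hO ht] at this
  have hQ : Q.Connected := by
    rw [SimpleGraph.connected_iff_exists_forall_reachable]
    exact ⟨a0', hreach⟩
  have hcount := hQ.card_vert_le_card_edgeSet_add_one
  have hedge : Nat.card Q.edgeSet ≤ 3 * A.card + 1 := by
    have hsub : Q.edgeSet ⊆ ((insert (s(a0', b0'))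
        ((Finset.univ.filter (fun v => S.T v ∈ A)).image (fun v => s(κ (S.T v), κ (S.T (S.o v)))))) :
          Finset (Sym2 ((↥A) ⊕ (Option ↥F)))) := by
      intro e he
      induction e using Sym2.ind with
      | _ w w' =>
        rw [SimpleGraph.mem_edgeSet] at he
        obtain ⟨hww, h | h | h⟩ := he
        · obtain ⟨v, h1, h2⟩ := h
          have hor : S.T v ∈ A ∨ S.T (S.o v) ∈ A := by
            by_contra hcon
            push Not at hcon
            obtain ⟨g1, g2⟩ := hcon
            apply hww
            rw [← h1, ← h2]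
            by_cases hO : ∃ O ∈ F, S.T v ∈ O
            · obtain ⟨O, hO, hv⟩ := hO
              rcases hcl O hO _ hv _ (S.H_adj v) with h3 | h3
              · rw [κF _ O hO hv, κF _ O hO h3]
              · exact absurd h3 g2
            · by_cases hO' : ∃ O ∈ F, S.T (S.o v) ∈ O
              · obtain ⟨O, hO2, hv⟩ := hO'
                rcases hcl O hO2 _ hv _ (S.H_adj v).symm with h3 | h3
                · rw [κF _ O hO2 hv, κF _ O hO2 h3]
                · exact absurd h3 g1
              · push Not at hO hO'
                rw [κN _ g1 hO, κN _ g2 hO']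
          rw [Finset.mem_coe, Finset.mem_insert]
          right
          rw [Finset.mem_image]
          rcases hor with h3 | h3
          · exact ⟨v, by simpa using h3, by rw [h1, h2]⟩
          · refine ⟨S.o v, by simpa using h3, ?_⟩
            rw [S.inv, h1, h2, Sym2.eq_swap]
        · rw [Finset.mem_coe, Finset.mem_insert]
          left; rw [h.1, h.2]
        · rw [Finset.mem_coe, Finset.mem_insert]
          left; rw [h.1, h.2, Sym2.eq_swap]
    have h1 : Nat.card Q.edgeSet = Q.edgeSet.ncard := Nat.card_coe_set_eq _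
    rw [h1]
    refine le_trans (Set.ncard_le_ncard hsub (Finset.finite_toSet _)) ?_
    rw [Set.ncard_coe_finset]
    refine le_trans (Finset.card_insert_le _ _) ?_
    have := Finset.card_image_le (s := Finset.univ.filter (fun v => S.T v ∈ A))
      (f := fun v => s(κ (S.T v), κ (S.T (S.o v))))
    rw [S.card_T_mem] at this
    omega
  have hcardW : Nat.card ((↥A) ⊕ (Option ↥F)) = A.card + (F.card + 1) := by
    rw [Nat.card_eq_fintype_card, Fintype.card_sum, Fintype.card_option, Fintype.card_coe, Fintype.card_coe]
  omega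

/-- the main inequality -/
lemma TS.ineq (hc : S.graph.Connected) (A : Finset Tri) (F : Finset (Finset Tri))
    (hodd : ∀ O ∈ F, Odd O.card)
    (hdisj : ∀ O ∈ F, ∀ O' ∈ F, O ≠ O' → Disjoint O O')
    (hA : ∀ O ∈ F, Disjoint O A)
    (hcl : ∀ O ∈ F, ∀ x ∈ O, ∀ y, S.H.Adj x y → y ∈ O ∨ y ∈ A) :
    6 * F.card ≤ Fintype.card Tri + 2 + 6 * A.card := by
  classical
  have hne : ∀ O ∈ F, O.Nonempty := by
    intro O hO
    rw [← Finset.card_pos]
    exact (hodd O hO).pos
  rcases A.eq_empty_or_nonempty with hA0 | ⟨a0, ha0⟩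
  · -- F is empty
    have hF : F = ∅ := by
      rw [Finset.eq_empty_iff_forall_notMem]
      intro O hO
      obtain ⟨t, ht⟩ := hne O hO
      obtain ⟨v, hv⟩ := S.exists_T t
      have hall : ∀ w, S.T w ∈ O := by
        intro w
        have := closed_univ hc (s := {w | S.T w ∈ O}) (x := v) (by
          simp only [Set.mem_ofPred_eq]; rw [hv]; exact ht) (by
          intro a ha b hab
          simp only [Set.mem_ofPred_eq] at ha ⊢
          rcases hab with ⟨_, h⟩ | h
          · rw [← h]; exact ha
          · rw [h]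
            rcases hcl O hO _ ha _ (S.H_adj a) with h1 | h1
            · exact h1
            · rw [hA0] at h1; simp at h1) w
        exact this
      have hOu : O = Finset.univ := by
        rw [Finset.eq_univ_iff_forall]
        intro t'
        obtain ⟨w, hw⟩ := S.exists_T t'
        rw [← hw]; exact hall w
      have h1 := hodd O hO
      rw [hOu, Finset.card_univ] at h1
      exact (Nat.not_even_iff_odd.2 h1) S.even_tri
    rw [hF]; simp
  · have h2 := S.conn_bound hc A F hne hdisj hA hcl a0 ha0
    -- e O + |O| >= 4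
    let e : Finset Tri → Finset V := fun O => Finset.univ.filter (fun v => S.T v ∈ O ∧ S.T (S.o v) ∈ A)
    have he : ∀ O ∈ F, 4 ≤ (e O).card + O.card := by
      intro O hO
      let i : Finset V := Finset.univ.filter (fun v => S.T v ∈ O ∧ S.T (S.o v) ∈ O)
      have hieven : Even i.card := by
        refine even_card_of_inv i S.o ?_ (fun x _ => S.inv x) (fun x _ h => S.loop x (by rw [h]))
        intro x hx
        simp only [i, Finset.mem_filter, Finset.mem_univ, true_and] at hx ⊢
        rw [S.inv]; exact ⟨hx.2, hx.1⟩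
      have hsum : (e O).card + i.card = 3 * O.card := by
        rw [← S.card_T_mem O, ← Finset.card_union_of_disjoint]
        · congr 1
          ext v
          simp only [e, i, Finset.mem_union, Finset.mem_filter, Finset.mem_univ, true_and]
          constructor
          · rintro (h | h) <;> exact h.1
          · intro h
            rcases hcl O hO _ h _ (S.H_adj v) with h1 | h1
            · exact Or.inr ⟨h, h1⟩
            · exact Or.inl ⟨h, h1⟩
        · rw [Finset.disjoint_left]
          intro v hv hv'
          simp only [e, i, Finset.mem_filter, Finset.mem_univ, true_and] at hv hv'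
          exact Finset.disjoint_left.1 (hA O hO) hv'.2 hv.2
      have hOodd := hodd O hO
      by_cases h1 : O.card = 1
      · obtain ⟨t, ht⟩ := Finset.card_eq_one.1 h1
        have hi0 : i = ∅ := by
          rw [Finset.eq_empty_iff_forall_notMem]
          intro v hv
          simp only [i, Finset.mem_filter, Finset.mem_univ, true_and, ht, Finset.mem_singleton] at hv
          exact S.loop v (hv.2.trans hv.1.symm)
        rw [hi0, Finset.card_empty] at hsum
        omega
      · obtain ⟨k, hk⟩ := hOodd
        obtain ⟨j, hj⟩ := hieven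
        omega
    have hesum : ∑ O ∈ F, (e O).card ≤ 3 * A.card := by
      rw [← Finset.card_biUnion]
      · rw [← S.card_T_mem A]
        refine Finset.card_le_card_of_injOn S.o ?_ ?_
        · intro v hv
          simp only [e, Finset.coe_biUnion, Finset.coe_filter, Finset.mem_univ, true_and, Set.mem_iUnion,
            Set.mem_ofPred_eq, Finset.mem_coe] at hv ⊢
          obtain ⟨O, hO, h3, h4⟩ := hv
          exact h4
        · intro v _ w _ hvw
          rw [← S.inv v, ← S.inv w, hvw]
      · intro O hO O' hO' hne'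
        change Disjoint (e O) (e O')
        rw [Finset.disjoint_left]
        intro v hv hv'
        simp only [e, Finset.mem_filter, Finset.mem_univ, true_and] at hv hv'
        exact Finset.disjoint_left.1 (hdisj O hO O' hO' hne') hv.1 hv'.1
    have hOsum : ∑ O ∈ F, O.card + A.card ≤ Fintype.card Tri := by
      have h3 : (F.biUnion id).card = ∑ O ∈ F, O.card := by
        rw [Finset.card_biUnion]
        · rfl
        · intro O hO O' hO' hne'
          exact hdisj O hO O' hO' hne'
      rw [← h3, ← Finset.card_union_of_disjoint, ← Finset.card_univ]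
      · exact Finset.card_le_card (Finset.subset_univ _)
      · rw [Finset.disjoint_left]
        intro t ht ht'
        rw [Finset.mem_biUnion] at ht
        obtain ⟨O, hO, h4⟩ := ht
        exact Finset.disjoint_left.1 (hA O hO) h4 ht'
    have h4sum : 4 * F.card ≤ ∑ O ∈ F, ((e O).card + O.card) := by
      rw [mul_comm, ← smul_eq_mul, ← Finset.sum_const]
      exact Finset.sum_le_sum he
    rw [Finset.sum_add_distrib] at h4sum
    omega

/-- near perfect matching of the triangles -/
lemma TS.matching (hc : S.graph.Connected) :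
    ∃ (U : Finset Tri) (m : Tri → Tri), U.card ≤ 2 * ((Fintype.card Tri + 2) / 12) ∧
      ∀ x ∉ U, m x ∉ U ∧ m (m x) = x ∧ S.H.Adj x (m x) := by
  classical
  have hev := S.even_tri
  have heven : Even ((Finset.univ : Finset Tri).card + 2 * ((Fintype.card Tri + 2) / 12)) := by
    rw [Finset.card_univ]
    exact hev.add (even_two_mul _)
  obtain ⟨U, m, hU, hUc, hm⟩ := H168DD.tutte_berge S.H Finset.univ (2 * ((Fintype.card Tri + 2) / 12)) heven (by
    intro A F hAT hodd hdisj hdA hcl
    have hA : ∀ O ∈ F, Disjoint O A := by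
      intro O hO
      rw [Finset.disjoint_left]
      intro t ht
      exact (Finset.mem_sdiff.1 (hdA O hO ht)).2
    have hcl' : ∀ O ∈ F, ∀ x ∈ O, ∀ y, S.H.Adj x y → y ∈ O ∨ y ∈ A := by
      intro O hO x hx y hxy
      exact hcl O hO x hx y (Finset.mem_univ _) hxy
    by_contra hcon
    push Not at hcon
    have hne : ∀ O ∈ F, O.Nonempty := by
      intro O hO
      rw [← Finset.card_pos]
      exact (hodd O hO).pos
    let rest : Finset Tri := Finset.univ \ (A ∪ F.biUnion id)
    have hrest : ∀ t, t ∈ rest ↔ t ∉ A ∧ ∀ O ∈ F, t ∉ O := by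
      intro t
      simp only [rest, Finset.mem_sdiff, Finset.mem_univ, true_and, Finset.mem_union, Finset.mem_biUnion, id]
      push Not
      rfl
    by_cases hpar : Odd rest.card
    · have hrF : rest ∉ F := by
        intro h
        obtain ⟨t, ht⟩ := hne rest h
        exact ((hrest t).1 ht).2 rest h ht
      have := S.ineq hc A (insert rest F) (by
        intro O hO
        rcases Finset.mem_insert.1 hO with rfl | hO
        · exact hpar
        · exact hodd O hO) (by
        intro O hO O' hO' hne'
        rcases Finset.mem_insert.1 hO with rfl | hO <;> rcases Finset.mem_insert.1 hO' with rfl | hO'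
        · exact absurd rfl hne'
        · rw [Finset.disjoint_left]
          intro t ht ht'
          exact ((hrest t).1 ht).2 O' hO' ht'
        · rw [Finset.disjoint_left]
          intro t ht ht'
          exact ((hrest t).1 ht').2 O hO ht
        · exact hdisj O hO O' hO' hne') (by
        intro O hO
        rcases Finset.mem_insert.1 hO with rfl | hO
        · rw [Finset.disjoint_left]
          intro t ht
          exact ((hrest t).1 ht).1
        · exact hA O hO) (by
        intro O hO x hx y hxy
        rcases Finset.mem_insert.1 hO with rfl | hO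
        · by_cases hyA : y ∈ A
          · exact Or.inr hyA
          · left
            rw [hrest]
            refine ⟨hyA, fun O' hO' hy => ?_⟩
            rcases hcl' O' hO' y hy x hxy.symm with h | h
            · exact ((hrest x).1 hx).2 O' hO' h
            · exact ((hrest x).1 hx).1 h
        · exact hcl' O hO x hx y hxy)
      rw [Finset.card_insert_of_notMem hrF] at this
      omega
    · have h1 := S.ineq hc A F hodd hdisj hA hcl'
      have h3 : (F.biUnion id).card = ∑ O ∈ F, O.card := by
        rw [Finset.card_biUnion]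
        · rfl
        · intro O hO O' hO' hne'
          exact hdisj O hO O' hO' hne'
      have h4 : rest.card + (A.card + (F.biUnion id).card) = Fintype.card Tri := by
        have h5 : (A ∪ F.biUnion id).card = A.card + (F.biUnion id).card := by
          rw [Finset.card_union_of_disjoint]
          rw [Finset.disjoint_left]
          intro t ht' ht
          rw [Finset.mem_biUnion] at ht
          obtain ⟨O, hO, h4⟩ := ht
          exact Finset.disjoint_left.1 (hA O hO) h4 ht'
        rw [← h5, ← Finset.card_univ, ← Finset.card_sdiff_add_card_eq_card (Finset.subset_univ (A ∪ F.biUnion id))]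
      have h5 : (∑ O ∈ F, O.card) % 2 = F.card % 2 := by
        rw [Finset.sum_nat_mod, Finset.sum_congr rfl (g := fun _ => 1)]
        · simp
        · intro O hO
          exact Nat.odd_iff.1 (hodd O hO)
      rw [Nat.not_odd_iff_even] at hpar
      obtain ⟨a, ha⟩ := hpar
      obtain ⟨b, hb⟩ := hev
      omega)
  refine ⟨U, m, hUc, ?_⟩
  intro x hx
  have := hm x (Finset.mem_sdiff.2 ⟨Finset.mem_univ _, hx⟩)
  exact ⟨(Finset.mem_sdiff.1 this.1).2, this.2.1, this.2.2⟩

/-- upper bound -/
theorem TS.upper (hc : S.graph.Connected) :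
    ∃ D : Finset V, IsTotalDominating S.graph D ∧
      D.card ≤ Fintype.card Tri + 2 * ((Fintype.card Tri + 2) / 12) := by
  classical
  obtain ⟨U, m, hU, hm⟩ := S.matching hc
  have hpq : ∀ t, ∃ p q, p ≠ q ∧ S.T p = t ∧ S.T q = t := by
    intro t
    have h : 1 < (Finset.univ.filter (fun v => S.T v = t)).card := by rw [S.fib]; norm_num
    obtain ⟨p, hp, q, hq, hpq⟩ := Finset.one_lt_card.1 h
    exact ⟨p, q, hpq, by simpa using hp, by simpa using hq⟩
  choose p q hpq hp hq using hpq
  have hd : ∀ t, ∃ v, t ∉ U → S.T v = t ∧ S.T (S.o v) = m t := by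
    intro t
    by_cases ht : t ∈ U
    · obtain ⟨v, _⟩ := S.exists_T t
      exact ⟨v, fun h => absurd ht h⟩
    · obtain ⟨_, v, h1, h2⟩ := (hm t ht).2.2
      exact ⟨v, fun _ => ⟨h1, h2⟩⟩
  choose d hd using hd
  let e := Fintype.equivFin Tri
  let R : Finset Tri := (Finset.univ \ U).filter (fun t => e t < e (m t))
  have hRcard : 2 * R.card + U.card ≤ Fintype.card Tri := by
    have h1 : R.card ≤ ((Finset.univ \ U) \ R).card := by
      refine Finset.card_le_card_of_injOn m ?_ ?_
      · intro t ht
        simp only [R, Finset.coe_filter, Finset.mem_sdiff, Finset.mem_univ, true_and, Set.mem_ofPred_eq,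
          Finset.coe_sdiff, Finset.coe_univ, Set.mem_sdiff, Set.mem_univ, Finset.mem_coe] at ht ⊢
        obtain ⟨ht1, ht2⟩ := ht
        obtain ⟨h3, h4, _⟩ := hm t ht1
        refine ⟨h3, fun h => ?_⟩
        rw [h4] at h
        exact absurd h.2 (not_lt.2 ht2.le)
      · intro t ht t' ht' htt
        simp only [R, Finset.coe_filter, Finset.mem_sdiff, Finset.mem_univ, true_and, Set.mem_ofPred_eq] at ht ht'
        rw [← (hm t ht.1).2.1, ← (hm t' ht'.1).2.1, htt]
    have h2 : ((Finset.univ \ U) \ R).card + R.card = (Finset.univ \ U).card :=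
      Finset.card_sdiff_add_card_eq_card (Finset.filter_subset _ _)
    have h3 : (Finset.univ \ U).card + U.card = (Finset.univ : Finset Tri).card :=
      Finset.card_sdiff_add_card_eq_card (Finset.subset_univ _)
    rw [Finset.card_univ] at h3
    omega
  refine ⟨(U.image p ∪ U.image q) ∪ (R.image d ∪ R.image (fun t => S.o (d t))), ?_, ?_⟩
  · intro x
    by_cases hx : S.T x ∈ U
    · by_cases hxp : x = p (S.T x)
      · refine ⟨q (S.T x), ?_, Or.inl ⟨?_, (hq _).symm⟩⟩
        · rw [Finset.mem_union, Finset.mem_union, Finset.mem_image, Finset.mem_image]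
          exact Or.inl (Or.inr ⟨_, hx, rfl⟩)
        · intro h
          exact hpq (S.T x) (hxp.symm.trans h)
      · refine ⟨p (S.T x), ?_, Or.inl ⟨hxp, (hp _).symm⟩⟩
        rw [Finset.mem_union, Finset.mem_union, Finset.mem_image, Finset.mem_image]
        exact Or.inl (Or.inl ⟨_, hx, rfl⟩)
    · obtain ⟨h1, h2, h3⟩ := hm _ hx
      have hlt : e (S.T x) ≠ e (m (S.T x)) := fun h => h3.ne (e.injective h)
      rcases lt_or_gt_of_ne hlt with hlt | hlt
      · have hR : S.T x ∈ R := by
          simp only [R, Finset.mem_filter, Finset.mem_sdiff, Finset.mem_univ, true_and]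
          exact ⟨hx, hlt⟩
        obtain ⟨g1, g2⟩ := hd _ hx
        by_cases hxd : x = d (S.T x)
        · refine ⟨S.o (d (S.T x)), ?_, Or.inr (by rw [← hxd])⟩
          rw [Finset.mem_union, Finset.mem_union, Finset.mem_union, Finset.mem_image, Finset.mem_image,
            Finset.mem_image, Finset.mem_image]
          exact Or.inr (Or.inr ⟨_, hR, rfl⟩)
        · refine ⟨d (S.T x), ?_, Or.inl ⟨hxd, g1.symm⟩⟩
          rw [Finset.mem_union, Finset.mem_union, Finset.mem_union, Finset.mem_image, Finset.mem_image,
            Finset.mem_image, Finset.mem_image]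
          exact Or.inr (Or.inl ⟨_, hR, rfl⟩)
      · have hR : m (S.T x) ∈ R := by
          simp only [R, Finset.mem_filter, Finset.mem_sdiff, Finset.mem_univ, true_and]
          refine ⟨h1, ?_⟩
          rw [h2]; exact hlt
        obtain ⟨g1, g2⟩ := hd _ h1
        rw [h2] at g2
        by_cases hxd : x = S.o (d (m (S.T x)))
        · refine ⟨d (m (S.T x)), ?_, Or.inr ?_⟩
          · rw [Finset.mem_union, Finset.mem_union, Finset.mem_union, Finset.mem_image, Finset.mem_image,
              Finset.mem_image, Finset.mem_image]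
            exact Or.inr (Or.inl ⟨_, hR, rfl⟩)
          · conv_rhs => rw [hxd]
            rw [S.inv]
        · refine ⟨S.o (d (m (S.T x))), ?_, Or.inl ⟨hxd, g2.symm⟩⟩
          rw [Finset.mem_union, Finset.mem_union, Finset.mem_union, Finset.mem_image, Finset.mem_image,
            Finset.mem_image, Finset.mem_image]
          exact Or.inr (Or.inr ⟨_, hR, rfl⟩)
  · have h1 := Finset.card_union_le (U.image p ∪ U.image q) (R.image d ∪ R.image (fun t => S.o (d t)))
    have h2 := Finset.card_union_le (U.image p) (U.image q)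
    have h3 := Finset.card_union_le (R.image d) (R.image (fun t => S.o (d t)))
    have h4 := Finset.card_image_le (s := U) (f := p)
    have h5 := Finset.card_image_le (s := U) (f := q)
    have h6 := Finset.card_image_le (s := R) (f := d)
    have h7 := Finset.card_image_le (s := R) (f := fun t => S.o (d t))
    omega

end Pool.Agent.Q46.Td
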