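import Pool.Agent.Q46.TdB

set_option linter.unusedVariables false
set_option linter.unusedSimpArgs false
set_option linter.unusedSectionVars false

namespace Pool.Agent.Q46.Td

section lower
variable {V Tri : Type*} [Fintype V] [DecidableEq V] [Fintype Tri] [DecidableEq Tri] (S : TS V Tri)

include S

lemma TS.lower_one (D : Finset V) (hD : IsTotalDominating S.graph D) (C : Finset Tri) (hodd : Odd C.card) :
    C.card + 1 ≤ (D.filter (fun v => S.T v ∈ C)).card +
      (D.filter (fun v => S.T v ∉ C ∧ S.T (S.o v) ∈ C)).card := by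
  classical
  let n : Tri → ℕ := fun t => (D.filter (fun v => S.T v = t)).card
  have hn3 : ∀ t, n t ≤ 3 := by
    intro t
    rw [← S.fib t]
    exact Finset.card_le_card (Finset.filter_subset_filter _ (Finset.subset_univ _))
  have hd : ∀ X : Finset Tri, (D.filter (fun v => S.T v ∈ X)).card = ∑ t ∈ X, n t := by
    intro X
    rw [Finset.card_eq_sum_card_fiberwise (f := S.T) (t := X)]
    · refine Finset.sum_congr rfl (fun t ht => ?_)
      simp only [n]
      rw [Finset.filter_filter]
      congr 1
      ext v
      simp only [Finset.mem_filter]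
      constructor
      · exact fun h => ⟨h.1, h.2.2⟩
      · intro h; exact ⟨h.1, h.2 ▸ ht, h.2⟩
    · intro v hv
      simp only [Finset.coe_filter, Set.mem_ofPred_eq] at hv
      exact hv.2
  have hin : ∀ v ∈ D, ∀ w ∈ D, v ≠ w → S.T v = S.T w → 2 ≤ n (S.T v) := by
    intro v hv w hw hvw hT
    have : ({v, w} : Finset V) ⊆ D.filter (fun u => S.T u = S.T v) := by
      intro u hu
      rw [Finset.mem_insert, Finset.mem_singleton] at hu
      rw [Finset.mem_filter]
      rcases hu with rfl | rfl
      · exact ⟨hv, rfl⟩
      · exact ⟨hw, hT.symm⟩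
    have h2 := Finset.card_le_card this
    rwa [Finset.card_pair hvw] at h2
  let h := (D.filter (fun v => S.T v ∉ C ∧ S.T (S.o v) ∈ C)).card
  let Z := C.filter (fun t => n t = 0)
  let B := C.filter (fun t => 2 ≤ n t)
  have hZ : 3 * Z.card ≤ h + ∑ t ∈ B, n t := by
    rw [← S.card_T_mem Z, ← hd B]
    refine le_trans ?_ (Finset.card_union_le _ _)
    refine Finset.card_le_card_of_injOn S.o ?_ ?_
    · intro v hv
      simp only [Finset.coe_filter, Finset.mem_univ, true_and, Set.mem_ofPred_eq, Z, Finset.mem_filter] at hv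
      obtain ⟨hvC, hv0⟩ := hv
      have hemp : ∀ w ∈ D, S.T w ≠ S.T v := by
        intro w hw hwv
        have : w ∈ D.filter (fun u => S.T u = S.T v) := Finset.mem_filter.2 ⟨hw, hwv⟩
        rw [Finset.card_eq_zero.1 hv0] at this
        simp at this
      obtain ⟨w, hw, hvw⟩ := hD v
      rcases hvw with ⟨_, h1⟩ | h1
      · exact absurd h1.symm (hemp w hw)
      · subst h1
        simp only [Finset.coe_union, Finset.coe_filter, Set.mem_union, Set.mem_ofPred_eq]
        by_cases hC : S.T (S.o v) ∈ C
        · right
          refine ⟨hw, ?_⟩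
          simp only [B, Finset.mem_filter]
          refine ⟨hC, ?_⟩
          obtain ⟨x, hx, hox⟩ := hD (S.o v)
          rcases hox with ⟨h2, h3⟩ | h2
          · exact hin _ hw _ hx h2 h3
          · rw [S.inv] at h2
            subst h2
            exact absurd rfl (hemp x hx)
        · left
          exact ⟨hw, hC, by rw [S.inv]; exact hvC⟩
    · intro v _ w _ hvw
      rw [← S.inv v, ← S.inv w, hvw]
  have hpt : ∀ t ∈ C, 3 + (if 2 ≤ n t then n t else 0) + (if 2 ≤ n t then 1 else 0) ≤
      3 * n t + 3 * (if n t = 0 then 1 else 0) := by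
    intro t _
    have := hn3 t
    interval_cases n t <;> simp
  have hsum := Finset.sum_le_sum hpt
  rw [Finset.sum_add_distrib, Finset.sum_add_distrib, Finset.sum_add_distrib, ← Finset.sum_filter, ← Finset.mul_sum,
    ← Finset.mul_sum, ← Finset.card_filter, ← Finset.card_filter, Finset.sum_const, smul_eq_mul, ← hd C] at hsum
  change C.card + 1 ≤ _ + h
  change C.card * 3 + ∑ t ∈ B, n t + B.card ≤ 3 * (D.filter (fun v => S.T v ∈ C)).card + 3 * Z.card at hsum
  by_cases hcase : h = 0 ∧ B.card = 0
  · exfalso
    obtain ⟨h0, hB0⟩ := hcase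
    have hBe : B = ∅ := Finset.card_eq_zero.1 hB0
    rw [hBe] at hsum hZ
    simp only [Finset.sum_empty, Finset.card_empty] at hsum hZ
    have hn2 : ∀ t ∈ C, n t < 2 := by
      intro t ht
      by_contra hcon
      push Not at hcon
      have : t ∈ B := Finset.mem_filter.2 ⟨ht, hcon⟩
      rw [hBe] at this; simp at this
    have hev : Even (D.filter (fun v => S.T v ∈ C)).card := by
      refine even_card_of_inv _ S.o ?_ (fun x _ => S.inv x) (fun x _ hx => S.loop x (by rw [hx]))
      intro v hv
      rw [Finset.mem_filter] at hv ⊢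
      obtain ⟨w, hw, hvw⟩ := hD v
      have hov : S.o v ∈ D := by
        rcases hvw with ⟨h1, h2⟩ | h1
        · have := hin v hv.1 w hw h1 h2
          have := hn2 _ hv.2
          omega
        · rw [← h1]; exact hw
      refine ⟨hov, ?_⟩
      by_contra hC
      have : S.o v ∈ D.filter (fun v => S.T v ∉ C ∧ S.T (S.o v) ∈ C) := by
        rw [Finset.mem_filter]
        exact ⟨hov, hC, by rw [S.inv]; exact hv.2⟩
      rw [Finset.card_eq_zero.1 h0] at this
      simp at this
    have hle : (D.filter (fun v => S.T v ∈ C)).card ≤ C.card := by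
      rw [hd C, Finset.card_eq_sum_ones]
      refine Finset.sum_le_sum (fun t ht => ?_)
      have := hn2 t ht
      omega
    obtain ⟨a, ha⟩ := hodd
    obtain ⟨b, hb⟩ := hev
    omega
  · omega

theorem TS.lower {ι : Type*} [Fintype ι] [DecidableEq ι] (κ : Tri → Option ι)
    (hκ : ∀ v, κ (S.T v) = none ∨ κ (S.T (S.o v)) = none ∨ κ (S.T v) = κ (S.T (S.o v)))
    (hodd : ∀ c, Odd (Finset.univ.filter (fun t => κ t = some c)).card)
    (D : Finset V) (hD : IsTotalDominating S.graph D) :
    Fintype.card Tri + Fintype.card ι ≤ D.card + (Finset.univ.filter (fun t => κ t = none)).card := by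
  classical
  let C : ι → Finset Tri := fun c => Finset.univ.filter (fun t => κ t = some c)
  let E : ι → Finset V := fun c => D.filter (fun v => κ (S.T v) = some c ∨ (κ (S.T v) = none ∧ κ (S.T (S.o v)) = some c))
  have h1 : ∀ c, (C c).card + 1 ≤ (E c).card := by
    intro c
    refine le_trans (S.lower_one D hD (C c) (hodd c)) ?_
    rw [← Finset.card_union_of_disjoint]
    · refine Finset.card_le_card ?_
      intro v hv
      simp only [Finset.mem_union, Finset.mem_filter, C, E, Finset.mem_univ, true_and] at hv ⊢
      rcases hv with ⟨h1, h2⟩ | ⟨h1, h2, h3⟩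
      · exact ⟨h1, Or.inl h2⟩
      · refine ⟨h1, Or.inr ⟨?_, h3⟩⟩
        rcases hκ v with h4 | h4 | h4
        · exact h4
        · rw [h4] at h3; simp at h3
        · rw [h4] at h2; exact absurd h3 h2
    · rw [Finset.disjoint_left]
      intro v hv hv'
      simp only [Finset.mem_filter] at hv hv'
      exact hv'.2.1 hv.2
  have h2 : ∑ c, (E c).card ≤ D.card := by
    rw [← Finset.card_biUnion]
    · refine Finset.card_le_card ?_
      intro v hv
      simp only [Finset.mem_biUnion, E, Finset.mem_filter] at hv
      obtain ⟨c, _, h, _⟩ := hv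
      exact h
    · intro c _ c' _ hne
      change Disjoint (E c) (E c')
      rw [Finset.disjoint_left]
      intro v hv hv'
      simp only [Finset.mem_filter, E] at hv hv'
      rcases hv.2 with h | ⟨h, h'⟩ <;> rcases hv'.2 with g | ⟨g, g'⟩
      · rw [h] at g; exact hne (Option.some.inj g)
      · rw [h] at g; simp at g
      · rw [h] at g; simp at g
      · rw [h'] at g'; exact hne (Option.some.inj g')
  have h3 : Fintype.card Tri = (Finset.univ.filter (fun t => κ t = none)).card + ∑ c, (C c).card := by
    rw [← Finset.card_univ, Finset.card_eq_sum_card_fiberwise (f := κ) (t := Finset.univ)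
      (fun x _ => Finset.mem_coe.2 (Finset.mem_univ _)), Fintype.sum_option]
  have h4 : ∑ c, ((C c).card + 1) ≤ ∑ c, (E c).card := Finset.sum_le_sum (fun c _ => h1 c)
  rw [Finset.sum_add_distrib, Finset.sum_const, smul_eq_mul, mul_one, Finset.card_univ] at h4
  omega

end lower

/-! open structures -/

structure Op where
  Tri : Type
  fT : Fintype Tri
  dT : DecidableEq Tri
  o : Tri × Fin 3 → Tri × Fin 3
  r : Tri × Fin 3
  inv : ∀ v, o (o v) = v
  loop : ∀ v, (o v).1 = v.1 → v = r
  root : o r = r
  conn : ∀ t, Relation.ReflTransGen (fun a b => ∃ i, (o (a, i)).1 = b) r.1 t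

attribute [instance] Op.fT Op.dT

/-- a colouring of an open structure, with `i` colours and `a` uncoloured triangles -/
def Op.Col (X : Op) (i a : ℕ) (b : Bool) : Prop :=
  ∃ (ι : Type) (_ : Fintype ι) (_ : DecidableEq ι) (κ : X.Tri → Option ι),
    (∀ v, κ v.1 = none ∨ κ (X.o v).1 = none ∨ κ v.1 = κ (X.o v).1) ∧
    (∀ c, Odd (Finset.univ.filter (fun t => κ t = some c)).card) ∧
    Fintype.card ι = i ∧ (Finset.univ.filter (fun t => κ t = none)).card = a ∧ (κ X.r.1 = none ↔ b = true)

lemma card_filter_opt {A B : Type} [Fintype A] [Fintype B] (P : Option (A ⊕ B) → Prop) [DecidablePred P] :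
    (Finset.univ.filter P).card = (if P none then 1 else 0) + ((Finset.univ.filter (fun a => P (some (Sum.inl a)))).card +
      (Finset.univ.filter (fun a => P (some (Sum.inr a)))).card) := by
  simp only [Finset.card_filter, Fintype.sum_option, Fintype.sum_sum_type]

/-- join of two open structures by a new root triangle -/
def joinO (X Y : Op) : (Option (X.Tri ⊕ Y.Tri)) × Fin 3 → (Option (X.Tri ⊕ Y.Tri)) × Fin 3
  | (none, i) => if i = 1 then (some (Sum.inl X.r.1), X.r.2) else if i = 2 then (some (Sum.inr Y.r.1), Y.r.2) else (none, 0)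
  | (some (Sum.inl t), i) => if (t, i) = X.r then (none, 1) else (some (Sum.inl (X.o (t, i)).1), (X.o (t, i)).2)
  | (some (Sum.inr t), i) => if (t, i) = Y.r then (none, 2) else (some (Sum.inr (Y.o (t, i)).1), (Y.o (t, i)).2)

lemma Op.o_ne (X : Op) {v : X.Tri × Fin 3} (h : v ≠ X.r) : X.o v ≠ X.r := by
  intro h'
  apply h
  rw [← X.inv v, h', X.root]

lemma joinO_root (X Y : Op) : joinO X Y (none, 0) = (none, 0) := by
  simp [joinO]

lemma joinO_one (X Y : Op) : joinO X Y (none, 1) = (some (Sum.inl X.r.1), X.r.2) := by
  simp [joinO]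

lemma joinO_two (X Y : Op) : joinO X Y (none, 2) = (some (Sum.inr Y.r.1), Y.r.2) := by
  simp [joinO]

lemma joinO_l (X Y : Op) {t i} (h : (t, i) ≠ X.r) :
    joinO X Y (some (Sum.inl t), i) = (some (Sum.inl (X.o (t, i)).1), (X.o (t, i)).2) := by
  simp only [joinO]; rw [if_neg h]

lemma joinO_l' (X Y : Op) : joinO X Y (some (Sum.inl X.r.1), X.r.2) = (none, 1) := by
  simp [joinO]

lemma joinO_r (X Y : Op) {t i} (h : (t, i) ≠ Y.r) :
    joinO X Y (some (Sum.inr t), i) = (some (Sum.inr (Y.o (t, i)).1), (Y.o (t, i)).2) := by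
  simp only [joinO]; rw [if_neg h]

lemma joinO_r' (X Y : Op) : joinO X Y (some (Sum.inr Y.r.1), Y.r.2) = (none, 2) := by
  simp [joinO]

/-- case analysis for the vertices of a join -/
lemma join_cases (X Y : Op) {P : (Option (X.Tri ⊕ Y.Tri)) × Fin 3 → Prop}
    (h0 : P (none, 0)) (h1 : P (none, 1)) (h2 : P (none, 2))
    (hl : P (some (Sum.inl X.r.1), X.r.2)) (hl' : ∀ t i, (t, i) ≠ X.r → P (some (Sum.inl t), i))
    (hr : P (some (Sum.inr Y.r.1), Y.r.2)) (hr' : ∀ t i, (t, i) ≠ Y.r → P (some (Sum.inr t), i)) :
    ∀ v, P v := by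
  rintro ⟨(_ | t | t), i⟩
  · fin_cases i
    · exact h0
    · exact h1
    · exact h2
  · by_cases h : (t, i) = X.r
    · have h1 : t = X.r.1 := by rw [← h]
      have h2 : i = X.r.2 := by rw [← h]
      rw [h1, h2]; exact hl
    · exact hl' t i h
  · by_cases h : (t, i) = Y.r
    · have h1 : t = Y.r.1 := by rw [← h]
      have h2 : i = Y.r.2 := by rw [← h]
      rw [h1, h2]; exact hr
    · exact hr' t i h

def join (X Y : Op) : Op where
  Tri := Option (X.Tri ⊕ Y.Tri)
  fT := inferInstance
  dT := inferInstance
  o := joinO X Y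
  r := (none, 0)
  inv := by
    apply join_cases
    · rw [joinO_root, joinO_root]
    · rw [joinO_one, joinO_l']
    · rw [joinO_two, joinO_r']
    · rw [joinO_l', joinO_one]
    · intro t i h
      rw [joinO_l _ _ h, joinO_l _ _ (X.o_ne h), X.inv]
    · rw [joinO_r', joinO_two]
    · intro t i h
      rw [joinO_r _ _ h, joinO_r _ _ (Y.o_ne h), Y.inv]
  loop := by
    apply join_cases
    · intro _; rfl
    · rw [joinO_one]; intro h; simp at h
    · rw [joinO_two]; intro h; simp at h
    · rw [joinO_l']; intro h; simp at h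
    · intro t i h h'
      rw [joinO_l _ _ h] at h'
      simp only [Option.some.injEq, Sum.inl.injEq] at h'
      exact absurd (X.loop _ h') h
    · rw [joinO_r']; intro h; simp at h
    · intro t i h h'
      rw [joinO_r _ _ h] at h'
      simp only [Option.some.injEq, Sum.inr.injEq] at h'
      exact absurd (Y.loop _ h') h
  root := joinO_root X Y
  conn := by
    have hX : ∀ t, Relation.ReflTransGen (fun a b => ∃ i, (joinO X Y (a, i)).1 = b) none (some (Sum.inl t)) := by
      intro t
      have h0 : Relation.ReflTransGen (fun a b => ∃ i, (joinO X Y (a, i)).1 = b) none (some (Sum.inl X.r.1)) :=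
        Relation.ReflTransGen.single ⟨1, by rw [joinO_one]⟩
      have := X.conn t
      induction this with
      | refl => exact h0
      | tail hab hbc ih =>
        rename_i b c
        obtain ⟨i, hi⟩ := hbc
        by_cases h : (b, i) = X.r
        · have : c = b := by rw [← hi, h, X.root, ← h]
          rw [this]; exact ih
        · exact ih.tail ⟨i, by rw [joinO_l _ _ h, hi]⟩
    have hY : ∀ t, Relation.ReflTransGen (fun a b => ∃ i, (joinO X Y (a, i)).1 = b) none (some (Sum.inr t)) := by
      intro t
      have h0 : Relation.ReflTransGen (fun a b => ∃ i, (joinO X Y (a, i)).1 = b) none (some (Sum.inr Y.r.1)) :=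
        Relation.ReflTransGen.single ⟨2, by rw [joinO_two]⟩
      have := Y.conn t
      induction this with
      | refl => exact h0
      | tail hab hbc ih =>
        rename_i b c
        obtain ⟨i, hi⟩ := hbc
        by_cases h : (b, i) = Y.r
        · have : c = b := by rw [← hi, h, Y.root, ← h]
          rw [this]; exact ih
        · exact ih.tail ⟨i, by rw [joinO_r _ _ h, hi]⟩
    rintro (_ | t | t)
    · exact Relation.ReflTransGen.refl
    · exact hX t
    · exact hY t

lemma join_card (X Y : Op) : Fintype.card (join X Y).Tri = Fintype.card X.Tri + Fintype.card Y.Tri + 1 := by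
  change Fintype.card (Option (X.Tri ⊕ Y.Tri)) = _
  rw [Fintype.card_option, Fintype.card_sum]

/-- new root triangle uncoloured -/
lemma join_colA (X Y : Op) {i a b i' a' b'} (hX : X.Col i a b) (hY : Y.Col i' a' b') :
    (join X Y).Col (i + i') (a + a' + 1) true := by
  obtain ⟨ι, f1, d1, κ, h1, h2, h3, h4, h5⟩ := hX
  obtain ⟨ι', f1', d1', κ', h1', h2', h3', h4', h5'⟩ := hY
  let K : Option (X.Tri ⊕ Y.Tri) → Option (ι ⊕ ι') := fun t =>
    match t with
    | none => none
    | some (Sum.inl t) => (κ t).map Sum.inl
    | some (Sum.inr t) => (κ' t).map Sum.inr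
  refine ⟨ι ⊕ ι', inferInstance, inferInstance, K, ?_, ?_, ?_, ?_, ?_⟩
  · change ∀ v : (Option (X.Tri ⊕ Y.Tri)) × Fin 3, K v.1 = none ∨ K (joinO X Y v).1 = none ∨ K v.1 = K (joinO X Y v).1
    apply join_cases
    · left; rfl
    · left; rfl
    · left; rfl
    · right; left; rw [joinO_l']
    · intro t i h
      rw [joinO_l _ _ h]
      simp only [K]
      rcases h1 (t, i) with h | h | h
      · left; rw [h]; rfl
      · right; left; rw [h]; rfl
      · right; right; rw [← h]
    · right; left; rw [joinO_r']
    · intro t i h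
      rw [joinO_r _ _ h]
      simp only [K]
      rcases h1' (t, i) with h | h | h
      · left; rw [h]; rfl
      · right; left; rw [h]; rfl
      · right; right; rw [← h]
  · rintro (c | c)
    · have key : Odd (Finset.univ.filter (fun t : Option (X.Tri ⊕ Y.Tri) => K t = some (Sum.inl c))).card := by
        rw [card_filter_opt]
        simpa [K] using h2 c
      exact key
    · have key : Odd (Finset.univ.filter (fun t : Option (X.Tri ⊕ Y.Tri) => K t = some (Sum.inr c))).card := by
        rw [card_filter_opt]
        simpa [K] using h2' c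
      exact key
  · rw [Fintype.card_sum, h3, h3']
  · have key : (Finset.univ.filter (fun t : Option (X.Tri ⊕ Y.Tri) => K t = none)).card = a + a' + 1 := by
      rw [card_filter_opt]
      simp only [K, Option.map_eq_none_iff, if_true, h4, h4']
      omega
    exact key
  · simp [join, K]

/-- new root triangle is a new component -/
lemma join_colC (X Y : Op) {i a i' a'} (hX : X.Col i a true) (hY : Y.Col i' a' true) :
    (join X Y).Col (i + i' + 1) (a + a') false := by
  obtain ⟨ι, f1, d1, κ, h1, h2, h3, h4, h5⟩ := hX
  obtain ⟨ι', f1', d1', κ', h1', h2', h3', h4', h5'⟩ := hY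
  have h5 := h5.2 rfl
  have h5' := h5'.2 rfl
  let K : Option (X.Tri ⊕ Y.Tri) → Option (Option (ι ⊕ ι')) := fun t =>
    match t with
    | none => some none
    | some (Sum.inl t) => (κ t).map (fun c => some (Sum.inl c))
    | some (Sum.inr t) => (κ' t).map (fun c => some (Sum.inr c))
  refine ⟨Option (ι ⊕ ι'), inferInstance, inferInstance, K, ?_, ?_, ?_, ?_, ?_⟩
  · change ∀ v : (Option (X.Tri ⊕ Y.Tri)) × Fin 3, K v.1 = none ∨ K (joinO X Y v).1 = none ∨ K v.1 = K (joinO X Y v).1
    apply join_cases
    · right; right; rw [joinO_root]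
    · right; left; rw [joinO_one]; simp only [K, h5]; rfl
    · right; left; rw [joinO_two]; simp only [K, h5']; rfl
    · left; simp only [K, h5]; rfl
    · intro t i h
      rw [joinO_l _ _ h]
      simp only [K]
      rcases h1 (t, i) with h | h | h
      · left; rw [h]; rfl
      · right; left; rw [h]; rfl
      · right; right; rw [← h]
    · left; simp only [K, h5']; rfl
    · intro t i h
      rw [joinO_r _ _ h]
      simp only [K]
      rcases h1' (t, i) with h | h | h
      · left; rw [h]; rfl
      · right; left; rw [h]; rfl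
      · right; right; rw [← h]
  · rintro (_ | c | c)
    · have key : Odd (Finset.univ.filter (fun t : Option (X.Tri ⊕ Y.Tri) => K t = some none)).card := by
        rw [card_filter_opt]
        simp [K]
      exact key
    · have key : Odd (Finset.univ.filter (fun t : Option (X.Tri ⊕ Y.Tri) => K t = some (some (Sum.inl c)))).card := by
        rw [card_filter_opt]
        simpa [K] using h2 c
      exact key
    · have key : Odd (Finset.univ.filter (fun t : Option (X.Tri ⊕ Y.Tri) => K t = some (some (Sum.inr c)))).card := by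
        rw [card_filter_opt]
        simpa [K] using h2' c
      exact key
  · rw [Fintype.card_option, Fintype.card_sum, h3, h3']
  · have key : (Finset.univ.filter (fun t : Option (X.Tri ⊕ Y.Tri) => K t = none)).card = a + a' := by
      rw [card_filter_opt]
      simp only [K, Option.map_eq_none_iff, h4, h4']
      simp
    exact key
  · simp [join, K]

end Pool.Agent.Q46.Td
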