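import Pool.Agent.Q46.TdC

set_option linter.unusedVariables false
set_option linter.unusedSimpArgs false
set_option linter.unusedSectionVars false

namespace Pool.Agent.Q46.Td

/-! the end block -/

def endO : Fin 3 × Fin 3 → Fin 3 × Fin 3 := fun v =>
  if v = (0, 1) then (1, 0) else if v = (1, 0) then (0, 1) else
  if v = (0, 2) then (2, 0) else if v = (2, 0) then (0, 2) else
  if v = (1, 1) then (2, 1) else if v = (2, 1) then (1, 1) else
  if v = (1, 2) then (2, 2) else if v = (2, 2) then (1, 2) else (0, 0)

def endB : Op where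
  Tri := Fin 3
  fT := inferInstance
  dT := inferInstance
  o := endO
  r := (0, 0)
  inv := by decide
  loop := by decide
  root := by decide
  conn := by
    intro t
    fin_cases t
    · exact Relation.ReflTransGen.refl
    · exact Relation.ReflTransGen.single ⟨1, by decide⟩
    · exact Relation.ReflTransGen.single ⟨2, by decide⟩

lemma endB_card : Fintype.card endB.Tri = 3 := rfl

lemma endB_col : endB.Col 1 0 false := by
  refine ⟨Unit, inferInstance, inferInstance, fun _ => some (), ?_, ?_, ?_, ?_, ?_⟩
  · intro v; right; right; rfl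
  · intro c
    have : (Finset.univ.filter (fun t : Fin 3 => (fun _ => some ()) t = some c)).card = 3 := by
      simp
    have h2 : Odd 3 := by decide
    rw [← this] at h2
    exact h2
  · rfl
  · have : (Finset.univ.filter (fun t : Fin 3 => (fun _ => some ()) t = (none : Option Unit))).card = 0 := by
      simp
    exact this
  · simp

/-! a pair in series in front of the root -/

def pairO (X : Op) : (Option (Option X.Tri)) × Fin 3 → (Option (Option X.Tri)) × Fin 3
  | (none, i) => if i = 1 then (some none, 1) else if i = 2 then (some none, 2) else (none, 0)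
  | (some none, i) => if i = 1 then (none, 1) else if i = 2 then (none, 2) else (some (some X.r.1), X.r.2)
  | (some (some t), i) => if (t, i) = X.r then (some none, 0) else (some (some (X.o (t, i)).1), (X.o (t, i)).2)

lemma pairO_00 (X : Op) : pairO X (none, 0) = (none, 0) := by simp [pairO]
lemma pairO_01 (X : Op) : pairO X (none, 1) = (some none, 1) := by simp [pairO]
lemma pairO_02 (X : Op) : pairO X (none, 2) = (some none, 2) := by simp [pairO]
lemma pairO_10 (X : Op) : pairO X (some none, 0) = (some (some X.r.1), X.r.2) := by simp [pairO]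
lemma pairO_11 (X : Op) : pairO X (some none, 1) = (none, 1) := by simp [pairO]
lemma pairO_12 (X : Op) : pairO X (some none, 2) = (none, 2) := by simp [pairO]
lemma pairO_r (X : Op) : pairO X (some (some X.r.1), X.r.2) = (some none, 0) := by simp [pairO]
lemma pairO_t (X : Op) {t i} (h : (t, i) ≠ X.r) :
    pairO X (some (some t), i) = (some (some (X.o (t, i)).1), (X.o (t, i)).2) := by
  simp only [pairO]; rw [if_neg h]

lemma pair_cases (X : Op) {P : (Option (Option X.Tri)) × Fin 3 → Prop}
    (h0 : P (none, 0)) (h1 : P (none, 1)) (h2 : P (none, 2))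
    (g0 : P (some none, 0)) (g1 : P (some none, 1)) (g2 : P (some none, 2))
    (hl : P (some (some X.r.1), X.r.2)) (hl' : ∀ t i, (t, i) ≠ X.r → P (some (some t), i)) :
    ∀ v, P v := by
  rintro ⟨(_ | _ | t), i⟩
  · fin_cases i
    · exact h0
    · exact h1
    · exact h2
  · fin_cases i
    · exact g0
    · exact g1
    · exact g2
  · by_cases h : (t, i) = X.r
    · have h1 : t = X.r.1 := by rw [← h]
      have h2 : i = X.r.2 := by rw [← h]
      rw [h1, h2]; exact hl
    · exact hl' t i h

def pair (X : Op) : Op where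
  Tri := Option (Option X.Tri)
  fT := inferInstance
  dT := inferInstance
  o := pairO X
  r := (none, 0)
  inv := by
    apply pair_cases
    · rw [pairO_00, pairO_00]
    · rw [pairO_01, pairO_11]
    · rw [pairO_02, pairO_12]
    · rw [pairO_10, pairO_r]
    · rw [pairO_11, pairO_01]
    · rw [pairO_12, pairO_02]
    · rw [pairO_r, pairO_10]
    · intro t i h
      rw [pairO_t _ h, pairO_t _ (X.o_ne h), X.inv]
  loop := by
    apply pair_cases
    · intro _; rfl
    · rw [pairO_01]; intro h; simp at h
    · rw [pairO_02]; intro h; simp at h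
    · rw [pairO_10]; intro h; simp at h
    · rw [pairO_11]; intro h; simp at h
    · rw [pairO_12]; intro h; simp at h
    · rw [pairO_r]; intro h; simp at h
    · intro t i h h'
      rw [pairO_t _ h] at h'
      simp only [Option.some.injEq] at h'
      exact absurd (X.loop _ h') h
  root := pairO_00 X
  conn := by
    have h1 : Relation.ReflTransGen (fun a b => ∃ i, (pairO X (a, i)).1 = b) none (some none) :=
      Relation.ReflTransGen.single ⟨1, by rw [pairO_01]⟩
    have h0 : Relation.ReflTransGen (fun a b => ∃ i, (pairO X (a, i)).1 = b) none (some (some X.r.1)) :=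
      h1.tail ⟨0, by rw [pairO_10]⟩
    have hX : ∀ t, Relation.ReflTransGen (fun a b => ∃ i, (pairO X (a, i)).1 = b) none (some (some t)) := by
      intro t
      have := X.conn t
      induction this with
      | refl => exact h0
      | tail hab hbc ih =>
        rename_i b c
        obtain ⟨i, hi⟩ := hbc
        by_cases h : (b, i) = X.r
        · have : c = b := by rw [← hi, h, X.root, ← h]
          rw [this]; exact ih
        · exact ih.tail ⟨i, by rw [pairO_t _ h, hi]⟩
    rintro (_ | _ | t)
    · exact Relation.ReflTransGen.refl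
    · exact h1
    · exact hX t

lemma pair_card (X : Op) : Fintype.card (pair X).Tri = Fintype.card X.Tri + 2 := by
  change Fintype.card (Option (Option X.Tri)) = _
  rw [Fintype.card_option, Fintype.card_option]

lemma pair_col (X : Op) {i a} (hX : X.Col i a false) : (pair X).Col i a false := by
  obtain ⟨ι, f1, d1, κ, h1, h2, h3, h4, h5⟩ := hX
  have h5' : κ X.r.1 ≠ none := fun h => by simpa using h5.1 h
  let K : Option (Option X.Tri) → Option ι := fun t =>
    match t with
    | none => κ X.r.1
    | some none => κ X.r.1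
    | some (some t) => κ t
  have hcard : ∀ P : Option (Option X.Tri) → Prop, ∀ _ : DecidablePred P, (Finset.univ.filter P).card =
      (if P none then 1 else 0) + ((if P (some none) then 1 else 0) +
      (Finset.univ.filter (fun a => P (some (some a)))).card) := by
    intro P _
    simp only [Finset.card_filter, Fintype.sum_option]
  refine ⟨ι, inferInstance, inferInstance, K, ?_, ?_, h3, ?_, ?_⟩
  · change ∀ v : (Option (Option X.Tri)) × Fin 3, K v.1 = none ∨ K (pairO X v).1 = none ∨ K v.1 = K (pairO X v).1
    apply pair_cases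
    · right; right; rw [pairO_00]
    · right; right; rw [pairO_01]
    · right; right; rw [pairO_02]
    · right; right; rw [pairO_10]
    · right; right; rw [pairO_11]
    · right; right; rw [pairO_12]
    · right; right; rw [pairO_r]
    · intro t i h
      rw [pairO_t _ h]
      exact h1 (t, i)
  · intro c
    have key : Odd (Finset.univ.filter (fun t : Option (Option X.Tri) => K t = some c)).card := by
      rw [hcard]
      simp only [K]
      obtain ⟨m, hm⟩ := h2 c
      by_cases h : κ X.r.1 = some c
      · rw [if_pos h, hm]; exact ⟨m + 1, by ring⟩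
      · rw [if_neg h, hm]; exact ⟨m, by ring⟩
    exact key
  · have key : (Finset.univ.filter (fun t : Option (Option X.Tri) => K t = none)).card = a := by
      rw [hcard]
      simp only [K]
      rw [if_neg h5', h4]; ring
    exact key
  · simp only [pair, K]
    exact h5

/-! gluing two open structures along their roots -/

def glueO (X Y : Op) : (X.Tri ⊕ Y.Tri) × Fin 3 → (X.Tri ⊕ Y.Tri) × Fin 3
  | (Sum.inl t, i) => if (t, i) = X.r then (Sum.inr Y.r.1, Y.r.2) else (Sum.inl (X.o (t, i)).1, (X.o (t, i)).2)
  | (Sum.inr t, i) => if (t, i) = Y.r then (Sum.inl X.r.1, X.r.2) else (Sum.inr (Y.o (t, i)).1, (Y.o (t, i)).2)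

lemma glueO_l (X Y : Op) {t i} (h : (t, i) ≠ X.r) :
    glueO X Y (Sum.inl t, i) = (Sum.inl (X.o (t, i)).1, (X.o (t, i)).2) := by
  simp only [glueO]; rw [if_neg h]
lemma glueO_l' (X Y : Op) : glueO X Y (Sum.inl X.r.1, X.r.2) = (Sum.inr Y.r.1, Y.r.2) := by
  simp [glueO]
lemma glueO_r (X Y : Op) {t i} (h : (t, i) ≠ Y.r) :
    glueO X Y (Sum.inr t, i) = (Sum.inr (Y.o (t, i)).1, (Y.o (t, i)).2) := by
  simp only [glueO]; rw [if_neg h]
lemma glueO_r' (X Y : Op) : glueO X Y (Sum.inr Y.r.1, Y.r.2) = (Sum.inl X.r.1, X.r.2) := by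
  simp [glueO]

lemma glue_cases (X Y : Op) {P : (X.Tri ⊕ Y.Tri) × Fin 3 → Prop}
    (hl : P (Sum.inl X.r.1, X.r.2)) (hl' : ∀ t i, (t, i) ≠ X.r → P (Sum.inl t, i))
    (hr : P (Sum.inr Y.r.1, Y.r.2)) (hr' : ∀ t i, (t, i) ≠ Y.r → P (Sum.inr t, i)) :
    ∀ v, P v := by
  rintro ⟨(t | t), i⟩
  · by_cases h : (t, i) = X.r
    · have h1 : t = X.r.1 := by rw [← h]
      have h2 : i = X.r.2 := by rw [← h]
      rw [h1, h2]; exact hl
    · exact hl' t i h
  · by_cases h : (t, i) = Y.r
    · have h1 : t = Y.r.1 := by rw [← h]
      have h2 : i = Y.r.2 := by rw [← h]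
      rw [h1, h2]; exact hr
    · exact hr' t i h

def glue (X Y : Op) : TS ((X.Tri ⊕ Y.Tri) × Fin 3) (X.Tri ⊕ Y.Tri) where
  T := Prod.fst
  o := glueO X Y
  inv := by
    apply glue_cases
    · rw [glueO_l', glueO_r']
    · intro t i h; rw [glueO_l _ _ h, glueO_l _ _ (X.o_ne h), X.inv]
    · rw [glueO_r', glueO_l']
    · intro t i h; rw [glueO_r _ _ h, glueO_r _ _ (Y.o_ne h), Y.inv]
  loop := by
    apply glue_cases
    · rw [glueO_l']; simp
    · intro t i h h'
      rw [glueO_l _ _ h] at h'
      simp only [Sum.inl.injEq] at h'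
      exact h (X.loop _ h')
    · rw [glueO_r']; simp
    · intro t i h h'
      rw [glueO_r _ _ h] at h'
      simp only [Sum.inr.injEq] at h'
      exact h (Y.loop _ h')
  fib := by
    intro t
    have : (Finset.univ.filter (fun v : (X.Tri ⊕ Y.Tri) × Fin 3 => v.1 = t)) = ({t} : Finset _) ×ˢ Finset.univ := by
      ext v
      rw [Finset.mem_product, Finset.mem_singleton, Finset.mem_filter]
      simp only [Finset.mem_univ, true_and, and_true]
    rw [this, Finset.card_product]
    simp

lemma glue_conn (X Y : Op) : (glue X Y).graph.Connected := by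
  rw [SimpleGraph.connected_iff_exists_forall_reachable]
  refine ⟨(Sum.inl X.r.1, X.r.2), ?_⟩
  have htri : ∀ t i j, (glue X Y).graph.Reachable (t, i) (t, j) := by
    intro t i j
    by_cases h : i = j
    · rw [h]
    · exact SimpleGraph.Adj.reachable (Or.inl ⟨fun e => h (congrArg Prod.snd e), rfl⟩)
  have hX : ∀ t i, (glue X Y).graph.Reachable (Sum.inl X.r.1, X.r.2) (Sum.inl t, i) := by
    intro t
    have := X.conn t
    induction this with
    | refl => intro i; exact htri _ _ _
    | tail hab hbc ih =>
      rename_i b c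
      intro j
      obtain ⟨i, hi⟩ := hbc
      by_cases h : (b, i) = X.r
      · have : c = b := by rw [← hi, h, X.root, ← h]
        rw [this]; exact ih j
      · have h1 := ih i
        have h2 : (glue X Y).graph.Reachable (Sum.inl b, i) (Sum.inl c, (X.o (b, i)).2) := by
          refine SimpleGraph.Adj.reachable (Or.inr ?_)
          change _ = glueO X Y (Sum.inl b, i)
          rw [glueO_l _ _ h, hi]
        exact (h1.trans h2).trans (htri _ _ _)
  have hY : ∀ t i, (glue X Y).graph.Reachable (Sum.inl X.r.1, X.r.2) (Sum.inr t, i) := by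
    intro t
    have h0 : (glue X Y).graph.Reachable (Sum.inl X.r.1, X.r.2) (Sum.inr Y.r.1, Y.r.2) := by
      refine SimpleGraph.Adj.reachable (Or.inr ?_)
      change _ = glueO X Y (Sum.inl X.r.1, X.r.2)
      rw [glueO_l']
    have := Y.conn t
    induction this with
    | refl => intro i; exact h0.trans (htri _ _ _)
    | tail hab hbc ih =>
      rename_i b c
      intro j
      obtain ⟨i, hi⟩ := hbc
      by_cases h : (b, i) = Y.r
      · have : c = b := by rw [← hi, h, Y.root, ← h]
        rw [this]; exact ih j
      · have h1 := ih i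
        have h2 : (glue X Y).graph.Reachable (Sum.inr b, i) (Sum.inr c, (Y.o (b, i)).2) := by
          refine SimpleGraph.Adj.reachable (Or.inr ?_)
          change _ = glueO X Y (Sum.inr b, i)
          rw [glueO_r _ _ h, hi]
        exact (h1.trans h2).trans (htri _ _ _)
  rintro ⟨(t | t), i⟩
  · exact hX t i
  · exact hY t i

lemma glue_lower (X Y : Op) {i a i' a'} (hX : X.Col i a true) (hY : Y.Col i' a' false)
    (D : Finset ((X.Tri ⊕ Y.Tri) × Fin 3)) (hD : IsTotalDominating (glue X Y).graph D) :
    Fintype.card X.Tri + Fintype.card Y.Tri + (i + i') ≤ D.card + (a + a') := by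
  obtain ⟨ι, f1, d1, κ, h1, h2, h3, h4, h5⟩ := hX
  obtain ⟨ι', f1', d1', κ', h1', h2', h3', h4', h5'⟩ := hY
  have h5 := h5.2 rfl
  let K : (X.Tri ⊕ Y.Tri) → Option (ι ⊕ ι') := fun t =>
    match t with
    | Sum.inl t => (κ t).map Sum.inl
    | Sum.inr t => (κ' t).map Sum.inr
  have hcard : ∀ P : (X.Tri ⊕ Y.Tri) → Prop, ∀ _ : DecidablePred P, (Finset.univ.filter P).card =
      (Finset.univ.filter (fun a => P (Sum.inl a))).card + (Finset.univ.filter (fun a => P (Sum.inr a))).card := by
    intro P _
    simp only [Finset.card_filter, Fintype.sum_sum_type]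
  have key := (glue X Y).lower K (by
    apply glue_cases
    · left
      change (κ X.r.1).map Sum.inl = none
      rw [h5]; rfl
    · intro t i h
      change K (Sum.inl t) = none ∨ K (glueO X Y (Sum.inl t, i)).1 = none ∨ K (Sum.inl t) = K (glueO X Y (Sum.inl t, i)).1
      rw [glueO_l _ _ h]
      simp only [K]
      rcases h1 (t, i) with h | h | h
      · left; rw [h]; rfl
      · right; left; rw [h]; rfl
      · right; right; rw [← h]
    · right; left
      change K (glueO X Y (Sum.inr Y.r.1, Y.r.2)).1 = none
      rw [glueO_r']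
      change (κ X.r.1).map Sum.inl = none
      rw [h5]; rfl
    · intro t i h
      change K (Sum.inr t) = none ∨ K (glueO X Y (Sum.inr t, i)).1 = none ∨ K (Sum.inr t) = K (glueO X Y (Sum.inr t, i)).1
      rw [glueO_r _ _ h]
      simp only [K]
      rcases h1' (t, i) with h | h | h
      · left; rw [h]; rfl
      · right; left; rw [h]; rfl
      · right; right; rw [← h]) (by
    rintro (c | c)
    · rw [hcard]
      simpa [K] using h2 c
    · rw [hcard]
      simpa [K] using h2' c) D hD
  rw [hcard] at key
  simp only [K, Option.map_eq_none_iff, h4, h4', Fintype.card_sum, h3, h3'] at key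
  omega

lemma exists_open (k : ℕ) : ∃ X : Op, Fintype.card X.Tri = 12 * k + 7 ∧ X.Col (4 * k + 2) (2 * k + 1) true := by
  have hbase : (join endB endB).Col 2 1 true := join_colA _ _ endB_col endB_col
  have hbc : Fintype.card (join endB endB).Tri = 7 := by rw [join_card, endB_card]
  induction k with
  | zero => exact ⟨join endB endB, hbc, hbase⟩
  | succ k ih =>
    obtain ⟨X, hc, hX⟩ := ih
    refine ⟨join (join X (join endB endB)) endB, ?_, ?_⟩
    · rw [join_card, join_card, hc, hbc, endB_card]; ring
    · have h1 := join_colC _ _ hX hbase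
      have h2 := join_colA _ _ h1 endB_col
      have e1 : 4 * (k + 1) + 2 = 4 * k + 2 + 2 + 1 + 1 := by ring
      have e2 : 2 * (k + 1) + 1 = 2 * k + 1 + 1 + 0 + 1 := by ring
      rw [e1, e2]; exact h2

lemma exists_cap (p : ℕ) : ∃ X : Op, Fintype.card X.Tri = 2 * p + 3 ∧ X.Col 1 0 false := by
  induction p with
  | zero => exact ⟨endB, endB_card, endB_col⟩
  | succ p ih =>
    obtain ⟨X, hc, hX⟩ := ih
    exact ⟨pair X, by rw [pair_card, hc]; ring, pair_col X hX⟩

/-- the extremal graphs -/
theorem exists_extremal (m : ℕ) (hm : Even m) (hm10 : 10 ≤ m) :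
    ∃ (V : Type) (_ : Fintype V) (G : SimpleGraph V), Fintype.card V = 3 * m ∧ InC G ∧
      ∀ D : Finset V, IsTotalDominating G D → m + 2 * ((m + 2) / 12) ≤ D.card := by
  obtain ⟨X, hXc, hX⟩ := exists_open ((m - 10) / 12)
  obtain ⟨Y, hYc, hY⟩ := exists_cap (((m - 10) % 12) / 2)
  obtain ⟨j, hj⟩ := hm
  have hcard : Fintype.card X.Tri + Fintype.card Y.Tri = m := by
    rw [hXc, hYc]; omega
  refine ⟨(X.Tri ⊕ Y.Tri) × Fin 3, inferInstance, (glue X Y).graph, ?_, (glue X Y).inC (glue_conn X Y), ?_⟩
  · rw [Fintype.card_prod, Fintype.card_sum, hcard, Fintype.card_fin]; ring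
  · intro D hD
    have := glue_lower X Y hX hY D hD
    rw [hcard] at this
    omega

end Pool.Agent.Q46.Td
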